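import Pool.Agent.MP_c69980_ag.G3.SpecI

/-!
The end atlas of a stable state.
-/

set_option autoImplicit false

noncomputable section

namespace Pool.Agent.MP_c69980_ag.G3

open Metric Filter Topology Set

namespace AtlX

variable {M : Type} [MetricSpace M] {A : Amb M} {S : Sk A} {al : Finset S.Cmp} (a : CA S al)

theorem thr {P : ℂ → Prop} (h : ∀ᶠ t in A.l, P t) :
    ∃ m : ℝ, A.M₀ < m ∧ ∀ t, m ≤ A.dp t → P t := by
  obtain ⟨m, hm⟩ := eventually_atTop.1 (eventually_comap.1 h)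
  exact ⟨max m (A.M₀ + 1), (lt_add_one _).trans_le (le_max_right _ _),
    fun t ht => hm _ ((le_max_left _ _).trans ht) t rfl⟩

theorem dp_per (N : ℕ) (t : ℂ) : A.dp (t + tp N) = A.dp t := by
  simp [Amb.dp, tp]

theorem dp_lip (t t' : ℂ) : |A.dp t - A.dp t'| ≤ ‖t - t'‖ := by
  refine le_trans (le_of_eq ?_) (Complex.abs_re_le_norm _)
  rw [Amb.dp, Amb.dp, ← mul_sub, abs_mul, Complex.sub_re]
  rcases A.hσ with h | h <;> simp [h]

/-- The charts that are used. -/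
def ok : (M × ℕ) ⊕ S.Prt → Prop :=
  Sum.elim (fun x => x.1 ∈ a.F ∧ x.2 < S.a (a.kf x.1)) fun π => S.cm π ∈ al

theorem fin : {i | ok a i}.Finite :=
  finite_preimage_inl_and_inr.1 ⟨(a.F.finite_toSet.prod (finite_Iio (Finset.univ.sup S.a))).subset
    fun _ hx => ⟨hx.1, hx.2.trans_le (Finset.le_sup (Finset.mem_univ _))⟩, toFinite _⟩

/-- The necks are long. -/
def Nk (t : ℂ) : Prop := ∀ π, S.cm π ∈ al → a.s.e.κ π = .neck →
  1 ≤ -Real.log ‖a.s.e.c π t‖ ∧ ContinuousAt (fun t => -Real.log ‖a.s.e.c π t‖) t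

/-- The edges are charts. -/
def Cu (t : ℂ) : Prop := ∀ π, S.cm π ∈ al → a.s.e.κ π = .cusp → ∀ b : ℂ, ‖b‖ ≤ a.r₃ →
  A.LC (a.s.e.E π) (t, b) ∧ (t, a.s.e.E π (t, 0)) ∉ A.Z ∧
    ∀ b' : ℂ, ‖b'‖ ≤ a.r₃ → a.s.e.E π (t, b) = a.s.e.E π (t, b') → b = b'

open Classical in
/-- The charts at the punctures. -/
def pu : (M × ℕ) ⊕ S.Prt → Option (C2 → M) :=
  Sum.elim (fun _ => none) fun π =>
    if a.s.e.κ π = .cusp then some fun p => a.s.e.E π (p.1, a.r₃ * p.2) else none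

theorem nk : ∀ᶠ t in A.l, Nk a t := eventually_all.2 fun π => by
  by_cases h : S.cm π ∈ al ∧ a.s.e.κ π = .neck
  · obtain ⟨h1, K, h2⟩ := (a.s.e.ise π h.1).cc h.2
    filter_upwards [h2, h1.norm.eventually_le_const
      (show ‖(0 : ℂ)‖ < Real.exp (-1) by simpa using Real.exp_pos _)] with t k1 k2 _ _
    have p := (Real.exp_pos _).trans_le k1.2
    exact ⟨by linarith [(Real.log_le_iff_le_exp p).2 k2],
      (k1.1.continuousAt.norm.log p.ne').neg⟩
  · exact .of_forall fun t h1 h2 => absurd ⟨h1, h2⟩ h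

theorem cu : ∀ᶠ t in A.l, Cu a t := eventually_all.2 fun π => by
  by_cases h : S.cm π ∈ al
  · filter_upwards [(a.s.e.ise π h).lc _ a.r3r] with t k _ e b hb
    have m : ∀ b : ℂ, ‖b‖ ≤ a.r₃ → b ∈ De (a.s.e.κ π) (a.s.e.c π t) a.r₃ := fun b hb =>
      ⟨hb, fun r => by rw [e] at r; cases r⟩
    exact ⟨(k b (m b hb)).1, fun r => (k 0 (m 0 (by simpa using a.r30.le))).2.1.1 r e rfl,
      fun b' hb' => (k b (m b hb)).2.2 b' (m b' hb')⟩
  · exact .of_forall fun t h1 => absurd h1 h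

variable {a} {θ θ' : ℝ} {i : (M × ℕ) ⊕ S.Prt} {p : C2} {t w w' : ℂ}

theorem ok_of (h : p ∈ a.O θ i) : ok a i := by
  cases i
  · exact ⟨h.1, h.2.1⟩
  · exact h.1

theorem sc1 (hθ : θ ≤ 4) (h : p ∈ a.O θ i) : 1 ≤ a.sc i p := by
  cases i with
  | inl x => exact le_rfl
  | inr π =>
    have h2 := h.2
    unfold CA.sc
    dsimp only
    split_ifs at h2 ⊢
    · exact le_rfl
    · linarith [h2.1]

theorem step (hN : Nk a t) (hθ : θ + 1 ≤ θ') (h : (t, w) ∈ a.O θ i) (hw : ‖w' - w‖ ≤ 1 / 20) :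
    (t, w') ∈ a.O θ' i := by
  have n1 := norm_sub_norm_le w' w
  have n2 := abs_le.1 ((Complex.abs_re_le_norm (w' - w)).trans hw)
  rw [Complex.sub_re] at n2
  cases i with
  | inl x => exact ⟨h.1, h.2.1, by have := h.2.2; dsimp only at this ⊢; linarith⟩
  | inr π =>
    refine ⟨h.1, ?_⟩
    have h2 := h.2
    dsimp only at h2 ⊢
    split_ifs at h2 ⊢
    · linarith
    · refine ⟨by linarith [h2.1], fun e => ?_⟩
      nlinarith [h2.2 e, (hN π h.1 e).1,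
        mul_nonneg (sub_nonneg.2 hθ) (zero_le_one.trans (hN π h.1 e).1)]

theorem opn (hN : Nk a p.1) (h : p ∈ a.O 1 i) : a.O 2 i ∈ 𝓝 p := by
  have n : ‖p.2‖ ≤ (3 + 1) / 8 → ∀ᶠ q : C2 in 𝓝 p, ‖q.2‖ ≤ (3 + 2) / 8 := fun r =>
    continuous_snd.norm.continuousAt.eventually_le_const (by linarith)
  cases i with
  | inl x => exact (n h.2.2).mono fun q hq => ⟨h.1, h.2.1, hq⟩
  | inr π =>
    have h2 := h.2
    by_cases e : a.s.e.κ π = .disc
    · rw [if_pos e] at h2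
      exact (n h2).mono fun q hq => ⟨h.1, by rwa [if_pos e]⟩
    rw [if_neg e] at h2
    have c : ContinuousAt (fun q : C2 => q.2.re) p := by fun_prop
    have n1 : ∀ᶠ q : C2 in 𝓝 p, q.2.re ≤ (2 - 4) / 3 :=
      c.eventually_le_const (by linarith [h2.1])
    by_cases e' : a.s.e.κ π = .neck
    · obtain ⟨k1, k2⟩ := hN π h.1 e'
      have n2 := c.neg.eventually_lt ((k2.comp continuousAt_fst).const_mul ((11 + 2) / 20))
        (show -p.2.re < (11 + 2) / 20 * -Real.log ‖a.s.e.c π p.1‖ by linarith [h2.2 e'])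
      filter_upwards [n1, n2] with q q1 q2
      exact ⟨h.1, by rw [if_neg e]; exact ⟨q1, fun _ => q2.le⟩⟩
    · exact n1.mono fun q q1 => ⟨h.1, by rw [if_neg e]; exact ⟨q1, fun r => absurd r e'⟩⟩

theorem pu_eq {E : C2 → M} (h : pu a i = some E) : ∃ π, i = .inr π ∧ a.s.e.κ π = .cusp ∧
    E = fun p => a.s.e.E π (p.1, a.r₃ * p.2) := by
  cases i with
  | inl x => cases h
  | inr π =>
    unfold pu at h
    rw [Sum.elim_inr] at h
    split_ifs at h with e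
    exact ⟨π, rfl, e, (Option.some.inj h).symm⟩

theorem perY (h : ok a i) : Pd S.N (a.Y i) := fun t w => by
  cases i with
  | inl x => exact S.Tp _ _ _ _
  | inr π =>
    unfold CA.Y
    dsimp only
    rw [(a.s.e.pe π h).1, (a.s.e.pe π h).1]

theorem perO (h : ok a i) (m : ℝ) :
    Pd S.N (· ∈ {p : C2 | m ≤ A.dp p.1} ∩ a.O θ i) := fun t w => by
  have e : ((t + tp S.N, w) ∈ a.O θ i) = ((t, w) ∈ a.O θ i) := by
    cases i with
    | inl x => rfl
    | inr π =>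
      unfold CA.O
      simp only [mem_setOf_eq]
      rw [(a.s.e.pe π h).2]
  simp only [mem_inter_iff, mem_setOf_eq, e, dp_per]

theorem cusp {m : ℝ} (H : ∀ t, m ≤ A.dp t → Cu a t) (h : ok a i) {E : C2 → M}
    (hE : pu a i = some E) : (∀ t w, a.Y i (t, w) = E (t, Complex.exp w)) ∧
    ∀ t, m ≤ A.dp t → (∀ w : ℂ, w.re ≤ -1 → (t, w) ∈ {p : C2 | m ≤ A.dp p.1} ∩ a.O 1 i) ∧
      (∀ w, (t, w) ∈ {p : C2 | m ≤ A.dp p.1} ∩ a.O 3 i → w.re ≤ 0) ∧
      (t, E (t, 0)) ∉ A.Z ∧ ∀ b : ℂ, ‖b‖ ≤ 1 → A.LC E (t, b) ∧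
        ∀ b' : ℂ, ‖b'‖ ≤ 1 → E (t, b) = E (t, b') → b = b' := by
  obtain ⟨π, rfl, e, rfl⟩ := pu_eq hE
  have e1 : a.s.e.κ π ≠ .disc := by rw [e]; decide
  have e2 : a.s.e.κ π ≠ .neck := by rw [e]; decide
  have r0 : (a.r₃ : ℂ) ≠ 0 := Complex.ofReal_ne_zero.2 a.r30.ne'
  have n : ∀ b : ℂ, ‖b‖ ≤ 1 → ‖a.r₃ * b‖ ≤ a.r₃ := fun b hb => by
    rw [norm_mul, Complex.norm_of_nonneg a.r30.le]
    exact mul_le_of_le_one_right a.r30.le hb
  refine ⟨fun t w => if_neg e1, fun t ht => ⟨fun w hw => ⟨ht, h, ?_⟩, fun w hw => ?_, ?_,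
    fun b hb => ⟨?_, fun b' hb' r => mul_left_cancel₀ r0 ((H t ht π h e _ (n b hb)).2.2 _
      (n b' hb') r)⟩⟩⟩
  · rw [if_neg e1]
    exact ⟨by linarith, fun r => absurd r e2⟩
  · have := hw.2.2
    rw [if_neg e1] at this
    linarith [this.1]
  · simpa using (H t ht π h e _ (n 0 (by simp))).2.1
  · have d : HasFDerivAt (fun p : C2 => a.r₃ * p.2) _ (t, b) :=
      (hasFDerivAt_snd (𝕜 := ℂ)).const_mul _
    refine (A.comp _ _ (t, b) (fun p => a.r₃ * p.2) (H t ht π h e _ (n b hb)).1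
      (analyticAt_const.mul analyticAt_snd) ?_ (.of_forall fun _ => rfl)).1
    rw [dw, d.fderiv]
    simpa using a.r30.ne'

theorem geo {t₁ : ℂ} {m κ : ℝ} (hm : 0 < m) (h : 2 * m ≤ A.dp t₁) (hκ : κ ≤ 1 / 16)
    (ht : t ∈ ball t₁ (κ * A.dp t₁)) : m ≤ A.dp t ∧ A.dp t₁ / 2 ≤ A.dp t ∧
      ball t (A.dp t / 4) ⊆ ball t₁ (A.dp t₁ / 2) := by
  have h1 := mem_ball_iff_norm.1 ht
  have h2 := abs_le.1 (dp_lip (A := A) t t₁)
  have h3 := mul_le_mul_of_nonneg_right hκ (show 0 ≤ A.dp t₁ by linarith)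
  refine ⟨by linarith, by linarith, ball_subset_ball' ?_⟩
  rw [dist_eq_norm]
  linarith

end AtlX

open AtlX in
theorem atlS : AtlOf := by
  rintro - M _ A S al a hL ⟨C₁, hB⟩ hC ⟨C₂, c2, hT⟩ hS ⟨κ, k0, k1, hl⟩ ⟨B, B0, hs⟩
  obtain ⟨m, m0, H⟩ := thr (hL.and (hB.and (hC.and (hT.and (hS.and (hl.and (hs.and
    ((nk a).and (cu a)))))))))
  simp only [imp_and, forall_and] at H
  obtain ⟨⟨hL, hI⟩, hB, hC, ⟨hT, hT'⟩, hS, hl, hs, hN, hU⟩ := H
  have m1 : 0 < m := by linarith [A.M0]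
  have d1 : min (1 / 20) C₂⁻¹ ≤ (1 / 20 : ℝ) := min_le_left _ _
  have c3 : C₂ ≤ max C₁ (2 * C₂) := le_trans (by linarith) (le_max_right _ _)
  have c4 : 2 ≤ max C₁ (2 * C₂) := le_trans (by linarith) (le_max_right _ _)
  have n0 : ∀ w : ℂ, ‖w - w‖ ≤ 1 / 20 := fun w => by norm_num
  have k2 : min κ (κ / (2 * B)) ≤ 1 / 16 := (min_le_left _ _).trans k1
  have k3 : 0 < min κ (κ / (2 * B)) := lt_min k0 (by positivity)
  have := (fin a).fintype
  exact ⟨{
    ι := {i | ok a i}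
    Y := fun i => a.Y i
    O₁ := fun i => {p | m ≤ A.dp p.1} ∩ a.O 1 i
    O₂ := fun i => {p | m ≤ A.dp p.1} ∩ a.O 2 i
    O₃ := fun i => {p | m ≤ A.dp p.1} ∩ a.O 3 i
    sc := fun i => a.sc i
    pu := fun i => pu a i
    M₁ := m
    κ := min κ (κ / (2 * B))
    δ := min (1 / 20) C₂⁻¹
    C := max C₁ (2 * C₂)
    N := S.N
    N0 := S.N0
    per := fun ⟨i, hi⟩ => ⟨perY hi, perO hi m, perO hi m, perO hi m,
      fun _ _ => by cases i <;> rfl, fun E hE => by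
        obtain ⟨π, rfl, -, rfl⟩ := pu_eq hE
        exact fun t w => (a.s.e.pe π hi).1 _ _⟩
    MM := m0
    κ0 := ⟨k3, k2⟩
    δ0 := lt_min (by norm_num) (by positivity)
    C1 := c2.trans c3
    o12 := fun i t w w' h hw => ⟨h.1, step (hN t h.1) (by norm_num) h.2 (hw.trans d1)⟩
    o23 := fun i p h => ⟨h.1, step (hN p.1 h.1) (by norm_num) h.2 (n0 p.2)⟩
    opn := fun i p h h' => inter_mem (Tendsto.eventually_const_le h'
      (show ContinuousAt (fun p : C2 => A.dp p.1) p by unfold Amb.dp; fun_prop)) (opn (hN p.1 h.1) h.2)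
    lc := fun i t w w' h hw => by
      have s := fun v (hv : ‖v - w‖ ≤ min (1 / 20) C₂⁻¹) =>
        step (θ' := 4) (hN t h.1) (by norm_num) h.2 (hv.trans d1)
      refine ⟨hL t h.1 _ _ (s w' hw), fun l => (hB t h.1 _ _ (s w' hw) l).trans (le_max_left _ _),
        fun v hv => hI t h.1 _ _ (s w' hw) v (s v hv) ?_⟩
      linarith [norm_sub_le_norm_sub_add_norm_sub w' w v, norm_sub_rev w v]
    cov := fun x hx h => by
      rcases hC x.1 h x.2 (A.sub hx) with ⟨i, w, h1, h2⟩ | ⟨π, h1, h2, h3⟩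
      · exact ⟨⟨i, ok_of h1⟩, w, ⟨h, h1⟩, h2⟩
      · exact absurd (h3 ▸ hx) (hU x.1 h π h1 h2 0 (by simpa using a.r30.le)).2.1
    tr := fun i j t w v w' h h' e hw => by
      have b := mul_le_mul_of_nonneg_right c3 (norm_nonneg (w' - w))
      obtain ⟨v', h1, h2⟩ := hT' t h.1 _ _ w v h.2 h'.2 e w' (b.trans (hw.trans (min_le_right _ _)))
      exact ⟨v', h1.trans b, h2⟩
    sc1 := fun i p h => sc1 (by norm_num) h.2
    scc := fun i j t w v h h' e => (hT t h.1 _ _ w v h.2 h'.2 e).trans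
      (mul_le_mul_of_nonneg_right c3 (zero_le_one.trans (sc1 (by norm_num) h'.2)))
    scl := fun x hx h => (hS x.1 h x.2 hx).imp fun _ hB =>
      hB.mono fun _ k i w hw => k i w hw.2
    eq := fun i t₁ w₁ s h h2 hσ e => by
      have p : 0 < A.dp t₁ := by linarith
      have q := sc1 (by norm_num) h.2
      obtain ⟨ω, a1, a2, b1, b2, b3, b4, -⟩ := hl t₁ h.1 i w₁ s (min κ (κ / (2 * B)) * A.dp t₁)
        (2 * B / A.dp t₁) h.2 (by positivity) (mul_le_mul_of_nonneg_right (min_le_left _ _) p.le)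
        (by positivity) (by
          rw [mul_comm (min _ _), ← mul_assoc, div_mul_cancel₀ _ p.ne']
          exact (le_div_iff₀' (by positivity)).1 (min_le_right _ _))
        (fun t ht => hσ t (ball_subset_ball (by nlinarith) ht)) e fun t ht j ω hω => by
          obtain ⟨g1, g2, g3⟩ := geo m1 h2 k2 ht
          refine (hs t g1 s (fun z hz => hσ z (g3 hz)) j ω hω).trans (mul_le_mul_of_nonneg_right
            ?_ (zero_le_one.trans (sc1 (by norm_num) hω.2.1)))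
          rw [div_le_div_iff₀ (by linarith) p]
          nlinarith
      refine ⟨ω, a1.differentiableOn, a2, fun t ht => ?_⟩
      have := mul_le_mul_of_nonneg_right c4 (zero_le_one.trans q)
      exact ⟨⟨(geo m1 h2 k2 ht).1, b1 t ht⟩, b2 t ht, by linarith [b3 t ht],
        by linarith [b4 t ht]⟩
    cusp := fun i E hE => cusp hU i.2 hE
    bdy := fun x hx hx' h => by
      rcases hC x.1 h x.2 hx with ⟨i, w, h1, h2⟩ | ⟨π, h1, h2, h3⟩
      · have := (hL x.1 h i w (step (hN x.1 h) (by norm_num) h1 (n0 w))).2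
        rw [← h2] at this
        exact absurd this hx'
      · exact ⟨⟨.inr π, h1⟩, _, if_pos h2, by simpa using h3⟩ }⟩

end Pool.Agent.MP_c69980_ag.G3
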