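import Pool.Agent.MP_c69980_ag.G3.SpecW

/-!
Gluing of two charts along an annulus; spheres with at most two punctures do not occur.
-/

set_option autoImplicit false

noncomputable section

namespace Pool.Agent.MP_c69980_ag.G3

open Metric Filter Topology Set

namespace GlueX

theorem nb {x y : ℂ} {e : ℝ} (h : ‖x - y‖ ≤ e) : ‖y‖ - e ≤ ‖x‖ ∧ ‖x‖ ≤ ‖y‖ + e := by
  have := abs_le.1 ((abs_norm_sub_norm_le x y).trans h)
  constructor <;> linarith [this.1, this.2]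

theorem dw_snd {g : ℂ → ℂ} {p : C2} (hg : DifferentiableAt ℂ g p.2) :
    dw (fun q => g q.2) p = deriv g p.2 := by
  have := (hg.hasDerivAt.comp_hasFDerivAt p (hasFDerivAt_snd (𝕜 := ℂ))).fderiv
  unfold dw
  rw [show (fun q : C2 => g q.2) = g ∘ Prod.snd from rfl, this]
  simp

variable {M : Type} [MetricSpace M] {A : Amb M}

theorem comp1 {Y : C2 → M} {g : ℂ → ℂ} {t w : ℂ} (h : A.LC Y (t, g w)) (hg : AnalyticAt ℂ g w)
    (hd : deriv g w ≠ 0) : A.LC (fun q => Y (q.1, g q.2)) (t, w) :=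
  (A.comp Y _ (t, w) (fun q => g q.2) h (hg.fun_comp (f := Prod.snd) analyticAt_snd)
    (by rwa [dw_snd (p := (t, w)) hg.differentiableAt]) (Eventually.of_forall fun _ => rfl)).1

theorem comp_inv {Y : C2 → M} {t w : ℂ} (hw : w ≠ 0) (h : A.LC Y (t, w⁻¹)) :
    A.LC (fun q => Y (q.1, q.2⁻¹)) (t, w) :=
  comp1 (g := fun z => z⁻¹) h (analyticAt_id.inv hw)
    (by rw [deriv_inv]; exact neg_ne_zero.2 (inv_ne_zero (pow_ne_zero _ hw)))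

theorem inv_near {δ ε : ℝ} (hδ : 0 < δ) (hε : 0 < ε) : ∃ ε' : ℝ, 0 < ε' ∧ ∀ ξ w : ℂ, δ ≤ ‖ξ‖ →
    ‖w - ξ‖ < ε' → ‖w⁻¹ - ξ⁻¹‖ < ε := by
  refine ⟨min (δ / 2) (ε * (δ / 2 * δ)), by positivity, fun ξ w h1 h2 => ?_⟩
  have h3 := (nb (h2.le.trans (min_le_left _ _))).1
  have h4 : δ / 2 ≤ ‖w‖ := by linarith
  have hw : 0 < ‖w‖ := by linarith
  have hξ : 0 < ‖ξ‖ := by linarith
  rw [← dist_eq_norm, dist_inv_inv₀ (norm_pos_iff.1 hw) (norm_pos_iff.1 hξ), dist_eq_norm,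
    div_lt_iff₀ (by positivity)]
  exact (h2.trans_le (min_le_right _ _)).trans_le (by gcongr)

theorem edge {κ : Kd} {E P P' : C2 → M} {c : ℂ → ℂ} {r r' : ℝ} (h : IsE A κ E c r P P')
    (hκ : κ ≠ .neck) (hr : r' < r) : ∀ᶠ t in A.l, ∀ b : ℂ, ‖b‖ ≤ r' → A.LC E (t, b) ∧
      (b ≠ 0 → (t, E (t, b)) ∈ A.Z) ∧ ∀ b' : ℂ, ‖b'‖ ≤ r' → E (t, b) = E (t, b') → b = b' :=
  (h.lc r' hr).mono fun _ ht b hb =>
    have k := ht b ⟨hb, fun e => absurd e hκ⟩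
    ⟨k.1, fun h0 => k.2.1.2 fun _ => h0, fun b' hb' => k.2.2 b' ⟨hb', fun e => absurd e hκ⟩⟩

theorem mem_Dv {ρ : ℝ} {ω : ℂ} (h1 : ρ ≤ ‖ω‖) (h2 : ‖ω‖ ≤ ρ⁻¹) : ω ∈ Dv ∅ ρ :=
  ⟨h1, h2, fun _ h => absurd h (Finset.notMem_empty _)⟩

end GlueX

open GlueX

theorem glueS : GlueOf := by
  classical
  intro hP hW M _ A Y B r₁ ρ₁ ρ₂ r₂ h0 h1 h2 h3 mt lc ch
  obtain ⟨opn, -, hP⟩ := hP M A
  set η := min ((ρ₁ - r₁) / 2) ((r₂ - ρ₂) / 2) with hη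
  have e0 : 0 < η := lt_min (by linarith) (by linarith)
  have e1 : η ≤ (ρ₁ - r₁) / 2 := min_le_left _ _
  have e2 : η ≤ (r₂ - ρ₂) / 2 := min_le_right _ _
  have hK : ∀ ξ ∈ {ξ : ℂ | ρ₁ - η < ‖ξ‖ ∧ ‖ξ‖ < ρ₂ + η}, ξ ∈ An r₁ r₂ := fun ξ h =>
    ⟨by linarith [h.1], by linarith [h.2]⟩
  obtain ⟨Φ, p1, p2⟩ := hP Y B id {ξ | ρ₁ - η < ‖ξ‖ ∧ ‖ξ‖ < ρ₂ + η} (An r₁ r₂) η e0
    ((isOpen_lt continuous_const continuous_norm).inter (isOpen_lt continuous_norm continuous_const))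
    (fun ε hε => (mt ε hε).mono fun t ht ξ h => ht ξ (hK ξ h))
    (lc.mono fun t ht ξ h => ht ξ (hK ξ h)) ch fun ξ h w hw => by
      have := nb (mem_ball_iff_norm.1 hw).le
      exact ⟨by linarith [h.1, this.1, id_eq ξ ▸ this.1], by linarith [h.2, id_eq ξ ▸ this.2]⟩
  obtain ⟨a, b, wl, w1⟩ := hW A.l Φ (ρ₁ - η) ρ₁ ρ₂ (ρ₂ + η) opn (by linarith) (by linarith) h2
    (by linarith) (p1.mono fun t ht ξ k k' => (ht ξ ⟨k, k'⟩).1)
    fun ε hε => (p2 ε hε).mono fun t ht ξ k k' => ht ξ ⟨k, k'⟩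
  let N : C2 → M := fun q => if ‖q.2‖ < ρ₂ then B (q.1, a q) else Y (q.1, b q)
  have key : ∀ᶠ t in A.l, ∀ ξ, ρ₁ < ‖ξ‖ → N (t, ξ) = Y (t, b (t, ξ)) := by
    filter_upwards [p1, w1, wl.near η e0] with t q1 q2 q3 ξ hξ
    by_cases h : ‖ξ‖ < ρ₂
    · have := nb (q3.2 ξ hξ)
      rw [(q1 _ ⟨by linarith [this.1], by linarith [this.2]⟩).2.2.2, q2 ξ hξ h]
      exact if_pos h
    · exact if_neg h
  obtain ⟨o, ho, oo, so⟩ := opn _ key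
  refine ⟨a, b, N, wl, ?_⟩
  filter_upwards [ho, wl.an] with t ht an
  refine ⟨fun ξ hξ => ⟨if_pos hξ, fun h => ?_⟩, fun ξ hξ => ⟨so ht ξ hξ, fun h => ?_⟩⟩
  · refine (A.comp B N (t, ξ) a h (an.1 ξ hξ).1 (an.1 ξ hξ).2.1 ?_).1
    filter_upwards [(isOpen_lt (continuous_norm.comp continuous_snd) continuous_const).mem_nhds
      (show (t, ξ) ∈ {q : C2 | ‖q.2‖ < ρ₂} from hξ)] with q hq
    exact if_pos hq
  · refine (A.comp Y N (t, ξ) b h (an.2 ξ hξ).1 (an.2 ξ hξ).2.1 ?_).1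
    filter_upwards [(isOpen_lt continuous_const (continuous_norm.comp continuous_snd)).mem_nhds
      (show (t, ξ) ∈ {q : C2 | ρ₁ < ‖q.2‖} from hξ),
      (oo.preimage continuous_fst).mem_nhds (show (t, ξ) ∈ Prod.fst ⁻¹' o from ht)] with q hq hq'
    exact so hq' q.2 hq

theorem sphS : SphOf := by
  intro hP hS hG M _ A κ₁ κ₂ E₁ V E₂ P P' c₁ c₂ r hr hV k₁ k₂ i₁ i₂
  have := (hP M A).2.1
  obtain ⟨δ, d0, d1, d2⟩ : ∃ δ : ℝ, 0 < δ ∧ δ ≤ 1 / 8 ∧ 5 * δ < r :=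
    ⟨min (1 / 8) (r / 8), by positivity, min_le_left _ _, by linarith [min_le_right (1 / 8) (r / 8)]⟩
  obtain ⟨R, hR⟩ : ∃ R : ℝ, R = δ⁻¹ := ⟨_, rfl⟩
  have R8 : 8 ≤ R := by rw [hR, le_inv_comm₀ (by norm_num) d0]; linarith
  have R5 : (δ / 5)⁻¹ = 5 * R := by rw [hR]; field_simp
  have v := hV (δ / 5) (by positivity)
  have dv : ∀ ω : ℂ, δ / 5 ≤ ‖ω‖ → ‖ω‖ ≤ 5 * R → ω ∈ Dv ∅ (δ / 5) := fun ω h h' =>
    mem_Dv h (R5 ▸ h')
  have e₁ := edge i₁ k₁ (show δ < r by linarith)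
  have e₂ := edge i₂ k₂ d2
  have m1 : Mt A.l V E₂ id (An δ (4 * δ)) :=
    hS M A E₂ V (δ / 2) δ (4 * δ) (5 * δ) (by positivity) (by linarith) (by linarith)
      (i₂.out _ _ (by positivity) d2) (e₂.mono fun t ht ξ h => (ht ξ h.2).1)
      (v.mono fun t ht w h =>
        have k := ht w (dv w (by linarith [h.1]) (by linarith [h.2]))
        ⟨k.1.1, fun w' h' => k.2 w' (dv w' (by linarith [h'.1]) (by linarith [h'.2]))⟩)
  obtain ⟨a, b, H, wl, hH⟩ := hG M A V E₂ δ (2 * δ) (3 * δ) (4 * δ) d0 (by linarith) (by linarith)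
    (by linarith) m1 (v.mono fun t ht w h => (ht w (dv w (by linarith [h.1]) (by linarith [h.2]))).1.1)
    (e₂.mono fun t ht w h => ⟨(ht w (by linarith [h.2])).1,
      fun w' h' => (ht w (by linarith [h.2])).2.2 w' (by linarith [h'.2])⟩)
  have bD : ∀ᶠ t in A.l, ∀ η : ℂ, 2 * δ < ‖η‖ → ‖η‖ ≤ 4 * R → b (t, η) ∈ Dv ∅ (δ / 5) :=
    (wl.near δ d0).mono fun t ht η h h' =>
      have k := nb (ht.2 η h)
      dv _ (by linarith [k.1]) (by linarith [k.2])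
  have hZ : ∀ᶠ t in A.l, ∀ η : ℂ, η ≠ 0 → ‖η‖ ≤ 4 * R → A.LZ H (t, η) := by
    filter_upwards [hH, bD, v, e₂, wl.near (1 / 4) (by norm_num)] with t q1 q2 q3 q4 q5 η h0 h
    by_cases c : ‖η‖ < 3 * δ
    · have k := nb (q5.1 η c)
      have p := norm_pos_iff.2 h0
      have j := q4 (a (t, η)) (by linarith [k.2])
      refine ⟨(q1.1 η c).2 j.1, ?_⟩
      rw [(q1.1 η c).1]
      exact j.2.1 (norm_pos_iff.1 (by linarith [k.1]))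
    · have c' : 2 * δ < ‖η‖ := by linarith
      have j := (q3 _ (q2 η c' h)).1
      refine ⟨(q1.2 η c').2 j.1, ?_⟩
      rw [(q1.2 η c').1]
      exact j.2
  have iv : ∀ ω : ℂ, R ≤ ‖ω‖ → ω ≠ 0 ∧ ‖ω⁻¹‖ ≤ δ := fun ω h =>
    ⟨norm_pos_iff.1 (by linarith), by
      rw [norm_inv, inv_le_comm₀ (by linarith) d0, ← hR]; exact h⟩
  have yZ : ∀ᶠ t in A.l, ∀ ω : ℂ, R ≤ ‖ω‖ → A.LZ (fun q => E₁ (q.1, q.2⁻¹)) (t, ω) :=
    e₁.mono fun t ht ω h => ⟨comp_inv (iv ω h).1 (ht _ (iv ω h).2).1,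
      (ht _ (iv ω h).2).2.1 (inv_ne_zero (iv ω h).1)⟩
  have m2 : Mt A.l (fun q => E₁ (q.1, q.2⁻¹)) H id (An R (4 * R)) := by
    intro ε hε
    obtain ⟨ε', e0, he⟩ := inv_near (δ := δ / 4) (ε := min (ε / 2) 1) (by positivity)
      (by positivity)
    filter_upwards [i₁.out (δ / 4) δ (by positivity) (by linarith) ε' e0, hH,
      wl.sb 1 (by linarith), wl.near (ε / 2) (by positivity)] with t q1 q2 q3 q4 ω hω
    have h4 : δ / 4 ≤ ‖ω⁻¹‖ := by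
      rw [norm_inv, le_inv_comm₀ (by positivity) (by linarith [hω.1]), inv_div, div_eq_mul_inv,
        ← hR]
      exact hω.2
    obtain ⟨w, j1, j2⟩ := q1 ω⁻¹ ⟨h4, (iv ω hω.1).2⟩
    have j3 := he _ _ h4 j1
    rw [inv_inv] at j3
    obtain ⟨ξ, j4, j5⟩ := q3 w⁻¹ (by linarith [(nb (j3.le.trans (min_le_right _ _))).1, hω.1])
    refine ⟨ξ, ?_, by rw [(q2.2 ξ j4).1, j5]; exact j2⟩
    have j6 := q4.2 ξ j4
    rw [j5, norm_sub_rev] at j6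
    have j7 := norm_sub_le_norm_sub_add_norm_sub ξ w⁻¹ ω
    have j8 := j3.trans_le (min_le_left _ _)
    change ‖ξ - ω‖ < ε
    linarith
  obtain ⟨a', b', N, wl', hN⟩ := hG M A _ H R (2 * R) (3 * R) (4 * R) (by linarith) (by linarith)
    (by linarith) (by linarith) m2 (yZ.mono fun t ht ω h => (ht ω h.1).1) (by
      filter_upwards [hZ, hH, bD, v, wl.an] with t q1 q2 q3 q4 q5 w h
      have c : 2 * δ < ‖w‖ := by linarith [h.1]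
      refine ⟨(q1 w (iv w h.1).1 h.2).1, fun w' h' e => ?_⟩
      have c' : 2 * δ < ‖w'‖ := by linarith [h'.1]
      rw [(q2.2 w c).1, (q2.2 w' c').1] at e
      exact (q5.2 w c).2.2 w' c' ((q4 _ (q3 w c h.2)).2 _ (q3 w' c' h'.2) e))
  have nZ : ∀ᶠ t in A.l, ∀ ξ : ℂ, ξ ≠ 0 → A.LZ N (t, ξ) := by
    filter_upwards [hN, hZ, yZ, wl'.near (1 / 4) (by norm_num)] with t q1 q2 q3 q4 ξ h0
    by_cases c : ‖ξ‖ < 3 * R
    · have k := nb (q4.1 ξ c)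
      have p := norm_pos_iff.2 h0
      have j := q2 (a' (t, ξ)) (norm_pos_iff.1 (by linarith [k.1])) (by linarith [k.2])
      refine ⟨(q1.1 ξ c).2 j.1, ?_⟩
      rw [(q1.1 ξ c).1]
      exact j.2
    · have c' : 2 * R < ‖ξ‖ := by linarith
      have j := q3 (b' (t, ξ)) (by linarith [(nb (q4.2 ξ c')).1])
      refine ⟨(q1.2 ξ c').2 j.1, ?_⟩
      rw [(q1.2 ξ c').1]
      exact j.2
  have hd : ∀ᶠ t in A.l, A.M₀ < A.dp t := tendsto_comap.eventually (eventually_gt_atTop _)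
  obtain ⟨t, q1, q2⟩ := (nZ.and hd).exists
  exact A.nent (fun q => N (q.1, Complex.exp q.2)) t q2 fun w =>
    ⟨comp1 (q1 _ (Complex.exp_ne_zero w)).1 (Complex.differentiable_exp.analyticAt w)
      (by rw [Complex.deriv_exp]; exact Complex.exp_ne_zero w), (q1 _ (Complex.exp_ne_zero w)).2⟩

end Pool.Agent.MP_c69980_ag.G3
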