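import Pool.Agent.MP_c69980_ag.G3.SpecI
import Pool.Agent.MP_c69980_ag.G3.Glue

/-!
Closing a state without explicit vertices, flipping a cylinder, and the finite cover by tubes.
-/

set_option autoImplicit false

noncomputable section

namespace Pool.Agent.MP_c69980_ag.G3

open Metric Filter Topology Set

namespace CloseX

variable {M : Type} [MetricSpace M] {A : Amb M}

theorem ise_congr {κ : Kd} {E P P' Q Q' : C2 → M} {c : ℂ → ℂ} {r : ℝ} (h : IsE A κ E c r P P')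
    (h1 : P = Q) (h2 : κ = .neck → P' = Q') : IsE A κ E c r Q Q' :=
  ⟨h.lc, h1 ▸ h.out, h.cc, fun hk => h2 hk ▸ h.inn hk⟩

/-- The exchange of the slots `0` and `∞`. -/
def fs : Bool ⊕ ℂ → Bool ⊕ ℂ
  | .inl b => .inl !b
  | .inr a => .inr a

theorem fs_fs (s : Bool ⊕ ℂ) : fs (fs s) = s := by
  rcases s with b | a
  · cases b <;> rfl
  · rfl

theorem sl_fs (H : Finset ℂ) (s : Bool ⊕ ℂ) (h : Sl H s) : Sl H (fs s) := by
  rcases s with b | a
  · intro a ha
    exact absurd ha Sum.inl_ne_inr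
  · exact h

theorem slot_fs (s : Bool ⊕ ℂ) (h : Sl ∅ s) (ξ : ℂ) : (slot s ξ)⁻¹ = slot (fs s) ξ := by
  rcases s with b | a
  · cases b
    · rfl
    · exact inv_inv ξ
  · exact absurd (h a rfl) (Finset.notMem_empty a)

theorem dv_inv {ρ : ℝ} (hρ : 0 < ρ) {ω : ℂ} (h : ω ∈ Dv ∅ ρ) : ω⁻¹ ∈ Dv ∅ ρ := by
  have h0 : 0 < ‖ω‖ := hρ.trans_le h.1
  refine GlueX.mem_Dv ?_ ?_
  · rw [norm_inv, le_inv_comm₀ hρ h0]
    exact h.2.1
  · rw [norm_inv]
    exact inv_anti₀ hρ h.1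

/-- A change of the coordinates of the explicit vertices. -/
structure Tw {S : Sk A} {al : Finset S.Cmp} (x : XS S al) (f : x.J → Bool ⊕ ℂ → Bool ⊕ ℂ)
    (g : x.J → ℂ → ℂ) : Prop where
  ff : ∀ j s, f j (f j s) = s
  gg : ∀ j ω, g j (g j ω) = ω
  sl : ∀ j s, Sl (x.H j) s → Sl (x.H j) (f j s)
  dv : ∀ j ρ ω, 0 < ρ → ω ∈ Dv (x.H j) ρ → g j ω ∈ Dv (x.H j) ρ
  st : ∀ j s ξ, Sl (x.H j) s → g j (slot s ξ) = slot (f j s) ξ
  fr : ∀ j a, f j (.inr a) = .inr a
  fl : ∀ j b, ∃ b', f j (.inl b) = .inl b' ∧ f j (.inl !b) = .inl !b'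
  lc : ∀ j (Y : C2 → M) t ω, ω ≠ 0 → A.LC Y (t, g j ω) → A.LC (fun q => Y (q.1, g j q.2)) (t, ω)

/-- The state in the new coordinates. -/
def tw {S : Sk A} {al : Finset S.Cmp} (x : XS S al) (f : x.J → Bool ⊕ ℂ → Bool ⊕ ℂ)
    (g : x.J → ℂ → ℂ) (h : Tw x f g) : XS S al where
  J := x.J
  Js := x.Js
  H := x.H
  V := fun j q => x.V j (q.1, g j q.2)
  sl := fun j s => x.sl j (f j s)
  P := x.P
  r := x.r
  Lv := x.Lv
  e := x.e
  Rz := x.Rz
  op := x.op
  r0 := x.r0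
  rr := x.rr
  lv := fun π => by
    rw [x.lv π]
    refine or_congr Iff.rfl ⟨?_, ?_⟩
    · rintro ⟨j, hj, s, hs, he⟩
      exact ⟨j, hj, f j s, h.sl j s hs, by rw [h.ff]; exact he⟩
    · rintro ⟨j, hj, s, hs, he⟩
      exact ⟨j, hj, f j s, h.sl j s hs, he⟩
  pal := x.pal
  psl := fun j hj s hs => by
    rw [x.psl j hj _ (h.sl j s hs)]
    funext q
    change x.V j (q.1, slot (f j s) q.2) = x.V j (q.1, g j (slot s q.2))
    rw [h.st j s _ hs]
  nal := fun j hj s hs => x.nal j hj _ (h.sl j s hs)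
  inj := fun j hj j' hj' s s' hs hs' he => by
    obtain ⟨rfl, h2⟩ := x.inj j hj j' hj' _ _ (h.sl j s hs) (h.sl j' s' hs') he
    exact ⟨rfl, by rw [← h.ff j s, h2, h.ff]⟩
  H0 := x.H0
  isv := fun j hj ρ hρ => (x.isv j hj ρ hρ).mono fun t ht ω hω => by
    have k := ht _ (h.dv j ρ ω hρ hω)
    refine ⟨⟨h.lc j _ t ω (norm_pos_iff.1 (hρ.trans_le hω.1)) k.1.1, k.1.2⟩, fun ω' hω' he => ?_⟩
    have := k.2 _ (h.dv j ρ ω' hρ hω') he
    rw [← h.gg j ω, this, h.gg]
  pv := fun j hj t w => x.pv j hj t (g j w)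
  vv := fun ρ hρ => (x.vv ρ hρ).mono fun t ht j hj j' hj' ω hω ω' hω' he =>
    ht j hj j' hj' _ (h.dv j ρ ω hρ hω) _ (h.dv j' ρ ω' hρ hω') he
  ve := fun j hj π hπ ρ r' ε hρ hr hε => (x.ve j hj π hπ ρ r' ε hρ hr hε).mono
    fun t ht ω hω b hb he => by
      obtain ⟨s, ξ, hs, h1, h2⟩ := ht _ (h.dv j ρ ω hρ hω) b hb he
      refine ⟨f j s, ξ, h.sl j s hs, ?_, ?_⟩
      · rw [← h.st j s ξ hs, ← h1, h.gg]
      · rw [h.ff]
        exact h2
  hd := fun j hj a ha => by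
    rw [h.fr]
    exact x.hd j hj a ha
  te := x.te
  tv := fun j hj ρ u hρ hu hi => x.tv j hj ρ u hρ hu (Eventually.mono hi fun y hy => by
    obtain ⟨ω, hω, he⟩ := hy
    exact ⟨g j ω, h.dv j ρ ω hρ hω, he⟩)
  cov := fun u hu => by
    rcases x.cov u hu with h1 | h1 | ⟨j, hj, ρ, hρ, hi⟩
    · exact Or.inl h1
    · exact Or.inr (Or.inl h1)
    · refine Or.inr (Or.inr ⟨j, hj, ρ, hρ, Eventually.mono hi fun y hy => ?_⟩)
      obtain ⟨ω, hω, he⟩ := hy
      refine ⟨g j ω, h.dv j ρ ω hρ hω, ?_⟩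
      change y.2 = x.V j (y.1, g j (g j ω))
      rw [h.gg]
      exact he
  rs := fun π hπ hn => x.rs π hπ fun j hj a ha => by
    have := hn j hj a ha
    rwa [h.fr] at this
  ops := fun j hj b => by
    obtain ⟨b', h1, h2⟩ := h.fl j b
    rw [h1, h2]
    exact x.ops j hj b'

end CloseX

open CloseX

theorem closeS : CloseStmt := by
  intro M _ A S al x hJ
  have hlv : ∀ π, π ∈ x.Lv ↔ S.cm π ∈ al := fun π => by
    rw [x.lv π, hJ]
    exact ⟨fun h => h.elim id fun ⟨_, hj, _⟩ => absurd hj (Finset.notMem_empty _), Or.inl⟩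
  have hfar : ∀ π, S.cm π ∈ al → x.e.κ π = .neck → S.cm (x.e.far π) ∈ al := fun π h hk =>
    (hlv _).1 (x.e.nk π ((hlv π).2 h) hk).1
  have hrs : ∀ π, S.cm π ∈ al → (x.Rz (S.fl π)).1 = x.e.κ π ∧
      (x.e.κ π = .neck → (x.Rz (S.fl π)).2 = some (S.fl (x.e.far π))) := fun π h => by
    have h1 := x.rs π ((hlv π).2 h) fun j hj => by
      rw [hJ] at hj
      exact absurd hj (Finset.notMem_empty _)
    by_cases hk : x.e.κ π = .neck
    · rw [if_pos hk, if_pos (hfar π h hk)] at h1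
      rw [h1]
      exact ⟨hk.symm, fun _ => rfl⟩
    · rw [if_neg hk] at h1
      rw [h1]
      exact ⟨rfl, fun h => absurd h hk⟩
  let e : Eds S {π | S.cm π ∈ al} x.r :=
    { κ := x.e.κ
      E := x.e.E
      c := x.e.c
      far := x.e.far
      pe := fun π h => x.e.pe π ((hlv π).2 h)
      ise := fun π h => ise_congr (x.e.ise π ((hlv π).2 h)) (x.pal π h)
        fun hk => x.pal _ (hfar π h hk)
      nk := fun π h hk => ⟨hfar π h hk, (x.e.nk π ((hlv π).2 h) hk).2⟩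
      dj := fun r' hr => (x.e.dj r' hr).mono fun t ht π h π' h' =>
        ht π ((hlv π).2 h) π' ((hlv π').2 h') }
  refine ⟨⟨x.r, e, x.r0, x.rr, ?_, fun π h u hu hd => x.te π ((hlv π).2 h) u hu hd, ?_⟩⟩
  · intro π h π' h' he
    have h1 := hrs π h
    have h2 := hrs π' h'
    rw [← he] at h2
    have hk : x.e.κ π = x.e.κ π' := h1.1.symm.trans h2.1
    exact ⟨hk, fun hn => Option.some.inj ((h1.2 hn).symm.trans (h2.2 (hk.symm.trans hn)))⟩
  · intro u hu
    rcases x.cov u hu with h | ⟨π, hπ, hd⟩ | ⟨j, hj, _⟩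
    · exact Or.inl h
    · exact Or.inr ⟨π, (hlv π).1 hπ, hd⟩
    · rw [hJ] at hj
      exact absurd hj (Finset.notMem_empty _)

theorem flipS : FlipStmt := by
  classical
  intro M _ A S al x j hj hH
  have h : Tw x (fun j' => if j' = j then fs else id)
      (fun j' => if j' = j then fun ω => ω⁻¹ else id) := by
    refine ⟨fun j' s => ?_, fun j' ω => ?_, fun j' s hs => ?_, fun j' ρ ω hρ hω => ?_,
      fun j' s ξ hs => ?_, fun j' a => ?_, fun j' b => ?_, fun j' Y t ω hω hl => ?_⟩ <;>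
      by_cases e : j' = j
    · simp only [if_pos e]
      exact fs_fs s
    · simp only [if_neg e, id]
    · simp only [if_pos e]
      exact inv_inv ω
    · simp only [if_neg e, id]
    · simp only [if_pos e]
      exact sl_fs _ s hs
    · simp only [if_neg e, id]
      exact hs
    · simp only [if_pos e]
      rw [e, hH] at hω ⊢
      exact dv_inv hρ hω
    · simp only [if_neg e, id]
      exact hω
    · simp only [if_pos e]
      rw [e, hH] at hs
      exact slot_fs s hs ξ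
    · simp only [if_neg e, id]
    · simp only [if_pos e]
      rfl
    · simp only [if_neg e, id]
    · simp only [if_pos e]
      exact ⟨!b, rfl, rfl⟩
    · simp only [if_neg e, id]
      exact ⟨b, rfl, rfl⟩
    · simp only [if_pos e] at hl ⊢
      exact GlueX.comp_inv hω hl
    · simp only [if_neg e, id] at hl ⊢
      exact hl
  have h1 : ∀ b, (tw x _ _ h).sl j (.inl b) = x.sl j (.inl !b) := fun b => by
    change x.sl j ((if j = j then fs else id) (.inl b)) = _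
    rw [if_pos rfl]
    rfl
  refine ⟨tw x _ _ h, j, rfl, hj, hH, ?_, ?_⟩
  · rw [h1]
    rfl
  · rw [h1, h1]
    exact id

/-- The finite cover by tubes, for a skeleton that has a component. -/
def CAStmt' : Prop := AllK fun _ _ _ S al => Nonempty S.Cmp → ∀ s : St S al,
  ∃ a : CA S al, a.s = s

theorem caS' : CAStmt' := by
  classical
  intro M _ A S al hne s
  have hr : 0 < s.r / 2 / 3 := by linarith [s.r0]
  have hr' : s.r / 2 / 3 ≤ S.r₀ := by linarith [s.r0, s.rr]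
  have key : ∀ k, ∃ F : Finset M, (∀ c ∈ F, c ∈ S.C k) ∧ ∀ x ∈ S.C k,
      (∃ π, ∃ w ∈ ball (0 : ℂ) (s.r / 2 / 3) \ {0}, S.p π w = x) ∨
        ∃ c ∈ F, ∃ w ∈ ball (0 : ℂ) (S.rad c / 3), S.ψ c w = x := by
    intro k
    obtain ⟨F, hF, hc⟩ := (S.cpt k _ hr hr').elim_nhdsWithin_subcover
      (fun c => S.ψ c '' ball 0 (S.rad c / 3)) fun c hc => by
        have h0 := S.rad0 k c hc.1
        have h1 := S.ψo k c hc.1 0 (mem_ball_self h0) _ (ball_mem_nhds (0 : ℂ) (by linarith :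
          0 < S.rad c / 3))
        rw [S.ψ0 k c hc.1] at h1
        exact nhdsWithin_mono _ sdiff_subset h1
    refine ⟨F, fun c h => (hF c h).1, fun x hx => ?_⟩
    by_cases hp : x ∈ ⋃ π, S.p π '' (ball 0 (s.r / 2 / 3) \ {0})
    · obtain ⟨π, w, hw, he⟩ := mem_iUnion.1 hp
      exact Or.inl ⟨π, w, hw, he⟩
    · obtain ⟨c, hcF, w, hw, he⟩ := mem_iUnion₂.1 (hc ⟨hx, hp⟩)
      exact Or.inr ⟨c, hcF, w, hw, he⟩
  choose F hF hc using key
  have hkf : ∀ c : M, ∃ k' : S.Cmp, ∀ k, c ∈ S.C k → k' = k := fun c => by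
    by_cases h : ∃ k, c ∈ S.C k
    · obtain ⟨k, hk⟩ := h
      exact ⟨k, fun k' hk' => S.disj k k' c hk hk'⟩
    · exact ⟨hne.some, fun k hk => absurd ⟨k, hk⟩ h⟩
  choose kf hkf using hkf
  refine ⟨⟨s, al.biUnion F, kf, s.r / 2, by linarith [s.r0], by linarith [s.r0], ?_, ?_⟩, rfl⟩
  · intro c hc'
    obtain ⟨k, hk, hck⟩ := Finset.mem_biUnion.1 hc'
    rw [hkf c k (hF k c hck)]
    exact ⟨hk, hF k c hck⟩
  · intro k hk x hx
    rcases hc k x hx with h | ⟨c, hcF, h⟩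
    · exact Or.inl h
    · exact Or.inr ⟨c, Finset.mem_biUnion.2 ⟨k, hk, hcF⟩, h⟩

theorem caS : CAStmt := caS'

/-- A skeleton without components: the family is empty near the end. -/
theorem eaEmpty : AllK fun _ _ A S al => IsEmpty S.Cmp → St S al → Nonempty (EA A) := by
  intro M _ A S al he s
  have h0 : ∃ M₁ : ℝ, ∀ x ∈ A.Zb, ¬M₁ ≤ A.dp x.1 := by
    by_contra hn
    have hb : (comap Prod.fst A.l ⊓ 𝓟 A.Zb).NeBot := by
      rw [Amb.l, comap_comap, ← frequently_mem_iff_neBot, frequently_comap]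
      rw [frequently_atTop]
      intro a
      by_contra hc
      refine hn ⟨a, fun x hx hax => hc ⟨A.dp x.1, hax, x, rfl, hx⟩⟩
    have hu : A.Out (Ultrafilter.of (comap Prod.fst A.l ⊓ 𝓟 A.Zb)) :=
      ⟨tendsto_iff_comap.2 ((Ultrafilter.of_le _).trans inf_le_left),
        le_principal_iff.1 ((Ultrafilter.of_le _).trans inf_le_right)⟩
    rcases s.cov _ hu with ⟨k, _⟩ | ⟨π, _⟩
    · exact he.elim k
    · exact he.elim (S.cm π)
  obtain ⟨M₁, hM⟩ := h0
  exact ⟨{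
    ι := Empty
    Y := fun i => i.elim
    O₁ := fun i => i.elim
    O₂ := fun i => i.elim
    O₃ := fun i => i.elim
    sc := fun i => i.elim
    pu := fun i => i.elim
    M₁ := max M₁ (A.M₀ + 1)
    κ := 1 / 16
    δ := 1
    C := 1
    N := 1
    N0 := one_pos
    per := fun i => i.elim
    MM := (lt_add_one _).trans_le (le_max_right _ _)
    κ0 := ⟨by norm_num, le_rfl⟩
    δ0 := one_pos
    C1 := le_rfl
    o12 := fun i => i.elim
    o23 := fun i => i.elim
    opn := fun i => i.elim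
    lc := fun i => i.elim
    cov := fun x hx h => absurd ((le_max_left _ _).trans h) (hM x (A.sub hx))
    tr := fun i => i.elim
    sc1 := fun i => i.elim
    scc := fun i => i.elim
    scl := fun x hx h => absurd ((le_max_left _ _).trans h) (hM x (A.sub hx))
    eq := fun i => i.elim
    cusp := fun i => i.elim
    bdy := fun x hx _ h => absurd ((le_max_left _ _).trans h) (hM x hx) }⟩

end Pool.Agent.MP_c69980_ag.G3
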