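import Pool.Agent.MP_c69980_ag.G3.SpecW

/-!
Merging a neck, a cylinder and an edge: the two gluings and the three zones.
-/

set_option autoImplicit false

noncomputable section

namespace Pool.Agent.MP_c69980_ag.G3

open Metric Filter Topology Set

namespace MergeX

variable {M : Type} [MetricSpace M] {A : Amb M} {E V N H Y B P P' : C2 → M} {c : ℂ → ℂ}
  {a b f g : C2 → ℂ} {r R : ℝ} {κ : Kd} {I I' J J' K K' : Set ℝ}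

lemma inv_near {ε : ℝ} (hR : 0 < R) (hε : 0 < ε) : ∃ δ : ℝ, 0 < δ ∧ ∀ u w : ℂ, u ≠ 0 →
    ‖u‖ ≤ R → ‖w - u⁻¹‖ < δ → ‖w⁻¹ - u‖ < ε := by
  refine ⟨min (1 / (2 * R)) (ε / (4 * R ^ 2)), by positivity, fun u w u0 hu hw => ?_⟩
  rw [lt_min_iff, lt_div_iff₀ (by positivity), lt_div_iff₀ (by positivity)] at hw
  have e1 : u * w - 1 = u * (w - u⁻¹) := by field_simp
  have h1 : ‖u * w - 1‖ ≤ R * ‖w - u⁻¹‖ := by
    rw [e1, norm_mul]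
    exact mul_le_mul_of_nonneg_right hu (norm_nonneg _)
  have h2 : 1 / 2 ≤ ‖u * w‖ := by
    have := norm_sub_norm_le (1 : ℂ) (u * w)
    rw [norm_one, norm_sub_rev] at this
    linarith
  have w0 : w ≠ 0 := fun h => by
    rw [h, mul_zero, norm_zero] at h2
    linarith
  have e2 : (w⁻¹ - u) * (u * w) = -(u * (u * w - 1)) := by
    field_simp
    ring
  have h3 := congrArg norm e2
  rw [norm_neg, norm_mul, norm_mul u (u * w - 1)] at h3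
  have h4 := mul_le_mul hu h1 (norm_nonneg _) hR.le
  have h5 := mul_le_mul_of_nonneg_left h2 (norm_nonneg (w⁻¹ - u))
  nlinarith

/-- The rescaled chart. -/
def sc (E : C2 → M) (c : ℂ → ℂ) : C2 → M := fun q => E (q.1, c q.1 * q.2)

lemma inn' (hE : IsE A .neck E c r P (sv V (.inl true))) (r0 : 0 < r) (R0 : 0 < R) :
    Mt A.l (sc E c) V id (An (2 / r) R) := fun ε hε => by
  obtain ⟨δ, δ0, hδ⟩ := inv_near R0 hε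
  filter_upwards [hE.inn rfl R⁻¹ (r / 2) (by positivity) (half_lt_self r0) δ δ0] with t h u hu
  have u0 : 0 < ‖u‖ := lt_of_lt_of_le (by positivity) hu.1
  obtain ⟨w, h1, h2⟩ := h u⁻¹ ⟨by rw [norm_inv]; exact inv_anti₀ u0 hu.2, by
    rw [norm_inv, ← inv_div]; exact inv_anti₀ (by positivity) hu.1⟩
  refine ⟨w⁻¹, hδ u w (norm_pos_iff.1 u0) hu.2 h1, ?_⟩
  simp only [div_inv_eq_mul] at h2
  exact h2

lemma chV (hV : IsV A V ∅) {ρ₁ : ℝ} (ρ₂ : ℝ) (h : 0 < ρ₁) : ∀ᶠ t in A.l, ∀ ω ∈ An ρ₁ ρ₂,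
    A.LZ V (t, ω) ∧ ∀ ω' ∈ An ρ₁ ρ₂, V (t, ω) = V (t, ω') → ω = ω' := by
  have h1 : 0 < max ρ₂ 1 := lt_max_of_lt_right one_pos
  have hs : An ρ₁ ρ₂ ⊆ Dv ∅ (min ρ₁ (max ρ₂ 1)⁻¹) := fun ω hω =>
    ⟨(min_le_left _ _).trans hω.1, (hω.2.trans (le_max_left _ 1)).trans
      (le_inv_of_le_inv₀ (by positivity) (min_le_right _ _)), by simp⟩
  filter_upwards [hV _ (lt_min h (inv_pos.2 h1))] with t ht ω hω
  exact ⟨(ht ω (hs hω)).1, fun ω' hω' => (ht ω (hs hω)).2 ω' (hs hω')⟩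

lemma chV' (hV : IsV A V ∅) {ρ₁ : ℝ} (ρ₂ : ℝ) (h : 0 < ρ₁) : Ch A V (An ρ₁ ρ₂) :=
  (chV hV ρ₂ h).mono fun _ h ξ hξ => ⟨(h ξ hξ).1.1, (h ξ hξ).2⟩

lemma small (hE : IsE A κ E c r P P') {ε : ℝ} (h : 0 < ε) :
    ∀ᶠ t in A.l, κ = .neck → ‖c t‖ < ε := by
  by_cases k : κ = .neck
  · have : ∀ᶠ t in A.l, ‖c t‖ < ε := by
      simpa using (hE.cc k).1.eventually (ball_mem_nhds _ h)
    exact this.mono fun t ht _ => ht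
  · exact .of_forall fun t ht => absurd ht k

lemma chE (hE : IsE A κ E c r P P') {ρ₁ ρ₂ : ℝ} (h : 0 < ρ₁) (h0 : 0 < ρ₂) (h2 : ρ₂ < r) :
    Ch A E (An ρ₁ ρ₂) := by
  filter_upwards [hE.lc ρ₂ h2, small hE (mul_pos h0 h)] with t ht hc ω hω
  have hs : An ρ₁ ρ₂ ⊆ De κ (c t) ρ₂ := fun ω hω =>
    ⟨hω.2, fun k => (hc k).le.trans (mul_le_mul_of_nonneg_left hω.1 h0.le)⟩
  exact ⟨(ht ω (hs hω)).1, fun ω' hω' => (ht ω (hs hω)).2.2 ω' (hs hω')⟩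

lemma c_ne (hE : IsE A κ E c r P P') (k : κ = .neck) :
    ∀ᶠ t in A.l, AnalyticAt ℂ c t ∧ c t ≠ 0 := by
  obtain ⟨K, h⟩ := (hE.cc k).2
  exact h.mono fun t ht => ⟨ht.1, norm_pos_iff.1 ((Real.exp_pos _).trans_le ht.2)⟩

lemma dw_at {G : C2 → ℂ} {t w : ℂ} (hG : AnalyticAt ℂ G (t, w)) :
    HasDerivAt (fun z => G (t, z)) (dw G (t, w)) w :=
  hG.differentiableAt.hasFDerivAt.comp_hasDerivAt w
    ((hasDerivAt_const w t).prodMk (hasDerivAt_id w))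

lemma scale {t ω : ℂ} (hc : AnalyticAt ℂ c t) (c0 : c t ≠ 0) (h : A.LC N (t, c t * ω)) :
    A.LC (sc N c) (t, ω) := by
  have ha : AnalyticAt ℂ (fun q : C2 => c q.1 * q.2) (t, ω) :=
    (AnalyticAt.comp_of_eq hc analyticAt_fst rfl).mul analyticAt_snd
  have hd : dw (fun q : C2 => c q.1 * q.2) (t, ω) = c t :=
    (dw_at ha).unique (by simpa using (hasDerivAt_id ω).const_mul (c t))
  exact (A.comp N (sc N c) (t, ω) _ h ha (hd.trans_ne c0) (Eventually.of_forall fun _ => rfl)).1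

lemma lc_sc (hE : IsE A .neck E c r P P') (r0 : 0 < r) (R0 : 0 < R) :
    ∀ᶠ t in A.l, ∀ ω ∈ An (2 / r) R, A.LC (sc E c) (t, ω) := by
  filter_upwards [hE.lc (r / 2) (half_lt_self r0), c_ne hE rfl,
    small hE (by positivity : 0 < r / 2 / R)] with t h1 h2 h3 ω hω
  refine scale h2.1 h2.2 (h1 _ ⟨?_, fun _ => ?_⟩).1 <;> rw [norm_mul]
  · have := (lt_div_iff₀ R0).1 (h3 rfl)
    exact (mul_le_mul_of_nonneg_left hω.2 (norm_nonneg _)).trans this.le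
  · have := (div_le_iff₀ r0).1 hω.1
    nlinarith [norm_nonneg (c t)]

omit [MetricSpace M] in
lemma mt_mono {l : Filter ℂ} {S S' : Set ℂ} (h : Mt l Y P id S) (hs : S' ⊆ S) : Mt l Y P id S' :=
  fun ε hε => (h ε hε).mono fun _ ht ξ hξ => ht ξ (hs hξ)

/-- On the norms `I` the chart `N` is `Y` composed with `f`, which reaches the norms `I'`. -/
structure Zo (A : Amb M) (N Y : C2 → M) (f : C2 → ℂ) (I I' : Set ℝ) : Prop where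
  eq : ∀ᶠ t in A.l, ∀ ξ : ℂ, ‖ξ‖ ∈ I → N (t, ξ) = Y (t, f (t, ξ)) ∧
    (A.LC Y (t, f (t, ξ)) → A.LC N (t, ξ)) ∧ ∀ ξ' : ℂ, ‖ξ'‖ ∈ I → f (t, ξ) = f (t, ξ') → ξ = ξ'
  near : ∀ ε : ℝ, 0 < ε → ∀ᶠ t in A.l, ∀ ξ : ℂ, ‖ξ‖ ∈ I → ‖f (t, ξ) - ξ‖ ≤ ε * ‖ξ‖
  sur : ∀ᶠ t in A.l, ∀ η : ℂ, ‖η‖ ∈ I' → ∃ ξ : ℂ, ‖ξ‖ ∈ I ∧ f (t, ξ) = η

/-- The output of a gluing. -/
def Gl (A : Amb M) (Y B N : C2 → M) (a b : C2 → ℂ) (ρ₁ ρ₂ : ℝ) : Prop :=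
  Wl A.l a b ρ₁ ρ₂ ∧ ∀ᶠ t in A.l,
    (∀ ξ, ‖ξ‖ < ρ₂ → N (t, ξ) = B (t, a (t, ξ)) ∧ (A.LC B (t, a (t, ξ)) → A.LC N (t, ξ))) ∧
    ∀ ξ, ρ₁ < ‖ξ‖ → N (t, ξ) = Y (t, b (t, ξ)) ∧ (A.LC Y (t, b (t, ξ)) → A.LC N (t, ξ))

lemma Gl.zin {ρ₁ ρ₂ ρ : ℝ} (G : Gl A Y B N a b ρ₁ ρ₂) (h : ρ < ρ₂) :
    Zo A N B a (Iio ρ₂) (Iic ρ) := by
  refine ⟨?_, fun ε hε => (G.1.near ε hε).mono fun t ht => ht.1, G.1.sa ρ h⟩
  filter_upwards [G.2, G.1.an] with t h1 h2 ξ hξ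
  exact ⟨(h1.1 ξ hξ).1, (h1.1 ξ hξ).2, (h2.1 ξ hξ).2.2⟩

lemma Gl.zout {ρ₁ ρ₂ ρ : ℝ} (G : Gl A Y B N a b ρ₁ ρ₂) (h0 : 0 < ρ₁) (h : ρ₁ < ρ) :
    Zo A N Y b (Ioi ρ₁) (Ici ρ) := by
  refine ⟨?_, fun ε hε => (G.1.near (ε * ρ₁) (by positivity)).mono fun t ht ξ hξ =>
    (ht.2 ξ hξ).trans (mul_le_mul_of_nonneg_left (le_of_lt hξ) hε.le), G.1.sb ρ h⟩
  filter_upwards [G.2, G.1.an] with t h1 h2 ξ hξ
  exact ⟨(h1.2 ξ hξ).1, (h1.2 ξ hξ).2, (h2.2 ξ hξ).2.2⟩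

lemma abs_rel {u v : ℂ} {ε : ℝ} (h : ‖u - v‖ ≤ ε * ‖v‖) :
    (1 - ε) * ‖v‖ ≤ ‖u‖ ∧ ‖u‖ ≤ (1 + ε) * ‖v‖ := by
  have := abs_le.1 ((abs_norm_sub_norm_le u v).trans h)
  constructor <;> linarith [this.1, this.2]

lemma Zo.comp (Z : Zo A N H f I I') (W : Zo A H Y g J J')
    (h1 : ∀ x ∈ K, x ∈ I ∧ ∀ y, 99 / 100 * x ≤ y → y ≤ 101 / 100 * x → y ∈ J)
    (h2 : ∀ z ∈ K', z ∈ J' ∧ ∀ y, 99 / 100 * y ≤ z → z ≤ 101 / 100 * y → y ∈ I' ∧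
      ∀ x, 99 / 100 * x ≤ y → y ≤ 101 / 100 * x → x ∈ K) :
    Zo A N Y (fun p => g (p.1, f p)) K K' := by
  have hj : ∀ᶠ t in A.l, ∀ ξ : ℂ, ‖ξ‖ ∈ K → ‖f (t, ξ)‖ ∈ J := by
    filter_upwards [Z.near (1 / 100) (by norm_num)] with t h ξ hξ
    have := abs_rel (h ξ (h1 _ hξ).1)
    exact (h1 _ hξ).2 _ (by linarith [this.1]) (by linarith [this.2])
  refine ⟨?_, fun ε hε => ?_, ?_⟩
  · filter_upwards [Z.eq, W.eq, hj] with t z w j ξ hξ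
    obtain ⟨z1, z2, z3⟩ := z ξ (h1 _ hξ).1
    obtain ⟨w1, w2, w3⟩ := w _ (j ξ hξ)
    exact ⟨z1.trans w1, fun h => z2 (w2 h), fun ξ' hξ' e =>
      z3 ξ' (h1 _ hξ').1 (w3 _ (j ξ' hξ') e)⟩
  · have m0 : 0 < min (ε / 3) 1 := by positivity
    filter_upwards [Z.near _ m0, W.near _ m0, hj] with t z w j ξ hξ
    have k1 := z ξ (h1 _ hξ).1
    have k2 := w _ (j ξ hξ)
    have k3 := (abs_rel k1).2
    have k4 := norm_sub_le_norm_sub_add_norm_sub (g (t, f (t, ξ))) (f (t, ξ)) ξ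
    have k5 := mul_le_mul_of_nonneg_right (min_le_left (ε / 3) 1) (norm_nonneg ξ)
    have k6 := mul_le_mul_of_nonneg_right (min_le_right (ε / 3) 1) (norm_nonneg ξ)
    have k7 : min (ε / 3) 1 * ‖f (t, ξ)‖ ≤ ε / 3 * (2 * ‖ξ‖) :=
      mul_le_mul (min_le_left _ _) (by linarith) (norm_nonneg _) (by positivity)
    show ‖g (t, f (t, ξ)) - ξ‖ ≤ _
    linarith
  · filter_upwards [Z.sur, W.sur, Z.near (1 / 100) (by norm_num), W.near (1 / 100) (by norm_num)]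
      with t z w z' w' η hη
    obtain ⟨ζ, k1, k2⟩ := w η (h2 _ hη).1
    have k3 := abs_rel (k2 ▸ w' ζ k1)
    obtain ⟨k4, k5⟩ := (h2 _ hη).2 ‖ζ‖ (by linarith [k3.1]) (by linarith [k3.2])
    obtain ⟨ξ, k6, k7⟩ := z ζ k4
    have k8 := abs_rel (k7 ▸ z' ξ k6)
    refine ⟨ξ, k5 _ (by linarith [k8.1]) (by linarith [k8.2]), ?_⟩
    show g (t, f (t, ξ)) = η
    rw [k7, k2]

/-- A matching with `P` gives points of `N`. -/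
lemma Zo.pull {S : Set ℂ} {η δ : ℝ} (Z : Zo A N P f I I') (h : Mt A.l Y P id S) (η0 : 0 < η)
    (hS : ∀ ω ∈ S, ∀ y, ‖ω‖ - η ≤ y → y ≤ ‖ω‖ + η → y ∈ I') (δ0 : 0 < δ) :
    ∀ᶠ t in A.l, ∀ ω ∈ S, ∃ ξ, ‖ω - ξ‖ ≤ δ + δ * ‖ξ‖ ∧ N (t, ξ) = Y (t, ω) := by
  filter_upwards [Z.eq, Z.sur, Z.near δ δ0, h _ (lt_min η0 δ0)] with t z1 z2 z3 m ω hω
  obtain ⟨w, w1, w2⟩ := m ω hω
  rw [id, lt_min_iff] at w1
  have w3 := abs_le.1 ((abs_norm_sub_norm_le w ω).trans w1.1.le)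
  obtain ⟨ξ, k1, k2⟩ := z2 w (hS ω hω _ (by linarith [w3.1]) (by linarith [w3.2]))
  refine ⟨ξ, ?_, by rw [(z1 ξ k1).1, k2, w2]⟩
  have k3 := norm_sub_le_norm_sub_add_norm_sub ω w ξ
  rw [norm_sub_rev ω w] at k3
  linarith [k2 ▸ z3 ξ k1, w1.2]

/-- All the data. -/
structure Dat (A : Amb M) (κ : Kd) (E₁ V E₂ P P' N : C2 → M) (c₁ c₂ : ℂ → ℂ) (r q Q : ℝ)
    (f₁ f₂ f₃ : C2 → ℂ) : Prop where
  q0 : 0 < q
  qr : 12 * q ≤ r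
  qQ : q * Q = 1
  Q1 : 12 ≤ Q
  hV : IsV A V ∅
  h1 : IsE A .neck E₁ c₁ r P (sv V (.inl true))
  h2 : IsE A κ E₂ c₂ r V P'
  z1 : Zo A N (sc E₁ c₁) f₁ (Ioi (3 * Q)) (Ici (4 * Q))
  z2 : Zo A N V f₂ (Ioo (5 * q) (6 * Q)) (Icc (6 * q) (5 * Q))
  z3 : Zo A N E₂ f₃ (Iio (8 * q)) (Iic (7 * q))

lemma mtV (hs : SymStmt) (hV : IsV A V ∅) (hE : IsE A κ E c r V P') {ρ₁ ρ₂ : ℝ} (h : 0 < ρ₁)
    (h0 : 0 < ρ₂) (h2 : ρ₂ < r) : Mt A.l V E id (An ρ₁ ρ₂) :=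
  hs M A E V (ρ₁ / 2) ρ₁ ρ₂ ((ρ₂ + r) / 2) (half_pos h) (half_lt_self h) (by linarith)
    (hE.out _ _ (half_pos h) (by linarith))
    ((chE hE (half_pos h) (by linarith) (by linarith)).mono fun _ h ξ hξ => (h ξ hξ).1)
    (chV' hV _ (half_pos h))

lemma dat (hs : SymStmt) (hg : GlueStmt) {E₁ E₂ : C2 → M} {c₁ c₂ : ℂ → ℂ} (r0 : 0 < r)
    (hV : IsV A V ∅) (h1 : IsE A .neck E₁ c₁ r P (sv V (.inl true))) (h2 : IsE A κ E₂ c₂ r V P') :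
    ∃ N q Q f₁ f₂ f₃, Dat A κ E₁ V E₂ P P' N c₁ c₂ r q Q f₁ f₂ f₃ := by
  obtain ⟨q, q0, qr, q1⟩ : ∃ q : ℝ, 0 < q ∧ 12 * q ≤ r ∧ 12 * q ≤ 1 :=
    ⟨min r 1 / 12, by positivity, by linarith [min_le_left r 1], by linarith [min_le_right r 1]⟩
  obtain ⟨Q, qQ⟩ : ∃ Q : ℝ, q * Q = 1 := ⟨q⁻¹, mul_inv_cancel₀ q0.ne'⟩
  have Q0 : 0 < Q := by
    by_contra h
    nlinarith
  have Q1 : 12 ≤ Q := by nlinarith
  obtain ⟨a₀, b₀, H, G₀⟩ : ∃ a b N, Gl A V E₂ N a b (4 * q) (9 * q) :=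
    hg M A V E₂ (2 * q) _ _ (10 * q) (by positivity) (by linarith) (by linarith) (by linarith)
      (mtV hs hV h2 (by positivity) (by positivity) (by linarith))
      ((chV' hV _ (by positivity)).mono fun _ h ξ hξ => (h ξ hξ).1)
      (chE h2 (by positivity) (by positivity) (by linarith))
  have W₂ := G₀.zout (ρ := 5 * q) (by positivity) (by linarith)
  have W₃ := G₀.zin (ρ := 8 * q) (by linarith)
  have hs : An (2 * Q) (7 * Q) ⊆ An (2 / r) (7 * Q) := fun ω hω => ⟨le_trans (by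
    rw [div_le_iff₀ r0]
    nlinarith) hω.1, hω.2⟩
  have mt : Mt A.l (sc E₁ c₁) H id (An (2 * Q) (7 * Q)) := fun ε hε => by
    obtain ⟨δ, δ0, δ1, δ2⟩ : ∃ δ : ℝ, 0 < δ ∧ δ ≤ 1 / 2 ∧ δ * (14 * Q + 3) ≤ ε :=
      ⟨min (1 / 2) (ε / (14 * Q + 3)), by positivity, min_le_left _ _,
        (le_div_iff₀ (by positivity)).1 (min_le_right _ _)⟩
    filter_upwards [W₂.pull (mt_mono (inn' h1 r0 (by positivity)) hs) one_pos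
      (fun ω hω y k _ => show 5 * q ≤ y by linarith [hω.1]) δ0] with t ht ω hω
    obtain ⟨ξ, k1, k2⟩ := ht ω hω
    refine ⟨ξ, ?_, k2.symm⟩
    have k3 := norm_sub_norm_le ξ ω
    rw [norm_sub_rev] at k1
    have k4 := mul_le_mul_of_nonneg_right δ1 (norm_nonneg ξ)
    have k5 : δ * ‖ξ‖ ≤ δ * (14 * Q + 1) :=
      mul_le_mul_of_nonneg_left (by linarith [hω.2]) δ0.le
    rw [id]
    linarith
  have ch : Ch A H (An (2 * Q) (7 * Q)) := by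
    filter_upwards [W₂.eq, W₂.near (1 / 2) one_half_pos, chV' hV (11 * Q) Q0] with t k1 k2 k3
    have i1 : ∀ ξ ∈ An (2 * Q) (7 * Q), ‖ξ‖ ∈ Ioi (4 * q) := fun ξ hξ =>
      show 4 * q < ‖ξ‖ by linarith [hξ.1]
    have i2 : ∀ ξ ∈ An (2 * Q) (7 * Q), b₀ (t, ξ) ∈ An Q (11 * Q) := fun ξ hξ => by
      have := abs_rel (k2 ξ (i1 ξ hξ))
      exact ⟨by linarith [this.1, hξ.1], by linarith [this.2, hξ.2]⟩
    intro ξ hξ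
    obtain ⟨j1, j2, j3⟩ := k1 ξ (i1 ξ hξ)
    refine ⟨j2 (k3 _ (i2 ξ hξ)).1, fun ξ' hξ' e => j3 ξ' (i1 ξ' hξ') ?_⟩
    rw [j1, (k1 ξ' (i1 ξ' hξ')).1] at e
    exact (k3 _ (i2 ξ hξ)).2 _ (i2 ξ' hξ') e
  obtain ⟨α, β, N, G⟩ : ∃ a b N, Gl A (sc E₁ c₁) H N a b (3 * Q) (6 * Q) :=
    hg M A _ H (2 * Q) _ _ (7 * Q) (by positivity) (by linarith) (by linarith) (by linarith) mt
      ((lc_sc h1 r0 (by positivity)).mono fun _ h ξ hξ => h ξ (hs hξ)) ch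
  have Z := G.zin (ρ := 11 / 2 * Q) (by linarith)
  refine ⟨N, q, Q, β, _, _, q0, qr, qQ, Q1, hV, h1, h2, G.zout (by positivity) (by linarith),
    Z.comp W₂ (fun x hx => ⟨hx.2, fun y k _ => ?_⟩) fun z hz => ⟨?_, fun y k k' =>
      ⟨?_, fun x j j' => ⟨?_, ?_⟩⟩⟩,
    Z.comp W₃ (fun x hx => ⟨?_, fun y _ k => ?_⟩) fun z hz => ⟨?_, fun y k k' =>
      ⟨?_, fun x j j' => ?_⟩⟩⟩
  all_goals simp only [mem_Ioi, mem_Ici, mem_Iio, mem_Iic, mem_Ioo, mem_Icc] at *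
  · linarith [hx.1]
  · linarith [hz.1]
  · linarith [hz.2]
  · linarith [hz.1]
  · linarith [hz.2]
  all_goals linarith

end MergeX

end Pool.Agent.MP_c69980_ag.G3
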