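import Pool.Agent.MP_c69980_ag.G3.SpecI
import Pool.Agent.MP_c69980_ag.G3.MergeA

/-!
The charts of the atlas cover the family near the end.
-/

set_option autoImplicit false

noncomputable section

namespace Pool.Agent.MP_c69980_ag.G3

open Metric Filter Topology Set

namespace CovX

variable {M : Type} [MetricSpace M] {A : Amb M} {S : Sk A} {al : Finset S.Cmp} (a : CA S al)

/-- The point is covered. -/
def Cv (t : ℂ) (y : M) : Prop := (∃ i w, (t, w) ∈ a.O 1 i ∧ y = a.Y i (t, w)) ∨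
  ∃ π, S.cm π ∈ al ∧ a.s.e.κ π = .cusp ∧ y = a.s.e.E π (t, 0)

lemma log_le {x : ℝ} (x0 : 0 < x) (h : x ≤ 9 / 25) : Real.log x ≤ -1 := by
  rw [Real.log_le_iff_le_exp x0, Real.exp_neg, le_inv_comm₀ x0 (Real.exp_pos _)]
  refine Real.exp_one_lt_d9.le.trans (le_trans ?_ (inv_anti₀ x0 h))
  norm_num

/-- Points of an edge. -/
lemma pt {π : S.Prt} (hπ : S.cm π ∈ al) {t b : ℂ} (hb : ‖b‖ ≤ 9 / 25 * a.r₃)
    (hn : a.s.e.κ π = .neck → a.s.e.c π t ≠ 0 ∧ ‖a.s.e.c π t‖ < Real.exp (-(10 * Real.log a.r₃)) ∧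
      ‖a.s.e.c π t‖ ≤ ‖b‖ ^ 2) : Cv a t (a.s.e.E π (t, b)) := by
  have r0 := a.r30
  have rc : (a.r₃ : ℂ) ≠ 0 := by exact_mod_cast r0.ne'
  have nb : ‖b / a.r₃‖ = ‖b‖ / a.r₃ := by
    rw [norm_div, Complex.norm_real, Real.norm_of_nonneg r0.le]
  have hb' : ‖b‖ / a.r₃ ≤ 9 / 25 := (div_le_iff₀ r0).2 hb
  by_cases hd : a.s.e.κ π = .disc
  · refine .inl ⟨.inr π, b / a.r₃, ⟨hπ, ?_⟩, ?_⟩
    · rw [if_pos hd, nb]
      linarith
    · simp only [CA.Y, if_pos hd, mul_div_cancel₀ _ rc]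
  by_cases b0 : b = 0
  · refine .inr ⟨π, hπ, ?_, by rw [b0]⟩
    rcases hk : a.s.e.κ π with _ | _ | _
    · exact absurd hk hd
    · rfl
    · obtain ⟨h1, -, h2⟩ := hn hk
      rw [b0, norm_zero, zero_pow two_ne_zero] at h2
      exact absurd (norm_le_zero_iff.1 h2) h1
  have n0 : 0 < ‖b‖ := norm_pos_iff.2 b0
  refine .inl ⟨.inr π, Complex.log (b / a.r₃), ⟨hπ, ?_⟩, ?_⟩
  · rw [if_neg hd, Complex.log_re, nb]
    refine ⟨by linarith [log_le (div_pos n0 r0) hb'], fun hk => ?_⟩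
    obtain ⟨h1, h2, h3⟩ := hn hk
    have c0 : 0 < ‖a.s.e.c π t‖ := norm_pos_iff.2 h1
    have k1 := (Real.log_le_iff_le_exp c0).2 h2.le
    have k2 := Real.log_le_log c0 h3
    rw [Real.log_pow] at k2
    rw [Real.log_div n0.ne' r0.ne']
    push_cast at k2
    linarith
  · simp only [CA.Y, if_neg hd, Complex.exp_log (div_ne_zero b0 rc), mul_div_cancel₀ _ rc]

/-- The parameters of the necks are small. -/
lemma sm {ε : ℝ} (h : 0 < ε) : ∀ᶠ t in A.l, ∀ π, S.cm π ∈ al → a.s.e.κ π = .neck →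
    a.s.e.c π t ≠ 0 ∧ ‖a.s.e.c π t‖ < ε := by
  refine eventually_all.2 fun π => eventually_imp_distrib_left.2 fun hπ =>
    eventually_imp_distrib_left.2 fun hk => ?_
  filter_upwards [MergeX.c_ne (a.s.e.ise π hπ) hk, MergeX.small (a.s.e.ise π hπ) h] with t h1 h2
  exact ⟨h1.2, h2 hk⟩

lemma deep {π : S.Prt} (hπ : S.cm π ∈ al) : ∀ᶠ t in A.l,
    ∀ b ∈ De (a.s.e.κ π) (a.s.e.c π t) (9 / 25 * a.r₃), Cv a t (a.s.e.E π (t, b)) := by
  by_cases hk : a.s.e.κ π = .neck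
  swap
  · exact .of_forall fun t b hb => pt a hπ hb.1 fun h => absurd h hk
  obtain ⟨n1, -, -, -, n2, n3⟩ := a.s.e.nk π hπ hk
  filter_upwards [sm a (Real.exp_pos (-(10 * Real.log a.r₃))), n3] with t h1 h2 b hb
  obtain ⟨c0, c1⟩ := h1 π hπ hk
  rcases le_total ‖a.s.e.c π t‖ (‖b‖ ^ 2) with k | k
  · exact pt a hπ hb.1 fun _ => ⟨c0, c1, k⟩
  have c2 : 0 < ‖a.s.e.c π t‖ := norm_pos_iff.2 c0
  have b0 : 0 < ‖b‖ := by
    refine (norm_nonneg b).lt_of_ne fun e => ?_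
    have := hb.2 hk
    rw [← e, mul_zero] at this
    linarith
  have e : a.s.e.E π (t, b) = a.s.e.E (a.s.e.far π) (t, a.s.e.c π t / b) := by
    rw [h2, div_div_cancel₀ c0]
  rw [e]
  refine pt a n1 ?_ fun _ => ?_
  · rw [norm_div, div_le_iff₀ b0]
    exact hb.2 hk
  · rw [n2]
    refine ⟨c0, c1, ?_⟩
    rw [norm_div, div_pow, le_div_iff₀ (by positivity), sq ‖a.s.e.c π t‖]
    exact mul_le_mul_of_nonneg_left k c2.le

lemma port (hs : SymStmt) {ρ : ℝ} (ρ0 : 0 < ρ) : ∀ᶠ t in A.l, ∀ π, S.cm π ∈ al →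
    ∀ w ∈ An ρ (7 / 20 * a.r₃), Cv a t (S.P π (t, w)) := by
  have r0 := a.r30
  have r1 := a.r3r
  have r2 := a.s.rr
  refine eventually_all.2 fun π => eventually_imp_distrib_left.2 fun hπ => ?_
  have mt : Mt A.l (S.P π) (a.s.e.E π) id (An ρ (7 / 20 * a.r₃)) :=
    hs M A _ _ (ρ / 2) _ _ a.r₃ (half_pos ρ0) (half_lt_self ρ0) (by linarith)
      ((a.s.e.ise π hπ).out _ _ (half_pos ρ0) r1)
      ((MergeX.chE (a.s.e.ise π hπ) (half_pos ρ0) r0 r1).mono fun _ h ξ hξ => (h ξ hξ).1)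
      ((S.Plc _ (half_pos ρ0)).mono fun t h w hw =>
        ⟨(h π w hw.1 (by linarith [hw.2])).1.1, fun w' hw' e =>
          ((h π w hw.1 (by linarith [hw.2])).2.2 π w' hw'.1 (by linarith [hw'.2]) e).2⟩)
  filter_upwards [mt (min (ρ / 2) (a.r₃ / 100)) (by positivity),
    sm a (Real.exp_pos (-(10 * Real.log a.r₃))), sm a (by positivity : 0 < (ρ / 2) ^ 2)]
    with t h1 h2 h3 w hw
  obtain ⟨b, b1, b2⟩ := h1 w hw
  rw [id, lt_min_iff] at b1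
  have k1 := abs_le.1 ((abs_norm_sub_norm_le b w).trans b1.1.le)
  have k2 := abs_le.1 ((abs_norm_sub_norm_le b w).trans b1.2.le)
  rw [b2]
  refine pt a hπ (by linarith [hw.2, k2.2]) fun hk => ⟨(h2 π hπ hk).1, (h2 π hπ hk).2,
    (h3 π hπ hk).2.le.trans ?_⟩
  exact pow_le_pow_left₀ (by positivity) (by linarith [hw.1, k1.1]) 2

lemma ultra (hs : SymStmt) {u : Ultrafilter (ℂ × M)} (hu : A.Out u) :
    ∀ᶠ x in (u : Filter (ℂ × M)), Cv a x.1 x.2 := by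
  have r0 := a.r30
  rcases a.s.cov u hu with ⟨k, hk, x, hx, hc⟩ | ⟨π, hπ, hd⟩
  swap
  · filter_upwards [hd (9 / 25 * a.r₃) (by positivity), hu.1.eventually (deep a hπ)]
      with x ⟨b, b1, b2⟩ h
    exact b2 ▸ h b b1
  rcases a.cov k hk x hx with ⟨π, w, ⟨w1, w0⟩, rfl⟩ | ⟨c, c1, w, w1, rfl⟩
  · rw [mem_ball_zero_iff] at w1
    have n0 : 0 < ‖w‖ := norm_pos_iff.2 w0
    have w2 : w ∈ ball (0 : ℂ) S.r₀ \ {0} :=
      ⟨mem_ball_zero_iff.2 (by linarith [a.r3r, a.s.rr]), w0⟩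
    have e : S.cm π = k := S.disj _ _ _ ((S.pc π).2 w2) hx
    filter_upwards [S.Pcov π w w2 u hu hc (min (‖w‖ / 2) (a.r₃ / 100)) (by positivity),
      hu.1.eventually (port a hs (half_pos n0))] with x ⟨π', w', f, n, j⟩ h
    rw [lt_min_iff, abs_lt, abs_lt] at n
    rw [j]
    exact h π' (by rwa [S.flc _ _ f, e]) w' ⟨by linarith [n.1.1], by linarith [n.2.2]⟩
  · obtain ⟨-, c2⟩ := a.hF c c1
    have d0 := S.rad0 _ c c2
    have dc : (S.rad c : ℂ) ≠ 0 := by exact_mod_cast d0.ne'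
    filter_upwards [S.Tcov _ c c2 w (ball_subset_ball (by linarith) w1) u hu hc
      (ball 0 (S.rad c / 2)) (isOpen_ball.mem_nhds (ball_subset_ball (by linarith) w1))]
      with x ⟨j, j1, w', j2, j3⟩
    refine .inl ⟨.inl (c, j), w' / S.rad c, ⟨c1, j1, ?_⟩, ?_⟩
    · rw [mem_ball_zero_iff] at j2
      show ‖w' / S.rad c‖ ≤ _
      rw [norm_div, Complex.norm_real, Real.norm_of_nonneg d0.le, div_le_iff₀ d0]
      linarith
    · simp only [CA.Y, mul_div_cancel₀ _ dc, j3]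

end CovX

open CovX in
theorem covS : CovOf := by
  intro _ hs M _ A S al a
  by_contra h
  have hne : (comap Prod.fst A.l ⊓ 𝓟 {x : ℂ × M | x ∈ A.Zb ∧ ¬Cv a x.1 x.2}).NeBot := by
    refine ⟨fun e => h ?_⟩
    have := eventually_comap.1 (inf_principal_eq_bot.1 e)
    exact this.mono fun t ht y hy => by_contra fun hc => ht (t, y) rfl ⟨hy, hc⟩
  obtain ⟨u, hu⟩ := Ultrafilter.exists_le
    (comap Prod.fst A.l ⊓ 𝓟 {x : ℂ × M | x ∈ A.Zb ∧ ¬Cv a x.1 x.2})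
  rw [le_inf_iff, le_principal_iff] at hu
  obtain ⟨x, h1, h2⟩ := ((ultra a hs ⟨tendsto_iff_comap.2 hu.1,
    mem_of_superset hu.2 fun x hx => hx.1⟩).and hu.2).exists
  exact h2.2 h1

end Pool.Agent.MP_c69980_ag.G3
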