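import Pool.Agent.MP_c69980_ag.G3.SpecI
import Pool.Agent.MP_c69980_ag.H60.Disc2

/-! Brody sequences do not go deep into the edges. -/

set_option autoImplicit false

noncomputable section

namespace Pool.Agent.MP_c69980_ag.G3

open Metric Filter Topology Set

namespace DeepX

lemma schw {f ω : ℂ → ℂ} {c : ℂ} {R r : ℝ} (hR : 0 < R) (hr : 0 < r)
    (hf : DifferentiableOn ℂ f (ball c R)) (h0 : ∀ z ∈ ball c R, f z ≠ 0 ∧ ‖f z‖ ≤ r)
    (hω : DifferentiableAt ℂ ω c) (e : ∀ᶠ z in 𝓝 c, f z = r * Complex.exp (ω z))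
    (hn : (ω c).re < 0) : R * ‖deriv ω c‖ ≤ -2 * (ω c).re := by
  obtain ⟨h, h1, h2, h3⟩ := H60.exists_log hR hf fun z hz => (h0 z hz).1
  have nb := isOpen_ball.mem_nhds (mem_ball_self hR : c ∈ ball c R)
  have ec := e.self_of_nhds
  obtain ⟨m, hm⟩ : ∃ m : ℝ, m = -(ω c).re := ⟨_, rfl⟩
  have m0 : 0 < m := by linarith
  have h4 : ∀ z ∈ ball c R, (h z).re ≤ m := fun z hz => by
    have := (h0 z hz).2
    rw [h3 z hz, ec, mul_assoc, ← Complex.exp_add, norm_mul, Complex.norm_real,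
      Real.norm_of_nonneg hr.le, Complex.norm_exp, mul_le_iff_le_one_right hr,
      Real.exp_le_one_iff, Complex.add_re] at this
    linarith
  have h5 : ∀ z ∈ ball c R, (2 * m - h z : ℂ) ≠ 0 := fun z hz q => by
    have := congrArg Complex.re q
    have h6 := h4 z hz
    simp at this
    linarith
  have dh := (h1.differentiableAt nb).hasDerivAt
  have h6 : deriv h c = deriv ω c := by
    have a1 := dh.cexp.const_mul (f c)
    have a2 := (hω.hasDerivAt.cexp.const_mul (r : ℂ)).congr_of_eventuallyEq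
      (f₁ := fun z => f c * Complex.exp (h z))
      (by filter_upwards [e, nb] with z k1 k2; rw [← h3 z k2, k1])
    have a3 := a1.unique a2
    rw [h2, Complex.exp_zero, one_mul, ← mul_assoc, ← ec] at a3
    exact mul_left_cancel₀ (h0 c (mem_ball_self hR)).1 a3
  have h7 := Complex.norm_deriv_le_div_of_mapsTo_ball (f := fun z => h z / (2 * m - h z))
    (c := c) (R₁ := R) (R₂ := 1) (h1.div ((differentiableOn_const _).sub h1) h5) (fun z hz => by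
      rw [h2, zero_div, mem_closedBall_zero_iff, norm_div,
        div_le_one (norm_pos_iff.2 (h5 z hz)), ← sq_le_sq₀ (norm_nonneg _) (norm_nonneg _),
        Complex.sq_norm, Complex.sq_norm, Complex.normSq_apply, Complex.normSq_apply]
      have := h4 z hz
      simp
      nlinarith) hR
  have h8 := (dh.div (dh.const_sub (2 * m : ℂ)) (h5 c (mem_ball_self hR))).deriv
  have m1 : (m : ℂ) ≠ 0 := Complex.ofReal_ne_zero.2 m0.ne'
  have h9 : deriv (fun z => h z / (2 * m - h z)) c = deriv ω c / (2 * m) := by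
    refine h8.trans ?_
    rw [h2, h6]
    field_simp
    ring
  rw [h9, norm_div, norm_mul, Complex.norm_real, Real.norm_of_nonneg m0.le, Complex.norm_two,
    div_le_div_iff₀ (by positivity) hR] at h7
  linarith

lemma chain {P : ℕ → ℂ → Prop} {t : ℂ} {R ρ : ℝ} (hρ : 0 < ρ) (h0 : P 0 t)
    (hs : ∀ m, ∀ z ∈ ball t R, ∀ z' ∈ ball z ρ, P m z → P (m + 1) z') (m : ℕ) :
    ∀ z ∈ ball t R, ‖z - t‖ ≤ m * (ρ / 2) → P m z := by
  induction m with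
  | zero =>
    intro z _ h
    rw [Nat.cast_zero, zero_mul, norm_le_zero_iff, sub_eq_zero] at h
    rwa [h]
  | succ m ih =>
    intro z hz h
    have m0 : (0 : ℝ) < m + 1 := by positivity
    have e1 : ‖t + ((m / (m + 1) : ℝ) : ℂ) * (z - t) - t‖ = m / (m + 1) * ‖z - t‖ := by
      rw [add_sub_cancel_left, norm_mul, Complex.norm_real, Real.norm_of_nonneg (by positivity)]
    have e2 : z - (t + ((m / (m + 1) : ℝ) : ℂ) * (z - t)) = ((1 / (m + 1) : ℝ) : ℂ) * (z - t) := by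
      have : (m : ℂ) + 1 ≠ 0 := by exact_mod_cast m0.ne'
      push_cast
      field_simp
      ring
    push_cast at h
    have h1 : ‖z - t‖ / (m + 1) ≤ ρ / 2 := by rw [div_le_iff₀ m0]; linarith
    have h2 : t + ((m / (m + 1) : ℝ) : ℂ) * (z - t) ∈ ball t R := by
      rw [mem_ball_iff_norm] at hz ⊢
      rw [e1]
      exact (mul_le_of_le_one_left (norm_nonneg _) ((div_le_one m0).2 (by linarith))).trans_lt hz
    refine hs m _ h2 z ?_ (ih _ h2 ?_)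
    · rw [mem_ball_iff_norm, e2, norm_mul, Complex.norm_real, Real.norm_of_nonneg (by positivity),
        one_div, inv_mul_eq_div]
      linarith
    · rw [e1, div_mul_eq_mul_div, mul_div_assoc]
      exact mul_le_mul_of_nonneg_left h1 (Nat.cast_nonneg _)

variable {M : Type} [MetricSpace M] {A : Amb M} {S : Sk A} {al : Finset S.Cmp} (a : CA S al)

lemma omono {θ θ' : ℝ} (h : θ ≤ θ') (h0 : 0 ≤ θ) (h4 : θ ≤ 4) (i : (M × ℕ) ⊕ S.Prt) :
    a.O θ i ⊆ a.O θ' i := by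
  rcases i with x | π
  · exact fun p hp => ⟨hp.1, hp.2.1, hp.2.2.trans (by linarith)⟩
  · intro p hp
    refine ⟨hp.1, ?_⟩
    have h2 := hp.2
    split_ifs at h2 ⊢ with hd
    · exact h2.trans (by linarith)
    · refine ⟨h2.1.trans (by linarith), fun hn => (h2.2 hn).trans ?_⟩
      have h3 := h2.2 hn
      have h5 : 0 ≤ -Real.log ‖a.s.e.c π p.1‖ :=
        nonneg_of_mul_nonneg_right (a := (11 + θ) / 20) (by linarith [h2.1]) (by linarith)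
      exact mul_le_mul_of_nonneg_right (by linarith) h5

/-- The properties of the atlas at one point of the base. -/
structure Gd (C κ : ℝ) (z : ℂ) : Prop where
  cov : ∀ y, (z, y) ∈ A.Zb → (∃ i w, (z, w) ∈ a.O 1 i ∧ y = a.Y i (z, w)) ∨
    ∃ π, S.cm π ∈ al ∧ a.s.e.κ π = .cusp ∧ y = a.s.e.E π (z, 0)
  tr : ∀ i j w v, (z, w) ∈ a.O 3 i → (z, v) ∈ a.O 3 j → a.Y i (z, w) = a.Y j (z, v) →
    a.sc i (z, w) ≤ C * a.sc j (z, v)
  lift : ∀ i w₁ s (R B : ℝ), (z, w₁) ∈ a.O 2 i → 0 < R → R ≤ κ * A.dp z → 0 ≤ B → B * R ≤ κ →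
    A.Sec (ball z R) s → s z = a.Y i (z, w₁) → (∀ t ∈ ball z R, a.Sp s t B) →
    ∃ ω : ℂ → ℂ, AnalyticOnNhd ℂ ω (ball z R) ∧ ω z = w₁ ∧ ∀ t ∈ ball z R,
      (t, ω t) ∈ a.O 3 i ∧ s t = a.Y i (t, ω t) ∧ ‖ω t - w₁‖ ≤ a.sc i (z, w₁) ∧
        a.sc i (t, ω t) ≤ 2 * a.sc i (z, w₁) ∧ a.sc i (z, w₁) ≤ 2 * a.sc i (t, ω t)
  lc : ∀ π, S.cm π ∈ al → ∀ b ∈ De (a.s.e.κ π) (a.s.e.c π z) a.r₃, A.LC (a.s.e.E π) (z, b) ∧
    ((z, a.s.e.E π (z, b)) ∈ A.Z ↔ (a.s.e.κ π = .cusp → b ≠ 0)) ∧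
      ∀ b' ∈ De (a.s.e.κ π) (a.s.e.c π z) a.r₃, a.s.e.E π (z, b) = a.s.e.E π (z, b') → b = b'
  nk : ∀ π, S.cm π ∈ al → a.s.e.κ π = .neck → AnalyticAt ℂ (a.s.e.c π) z ∧ a.s.e.c π z ≠ 0 ∧
    ‖a.s.e.c π z‖ < Real.exp (20 / 3 * Real.log a.r₃) ∧
      ∀ b, a.s.e.E (a.s.e.far π) (z, b) = a.s.e.E π (z, a.s.e.c π z / b)
  dj : ∀ π, S.cm π ∈ al → ∀ π', S.cm π' ∈ al → ∀ b ∈ De (a.s.e.κ π) (a.s.e.c π z) a.r₃,
    ∀ b' ∈ De (a.s.e.κ π') (a.s.e.c π' z) a.r₃, a.s.e.E π (z, b) = a.s.e.E π' (z, b') →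
      π' = π ∨ (a.s.e.κ π = .neck ∧ π' = a.s.e.far π)

lemma gd (h1 : a.CovP) (h2 : a.TrP) (h3 : a.LiftP) :
    ∃ C κ : ℝ, 1 ≤ C ∧ 0 < κ ∧ κ ≤ 1 / 16 ∧ ∀ᶠ z in A.l, Gd a C κ z := by
  obtain ⟨C, C1, h2⟩ := h2
  obtain ⟨κ, k0, k1, h3⟩ := h3
  refine ⟨C, κ, C1, k0, k1, ?_⟩
  have h4 := eventually_all.2 fun π => (eventually_imp_distrib_left (p := S.cm π ∈ al)).2
    fun hπ => (a.s.e.ise π hπ).lc _ a.r3r
  have h5 : ∀ᶠ z in A.l, ∀ π, S.cm π ∈ al → a.s.e.κ π = .neck → AnalyticAt ℂ (a.s.e.c π) z ∧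
      a.s.e.c π z ≠ 0 ∧ ‖a.s.e.c π z‖ < Real.exp (20 / 3 * Real.log a.r₃) ∧
      ∀ b, a.s.e.E (a.s.e.far π) (z, b) = a.s.e.E π (z, a.s.e.c π z / b) := by
    refine eventually_all.2 fun π => eventually_imp_distrib_left.2 fun hπ =>
      eventually_imp_distrib_left.2 fun hn => ?_
    obtain ⟨c1, K, c2⟩ := (a.s.e.ise π hπ).cc hn
    have c3 := c1.norm.eventually (gt_mem_nhds (show ‖(0 : ℂ)‖ < _ by
      rw [norm_zero]; exact Real.exp_pos (20 / 3 * Real.log a.r₃)))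
    filter_upwards [c2, c3, (a.s.e.nk π hπ hn).2.2.2.2.2] with z k1 k2 k3
    exact ⟨k1.1, norm_pos_iff.1 ((Real.exp_pos _).trans_le k1.2), k2, k3⟩
  filter_upwards [h1, h2, h3, h4, h5, a.s.e.dj _ a.r3r] with z k1 k2 k3 k4 k5 k6
  exact ⟨k1, fun i j w v x y e => (k2 i j w v x y e).1, k3, k4, k5, k6⟩

variable {a} {C κ : ℝ}

lemma edge {i : (M × ℕ) ⊕ S.Prt} {p : C2} (h : 1 < a.sc i p) :
    ∃ π, i = .inr π ∧ a.s.e.κ π ≠ .disc := by
  rcases i with x | π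
  · exact absurd h (lt_irrefl _)
  · exact ⟨π, rfl, fun e => by simp [CA.sc, e] at h⟩

lemma de {z v : ℂ} {π : S.Prt} (hG : Gd a C κ z) (hd : a.s.e.κ π ≠ .disc)
    (h : (z, v) ∈ a.O 3 (.inr π)) : S.cm π ∈ al ∧ v.re < 0 ∧
      a.r₃ * Complex.exp v ∈ De (a.s.e.κ π) (a.s.e.c π z) a.r₃ ∧
      a.Y (.inr π) (z, v) = a.s.e.E π (z, a.r₃ * Complex.exp v) := by
  have h2 := h.2
  rw [if_neg hd] at h2
  have r0 := a.r30
  have h3 : v.re < 0 := by linarith [h2.1]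
  have e : ‖a.r₃ * Complex.exp v‖ = a.r₃ * Real.exp v.re := by
    rw [norm_mul, Complex.norm_real, Real.norm_of_nonneg r0.le, Complex.norm_exp]
  refine ⟨h.1, h3, ⟨?_, fun hn => ?_⟩, if_neg hd⟩
  · rw [e]
    exact mul_le_of_le_one_right r0.le (Real.exp_le_one_iff.2 h3.le)
  · obtain ⟨-, c0, c1, -⟩ := hG.nk π h.1 hn
    have c2 := norm_pos_iff.2 c0
    have c3 := (Real.log_le_iff_le_exp c2).2 c1.le
    have c4 := h2.2 hn
    rw [e, ← Real.exp_log c2, ← Real.exp_log r0, ← Real.exp_add, ← Real.exp_add]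
    exact Real.exp_le_exp.2 (by dsimp only at c4; linarith)

lemma core {t : ℂ} {ε : ℝ} {s : ℂ → M} {i : (M × ℕ) ⊕ S.Prt} {ω : ℂ → ℂ} {n : ℕ} (C1 : 1 ≤ C)
    (k0 : 0 < κ) (k1 : κ ≤ 1 / 16) (hn : 20 ≤ n * κ) (e0 : 0 < ε)
    (hG : ∀ z ∈ ball t (6 * ε), Gd a C κ z ∧ ε ≤ A.dp z) (hs : A.Sec (ball t (6 * ε)) s)
    (hp : ∀ z ∈ ball t (6 * ε), a.Sp s z (2 / ε)) (hl : a.Lf s t i ω)
    (hc : a.sc i (t, ω t) ≤ 2 * ε * ‖deriv ω t‖) : a.sc i (t, ω t) ≤ C * (2 * C) ^ n := by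
  by_contra hb
  push Not at hb
  obtain ⟨ρ, hρ⟩ : ∃ ρ, ρ = κ * ε / 2 := ⟨_, rfl⟩
  have r0 : 0 < ρ := by rw [hρ]; positivity
  have r1 : ρ ≤ ε := by rw [hρ]; nlinarith
  have sub : ∀ z ∈ ball t (5 * ε), ball z ρ ⊆ ball t (6 * ε) := fun z hz =>
    ball_subset_ball' (by linarith [mem_ball.1 hz])
  have sub' : ∀ z ∈ ball t (5 * ε), z ∈ ball t (6 * ε) := fun z hz => sub z hz (mem_ball_self r0)
  have t0 : t ∈ ball t (5 * ε) := mem_ball_self (by positivity)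
  have all : ∀ {P : ℕ → ℂ → Prop}, P 0 t →
      (∀ m, ∀ z ∈ ball t (5 * ε), ∀ z' ∈ ball z ρ, P m z → P (m + 1) z') →
      ∀ z ∈ ball t (5 * ε), P n z := fun h0 h1 z hz =>
    chain r0 h0 h1 n z hz (by rw [hρ]; nlinarith [mem_ball_iff_norm.1 hz])
  have step : ∀ z ∈ ball t (5 * ε), ∃ (j : (M × ℕ) ⊕ S.Prt) (η : ℂ → ℂ),
      AnalyticOnNhd ℂ η (ball z ρ) ∧ ∀ z' ∈ ball z ρ, (z', η z') ∈ a.O 3 j ∧
        s z' = a.Y j (z', η z') ∧ a.sc j (z, η z) ≤ 2 * a.sc j (z', η z') := by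
    intro z hz
    obtain ⟨g, hd⟩ := hG z (sub' z hz)
    have hZ := (hs z (sub' z hz)).2
    rcases g.cov _ (A.sub hZ) with ⟨j, w, h1, h2⟩ | ⟨π, h1, h2, h3⟩
    · obtain ⟨η, a1, a2, a3⟩ := g.lift j w s ρ (2 / ε)
        (omono a (by norm_num) (by norm_num) (by norm_num) j h1) r0 (by rw [hρ]; nlinarith)
        (by positivity) (by rw [hρ]; exact le_of_eq (by field_simp))
        (fun x hx => hs x (sub z hz hx)) h2 fun x hx => hp x (sub z hz hx)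
      exact ⟨j, η, a1, fun x hx => ⟨(a3 x hx).1, (a3 x hx).2.1, a2 ▸ (a3 x hx).2.2.2.2⟩⟩
    · rw [h3] at hZ
      exact absurd rfl ((g.lc π h1 0 ⟨by rw [norm_zero]; exact a.r30.le, fun q => by
        rw [h2] at q; cases q⟩).2.1.1 hZ h2)
  have st := hl.2.2.self_of_nhds
  have C0 : 0 < C := by linarith
  have big := all (P := fun m z => ∀ j v, (z, v) ∈ a.O 3 j → s z = a.Y j (z, v) →
      a.sc i (t, ω t) ≤ C * (2 * C) ^ m * a.sc j (z, v))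
    (fun j v h1 h2 => by
      simpa using (hG t (sub' t t0)).1.tr i j _ v hl.2.1 h1 (st.symm.trans h2))
    fun m z hz z' hz' h j v h1 h2 => by
      obtain ⟨j₀, η, -, a2⟩ := step z hz
      obtain ⟨b1, b2, -⟩ := a2 z (mem_ball_self r0)
      obtain ⟨c1, c2, c3⟩ := a2 z' hz'
      have d1 := (hG z' (sub z hz hz')).1.tr j₀ j _ v c1 h1 (c2.symm.trans h2)
      have d2 : 0 < C * (2 * C) ^ m := by positivity
      refine (h j₀ _ b1 b2).trans ?_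
      rw [pow_succ, ← mul_assoc, mul_assoc (C * _)]
      exact mul_le_mul_of_nonneg_left (by linarith) d2.le
  have one : ∀ z ∈ ball t (5 * ε), ∀ j v, (z, v) ∈ a.O 3 j → s z = a.Y j (z, v) →
      ∃ π, j = .inr π ∧ a.s.e.κ π ≠ .disc := fun z hz j v h1 h2 =>
    edge ((lt_mul_iff_one_lt_right (by positivity)).1 (hb.trans_le (big z hz j v h1 h2)))
  obtain ⟨π, rfl, hd⟩ := one t t0 i _ hl.2.1 st
  obtain ⟨hπ, w0, w1, w2⟩ := de (hG t (sub' t t0)).1 hd hl.2.1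
  have r3 : (a.r₃ : ℂ) ≠ 0 := Complex.ofReal_ne_zero.2 a.r30.ne'
  have loc : ∀ z ∈ ball t (5 * ε),
      (∃ b ∈ De (a.s.e.κ π) (a.s.e.c π z) a.r₃, s z = a.s.e.E π (z, b)) →
      ∃ β : ℂ → ℂ, AnalyticOnNhd ℂ β (ball z ρ) ∧ ∀ z' ∈ ball z ρ, β z' ≠ 0 ∧
        β z' ∈ De (a.s.e.κ π) (a.s.e.c π z') a.r₃ ∧ s z' = a.s.e.E π (z', β z') := by
    rintro z hz ⟨b, hb1, hb2⟩
    obtain ⟨j, η, a1, a2⟩ := step z hz
    obtain ⟨b1, b2, -⟩ := a2 z (mem_ball_self r0)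
    obtain ⟨π', rfl, hd'⟩ := one z hz j _ b1 b2
    have D := fun z' hz' => de (hG z' (sub z hz hz')).1 hd' (a2 z' hz').1
    have an : AnalyticOnNhd ℂ (fun z' => a.r₃ * Complex.exp (η z')) (ball z ρ) := fun x hx =>
      analyticAt_const.mul (a1 x hx).cexp
    have ne : ∀ x, a.r₃ * Complex.exp (η x) ≠ 0 := fun x =>
      mul_ne_zero r3 (Complex.exp_ne_zero _)
    obtain ⟨d1, -, d2, d3⟩ := D z (mem_ball_self r0)
    rcases (hG z (sub' z hz)).1.dj π hπ π' d1 b hb1 _ d2 (hb2.symm.trans (b2.trans d3)) with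
      rfl | ⟨hk, rfl⟩
    · exact ⟨_, an, fun x hx => ⟨ne x, (D x hx).2.2.1, (a2 x hx).2.1.trans (D x hx).2.2.2⟩⟩
    · have N := fun x hx => (hG x (sub z hz hx)).1.nk π hπ hk
      obtain ⟨-, -, -, n1, n2, -⟩ := a.s.e.nk π hπ hk
      refine ⟨fun x => a.s.e.c π x / (a.r₃ * Complex.exp (η x)),
        fun x hx => (N x hx).1.div (an x hx) (ne x), fun x hx => ⟨div_ne_zero (N x hx).2.1 (ne x),
          ?_, (a2 x hx).2.1.trans ((D x hx).2.2.2.trans ((N x hx).2.2.2 _))⟩⟩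
      obtain ⟨f1, f2⟩ := (D x hx).2.2.1
      have f3 := f2 n1
      have f4 := norm_pos_iff.2 (ne x)
      rw [n2] at f3
      refine ⟨by rwa [norm_div, div_le_iff₀ f4], fun _ => ?_⟩
      rw [norm_div, ← mul_div_assoc, le_div_iff₀ f4, mul_comm]
      exact mul_le_mul_of_nonneg_right f1 (norm_nonneg _)
  have inn := all (P := fun _ z => ∃ b ∈ De (a.s.e.κ π) (a.s.e.c π z) a.r₃,
      s z = a.s.e.E π (z, b)) ⟨_, w1, st.trans w2⟩ fun _ z hz z' hz' h => by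
    obtain ⟨β, -, h2⟩ := loc z hz h
    exact ⟨_, (h2 z' hz').2⟩
  choose! b hb1 hb2 using inn
  have fb : ∀ z ∈ ball t (5 * ε), DifferentiableAt ℂ b z ∧ b z ≠ 0 := fun z hz => by
    obtain ⟨β, h1, h2⟩ := loc z hz ⟨_, hb1 z hz, hb2 z hz⟩
    have e : b =ᶠ[𝓝 z] β := by
      filter_upwards [isOpen_ball.mem_nhds hz, ball_mem_nhds z r0] with x x1 x2
      exact ((hG x (sub' x x1)).1.lc π hπ _ (hb1 x x1)).2.2 _ (h2 x x2).2.1
        ((hb2 x x1).symm.trans (h2 x x2).2.2)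
    exact ⟨(h1 z (mem_ball_self r0)).differentiableAt.congr_of_eventuallyEq e,
      e.self_of_nhds ▸ (h2 z (mem_ball_self r0)).1⟩
  obtain ⟨l1, -, l2⟩ := (hG t (sub' t t0)).1.lc π hπ _ (hb1 t t0)
  have bt : b t = a.r₃ * Complex.exp (ω t) := l2 _ w1 ((hb2 t t0).symm.trans (st.trans w2))
  have ten : Tendsto (fun z => (((z, b z), a.r₃ * Complex.exp (ω z)) : C2 × ℂ)) (𝓝 t)
      (𝓝 ((t, b t), b t)) :=
    (tendsto_id.prodMk_nhds (fb t t0).1.continuousAt).prodMk_nhds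
      (bt ▸ (analyticAt_const.mul hl.1.cexp).continuousAt)
  have ev : ∀ᶠ z in 𝓝 t, b z = a.r₃ * Complex.exp (ω z) := by
    filter_upwards [ten.eventually (A.linj _ _ l1), hl.2.2, isOpen_ball.mem_nhds t0] with z x1 x2 x3
    exact x1 ((hb2 z x3).symm.trans (x2.trans (if_neg hd)))
  have fin := schw (by positivity) a.r30
    (fun z hz => (fb z hz).1.differentiableWithinAt) (fun z hz => ⟨(fb z hz).2, (hb1 z hz).1⟩)
    hl.1.differentiableAt ev w0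
  have e : a.sc (.inr π) (t, ω t) = 1 - (ω t).re := if_neg hd
  rw [e] at hc
  linarith

end DeepX

open DeepX in
theorem deepS : DeepOf := by
  intro _ M _ A S al a _ h1 h2 h3 u t ε s i ω hB
  obtain ⟨C, κ, C1, k0, k1, hG⟩ := gd a h1 h2 h3
  obtain ⟨n, hn⟩ := exists_nat_ge (20 / κ)
  obtain ⟨D, hD⟩ := eventually_atTop.1 (eventually_comap.1 hG)
  have h4 : ∀ᶠ k in (u : Filter ℕ), 2 * D ≤ A.dp (t k) ∧ 0 < A.dp (t k) :=
    (tendsto_comap_iff.1 hB.tl).eventually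
      ((eventually_ge_atTop (2 * D)).and (eventually_gt_atTop 0))
  refine ⟨C * (2 * C) ^ n, ?_⟩
  filter_upwards [h4, hB.sm.eventually (gt_mem_nhds (show (0 : ℝ) < 1 / 12 by norm_num)),
    hB.sec 6, hB.ctr] with k x1 x2 x3 x4
  refine core C1 k0 k1 ((div_le_iff₀ k0).1 hn) (hB.ε0 k) (fun z hz => ?_) x3.1 x3.2 x4.1 x4.2
  rw [div_lt_iff₀ x1.2] at x2
  have y1 := (Complex.abs_re_le_norm (z - t k)).trans_lt (mem_ball_iff_norm.1 hz)
  rw [Complex.sub_re, abs_lt] at y1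
  have y2 : A.dp (t k) - 6 * ε k ≤ A.dp z := by
    rcases A.hσ with e | e <;> simp only [Amb.dp, e] <;> linarith [y1.1, y1.2]
  exact ⟨hD (A.dp z) (by linarith [x1.1]) z rfl, by linarith [hB.ε0 k]⟩

end Pool.Agent.MP_c69980_ag.G3
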