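import Pool.Agent.MP_c69980_ag.G3.DegA

/-!
Row Deg: compact components of nonpositive degree do not occur.
-/

set_option autoImplicit false

noncomputable section

namespace Pool.Agent.MP_c69980_ag.G3

open Metric Filter Topology Set

namespace DegX

variable {M : Type} [MetricSpace M] {A : Amb M}

theorem sl_an {G : C2 → ℂ} {t w : ℂ} (hG : AnalyticAt ℂ G (t, w)) :
    AnalyticAt ℂ (fun z => G (t, z)) w :=
  AnalyticAt.comp_of_eq hG (analyticAt_const.prod analyticAt_id) rfl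

theorem sh_an {G : C2 → ℂ} {t w z : ℂ} (hG : AnalyticAt ℂ G (t, w + z)) :
    AnalyticAt ℂ (fun z => G (t, w + z)) z :=
  AnalyticAt.comp_of_eq hG (analyticAt_const.prod (analyticAt_const.add analyticAt_id)) rfl

theorem sh_tend (t w z : ℂ) :
    Tendsto (fun z : ℂ => ((t, w + z) : C2)) (𝓝 z) (𝓝 (t, w + z)) :=
  (by fun_prop : Continuous fun z : ℂ => ((t, w + z) : C2)).tendsto z

/-- The transformation rule of the coefficients. -/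
theorem trf {Y Y' : C2 → M} {t w v : ℂ} {ω : ℂ → ℂ} (h : A.LC Y (t, w)) (h' : A.LC Y' (t, v))
    (hω : ContinuousAt ω 0) (e : ω 0 = v) (ev : ∀ᶠ z in 𝓝 (0 : ℂ), Y (t, w + z) = Y' (t, ω z)) :
    A.cf Y (t, w) = deriv ω 0 ^ A.m • A.cf Y' (t, v) := by
  have e0 := ev.self_of_nhds
  rw [add_zero, e] at e0
  obtain ⟨φ, a1, a2, a3, a4⟩ := A.trans Y' Y t v w h' h e0.symm
  have c := (A.comp Y' Y (t, w) φ (by rw [a2]; exact h') a1 a3 a4).2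
  have t1 : Tendsto (fun z : ℂ => ((t, w + z) : C2)) (𝓝 0) (𝓝 (t, w)) := by
    simpa using sh_tend t w 0
  have t2 : Tendsto (fun z : ℂ => φ (t, w + z)) (𝓝 0) (𝓝 v) := a2 ▸ a1.continuousAt.tendsto.comp t1
  have t3 : Tendsto (fun z : ℂ => ((((t, ω z) : C2), φ (t, w + z)) : C2 × ℂ)) (𝓝 0)
      (𝓝 ((t, v), v)) := (tendsto_const_nhds.prodMk_nhds (e ▸ hω.tendsto)).prodMk_nhds t2
  have e1 : ω =ᶠ[𝓝 0] fun z => φ (t, w + z) := by
    filter_upwards [t3.eventually (A.linj Y' (t, v) h'), t1.eventually a4, ev] with z b1 b2 b3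
    exact b1 (b3.symm.trans b2)
  have e2 : HasDerivAt (fun z => φ (t, w + z)) (dw φ (t, w)) 0 := by
    have h1 : HasFDerivAt φ (fderiv ℂ φ (t, w)) (t, w + 0) := by
      rw [add_zero]
      exact a1.differentiableAt.hasFDerivAt
    exact HasFDerivAt.comp_hasDerivAt (f := fun z : ℂ => ((t, w + z) : C2)) 0 h1
      ((hasDerivAt_const 0 t).prodMk ((hasDerivAt_id (0 : ℂ)).const_add w))
  rw [e1.deriv_eq, e2.deriv]
  funext l
  rw [c l, a2]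
  rfl

theorem form {V : ℂ → Fin 3 → ℂ} {c : Fin 3 → ℂ}
    (h : ¬∀ᶠ w in 𝓝 (0 : ℂ), ∃ κ : ℂ, ∀ l, V w l = κ * c l) :
    ∃ L : (Fin 3 → ℂ) →L[ℂ] ℂ, L c = 0 ∧ ¬∀ᶠ w in 𝓝 (0 : ℂ), L (V w) = 0 := by
  by_contra hn
  have k : ∀ L : (Fin 3 → ℂ) →L[ℂ] ℂ, L c = 0 → ∀ᶠ w in 𝓝 (0 : ℂ), L (V w) = 0 := fun L hL =>
    by_contra fun c' => hn ⟨L, hL, c'⟩
  refine h ?_
  by_cases c0 : ∀ l, c l = 0
  · filter_upwards [eventually_all.2 fun l =>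
      k (ContinuousLinearMap.proj (R := ℂ) (φ := fun _ : Fin 3 => ℂ) l) (c0 l)] with w hw
    exact ⟨0, fun l => (hw l).trans (zero_mul _).symm⟩
  · obtain ⟨l₀, h0⟩ := not_forall.1 c0
    filter_upwards [eventually_all.2 fun l =>
      k (c l₀ • ContinuousLinearMap.proj (R := ℂ) (φ := fun _ : Fin 3 => ℂ) l -
        c l • ContinuousLinearMap.proj (R := ℂ) (φ := fun _ : Fin 3 => ℂ) l₀)
        (by simp [mul_comm])] with w hw
    refine ⟨V w l₀ / c l₀, fun l => ?_⟩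
    have h1 : c l₀ * V w l - c l * V w l₀ = 0 := by simpa using hw l
    field_simp
    linear_combination h1

variable {S : Sk A} {al : Finset S.Cmp}

theorem an_cpt (r R : ℝ) : IsCompact (An r R) :=
  (isCompact_closedBall (0 : ℂ) R).of_isClosed_subset
    ((isClosed_le continuous_const continuous_norm).inter
      (isClosed_le continuous_norm continuous_const)) fun _ h => mem_closedBall_zero_iff.2 h.2

theorem lmE (s : St S al) {π : S.Prt} (hπ : S.cm π ∈ al) {ρ₁ ρ₂ : ℝ} (h1 : 0 < ρ₁)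
    (h2 : ρ₂ < s.r) : Lm A.l (s.e.E π) (S.p π) (An ρ₁ ρ₂) := by
  refine Metric.tendstoUniformlyOn_iff.2 fun ε hε => ?_
  obtain ⟨ρ₃, a1, a2⟩ := exists_between h2
  have rr := s.rr
  have hc : ContinuousOn (S.p π) (An (ρ₁ / 2) ρ₃) := (S.pc π).1.mono fun w hw =>
    ⟨mem_ball_zero_iff.2 (by linarith [hw.2]),
      fun c => (norm_pos_iff.1 (by linarith [hw.1]) : w ≠ 0) c⟩
  obtain ⟨δ, δ0, hδ⟩ := Metric.uniformContinuousOn_iff.1
    ((an_cpt _ _).uniformContinuousOn_of_continuous hc) (ε / 2) (half_pos hε)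
  filter_upwards [(s.e.ise π hπ).out ρ₁ ρ₂ h1 h2 (min δ (min (ρ₁ / 2) (ρ₃ - ρ₂)))
    (lt_min δ0 (lt_min (half_pos h1) (by linarith))),
    Metric.tendstoUniformlyOn_iff.1 (S.Plm π (ρ₁ / 2) (half_pos h1)) (ε / 2) (half_pos hε)]
    with t b1 b2 x hx
  obtain ⟨w, c1, c2⟩ := b1 x hx
  rw [id, lt_min_iff, lt_min_iff] at c1
  have c3 := abs_le.1 (abs_norm_sub_norm_le w x)
  have hw : w ∈ An (ρ₁ / 2) ρ₃ :=
    ⟨by linarith [hx.1, c3.1, c1.2.1], by linarith [hx.2, c3.2, c1.2.2]⟩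
  have c4 := hδ x ⟨by linarith [hx.1], by linarith [hx.2]⟩ w hw
    (by rw [dist_comm, dist_eq_norm]; exact c1.1)
  have c5 := b2 w ⟨hw.1, by linarith [hw.2]⟩
  rw [c2]
  linarith [dist_triangle (S.p π x) (S.p π w) (S.P π (t, w))]

theorem injP {k : S.Cmp} {μ : ℕ} {η : M ⊕ S.Prt → ℂ → ℂ} (μ0 : 0 < μ) (hD : S.Dif k μ η)
    (h0 : ∀ i, ∀ w ∈ S.dom k i, η i w ≠ 0) {π : S.Prt} {w : ℂ} (hw : w ∈ S.dom k (.inr π)) :
    ∃ N ∈ 𝓝 w, InjOn (S.p π) N := by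
  have hc : S.p π w ∈ S.C k := hw.1 ▸ (S.pc π).2 ⟨mem_ball_zero_iff.2 hw.2.2, hw.2.1⟩
  have r0 := S.rad0 k _ hc
  obtain ⟨φ, a1, a2, a3⟩ := hD.2 (.inr π) (.inl (S.p π w)) w hw 0
    ⟨hc, by rw [norm_zero]; exact r0⟩ (S.ψ0 k _ hc).symm
  have d0 : deriv φ w ≠ 0 := fun c => h0 _ w hw (by
    rw [a3.self_of_nhds.2, c, zero_pow μ0.ne', mul_zero])
  have e1 := a1.hasStrictDerivAt.eventually_left_inverse d0
  have e2 : ∀ᶠ v in 𝓝 w, φ v ∈ ball (0 : ℂ) (S.rad (S.p π w)) :=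
    a1.continuousAt.eventually_mem (by rw [a2]; exact ball_mem_nhds _ r0)
  refine ⟨_, e1.and (e2.and a3), fun v hv v' hv' e => ?_⟩
  have e3 : φ v = φ v' := (S.ψc k _ hc).2.1 hv.2.1 hv'.2.1
    (hv.2.2.1.symm.trans (e.trans hv'.2.2.1))
  rw [← hv.1, e3, hv'.1]

section

variable (a : CA S al) (k : S.Cmp)

def io : Set ((M × ℕ) ⊕ S.Prt) :=
  {i | Sum.elim (fun x => x.1 ∈ a.F ∧ x.1 ∈ S.C k ∧ x.2 < S.a k) (fun π => S.cm π = k) i}

def bs : (M × ℕ) ⊕ S.Prt → M ⊕ S.Prt := Sum.map Prod.fst id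

def Rr : (M × ℕ) ⊕ S.Prt → ℝ := Sum.elim (fun x => S.rad x.1) fun _ => a.r₃

def Dd : (M × ℕ) ⊕ S.Prt → Set ℂ :=
  Sum.elim (fun x => ball 0 (S.rad x.1)) fun _ => ball 0 a.r₃ \ {0}

def Xx : (M × ℕ) ⊕ S.Prt → C2 → M := Sum.elim (fun x => S.T x.1 x.2) a.s.e.E

end

variable {a : CA S al} {k : S.Cmp}

theorem r3 (a : CA S al) : a.r₃ < S.r₀ := a.r3r.trans_le a.s.rr

theorem io_fin (a : CA S al) (k : S.Cmp) : (io a k).Finite := by
  refine (((a.F.finite_toSet.prod (finite_lt_nat (S.a k))).image Sum.inl).union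
    (finite_range Sum.inr)).subset ?_
  rintro (x | π) hi
  · exact Or.inl ⟨x, ⟨hi.1, hi.2.2⟩, rfl⟩
  · exact Or.inr ⟨π, rfl⟩

theorem dom {i : (M × ℕ) ⊕ S.Prt} (hi : i ∈ io a k) {w : ℂ} (hw : w ∈ Dd a i) :
    w ∈ S.dom k (bs i) := by
  rcases i with x | π
  · exact ⟨hi.2.1, mem_ball_zero_iff.1 hw⟩
  · exact ⟨hi, hw.2, (mem_ball_zero_iff.1 hw.1).trans (r3 a)⟩

theorem sub (a : CA S al) : ball (0 : ℂ) a.r₃ \ {0} ⊆ ball 0 S.r₀ \ {0} := fun _ hw =>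
  ⟨ball_subset_ball (r3 a).le hw.1, hw.2⟩

theorem hq {i : (M × ℕ) ⊕ S.Prt} (hi : i ∈ io a k) :
    ContinuousOn (S.par (bs i)) (Dd a i) ∧ MapsTo (S.par (bs i)) (Dd a i) (S.C k) := by
  rcases i with x | π
  · exact ⟨(S.ψc k _ hi.2.1).1, (S.ψc k _ hi.2.1).2.2⟩
  · have e : S.cm π = k := hi
    exact ⟨(S.pc π).1.mono (sub a), fun w hw => e ▸ (S.pc π).2 (sub a hw)⟩

theorem ed (hk : k ∈ al) (hd : ∀ π, S.cm π = k → a.s.e.κ π = .disc) {π : S.Prt}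
    (hπ : S.cm π = k) : ∀ᶠ t in A.l, ∀ b : ℂ, ‖b‖ ≤ a.r₃ → A.LZ (a.s.e.E π) (t, b) ∧
      ∀ b' : ℂ, ‖b'‖ ≤ a.r₃ → a.s.e.E π (t, b) = a.s.e.E π (t, b') → b = b' := by
  have h := (a.s.e.ise π (show S.cm π ∈ al from hπ ▸ hk)).lc a.r₃ a.r3r
  rw [hd π hπ] at h
  filter_upwards [h] with t ht b hb
  have h1 := ht b ⟨hb, fun e => nomatch e⟩
  exact ⟨⟨h1.1, h1.2.1.2 fun e => nomatch e⟩, fun b' hb' => h1.2.2 b' ⟨hb', fun e => nomatch e⟩⟩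

theorem lz (hk : k ∈ al) (hd : ∀ π, S.cm π = k → a.s.e.κ π = .disc)
    {i : (M × ℕ) ⊕ S.Prt} (hi : i ∈ io a k) :
    ∀ᶠ t in A.l, ∀ w ∈ ball (0 : ℂ) (Rr a i), A.LZ (Xx a i) (t, w) := by
  rcases i with x | π
  · obtain ⟨B, hB⟩ := S.Tlc k _ hi.2.1
    exact hB.mono fun t ht w hw => (ht x.2 hi.2.2 w hw).1
  · exact (ed hk hd hi).mono fun t ht w hw => (ht w (mem_ball_zero_iff.1 hw).le).1

theorem dsub {i : (M × ℕ) ⊕ S.Prt} : Dd a i ⊆ ball 0 (Rr a i) := by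
  rcases i with x | π
  · exact Subset.rfl
  · exact fun _ h => h.1

theorem loc (hk : k ∈ al) {μ : ℕ} {η : M ⊕ S.Prt → ℂ → ℂ} (μ0 : 0 < μ) (hD : S.Dif k μ η)
    (h0 : ∀ i, ∀ w ∈ S.dom k i, η i w ≠ 0) {i : (M × ℕ) ⊕ S.Prt} (hi : i ∈ io a k) {w : ℂ}
    (hw : w ∈ Dd a i) : ∃ ε : ℝ, 0 < ε ∧ closedBall w ε ⊆ Dd a i ∧
      Lm A.l (Xx a i) (S.par (bs i)) (closedBall w ε) ∧
      InjOn (S.par (bs i)) (closedBall w ε) := by
  rcases i with x | π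
  · obtain ⟨ε, ε0, h⟩ := nhds_basis_closedBall.mem_iff.1 (isOpen_ball.mem_nhds hw)
    exact ⟨ε, ε0, h, (S.Tlm k _ hi.2.1 _ hi.2.2).mono h, (S.ψc k _ hi.2.1).2.1.mono h⟩
  · obtain ⟨N, hN, inj⟩ := injP μ0 hD h0 (dom hi hw)
    have p : 0 < ‖w‖ := norm_pos_iff.2 hw.2
    have n1 : ∀ᶠ v : ℂ in 𝓝 w, ‖w‖ / 2 < ‖v‖ :=
      continuous_norm.continuousAt.eventually_const_lt (half_lt_self p)
    obtain ⟨ε, ε0, h⟩ := nhds_basis_closedBall.mem_iff.1 (inter_mem hN (inter_mem n1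
      ((isOpen_ball.sdiff isClosed_singleton).mem_nhds hw)))
    exact ⟨ε, ε0, fun v hv => (h hv).2.2,
      (lmE a.s (show S.cm π ∈ al from (show S.cm π = k from hi) ▸ hk) (half_pos p) a.r3r).mono
        fun v hv => ⟨le_of_lt (h hv).2.1, (mem_ball_zero_iff.1 (h hv).2.2.1).le⟩,
      inj.mono fun v hv => (h hv).1⟩

theorem covL (hS : SymStmt) (hk : k ∈ al) (hd : ∀ π, S.cm π = k → a.s.e.κ π = .disc)
    {u : Ultrafilter ℂ} (hu : (u : Filter ℂ) ≤ A.l) {y : ℂ → M}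
    (hy : ∀ᶠ t in (u : Filter ℂ), (t, y t) ∈ A.Zb) {i : (M × ℕ) ⊕ S.Prt} (hi : i ∈ io a k)
    {w : ℂ} (hw : w ∈ Dd a i) (lim : Tendsto y u (𝓝 (S.par (bs i) w))) :
    ∃ j ∈ io a k, ∃ (v : ℂ → ℂ) (v₀ : ℂ), Dd a j = Dd a i ∧ Rr a j = Rr a i ∧ ‖v₀‖ = ‖w‖ ∧
      Tendsto v u (𝓝 v₀) ∧ (∀ᶠ t in (u : Filter ℂ), y t = Xx a j (t, v t)) ∧
      ∀ c m, i = .inl (c, m) → ∃ m' < S.a k, j = .inl (c, m') := by
  let U : Ultrafilter (ℂ × M) := u.map fun t => (t, y t)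
  have hO : A.Out U := ⟨hu, hy⟩
  rcases i with x | π
  · have cv : ∀ N ∈ 𝓝 w, ∀ᶠ t in (u : Filter ℂ), ∃ j ∈ {j | j < S.a k}, ∃ w' ∈ N,
        y t = S.T x.1 j (t, w') := fun N hN => S.Tcov k _ hi.2.1 w hw U hO lim N hN
    have nb : ball (0 : ℂ) (S.rad x.1) ∈ 𝓝 w := isOpen_ball.mem_nhds hw
    obtain ⟨j, hj, ev⟩ := (Ultrafilter.eventually_exists_mem_iff (finite_lt_nat _)).1 (cv _ nb)
    obtain ⟨v, hv⟩ := ev.choice
    obtain ⟨B, hB⟩ := S.Tlc k _ hi.2.1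
    refine ⟨.inl (x.1, j), ⟨hi.1, hi.2.1, hj⟩, v, w, rfl, rfl, rfl,
      tendsto_def.2 fun N hN => ?_,
      hv.mono fun t ht => ht.2, fun c m e => ⟨j, hj, ?_⟩⟩
    · filter_upwards [cv _ (inter_mem hN nb), hv, hu hB] with t b1 b2 b3
      obtain ⟨j', hj', w', c1, c2⟩ := b1
      have e := ((b3 j hj _ b2.1).2.2 j' hj' w' c1.2 (b2.2.symm.trans c2)).2
      show v t ∈ N
      rw [e]
      exact c1.1
    · rw [Sum.inl.inj e]
  · have p : 0 < ‖w‖ := norm_pos_iff.2 hw.2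
    have p' : ‖w‖ < a.r₃ := mem_ball_zero_iff.1 hw.1
    have r := r3 a
    have cv : ∀ ε : ℝ, 0 < ε → ∀ᶠ t in (u : Filter ℂ), ∃ π' w', S.fl π' = S.fl π ∧
        |‖w'‖ - ‖w‖| < ε ∧ y t = S.P π' (t, w') := fun ε hε =>
      S.Pcov π w (sub a hw) U hO lim ε hε
    obtain ⟨ε₀, e0, e1, e2⟩ : ∃ ε₀ : ℝ, 0 < ε₀ ∧ 2 * ε₀ ≤ ‖w‖ ∧ ‖w‖ + 2 * ε₀ ≤ a.r₃ :=
      ⟨min (‖w‖ / 2) ((a.r₃ - ‖w‖) / 2), lt_min (by linarith) (by linarith),
        by linarith [min_le_left (‖w‖ / 2) ((a.r₃ - ‖w‖) / 2)],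
        by linarith [min_le_right (‖w‖ / 2) ((a.r₃ - ‖w‖) / 2)]⟩
    obtain ⟨π', ev⟩ := Ultrafilter.eventually_exists_iff.1 (cv ε₀ e0)
    obtain ⟨z, hz⟩ := ev.choice
    have hπ : S.cm π' = k := (S.flc _ _ hz.exists.choose_spec.1).trans hi
    have hE := ed hk hd hπ
    have hP := S.Plc (ε₀ / 2) (half_pos e0)
    have mt : Mt A.l (S.P π') (a.s.e.E π') id (An ε₀ (‖w‖ + ε₀)) :=
      hS M A (a.s.e.E π') (S.P π') (ε₀ / 2) ε₀ (‖w‖ + ε₀) a.r₃ (half_pos e0) (half_lt_self e0)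
        (by linarith)
        ((a.s.e.ise π' (show S.cm π' ∈ al from hπ ▸ hk)).out _ _ (half_pos e0) a.r3r)
        (hE.mono fun t ht ξ hξ => (ht ξ hξ.2).1.1)
        (hP.mono fun t ht ξ hξ => ⟨(ht π' ξ hξ.1 (hξ.2.trans_lt r)).1.1, fun ξ' hξ' e =>
          ((ht π' ξ hξ.1 (hξ.2.trans_lt r)).2.2 π' ξ' hξ'.1 (hξ'.2.trans_lt r) e).2⟩)
    have ex : ∀ ε : ℝ, 0 < ε → ε ≤ ε₀ → ∀ᶠ t in (u : Filter ℂ), ∃ b : ℂ, ‖b‖ ≤ a.r₃ ∧
        |‖b‖ - ‖w‖| < 2 * ε ∧ y t = a.s.e.E π' (t, b) := by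
      intro ε hε le
      filter_upwards [cv ε hε, hz, hu hP, hu (mt ε hε)] with t b1 b2 b3 b4
      obtain ⟨π'', w', -, c2, c3⟩ := b1
      have d1 := abs_lt.1 c2
      have d2 := abs_lt.1 b2.2.1
      have e := ((b3 π' (z t) (by linarith [d2.1]) (by linarith [d2.2])).2.2 π'' w'
        (by linarith [d1.1]) (by linarith [d1.2]) (b2.2.2.symm.trans c3)).2
      obtain ⟨b, f1, f2⟩ := b4 (z t) ⟨by linarith [d2.1], by linarith [d2.2]⟩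
      have d3 := abs_le.1 (abs_norm_sub_norm_le b (z t))
      rw [id] at f1
      rw [← e] at d1
      exact ⟨b, by linarith [d3.2, d2.2], abs_lt.2 ⟨by linarith [d3.1, d1.1],
        by linarith [d3.2, d1.2]⟩, b2.2.2.trans f2⟩
    obtain ⟨v, hv⟩ := (ex ε₀ e0 le_rfl).choice
    obtain ⟨v₀, -, lv⟩ := ulim u (isCompact_closedBall (0 : ℂ) a.r₃)
      (hv.mono fun t ht => mem_closedBall_zero_iff.2 ht.1)
    refine ⟨.inr π', hπ, v, v₀, rfl, rfl, tendsto_nhds_unique lv.norm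
      (Metric.tendsto_nhds.2 fun ε hε => ?_), lv, hv.mono fun t ht => ht.2.2,
      fun c m e => nomatch e⟩
    filter_upwards [ex (min (ε / 2) ε₀) (lt_min (half_pos hε) e0) (min_le_right _ _), hv, hu hE]
      with t b1 b2 b3
    obtain ⟨b, c1, c2, c3⟩ := b1
    rw [(b3 _ b2.1).2 b c1 (b2.2.2.symm.trans c3), Real.dist_eq]
    linarith [min_le_left (ε / 2) ε₀]

theorem trL (hS : SymStmt) (hL : SLift2Stmt) (hk : k ∈ al)
    (hd : ∀ π, S.cm π = k → a.s.e.κ π = .disc) {μ : ℕ} {η : M ⊕ S.Prt → ℂ → ℂ} (μ0 : 0 < μ)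
    (hD : S.Dif k μ η) (h0 : ∀ i, ∀ w ∈ S.dom k i, η i w ≠ 0)
    {u : Ultrafilter ℂ} (hu : (u : Filter ℂ) ≤ A.l) {i : (M × ℕ) ⊕ S.Prt} (hi : i ∈ io a k)
    {w : ℂ → ℂ} {w₀ : ℂ} (hw : w₀ ∈ Dd a i) (lw : Tendsto w u (𝓝 w₀))
    {i' : (M × ℕ) ⊕ S.Prt} (hi' : i' ∈ io a k) {w' : ℂ} (hw' : w' ∈ Dd a i')
    (e : S.par (bs i) w₀ = S.par (bs i') w') :
    ∃ j ∈ io a k, ∃ (v d : ℂ → ℂ) (v₀ d₀ : ℂ), Dd a j = Dd a i' ∧ Rr a j = Rr a i' ∧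
      ‖v₀‖ = ‖w'‖ ∧ S.par (bs j) v₀ = S.par (bs i) w₀ ∧ Tendsto v u (𝓝 v₀) ∧
      Tendsto d u (𝓝 d₀) ∧ (∀ᶠ t in (u : Filter ℂ),
        A.cf (Xx a i) (t, w t) = d t ^ A.m • A.cf (Xx a j) (t, v t)) ∧
      η (bs i) w₀ = η (bs j) v₀ * d₀ ^ μ ∧
      ∀ c m, i' = .inl (c, m) → ∃ m' < S.a k, j = .inl (c, m') := by
  obtain ⟨ε, ε0, s1, lm1, -⟩ := loc hk μ0 hD h0 hi hw
  have c1 : ContinuousOn (S.par (bs i)) (closedBall w₀ ε) := (hq hi).1.mono s1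
  have near : ∀ᶠ t in (u : Filter ℂ), ∀ z ∈ ball (0 : ℂ) (ε / 2), w t + z ∈ closedBall w₀ ε := by
    filter_upwards [lw.eventually (ball_mem_nhds w₀ (half_pos ε0))] with t ht z hz
    have b1 := mem_ball_iff_norm.1 ht
    have b2 := mem_ball_zero_iff.1 hz
    have b3 := norm_add_le (w t - w₀) z
    rw [mem_closedBall_iff_norm, add_sub_right_comm]
    linarith
  have z0 : (0 : ℂ) ∈ ball (0 : ℂ) (ε / 2) := mem_ball_self (half_pos ε0)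
  have lc : ∀ᶠ t in (u : Filter ℂ), ∀ z ∈ ball (0 : ℂ) (ε / 2), A.LC (Xx a i) (t, w t + z) := by
    filter_upwards [near, hu (lz hk hd hi)] with t b1 b2 z hz
    exact (b2 _ (dsub (s1 (b1 z hz)))).1
  have un : TendstoUniformlyOn (fun t z => Xx a i (t, w t + z)) (fun z => S.par (bs i) (w₀ + z)) u
      (ball 0 (ε / 2)) := by
    refine Metric.tendstoUniformlyOn_iff.2 fun δ hδ => ?_
    obtain ⟨δ', δ0, hδ'⟩ := Metric.uniformContinuousOn_iff.1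
      ((isCompact_closedBall w₀ ε).uniformContinuousOn_of_continuous c1) (δ / 2) (half_pos hδ)
    filter_upwards [near, hu (Metric.tendstoUniformlyOn_iff.1 lm1 (δ / 2) (half_pos hδ)),
      lw.eventually (ball_mem_nhds w₀ δ0)] with t b1 b2 b3 z hz
    have b4 := hδ' (w₀ + z) (by
      rw [mem_closedBall_iff_norm, add_sub_cancel_left]
      linarith [mem_ball_zero_iff.1 hz]) _ (b1 z hz) (by rwa [dist_add_right, dist_comm])
    have b5 := b2 _ (b1 z hz)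
    linarith [dist_triangle (S.par (bs i) (w₀ + z)) (S.par (bs i) (w t + z))
      (Xx a i (t, w t + z))]
  have ly : Tendsto (fun t => Xx a i (t, w t)) u (𝓝 (S.par (bs i) w₀)) := by
    simpa using un.tendsto_at z0
  obtain ⟨j, hj, v, v₀, eD, eR, en, lv, ev, ej⟩ := covL hS hk hd hu
    (y := fun t => Xx a i (t, w t))
    (lc.mono fun t ht => by simpa using A.mem _ _ (ht 0 z0)) hi' hw' (e ▸ ly)
  have hv : v₀ ∈ Dd a j := by
    rw [eD]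
    rcases i' with x | π
    · exact mem_ball_zero_iff.2 (en ▸ mem_ball_zero_iff.1 hw')
    · exact ⟨mem_ball_zero_iff.2 (en ▸ mem_ball_zero_iff.1 hw'.1),
        fun c => (norm_pos_iff.1 (en ▸ norm_pos_iff.2 hw'.2) : v₀ ≠ 0) c⟩
  obtain ⟨ε', ε1, s2, lm2, inj⟩ := loc hk μ0 hD h0 hj hv
  have lc' : ∀ᶠ t in A.l, ∀ z ∈ closedBall v₀ ε', A.LC (Xx a j) (t, z) :=
    (lz hk hd hj).mono fun t ht z hz => (ht z (dsub (s2 hz))).1
  have cw : ContinuousAt (S.par (bs i)) (w₀ + 0) := by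
    rw [add_zero]
    exact c1.continuousAt (closedBall_mem_nhds w₀ ε0)
  obtain ⟨ρ, ω, g, ρ0, -, g1, g2, g3, -, g4⟩ := hL M A ℂ u (fun t _ => t)
    (fun t z => Xx a i (t, w t + z)) v (fun z => S.par (bs i) (w₀ + z)) (S.par (bs j)) (Xx a j)
    0 v₀ (ε / 2) ε' (half_pos ε0) ε1
    (lc.mono fun t ht z hz => ⟨continuousAt_const, (A.cont _ _ (ht z hz)).tendsto.comp
      (sh_tend t (w t) z), fun Y z' b1 b2 => by
        obtain ⟨φ, f1, f2, -, f3⟩ := A.trans Y (Xx a i) t z' (w t + z) b1 (ht z hz) b2.symm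
        exact ⟨_, sh_an f1, f2, (sh_tend t (w t) z).eventually f3⟩⟩)
    (fun o ho => mem_of_superset (hu ho) fun t ht _ _ => ht) un
    (ContinuousAt.comp (f := fun z : ℂ => w₀ + z) cw (by fun_prop)) lc' lm2 ((hq hj).1.mono s2)
    (fun z hz c => inj hz (mem_closedBall_self ε1.le) c)
    (ev.mono fun t ht => by simpa using ht) lv
  have y0 : (0 : ℂ) ∈ ball (0 : ℂ) ρ := mem_ball_self ρ0
  have eq : S.par (bs i) w₀ = S.par (bs j) v₀ := by simpa [g2] using (g3 0 y0).2.1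
  refine ⟨j, hj, v, fun t => deriv (ω t) 0, v₀, deriv g 0, eD, eR, en, eq.symm, lv, (g3 0 y0).2.2,
    ?_, ?_, ej⟩
  · filter_upwards [g4, lc, hu lc'] with t b1 b2 b3
    refine trf (by simpa using b2 0 z0) (b3 _ (b1.2.1 ▸ (b1.2.2 0 y0).1))
      (b1.1 0 y0).continuousAt b1.2.1 ?_
    exact mem_of_superset (ball_mem_nhds _ ρ0) fun z hz => (b1.2.2 z hz).2
  · obtain ⟨φ, f1, f2, f3⟩ := hD.2 (bs i) (bs j) w₀ (dom hi hw) v₀ (dom hj hv) eq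
    have t1 : Tendsto (fun z : ℂ => w₀ + z) (𝓝 0) (𝓝 w₀) := by
      simpa using (by fun_prop : Continuous fun z : ℂ => w₀ + z).tendsto 0
    have e1 : g =ᶠ[𝓝 0] fun z => φ (w₀ + z) := by
      filter_upwards [ball_mem_nhds (0 : ℂ) ρ0, t1.eventually f3, t1.eventually
        (f1.continuousAt.eventually_mem (by rw [f2]; exact closedBall_mem_nhds v₀ ε1))]
        with z b1 b2 b3
      exact inj (g3 z b1).1 b3 ((g3 z b1).2.1.symm.trans b2.1)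
    rw [f3.self_of_nhds.2, f2, e1.deriv_eq, deriv_comp_const_add, add_zero]

theorem covC (hk : k ∈ al) {y : M} (hy : y ∈ S.C k) :
    ∃ i ∈ io a k, ∃ w ∈ Dd a i, ‖w‖ < Rr a i / 3 ∧ S.par (bs i) w = y := by
  have r0 := a.r30
  rcases a.cov k hk y hy with ⟨π, w, hw, e⟩ | ⟨c, hc, w, hw, e⟩
  · have h1 : w ∈ ball (0 : ℂ) a.r₃ \ {0} := ⟨ball_subset_ball (by linarith) hw.1, hw.2⟩
    exact ⟨.inr π, S.disj _ _ y (e ▸ (S.pc π).2 (sub a h1)) hy, w, h1,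
      mem_ball_zero_iff.1 hw.1, e⟩
  · have h1 := (a.hF c hc).2
    have r1 := S.rad0 _ c h1
    have h2 : w ∈ ball (0 : ℂ) (S.rad c) := ball_subset_ball (by linarith) hw
    have h3 : a.kf c = k := S.disj _ _ y (e ▸ (S.ψc _ c h1).2.2 h2) hy
    exact ⟨.inl (c, 0), ⟨hc, h3 ▸ h1, S.a0 k⟩, w, h2, mem_ball_zero_iff.1 hw, e⟩

theorem exC (a : CA S al) (hk : k ∈ al) : ∃ c ∈ a.F, c ∈ S.C k := by
  have r0 := a.r30
  obtain ⟨y, hy⟩ := S.ne k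
  obtain ⟨i, hi, -⟩ := covC (a := a) hk hy
  rcases i with x | π
  · exact ⟨x.1, hi.1, hi.2.1⟩
  · have n : ‖((a.r₃ / 2 : ℝ) : ℂ)‖ = a.r₃ / 2 := by
      rw [Complex.norm_real, Real.norm_eq_abs, abs_of_pos (half_pos r0)]
    have m : ((a.r₃ / 2 : ℝ) : ℂ) ∈ Dd a (.inr π) :=
      ⟨mem_ball_zero_iff.2 (by linarith), fun c =>
        (norm_pos_iff.1 (by linarith) : ((a.r₃ / 2 : ℝ) : ℂ) ≠ 0) c⟩
    obtain ⟨j, hj, w, hw, b, e⟩ := covC (a := a) hk ((hq hi).2 m)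
    rcases j with x | π'
    · exact ⟨x.1, hj.1, hj.2.1⟩
    · have h1 := (S.pnorm π' π w (sub a hw) _ (sub a m) e).2
      have h2 : ‖w‖ < a.r₃ / 3 := b
      linarith

end DegX

open DegX in
theorem degS : DegOf := by
  intro hΦ hS hM hL hC _ _ _ M _ A S al s k hk hD
  obtain ⟨a, rfl⟩ := hC M A S al ⟨k⟩ s
  obtain ⟨h1, μ, η, μ0, hη, h0, hb⟩ := hD
  have hd : ∀ π, S.cm π = k → a.s.e.κ π = .disc := fun π e =>
    by_contra fun c => h1 π e ⟨π, rfl, e ▸ hk, c⟩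
  have nb := (hΦ M A).2.1
  let u : Ultrafilter ℂ := Ultrafilter.of A.l
  have hu : (u : Filter ℂ) ≤ A.l := Ultrafilter.of_le _
  obtain ⟨c, hc, hc'⟩ := exC a hk
  have i0 : (.inl (c, 0) : (M × ℕ) ⊕ S.Prt) ∈ io a k := ⟨hc, hc', S.a0 k⟩
  have r0 := S.rad0 k c hc'
  have an : ∀ (L : (Fin 3 → ℂ) →L[ℂ] ℂ) (Y : C2 → M) (t w : ℂ), A.LZ Y (t, w) →
      AnalyticAt ℂ (fun z => L (A.cf Y (t, z))) w := fun L Y t w h =>
    (L.analyticAt _).comp (AnalyticAt.pi fun l => sl_an (A.an Y _ h.1 h.2 l))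
  have ex : ∀ᶠ t in A.l, ∃ L : ℕ → (Fin 3 → ℂ) →L[ℂ] ℂ,
      (∀ j, L j (A.cf (S.T c j) (t, 0)) = 0) ∧ ∃ w : ℂ, ‖w‖ ≤ S.rad c / 2 ∧
        ∏ j ∈ Finset.range (S.a k), L j (A.cf (S.T c 0) (t, w)) ≠ 0 := by
    filter_upwards [lz hk hd i0, (tendsto_comap (f := A.dp)).eventually (eventually_gt_atTop A.M₀)]
      with t b1 b2
    have b3 : A.LZ (S.T c 0) (t, 0) := b1 0 (mem_ball_self r0)
    choose L l1 l2 using fun j : ℕ => form (V := fun w => A.cf (S.T c 0) (t, w))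
      (A.vert (S.T c 0) t 0 (A.cf (S.T c j) (t, 0)) b2 b3.1 b3.2)
    have l3 : ∀ᶠ w in 𝓝[≠] (0 : ℂ), ∀ j ∈ Finset.range (S.a k),
        L j (A.cf (S.T c 0) (t, w)) ≠ 0 := (eventually_all_finset _).2 fun j _ =>
      (an (L j) _ t 0 b3).eventually_eq_zero_or_eventually_ne_zero.resolve_left (l2 j)
    obtain ⟨w, w1, w2⟩ := (l3.and (nhdsWithin_le_nhds
      (closedBall_mem_nhds (0 : ℂ) (half_pos r0)))).exists
    exact ⟨L, l1, w, mem_closedBall_zero_iff.1 w2, Finset.prod_ne_zero_iff.2 w1⟩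
  obtain ⟨L, hLt⟩ := ex.choice
  have h : Dat u (io a k) (S.C k) (Rr a) (Dd a) (fun i => S.par (bs i)) (fun i => η (bs i))
      (fun i t w => ∏ j ∈ Finset.range (S.a k), L t j (A.cf (Xx a i) (t, w))) (A.m * S.a k) μ
      (.inl (c, 0)) := by
    refine ⟨io_fin a k, S.conn k, μ0, ?_, ?_, fun i hi => hq hi, ?_, fun i hi =>
      ⟨fun w hw => ⟨hη.1 _ w (dom hi hw), h0 _ w (dom hi hw)⟩, ?_⟩, fun i hi => ?_,
      fun y hy => covC hk hy, ?_, i0, mem_ball_self r0⟩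
    · rintro (x | π) hi
      · exact S.rad0 k _ hi.2.1
      · exact a.r30
    · rintro (x | π) -
      · exact Or.inl rfl
      · exact Or.inr rfl
    · rintro (x | π) hi w hw
      · exact S.ψo k _ hi.2.1 w hw
      · have e : S.cm π = k := hi
        exact e ▸ S.po π w (sub a hw)
    · rcases i with x | π
      · exact fun c => absurd (mem_ball_self (S.rad0 k _ hi.2.1)) c
      · exact fun _ => hb π hi
    · filter_upwards [hu (lz hk hd hi)] with t ht w hw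
      exact (Finset.analyticAt_fun_prod _ fun j _ =>
        an (L t j) _ t w (ht w hw)).differentiableAt.differentiableWithinAt
    · intro i hi w w₀ hw lw i' hi' w' hw' e
      obtain ⟨j, hj, v, d, v₀, d₀, eD, eR, en, eq, lv, ld, ef, eη, ej⟩ :=
        trL hS hL hk hd μ0 hη h0 hu hi hw lw hi' hw' e
      refine ⟨j, hj, v, d, v₀, d₀, eD, eR, en, eq, lv, ld, ef.mono fun t ht => ?_, eη,
        fun e' => ?_⟩
      · rw [ht]
        simp only [map_smul, smul_eq_mul]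
        rw [Finset.prod_mul_distrib, Finset.prod_const, Finset.card_range, pow_mul]
      · obtain ⟨m', b1, rfl⟩ := ej c 0 e'
        exact (hLt.filter_mono hu).mono fun t ht =>
          Finset.prod_eq_zero (Finset.mem_range.2 b1) (ht.1 m')
  exact h.false hM ((hLt.filter_mono hu).mono fun t ht => ⟨_, i0, ht.2⟩)

end Pool.Agent.MP_c69980_ag.G3
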