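import Pool.Agent.MP_c69980_ag.G3.Elim1A

/-!
Elimination of a cylinder: its two edges are merged.
-/

set_option autoImplicit false

noncomputable section

namespace Pool.Agent.MP_c69980_ag.G3

open Metric Filter Topology Set

namespace Elim1X

variable {M : Type} [MetricSpace M] {A : Amb M}

lemma c_ne' {κ : Kd} {E P P' : C2 → M} {c : ℂ → ℂ} {r : ℝ} (h : IsE A κ E c r P P') :
    ∀ᶠ t in A.l, κ = .neck → c t ≠ 0 := by
  by_cases k : κ = .neck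
  · exact (c_ne h k).mono fun t ht _ => ht
  · exact .of_forall fun t k' => (k k').elim

lemma quot {c₁ c₂ b b₂ : ℂ} {η r : ℝ} (b0 : b ≠ 0) (b1 : b₂ ≠ 0) (h1 : ‖c₂ / b₂‖ ≤ r)
    (h2 : ‖c₁ * b₂ - b‖ ≤ η * ‖b‖) : ‖c₂ / b₂ - c₁ * c₂ / b‖ ≤ r * η := by
  rw [show c₂ / b₂ - c₁ * c₂ / b = c₂ / b₂ * ((b - c₁ * b₂) / b) by field_simp, norm_mul]
  refine mul_le_mul h1 ?_ (norm_nonneg _) ((norm_nonneg _).trans h1)
  rwa [norm_div, div_le_iff₀ (norm_pos_iff.2 b0), norm_sub_rev]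

lemma tri3 {a b c : ℂ} {ε η : ℝ} (h1 : ‖a - b‖ < ε / 2) (h2 : ‖b - c‖ ≤ η) (h3 : η ≤ ε / 2) :
    ‖a - c‖ < ε := by
  have := norm_add_le (a - b) (b - c)
  rw [sub_add_sub_cancel] at this
  linarith

/-- The ports that keep their edges. -/
def Old {α : Type} (Lv : Set α) (π₀ π₁ p q : α) (κ₀ : Kd) (π : α) : Prop :=
  π ∈ Lv ∧ π ≠ π₀ ∧ π ≠ π₁ ∧ π ≠ p ∧ ¬(κ₀ = .neck ∧ π = q)

lemma tri {α : Type} {Lv : Set α} {π₀ π₁ : α} (p q : α) (κ₀ : Kd) {π : α}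
    (h : π ∈ Lv \ {π₀, π₁}) : π = p ∨ (κ₀ = .neck ∧ π = q) ∨ Old Lv π₀ π₁ p q κ₀ π := by
  by_cases h1 : π = p
  · exact .inl h1
  by_cases h2 : κ₀ = .neck ∧ π = q
  · exact .inr (.inl h2)
  exact .inr (.inr ⟨h.1, fun e => h.2 (.inl e), fun e => h.2 (.inr e), h1, h2⟩)

lemma Old.mem {α : Type} {Lv : Set α} {π₀ π₁ p q π : α} {κ₀ : Kd}
    (h : Old Lv π₀ π₁ p q κ₀ π) : π ∈ Lv \ {π₀, π₁} :=
  ⟨h.1, fun e => e.elim h.2.1 h.2.2.1⟩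

/-- The new family of edges. -/
lemma edg {S : Sk A} {P : S.Prt → C2 → M} {Lv : Set S.Prt} {r : ℝ} (e : Edg S P Lv r)
    {π₀ π₁ p q : S.Prt} {κ₀ : Kd} {N : C2 → M} {c₀ : ℂ → ℂ} (pN : Pd S.N N)
    (pc : Function.Periodic c₀ (tp S.N)) (iN : IsE A κ₀ N c₀ r (P p) (P q))
    (lp : p ∈ Lv \ {π₀, π₁}) (lq : κ₀ = .neck → q ∈ Lv \ {π₀, π₁} ∧ q ≠ p)
    (oc : ∀ π, Old Lv π₀ π₁ p q κ₀ π → e.κ π = .neck → Old Lv π₀ π₁ p q κ₀ (e.far π))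
    (K : ∀ r' < r, ∀ᶠ t in A.l, ∀ π, Old Lv π₀ π₁ p q κ₀ π → ∀ b ∈ De κ₀ (c₀ t) r',
      ∀ b' ∈ De (e.κ π) (e.c π t) r', N (t, b) ≠ e.E π (t, b')) :
    ∃ e' : Edg S P (Lv \ {π₀, π₁}) r,
      (e'.κ p = κ₀ ∧ e'.E p = N ∧ e'.c p = c₀ ∧ e'.far p = q) ∧
      (κ₀ = .neck → e'.κ q = .neck ∧ e'.E q = fp N c₀ ∧ e'.c q = c₀ ∧ e'.far q = p) ∧
      ∀ π, π ≠ p → ¬(κ₀ = .neck ∧ π = q) → e'.κ π = e.κ π ∧ e'.E π = e.E π ∧ e'.c π = e.c π ∧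
        e'.far π = e.far π := by
  classical
  obtain ⟨κ, E, c, far, ⟨a1, a2, a3, a4⟩, hB, hC⟩ : ∃ (κ : S.Prt → Kd) (E : S.Prt → C2 → M)
      (c : S.Prt → ℂ → ℂ) (far : S.Prt → S.Prt), (κ p = κ₀ ∧ E p = N ∧ c p = c₀ ∧ far p = q) ∧
      (κ₀ = .neck → κ q = .neck ∧ E q = fp N c₀ ∧ c q = c₀ ∧ far q = p) ∧
      ∀ π, π ≠ p → ¬(κ₀ = .neck ∧ π = q) → κ π = e.κ π ∧ E π = e.E π ∧ c π = e.c π ∧
        far π = e.far π := by
    refine ⟨fun π => if π = p then κ₀ else if κ₀ = .neck ∧ π = q then .neck else e.κ π,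
      fun π => if π = p then N else if κ₀ = .neck ∧ π = q then fp N c₀ else e.E π,
      fun π => if π = p then c₀ else if κ₀ = .neck ∧ π = q then c₀ else e.c π,
      fun π => if π = p then q else if κ₀ = .neck ∧ π = q then p else e.far π,
      ⟨if_pos rfl, if_pos rfl, if_pos rfl, if_pos rfl⟩, fun k => ?_, fun π h1 h2 => ?_⟩
    · have h := (lq k).2
      exact ⟨(if_neg h).trans (if_pos ⟨k, rfl⟩), (if_neg h).trans (if_pos ⟨k, rfl⟩),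
        (if_neg h).trans (if_pos ⟨k, rfl⟩), (if_neg h).trans (if_pos ⟨k, rfl⟩)⟩
    · exact ⟨(if_neg h1).trans (if_neg h2), (if_neg h1).trans (if_neg h2),
        (if_neg h1).trans (if_neg h2), (if_neg h1).trans (if_neg h2)⟩
  have hO := fun π (h : Old Lv π₀ π₁ p q κ₀ π) => hC π h.2.2.2.1 h.2.2.2.2
  refine ⟨⟨κ, E, c, far, fun π h => ?_, fun π h => ?_, fun π h k => ?_, fun r' hr => ?_⟩,
    ⟨a1, a2, a3, a4⟩, hB, hC⟩
  · rcases tri p q κ₀ h with rfl | ⟨k, rfl⟩ | o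
    · rw [a2, a3]
      exact ⟨pN, pc⟩
    · rw [(hB k).2.1, (hB k).2.2.1]
      refine ⟨fun t w => ?_, pc⟩
      simp only [fp, pc t, pN t]
    · rw [(hO π o).2.1, (hO π o).2.2.1]
      exact e.pe π o.1
  · rcases tri p q κ₀ h with rfl | ⟨k, rfl⟩ | o
    · rwa [a1, a2, a3, a4]
    · obtain ⟨b1, b2, b3, b4⟩ := hB k
      rw [b1, b2, b3, b4]
      exact ise_flip (k ▸ iN)
    · obtain ⟨b1, b2, b3, b4⟩ := hO π o
      rw [b1, b2, b3, b4]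
      exact e.ise π o.1
  · rcases tri p q κ₀ h with rfl | ⟨k', rfl⟩ | o
    · rw [a1] at k
      obtain ⟨b1, b2, b3, b4⟩ := hB k
      rw [a4, b1, b2, b3, b4, a2, a3]
      exact ⟨(lq k).1, (lq k).2, rfl, rfl, rfl, .of_forall fun _ _ => rfl⟩
    · obtain ⟨b1, b2, b3, b4⟩ := hB k'
      rw [b4, a1, a2, a3, a4, b2, b3]
      refine ⟨lp, (lq k').2.symm, rfl, k', rfl, (c_ne iN k').mono fun t c0 b => ?_⟩
      simp only [fp, div_div_cancel₀ c0]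
    · obtain ⟨b1, b2, b3, b4⟩ := hO π o
      rw [b1] at k
      obtain ⟨d1, d2, d3, d4⟩ := hO _ (oc π o k)
      rw [b4, d1, d2, d3, d4, b2, b3]
      exact ⟨(oc π o k).mem, (e.nk π o.1 k).2⟩
  · filter_upwards [K r' hr, e.dj r' hr, c_ne' iN] with t k1 k2 c0 π h π' h' b hb b' hb' ee
    have nw : ∀ σ, (σ = p ∨ (κ₀ = .neck ∧ σ = q)) → ∀ w ∈ De (κ σ) (c σ t) r',
        ∃ w' ∈ De κ₀ (c₀ t) r', E σ (t, w) = N (t, w') := by
      rintro σ (rfl | ⟨k, rfl⟩) w hw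
      · rw [a1, a3] at hw
        exact ⟨w, hw, by rw [a2]⟩
      · obtain ⟨b1, b2, b3, -⟩ := hB k
        rw [b1, b3] at hw
        exact ⟨_, k ▸ de_flip (c0 k) hw, by rw [b2]; rfl⟩
    have mx : ∀ σ, (σ = p ∨ (κ₀ = .neck ∧ σ = q)) → ∀ σ', Old Lv π₀ π₁ p q κ₀ σ' →
        ∀ w ∈ De (κ σ) (c σ t) r', ∀ w' ∈ De (κ σ') (c σ' t) r', E σ (t, w) ≠ E σ' (t, w') :=
      fun σ s1 σ' s2 w hw w' hw' => by
      obtain ⟨v, v1, v2⟩ := nw σ s1 w hw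
      obtain ⟨b1, b2, b3, -⟩ := hO σ' s2
      rw [b1, b3] at hw'
      rw [v2, b2]
      exact k1 σ' s2 v v1 w' hw'
    rcases or_assoc.2 (tri p q κ₀ h) with s | o <;> rcases or_assoc.2 (tri p q κ₀ h') with s' | o'
    · rcases s with rfl | ⟨k, rfl⟩ <;> rcases s' with rfl | ⟨k', rfl⟩
      · exact .inl rfl
      · exact .inr ⟨a1.trans k', a4.symm⟩
      · exact .inr ⟨(hB k).1, (hB k).2.2.2.symm⟩
      · exact .inl rfl
    · exact (mx π s π' o' b hb b' hb' ee).elim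
    · exact (mx π' s' π o b' hb' b hb ee.symm).elim
    · obtain ⟨b1, b2, b3, b4⟩ := hO π o
      obtain ⟨d1, d2, d3, -⟩ := hO π' o'
      rw [b1, b3] at hb
      rw [d1, d3] at hb'
      rw [b2, d2] at ee
      rw [b1, b4]
      exact k2 π o.1 π' o'.1 b hb b' hb' ee

end Elim1X

open Elim1X in
theorem elim1S : Elim1Of := by
  classical
  intro _ _ hM M _ A S al x j hj Hj k1 nf
  have sb : ∀ (H : Finset ℂ) b, Sl H (.inl b) := fun _ _ a e => nomatch e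
  obtain ⟨π₁, e1⟩ : ∃ π, x.sl j (.inl true) = π := ⟨_, rfl⟩
  obtain ⟨π₀, e0⟩ : ∃ π, x.sl j (.inl false) = π := ⟨_, rfl⟩
  rw [e1] at k1
  rw [e1, e0] at nf
  have l0 : π₀ ∈ x.Lv := (x.lv _).2 (.inr ⟨j, hj, _, sb _ _, e0⟩)
  have l1 : π₁ ∈ x.Lv := (x.lv _).2 (.inr ⟨j, hj, _, sb _ _, e1⟩)
  have i0 : ∀ j' ∈ x.Js, ∀ s, Sl (x.H j') s → π₀ = x.sl j' s → j = j' ∧ .inl false = s :=
    fun j' hj' s hs e => x.inj j hj j' hj' _ _ (sb _ _) hs (e0.trans e)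
  have i1 : ∀ j' ∈ x.Js, ∀ s, Sl (x.H j') s → π₁ = x.sl j' s → j = j' ∧ .inl true = s :=
    fun j' hj' s hs e => x.inj j hj j' hj' _ _ (sb _ _) hs (e1.trans e)
  have n01 : π₀ ≠ π₁ := fun e => nomatch (i0 j hj _ (sb _ _) (e.trans e1.symm)).2
  have sj : ∀ s, Sl (x.H j) s → x.sl j s = π₀ ∨ x.sl j s = π₁ := fun s hs => by
    rcases s with (_ | _) | a
    · exact .inl e0
    · exact .inr e1
    · have := hs a rfl
      rw [Hj] at this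
      exact absurd this (Finset.notMem_empty _)
  obtain ⟨lp, p1, fp1, kp, cp, Ep⟩ := x.e.nk π₁ l1 k1
  obtain ⟨p, hp⟩ : ∃ p, x.e.far π₁ = p := ⟨_, rfl⟩
  rw [hp] at nf lp p1 fp1 kp cp Ep
  obtain ⟨q, hq⟩ : ∃ q, x.e.far π₀ = q := ⟨_, rfl⟩
  have Q := x.e.nk π₀ l0
  rw [hq] at Q
  have q1 : x.e.κ π₀ = .neck → q ≠ π₁ := fun k e => nf (by rw [← hp, ← e, (Q k).2.2.1])
  have q2 : x.e.κ π₀ = .neck → q ≠ p := fun k e => n01 (by rw [← (Q k).2.2.1, e, fp1])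
  have h1 : IsE A .neck (x.e.E p) (x.e.c p) x.r (x.P p) (sv (x.V j) (.inl true)) := by
    have := x.e.ise p lp
    rwa [kp, fp1, ← e1, x.psl j hj _ (sb _ _)] at this
  have h2 : IsE A (x.e.κ π₀) (x.e.E π₀) (x.e.c π₀) x.r (sv (x.V j) (.inl false)) (x.P q) := by
    have := x.e.ise π₀ l0
    rwa [hq, show x.P π₀ = _ from e0 ▸ x.psl j hj _ (sb _ _)] at this
  obtain ⟨N, pN, iN, m⟩ := hM M A S.N (x.e.κ π₀) (x.e.E p) (x.V j) (x.e.E π₀) _ _ (x.e.c p)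
    (x.e.c π₀) x.r S.N0 (x.e.pe p lp).1 (x.pv j hj) (x.e.pe π₀ l0).1 (x.e.pe p lp).2
    (x.e.pe π₀ l0).2 x.r0 (Hj ▸ x.isv j hj) h1 h2
    (fun ρ r' ε a1 a2 a3 => by
      filter_upwards [x.ve j hj p lp ρ r' ε a1 a2 a3] with t k ω hω b hb e
      obtain ⟨s, ξ, hs, rfl, ⟨d1, -⟩ | ⟨-, d1, d2⟩⟩ := k ω (Hj ▸ hω) b (kp ▸ hb) e
      · exact ((sj s hs).elim (fun d => nf (d1.trans d)) fun d => p1 (d1.trans d)).elim
      · obtain ⟨-, rfl⟩ := i1 j hj s hs (fp1.symm.trans d1)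
        simpa only [slot, inv_inv] using d2)
    (fun ρ r' ε a1 a2 a3 => by
      filter_upwards [x.ve j hj π₀ l0 ρ r' ε a1 a2 a3] with t k ω hω b hb e
      obtain ⟨s, ξ, hs, rfl, ⟨d1, d2⟩ | ⟨d0, d1, -⟩⟩ := k ω (Hj ▸ hω) b hb e
      · obtain ⟨-, rfl⟩ := i0 j hj s hs d1
        exact d2
      · rw [hq] at d1
        exact ((sj s hs).elim (fun d => (Q d0).2.1 (d1.trans d)) fun d => q1 d0 (d1.trans d)).elim)
    (fun r' hr => by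
      filter_upwards [x.e.dj r' hr] with t k b₁ hb₁ b₂ hb₂ e
      rcases k p lp π₀ l0 b₁ (kp ▸ hb₁) b₂ hb₂ e with d | d
      · exact nf d.symm
      · exact n01 (d.2.trans fp1))
  have oc : ∀ π, Old x.Lv π₀ π₁ p q (x.e.κ π₀) π → x.e.κ π = .neck →
      Old x.Lv π₀ π₁ p q (x.e.κ π₀) (x.e.far π) := fun π o k => by
    obtain ⟨a1, -, a2, a3, -⟩ := x.e.nk π o.1 k
    refine ⟨a1, fun e => o.2.2.2.2 ⟨e ▸ a3, by rw [← a2, e, hq]⟩,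
      fun e => o.2.2.2.1 (by rw [← a2, e, hp]), fun e => o.2.2.1 (by rw [← a2, e, fp1]),
      fun e => o.2.1 (by rw [← a2, e.2, (Q e.1).2.2.1])⟩
  have K1 : ∀ r' < x.r, ∀ᶠ t in A.l, ∀ π, Old x.Lv π₀ π₁ p q (x.e.κ π₀) π →
      ∀ b ∈ De (x.e.κ π₀) (x.e.c p t * x.e.c π₀ t) r', ∀ b' ∈ De (x.e.κ π) (x.e.c π t) r',
        N (t, b) ≠ x.e.E π (t, b') := fun r' hr => by
    obtain ⟨ρ, r'', ρ0, hr', f⟩ := m.fw r' hr
    filter_upwards [f 1 one_pos, x.e.dj (max r' r'') (max_lt hr hr'),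
      eventually_all.2 fun π => eventually_imp_distrib_left.2 fun h : π ∈ x.Lv =>
        x.ve j hj π h ρ r' 1 ρ0 hr one_pos] with t a1 a2 a3 π o b hb b' hb' e
    have hb'' := de_mono (le_max_left r' r'') hb'
    rcases a1 b hb with ⟨b₁, d1, -, d2⟩ | ⟨ω, d1, -, d2⟩ | ⟨b₂, d1, -, d2⟩
    · rcases a2 p lp π o.1 b₁ (kp ▸ de_mono (le_max_right _ _) d1) b' hb'' (d2.symm.trans e)
        with d | d
      · exact o.2.2.2.1 d
      · exact o.2.2.1 (d.2.trans fp1)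
    · obtain ⟨s, ξ, hs, -, ⟨d, -⟩ | ⟨d0, d, -⟩⟩ := a3 π o.1 ω (Hj ▸ d1) b' hb' (d2.symm.trans e)
      · exact (sj s hs).elim (fun d' => o.2.1 (d.trans d')) fun d' => o.2.2.1 (d.trans d')
      · exact (sj s hs).elim (fun d' => (oc π o d0).2.1 (d.trans d'))
          fun d' => (oc π o d0).2.2.1 (d.trans d')
    · rcases a2 π₀ l0 π o.1 b₂ (de_mono (le_max_right _ _) d1) b' hb'' (d2.symm.trans e)
        with d | d
      · exact o.2.1 d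
      · exact o.2.2.2.2 ⟨d.1, d.2.trans hq⟩
  have K2 : ∀ j' ∈ x.Js.erase j, Ve A (x.V j') (x.H j') (x.e.κ π₀) N
      (fun t => x.e.c p t * x.e.c π₀ t) x.r fun ε t ω b => ∃ s ξ, Sl (x.H j') s ∧ ω = slot s ξ ∧
        ((p = x.sl j' s ∧ ‖ξ - b‖ < ε) ∨ (x.e.κ π₀ = .neck ∧ q = x.sl j' s ∧
          ‖ξ - x.e.c p t * x.e.c π₀ t / b‖ < ε)) := fun j' hj' ρ r' ε ρ0 hr ε0 => by
    obtain ⟨n, hj'⟩ := Finset.mem_erase.1 hj'
    obtain ⟨ρ', r'', ρ1, hr', f⟩ := m.fw r' hr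
    have r0 := x.r0
    have η0 : 0 < ε / 2 / x.r := by positivity
    have η1 : ∀ s : ℝ, s ≤ x.r → s * (ε / 2 / x.r) ≤ ε / 2 := fun s hs =>
      (mul_le_mul_of_nonneg_right hs η0.le).trans (mul_div_cancel₀ _ r0.ne').le
    filter_upwards [f _ η0, x.ve j' hj' p lp ρ r'' _ ρ0 hr' (half_pos ε0),
      x.ve j' hj' π₀ l0 ρ r'' _ ρ0 hr' (half_pos ε0), x.vv _ (lt_min ρ0 ρ1), c_ne' iN, c_ne' h2]
      with t a1 a2 a3 a4 a5 a6 ω hω b hb e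
    rcases a1 b hb with ⟨b₁, d1, d2, d3⟩ | ⟨ω', d1, -, d3⟩ | ⟨b₂, d1, d2, d3⟩
    · obtain ⟨s, ξ, hs, o, ⟨d, d'⟩ | ⟨-, d, -⟩⟩ := a2 ω hω b₁ (kp ▸ d1) (e.trans d3)
      · refine ⟨s, ξ, hs, o, .inl ⟨d, tri3 d' d2 ?_⟩⟩
        rw [mul_comm]
        exact η1 _ (hb.1.trans hr.le)
      · exact (n (i1 j' hj' s hs (fp1.symm.trans d)).1.symm).elim
    · exact (n (a4 j' hj' j hj ω (dv_mono (lt_min ρ0 ρ1) (min_le_left _ _) hω) ω'
        (Hj ▸ dv_mono (lt_min ρ0 ρ1) (min_le_right _ _) d1) (e.trans d3))).elim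
    · obtain ⟨s, ξ, hs, o, ⟨d, -⟩ | ⟨k, d, d'⟩⟩ := a3 ω hω b₂ d1 (e.trans d3)
      · exact (n (i0 j' hj' s hs d).1.symm).elim
      · rw [k] at hb d1
        exact ⟨s, ξ, hs, o, .inr ⟨k, hq.symm.trans d, tri3 d' (quot (de_ne (a5 k) hb)
          (de_ne (a6 k) d1) (de_div (a6 k) d1) d2) (η1 _ hr'.le)⟩⟩
  have lp' : p ∈ x.Lv \ {π₀, π₁} := ⟨lp, fun e => e.elim nf p1⟩
  obtain ⟨e, ⟨a1, a2, a3, a4⟩, hB, hC⟩ := edg (c₀ := fun t => x.e.c p t * x.e.c π₀ t) x.e pN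
    ((x.e.pe p lp).2.mul (x.e.pe π₀ l0).2) iN lp'
    (fun k => ⟨⟨(Q k).1, fun e => e.elim (Q k).2.1 (q1 k)⟩, q2 k⟩) oc K1
  have hO := fun π (h : Old x.Lv π₀ π₁ p q (x.e.κ π₀) π) => hC π h.2.2.2.1 h.2.2.2.2
  have js : ∀ {j'}, j' ∈ x.Js.erase j → j' ∈ x.Js := Finset.mem_of_mem_erase
  have na : ∀ b, S.cm (x.sl j (.inl b)) ∉ al := fun b => x.nal j hj _ (sb _ _)
  have dN : ∀ u, Dp (x.e.κ π₀) N (fun t => x.e.c p t * x.e.c π₀ t) u →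
      ∃ π ∈ x.Lv \ {π₀, π₁}, Dp (e.κ π) (e.E π) (e.c π) u := fun u h =>
    ⟨p, lp', by rwa [a1, a2, a3]⟩
  have tN : ∀ u, A.Out u → Dp (x.e.κ π₀) N (fun t => x.e.c p t * x.e.c π₀ t) u →
      ∀ k ∈ al, ∀ y ∈ S.C k, ¬Cg u y := fun u hu h => by
    rcases deep_split x.r0 h1 h2 m hu h with d | d | ⟨ρ, ρ0, d⟩
    · exact x.te p lp u hu (kp ▸ d)
    · exact x.te π₀ l0 u hu d
    · exact x.tv j hj ρ u ρ0 hu (Hj ▸ d)
  refine ⟨{
    J := x.J, Js := x.Js.erase j, H := x.H, V := x.V, sl := x.sl, P := x.P, r := x.r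
    Lv := x.Lv \ {π₀, π₁}, e := e, Rz := x.Rz, op := x.op, r0 := x.r0, rr := x.rr
    lv := fun π => ?_
    pal := x.pal
    psl := fun j' h => x.psl j' (js h)
    nal := fun j' h => x.nal j' (js h)
    inj := fun j₁ h₁ j₂ h₂ => x.inj j₁ (js h₁) j₂ (js h₂)
    H0 := fun j' h => x.H0 j' (js h)
    isv := fun j' h => x.isv j' (js h)
    pv := fun j' h => x.pv j' (js h)
    vv := fun ρ h => (x.vv ρ h).mono fun t k j₁ h₁ j₂ h₂ => k j₁ (js h₁) j₂ (js h₂)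
    ve := fun j' hj' π h => ?_
    hd := fun j' h a ha => ?_
    te := fun π h u hu d => ?_
    tv := fun j' h => x.tv j' (js h)
    cov := fun u hu => ?_
    rs := fun π h hπ => ?_
    ops := fun j' h => x.ops j' (js h) }, ?_⟩
  · refine ⟨fun h => ((x.lv π).1 h.1).imp_right fun ⟨j', hj', s, hs, d⟩ =>
      ⟨j', Finset.mem_erase.2 ⟨fun n => h.2 (by subst n d; exact sj s hs), hj'⟩, s, hs, d⟩,
      fun h => ?_⟩
    rcases h with h | ⟨j', hj', s, hs, rfl⟩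
    · refine ⟨(x.lv π).2 (.inl h), fun d => d.elim (fun d => na false ?_) fun d => na true ?_⟩
      · rwa [e0, ← d]
      · rwa [e1, ← show π = π₁ from d]
    · have n := (Finset.mem_erase.1 hj').1.symm
      exact ⟨(x.lv _).2 (.inr ⟨j', js hj', s, hs, rfl⟩), fun d => d.elim
        (fun d => n (i0 j' (js hj') s hs d.symm).1) fun d => n (i1 j' (js hj') s hs d.symm).1⟩
  · rcases tri p q (x.e.κ π₀) h with rfl | ⟨k, rfl⟩ | o
    · rw [a1, a2, a3, a4]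
      exact K2 j' hj'
    · obtain ⟨b1, b2, b3, b4⟩ := hB k
      rw [b1, b2, b3, b4]
      intro ρ r' ε ρ0 hr ε0
      filter_upwards [K2 j' hj' ρ r' ε ρ0 hr ε0, c_ne iN k] with t d c0 ω hω b hb ee
      obtain ⟨s, ξ, hs, o, d1 | ⟨-, d1, d2⟩⟩ :=
        d ω hω (x.e.c p t * x.e.c π₀ t / b) (k ▸ de_flip c0 hb) ee
      · exact ⟨s, ξ, hs, o, .inr ⟨rfl, d1⟩⟩
      · rw [div_div_cancel₀ c0] at d2
        exact ⟨s, ξ, hs, o, .inl ⟨d1, d2⟩⟩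
    · obtain ⟨b1, b2, b3, b4⟩ := hO π o
      rw [b1, b2, b3, b4]
      exact x.ve j' (js hj') π o.1
  · have d := x.hd j' (js h) a ha
    refine (hC _ (fun k => ?_) fun k => ?_).1.trans d
    · rw [k, kp] at d
      exact nomatch d
    · rw [k.2, (Q k.1).2.2.2.1] at d
      exact nomatch d
  · rcases tri p q (x.e.κ π₀) h with rfl | ⟨k, rfl⟩ | o
    · rw [a1, a2, a3] at d
      exact tN u hu d
    · obtain ⟨b1, b2, b3, -⟩ := hB k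
      rw [b1, b2, b3] at d
      exact tN u hu (k ▸ (dp_flip hu (c_ne iN k) (.of_forall fun _ _ => rfl)).1 d)
    · obtain ⟨b1, b2, b3, -⟩ := hO π o
      rw [b1, b2, b3] at d
      exact x.te π o.1 u hu d
  · rcases x.cov u hu with h | ⟨π, h, d⟩ | ⟨j', hj', ρ, ρ0, d⟩
    · exact .inl h
    · refine .inr (.inl ?_)
      by_cases d0 : π = π₀
      · exact dN u (deep_right h1 m hu (d0 ▸ d))
      by_cases d1 : π = π₁
      · rw [d1, k1] at d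
        exact dN u (deep_left h2 m hu (cp ▸ (dp_flip hu (cp ▸ c_ne h1 rfl) Ep).2 d))
      rcases tri p q (x.e.κ π₀) (show π ∈ x.Lv \ {π₀, π₁} from ⟨h, fun d => d.elim d0 d1⟩)
        with rfl | ⟨k, rfl⟩ | o
      · exact dN u (deep_left h2 m hu (kp ▸ d))
      · obtain ⟨-, -, -, b1, b2, b3⟩ := Q k
        rw [b1, b2] at d
        exact dN u (deep_right h1 m hu (k ▸ (dp_flip hu (c_ne h2 k) b3).1 d))
      · obtain ⟨b1, b2, b3, -⟩ := hO π o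
        exact ⟨π, o.mem, by rwa [b1, b2, b3]⟩
    · by_cases n : j' = j
      · rw [n, Hj] at d
        exact .inr (.inl (dN u (deep_mid h1 h2 m hu ρ0 d)))
      · exact .inr (.inr ⟨j', Finset.mem_erase.2 ⟨n, hj'⟩, ρ, ρ0, d⟩)
  · have R := x.rs π h.1 fun j' hj' a ha => by
      by_cases n : j' = j
      · rw [n, Hj] at ha
        exact absurd ha (Finset.notMem_empty _)
      · exact hπ j' (Finset.mem_erase.2 ⟨n, hj'⟩) a ha
    have sa : ∀ j', ∀ a ∈ x.H j', Sl (x.H j') (.inr a) := fun j' a ha c d => Sum.inr.inj d ▸ ha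
    rcases tri p q (x.e.κ π₀) h with rfl | ⟨k, rfl⟩ | o
    · have R0 := x.rs π₀ l0 fun j' hj' a ha d => nomatch (i0 j' hj' _ (sa j' a ha) d).2
      rw [if_pos kp, fp1, if_neg (e1 ▸ na true), ← e1, x.ops j hj, Bool.not_true, e0, R0, hq] at R
      rw [a1, a4]
      exact R
    · have R1 := x.rs π₁ l1 fun j' hj' a ha d => nomatch (i1 j' hj' _ (sa j' a ha) d).2
      obtain ⟨-, -, b1, b2, -⟩ := Q k
      rw [if_pos b2, b1, if_neg (e0 ▸ na false), ← e0, x.ops j hj, Bool.not_false, e1, R1,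
        if_pos k1, hp] at R
      rw [if_pos (hB k).1, (hB k).2.2.2]
      exact R
    · obtain ⟨b1, -, -, b4⟩ := hO π o
      rw [b1, b4]
      exact R
  · exact Finset.sum_erase_lt_of_pos (f := fun j => (x.H j).card + 1) hj (Nat.succ_pos _)

end Pool.Agent.MP_c69980_ag.G3
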