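import Pool.Agent.MP_c69980_ag.G3.SpecW

/-!
Filling a hole of an explicit vertex by a disc.
-/

set_option autoImplicit false

noncomputable section

namespace Pool.Agent.MP_c69980_ag.G3

open Metric Filter Topology Set

namespace FillX

variable {M : Type} [MetricSpace M] {A : Amb M} {H : Finset ℂ} {a ω ω' : ℂ} {ρ ρ' : ℝ}

/-- Translation of a chart. -/
lemma lc_tr {Y Y' : C2 → M} {d t w : ℂ} (h : ∀ q, Y' q = Y (q.1, d + q.2))
    (hY : A.LC Y (t, d + w)) : A.LC Y' (t, w) := by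
  refine (A.comp Y Y' (t, w) (fun q => d + q.2) hY (analyticAt_const.add analyticAt_snd) ?_
    (.of_forall h)).1
  rw [dw, fderiv_const_add, fderiv_snd]
  exact one_ne_zero

lemma dv_mono (h : ω ∈ Dv H ρ) (h0 : 0 < ρ') (hle : ρ' ≤ ρ) : ω ∈ Dv H ρ' :=
  ⟨hle.trans h.1, h.2.1.trans (inv_anti₀ h0 hle), fun b hb => hle.trans (h.2.2 b hb)⟩

lemma dv_near (h : ω ∈ Dv H ρ) (hn : ‖ω' - ω‖ ≤ ρ / 2) : ω' ∈ Dv H (ρ / 2) := by
  obtain ⟨h1, h2, h3⟩ := h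
  refine ⟨?_, ?_, fun b hb => ?_⟩
  · have := norm_sub_norm_le ω ω'
    rw [norm_sub_rev] at this
    linarith
  · have := norm_sub_norm_le ω' ω
    have h0 : 0 ≤ ρ / 2 := (norm_nonneg _).trans hn
    rw [inv_div, div_eq_mul_inv]
    linarith
  · have := norm_sub_le (ω' - b) (ω' - ω)
    rw [show ω' - b - (ω' - ω) = ω - b by ring] at this
    linarith [h3 b hb]

lemma dv_ins (h : ω ∈ Dv (H.erase a) ρ) (ha : ρ ≤ ‖ω - a‖) : ω ∈ Dv H ρ :=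
  ⟨h.1, h.2.1, fun b hb => by
    by_cases e : b = a
    · exact e ▸ ha
    · exact h.2.2 b (Finset.mem_erase.2 ⟨e, hb⟩)⟩

/-- A small scale at the hole. -/
lemma scale {r : ℝ} (r0 : 0 < r) (a0 : a ≠ 0) (H : Finset ℂ) : ∃ s : ℝ, 0 < s ∧ 5 * s < r ∧
    ∀ x : ℝ, 0 < x → ∃ ρ : ℝ, 0 < ρ ∧ ∀ ξ ∈ An x (5 * s), a + ξ ∈ Dv H ρ := by
  have e : ∀ᶠ s : ℝ in 𝓝[>] 0, ∀ b ∈ H.erase a, s ≤ ‖a - b‖ :=
    (H.erase a).eventually_all.2 fun b hb => nhdsWithin_le_nhds (ge_mem_nhds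
      (norm_pos_iff.2 (sub_ne_zero.2 (Finset.mem_erase.1 hb).1.symm)))
  obtain ⟨m, m1, m2, m3, m0⟩ := (e.and (Eventually.and
    (nhdsWithin_le_nhds (ge_mem_nhds (norm_pos_iff.2 a0))) (Eventually.and
    (nhdsWithin_le_nhds (ge_mem_nhds r0)) self_mem_nhdsWithin))).exists
  have m0 : 0 < m := m0
  refine ⟨m / 10, by positivity, by linarith, fun x x0 =>
    ⟨min x (min (m / 2) (‖a‖ + m / 2)⁻¹), by positivity, fun ξ hξ => ?_⟩⟩
  have h1 : ‖ξ‖ ≤ m / 2 := hξ.2.trans_eq (by ring)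
  have h2 : min x (min (m / 2) (‖a‖ + m / 2)⁻¹) ≤ m / 2 :=
    (min_le_right _ _).trans (min_le_left _ _)
  refine dv_ins (a := a) ⟨h2.trans ?_, ?_, fun b hb => h2.trans ?_⟩ ?_
  · have := norm_sub_le (a + ξ) ξ
    rw [add_sub_cancel_right] at this
    linarith
  · refine ((norm_add_le a ξ).trans (add_le_add le_rfl h1)).trans ?_
    rw [le_inv_comm₀ (by positivity) (by positivity)]
    exact (min_le_right _ _).trans (min_le_right _ _)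
  · have := norm_sub_le (a + ξ - b) ξ
    rw [show a + ξ - b - ξ = a - b by ring] at this
    linarith [m1 b hb]
  · rw [add_sub_cancel_left]
    exact (min_le_left _ _).trans hξ.1

lemma near {l : Filter ℂ} {α β : C2 → ℂ} {ρ₁ ρ₂ ε : ℝ} (W : Wl l α β ρ₁ ρ₂) (h : 0 < ρ₂)
    (ε0 : 0 < ε) : ∀ᶠ t in l, (∀ ξ, ‖ξ‖ < ρ₂ → ‖α (t, ξ) - ξ‖ ≤ ε) ∧
      ∀ ξ, ρ₁ < ‖ξ‖ → ‖β (t, ξ) - ξ‖ ≤ ε := by
  filter_upwards [W.near (ε / ρ₂) (by positivity), W.near ε ε0] with t h1 h2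
  refine ⟨fun ξ hξ => (h1.1 ξ hξ).trans ?_, h2.2⟩
  exact (mul_le_mul_of_nonneg_left hξ.le (by positivity)).trans_eq (div_mul_cancel₀ _ h.ne')

lemma de_disc {c b : ℂ} {r : ℝ} (h : ‖b‖ ≤ r) : b ∈ De .disc c r := ⟨h, fun e => nomatch e⟩

end FillX

open FillX in
theorem fillS : FillOf := by
  intro hS hG M _ A V E P' c H a r r0 _ H0 hV hE hVe
  have a0 : a ≠ 0 := fun e => H0 (e ▸ ‹a ∈ H›)
  obtain ⟨s, s0, sr, hs⟩ := scale r0 a0 H
  have lcY : ∀ {t w}, A.LC V (t, a + w) → A.LC (sv V (.inr a)) (t, w) := lc_tr fun _ => rfl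
  have chY : ∀ x, 0 < x → Ch A (sv V (.inr a)) (An x (5 * s)) := fun x x0 => by
    obtain ⟨ρ, ρ0, hρ⟩ := hs x x0
    filter_upwards [hV ρ ρ0] with t ht w hw
    exact ⟨lcY (ht _ (hρ w hw)).1.1, fun w' hw' e =>
      add_left_cancel ((ht _ (hρ w hw)).2 _ (hρ w' hw') e)⟩
  have lcE : ∀ᶠ t in A.l, ∀ b : ℂ, ‖b‖ ≤ 5 * s → A.LZ E (t, b) ∧
      ∀ b' : ℂ, ‖b'‖ ≤ 5 * s → E (t, b) = E (t, b') → b = b' := by
    filter_upwards [hE.lc _ sr] with t ht b hb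
    obtain ⟨h1, h2, h3⟩ := ht b (de_disc hb)
    exact ⟨⟨h1, h2.2 fun e => nomatch e⟩, fun b' hb' => h3 b' (de_disc hb')⟩
  have mt : ∀ x, 0 < x → Mt A.l (sv V (.inr a)) E id (An x (4 * s)) := fun x x0 =>
    hS M A E _ (x / 2) x (4 * s) (5 * s) (half_pos x0) (half_lt_self x0) (by linarith)
      (hE.out _ _ (half_pos x0) sr) (lcE.mono fun t ht ξ hξ => (ht ξ hξ.2).1.1)
      (chY _ (half_pos x0))
  have l45 : ∀ {y : ℝ}, y ≤ 4 * s → y ≤ 5 * s := fun h => h.trans (by linarith)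
  obtain ⟨α, β, N, W, hN⟩ := hG M A (sv V (.inr a)) E s (2 * s) (3 * s) (4 * s) s0 (by linarith)
    (by linarith) (by linarith) (mt s s0)
    ((chY s s0).mono fun t ht ξ hξ => (ht ξ ⟨hξ.1, l45 hξ.2⟩).1)
    (lcE.mono fun t ht ξ hξ => ⟨(ht ξ (l45 hξ.2)).1.1, fun w hw => (ht ξ (l45 hξ.2)).2 w
      (l45 hw.2)⟩)
  have nr : ∀ {ε : ℝ}, 0 < ε → _ := fun {ε} => near (ε := ε) W (by positivity)
  have desc : ∀ ρ ε : ℝ, 0 < ρ → 0 < ε → ∀ᶠ t in A.l, ∀ ω ∈ Dv (H.erase a) ρ,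
      (‖ω - a‖ < 3 * s → ‖α (t, ω - a)‖ ≤ 4 * s ∧ ‖a + α (t, ω - a) - ω‖ ≤ ε) ∧
      (2 * s < ‖ω - a‖ → a + β (t, ω - a) ∈ Dv H (min ρ (2 * s) / 2) ∧
        ‖a + β (t, ω - a) - ω‖ ≤ ε) := fun ρ ε ρ0 ε0 => by
    have m0 : 0 < min ρ (2 * s) := by positivity
    filter_upwards [nr ε0, nr s0, nr (half_pos m0)] with t h1 h2 h3 ω hω
    have e : ∀ z : ℂ, a + z - ω = z - (ω - a) := fun z => by ring
    refine ⟨fun h => ⟨?_, e _ ▸ h1.1 _ h⟩, fun h => ⟨dv_near (dv_ins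
      (dv_mono hω m0 (min_le_left _ _)) ((min_le_right _ _).trans h.le)) (e _ ▸ h3.2 _ h),
      e _ ▸ h1.2 _ h⟩⟩
    linarith [norm_sub_norm_le (α (t, ω - a)) (ω - a), h2.1 _ h]
  have lcV : ∀ {t w}, A.LC N (t, w - a) → A.LC (fun q : C2 => N (q.1, q.2 - a)) (t, w) :=
    fun h => lc_tr (Y := N) (d := -a) (fun q => by rw [neg_add_eq_sub]) (by rwa [neg_add_eq_sub])
  refine ⟨fun q => N (q.1, q.2 - a), fun ρ ρ0 => ?_, fun ρ ρ0 => ⟨min ρ (2 * s) / 2, 4 * s,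
    by positivity, by linarith, fun ε ε0 => ?_⟩, fun ρ ε ρ0 ε0 => ?_,
    2 * s, by positivity, fun ε ε0 => ?_⟩
  · have m0 : 0 < min ρ (2 * s) / 2 := by positivity
    filter_upwards [desc ρ (s / 8) ρ0 (by positivity), hN, lcE, hV _ m0, W.an,
      hVe _ (4 * s) (s / 8) m0 (by linarith) (by positivity)] with t h1 h2 h3 h4 h5 h6
    have mix : ∀ ω ∈ Dv (H.erase a) ρ, ∀ ω' ∈ Dv (H.erase a) ρ, ‖ω - a‖ ≤ 2 * s →
        3 * s ≤ ‖ω' - a‖ → N (t, ω - a) ≠ N (t, ω' - a) := fun ω hω ω' hω' k k' e => by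
      have k1 : ‖ω - a‖ < 3 * s := by linarith
      have k2 : 2 * s < ‖ω' - a‖ := by linarith
      rw [(h2.1 _ k1).1, (h2.2 _ k2).1] at e
      obtain ⟨u1, u2⟩ := (h1 ω hω).1 k1
      obtain ⟨v1, v2⟩ := (h1 ω' hω').2 k2
      have w1 : ‖a + α (t, ω - a) - (a + β (t, ω' - a))‖ < s / 8 :=
        h6 _ v1 _ (de_disc u1) e.symm
      have w2 := norm_add₃_le (a := ω - a) (b := a + α (t, ω - a) - ω)
        (c := -(a + α (t, ω - a) - (a + β (t, ω' - a))) - (a + β (t, ω' - a) - ω'))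
      have w3 := norm_sub_le (-(a + α (t, ω - a) - (a + β (t, ω' - a)))) (a + β (t, ω' - a) - ω')
      rw [norm_neg] at w3
      rw [show ω - a + (a + α (t, ω - a) - ω) + (-(a + α (t, ω - a) - (a + β (t, ω' - a))) -
        (a + β (t, ω' - a) - ω')) = ω' - a by ring] at w2
      linarith
    intro ω hω
    refine ⟨?_, fun ω' hω' e => ?_⟩
    · rcases lt_or_ge ‖ω - a‖ (3 * s) with k | k
      · have u := (h3 _ (l45 ((h1 ω hω).1 k).1)).1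
        exact ⟨lcV ((h2.1 _ k).2 u.1), by simpa only [(h2.1 _ k).1] using u.2⟩
      · have k2 : 2 * s < ‖ω - a‖ := by linarith
        have u := (h4 _ ((h1 ω hω).2 k2).1).1
        refine ⟨lcV ((h2.2 _ k2).2 (lcY u.1)), ?_⟩
        show (t, N (t, ω - a)) ∈ A.Z
        rw [(h2.2 _ k2).1]
        exact u.2
    · have e : N (t, ω - a) = N (t, ω' - a) := e
      refine sub_left_injective (b := a) ?_
      by_cases k : ‖ω - a‖ < 3 * s ∧ ‖ω' - a‖ < 3 * s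
      · rw [(h2.1 _ k.1).1, (h2.1 _ k.2).1] at e
        exact (h5.1 _ k.1).2.2 _ k.2 ((h3 _ (l45 ((h1 ω hω).1 k.1).1)).2 _
          (l45 ((h1 ω' hω').1 k.2).1) e)
      by_cases k' : 2 * s < ‖ω - a‖ ∧ 2 * s < ‖ω' - a‖
      · rw [(h2.2 _ k'.1).1, (h2.2 _ k'.2).1] at e
        exact (h5.2 _ k'.1).2.2 _ k'.2 (add_left_cancel ((h4 _ ((h1 ω hω).2 k'.1).1).2 _
          ((h1 ω' hω').2 k'.2).1 e))
      exfalso
      rw [not_and_or, not_lt, not_lt] at k k'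
      rcases k with k | k <;> rcases k' with k' | k'
      · linarith
      · exact mix ω' hω' ω hω k' k e.symm
      · exact mix ω hω ω' hω' k' k e
      · linarith
  · filter_upwards [desc ρ ε ρ0 ε0, hN] with t h1 h2 ω hω
    rcases lt_or_ge ‖ω - a‖ (3 * s) with k | k
    · exact .inr ⟨_, ((h1 ω hω).1 k).1, ((h1 ω hω).1 k).2, (h2.1 _ k).1⟩
    · have k2 : 2 * s < ‖ω - a‖ := by linarith
      exact .inl ⟨_, ((h1 ω hω).2 k2).1, ((h1 ω hω).2 k2).2, (h2.2 _ k2).1⟩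
  · filter_upwards [nr (half_pos ε0), hN, W.sb (5 / 2 * s) (by linarith),
      W.sa (11 / 4 * s) (by linarith), mt ρ ρ0 (min (ε / 2) (s / 4)) (by positivity)]
      with t h1 h2 h3 h4 h5 ω hω
    rcases le_or_gt (5 / 2 * s) ‖ω - a‖ with k | k
    · obtain ⟨ξ, x1, x2⟩ := h3 _ k
      refine ⟨a + ξ, ?_, ?_⟩
      · rw [← sub_sub, ← x2]
        linarith [h1.2 ξ x1]
      · show N (t, a + ξ - a) = _
        rw [add_sub_cancel_left, (h2.2 _ x1).1, x2]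
        show V (t, a + (ω - a)) = _
        rw [add_sub_cancel]
    · obtain ⟨w, w1, w2⟩ := h5 (ω - a) ⟨hω.2.2 a ‹_›, by linarith⟩
      have w3 : ‖w - (ω - a)‖ < ε / 2 := w1.trans_le (min_le_left _ _)
      have w4 : ‖w - (ω - a)‖ < s / 4 := w1.trans_le (min_le_right _ _)
      obtain ⟨ξ, x1, x2⟩ := h4 w (by linarith [norm_sub_norm_le w (ω - a)])
      refine ⟨a + ξ, ?_, ?_⟩
      · have := norm_sub_le (w - ξ) (w - (ω - a))
        rw [show w - ξ - (w - (ω - a)) = ω - (a + ξ) by ring] at this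
        linarith [x2 ▸ h1.1 ξ x1]
      · show N (t, a + ξ - a) = _
        rw [add_sub_cancel_left, (h2.1 _ x1).1, x2, ← w2]
        show V (t, a + (ω - a)) = _
        rw [add_sub_cancel]
  · filter_upwards [nr ε0, hN, W.sa (2 * s) (by linarith)] with t h1 h2 h3 b hb
    obtain ⟨ξ, x1, x2⟩ := h3 b hb
    refine ⟨a + ξ, ?_, ?_⟩
    · rw [add_sub_add_left_eq_sub, ← x2]
      exact h1.1 ξ x1
    · show N (t, a + ξ - a) = _
      rw [add_sub_cancel_left, (h2.1 _ x1).1, x2]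

end Pool.Agent.MP_c69980_ag.G3
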