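import Pool.Agent.MP_c69980_ag.G3.SpecI
import Pool.Agent.MP_c69980_ag.G3.Fill

/-!
Filling one hole of an explicit vertex of a state.
-/

set_option autoImplicit false

noncomputable section

namespace Pool.Agent.MP_c69980_ag.G3

open Metric Filter Topology Set

namespace Fill1X

open FillX

variable {M : Type} [MetricSpace M] {A : Amb M}

/-- A radius that separates the holes, `0` and `∞`. -/
lemma sep {H : Finset ℂ} (H0 : (0 : ℂ) ∉ H) : ∃ δ : ℝ, 0 < δ ∧ 2 * δ ≤ 1 ∧ ∀ a ∈ H,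
    2 * δ ≤ ‖a‖ ∧ ‖a‖ ≤ (2 * δ)⁻¹ ∧ ∀ b ∈ H.erase a, 2 * δ ≤ ‖a - b‖ := by
  have e : ∀ᶠ s : ℝ in 𝓝[>] 0, s ≤ 1 ∧ ∀ a ∈ H, s ≤ ‖a‖ ∧ s ≤ ‖a‖⁻¹ ∧
      ∀ b ∈ H.erase a, s ≤ ‖a - b‖ := by
    refine nhdsWithin_le_nhds ((ge_mem_nhds one_pos).and (H.eventually_all.2 fun a ha => ?_))
    have a0 : 0 < ‖a‖ := norm_pos_iff.2 fun e => H0 (e ▸ ha)
    exact (ge_mem_nhds a0).and ((ge_mem_nhds (inv_pos.2 a0)).and
      ((H.erase a).eventually_all.2 fun b hb => ge_mem_nhds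
        (norm_pos_iff.2 (sub_ne_zero.2 (Finset.ne_of_mem_erase hb).symm))))
  obtain ⟨s, ⟨h1, h2⟩, s0⟩ := (e.and self_mem_nhdsWithin).exists
  have s0 : 0 < s := s0
  refine ⟨s / 2, half_pos s0, by linarith, fun a ha => ?_⟩
  rw [mul_div_cancel₀ s two_ne_zero]
  obtain ⟨k1, k2, k3⟩ := h2 a ha
  exact ⟨k1, le_inv_of_le_inv₀ s0 k2, k3⟩

lemma slots {H : Finset ℂ} (H0 : (0 : ℂ) ∉ H) : ∃ δ : ℝ, 0 < δ ∧ 2 * δ ≤ 1 ∧
    (∀ a ∈ H, ∀ b : ℂ, ‖b‖ ≤ δ → a + b ∈ Dv (H.erase a) δ) ∧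
    ∀ s, Sl H s → ∀ r : ℝ, 0 < r → ∀ w : ℂ, r ≤ ‖w‖ → ‖w‖ ≤ δ → slot s w ∈ Dv H (min r δ) := by
  obtain ⟨δ, d0, d1, h⟩ := sep H0
  have i1 : 1 ≤ (2 * δ)⁻¹ := one_le_inv_iff₀.2 ⟨by positivity, d1⟩
  have i2 : δ⁻¹ = 2 * (2 * δ)⁻¹ := by field_simp
  have k : ∀ a ∈ H, ∀ b : ℂ, ‖b‖ ≤ δ → a + b ∈ Dv (H.erase a) δ := fun a ha b hb => by
    obtain ⟨k1, k2, k3⟩ := h a ha
    refine ⟨?_, ?_, fun c hc => ?_⟩
    · have := norm_sub_le (a + b) b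
      rw [add_sub_cancel_right] at this
      linarith
    · linarith [norm_add_le a b]
    · have := norm_sub_le (a + b - c) b
      rw [show a + b - c - b = a - c by ring] at this
      linarith [k3 c hc]
  refine ⟨δ, d0, d1, k, fun s hs r r0 w h1 h2 => ?_⟩
  have m0 : 0 < min r δ := lt_min r0 d0
  have m1 := min_le_left r δ
  have m2 := min_le_right r δ
  have m3 : δ⁻¹ ≤ (min r δ)⁻¹ := inv_anti₀ m0 m2
  rcases s with (_ | _) | a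
  · refine ⟨m1.trans h1, show ‖w‖ ≤ _ by linarith, fun a ha => show _ ≤ ‖w - a‖ from ?_⟩
    have := norm_sub_norm_le a w
    rw [norm_sub_rev] at this
    linarith [(h a ha).1]
  · have w1 : δ⁻¹ ≤ ‖w⁻¹‖ := by
      rw [norm_inv]
      exact inv_anti₀ (r0.trans_le h1) h2
    refine ⟨show _ ≤ ‖w⁻¹‖ by linarith, show ‖w⁻¹‖ ≤ _ from ?_,
      fun a ha => show _ ≤ ‖w⁻¹ - a‖ from ?_⟩
    · rw [norm_inv]
      exact inv_anti₀ m0 (m1.trans h1)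
    · linarith [norm_sub_norm_le w⁻¹ a, (h a ha).2.1]
  · refine dv_ins (a := a) (dv_mono (k a (hs a rfl) w h2) m0 m2) (show _ ≤ ‖a + w - a‖ from ?_)
    rw [add_sub_cancel_left]
    exact m1.trans h1

lemma unslot (s : Bool ⊕ ℂ) {w ω : ℂ} {ε : ℝ} (h1 : ‖w‖ ≤ 1) (h0 : slot s w ≠ 0) (hε : ε ≤ 1 / 2)
    (h : ‖slot s w - ω‖ ≤ ε) : ∃ w', slot s w' = ω ∧ ‖w' - w‖ ≤ 2 * ε := by
  have e0 : 0 ≤ ε := (norm_nonneg _).trans h
  rcases s with (_ | _) | a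
  · refine ⟨ω, rfl, ?_⟩
    have h : ‖w - ω‖ ≤ ε := h
    rw [norm_sub_rev] at h
    linarith
  · have h : ‖w⁻¹ - ω‖ ≤ ε := h
    have w0 : w ≠ 0 := fun e => h0 (by rw [e]; exact inv_zero)
    have w1 : 1 ≤ ‖w⁻¹‖ := by
      rw [norm_inv]
      exact one_le_inv_iff₀.2 ⟨norm_pos_iff.2 w0, h1⟩
    have o1 : 1 / 2 ≤ ‖ω‖ := by linarith [norm_sub_norm_le w⁻¹ ω]
    have o0 : ω ≠ 0 := norm_pos_iff.1 (by linarith)
    refine ⟨ω⁻¹, inv_inv ω, ?_⟩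
    rw [show ω⁻¹ - w = w * (w⁻¹ - ω) / ω by field_simp, norm_div, norm_mul,
      div_le_iff₀ (by linarith)]
    nlinarith [mul_le_mul h1 h (norm_nonneg _) zero_le_one]
  · refine ⟨ω - a, add_sub_cancel a ω, ?_⟩
    have h : ‖a + w - ω‖ ≤ ε := h
    rw [norm_sub_rev, show ω - (a + w) = ω - a - w by ring] at h
    linarith

lemma dv_ne {H : Finset ℂ} {ω : ℂ} {ρ : ℝ} (h0 : 0 < ρ) (h : ω ∈ Dv H ρ) : ω ≠ 0 :=
  norm_pos_iff.1 (h0.trans_le h.1)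

lemma de_mono {κ : Kd} {c b : ℂ} {r r' : ℝ} (h : b ∈ De κ c r) (hr : r ≤ r') : b ∈ De κ c r' :=
  ⟨h.1.trans hr, fun k => (h.2 k).trans (mul_le_mul_of_nonneg_right hr (norm_nonneg _))⟩

lemma de_div {c b : ℂ} {r : ℝ} (h : b ∈ De .neck c r) : ‖c / b‖ ≤ r := by
  rw [norm_div]
  exact div_le_of_le_mul₀ (norm_nonneg _) ((norm_nonneg _).trans h.1) (h.2 rfl)

/-- Matching with a slot of `V` gives matching with the slot of `V'`. -/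
lemma mt_sl {V V' E Y : C2 → M} {H : Finset ℂ} {a : ℂ} {r δ r₁ r₂ : ℝ} {s : Bool ⊕ ℂ}
    (F : Fl A V V' E H a r) (d0 : 0 < δ) (d1 : 2 * δ ≤ 1) (r0 : 0 < r₁) (r2 : r₂ < δ / 2)
    (hs : ∀ r : ℝ, 0 < r → ∀ w : ℂ, r ≤ ‖w‖ → ‖w‖ ≤ δ → slot s w ∈ Dv H (min r δ))
    (h : Mt A.l Y (sv V s) id (An r₁ r₂)) : Mt A.l Y (sv V' s) id (An r₁ r₂) := fun ε hε => by
  obtain ⟨η, η0, η1, η2, η3⟩ : ∃ η : ℝ, 0 < η ∧ η ≤ ε / 3 ∧ η ≤ r₁ / 2 ∧ η ≤ δ / 2 :=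
    ⟨min (ε / 3) (min (r₁ / 2) (δ / 2)), by positivity, min_le_left _ _,
      (min_le_right _ _).trans (min_le_left _ _), (min_le_right _ _).trans (min_le_right _ _)⟩
  have m0 : 0 < min (r₁ / 2) δ := by positivity
  filter_upwards [h η η0, F.bw _ η m0 η0] with t h1 h2 ξ hξ
  obtain ⟨w, hw, e⟩ := h1 ξ hξ
  have hw : ‖w - ξ‖ < η := hw
  have n := abs_le.1 (abs_norm_sub_norm_le w ξ)
  have w2 : ‖w‖ ≤ δ := by linarith [n.2, hξ.2]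
  have m := hs (r₁ / 2) (half_pos r0) w (by linarith [n.1, hξ.1]) w2
  obtain ⟨ω, o1, o2⟩ := h2 _ m
  obtain ⟨w', e', n'⟩ := unslot s (by linarith) (dv_ne m0 m) (by linarith) o1
  refine ⟨w', ?_, by rw [e, sv, sv, e', o2]⟩
  have := norm_add_le (w' - w) (w - ξ)
  rw [sub_add_sub_cancel] at this
  show ‖w' - ξ‖ < ε
  linarith

end Fill1X

open FillX Fill1X in
theorem fill1S : Fill1Of := by
  classical
  intro _ _ hF M _ A S al x j a hj ha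
  have sa : Sl (x.H j) (.inr a) := fun b e => Sum.inr.inj e ▸ ha
  set π₀ := x.sl j (.inr a) with hπ
  have l0 : π₀ ∈ x.Lv := (x.lv _).2 (.inr ⟨j, hj, _, sa, rfl⟩)
  have k0 : x.e.κ π₀ = .disc := x.hd j hj a ha
  have nn : x.e.κ π₀ ≠ .neck := by rw [k0]; exact fun e => nomatch e
  have iE : IsE A .disc (x.e.E π₀) (x.e.c π₀) x.r (sv (x.V j) (.inr a)) (x.P (x.e.far π₀)) := by
    have := x.e.ise π₀ l0
    rwa [k0, hπ, x.psl j hj _ sa] at this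
  have ve0 : ∀ j' ∈ x.Js, Ve A (x.V j') (x.H j') .disc (x.e.E π₀) (x.e.c π₀) x.r
      fun ε _ ω b => j' = j ∧ ‖a + b - ω‖ < ε := fun j' hj' ρ r' ε h1 h2 h3 => by
    filter_upwards [x.ve j' hj' π₀ l0 ρ r' ε h1 h2 h3] with t h ω hω b hb e
    obtain ⟨s, ξ, q1, q2, ⟨q3, q4⟩ | ⟨q3, -⟩⟩ := h ω hω b (k0 ▸ hb) e
    · obtain ⟨rfl, rfl⟩ := x.inj j hj j' hj' _ _ sa q1 q3
      refine ⟨rfl, ?_⟩
      rw [q2, norm_sub_rev]
      simpa only [slot, add_sub_add_left_eq_sub] using q4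
    · exact absurd q3 nn
  obtain ⟨V₁, pV, F⟩ := hF M A S.N (x.V j) (x.e.E π₀) _ (x.e.c π₀) (x.H j) a x.r S.N0 (x.pv j hj)
    (x.e.pe π₀ l0).1 x.r0 ha (x.H0 j hj) (x.isv j hj) iE fun ρ r' ε h1 h2 h3 =>
      (ve0 j hj ρ r' ε h1 h2 h3).mono fun t h ω hω b hb e => (h ω hω b hb e).2
  obtain ⟨δ, d0, d1, hδ, hs⟩ := slots (x.H0 j hj)
  obtain ⟨H, Hj, Hn⟩ : ∃ H : x.J → Finset ℂ, H j = (x.H j).erase a ∧ ∀ j', j' ≠ j → H j' = x.H j' :=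
    ⟨Function.update x.H j _, Function.update_self .., fun _ h => Function.update_of_ne h ..⟩
  obtain ⟨V, Vj, Vn⟩ : ∃ V : x.J → C2 → M, V j = V₁ ∧ ∀ j', j' ≠ j → V j' = x.V j' :=
    ⟨Function.update x.V j _, Function.update_self .., fun _ h => Function.update_of_ne h ..⟩
  obtain ⟨P, Pj, Pn⟩ : ∃ P : S.Prt → C2 → M, (∀ s, Sl (x.H j) s → P (x.sl j s) = sv V₁ s) ∧
      ∀ π, (¬∃ s, Sl (x.H j) s ∧ x.sl j s = π) → P π = x.P π := by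
    refine ⟨fun π => if h : ∃ s, Sl (x.H j) s ∧ x.sl j s = π then sv V₁ h.choose else x.P π,
      fun s q => ?_, fun π h => dif_neg h⟩
    have h : ∃ s', Sl (x.H j) s' ∧ x.sl j s' = x.sl j s := ⟨s, q, rfl⟩
    exact (dif_pos h).trans
      (congrArg (sv V₁) (x.inj j hj j hj _ _ h.choose_spec.1 q h.choose_spec.2).2)
  have Hs : ∀ j', H j' ⊆ x.H j' := fun j' => by
    by_cases e : j' = j
    · rw [e, Hj]
      exact Finset.erase_subset _ _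
    · rw [Hn j' e]
  have S1 : ∀ j' s, Sl (H j') s → Sl (x.H j') s := fun j' s q b e => Hs j' (q b e)
  have S2 : ∀ j' ∈ x.Js, ∀ s, Sl (x.H j') s → (Sl (H j') s ↔ x.sl j' s ≠ π₀) := fun j' hj' s q => by
    refine ⟨fun q' e => ?_, fun n b e => ?_⟩
    · obtain ⟨rfl, rfl⟩ := x.inj j' hj' j hj _ _ q sa e
      have := q' a rfl
      rw [Hj] at this
      exact Finset.notMem_erase _ _ this
    · by_cases e' : j' = j
      · subst e' e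
        rw [Hj]
        exact Finset.mem_erase.2 ⟨fun k => n (by rw [k]), q b rfl⟩
      · rw [Hn j' e']
        exact q b e
  obtain ⟨r, r0, r1, r2⟩ : ∃ r : ℝ, 0 < r ∧ r ≤ x.r ∧ r ≤ δ / 2 :=
    ⟨min x.r (δ / 2), lt_min x.r0 (half_pos d0), min_le_left _ _, min_le_right _ _⟩
  have mt : ∀ π (Y : C2 → M) r₁ r₂, 0 < r₁ → r₂ < r → Mt A.l Y (x.P π) id (An r₁ r₂) →
      Mt A.l Y (P π) id (An r₁ r₂) := fun π Y r₁ r₂ h1 h2 h => by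
    by_cases e : ∃ s, Sl (x.H j) s ∧ x.sl j s = π
    · obtain ⟨s, q, rfl⟩ := e
      rw [x.psl j hj s q] at h
      rw [Pj s q]
      exact mt_sl F d0 d1 h1 (h2.trans_le r2) (hs s q) h
    · rwa [Pn π e]
  have nf : ∀ π ∈ x.Lv, x.e.κ π = .neck → x.e.far π ≠ π₀ := fun π h k e =>
    nn (e ▸ (x.e.nk π h k).2.2.2.1)
  have fw : ∀ ρ, 0 < ρ → ∃ ρ' r' : ℝ, 0 < ρ' ∧ r' < x.r ∧ ∀ ε : ℝ, 0 < ε → ∀ᶠ t in A.l,
      ∀ j', ∀ ω' ∈ Dv (H j') ρ,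
        (∃ ω ∈ Dv (x.H j') ρ', ‖ω - ω'‖ ≤ ε ∧ V j' (t, ω') = x.V j' (t, ω)) ∨
        (j' = j ∧ ∃ b : ℂ, ‖b‖ ≤ r' ∧ ‖a + b - ω'‖ ≤ ε ∧ V j' (t, ω') = x.e.E π₀ (t, b)) :=
    fun ρ h => by
    obtain ⟨ρ', r', h1, h2, h3⟩ := F.fw ρ h
    refine ⟨min ρ ρ', r', lt_min h h1, h2, fun ε hε => (h3 ε hε).mono fun t k j' ω' hω => ?_⟩
    by_cases e : j' = j
    · subst e
      rw [Hj] at hω
      rw [Vj]
      exact (k ω' hω).imp (fun ⟨ω, o1, o2⟩ => ⟨ω, dv_mono o1 (lt_min h h1) (min_le_right _ _), o2⟩)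
        fun o => ⟨rfl, o⟩
    · rw [Hn j' e] at hω
      rw [Vn j' e]
      exact .inl ⟨ω', dv_mono hω (lt_min h h1) (min_le_left _ _), by rw [sub_self, norm_zero]; exact
        hε.le, rfl⟩
  refine ⟨{
    J := x.J, Js := x.Js, H := H, V := V, sl := x.sl, P := P, r := r, Lv := x.Lv \ {π₀}
    e :=
      { κ := x.e.κ, E := x.e.E, c := x.e.c, far := x.e.far
        pe := fun π h => x.e.pe π h.1
        ise := fun π h =>
          have E := x.e.ise π h.1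
          ⟨fun r' q => E.lc r' (q.trans_le r1),
            fun r₁ r' q q' => mt _ _ _ _ q q' (E.out r₁ r' q (q'.trans_le r1)), E.cc,
            fun k r₁ r' q q' => mt _ _ _ _ q q' (E.inn k r₁ r' q (q'.trans_le r1))⟩
        nk := fun π h k => ⟨⟨(x.e.nk π h.1 k).1, nf π h.1 k⟩, (x.e.nk π h.1 k).2⟩
        dj := fun r' q => (x.e.dj r' (q.trans_le r1)).mono fun t k π h π' h' => k π h.1 π' h'.1 }
    Rz := x.Rz, op := x.op, r0 := r0, rr := r1.trans x.rr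
    lv := fun π => ?_
    pal := fun π h => ?_
    psl := fun j' hj' s q => ?_
    nal := fun j' hj' s q => x.nal j' hj' s (S1 _ _ q)
    inj := fun j₁ h₁ j₂ h₂ s s' q q' => x.inj j₁ h₁ j₂ h₂ s s' (S1 _ _ q) (S1 _ _ q')
    H0 := fun j' hj' q => x.H0 j' hj' (Hs j' q)
    isv := fun j' hj' => ?_
    pv := fun j' hj' => ?_
    vv := fun ρ h => ?_
    ve := fun j' hj' π hπ' ρ r' ε h1 h2 h3 => ?_
    hd := fun j' hj' b q => x.hd j' hj' b (Hs j' q)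
    te := fun π h => x.te π h.1
    tv := fun j' hj' ρ u h1 hu hi => ?_
    cov := fun u hu => ?_
    rs := fun π h q => x.rs π h.1 fun j' hj' b hb e => ?_
    ops := x.ops }, ?_⟩
  · refine ⟨fun h => ((x.lv π).1 h.1).imp_right fun ⟨j', hj', s, q, e⟩ =>
      ⟨j', hj', s, (S2 j' hj' s q).2 (e ▸ h.2), e⟩, fun h => ?_⟩
    rcases h with h | ⟨j', hj', s, q, rfl⟩
    · exact ⟨(x.lv π).2 (.inl h), fun e => x.nal j hj _ sa (by rw [← hπ, ← e]; exact h)⟩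
    · exact ⟨(x.lv _).2 (.inr ⟨j', hj', s, S1 _ _ q, rfl⟩), (S2 j' hj' s (S1 _ _ q)).1 q⟩
  · rw [Pn π fun ⟨s, q, e⟩ => x.nal j hj s q (e ▸ h), x.pal π h]
  · by_cases e : j' = j
    · subst e
      rw [Pj s (S1 _ _ q), Vj]
    · rw [Pn _ fun ⟨s', q', e'⟩ => e (x.inj j hj j' hj' _ _ q' (S1 _ _ q) e').1.symm, Vn j' e,
        x.psl j' hj' s (S1 _ _ q)]
  · by_cases e : j' = j
    · rw [e, Vj, Hj]
      exact F.isv
    · rw [Vn j' e, Hn j' e]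
      exact x.isv j' hj'
  · by_cases e : j' = j
    · rwa [e, Vj]
    · rw [Vn j' e]
      exact x.pv j' hj'
  · obtain ⟨ρ', r', h1, h2, h3⟩ := fw ρ h
    filter_upwards [h3 1 one_pos, x.vv ρ' h1,
      x.Js.eventually_all.2 fun j' hj' => ve0 j' hj' ρ' r' 1 h1 h2 one_pos] with t k1 k2 k3 j₁ q₁
        j₂ q₂ ω₁ o₁ ω₂ o₂ e
    rcases k1 j₁ ω₁ o₁ with ⟨w₁, a1, -, a2⟩ | ⟨a1, b₁, a2, -, a3⟩ <;>
      rcases k1 j₂ ω₂ o₂ with ⟨w₂, c1, -, c2⟩ | ⟨c1, b₂, c2, -, c3⟩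
    · exact k2 j₁ q₁ j₂ q₂ w₁ a1 w₂ c1 (by rw [← a2, e, c2])
    · exact (k3 j₁ q₁ w₁ a1 b₂ (de_disc c2) (by rw [← a2, e, c3])).1.trans c1.symm
    · exact a1.trans (k3 j₂ q₂ w₂ c1 b₁ (de_disc a2) (by rw [← c2, ← e, a3])).1.symm
    · exact a1.trans c1.symm
  · obtain ⟨ρ', r₃, k1, k2, k3⟩ := fw ρ h1
    obtain ⟨η, η0, η1, η2⟩ : ∃ η : ℝ, 0 < η ∧ η ≤ ε / 3 ∧ η ≤ 1 / 2 :=
      ⟨min (ε / 3) (1 / 2), by positivity, min_le_left _ _, min_le_right _ _⟩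
    have h2' : r' < x.r := h2.trans_le r1
    filter_upwards [k3 η η0, x.ve j' hj' π hπ'.1 ρ' r' η k1 h2' η0,
      x.e.dj (max r' r₃) (max_lt h2' k2)] with t m1 m2 m3 ω' hω b hb e
    rcases m1 j' ω' hω with ⟨ω, a1, a2, a3⟩ | ⟨-, b₀, a2, -, a3⟩
    · obtain ⟨s, ξ, q1, rfl, q3⟩ := m2 ω a1 b hb (a3 ▸ e)
      have key : ∀ z : ℂ, ‖z‖ ≤ r' → ‖ξ - z‖ < η → ∃ ξ', ω' = slot s ξ' ∧ ‖ξ' - z‖ < ε :=
        fun z z1 z2 => by
        obtain ⟨ξ', e', n'⟩ := unslot s (w := ξ) (by linarith [norm_sub_norm_le ξ z])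
          (dv_ne k1 a1) η2 a2
        have := norm_add_le (ξ' - ξ) (ξ - z)
        rw [sub_add_sub_cancel] at this
        exact ⟨ξ', e'.symm, by linarith⟩
      rcases q3 with ⟨q3, q4⟩ | ⟨q3, q4, q5⟩
      · obtain ⟨ξ', e', n'⟩ := key b hb.1 q4
        exact ⟨s, ξ', (S2 j' hj' s q1).2 (q3 ▸ hπ'.2), e', .inl ⟨q3, n'⟩⟩
      · obtain ⟨ξ', e', n'⟩ := key _ (de_div (q3 ▸ hb)) q5
        exact ⟨s, ξ', (S2 j' hj' s q1).2 (q4 ▸ nf π hπ'.1 q3), e', .inr ⟨q3, q4, n'⟩⟩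
    · rcases m3 π₀ l0 π hπ'.1 b₀ (k0 ▸ de_disc (a2.trans (le_max_right _ _))) b
        (de_mono hb (le_max_left _ _)) (a3 ▸ e) with q | q
      · exact absurd q hπ'.2
      · exact absurd q.1 nn
  · obtain ⟨ρ', r₃, k1, k2, k3⟩ := fw ρ h1
    have hi' : ∀ᶠ y in (u : Filter (ℂ × M)), (∃ ω ∈ Dv (x.H j') ρ', y.2 = x.V j' (y.1, ω)) ∨
        ∃ ω' ∈ Dv ((x.H j).erase a) ρ, ∃ b : ℂ, ‖b‖ ≤ r₃ ∧ ‖a + b - ω'‖ ≤ ρ / 4 ∧
          y.2 = x.e.E π₀ (y.1, b) := by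
      filter_upwards [hi, hu.1.eventually (k3 (ρ / 4) (by positivity))] with y ⟨ω', o1, o2⟩ m
      rcases m j' ω' o1 with ⟨ω, a1, -, a3⟩ | ⟨rfl, b, a2, a3, a4⟩
      · exact .inl ⟨ω, a1, o2.trans a3⟩
      · exact .inr ⟨ω', Hj ▸ o1, b, a2, a3, o2.trans a4⟩
    rcases Ultrafilter.eventually_or.1 hi' with m | m
    · exact x.tv j' hj' ρ' u k1 hu m
    by_cases dp : Dp (x.e.κ π₀) (x.e.E π₀) (x.e.c π₀) u
    · exact x.te π₀ l0 u hu dp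
    obtain ⟨ρ₁, p0, p1⟩ : ∃ ρ₁ : ℝ, 0 < ρ₁ ∧ ¬∀ᶠ y in (u : Filter (ℂ × M)),
        ∃ b ∈ De (x.e.κ π₀) (x.e.c π₀ y.1) ρ₁, y.2 = x.e.E π₀ (y.1, b) := by
      by_contra c
      exact dp fun ρ₁ p0 => by_contra fun p1 => c ⟨ρ₁, p0, p1⟩
    have m0 : 0 < min (ρ / 2) (ρ₁ / 2) := by positivity
    refine x.tv j hj _ u m0 hu ?_
    filter_upwards [m, Ultrafilter.eventually_not.2 p1, hu.1.eventually
      (iE.out ρ₁ r₃ p0 k2 (min (ρ / 4) (ρ₁ / 2)) (by positivity))] with y ⟨ω', o1, b, o2, o3, o4⟩ n c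
    have b1 : ρ₁ ≤ ‖b‖ := not_lt.1 fun q => n ⟨b, k0 ▸ de_disc q.le, o4⟩
    obtain ⟨w, w1, w2⟩ := c b ⟨b1, o2⟩
    have w1 : ‖w - b‖ < min (ρ / 4) (ρ₁ / 2) := w1
    rw [lt_min_iff] at w1
    refine ⟨a + w, dv_ins (a := a) (dv_mono (dv_near o1 ?_) m0 (min_le_left _ _)) ?_, o4.trans w2⟩
    · have := norm_add_le (w - b) (a + b - ω')
      rw [show w - b + (a + b - ω') = a + w - ω' by ring] at this
      linarith [w1.1]
    · have := norm_sub_norm_le b w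
      rw [norm_sub_rev] at this
      rw [add_sub_cancel_left]
      linarith [w1.2, min_le_right (ρ / 2) (ρ₁ / 2)]
  · rcases x.cov u hu with h | ⟨π, h, dp⟩ | ⟨j', hj', ρ, h1, hi⟩
    · exact .inl h
    · by_cases e : π = π₀
      · obtain ⟨ρ₀, p0, p1⟩ := F.bw'
        refine .inr (.inr ⟨j, hj, δ / 2, half_pos d0, ?_⟩)
        rw [e] at dp
        filter_upwards [dp _ (lt_min p0 d0), hu.1.eventually (p1 (δ / 2) (half_pos d0))]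
          with y ⟨b, b1, b2⟩ m
        obtain ⟨ω', o1, o2⟩ := m b (b1.1.trans (min_le_left _ _))
        rw [Hj, Vj]
        exact ⟨ω', dv_near (hδ a ha b (b1.1.trans (min_le_right _ _))) (norm_sub_rev _ ω' ▸ o1),
          b2.trans o2.symm⟩
      · exact .inr (.inl ⟨π, ⟨h, e⟩, dp⟩)
    · refine .inr (.inr ⟨j', hj', ρ / 2, half_pos h1, ?_⟩)
      by_cases e : j' = j
      · subst e
        filter_upwards [hi, hu.1.eventually (F.bw ρ (ρ / 2) h1 (half_pos h1))] with y ⟨ω, o1, o2⟩ m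
        obtain ⟨ω', a1, a2⟩ := m ω o1
        have := dv_near (ω' := ω') o1 (norm_sub_rev _ ω' ▸ a1)
        rw [Vj]
        exact ⟨ω', ⟨this.1, this.2.1, fun b hb => this.2.2 b (Hs _ hb)⟩, o2.trans a2.symm⟩
      · rw [Vn j' e, Hn j' e]
        exact hi.mono fun y ⟨ω, o1, o2⟩ => ⟨ω, dv_mono o1 (half_pos h1) (half_le_self h1.le), o2⟩
  · have q' : Sl (x.H j') (.inr b) := fun c e => Sum.inr.inj e ▸ hb
    exact q j' hj' b ((S2 j' hj' _ q').2 (e ▸ h.2) b rfl) e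
  · refine Finset.sum_lt_sum (fun j' _ => Nat.succ_le_succ (Finset.card_le_card (Hs j')))
      ⟨j, hj, Nat.succ_lt_succ ?_⟩
    show (H j).card < _
    rw [Hj]
    exact Finset.card_erase_lt_of_mem ha

end Pool.Agent.MP_c69980_ag.G3
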