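import Pool.Agent.MP_c69980_ag.G3.SpecI

/-!
The atlas of a state: charts, scales and the bound for the forms.
-/

set_option autoImplicit false

noncomputable section

namespace Pool.Agent.MP_c69980_ag.G3

open Metric Filter Topology Set

namespace LcX

variable {M : Type} [MetricSpace M] {A : Amb M} {S : Sk A} {al : Finset S.Cmp} {κ : Kd}
  {E P P' Y Y' : C2 → M} {c : ℂ → ℂ} {r ρ B : ℝ} {t w w' ξ x : ℂ} {π π' : S.Prt}

lemma dw_at {G : C2 → ℂ} (hG : AnalyticAt ℂ G (t, w)) :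
    HasDerivAt (fun z => G (t, z)) (dw G (t, w)) w :=
  hG.differentiableAt.hasFDerivAt.comp_hasDerivAt w
    ((hasDerivAt_const w t).prodMk (hasDerivAt_id w))

lemma sl_an {G : C2 → ℂ} (hG : AnalyticAt ℂ G (t, w)) : AnalyticAt ℂ (fun z => G (t, z)) w :=
  AnalyticAt.comp_of_eq hG (analyticAt_const.prod analyticAt_id) rfl

lemma comp2 {φ : C2 → ℂ} {d : ℂ} (h : A.LC Y (t, φ (t, w))) (ha : AnalyticAt ℂ φ (t, w))
    (hd : HasDerivAt (fun z => φ (t, z)) d w) (d0 : d ≠ 0) (e : ∀ q, Y' q = Y (q.1, φ q)) :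
    A.LC Y' (t, w) ∧ ∀ l, A.cf Y' (t, w) l = d ^ A.m * A.cf Y (t, φ (t, w)) l := by
  have k := (dw_at ha).unique hd
  exact k ▸ A.comp Y Y' (t, w) φ h ha (k ▸ d0) (.of_forall e)

lemma c_ne (hE : IsE A κ E c r P P') (h : κ = .neck) :
    ∀ᶠ t in A.l, AnalyticAt ℂ c t ∧ c t ≠ 0 := by
  obtain ⟨K, h⟩ := (hE.cc h).2
  exact h.mono fun t ht => ⟨ht.1, norm_pos_iff.1 ((Real.exp_pos _).trans_le ht.2)⟩

lemma c_le (hE : IsE A κ E c r P P') (h : κ = .neck) (h0 : 0 < ρ) : ∀ᶠ t in A.l, ‖c t‖ ≤ ρ :=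
  (hE.cc h).1.norm.eventually (ge_mem_nhds (by simpa using h0))

/-! ### The coordinate on an edge -/

/-- The coordinate. -/
def gg (κ : Kd) (ρ : ℝ) (w : ℂ) : ℂ := if κ = .disc then ρ * w else ρ * Complex.exp w

/-- Its derivative. -/
def gd (κ : Kd) (ρ : ℝ) (w : ℂ) : ℂ := if κ = .disc then ρ else ρ * Complex.exp w

lemma gd_ne (h : 0 < ρ) : gd κ ρ w ≠ 0 := by
  unfold gd
  split_ifs <;> simp [h.ne']

lemma gg_der : HasDerivAt (gg κ ρ) (gd κ ρ w) w := by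
  unfold gg gd
  split_ifs
  · simpa using (hasDerivAt_id w).const_mul (ρ : ℂ)
  · exact (Complex.hasDerivAt_exp w).const_mul _

lemma gg_an : AnalyticAt ℂ (gg κ ρ) w :=
  Differentiable.analyticAt (fun _ => gg_der.differentiableAt) w

lemma gg_inj (h : 0 < ρ) (hw : ‖w - w'‖ ≤ 2) (e : gg κ ρ w = gg κ ρ w') : w = w' := by
  have h0 : (ρ : ℂ) ≠ 0 := by simpa using h.ne'
  unfold gg at e
  split_ifs at e
  · exact mul_left_cancel₀ h0 e
  obtain ⟨n, rfl⟩ := Complex.exp_eq_exp_iff_exists_int.1 (mul_left_cancel₀ h0 e)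
  by_contra q
  have n0 : n ≠ 0 := fun z => q (by simp [z])
  have n1 : (1 : ℝ) ≤ |(n : ℝ)| := by exact_mod_cast Int.one_le_abs n0
  simp only [add_sub_cancel_left, norm_mul, Complex.norm_intCast, Complex.norm_I,
    Complex.norm_real, Complex.norm_ofNat, Real.norm_eq_abs, abs_of_pos Real.pi_pos] at hw
  nlinarith [Real.pi_gt_three]

lemma gg_norm (h : 0 < ρ) (hκ : κ ≠ .disc) : ‖gg κ ρ w‖ = ρ * Real.exp w.re := by
  rw [gg, if_neg hκ, norm_mul, Complex.norm_exp, Complex.norm_real, Real.norm_of_nonneg h.le]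

variable (a : CA S al)

lemma Y_eq (π : S.Prt) (q : C2) :
    a.Y (.inr π) q = a.s.e.E π (q.1, gg (a.s.e.κ π) a.r₃ q.2) :=
  (apply_ite (fun b => a.s.e.E π (q.1, b)) _ _ _).symm

/-- The domains of the charts lie in the edges. -/
lemma dom (hπ : S.cm π ∈ al) : ∀ᶠ t in A.l, ∀ w, (t, w) ∈ a.O 4 (.inr π) →
    gg (a.s.e.κ π) a.r₃ w ∈ De (a.s.e.κ π) (a.s.e.c π t) a.r₃ := by
  have r0 := a.r30
  have k : ∀ᶠ t in A.l, a.s.e.κ π = .neck → a.s.e.c π t ≠ 0 ∧ ‖a.s.e.c π t‖ ≤ a.r₃ ^ 8 :=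
    eventually_imp_distrib_left.2 fun h => ((c_ne (a.s.e.ise π hπ) h).mono fun _ q => q.2).and
      (c_le (a.s.e.ise π hπ) h (by positivity))
  filter_upwards [k] with t ht w ⟨_, hw⟩
  by_cases h : a.s.e.κ π = .disc
  · rw [if_pos h] at hw
    refine ⟨?_, fun e => by simp [h] at e⟩
    rw [gg, if_pos h, norm_mul, Complex.norm_real, Real.norm_of_nonneg r0.le]
    exact mul_le_of_le_one_right r0.le (hw.trans (by norm_num))
  rw [if_neg h] at hw
  refine ⟨?_, fun e => ?_⟩ <;> rw [gg_norm r0 h]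
  · exact mul_le_of_le_one_right r0.le (Real.exp_le_one_iff.2 (hw.1.trans (by norm_num)))
  obtain ⟨c0, c1⟩ := ht e
  have c2 := Real.log_le_log (norm_pos_iff.2 c0) c1
  have c3 := hw.2 e
  rw [Real.log_pow] at c2
  rw [← Real.exp_log (norm_pos_iff.2 c0), ← Real.exp_log r0, ← Real.exp_add, ← Real.exp_add]
  refine Real.exp_le_exp.2 ?_
  push_cast at c2
  dsimp only at c3
  linarith

lemma edge_lc (hπ : S.cm π ∈ al) : ∀ᶠ t in A.l, ∀ w, (t, w) ∈ a.O 4 (.inr π) →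
    A.LZ (a.Y (.inr π)) (t, w) ∧ (∀ l, A.cf (a.Y (.inr π)) (t, w) l =
      gd (a.s.e.κ π) a.r₃ w ^ A.m * A.cf (a.s.e.E π) (t, gg (a.s.e.κ π) a.r₃ w) l) ∧
      ∀ w', (t, w') ∈ a.O 4 (.inr π) → ‖w - w'‖ ≤ 2 →
        a.Y (.inr π) (t, w) = a.Y (.inr π) (t, w') → w = w' := by
  filter_upwards [dom a hπ, (a.s.e.ise π hπ).lc _ a.r3r] with t h1 h2 w hw
  obtain ⟨b1, b2, b3⟩ := h2 _ (h1 w hw)
  obtain ⟨k1, k2⟩ := comp2 (φ := fun q => gg (a.s.e.κ π) a.r₃ q.2) b1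
    (gg_an.comp_of_eq analyticAt_snd rfl) gg_der (gd_ne a.r30) (Y_eq a π)
  refine ⟨⟨k1, ?_⟩, k2, fun w' hw' n e => gg_inj a.r30 n (b3 _ (h1 w' hw') ?_)⟩
  · rw [Y_eq]
    refine b2.2 fun e => norm_pos_iff.1 ?_
    rw [gg_norm a.r30 (by simp [e])]
    exact mul_pos a.r30 (Real.exp_pos _)
  · rwa [Y_eq, Y_eq] at e

lemma tube_lc {y : M} (hy : y ∈ a.F) : ∀ᶠ C in (atTop : Filter ℝ), ∀ᶠ t in A.l, ∀ j w,
    (t, w) ∈ a.O 4 (.inl (y, j)) → A.LZ (a.Y (.inl (y, j))) (t, w) ∧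
      (∀ l, ‖A.cf (a.Y (.inl (y, j))) (t, w) l‖ ≤ C) ∧ ∀ w', (t, w') ∈ a.O 4 (.inl (y, j)) →
        a.Y (.inl (y, j)) (t, w) = a.Y (.inl (y, j)) (t, w') → w = w' := by
  have r0 := S.rad0 _ y (a.hF y hy).2
  have r1 : (S.rad y : ℂ) ≠ 0 := by simpa using r0.ne'
  obtain ⟨B, hB⟩ := S.Tlc _ y (a.hF y hy).2
  have m : ∀ w : ℂ, ‖w‖ ≤ (3 + 4) / 8 → S.rad y * w ∈ ball (0 : ℂ) (S.rad y) := fun w hw => by
    rw [mem_ball_zero_iff, norm_mul, Complex.norm_real, Real.norm_of_nonneg r0.le]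
    exact mul_lt_of_lt_one_right r0 (hw.trans_lt (by norm_num))
  filter_upwards [eventually_ge_atTop (‖(S.rad y : ℂ) ^ A.m‖ * B)] with C hC
  filter_upwards [hB] with t ht j w ⟨_, h1, h2⟩
  obtain ⟨b1, b2, b3⟩ := ht j h1 _ (m w h2)
  obtain ⟨k1, k2⟩ := comp2 (Y' := a.Y (.inl (y, j))) (φ := fun q => S.rad y * q.2) b1.1
    (analyticAt_const.mul analyticAt_snd)
    (by simpa using (hasDerivAt_id w).const_mul (S.rad y : ℂ)) r1 fun _ => rfl
  refine ⟨⟨k1, b1.2⟩, fun l => ?_,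
    fun w' hw' e => mul_left_cancel₀ r1 (b3 j h1 _ (m w' hw'.2.2) e).2⟩
  rw [k2, norm_mul]
  exact (mul_le_mul_of_nonneg_left (b2 l) (norm_nonneg _)).trans hC

lemma scl (hπ : S.cm π ∈ al) : ∀ᶠ t in A.l, ∀ y, (t, y) ∈ A.Z → ∀ᶠ B in (atTop : Filter ℝ),
    ∀ᶠ x in 𝓝 (t, y), ∀ w, (x.1, w) ∈ a.O 3 (.inr π) → x.2 = a.Y (.inr π) (x.1, w) →
      a.sc (.inr π) (x.1, w) ≤ B := by
  have r0 := a.r30
  have hE := a.s.e.ise π hπ
  cases h : a.s.e.κ π with
  | disc =>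
    exact .of_forall fun t y _ => (eventually_ge_atTop 1).mono fun B q =>
      .of_forall fun x w _ _ => (if_pos h).trans_le q
  | neck =>
    have h' : a.s.e.κ π ≠ .disc := by simp [h]
    filter_upwards [c_ne hE h] with t ⟨c1, c0⟩ y _
    have k : Tendsto (fun x : ℂ × M => -Real.log ‖a.s.e.c π x.1‖) (𝓝 (t, y))
        (𝓝 (-Real.log ‖a.s.e.c π t‖)) :=
      ((c1.continuousAt.norm.log (norm_ne_zero_iff.2 c0)).neg).tendsto.comp continuousAt_fst
    filter_upwards [eventually_ge_atTop (1 + (11 + 3) / 20 * (-Real.log ‖a.s.e.c π t‖ + 1))]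
      with B hB
    filter_upwards [k.eventually (ge_mem_nhds (lt_add_one _))] with x hx w ⟨_, hw⟩ _
    rw [if_neg h'] at hw
    have := hw.2 h
    refine (if_neg h').trans_le ?_
    dsimp only at this ⊢
    linarith
  | cusp =>
    have h' : a.s.e.κ π ≠ .disc := by simp [h]
    filter_upwards [hE.lc _ a.r3r] with t ht y hy
    obtain ⟨b1, b2, -⟩ := ht 0 ⟨by simpa using r0.le, fun e => by simp [h] at e⟩
    have n : y ≠ a.s.e.E π (t, 0) := fun e => b2.1 (e ▸ hy) h rfl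
    have k1 : Tendsto (fun q : (ℂ × M) × ℂ => q.1.2) (𝓝 ((t, y), 0)) (𝓝 y) :=
      Continuous.tendsto' (by fun_prop) _ _ rfl
    have k2 : Tendsto (fun q : (ℂ × M) × ℂ => (q.1.1, q.2)) (𝓝 ((t, y), 0)) (𝓝 (t, 0)) :=
      Continuous.tendsto' (by fun_prop) _ _ rfl
    have k := (k1.dist ((A.cont _ _ b1).tendsto.comp k2)).eventually_ne (dist_ne_zero.2 n)
    rw [nhds_prod_eq] at k
    obtain ⟨p1, e1, p2, e2, e3⟩ := eventually_prod_iff.1 k
    obtain ⟨δ, δ0, hδ⟩ := Metric.eventually_nhds_iff.1 e2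
    filter_upwards [eventually_ge_atTop (1 - Real.log (δ / a.r₃))] with B hB
    filter_upwards [e1] with x hx w _ e
    refine (if_neg h').trans_le (le_trans (sub_le_sub_left ?_ 1) hB)
    rw [Real.log_le_iff_le_exp (by positivity), div_le_iff₀' r0, ← gg_norm r0 h']
    refine le_of_not_gt fun q => e3 hx (hδ (by simpa using q)) ?_
    rw [Y_eq] at e
    exact dist_eq_zero.2 e

/-! ### The bound -/

/-- The forms are bounded on a circle where the chart matches a port. -/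
lemma circ (hΦ : PhiStmt) (h0 : 0 < ρ) (h1 : ρ < r) (h2 : r ≤ S.r₀)
    (hM : ∀ r₁ r', 0 < r₁ → r' < r → Mt A.l Y (S.P π) id (An r₁ r'))
    (hY : ∀ r₁ r', 0 < r₁ → r' < r → ∀ᶠ t in A.l, ∀ ξ ∈ An r₁ r', A.LC Y (t, ξ)) :
    ∀ᶠ B in (atTop : Filter ℝ), ∀ᶠ t in A.l, ∀ ξ, ‖ξ‖ = ρ → ∀ l, ‖A.cf Y (t, ξ) l‖ ≤ B := by
  obtain ⟨ho, -, h⟩ := hΦ M A
  obtain ⟨η, η0, e1, e2⟩ : ∃ η : ℝ, 0 < η ∧ 3 * η ≤ ρ ∧ ρ + 3 * η ≤ r :=
    ⟨min ρ (r - ρ) / 3, by have := lt_min h0 (sub_pos.2 h1); positivity,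
      by linarith [min_le_left ρ (r - ρ)], by linarith [min_le_right ρ (r - ρ)]⟩
  have nb : ∀ (ξ w : ℂ) (δ : ℝ), w ∈ ball ξ δ → ‖ξ‖ - δ < ‖w‖ ∧ ‖w‖ < ‖ξ‖ + δ := fun ξ w δ k => by
    have := abs_lt.1 ((abs_norm_sub_norm_le w ξ).trans_lt (mem_ball_iff_norm.1 k))
    constructor <;> linarith [this.1, this.2]
  have op : IsOpen {ξ : ℂ | ρ - η < ‖ξ‖ ∧ ‖ξ‖ < ρ + η} :=
    (isOpen_lt continuous_const continuous_norm).inter (isOpen_lt continuous_norm continuous_const)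
  have hP := S.Plc η η0
  obtain ⟨Φ, p1, -⟩ := h Y (S.P π) id _ (An η (ρ + 2 * η)) η η0 op
    (fun δ hδ => (hM (ρ - η) (ρ + η) (by linarith) (by linarith) δ hδ).mono
      fun t k ξ hξ => k ξ ⟨hξ.1.le, hξ.2.le⟩)
    ((hY (ρ - η) (ρ + η) (by linarith) (by linarith)).mono fun t k ξ hξ => k ξ ⟨hξ.1.le, hξ.2.le⟩)
    (hP.mono fun t k w hw => ⟨(k π w hw.1 (by linarith [hw.2])).1.1, fun w' hw' e =>
      ((k π w hw.1 (by linarith [hw.2])).2.2 π w' hw'.1 (by linarith [hw'.2]) e).2⟩)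
    fun ξ k w hw => by
      have := nb ξ w η hw
      exact ⟨by linarith [k.1, this.1], by linarith [k.2, this.2]⟩
  obtain ⟨T, t1, t2, t3⟩ := ho _ p1
  filter_upwards [eventually_ge_atTop ((r / (η / 2)) ^ A.m * (S.B / η ^ A.m))] with B hB
  filter_upwards [t1, hP] with t ht k ξ hξ l
  have inK : ∀ z ∈ closedBall ξ (η / 2), z ∈ {ξ : ℂ | ρ - η < ‖ξ‖ ∧ ‖ξ‖ < ρ + η} := fun z hz =>
    hξ ▸ nb ξ z η (closedBall_subset_ball (half_lt_self η0) hz)
  have m := inK ξ (mem_closedBall_self (half_pos η0).le)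
  obtain ⟨a1, a2, a3, -⟩ := t3 ht ξ m
  obtain ⟨b1, b2, -⟩ := k π _ a3.1 (by linarith [a3.2])
  have ev : ∀ᶠ q in 𝓝 ((t, ξ) : C2), Y q = S.P π (q.1, Φ q) := by
    filter_upwards [(t2.prod op).mem_nhds (show ((t, ξ) : C2) ∈ T ×ˢ _ from ⟨ht, m⟩)] with q hq
    exact (t3 hq.1 q.2 hq.2).2.2.2
  have d1 : ‖dw Φ (t, ξ)‖ ≤ r / (η / 2) := by
    rw [← (dw_at a1).deriv]
    refine Complex.norm_deriv_le_of_forall_mem_sphere_norm_le (half_pos η0)
      (DifferentiableOn.diffContOnCl fun z hz => ?_) fun z hz => ?_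
    · exact (sl_an (t3 ht z (inK z (closure_ball_subset_closedBall hz))).1
        ).differentiableAt.differentiableWithinAt
    · linarith [(t3 ht z (inK z (sphere_subset_closedBall hz))).2.2.1.2]
  have d2 : ‖A.cf (S.P π) (t, Φ (t, ξ)) l‖ ≤ S.B / η ^ A.m := by
    rw [le_div_iff₀' (by positivity)]
    refine le_trans ?_ (b2 l)
    rw [norm_mul, norm_pow]
    exact mul_le_mul_of_nonneg_right (pow_le_pow_left₀ η0.le a3.1 _) (norm_nonneg _)
  rw [(A.comp _ Y (t, ξ) Φ b1.1 a1 a2 ev).2 l, norm_mul, norm_pow]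
  exact (mul_le_mul (pow_le_pow_left₀ (norm_nonneg _) d1 _) d2 (norm_nonneg _)
    (pow_nonneg ((norm_nonneg _).trans d1) _)).trans hB

/-- The maximum principle on the domain of an edge. -/
lemma maxp {f : ℂ → ℂ} (hf : ∀ z ∈ De κ x ρ, AnalyticAt ℂ f z)
    (h1 : ∀ z ∈ De κ x ρ, ‖z‖ = ρ → ‖f z‖ ≤ B)
    (h2 : κ = .neck → ∀ z ∈ De κ x ρ, ‖x‖ = ρ * ‖z‖ → ‖f z‖ ≤ B) (hw : w ∈ De κ x ρ) :
    ‖f w‖ ≤ B := by
  have cl : IsClosed (De κ x ρ) := (isClosed_le continuous_norm continuous_const).inter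
    (isClosed_imp isOpen_const (isClosed_le continuous_const (by fun_prop)))
  refine Complex.norm_le_of_forall_mem_frontier_norm_le (U := De κ x ρ)
    (isBounded_closedBall.subset fun z hz => mem_closedBall_zero_iff.2 hz.1)
    (DifferentiableOn.diffContOnCl fun z hz =>
      (hf z (cl.closure_subset hz)).differentiableAt.differentiableWithinAt)
    (fun z hz => ?_) (subset_closure hw)
  have m := cl.closure_subset hz.1
  by_contra q
  refine hz.2 (mem_interior_iff_mem_nhds.2 (Eventually.and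
    (continuous_norm.continuousAt.eventually (ge_mem_nhds (m.1.lt_of_ne fun e => q (h1 z m e))))
    (eventually_imp_distrib_left.2 fun h => ?_)))
  exact (by fun_prop : Continuous fun z : ℂ => ρ * ‖z‖).continuousAt.eventually
    (le_mem_nhds ((m.2 h).lt_of_ne fun e => q (h2 h z m e)))

lemma inner (hc : AnalyticAt ℂ c t) (c0 : c t ≠ 0) (h0 : ξ ≠ 0) (h : A.LC E (t, c t / ξ)) :
    A.LC (fun q => E (q.1, c q.1 / q.2)) (t, ξ) ∧ ∀ l, A.cf (fun q => E (q.1, c q.1 / q.2)) (t, ξ) l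
      = (c t * -(ξ ^ 2)⁻¹) ^ A.m * A.cf E (t, c t / ξ) l :=
  comp2 (φ := fun q => c q.1 / q.2) h ((hc.comp_of_eq analyticAt_fst rfl).div analyticAt_snd h0)
    ((hasDerivAt_inv h0).const_mul (c t))
    (mul_ne_zero c0 (neg_ne_zero.2 (inv_ne_zero (pow_ne_zero _ h0)))) fun _ => rfl

/-- The bound on the inner circle of a neck. -/
lemma neck (hΦ : PhiStmt) (h0 : 0 < ρ) (h1 : ρ < r) (h2 : r ≤ S.r₀)
    (hE : IsE A κ E c r P (S.P π)) (h : κ = .neck) : ∀ᶠ B in (atTop : Filter ℝ), ∀ᶠ t in A.l,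
      ∀ z ∈ De κ (c t) ρ, ‖c t‖ = ρ * ‖z‖ → ∀ l, ‖z ^ A.m * A.cf E (t, z) l‖ ≤ B := by
  obtain ⟨B, hB⟩ := (circ hΦ h0 h1 h2 (hE.inn h) fun r₁ r' k0 k1 => by
    rcases lt_or_ge r' r₁ with k | k
    · exact .of_forall fun t ξ q => absurd (q.1.trans q.2) k.not_ge
    filter_upwards [hE.lc r' k1, c_ne hE h, c_le hE h (mul_pos (k0.trans_le k) k0)]
      with t a1 a2 a3 ξ q
    have x0 : 0 < ‖ξ‖ := k0.trans_le q.1
    refine (inner a2.1 a2.2 (norm_pos_iff.1 x0) (a1 _ ⟨?_, fun _ => ?_⟩).1).1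
    · rw [norm_div, div_le_iff₀ x0]
      exact a3.trans (mul_le_mul_of_nonneg_left q.1 (k0.trans_le k).le)
    · rw [norm_div, mul_div_assoc', le_div_iff₀ x0, mul_comm]
      exact mul_le_mul_of_nonneg_right q.2 (norm_nonneg _)).exists
  filter_upwards [eventually_ge_atTop (ρ ^ A.m * B)] with C hC
  filter_upwards [hB, hE.lc ρ h1, c_ne hE h] with t a1 a2 a3 z hz e l
  have z0 : z ≠ 0 := fun q => a3.2 (by simpa [q] using e)
  have x0 : c t / z ≠ 0 := div_ne_zero a3.2 z0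
  have e1 : c t / (c t / z) = z := div_div_cancel₀ a3.2
  have e2 : ‖c t / z‖ = ρ := by rw [norm_div, e, mul_div_cancel_right₀ _ (norm_ne_zero_iff.2 z0)]
  have k := a1 _ e2 l
  rw [(inner a3.1 a3.2 x0 (e1.symm ▸ (a2 z hz).1)).2, e1] at k
  have e3 : z = -(c t / z) * (c t * -((c t / z) ^ 2)⁻¹) := by
    have := a3.2
    field_simp
  refine le_trans (le_of_eq ?_) ((mul_le_mul_of_nonneg_left k (pow_nonneg h0.le A.m)).trans hC)
  rw [← e2, ← norm_neg (c t / z), ← norm_pow, ← norm_mul, ← mul_assoc, ← mul_pow, ← e3]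

/-- The bound on an edge. -/
lemma edge (hΦ : PhiStmt) (h0 : 0 < ρ) (h1 : ρ < r) (h2 : r ≤ S.r₀)
    (hE : IsE A κ E c r (S.P π) (S.P π')) : ∀ᶠ B in (atTop : Filter ℝ), ∀ᶠ t in A.l,
      ∀ w, gg κ ρ w ∈ De κ (c t) ρ → ∀ l, ‖gd κ ρ w ^ A.m * A.cf E (t, gg κ ρ w) l‖ ≤ B := by
  obtain ⟨B, hB⟩ := (circ hΦ h0 h1 h2 hE.out fun r₁ r' k0 k1 => by
    rcases lt_or_ge r' r₁ with k | k
    · exact .of_forall fun t ξ q => absurd (q.1.trans q.2) k.not_ge
    filter_upwards [hE.lc r' k1, eventually_imp_distrib_left.2 fun h =>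
      c_le hE h (mul_pos (k0.trans_le k) k0)] with t a1 a2 ξ q
    exact (a1 ξ ⟨q.2, fun h => (a2 h).trans
      (mul_le_mul_of_nonneg_left q.1 (k0.trans_le k).le)⟩).1).exists
  have dp : ∀ᶠ t in A.l, A.M₀ < A.σ * t.re := tendsto_comap.eventually (eventually_gt_atTop _)
  filter_upwards [eventually_ge_atTop (ρ ^ A.m * B),
    eventually_imp_distrib_left.2 (neck hΦ h0 h1 h2 hE)] with C hC hN
  filter_upwards [hB, hE.lc ρ h1, dp, eventually_imp_distrib_left.2 hN] with t a1 a2 a3 a4 w hw l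
  have an : ∀ z ∈ De κ (c t) ρ, (κ = .cusp → z ≠ 0) → AnalyticAt ℂ (fun z => A.cf E (t, z) l) z :=
    fun z hz q => sl_an (G := fun q => A.cf E q l) (A.an E _ (a2 z hz).1 ((a2 z hz).2.1.2 q) l)
  have bd : ∀ z y : ℂ, ‖z‖ = ρ → ‖y‖ = ρ → ‖y ^ A.m * A.cf E (t, z) l‖ ≤ C := fun z y q q' => by
    rw [norm_mul, norm_pow, q']
    exact (mul_le_mul_of_nonneg_left (a1 z q l) (pow_nonneg h0.le _)).trans hC
  cases κ with
  | disc =>
    exact maxp (f := fun z => (ρ : ℂ) ^ A.m * A.cf E (t, z) l)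
      (fun z hz => analyticAt_const.mul (an z hz (by simp)))
      (fun z _ q => bd z _ q (by simp [h0.le])) (by simp) hw
  | neck =>
    exact maxp (f := fun z => z ^ A.m * A.cf E (t, z) l)
      (fun z hz => (analyticAt_id.pow _).mul (an z hz (by simp)))
      (fun z _ q => bd z z q q) (fun h z hz q => a4 h z hz q l) hw
  | cusp =>
    obtain ⟨f, hf⟩ : ∃ f : ℂ → ℂ, f = fun z => z ^ A.m * A.cf E (t, z) l := ⟨_, rfl⟩
    have fa : ∀ z ∈ De .cusp (c t) ρ, z ≠ 0 → AnalyticAt ℂ f z := fun z hz q =>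
      hf ▸ (analyticAt_id.pow _).mul (an z hz fun _ => q)
    have nb : ∀ᶠ z in 𝓝[≠] (0 : ℂ), z ∈ De .cusp (c t) ρ ∧ z ≠ 0 :=
      Eventually.and (nhdsWithin_le_nhds (mem_of_superset (closedBall_mem_nhds 0 h0)
        fun z hz => ⟨mem_closedBall_zero_iff.1 hz, by simp⟩)) self_mem_nhdsWithin
    obtain ⟨K, hK⟩ := A.pole E t a3 (a2 0 ⟨by simpa using h0.le, by simp⟩).1
      (nb.mono fun z q => (a2 z q.1).2.1.2 fun _ => q.2)
    have lm := Complex.tendsto_limUnder_of_differentiable_on_punctured_nhds_of_bounded_under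
      (nb.mono fun z q => (fa z q.1 q.2).differentiableAt)
      (isBoundedUnder_of_eventually_le (a := K + ‖f 0‖) (hK.mono fun z q =>
        (norm_sub_le _ _).trans (add_le_add_left (hf ▸ q l) _)))
    have ua : ∀ z ∈ De .cusp (c t) ρ, z ≠ 0 →
        AnalyticAt ℂ (Function.update f 0 (limUnder (𝓝[≠] 0) f)) z := fun z hz q =>
      (fa z hz q).congr ((eventually_ne_nhds q).mono fun y e => (Function.update_of_ne e _ _).symm)
    have w0 : gg .cusp ρ w ≠ 0 := gd_ne (κ := .cusp) h0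
    have k := maxp (B := C) (f := Function.update f 0 (limUnder (𝓝[≠] 0) f)) (fun z hz => by
      by_cases q : z = 0
      · rw [q]
        exact Complex.analyticAt_of_differentiable_on_punctured_nhds_of_continuousAt
          (nb.mono fun z q => (ua z q.1 q.2).differentiableAt) (continuousAt_update_same.2 lm)
      · exact ua z hz q) (fun z _ q => by
        rw [Function.update_of_ne (norm_pos_iff.1 (q ▸ h0)), hf]
        exact bd z z q q) (by simp) hw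
    rwa [Function.update_of_ne w0, hf] at k

end LcX

open LcX in
theorem lcS : LcOf := by
  intro _ M _ A S al a
  constructor
  · obtain ⟨C, hC⟩ := (a.F.eventually_all.2 fun y hy => tube_lc a hy).exists
    filter_upwards [a.F.eventually_all.2 hC, eventually_all.2 fun π =>
      eventually_imp_distrib_left.2 (edge_lc a (π := π))] with t h1 h2 i w hw
    rcases i with ⟨y, j⟩ | π
    · exact ⟨(h1 y hw.1 j w hw).1, fun w' q _ => (h1 y hw.1 j w hw).2.2 w' q⟩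
    · exact ⟨(h2 π hw.1 w hw).1, (h2 π hw.1 w hw).2.2⟩
  · filter_upwards [eventually_all.2 fun π => eventually_imp_distrib_left.2 (scl a (π := π))]
      with t ht y hy
    obtain ⟨B, b1, b2⟩ := ((eventually_ge_atTop 1).and (eventually_all.2 fun π =>
      eventually_imp_distrib_left.2 fun h => ht π h y hy)).exists
    refine ⟨B, ?_⟩
    filter_upwards [eventually_all.2 fun π => eventually_imp_distrib_left.2 (b2 π)]
      with x hx i w hw e
    rcases i with y | π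
    · exact b1
    · exact hx π hw.1 w hw e

open LcX in
theorem bdS : BdOf := by
  intro hΦ M _ A S al a
  obtain ⟨C, c1, c2⟩ := ((a.F.eventually_all.2 fun y hy => tube_lc a hy).and
    (eventually_all.2 fun π => eventually_imp_distrib_left.2 fun h : S.cm π ∈ al =>
      edge hΦ a.r30 a.r3r a.s.rr (a.s.e.ise π h))).exists
  refine ⟨C, ?_⟩
  filter_upwards [a.F.eventually_all.2 c1, eventually_all.2 fun π =>
    eventually_imp_distrib_left.2 fun h : S.cm π ∈ al =>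
      (c2 π h).and ((edge_lc a h).and (dom a h))] with t h1 h2 i w hw l
  rcases i with ⟨y, j⟩ | π
  · exact (h1 y hw.1 j w hw).2.1 l
  · obtain ⟨k1, k2, k3⟩ := h2 π hw.1
    rw [(k2 w hw).2.1 l]
    exact k1 w (k3 w hw) l

end Pool.Agent.MP_c69980_ag.G3
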