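import Pool.Agent.MP_c69980_ag.G3.SpecI
import Pool.Agent.MP_c69980_ag.G3.SLift

/-!
Boxes in the atlas of a state, and lifts of slow sections.
-/

set_option autoImplicit false

noncomputable section

namespace Pool.Agent.MP_c69980_ag.G3

open Metric Filter Topology Set

namespace LiftX

variable {M : Type} [MetricSpace M] {A : Amb M}

/-- Large discs near the end. -/
lemma half {p : ℂ → Prop} (h : ∀ᶠ t in A.l, p t) :
    ∀ᶠ t in A.l, 0 < A.dp t ∧ ∀ z ∈ ball t (A.dp t / 2), p z := by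
  obtain ⟨b, hb⟩ := eventually_atTop.1 (eventually_comap.1 h)
  refine eventually_comap.2 (eventually_atTop.2 ⟨2 * |b| + 1, fun x hx t ht => ?_⟩)
  have b0 := abs_nonneg b
  have b1 := le_abs_self b
  refine ⟨by rw [ht]; linarith, fun z hz => hb _ ?_ z rfl⟩
  have h1 : |(z - t).re| ≤ ‖z - t‖ := Complex.abs_re_le_norm _
  have h2 : ‖z - t‖ < A.dp t / 2 := mem_ball_iff_norm.1 hz
  rw [Complex.sub_re] at h1
  have h3 := abs_le.1 h1
  unfold Amb.dp at ht h2 ⊢
  rcases A.hσ with e | e <;> rw [e] at ht h2 ⊢ <;> linarith [h3.1, h3.2]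

/-- Harnack's inequality near the centre. -/
lemma harn {c : ℂ → ℂ} {t t' : ℂ} {r : ℝ} (hr : 0 < r)
    (hc : ∀ z ∈ ball t r, AnalyticAt ℂ c z ∧ c z ≠ 0 ∧ ‖c z‖ < 1) (ht : ‖t' - t‖ ≤ r / 100) :
    97 / 99 * -Real.log ‖c t‖ ≤ -Real.log ‖c t'‖ := by
  obtain ⟨F, h1, h2⟩ := InnerProductSpace.HarmonicOnNhd.exists_analyticOnNhd_ball_re_eq
    (f := fun z => Real.log ‖c z‖) (z := t) (R := r)
    fun z hz => (hc z hz).1.harmonicAt_log_norm (hc z hz).2.1
  have neg : ∀ z ∈ ball t r, (F z).re < 0 := fun z hz => by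
    have e : (F z).re = Real.log ‖c z‖ := h2 hz
    rw [e]
    exact Real.log_neg (norm_pos_iff.2 (hc z hz).2.1) (hc z hz).2.2
  have mb : ∀ y ∈ ball (0 : ℂ) r, t + y ∈ ball t r := fun y hy => by
    rw [mem_ball_iff_norm, add_sub_cancel_left]
    exact mem_ball_zero_iff.1 hy
  have m0 : t ∈ ball t r := mem_ball_self hr
  have m1 : t' ∈ ball t r := mem_ball_iff_norm.2 (by linarith)
  have L0 : 0 < -(F t).re := by linarith [neg t m0]
  have key := Complex.borelCaratheodory_zero (f := fun y => F (t + y) - F t) (z := t' - t) L0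
    (fun y hy => (((h1 _ (mb y hy)).differentiableAt.comp y
      ((differentiableAt_const t).add differentiableAt_id)).sub_const _).differentiableWithinAt)
    (fun y hy => by
      show (F (t + y) - F t).re ≤ -(F t).re
      rw [Complex.sub_re]
      linarith [neg _ (mb y hy)]) hr (mem_ball_zero_iff.2 (by linarith)) (by simp)
  have e0 : (F t).re = Real.log ‖c t‖ := h2 m0
  have e1 : (F t').re = Real.log ‖c t'‖ := h2 m1
  rw [← e0, ← e1]
  have e2 : t + (t' - t) = t' := by ring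
  simp only [e2] at key
  have h3 : (F t' - F t).re ≤ ‖F t' - F t‖ := Complex.re_le_norm _
  rw [Complex.sub_re] at h3
  have h4 : 2 * -(F t).re * ‖t' - t‖ / (r - ‖t' - t‖) ≤ 2 / 99 * -(F t).re := by
    rw [div_le_iff₀ (by linarith)]
    nlinarith [mul_le_mul_of_nonneg_left ht L0.le]
  linarith

variable {S : Sk A} {al : Finset S.Cmp} (a : CA S al)

lemma sc1 {i : (M × ℕ) ⊕ S.Prt} {p : C2} (h : p ∈ a.O 2 i) : 1 ≤ a.sc i p := by
  rcases i with x | π
  · exact le_rfl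
  · obtain ⟨-, h⟩ := h
    by_cases e : a.s.e.κ π = .disc
    · simp [CA.sc, e]
    · rw [if_neg e] at h
      simp only [CA.sc, if_neg e]
      linarith [h.1]

lemma o34 {i : (M × ℕ) ⊕ S.Prt} {p : C2} (h : p ∈ a.O 3 i) : p ∈ a.O 4 i := by
  rcases i with x | π
  · exact ⟨h.1, h.2.1, h.2.2.trans (by norm_num)⟩
  · obtain ⟨h0, h⟩ := h
    refine ⟨h0, ?_⟩
    by_cases e : a.s.e.κ π = .disc
    · rw [if_pos e] at h ⊢
      exact h.trans (by norm_num)
    · rw [if_neg e] at h ⊢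
      refine ⟨h.1.trans (by norm_num), fun q => ?_⟩
      have h1 := h.1
      have h2 := h.2 q
      linarith

lemma necks : ∀ᶠ t in A.l, ∀ π, S.cm π ∈ al → a.s.e.κ π = .neck →
    AnalyticAt ℂ (a.s.e.c π) t ∧ a.s.e.c π t ≠ 0 ∧ ‖a.s.e.c π t‖ < 1 := by
  refine eventually_all.2 fun π => ?_
  by_cases h1 : S.cm π ∈ al
  · by_cases h2 : a.s.e.κ π = .neck
    · obtain ⟨q1, K, q2⟩ := (a.s.e.ise π h1).cc h2
      filter_upwards [q2, q1.eventually (ball_mem_nhds (0 : ℂ) one_pos)] with t u1 u2 _ _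
      exact ⟨u1.1, norm_pos_iff.1 ((Real.exp_pos _).trans_le u1.2), mem_ball_zero_iff.1 u2⟩
    · exact Eventually.of_forall fun _ _ q => absurd q h2
  · exact Eventually.of_forall fun _ q => absurd q h1

/-- The boxes. -/
lemma box : ∀ᶠ t in A.l, ∀ i w t' w', (t, w) ∈ a.O 2 i →
    ‖t' - t‖ ≤ 1 / 200 * A.dp t → ‖w' - w‖ ≤ 1 / 200 * a.sc i (t, w) → (t', w') ∈ a.O 3 i ∧
      a.sc i (t', w') ≤ 2 * a.sc i (t, w) ∧ a.sc i (t, w) ≤ 2 * a.sc i (t', w') := by
  filter_upwards [half (necks a)] with t ⟨d0, hn⟩ i w t' w' h ht hw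
  have tri : ‖w'‖ ≤ ‖w' - w‖ + ‖w‖ := norm_le_norm_sub_add _ _
  rcases i with x | π
  · obtain ⟨h1, h2, h3⟩ := h
    simp only [CA.sc] at hw ⊢
    refine ⟨⟨h1, h2, ?_⟩, by norm_num, by norm_num⟩
    simp only at h3 ⊢
    linarith
  · obtain ⟨h0, h⟩ := h
    by_cases e : a.s.e.κ π = .disc
    · rw [if_pos e] at h
      simp only [CA.sc, if_pos e] at hw ⊢
      refine ⟨⟨h0, ?_⟩, by norm_num, by norm_num⟩
      rw [if_pos e]
      simp only at h ⊢
      linarith
    · rw [if_neg e] at h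
      simp only [CA.sc, if_neg e] at hw ⊢
      have h1 : |(w' - w).re| ≤ ‖w' - w‖ := Complex.abs_re_le_norm _
      rw [Complex.sub_re] at h1
      obtain ⟨h2, h3⟩ := abs_le.1 h1
      obtain ⟨h4, h5⟩ := h
      simp only at h4 h5
      refine ⟨⟨h0, ?_⟩, by linarith, by linarith⟩
      rw [if_neg e]
      refine ⟨by simp only; linarith, fun q => ?_⟩
      have h6 := h5 q
      have h7 := harn (half_pos d0) (fun z hz => hn z hz π h0 q) (t' := t') (by linarith)
      simp only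
      linarith

end LiftX

open LiftX

theorem liftS : LiftOf := by
  intro _ hC M _ A S al a
  refine ⟨⟨1 / 200, by norm_num, box a⟩, fun hL => ⟨1 / 800, by norm_num, by norm_num, ?_⟩⟩
  filter_upwards [box a, half hL] with t₁ hb ⟨d0, hl⟩ i w₁ s R B h R0 hR B0 hB hs h0 hp
  have σ1 := sc1 a h
  have bx : ∀ z ∈ ball t₁ R, ∀ w ∈ closedBall w₁ (a.sc i (t₁, w₁) / 200), (z, w) ∈ a.O 3 i ∧
      a.sc i (z, w) ≤ 2 * a.sc i (t₁, w₁) ∧ a.sc i (t₁, w₁) ≤ 2 * a.sc i (z, w) :=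
    fun z hz w hw => hb i w₁ z w h (by linarith [mem_ball_iff_norm.1 hz])
      (by linarith [mem_closedBall_iff_norm.1 hw])
  generalize a.sc i (t₁, w₁) = σ at σ1 bx ⊢
  have hm : Hm A (ball t₁ R) (fun z => z) s := fun z hz =>
    ⟨continuousAt_id, A.hsc s z (hs z hz).1, fun Y w q1 q2 => A.lift s Y z w (hs z hz).1 q1 q2⟩
  have σ2 : σ / 400 < σ / 200 := by linarith
  have sub : closedBall w₁ (σ / 400) ⊆ closedBall w₁ (σ / 200) :=
    closedBall_subset_closedBall σ2.le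
  have m0 : w₁ ∈ closedBall w₁ (σ / 400) := mem_closedBall_self (by linarith)
  obtain ⟨ω, o1, o2, o3⟩ := hC (fun z v => v ∈ closedBall w₁ (σ / 200) ∧ s z = a.Y i (z, v))
    (closedBall w₁ (σ / 400)) t₁ w₁ R R0 (isCompact_closedBall _ _) ⟨sub m0, h0⟩ m0
    (fun z hz v hv fr => SLiftX.graph hm hz
      (hl z (ball_subset_ball (by linarith) hz) i v (o34 a (bx z hz v (sub hv)).1)).1.1
      (mem_of_superset (isOpen_ball.mem_nhds (closedBall_subset_ball σ2 hv))
        ball_subset_closedBall) fr)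
    fun ρ ω l q1 q2 q3 z hz => by
      have s1 : ball t₁ ρ ⊆ ball t₁ R := ball_subset_ball l.le
      have bd : ∀ y ∈ ball t₁ ρ, ‖deriv ω y‖ ≤ B * (2 * σ) := fun y hy =>
        (hp y (s1 hy) i ω ⟨q1 y hy, (bx y (s1 hy) _ (q3 y hy).1).1,
          (isOpen_ball.eventually_mem hy).mono fun y' hy' => (q3 y' hy').2⟩).trans
          (mul_le_mul_of_nonneg_left (bx y (s1 hy) _ (q3 y hy).1).2.1 B0)
      have mv := (convex_ball t₁ ρ).norm_image_sub_le_of_norm_deriv_le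
        (fun y hy => (q1 y hy).differentiableAt) bd
        (mem_ball_self (dist_nonneg.trans_lt hz)) hz
      rw [q2] at mv
      have z1 : ‖z - t₁‖ ≤ R := (mem_ball_iff_norm.1 (s1 hz)).le
      have z2 : B * (2 * σ) * ‖z - t₁‖ ≤ B * (2 * σ) * R :=
        mul_le_mul_of_nonneg_left z1 (by positivity)
      have z3 : B * R * (2 * σ) ≤ 1 / 800 * (2 * σ) :=
        mul_le_mul_of_nonneg_right hB (by linarith)
      exact mem_closedBall_iff_norm.2 (by linarith)
  refine ⟨ω, o1, o2, fun t ht => ?_⟩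
  obtain ⟨⟨u1, u2⟩, -⟩ := o3 t ht
  obtain ⟨u3, u4, u5⟩ := bx t ht _ u1
  exact ⟨u3, u2, by linarith [mem_closedBall_iff_norm.1 u1], u4, u5⟩

end Pool.Agent.MP_c69980_ag.G3
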