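import Pool.Agent.MP_c69980_ag.G3.Defs
import Pool.Agent.MP_c69980_ag.E2.Spec

/-!
The family over an end, inside the space of projectors.
-/

set_option autoImplicit false

noncomputable section

namespace Pool.Agent.MP_c69980_ag.G3

open Metric Filter Topology Set
open scoped ComplexConjugate
open H60 H4 E1

variable {n : ℕ}

/-- The orthogonal projector onto the line through `y`. -/
def prj (y : V n) : Wg n := fun p => y p.1 * conj (y p.2) / (H4.sq y : ℂ)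

/-- The image of a cone. -/
def Im (X : Set (Pt n)) : Set (ℂ × Wg n) := (fun x => (x.1, prj x.2)) '' X

/-- `g` is an analytic lift of `Y` at `p`. -/
def Lt (Y : C2 → Wg n) (p : C2) (g : C2 → V n) : Prop :=
  AnalyticAt ℂ g p ∧ g p ≠ 0 ∧ ∀ᶠ q in 𝓝 p, Y q = prj (g q)

/-- Local charts of the fibres of `X`. -/
def LCc (X : Set (Pt n)) (Y : C2 → Wg n) (p : C2) : Prop :=
  ∃ g, Lt Y p g ∧ (∀ᶠ q in 𝓝 p, (q.1, g q) ∈ X) ∧ (p.1, g p) ∈ Rx X ∧ wg (g p) (dz g p) ≠ 0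

/-- Holomorphic sections of `X`. -/
def HSc (X : Set (Pt n)) (s : ℂ → Wg n) (t : ℂ) : Prop :=
  ∃ g : ℂ → V n, AnalyticAt ℂ g t ∧ g t ≠ 0 ∧ ∀ᶠ w in 𝓝 t, s w = prj (g w) ∧ (w, g w) ∈ X

/-- `A` is the family given by `X`, `U`, `Φ`. -/
structure IsAmb (A : Amb (Wg n)) (X : Set (Pt n)) (U : Set (PS n)) (m : ℕ)
    (Φ : Fin 3 → Pt n → V n → ℂ) : Prop where
  hm : A.m = m
  zb : A.Zb = Im X
  z : A.Z = Im (E2.Op X U)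
  lc : ∀ Y p, A.LC Y p ↔ LCc X Y p
  hs : ∀ s t, A.HS s t ↔ HSc X s t
  cf : ∀ Y p g, A.LC Y p → Lt Y p g → g p ∈ Cone U → ∀ l, A.cf Y p l = Φ l (p.1, g p) (dz g p)

/-- The hypotheses, all free of the base: they are fields or rows of the strip package at values
of depth more than `M₀`. -/
structure AH (X : Set (Pt n)) (W U : Set (PS n)) (m : ℕ) (Φ : Fin 3 → Pt n → V n → ℂ)
    (σ M₀ : ℝ) : Prop where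
  hσ : σ = 1 ∨ σ = -1
  M0 : 1 ≤ M₀
  m0 : 0 < m
  cn : Cn X
  cw : ∀ x ∈ X, x.2 ∈ Cone W
  eqp : E2.EqP W U
  an : ∀ a j O Y, Chart X a j O Y → ∀ p ∈ O, Y p ∈ Cone U → ∀ i, AnalyticAt ℂ (fc Φ Y i) p
  hom : ∀ a j O Y, Chart X a j O Y → ∀ p ∈ O, Y p ∈ Cone U → ∀ (c α β : ℂ) (i : Fin 3), c ≠ 0 →
    Φ i (p.1, c • Y p) (α • dz Y p + β • Y p) = (α / c) ^ m * fc Φ Y i p
  pole : ∀ a j O Y, Chart X a j O Y → ∀ p ∈ O, M₀ < σ * p.1.re → Y p ∉ Cone U →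
    ∃ (ζ : ℂ → ℂ) (φ : Fin 3 → ℂ × ℂ → ℂ), AnalyticAt ℂ ζ p.1 ∧ ζ p.1 = p.2 ∧
      (∀ i, AnalyticAt ℂ (φ i) p) ∧ ∀ᶠ q in 𝓝 p, (Y q ∈ Cone U ↔ q.2 ≠ ζ q.1) ∧
        (q.2 ≠ ζ q.1 → ∀ i, φ i q = (q.2 - ζ q.1) ^ m * fc Φ Y i q)
  vert : ∀ t : ℂ, M₀ < σ * t.re → ∀ a j O Y, Chart X a j O Y → ∀ c : Fin 3 → ℂ,
    {ζ | (t, ζ) ∈ O ∧ Y (t, ζ) ∈ Cone U ∧ ∃ κ : ℂ, ∀ l, fc Φ Y l (t, ζ) = κ * c l}.Finite
  hyp : ∀ t : ℂ, M₀ < σ * t.re → ∃ B : ℝ, ∀ (F : ℂ → V n) (c : ℂ) (r : ℝ), 0 < r →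
    Nm (E2.Op X U) (ball c r) F (fun _ => t) → lam F c * r ^ 2 ≤ B

/-- Projectors. -/
def PrjStmt : Prop := ∀ n : ℕ, (∀ y w : V n, y ≠ 0 → w ≠ 0 → (prj y = prj w ↔ Pp y w)) ∧
  (∀ y : V n, y ≠ 0 → ContinuousAt prj y) ∧
  (∀ y w : V n, y ≠ 0 → w ≠ 0 → dist (prj y) (prj w) ^ 2 ≤ 2 * d2 y w ∧
    2 * d2 y w ≤ (n : ℝ) ^ 2 * dist (prj y) (prj w) ^ 2) ∧
  ∀ y : V n, y ≠ 0 → ∃ ℓ : Wg n → V n, AnalyticAt ℂ ℓ (prj y) ∧ ℓ (prj y) = y ∧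
    ∀ w : V n, w ≠ 0 → ∃ c : ℂ, ℓ (prj w) = c • w

def AmbStmt : Prop := ∀ (n : ℕ) (X : Set (Pt n)) (W U : Set (PS n)) (m : ℕ)
  (Φ : Fin 3 → Pt n → V n → ℂ) (σ M₀ : ℝ), AH X W U m Φ σ M₀ →
  ∃ A : Amb (Wg n), A.σ = σ ∧ A.M₀ = M₀ ∧ IsAmb A X U m Φ

def AmbOf : Prop := PrjStmt → AmbStmt

end Pool.Agent.MP_c69980_ag.G3
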