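import Pool.Agent.MP_c69980_ag.G3S.SpecB
import Pool.Agent.MP_c69980_ag.G3G.SpecB
import Pool.Agent.MP_c69980_ag.H4.M1

/-!
The end atlas of a surface with a unit.
-/

set_option autoImplicit false

noncomputable section

namespace Pool.Agent.MP_c69980_ag.G3

open MvPolynomial Metric Filter Topology Set
open H60 H4 E1

def LinkStmt : Prop := ∀ (K : Type) [Field K] [Algebra ℂ K] (n : ℕ) (d : E2.G3S.Dat K n)
  (Φ : Fin 3 → Pt n → V n → ℂ) (σ M : ℝ), E2.G3S.KL d Φ → AH d.X d.W d.Uo d.m Φ σ M →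
  ∃ A : Amb (Wg n), A.σ = σ ∧ A.M₀ = M ∧ IsAmb A d.X d.Uo d.m Φ ∧ Nonempty (EA A)

namespace LinkX

variable {K : Type} [Field K] [Algebra ℂ K] {n : ℕ} {z : Fin n → K} {W : Set (PS n)} {y : V n}
  {g : K}

lemma reg (hz : GenPt W z) (hy : y ∈ Cone W)
    (h : g ∈ locRing z (Projectivization.mk ℂ y hy.1)) : Reg z y g := by
  obtain ⟨F, G, d, hF, hG, h1, h2⟩ :=
    (mem_locRing (fun G d hG h => (hz.1 G d hG).1 h _ hy.2) g).1 h
  exact ⟨F, G, d, hF, hG, (eval_mk hG hy.1).not.1 h1, h2⟩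

lemma un (hy : On z y) (g0 : g ≠ 0) (h : Reg z y g) (h' : Reg z y g⁻¹) : Un z y g := by
  refine ⟨h, fun e => ?_⟩
  have := (vl_mul hy h h').2
  rw [mul_inv_cancel₀ g0, (vl_one hy).2, e, zero_mul] at this
  exact one_ne_zero this

lemma inv (hy : On z y) {c : ℂ} (c0 : c ≠ 0) (h : Reg z y g ∧ vl z g y = c) :
    Reg z y g⁻¹ ∧ vl z g⁻¹ y = c⁻¹ :=
  h.2 ▸ vl_inv hy ⟨h.1, h.2 ▸ c0⟩

end LinkX

open LinkX

theorem link (h0 : AmbStmt) (h1 : G3G.GStmt) (h2 : G3G.SkStmt) (h3 : G3G.TriStmt)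
    (h4 : EAStmt) : LinkStmt := by
  intro K _ _ n d Φ σ M kl ah
  obtain ⟨A, a1, a2, a3⟩ := h0 n _ _ _ _ _ σ M ah
  refine ⟨A, a1, a2, a3, ?_⟩
  cases n with
  | zero =>
    by_contra
    have := (d.gen.1 1 0 (isHomogeneous_one _ _)).2 fun P _ =>
      absurd (Subsingleton.elim _ _) P.rep_nonzero
    simp at this
  | succ N =>
    have u0 : d.u ≠ 0 := by simpa using d.nc 0
    have sb : ∀ y ∈ Cone d.Uo, y ∈ Cone d.W := fun y hy => ⟨hy.1, d.sub hy.2⟩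
    have rU : ∀ y ∈ Cone d.Uo, Reg d.z y d.u ∧ Reg d.z y d.u⁻¹ := fun y hy =>
      ⟨reg d.gen (sb y hy) (d.unit _ hy.2).1, reg d.gen (sb y hy) (d.unit _ hy.2).2⟩
    have rW : ∀ y ∈ Cone d.W, Reg d.z y d.u ∨ Reg d.z y d.u⁻¹ := fun y hy =>
      (d.mor _ hy.2).imp (reg d.gen hy) (reg d.gen hy)
    have key : ∀ (τ : K) (t0 : τ ≠ 0) (hu : ∀ y ∈ Cone d.Uo, Un d.z y τ)
        (hm : ∀ y ∈ Cone d.W, Reg d.z y τ ∨ Reg d.z y τ⁻¹), (∀ t y, (t, y) ∈ d.X ↔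
          y ∈ Cone d.W ∧ Reg d.z y τ ∧ vl d.z τ y = G3G.tau A t) → Nonempty (EA A) := by
      intro τ t0 hu hm xl
      obtain ⟨G, hG⟩ := h1 K N ⟨⟨d.W, d.z, d.D, d.cl, d.gen, d.tr, d.sm, d.li⟩, d.Uo, d.m, d.h, τ,
        d.sub, d.ld, t0, hu, hm⟩ A d.X Φ ⟨a3, xl, fun a j O Y c p hp => by
          simpa using kl a j O Y c p hp 0 (zero_mem _)⟩
      obtain ⟨E⟩ := G3G.se_of h2 h3 G hG
      exact h4 _ A E
    rcases A.hσ with s | s
    · refine key d.u⁻¹ (inv_ne_zero u0) (fun y hy => un (Cone.on d.gen (sb y hy)) (inv_ne_zero u0)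
        (rU y hy).2 (by simpa using (rU y hy).1)) (fun y hy => by simpa using (rW y hy).symm)
        fun t y => and_congr_right fun hy => ?_
      have e : G3G.tau A t = (Complex.exp t)⁻¹ := by simp [G3G.tau, s, Complex.exp_neg]
      have e0 := Complex.exp_ne_zero t
      rw [e]
      exact ⟨inv (Cone.on d.gen hy) e0, fun q => by
        simpa using inv (Cone.on d.gen hy) (inv_ne_zero e0) q⟩
    · refine key d.u u0 (fun y hy => un (Cone.on d.gen (sb y hy)) u0 (rU y hy).1 (rU y hy).2) rW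
        fun t y => ?_
      have e : G3G.tau A t = Complex.exp t := by simp [G3G.tau, s]
      rw [e]
      exact Iff.rfl

end Pool.Agent.MP_c69980_ag.G3
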