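import Pool.Agent.MP_c69980_ag.G3.SpecI

/-!
Entire orbifold curves in hyperbolic components are constant.
-/

set_option autoImplicit false

noncomputable section

namespace Pool.Agent.MP_c69980_ag.G3

open Metric Filter Topology Set

namespace LiouX

variable {β : ℂ → ℂ} {z : ℂ} {ρ R : ℝ}

lemma cauchy (ρ0 : 0 < ρ) (h : DifferentiableOn ℂ β (ball z ρ)) (b : ∀ y ∈ ball z ρ, ‖β y‖ ≤ R) :
    ‖deriv β z‖ ≤ R / (ρ / 2) :=
  have s : closedBall z (ρ / 2) ⊆ ball z ρ := closedBall_subset_ball (half_lt_self ρ0)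
  Complex.norm_deriv_le_of_forall_mem_sphere_norm_le (half_pos ρ0) (h.diffContOnCl_ball s)
    fun y hy => b y (s (sphere_subset_closedBall hy))

/-- The derivative of a bounded function without zeros. -/
lemma root (ρ0 : 0 < ρ) (h : AnalyticOnNhd ℂ β (ball z ρ)) (b : ∀ y ∈ ball z ρ, ‖β y‖ ≤ R)
    (h0 : ∀ y ∈ ball z ρ, β y ≠ 0) {μ : ℕ} (μ0 : 0 < μ) : ∃ d : ℂ,
      ‖d‖ ≤ μ * (max 1 R / (ρ / 2)) ∧ deriv β z ^ μ = β z ^ (μ - 1) * d ^ μ := by
  have m := mem_ball_self (x := z) ρ0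
  have μ1 : (μ : ℂ) ≠ 0 := by exact_mod_cast μ0.ne'
  obtain ⟨L, l0, l1⟩ := (h.deriv.div h h0).differentiableOn.isExactOn_ball.with_val_at z
    (Complex.log (β z))
  have d1 : ∀ y ∈ ball z ρ, HasDerivAt (fun y => β y * Complex.exp (-L y)) 0 y := fun y hy => by
    refine ((h y hy).differentiableAt.hasDerivAt.mul (l1 y hy).neg.cexp).congr_deriv ?_
    have := h0 y hy
    simp only [Pi.neg_apply]
    field_simp
    ring
  have e : ∀ y ∈ ball z ρ, Complex.exp (L y / μ) ^ μ = β y := fun y hy => by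
    have := isOpen_ball.is_const_of_deriv_eq_zero (convex_ball z ρ).isPreconnected
      (fun y hy => (d1 y hy).differentiableAt.differentiableWithinAt)
      (fun y hy => (d1 y hy).deriv) hy m
    rw [l0, Complex.exp_neg, Complex.exp_neg, Complex.exp_log (h0 z m), mul_inv_cancel₀ (h0 z m),
      mul_inv_eq_one₀ (Complex.exp_ne_zero _)] at this
    rw [← Complex.exp_nat_mul, mul_div_cancel₀ _ μ1, this]
  have d2 : ∀ y ∈ ball z ρ, HasDerivAt (fun y => Complex.exp (L y / μ))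
      (Complex.exp (L y / μ) * (deriv β y / β y / μ)) y := fun y hy => ((l1 y hy).div_const _).cexp
  refine ⟨μ * deriv (fun y => Complex.exp (L y / μ)) z, ?_, ?_⟩
  · rw [norm_mul, Complex.norm_natCast]
    refine mul_le_mul_of_nonneg_left (cauchy ρ0 (fun y hy =>
      (d2 y hy).differentiableAt.differentiableWithinAt) fun y hy => ?_) μ.cast_nonneg
    refine le_max_iff.2 (or_iff_not_imp_left.2 fun q => le_trans ?_ (b y hy))
    rw [← e y hy, norm_pow]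
    exact le_self_pow₀ (not_le.1 q).le μ0.ne'
  · rw [(d2 z m).deriv, mul_left_comm, mul_div_cancel₀ _ μ1, mul_pow, e z m, ← mul_assoc,
      ← pow_succ, Nat.sub_add_cancel μ0, div_pow, mul_div_cancel₀ _ (pow_ne_zero _ (h0 z m))]

/-- Liouville's theorem off a discrete set. -/
lemma liou {h : ℂ → ℂ} {D : Set ℂ} (hD : ∀ z, ∀ᶠ y in 𝓝[≠] z, y ∉ D)
    (an : ∀ y ∉ D, DifferentiableAt ℂ h y) (hb : ∀ y ∉ D, ‖h y‖ ≤ R) : ∃ a, ∀ y ∉ D, h y = a := by
  classical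
  obtain ⟨H, hH⟩ : ∃ H : ℂ → ℂ, H = fun z => if z ∈ D then limUnder (𝓝[≠] z) h else h z := ⟨_, rfl⟩
  have e : ∀ y ∉ D, H y = h y := fun y hy => by rw [hH]; exact if_neg hy
  have d : Differentiable ℂ H := fun z => by
    have s := eventually_nhdsWithin_iff.1 (hD z)
    by_cases hz : z ∈ D
    · refine ((Complex.differentiableOn_update_limUnder_of_bddAbove (f := h) s
        (fun y hy => (an y (hy.1 hy.2)).differentiableWithinAt) ⟨R, ?_⟩).differentiableAt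
          s).congr_of_eventuallyEq (s.mono fun y hy => ?_)
      · rintro _ ⟨y, hy, rfl⟩
        exact hb y (hy.1 hy.2)
      · rcases eq_or_ne y z with rfl | n
        · rw [Function.update_self, hH]
          exact if_pos hz
        · rw [Function.update_of_ne n, e y (hy n)]
    · refine (an z hz).congr_of_eventuallyEq (s.mono fun y hy => e y ?_)
      rcases eq_or_ne y z with rfl | n
      exacts [hz, hy n]
  refine ⟨H 0, fun y hy => (e y hy).symm.trans (d.apply_eq_apply_of_bounded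
    (isBounded_iff_forall_norm_le.2 ⟨R, ?_⟩) _ _)⟩
  rintro _ ⟨z, rfl⟩
  refine le_of_tendsto ((d z).continuousAt.tendsto.mono_left
    (nhdsWithin_le_nhds (s := {z}ᶜ))).norm ((hD z).mono fun y hy => ?_)
  rw [e y hy]
  exact hb y hy

lemma bd_port {f : ℂ → ℂ} {r r₀ : ℝ} (hr : r < r₀)
    (h : ∀ w, w ≠ 0 → ‖w‖ < r₀ → AnalyticAt ℂ f w) (b : Bd0 f) :
    ∃ B : ℝ, ∀ w, w ≠ 0 → ‖w‖ ≤ r → ‖f w‖ ≤ B := by
  obtain ⟨B, hB⟩ := b
  obtain ⟨δ, d0, hδ⟩ := Metric.eventually_nhds_iff_ball.1 (eventually_nhdsWithin_iff.1 hB)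
  obtain ⟨B', hB'⟩ := ((isCompact_closedBall (0 : ℂ) r).diff
    (isOpen_ball (x := 0) (ε := δ))).exists_bound_of_continuousOn (f := f) fun w hw =>
      (h w (fun e => hw.2 (e ▸ mem_ball_self d0))
        ((mem_closedBall_zero_iff.1 hw.1).trans_lt hr)).continuousAt.continuousWithinAt
  refine ⟨max B B', fun w w0 hw => ?_⟩
  by_cases q : w ∈ ball (0 : ℂ) δ
  · exact (hδ w q w0).trans (le_max_left _ _)
  · exact (hB' w ⟨mem_closedBall_zero_iff.2 hw, q⟩).trans (le_max_right _ _)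

variable {M : Type} [MetricSpace M] {A : Amb M} {S : Sk A} {k : S.Cmp} {i i' : M ⊕ S.Prt}
  {μ : ℕ} {η : M ⊕ S.Prt → ℂ → ℂ}

lemma par_mem {w : ℂ} (h : w ∈ S.dom k i) : S.par i w ∈ S.C k := by
  rcases i with c | π
  · exact (S.ψc k c h.1).2.2 (mem_ball_zero_iff.2 h.2)
  · exact h.1 ▸ (S.pc π).2 ⟨mem_ball_zero_iff.2 h.2.2, h.2.1⟩

/-- The pull-back of a differential in the coordinate of a tube. -/
lemma pull (h : S.Dif k μ η) (an : AnalyticAt ℂ β z) (m : β z ∈ S.dom k i) :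
    ∃ θ : ℂ → ℂ, AnalyticAt ℂ θ z ∧ θ z = 0 ∧
      (∀ᶠ v in 𝓝 z, S.par i (β v) = S.ψ (S.par i (β z)) (θ v)) ∧
      η i (β z) * deriv β z ^ μ = η (.inl (S.par i (β z))) 0 * deriv θ z ^ μ := by
  have c := par_mem m
  obtain ⟨φ, p1, p2, p3⟩ := h.2 i (.inl (S.par i (β z))) _ m 0
    ⟨c, by simpa using S.rad0 k _ c⟩ (S.ψ0 k _ c).symm
  refine ⟨φ ∘ β, p1.comp an, p2, (an.continuousAt.eventually p3).mono fun v e => e.1, ?_⟩
  rw [p3.self_of_nhds.2, p2, deriv_comp z p1.differentiableAt an.differentiableAt, mul_pow,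
    mul_assoc]

lemma indep {β' : ℂ → ℂ} (h : S.Dif k μ η) (an : AnalyticAt ℂ β z) (an' : AnalyticAt ℂ β' z)
    (m : β z ∈ S.dom k i) (m' : β' z ∈ S.dom k i')
    (e : ∀ᶠ v in 𝓝 z, S.par i (β v) = S.par i' (β' v)) :
    η i (β z) * deriv β z ^ μ = η i' (β' z) * deriv β' z ^ μ := by
  obtain ⟨θ, a1, a2, a3, a4⟩ := pull h an m
  obtain ⟨θ', b1, b2, b3, b4⟩ := pull h an' m'
  rw [← e.self_of_nhds] at b3 b4
  have n := ball_mem_nhds (0 : ℂ) (S.rad0 k _ (par_mem m))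
  have : θ =ᶠ[𝓝 z] θ' := by
    filter_upwards [a3, b3, e, a1.continuousAt.eventually (a2 ▸ n),
      b1.continuousAt.eventually (b2 ▸ n)] with v c1 c2 c3 c4 c5
    exact (S.ψc k _ (par_mem m)).2.1 (a2 ▸ c4) (b2 ▸ c5) (c1.symm.trans (c3.trans c2))
  rw [a4, b4, this.deriv_eq]

/-- The bound at the centre of a patch. -/
lemma bound {op : S.Sp → Prop} {r : ℝ} (hr : r < S.r₀) (ρ0 : 0 < ρ) (μ0 : 0 < μ)
    (h : S.Dif k μ η) (hb : ∀ π, S.cm π = k → (op (S.fl π) →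
      Bd0 fun w => w ^ (μ - 1) * η (.inr π) w) ∧ (¬op (S.fl π) → Bd0 (η (.inr π))))
    (i : M ⊕ S.Prt) : ∃ B : ℝ, ∀ (β : ℂ → ℂ) (z : ℂ), AnalyticOnNhd ℂ β (ball z ρ) →
      β z ∈ S.dom k i → (∀ y ∈ ball z ρ,
        ‖β y‖ ≤ Sum.elim (fun c => 7 / 8 * S.rad c) (fun _ => r) i ∧
        ∀ π, i = .inr π → op (S.fl π) → β y ≠ 0) → ‖η i (β z) * deriv β z ^ μ‖ ≤ B := by
  have m := fun z : ℂ => mem_ball_self (x := z) ρ0
  have k1 : ∀ (R B : ℝ) (β : ℂ → ℂ) (z : ℂ), AnalyticOnNhd ℂ β (ball z ρ) →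
      (∀ y ∈ ball z ρ, ‖β y‖ ≤ R) → ‖η i (β z)‖ ≤ B →
      ‖η i (β z) * deriv β z ^ μ‖ ≤ B * (R / (ρ / 2)) ^ μ := fun R B β z a b c => by
    rw [norm_mul, norm_pow]
    exact mul_le_mul c (pow_le_pow_left₀ (norm_nonneg _) (cauchy ρ0 a.differentiableOn b) _)
      (by positivity) ((norm_nonneg _).trans c)
  rcases i with c | π
  · by_cases hc : c ∈ S.C k
    · have := S.rad0 k c hc
      obtain ⟨B, hB⟩ := IsCompact.exists_bound_of_continuousOn (f := η (.inl c))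
        (isCompact_closedBall (0 : ℂ) (7 / 8 * S.rad c)) fun w hw => (h.1 (.inl c) w ⟨hc,
          (mem_closedBall_zero_iff.1 hw).trans_lt (by linarith)⟩).continuousAt.continuousWithinAt
      exact ⟨_, fun β z a _ b => k1 _ B β z a (fun y hy => (b y hy).1)
        (hB _ (mem_closedBall_zero_iff.2 (b z (m z)).1))⟩
    · exact ⟨0, fun β z _ d => (hc d.1).elim⟩
  by_cases hc : S.cm π = k
  swap
  · exact ⟨0, fun β z _ d => (hc d.1).elim⟩
  have an : ∀ w, w ≠ 0 → ‖w‖ < S.r₀ → AnalyticAt ℂ (η (.inr π)) w := fun w a b =>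
    h.1 (.inr π) w ⟨hc, a, b⟩
  by_cases o : op (S.fl π)
  · obtain ⟨B, hB⟩ := bd_port hr (fun w a b => (analyticAt_id.pow (μ - 1)).mul (an w a b))
      ((hb π hc).1 o)
    refine ⟨B * (μ * (max 1 r / (ρ / 2))) ^ μ, fun β z a d b => ?_⟩
    obtain ⟨e, e1, e2⟩ := root ρ0 a (fun y hy => (b y hy).1) (fun y hy => (b y hy).2 π rfl o) μ0
    have := hB _ d.2.1 (b z (m z)).1
    rw [e2, ← mul_assoc, mul_comm (η _ _), norm_mul, norm_pow]
    exact mul_le_mul this (pow_le_pow_left₀ (norm_nonneg _) e1 _) (by positivity)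
      ((norm_nonneg _).trans this)
  · obtain ⟨B, hB⟩ := bd_port hr an ((hb π hc).2 o)
    exact ⟨_, fun β z a d b => k1 _ B β z a (fun y hy => (b y hy).1) (hB _ d.2.1 (b z (m z)).1)⟩

end LiouX

open LiouX in
theorem liouS : LiouStmt := by
  intro M _ A S al op F r ρ D γ hyp hr ρ0 hp k i β an h0
  choose kk hk ii b ban hF hb using hp
  have m := fun z : ℂ => mem_ball_self (x := z) ρ0
  have s1 : ∀ z, ∀ y ∈ ball z ρ, (¬∀ᶠ v in 𝓝[≠] y, v ∉ D) → ball z ρ ⊆ D := fun z y hy n v hv => by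
    have f := (not_eventually.1 n).and_eventually
      (nhdsWithin_le_nhds (isOpen_ball.mem_nhds hy : ∀ᶠ v in 𝓝 y, v ∈ ball z ρ))
    have e := (ban z).eqOn_zero_of_preconnected_of_frequently_eq_zero
      (convex_ball z ρ).isPreconnected hy
      (f.mono fun w q => ((hb z w q.2).2.2 (not_not.1 q.1)).1)
    obtain ⟨w, q⟩ := f.exists
    obtain ⟨π, e', -⟩ := ((hb z w q.2).2.2 (not_not.1 q.1)).2
    by_contra n'
    have := ((hb z v hv).2.1 n').1
    rw [e'] at this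
    exact this.2.1 (e hv)
  have s2 : ∀ z, ∀ y ∈ ball z ρ, (∀ᶠ v in 𝓝[≠] y, v ∉ D) → ¬ball z ρ ⊆ D := fun z y hy q n => by
    obtain ⟨w, w1, w2⟩ := (q.and
      (nhdsWithin_le_nhds (isOpen_ball.mem_nhds hy : ∀ᶠ v in 𝓝 y, v ∈ ball z ρ))).exists
    exact w1 (n w2)
  have hD : ∀ z, ∀ᶠ v in 𝓝[≠] z, v ∉ D := fun z => by
    have := ((IsLocallyConstant.iff_eventually_eq fun z => ∀ᶠ v in 𝓝[≠] z, v ∉ D).2 fun z =>
      mem_of_superset (ball_mem_nhds z ρ0) fun y hy => propext ⟨fun q => by_contra fun n =>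
        s2 z y hy q (s1 z z (m z) n), fun q => by_contra fun n =>
          s2 z z (m z) q (s1 z y hy n)⟩).apply_eq_of_preconnectedSpace z 0
    exact this ▸ h0.mono fun _ q => q.1
  have hD' : ∀ z ∉ D, ∀ᶠ v in 𝓝 z, v ∉ D := fun z hz =>
    (eventually_nhdsWithin_iff.1 (hD z)).mono fun y q => by
      rcases eq_or_ne y z with rfl | n
      exacts [hz, q n]
  have gm : ∀ z, ∀ y ∈ ball z ρ, y ∉ D → γ y ∈ S.C (kk z) := fun z y hy n =>
    ((hb z y hy).2.1 n).2 ▸ par_mem ((hb z y hy).2.1 n).1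
  have hk' : ∀ z, kk z = k := fun z => by
    rw [((IsLocallyConstant.iff_eventually_eq kk).2 fun z => mem_of_superset (ball_mem_nhds z ρ0)
      fun y hy => ?_).apply_eq_of_preconnectedSpace z 0]
    · obtain ⟨w, ⟨w1, w2, w3⟩, w4⟩ := (h0.and (nhdsWithin_le_nhds (ball_mem_nhds 0 ρ0))).exists
      exact S.disj _ _ _ (gm 0 w w4 w1) (w3 ▸ par_mem w2)
    · obtain ⟨w, w1, w2, w3⟩ := ((hD y).and (nhdsWithin_le_nhds (inter_mem (ball_mem_nhds y ρ0)
        (isOpen_ball.mem_nhds hy)))).exists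
      exact S.disj _ _ _ (gm y w w2 w1) (gm z w w3 w1)
  simp only [hk'] at hb hk
  have h1 := (eventually_eventually_nhdsWithin.2 h0).and (eventually_mem_nhdsWithin.and
    (nhdsWithin_le_nhds an.eventually_analyticAt : ∀ᶠ y in _, AnalyticAt ℂ β y))
  have key : ∀ (μ : ℕ) (η : M ⊕ S.Prt → ℂ → ℂ), 0 < μ → S.Dif k μ η →
      (∀ π, S.cm π = k → (op (S.fl π) → Bd0 fun w => w ^ (μ - 1) * η (.inr π) w) ∧
        (¬op (S.fl π) → Bd0 (η (.inr π)))) →
      ∃ a, ∀ᶠ y in 𝓝[≠] (0 : ℂ), η i (β y) * deriv β y ^ μ = a := fun μ η μ0 d bd => by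
    choose B hB using bound hr ρ0 μ0 d bd
    obtain ⟨R, hR⟩ := (((F.finite_toSet.image Sum.inl).union (finite_range Sum.inr)).image
      B).bddAbove
    obtain ⟨a, ha⟩ := liou (h := fun y => η (ii y) (b y y) * deriv (b y) y ^ μ) (R := R) hD
      (fun z hz => by
        refine ((((d.1 _ _ ((hb z z (m z)).2.1 hz).1).comp (ban z z (m z))).mul
          ((ban z z (m z)).deriv.pow μ)).congr ?_).differentiableAt
        filter_upwards [hD' z hz, ball_mem_nhds z ρ0] with y y1 y2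
        refine indep d (ban z y y2) (ban y y (m y)) ((hb z y y2).2.1 y1).1
          ((hb y y (m y)).2.1 y1).1 ?_
        filter_upwards [hD' y y1, ball_mem_nhds y ρ0, isOpen_ball.mem_nhds y2] with v v1 v2 v3
        exact ((hb z v v3).2.1 v1).2.symm.trans ((hb y v v2).2.1 v1).2)
      fun z hz => by
        refine (hB _ _ z (ban z) ((hb z z (m z)).2.1 hz).1 fun y hy =>
          ⟨(hb z y hy).1, fun π e o => ?_⟩).trans (hR (mem_image_of_mem _ ?_))
        · by_cases q : y ∈ D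
          · obtain ⟨π', e', -, o'⟩ := ((hb z y hy).2.2 q).2
            exact (o' (Sum.inr_injective (e.symm.trans e') ▸ o)).elim
          · have := ((hb z y hy).2.1 q).1
            rw [e] at this
            exact this.2.1
        · rcases e : ii z with c | π
          exacts [.inl ⟨c, hF z c e, rfl⟩, .inr ⟨π, rfl⟩]
    refine ⟨a, ?_⟩
    filter_upwards [h0, h1] with y ⟨y1, y2, _⟩ ⟨y3, y4, y5⟩
    rw [isOpen_compl_singleton.nhdsWithin_eq y4] at y3
    refine (indep d y5 (ban y y (m y)) y2 ((hb y y (m y)).2.1 y1).1 ?_).trans (ha y y1)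
    filter_upwards [y3, ball_mem_nhds y ρ0] with v v1 v2
    exact v1.2.2.symm.trans ((hb y v v2).2.1 v1.1).2
  obtain ⟨μ, η, η', μ0, d, d', bd, ne⟩ := hyp k (hk 0)
  obtain ⟨a, ha⟩ := key μ η μ0 d fun π e => ⟨fun o => ((bd π e).1 o).1, fun o => ((bd π e).2 o).1⟩
  obtain ⟨a', ha'⟩ := key μ η' μ0 d' fun π e =>
    ⟨fun o => ((bd π e).1 o).2, fun o => ((bd π e).2 o).2⟩
  by_contra n
  have dn : ∀ᶠ y in 𝓝[≠] (0 : ℂ), deriv β y ≠ 0 :=
    nhdsWithin_le_nhds (an.deriv.continuousAt.eventually_ne n)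
  obtain ⟨c, c', hc, e⟩ : ∃ c c' : ℂ, (c ≠ 0 ∨ c' ≠ 0) ∧
      ∀ᶠ y in 𝓝[≠] (0 : ℂ), c * η i (β y) = c' * η' i (β y) := by
    by_cases q : a = 0
    · refine ⟨1, 0, .inl one_ne_zero, ?_⟩
      filter_upwards [ha, dn] with y y1 y2
      rw [(mul_eq_zero.1 (y1.trans q)).resolve_right (pow_ne_zero _ y2), mul_zero, zero_mul]
    · refine ⟨a', a, .inr q, ?_⟩
      filter_upwards [ha, ha', dn] with y y1 y2 _
      rw [← y1, ← y2]
      ring
  obtain ⟨y, ⟨y1, y2⟩, y3, -, y4, y5⟩ :=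
    (((eventually_eventually_nhdsWithin.2 e).and dn).and (h0.and h1)).exists
  rw [isOpen_compl_singleton.nhdsWithin_eq y4] at y1
  refine ne c c' hc i _ y3.2.1 ?_
  rw [← (y5.hasStrictDerivAt.hasStrictFDerivAt_equiv y2).map_nhds_eq_of_equiv]
  exact y1

end Pool.Agent.MP_c69980_ag.G3
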