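import Pool.Agent.MP_c69980_ag.G3.SpecI

/-!
Row Open: an explicit component is replaced by its explicit vertices.
-/

set_option autoImplicit false

noncomputable section

namespace Pool.Agent.MP_c69980_ag.G3

open Metric Filter Topology Set

namespace OpenX

theorem desc {I X Z : Type} (fl : I → X) (L : I → Prop) (G : I → Z) (d : X → Z)
    (h : ∀ i i', L i → L i' → fl i = fl i' → G i = G i') :
    ∃ g : X → Z, ∀ i, L i → g (fl i) = G i := by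
  classical
  refine ⟨fun q => if h : ∃ i, L i ∧ fl i = q then G h.choose else d q, fun i hi => ?_⟩
  have : ∃ i', L i' ∧ fl i' = fl i := ⟨i, hi, rfl⟩
  simp only [dif_pos this]
  exact h _ _ this.choose_spec.1 hi this.choose_spec.2

theorem fixp {X Y : Type} (y₀ : Y) (g : X → Y ⊕ X) :
    ∃ R : X → Y, ∀ q, R q = Sum.elim id R (g q) := by
  have : Nonempty Y := ⟨y₀⟩
  let F : Y ⊕ X → Y ⊕ X := Sum.elim Sum.inl g
  let T : Y ⊕ X → Y → Prop := fun z y => ∃ n, F^[n] z = Sum.inl y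
  have h1 : ∀ z, T z = T (F z) := by
    intro z
    funext y
    refine propext ⟨?_, ?_⟩
    · rintro ⟨n, hn⟩
      refine ⟨n, ?_⟩
      rw [← Function.iterate_succ_apply, Function.iterate_succ_apply', hn]
      rfl
    · rintro ⟨n, hn⟩
      exact ⟨n + 1, by rw [Function.iterate_succ_apply, hn]⟩
  have h2 : ∀ y, Classical.epsilon (T (Sum.inl y)) = y := by
    intro y
    obtain ⟨n, hn⟩ := Classical.epsilon_spec (p := T (Sum.inl y)) ⟨y, 0, rfl⟩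
    rw [Function.iterate_fixed (f := F) (x := Sum.inl y) rfl] at hn
    exact (Sum.inl.inj hn).symm
  refine ⟨fun q => Classical.epsilon (T (Sum.inr q)), fun q => ?_⟩
  have h3 : T (Sum.inr q) = T (g q) := h1 _
  show Classical.epsilon (T (Sum.inr q)) = _
  rw [h3]
  rcases g q with y | q'
  · exact h2 y
  · rfl

theorem small_r (H : Finset ℂ) : ∃ r : ℝ, 0 < r ∧ ∀ s, Sl H s → ∀ w : ℂ, w ≠ 0 → ‖w‖ ≤ r →
    slot s w ≠ 0 ∧ slot s w ∉ H := by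
  classical
  set B : Finset ℂ := insert 0 H with hB
  set F : Finset ℂ :=
    (B ∪ B.image (fun z => z⁻¹) ∪ (B ×ˢ B).image fun p => p.1 - p.2).erase 0 with hF
  have hc : IsClosed (F : Set ℂ) := F.finite_toSet.isClosed
  have h0 : (F : Set ℂ)ᶜ ∈ 𝓝 (0 : ℂ) :=
    hc.isOpen_compl.mem_nhds (fun h => Finset.notMem_erase _ _ (Finset.mem_coe.1 h))
  obtain ⟨r, hr, h⟩ := Metric.nhds_basis_closedBall.mem_iff.1 h0
  refine ⟨r, hr, fun s hs w hw hwr => ?_⟩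
  have hw' : w ∉ F := h (mem_closedBall_zero_iff.2 hwr)
  have : slot s w ∉ B := by
    intro hb
    apply hw'
    refine Finset.mem_erase.2 ⟨hw, ?_⟩
    rcases s with (_ | _) | a
    · exact Finset.mem_union_left _ (Finset.mem_union_left _ hb)
    · exact Finset.mem_union_left _ (Finset.mem_union_right _
        (Finset.mem_image.2 ⟨_, hb, inv_inv w⟩))
    · refine Finset.mem_union_right _ (Finset.mem_image.2 ⟨(a + w, a),
        Finset.mem_product.2 ⟨hb, Finset.mem_insert_of_mem (hs a rfl)⟩, ?_⟩)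
      exact add_sub_cancel_left a w
  exact ⟨fun h => this (h ▸ Finset.mem_insert_self _ _),
    fun h => this (Finset.mem_insert_of_mem h)⟩

theorem loc_dv {H : Finset ℂ} {ω₀ : ℂ} (h0 : ω₀ ≠ 0) (hH : ω₀ ∉ H) :
    ∃ ρ : ℝ, 0 < ρ ∧ ∀ᶠ ω in 𝓝 ω₀, ω ∈ Dv H ρ := by
  have h1 : ∀ᶠ z : ℝ × ℂ in 𝓝 (0, ω₀), z.1 < ‖z.2‖ :=
    ContinuousAt.eventually_lt (by fun_prop) (by fun_prop) (by simpa using h0)
  have h2 : ∀ᶠ z : ℝ × ℂ in 𝓝 (0, ω₀), z.1 * ‖z.2‖ < 1 :=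
    ContinuousAt.eventually_lt (by fun_prop) (by fun_prop) (by simp)
  have h3 : ∀ᶠ z : ℝ × ℂ in 𝓝 (0, ω₀), ∀ a ∈ H, z.1 < ‖z.2 - a‖ := by
    rw [Finset.eventually_all]
    intro a ha
    refine ContinuousAt.eventually_lt (by fun_prop) (by fun_prop) ?_
    have : ω₀ - a ≠ 0 := fun h => hH (sub_eq_zero.1 h ▸ ha)
    simpa using this
  have h4 := (h1.and (h2.and h3)).curry_nhds
  obtain ⟨ρ, h5, h6⟩ := ((h4.filter_mono (nhdsWithin_le_nhds (s := Ioi (0 : ℝ)))).and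
    self_mem_nhdsWithin).exists
  have h7 : (0 : ℝ) < ρ := h6
  refine ⟨ρ, h7, h5.mono fun ω h => ⟨h.1.le, ?_, fun a ha => (h.2.2 a ha).le⟩⟩
  rw [← one_div, le_div_iff₀ h7, mul_comm]
  exact h.2.1.le

theorem dv_mono {H : Finset ℂ} {ω : ℂ} {ρ ρ' : ℝ} (h : ω ∈ Dv H ρ) (h0 : 0 < ρ') (hle : ρ' ≤ ρ) :
    ω ∈ Dv H ρ' :=
  ⟨hle.trans h.1, h.2.1.trans (inv_anti₀ h0 hle), fun b hb => hle.trans (h.2.2 b hb)⟩

theorem cpt_dv (H : Finset ℂ) (ρ : ℝ) : IsCompact (Dv H ρ) := by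
  refine (isCompact_closedBall (0 : ℂ) ρ⁻¹).of_isClosed_subset ?_
    fun ω h => mem_closedBall_zero_iff.2 h.2.1
  have : Dv H ρ = {ω : ℂ | ρ ≤ ‖ω‖} ∩ ({ω : ℂ | ‖ω‖ ≤ ρ⁻¹} ∩ ⋂ a ∈ H, {ω : ℂ | ρ ≤ ‖ω - a‖}) := by
    ext ω
    simp [Dv]
  rw [this]
  exact (isClosed_le (by fun_prop) (by fun_prop)).inter
    ((isClosed_le (by fun_prop) (by fun_prop)).inter
      (isClosed_biInter fun a _ => isClosed_le (by fun_prop) (by fun_prop)))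

theorem cpt_an (r R : ℝ) : IsCompact (An r R) := by
  refine (isCompact_closedBall (0 : ℂ) R).of_isClosed_subset ?_
    fun ω h => mem_closedBall_zero_iff.2 h.2
  exact (isClosed_le (f := fun _ : ℂ => r) (by fun_prop) (by fun_prop)).inter
    (isClosed_le (f := fun w : ℂ => ‖w‖) (by fun_prop) (by fun_prop))

theorem slot_cont (s : Bool ⊕ ℂ) {w : ℂ} (hw : w ≠ 0) : ContinuousAt (slot s) w := by
  rcases s with (_ | _) | a
  · exact continuousAt_id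
  · exact continuousAt_inv₀ hw
  · exact continuousAt_const.add continuousAt_id

theorem ulim {ι : Type} (U : Ultrafilter ι) {K : Set ℂ} (hK : IsCompact K) (β : ι → ℂ)
    (h : ∀ᶠ i in (U : Filter ι), β i ∈ K) : ∃ β₀ ∈ K, Tendsto β U (𝓝 β₀) :=
  hK.ultrafilter_le_nhds' (U.map β) h

variable {M : Type} [MetricSpace M] {A : Amb M}

theorem lim {ι : Type} {U : Filter ι} {l : Filter ℂ} {τ : ι → ℂ} {x : ι → M} {Y : C2 → M}
    {ψ : ℂ → M} {K : Set ℂ} {w₀ : ℂ} (hτ : Tendsto τ U l) (hl : Lm l Y ψ K)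
    (hc : ContinuousWithinAt ψ K w₀)
    (h : ∀ N ∈ 𝓝 w₀, ∀ᶠ i in U, ∃ w ∈ N, w ∈ K ∧ x i = Y (τ i, w)) :
    Tendsto x U (𝓝 (ψ w₀)) := by
  rw [Metric.tendsto_nhds]
  intro η η0
  have h1 := eventually_nhdsWithin_iff.1 (Metric.tendsto_nhds.1 hc (η / 2) (half_pos η0))
  have h2 := hτ.eventually (Metric.tendstoUniformlyOn_iff.1 hl (η / 2) (half_pos η0))
  filter_upwards [h _ h1, h2] with i ⟨w, hw, hK, hx⟩ h3
  have h4 := h3 w hK
  have h5 : dist (ψ w) (ψ w₀) < η / 2 := hw hK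
  rw [hx]
  rw [dist_comm] at h4
  linarith [dist_triangle (Y (τ i, w)) (ψ w) (ψ w₀)]

theorem cgV {S : Sk A} {k : S.Cmp} {op : S.Sp → Prop} (v : S.XV k op) (j : v.J) {ρ : ℝ}
    (ρ0 : 0 < ρ) {u : Ultrafilter (ℂ × M)} (hu : A.Out u) (h : In (v.V j) v.H ρ u) :
    ∃ c ∈ S.C k, Cg u c := by
  have h1 : ∀ x : ℂ × M, ∃ ω, (∃ ω ∈ Dv v.H ρ, x.2 = v.V j (x.1, ω)) →
      ω ∈ Dv v.H ρ ∧ x.2 = v.V j (x.1, ω) := by
    intro x
    by_cases hx : ∃ ω ∈ Dv v.H ρ, x.2 = v.V j (x.1, ω)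
    · obtain ⟨ω, hω⟩ := hx
      exact ⟨ω, fun _ => hω⟩
    · exact ⟨0, fun h => absurd h hx⟩
  choose ω hω using h1
  have h2 := h.mono hω
  obtain ⟨ω₀, h3, h4⟩ := ulim u (cpt_dv v.H ρ) ω (h2.mono fun _ h => h.1)
  refine ⟨v.vl ω₀, (v.vc ρ ρ0).2 h3, lim hu.1 (v.lm j ρ ρ0) ((v.vc ρ ρ0).1 ω₀ h3) fun N hN => ?_⟩
  filter_upwards [h2, h4 hN] with x h5 h6
  exact ⟨ω x, h6, h5⟩

theorem ise_mono {κ : Kd} {E P P' : C2 → M} {c : ℂ → ℂ} {r r' : ℝ} (h : IsE A κ E c r' P P')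
    (hr : r ≤ r') : IsE A κ E c r P P' :=
  ⟨fun q hq => h.lc q (hq.trans_le hr), fun a q ha hq => h.out a q ha (hq.trans_le hr), h.cc,
    fun hk a q ha hq => h.inn hk a q ha (hq.trans_le hr)⟩

/-- Restriction of edges to a smaller radius. -/
def res {S : Sk A} {P : S.Prt → C2 → M} {Lv : Set S.Prt} {r r' : ℝ} (e : Edg S P Lv r')
    (hr : r ≤ r') : Edg S P Lv r where
  κ := e.κ
  E := e.E
  c := e.c
  far := e.far
  pe := e.pe
  ise := fun π h => ise_mono (e.ise π h) hr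
  nk := e.nk
  dj := fun q hq => e.dj q (hq.trans_le hr)

theorem key {S : Sk A} {k : S.Cmp} {op : S.Sp → Prop} (v : S.XV k op) (j : v.J)
    {P : S.Prt → C2 → M} (p1 : ∀ π, S.cm π ≠ k → P π = S.P π)
    (p2 : ∀ j σ, Sl v.H σ → P (v.sl j σ) = sv (v.V j) σ) {r : ℝ} (rr : r ≤ S.r₀)
    (hr : ∀ s, Sl v.H s → ∀ w : ℂ, w ≠ 0 → ‖w‖ ≤ r → slot s w ≠ 0 ∧ slot s w ∉ v.H)
    {U : Ultrafilter ℂ} (hU : (U : Filter ℂ) ≤ A.l) {ω β : ℂ → ℂ} {ρ ρ₁ r' ε : ℝ} (ρ0 : 0 < ρ)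
    (ρ1 : 0 < ρ₁) (hr' : r' < r) (ε0 : 0 < ε) (hω : ∀ᶠ t in (U : Filter ℂ), ω t ∈ Dv v.H ρ)
    {c : M} (hc : c ∈ S.C k) (hl : Tendsto (fun t => v.V j (t, ω t)) U (𝓝 c)) (π : S.Prt)
    (hβ : ∀ᶠ t in (U : Filter ℂ), β t ∈ An ρ₁ r')
    (hm : ∀ δ : ℝ, 0 < δ → ∀ᶠ t in (U : Filter ℂ), ∃ w, ‖w - β t‖ < δ ∧
      v.V j (t, ω t) = P π (t, w)) :
    ∀ᶠ t in (U : Filter ℂ), ∃ s ξ, Sl v.H s ∧ ω t = slot s ξ ∧ π = v.sl j s ∧ ‖ξ - β t‖ < ε := by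
  obtain ⟨β₀, hb, hlim⟩ := ulim U (cpt_an ρ₁ r') β hβ
  have b0 : β₀ ≠ 0 := norm_pos_iff.1 (ρ1.trans_le hb.1)
  have near : ∀ N ∈ 𝓝 β₀, ∀ᶠ t in (U : Filter ℂ), ∃ w ∈ N, ‖w - β t‖ < ε ∧
      v.V j (t, ω t) = P π (t, w) := by
    intro N hN
    obtain ⟨δ, δ0, hδ⟩ := Metric.mem_nhds_iff.1 hN
    filter_upwards [hm (min (δ / 2) ε) (by positivity),
      Metric.tendsto_nhds.1 hlim (δ / 2) (half_pos δ0)] with t ⟨w, h1, h2⟩ h3
    refine ⟨w, hδ ?_, h1.trans_le (min_le_right _ _), h2⟩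
    have h4 := h1.trans_le (min_le_left _ _)
    rw [← dist_eq_norm] at h4
    rw [mem_ball]
    linarith [dist_triangle w (β t) β₀]
  by_cases hk : S.cm π = k
  · obtain ⟨⟨j', s⟩, ⟨hs, hsl⟩, -⟩ := v.bij π hk
    obtain ⟨h1, h2⟩ := hr s hs β₀ b0 (hb.2.trans hr'.le)
    obtain ⟨ρ', ρ0', h3⟩ := loc_dv h1 h2
    have m0 : 0 < min ρ ρ' := lt_min ρ0 ρ0'
    filter_upwards [near _ ((slot_cont s b0).eventually h3), hω, hU (v.lc _ m0)]
      with t ⟨w, h4, h5, h6⟩ h7 h8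
    have h9 : P π = sv (v.V j') s := hsl ▸ p2 j' s hs
    rw [h9] at h6
    obtain ⟨e1, e2⟩ := (h8 j _ (dv_mono h7 m0 (min_le_left _ _))).2 j' _
      (dv_mono h4 m0 (min_le_right _ _)) h6
    exact ⟨s, w, hs, e2, e1 ▸ hsl.symm, h5⟩
  · exfalso
    have h0 : β₀ ∈ ball (0 : ℂ) S.r₀ \ {0} :=
      ⟨mem_ball_zero_iff.2 (hb.2.trans_lt (hr'.trans_le rr)), b0⟩
    have hK : {w : ℂ | ρ₁ / 2 ≤ ‖w‖ ∧ ‖w‖ < S.r₀} ∈ 𝓝 β₀ := by
      have a1 : ∀ᶠ w in 𝓝 β₀, ρ₁ / 2 < ‖w‖ :=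
        ContinuousAt.eventually_lt (by fun_prop) (by fun_prop) (by linarith [hb.1])
      have a2 : ∀ᶠ w in 𝓝 β₀, ‖w‖ < S.r₀ :=
        ContinuousAt.eventually_lt (by fun_prop) (by fun_prop) (mem_ball_zero_iff.1 h0.1)
      filter_upwards [a1, a2] with w a b using ⟨a.le, b⟩
    have hca : ContinuousAt (S.p π) β₀ := ((S.pc π).1 β₀ h0).continuousAt
      ((isOpen_ball.sdiff isClosed_singleton).mem_nhds h0)
    have h1 : Tendsto (fun t => v.V j (t, ω t)) U (𝓝 (S.p π β₀)) := by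
      refine lim (τ := id) hU (S.Plm π _ (half_pos ρ1)) hca.continuousWithinAt fun N hN => ?_
      filter_upwards [near _ (inter_mem hN hK)] with t ⟨w, h4, _, h6⟩
      exact ⟨w, h4.1, h4.2, p1 π hk ▸ h6⟩
    have h2 := tendsto_nhds_unique hl h1
    exact hk (S.disj _ _ c (h2 ▸ (S.pc π).2 h0) hc)

theorem ve {S : Sk A} {k : S.Cmp} {op : S.Sp → Prop} (v : S.XV k op) (j : v.J)
    {P : S.Prt → C2 → M} (p1 : ∀ π, S.cm π ≠ k → P π = S.P π)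
    (p2 : ∀ j σ, Sl v.H σ → P (v.sl j σ) = sv (v.V j) σ) {r : ℝ} (rr : r ≤ S.r₀)
    (hr : ∀ s, Sl v.H s → ∀ w : ℂ, w ≠ 0 → ‖w‖ ≤ r → slot s w ≠ 0 ∧ slot s w ∉ v.H)
    {κ : Kd} {E : C2 → M} {c : ℂ → ℂ} (π π' : S.Prt) (he : IsE A κ E c r (P π) (P π'))
    (te : ∀ u, A.Out u → Dp κ E c u → ∀ x ∈ S.C k, ¬Cg u x) :
    Ve A (v.V j) v.H κ E c r fun ε t ω b => ∃ s ξ, Sl v.H s ∧ ω = slot s ξ ∧
      ((π = v.sl j s ∧ ‖ξ - b‖ < ε) ∨ (κ = .neck ∧ π' = v.sl j s ∧ ‖ξ - c t / b‖ < ε)) := by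
  intro ρ r' ε ρ0 hr' ε0
  by_contra hne
  obtain ⟨U, hU⟩ := @exists_ultrafilter_le _ _ (frequently_iff_neBot.1 (not_eventually.1 hne))
  have hl : (U : Filter ℂ) ≤ A.l := hU.trans inf_le_left
  have hb := le_principal_iff.1 (hU.trans inf_le_right)
  have h1 : ∀ t : ℂ, ∃ ω b : ℂ, (¬∀ ω ∈ Dv v.H ρ, ∀ b ∈ De κ (c t) r', v.V j (t, ω) = E (t, b) →
      ∃ s ξ, Sl v.H s ∧ ω = slot s ξ ∧ ((π = v.sl j s ∧ ‖ξ - b‖ < ε) ∨
        (κ = .neck ∧ π' = v.sl j s ∧ ‖ξ - c t / b‖ < ε))) →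
      ω ∈ Dv v.H ρ ∧ b ∈ De κ (c t) r' ∧ v.V j (t, ω) = E (t, b) ∧
      ¬∃ s ξ, Sl v.H s ∧ ω = slot s ξ ∧ ((π = v.sl j s ∧ ‖ξ - b‖ < ε) ∨
        (κ = .neck ∧ π' = v.sl j s ∧ ‖ξ - c t / b‖ < ε)) := by
    intro t
    by_contra hn
    simp only [not_exists, Classical.not_imp] at hn
    apply (hn 0 0).1
    intro ω a1 b a2 a3
    by_contra a4
    exact (hn ω b).2 ⟨a1, a2, a3, by simpa only [not_exists] using a4⟩
  choose ω b hω using h1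
  have h2 := Eventually.mono hb hω
  have hω' := h2.mono fun _ h => h.1
  let u : Ultrafilter (ℂ × M) := U.map fun t => (t, v.V j (t, ω t))
  have hu : A.Out u := by
    refine ⟨hl, ?_⟩
    have : ∀ᶠ t in (U : Filter ℂ), (t, v.V j (t, ω t)) ∈ A.Zb := by
      filter_upwards [hω', hl (v.lc ρ ρ0)] with t a1 a2
      exact A.sub (a2 j _ a1).1.2
    exact this
  obtain ⟨x, hx, hcg⟩ := cgV v j ρ0 hu (by
    have : ∀ᶠ t in (U : Filter ℂ), ∃ ω' ∈ Dv v.H ρ, v.V j (t, ω t) = v.V j (t, ω') :=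
      hω'.mono fun t h => ⟨_, h, rfl⟩
    exact this)
  have hcg' : Tendsto (fun t => v.V j (t, ω t)) U (𝓝 x) := hcg
  have h3 : ¬Dp κ E c u := fun h => te u hu h x hx hcg
  obtain ⟨ρ₁, ρ1, h4⟩ : ∃ ρ₁ : ℝ, 0 < ρ₁ ∧ ¬∀ᶠ t in (U : Filter ℂ), b t ∈ De κ (c t) ρ₁ := by
    by_contra hn
    apply h3
    intro q q0
    have a1 : ∀ᶠ t in (U : Filter ℂ), b t ∈ De κ (c t) q := by
      by_contra a
      exact hn ⟨q, q0, a⟩
    have : ∀ᶠ t in (U : Filter ℂ), ∃ b' ∈ De κ (c t) q, v.V j (t, ω t) = E (t, b') := by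
      filter_upwards [a1, h2] with t a2 a3
      exact ⟨_, a2, a3.2.2.1⟩
    exact this
  have h5 : ∀ᶠ t in (U : Filter ℂ), ρ₁ < ‖b t‖ ∨ (κ = .neck ∧ ρ₁ * ‖b t‖ < ‖c t‖) := by
    filter_upwards [Ultrafilter.eventually_not.2 h4] with t a
    by_contra hn
    rw [not_or, not_lt, not_and] at hn
    exact a ⟨hn.1, fun h => not_lt.1 (hn.2 h)⟩
  rcases Ultrafilter.eventually_or.1 h5 with h6 | h6
  · have hβ : ∀ᶠ t in (U : Filter ℂ), b t ∈ An ρ₁ r' := by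
      filter_upwards [h6, h2] with t a1 a2 using ⟨a1.le, a2.2.1.1⟩
    have h7 := key v j p1 p2 rr hr hl ρ0 ρ1 hr' ε0 hω' hx hcg' π hβ fun δ δ0 => by
      filter_upwards [hβ, h2, hl (he.out ρ₁ r' ρ1 hr' δ δ0)] with t a1 a2 a3
      obtain ⟨w, a4, a5⟩ := a3 _ a1
      exact ⟨w, a4, a2.2.2.1.trans a5⟩
    obtain ⟨t, ⟨s, ξ, a1, a2, a3⟩, a4⟩ := (h7.and h2).exists
    exact a4.2.2.2 ⟨s, ξ, a1, a2, Or.inl a3⟩
  · have hk : κ = .neck := h6.exists.choose_spec.1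
    have hβ : ∀ᶠ t in (U : Filter ℂ), c t / b t ∈ An ρ₁ r' ∧ c t ≠ 0 := by
      filter_upwards [h6, h2] with t a1 a2
      have a3 := a2.2.1.2 hk
      have a4 : 0 < ‖c t‖ := lt_of_le_of_lt (by positivity) a1.2
      have a5 : 0 < ‖b t‖ := by
        refine (norm_nonneg _).lt_of_ne fun h => ?_
        rw [← h, mul_zero] at a3
        exact absurd a4 (not_lt.2 a3)
      refine ⟨⟨?_, ?_⟩, norm_pos_iff.1 a4⟩
      · rw [norm_div, le_div_iff₀ a5]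
        exact a1.2.le
      · rw [norm_div, div_le_iff₀ a5]
        exact a3
    have h7 := key v j p1 p2 rr hr hl ρ0 ρ1 hr' ε0 hω' hx hcg' π' (β := fun t => c t / b t)
      (hβ.mono fun _ h => h.1) fun δ δ0 => by
      filter_upwards [hβ, h2, hl (he.inn hk ρ₁ r' ρ1 hr' δ δ0)] with t a1 a2 a3
      obtain ⟨w, a4, a5⟩ := a3 _ a1.1
      refine ⟨w, a4, a2.2.2.1.trans ?_⟩
      have a6 : E (t, c t / (c t / b t)) = P π' (t, w) := a5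
      rwa [div_div_cancel₀ a1.2] at a6
    obtain ⟨t, ⟨s, ξ, a1, a2, a3⟩, a4⟩ := (h7.and h2).exists
    exact a4.2.2.2 ⟨s, ξ, a1, a2, Or.inr ⟨hk, a3⟩⟩

end OpenX

open OpenX Classical in
theorem openS : OpenOf := by
  intro hR M _ A S al s k hk v
  obtain ⟨P, r', e, r0', hr', p1, p2, eκ, ef, hD⟩ := hR M A S al s k v hk
  obtain ⟨r₁, r1, hr₁⟩ := small_r v.H
  have hr : ∀ σ, Sl v.H σ → ∀ w : ℂ, w ≠ 0 → ‖w‖ ≤ min r₁ r' → slot σ w ≠ 0 ∧ slot σ w ∉ v.H :=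
    fun σ hσ w h0 h => hr₁ σ hσ w h0 (h.trans (min_le_left _ _))
  have rr : min r₁ r' ≤ S.r₀ := (min_le_right _ _).trans (hr'.trans s.rr)
  obtain ⟨op, hop⟩ := desc (fun q : v.J × Bool => S.fl (v.sl q.1 (.inl q.2))) (fun _ => True)
    (fun q => S.fl (v.sl q.1 (.inl !q.2))) id fun q q' _ _ h => v.hom _ _ _ _ h
  obtain ⟨g, hg⟩ := desc S.fl (fun π => S.cm π ∈ al)
    (fun π => (if e.κ π = .neck then
      if S.cm (e.far π) ∈ al.erase k then .inl (.neck, some (S.fl (e.far π)))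
      else .inr (op (S.fl (e.far π))) else .inl (e.κ π, none) : (Kd × Option S.Sp) ⊕ S.Sp))
    Sum.inr (by
      intro π π' h h' hf
      obtain ⟨a1, a2⟩ := s.hom π h π' h' hf
      rw [← eκ] at a1 a2
      rw [← ef] at a2
      by_cases hn : e.κ π = .neck
      · have a3 := a2 hn
        simp only [if_pos hn, if_pos (a1 ▸ hn), a3, S.flc _ _ a3]
      · simp only [if_neg hn, if_neg (a1 ▸ hn), a1])
  obtain ⟨R, hRz⟩ := fixp (Kd.disc, (none : Option S.Sp)) g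
  have te : ∀ π, S.cm π ∈ al → ∀ u, A.Out u → Dp (e.κ π) (e.E π) (e.c π) u → ∀ k ∈ al,
      ∀ x ∈ S.C k, ¬Cg u x := fun π h u hu hd => s.te π h u hu ((hD π h u hu).1 hd)
  refine ⟨{
    J := v.J
    Js := Finset.univ
    H := fun _ => v.H
    V := v.V
    sl := v.sl
    P := P
    r := min r₁ r'
    Lv := {π | S.cm π ∈ al}
    e := res e (min_le_right _ _)
    Rz := R
    op := op
    r0 := lt_min r1 r0'
    rr := rr
    lv := fun π => ⟨fun h => ?_, fun h => ?_⟩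
    pal := fun π h => p1 π (Finset.ne_of_mem_erase h)
    psl := fun j _ σ hσ => p2 j σ hσ
    nal := fun j _ σ hσ => (v.cms j σ hσ).symm ▸ Finset.notMem_erase _ _
    inj := fun j _ j' _ σ σ' hσ hσ' h => ?_
    H0 := fun _ _ => v.H0
    isv := fun j _ ρ ρ0 => (v.lc ρ ρ0).mono fun t h ω hω =>
      ⟨(h j ω hω).1, fun ω' hω' e => ((h j ω hω).2 j ω' hω' e).2⟩
    pv := fun j _ => v.pv j
    vv := fun ρ ρ0 => (v.lc ρ ρ0).mono fun t h j _ j' _ ω hω ω' hω' e =>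
      ((h j ω hω).2 j' ω' hω' e).1
    ve := fun j _ π h => ve v j p1 p2 rr hr π (e.far π)
      (ise_mono (e.ise π h) (min_le_right _ _)) fun u hu hd => te π h u hu hd k hk
    hd := fun j _ a ha => ?_
    te := fun π h u hu hd k' hk' => te π h u hu hd k' (Finset.mem_of_mem_erase hk')
    tv := fun j _ ρ u ρ0 hu h k' hk' x hx hc => ?_
    cov := fun u hu => ?_
    rs := fun π h _ => ?_
    ops := fun j _ b => hop (j, b) trivial }⟩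
  · by_cases h' : S.cm π = k
    · obtain ⟨⟨j, σ⟩, h1, -⟩ := v.bij π h'
      exact Or.inr ⟨j, Finset.mem_univ _, σ, h1⟩
    · exact Or.inl (Finset.mem_erase.2 ⟨h', h⟩)
  · rcases h with h | ⟨j, -, σ, h1, rfl⟩
    · exact Finset.mem_of_mem_erase h
    · exact show S.cm (v.sl j σ) ∈ al from (v.cms j σ h1).symm ▸ hk
  · exact Prod.mk.inj ((v.bij _ (v.cms j σ hσ)).unique (y₁ := (j, σ)) (y₂ := (j', σ'))
      ⟨hσ, rfl⟩ ⟨hσ', h.symm⟩)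
  · have h1 : Sl v.H (.inr a) := fun a' h => Sum.inr.inj h ▸ ha
    by_contra hn
    refine v.oph j a ha ⟨_, rfl, (v.cms j _ h1).symm ▸ hk, ?_⟩
    rw [← eκ]
    exact hn
  · obtain ⟨c, h1, h2⟩ := cgV v j ρ0 hu h
    have h3 : c = x := tendsto_nhds_unique h2 hc
    exact Finset.ne_of_mem_erase hk' (S.disj _ _ x hx (h3 ▸ h1))
  · rcases s.cov u hu with ⟨k', h1, x, h2, h3⟩ | ⟨π, h1, h2⟩
    · by_cases h' : k' = k
      · obtain ⟨ρ, ρ0, h4⟩ := v.cov x (h' ▸ h2)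
        obtain ⟨j, h5⟩ := Ultrafilter.eventually_exists_iff.1 (h4 u hu h3)
        exact Or.inr (Or.inr ⟨j, Finset.mem_univ _, ρ, ρ0, h5⟩)
      · exact Or.inl ⟨k', Finset.mem_erase.2 ⟨h', h1⟩, x, h2, h3⟩
    · exact Or.inr (Or.inl ⟨π, h1, (hD π h1 u hu).2 h2⟩)
  · rw [hRz, hg π h]
    show _ = if e.κ π = .neck then
      if S.cm (e.far π) ∈ al.erase k then (Kd.neck, some (S.fl (e.far π)))
      else R (op (S.fl (e.far π))) else (e.κ π, none)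
    split_ifs <;> rfl

end Pool.Agent.MP_c69980_ag.G3
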