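import Pool.Agent.MP_c69980_ag.G3.PrjA
import Pool.Agent.MP_c69980_ag.E1.Mon
import Pool.Agent.MP_c69980_ag.E2.Base

/-!
The family over an end, inside the space of projectors, satisfies the abstract rules.
-/

set_option autoImplicit false

noncomputable section

namespace Pool.Agent.MP_c69980_ag.G3

open Metric Filter Topology Set
open H60 H4 E1

namespace PrjX

variable {n : ℕ} {X : Set (Pt n)} {W U : Set (PS n)} {m : ℕ} {Φ : Fin 3 → Pt n → V n → ℂ}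
  {σ M₀ : ℝ} {Y Y' : C2 → Wg n} {p : C2} {a j : Fin n} {O : Set C2} {G g : C2 → V n}
  {φ : C2 → ℂ} {t w w' z : ℂ}

/-- `Y` is the chart `G` after the change of variable `φ`. -/
structure NF (X : Set (Pt n)) (Y : C2 → Wg n) (p : C2) (a j : Fin n) (O : Set C2) (G : C2 → V n)
    (φ : C2 → ℂ) : Prop where
  ch : Chart X a j O G
  mem : (p.1, φ p) ∈ O
  an : AnalyticAt ℂ φ p
  d0 : dw φ p ≠ 0
  eq : ∀ᶠ q in 𝓝 p, Y q = prj (G (q.1, φ q))

lemma NF.evO (h : NF X Y p a j O G φ) : ∀ᶠ q in 𝓝 p, (q.1, φ q) ∈ O :=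
  (psi_t h.an).eventually (h.ch.nhds h.mem)

lemma NF.ev (h : NF X Y p a j O G φ) : ∀ᶠ q in 𝓝 p, NF X Y q a j O G φ := by
  filter_upwards [h.evO, h.an.eventually_analyticAt, (dw_an h.an).continuousAt.eventually_ne h.d0,
    h.eq.eventually_nhds] with q a b c d using ⟨h.ch, a, b, c, d⟩

lemma NF.lt (h : NF X Y p a j O G φ) : Lt Y p fun q => G (q.1, φ q) :=
  ⟨(h.ch.an h.mem).comp_of_eq (psi_an h.an) rfl, h.ch.ne h.mem, h.eq⟩

lemma NF.lc (h : NF X Y p a j O G φ) : LCc X Y p := by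
  refine ⟨_, h.lt, h.evO.mono fun q e => h.ch.mem e, h.ch.rx (p := (p.1, φ p)) h.mem (.refl _),
    ?_⟩
  rw [dz, fd_comp (h.ch.an h.mem) h.an, wg_smul_right]
  exact smul_ne_zero h.d0 (h.ch.wg_ne h.mem)

lemma NF.comp {θ : C2 → ℂ} (h : NF X Y (p.1, θ p) a j O G φ) (h1 : AnalyticAt ℂ θ p)
    (h0 : dw θ p ≠ 0) (e : ∀ᶠ q in 𝓝 p, Y' q = Y (q.1, θ q)) :
    NF X Y' p a j O G fun q => φ (q.1, θ q) :=
  ⟨h.ch, h.mem, h.an.comp_of_eq (psi_an h1) rfl, by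
    rw [dw_comp h.an h1]
    exact mul_ne_zero h0 h.d0, by
    filter_upwards [e, (psi_t h1).eventually h.eq] with q a b using a.trans b⟩

lemma dz_eq (hg : AnalyticAt ℂ g p) (hG : AnalyticAt ℂ G (p.1, φ p)) (h : AnalyticAt ℂ φ p)
    (e : ∀ᶠ q in 𝓝 p, g q = g q j • G (q.1, φ q)) : dz g p =
      (g p j * dw φ p) • dz G (p.1, φ p) + dw (fun q => g q j) p • G (p.1, φ p) := by
  have e' : g =ᶠ[𝓝 p] fun q => g q j • G (q.1, φ q) := e
  have k : AnalyticAt ℂ (fun q : C2 => G (q.1, φ q)) p := hG.comp_of_eq (psi_an h) rfl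
  rw [dz, e'.fderiv_eq, fderiv_fun_smul (analyticAt_pi_iff.1 hg j).differentiableAt
    k.differentiableAt]
  simp only [add_apply, smul_apply, ContinuousLinearMap.smulRight_apply]
  rw [fd_comp hG h, smul_smul]
  rfl

lemma nf_at (hX : Cn X) (h : LCc X Y p) (c : Chart X a j O G) (hz : (p.1, z) ∈ O)
    (e : Y p = prj (G (p.1, z))) : ∃ φ, φ p = z ∧ NF X Y p a j O G φ := by
  obtain ⟨g, ⟨g1, g2, g3⟩, g4, -, g5⟩ := h
  have q : Pp (g p) (G (p.1, z)) := (pe g2 (c.ne hz)).1 (g3.self_of_nhds.symm.trans e)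
  have e1 : g p a / g p j = z := c.div hz q
  have an : AnalyticAt ℂ (fun q => g q a / g q j) p :=
    (analyticAt_pi_iff.1 g1 a).div (analyticAt_pi_iff.1 g1 j) (c.eq hz q).1
  have ev := ((continuousAt_fst (p := p)).tendsto.prodMk_nhds g1.continuousAt).eventually
    (c.ev (p := (p.1, z)) hX hz q)
  have hz' : (p.1, g p a / g p j) ∈ O := e1 ▸ hz
  refine ⟨fun q => g q a / g q j, e1, c, hz', an, fun d => g5 ?_, ?_⟩
  · rw [dz_eq g1 (c.an hz') an (j := j) (by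
      filter_upwards [ev, g4] with q a b using (a b).2.2), d, mul_zero, zero_smul, zero_add, e1,
      (c.eq hz q).2, wg_smul, wg_self, smul_zero]
  · filter_upwards [ev, g4, g3] with q a b d
    exact d.trans (pe' ⟨_, (a b).1, (a b).2.2⟩ (c.ne (a b).2.1))

lemma nf (hX : Cn X) (h : LCc X Y p) : ∃ a j O G φ, NF X Y p a j O G φ := by
  obtain ⟨g, ⟨-, -, g3⟩, -, ⟨a, j, O, G, c, z, hz, q⟩, -⟩ := id h
  obtain ⟨φ, -, f⟩ := nf_at hX h c hz (g3.self_of_nhds.trans (pe' q (c.ne hz)))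
  exact ⟨a, j, O, G, φ, f⟩

lemma NF.pp (h : NF X Y p a j O G φ) (l : Lt Y p g) : ∀ᶠ q in 𝓝 p, Pp (g q) (G (q.1, φ q)) := by
  filter_upwards [h.evO, h.eq, l.2.2, l.1.continuousAt.eventually_ne l.2.1] with q a b c d
  exact (pe d (h.ch.ne a)).1 (c.symm.trans b)

lemma NF.zz (hX : Cn X) (h : NF X Y p a j O G φ) :
    (p.1, Y p) ∈ Im (E2.Op X U) ↔ G (p.1, φ p) ∈ Cone U := by
  refine ⟨fun ⟨x, hx, e⟩ => E2.cone_pp hx.2 ((pe (h.ch.ne h.mem) (hX.nz x hx.1)).1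
    (h.eq.self_of_nhds.symm.trans (congrArg Prod.snd e).symm)), fun q =>
    ⟨(p.1, G (p.1, φ p)), ⟨h.ch.mem h.mem, q⟩, by rw [h.eq.self_of_nhds]⟩⟩

open Classical in
/-- The coefficients of the forms. -/
def cfc (U : Set (PS n)) (Φ : Fin 3 → Pt n → V n → ℂ) (Y : C2 → Wg n) (p : C2) (l : Fin 3) : ℂ :=
  if h : ∃ g, Lt Y p g ∧ g p ∈ Cone U then Φ l (p.1, h.choose p) (dz h.choose p) else 0

lemma NF.phi (H : AH X W U m Φ σ M₀) (h : NF X Y p a j O G φ) (l : Lt Y p g) (u : g p ∈ Cone U)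
    (i : Fin 3) : Φ i (p.1, g p) (dz g p) = dw φ p ^ m * fc Φ G i (p.1, φ p) := by
  have e := h.pp l
  obtain ⟨c0, e0⟩ := h.ch.eq h.mem e.self_of_nhds
  have := H.hom a j O G h.ch _ h.mem (E2.cone_pp u e.self_of_nhds.symm) (g p j) (g p j * dw φ p)
    (dw (fun q => g q j) p) i c0
  rwa [← e0, ← dz_eq l.1 (h.ch.an h.mem) h.an (by
    filter_upwards [e, h.evO] with q a b using (h.ch.eq b a).2), mul_div_cancel_left₀ _ c0] at this

lemma NF.cf (H : AH X W U m Φ σ M₀) (h : NF X Y p a j O G φ) (u : G (p.1, φ p) ∈ Cone U)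
    (i : Fin 3) : cfc U Φ Y p i = dw φ p ^ m * fc Φ G i (p.1, φ p) := by
  have k : ∃ g, Lt Y p g ∧ g p ∈ Cone U := ⟨_, h.lt, u⟩
  rw [cfc, dif_pos k, h.phi H k.choose_spec.1 k.choose_spec.2]

lemma NF.cf0 (h : NF X Y p a j O G φ) (u : G (p.1, φ p) ∉ Cone U) (i : Fin 3) :
    cfc U Φ Y p i = 0 :=
  dif_neg fun ⟨_, l, q⟩ => u (E2.cone_pp q (h.pp l).self_of_nhds.symm)

lemma NF.evU (H : AH X W U m Φ σ M₀) (h : NF X Y p a j O G φ) (u : G (p.1, φ p) ∈ Cone U) :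
    ∀ᶠ q in 𝓝 p, G (q.1, φ q) ∈ Cone U := by
  filter_upwards [h.lt.1.continuousAt.eventually (H.eqp.ev u), h.evO] with q a b
  exact a (H.cw _ (h.ch.mem b))

lemma NF.cfan (H : AH X W U m Φ σ M₀) (h : NF X Y p a j O G φ) (u : G (p.1, φ p) ∈ Cone U)
    (i : Fin 3) : AnalyticAt ℂ (fun q => cfc U Φ Y q i) p := by
  refine (((dw_an h.an).pow m).mul
    ((H.an a j O G h.ch _ h.mem u i).comp_of_eq (psi_an h.an) rfl)).congr ?_
  filter_upwards [h.ev, h.evU H u] with q a b using (a.cf H b i).symm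

lemma sl_t (t w : ℂ) : Tendsto (fun b : ℂ => ((t, b) : C2)) (𝓝 w) (𝓝 (t, w)) :=
  Continuous.tendsto' (by fun_prop) _ _ rfl

lemma onto (hX : Cn X) (h : LCc X Y p) (N : Set C2) (hN : N ∈ 𝓝 p) :
    ∀ᶠ x in 𝓝 (p.1, Y p), x ∈ Im X → ∃ w, (x.1, w) ∈ N ∧ Y (x.1, w) = x.2 := by
  obtain ⟨a, j, O, G, φ, f⟩ := nf hX h
  obtain ⟨χ, c1, c2, c3⟩ := inv f.an f.d0
  have c : Tendsto (fun q : C2 => (q.1, χ q)) (𝓝 (p.1, φ p)) (𝓝 p) := by
    simpa [c2.self_of_nhds] using psi_t c1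
  have k := (f.ch.tend f.mem (.refl _)).eventually
    ((c.eventually ((eventually_mem_set.2 hN).and f.eq)).and c3)
  rw [f.eq.self_of_nhds]
  filter_upwards [near hX (f.ch.ne f.mem) (k.and (f.ch.ev hX f.mem (.refl _)))] with x q hx
  obtain ⟨v, v1, v2, ⟨⟨v3, v4⟩, v5⟩, v6⟩ := q hx
  refine ⟨_, v3, v4.trans ?_⟩
  rw [v2, v5]
  exact (pe' ⟨_, (v6 v1).1, (v6 v1).2.2⟩ (f.ch.ne (v6 v1).2.1)).symm

lemma linj (hX : Cn X) (h : LCc X Y p) :
    ∀ᶠ q in 𝓝 (p, p.2), Y q.1 = Y (q.1.1, q.2) → q.1.2 = q.2 := by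
  obtain ⟨a, j, O, G, φ, f⟩ := nf hX h
  obtain ⟨χ, -, c2, -⟩ := inv f.an f.d0
  have k := f.evO.and (f.eq.and c2)
  have c : Tendsto (fun q : C2 × ℂ => ((q.1.1, q.2) : C2)) (𝓝 (p, p.2)) (𝓝 p) :=
    Continuous.tendsto' (by fun_prop) _ _ rfl
  filter_upwards [(continuousAt_fst (p := (p, p.2))).eventually k, c.eventually k] with q
    ⟨a1, a2, a3⟩ ⟨b1, b2, b3⟩ e
  have := (f.ch.pp_iff b1 a1).1 ((pe (f.ch.ne a1) (f.ch.ne b1)).1 (a2.symm.trans (e.trans b2)))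
  rw [← a3, this]
  exact b3

lemma trans (hX : Cn X) (h : LCc X Y (t, w)) (h' : LCc X Y' (t, w')) (e : Y (t, w) = Y' (t, w')) :
    ∃ θ : C2 → ℂ, AnalyticAt ℂ θ (t, w') ∧ θ (t, w') = w ∧ dw θ (t, w') ≠ 0 ∧
      ∀ᶠ q in 𝓝 ((t, w') : C2), Y' q = Y (q.1, θ q) := by
  obtain ⟨a, j, O, G, φ, f⟩ := nf hX h
  obtain ⟨φ', e', f'⟩ := nf_at hX h' f.ch f.mem (e.symm.trans f.eq.self_of_nhds)
  obtain ⟨χ, c1, c2, c3⟩ := inv f.an f.d0
  have an : AnalyticAt ℂ (fun q : C2 => χ (q.1, φ' q)) (t, w') :=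
    c1.comp_of_eq (psi_an f'.an) (by rw [e'])
  have e1 : χ (t, φ' (t, w')) = w := by
    rw [e']
    exact c2.self_of_nhds
  have k : ∀ᶠ q in 𝓝 ((t, w') : C2), φ (q.1, χ (q.1, φ' q)) = φ' q := by
    rw [← e'] at c3
    exact (psi_t f'.an).eventually c3
  refine ⟨_, an, e1, fun d => f'.d0 ?_, ?_⟩
  · rw [← dw_congr k, dw_comp (by rw [e1]; exact f.an) an, d, zero_mul]
  · have c := psi_t an
    simp only [e1] at c
    filter_upwards [k, f'.eq, c.eventually f.eq] with q a b c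
    rw [b, c, a]

lemma pole (H : AH X W U m Φ σ M₀) (ht : M₀ < σ * t.re) (h : LCc X Y (t, 0))
    (hz : ∀ᶠ b in 𝓝[≠] (0 : ℂ), (t, Y (t, b)) ∈ Im (E2.Op X U)) :
    ∃ A : ℝ, ∀ᶠ b in 𝓝[≠] (0 : ℂ), ∀ l, ‖b ^ m * cfc U Φ Y (t, b) l‖ ≤ A := by
  obtain ⟨a, j, O, G, φ, f⟩ := nf H.cn h
  have s := (sl_t t 0).mono_left (nhdsWithin_le_nhds (s := {0}ᶜ))
  suffices ∃ L : Fin 3 → ℂ, Tendsto (fun b l => b ^ m * cfc U Φ Y (t, b) l) (𝓝[≠] 0) (𝓝 L) by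
    obtain ⟨L, hL⟩ := this
    exact ⟨‖L‖ + 1, (hL.norm.eventually_le_const (lt_add_one _)).mono fun b q l =>
      (norm_le_pi_norm _ l).trans q⟩
  by_cases u : G (t, φ (t, 0)) ∈ Cone U
  · exact ⟨_, tendsto_pi_nhds.2 fun l => ((continuous_pow m).tendsto 0).mono_left
      nhdsWithin_le_nhds |>.mul ((f.cfan H u l).continuousAt.tendsto.comp s)⟩
  obtain ⟨ζ, F, -, z2, z3, z4⟩ := H.pole a j O G f.ch _ f.mem ht u
  have s' := (psi_t f.an).comp s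
  have d := (hasDerivAt_iff_tendsto_slope.1 (hasDerivAt_dw f.an)).inv₀ f.d0
  refine ⟨_, tendsto_pi_nhds.2 fun l => ((d.pow m).mul ((((dw_an f.an).continuousAt.tendsto.comp
    s).pow m).mul ((z3 l).continuousAt.tendsto.comp s'))).congr' ?_⟩
  filter_upwards [s.eventually f.ev, hz, s'.eventually z4] with b b1 b2 b3
  have b4 := (b1.zz H.cn).1 b2
  have b5 := b3.1.1 b4
  simp only [Function.comp_apply] at b3 b5 z2 ⊢
  rw [b1.cf H b4, b3.2 b5, slope_def_field, z2, sub_zero, inv_div, div_pow]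
  rw [z2] at b5
  field_simp [pow_ne_zero m (sub_ne_zero.2 b5)]

lemma lift {s : ℂ → Wg n} (hX : Cn X) (hs : HSc X s t) (h : LCc X Y (t, w)) (e : s t = Y (t, w)) :
    ∃ ω : ℂ → ℂ, AnalyticAt ℂ ω t ∧ ω t = w ∧ ∀ᶠ t' in 𝓝 t, s t' = Y (t', ω t') := by
  obtain ⟨a, j, O, G, φ, f⟩ := nf hX h
  obtain ⟨χ, c1, c2, c3⟩ := inv f.an f.d0
  obtain ⟨g, g1, g2, g3⟩ := hs
  have q : Pp (g t) (G (t, φ (t, w))) := (pe g2 (f.ch.ne f.mem)).1
    (g3.self_of_nhds.1.symm.trans (e.trans f.eq.self_of_nhds))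
  have e1 : g t a / g t j = φ (t, w) := f.ch.div f.mem q
  have an : AnalyticAt ℂ (fun v => (v, g v a / g v j)) t := analyticAt_id.prod
    ((analyticAt_pi_iff.1 g1 a).div (analyticAt_pi_iff.1 g1 j) (f.ch.eq f.mem q).1)
  have an' : AnalyticAt ℂ (fun v => χ (v, g v a / g v j)) t := c1.comp_of_eq an (by rw [e1])
  have e2 : χ (t, g t a / g t j) = w := by
    rw [e1]
    exact c2.self_of_nhds
  have c : Tendsto (fun v => (v, g v a / g v j)) (𝓝 t) (𝓝 (t, φ (t, w))) := by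
    simpa [ContinuousAt, e1] using an.continuousAt
  have c' : Tendsto (fun v => (v, χ (v, g v a / g v j))) (𝓝 t) (𝓝 (t, w)) := by
    simpa [ContinuousAt, e2] using (analyticAt_id.prod an').continuousAt
  refine ⟨_, an', e2, ?_⟩
  filter_upwards [g3, c.eventually c3, c'.eventually f.eq, (tendsto_id.prodMk_nhds
    g1.continuousAt).eventually (f.ch.ev hX f.mem q)] with v v1 v2 v3 v4
  rw [v1.1, v3, v2]
  exact pe' ⟨_, (v4 v1.2).1, (v4 v1.2).2.2⟩ (f.ch.ne (v4 v1.2).2.1)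

lemma nent (H : AH X W U m Φ σ M₀) (ht : M₀ < σ * t.re) :
    ¬∀ w, LCc X Y (t, w) ∧ (t, Y (t, w)) ∈ Im (E2.Op X U) := fun h => by
  obtain ⟨B, hB⟩ := H.hyp t ht
  choose g g1 g2 _ g4 using fun w => (h w).1
  have an : ∀ w, AnalyticAt ℂ (fun v => g w (t, v)) w := fun w =>
    (g1 w).1.comp_of_eq (analyticAt_const.prod analyticAt_id) rfl
  have pp : ∀ w, ∀ᶠ v in 𝓝 w, Pp (g v (t, v)) (g w (t, v)) := fun w => by
    filter_upwards [(sl_t t w).eventually (g1 w).2.2,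
      (an w).continuousAt.eventually_ne (g1 w).2.1] with v a b
    exact (pe (g1 v).2.1 b).1 ((g1 v).2.2.self_of_nhds.symm.trans a)
  have l0 : 0 < lam (fun v => g 0 (t, v)) 0 := by
    rw [lam, (hasDerivAt_dz (g1 0).1.differentiableAt).deriv]
    exact LocX.lamv_pos (g4 0)
  have k : ∀ r : ℝ, 0 < r → lam (fun v => g 0 (t, v)) 0 * r ^ 2 ≤ B := fun r r0 => by
    obtain ⟨F, f1, f2⟩ := E1.lift n (fun v => g v (t, v)) 0 r (r + 1) (lt_add_one r)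
      (lh_iff.2 fun w _ => ⟨_, an w, (g1 w).2.1, pp w⟩)
    rw [← lam_eq (Crv.an f1 isOpen_ball (mem_ball_self r0)) (an 0) (g1 0).2.1 (by
      filter_upwards [ball_mem_nhds 0 r0, pp 0] with v a b using (f2 v a).symm.trans b)]
    refine hB F 0 r r0 ⟨f1, differentiableOn_const _, fun v hv => ?_⟩
    obtain ⟨⟨s, y⟩, hx, e⟩ := (h v).2
    obtain rfl : s = t := congrArg Prod.fst e
    exact E2.op_pp H.cn hx ((f2 v hv).symm.trans ((pe (g1 v).2.1 (H.cn.nz _ hx.1)).1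
      ((g1 v).2.2.self_of_nhds.symm.trans (congrArg Prod.snd e).symm)))
  obtain ⟨r, r0, r1⟩ := ((eventually_gt_atTop 0).and
    (((tendsto_pow_atTop two_ne_zero).const_mul_atTop l0).eventually_gt_atTop B)).exists
  exact r1.not_ge (k r r0)

lemma vert (H : AH X W U m Φ σ M₀) (c : Fin 3 → ℂ) (ht : M₀ < σ * t.re) (h : LCc X Y (t, w))
    (hz : (t, Y (t, w)) ∈ Im (E2.Op X U)) :
    ¬∀ᶠ w' in 𝓝 w, ∃ κ : ℂ, ∀ l, cfc U Φ Y (t, w') l = κ * c l := fun k => by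
  obtain ⟨a, j, O, G, φ, f⟩ := nf H.cn h
  obtain ⟨χ, -, c2, -⟩ := inv f.an f.d0
  refine infinite_of_mem_nhds w ?_ ((H.vert t ht a j O G f.ch c).image fun ζ => χ (t, ζ))
  filter_upwards [k, (sl_t t w).eventually (f.ev.and ((f.evU H ((f.zz H.cn).1 hz)).and c2))] with v
    ⟨κ, hκ⟩ ⟨v1, v2, v3⟩
  refine ⟨φ (t, v), ⟨v1.mem, v2, κ / dw φ (t, v) ^ m, fun l => ?_⟩, v3⟩
  rw [div_mul_eq_mul_div, ← hκ, v1.cf H v2, mul_div_cancel_left₀ _ (pow_ne_zero _ v1.d0)]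

/-- The family. -/
def amb (H : AH X W U m Φ σ M₀) : Amb (Wg n) where
  σ := σ
  M₀ := M₀
  m := m
  Zb := Im X
  Z := Im (E2.Op X U)
  LC := LCc X
  HS := HSc X
  cf := cfc U Φ
  hσ := H.hσ
  M0 := H.M0
  m0 := H.m0
  sub := image_mono fun _ h => h.1
  opn := by
    rintro _ ⟨⟨t, y⟩, hx, rfl⟩
    filter_upwards [near H.cn (H.cn.nz _ hx.1) ((continuousAt_snd (p := (t, y))).eventually
      (H.eqp.ev hx.2))] with x q hx'
    obtain ⟨v, v1, v2, v3⟩ := q hx'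
    exact ⟨(x.1, v), ⟨v1, v3 (H.cw _ v1)⟩, Prod.ext rfl v2.symm⟩
  ev := fun _ _ h => by
    obtain ⟨a, j, O, G, φ, f⟩ := nf H.cn h
    exact f.ev.mono fun _ => NF.lc
  cont := fun _ _ ⟨_, l, _⟩ =>
    ((pc l.2.1).comp l.1.continuousAt).congr (l.2.2.mono fun _ => Eq.symm)
  mem := fun _ p ⟨g, l, e, _⟩ => ⟨(p.1, g p), e.self_of_nhds, by rw [l.2.2.self_of_nhds]⟩
  onto := fun _ _ => onto H.cn
  linj := fun _ _ => linj H.cn
  trans := fun _ _ _ _ _ => trans H.cn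
  comp := fun _ _ p θ h h1 h0 e => by
    obtain ⟨a, j, O, G, φ, f⟩ := nf H.cn h
    have f' := f.comp h1 h0 e
    refine ⟨f'.lc, fun l => ?_⟩
    by_cases u : G (p.1, φ (p.1, θ p)) ∈ Cone U
    · rw [f'.cf H u, f.cf H u, dw_comp f.an h1, mul_pow, mul_assoc]
    · rw [f'.cf0 u, f.cf0 u, mul_zero]
  an := fun _ _ h hz l => by
    obtain ⟨a, j, O, G, φ, f⟩ := nf H.cn h
    exact f.cfan H ((f.zz H.cn).1 hz) l
  pole := fun _ _ => pole H
  hsev := fun _ _ ⟨g, g1, g2, g3⟩ => by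
    filter_upwards [g1.eventually_analyticAt, g1.continuousAt.eventually_ne g2, g3.eventually_nhds]
      with v a b c using ⟨g, a, b, c⟩
  hsc := fun _ _ ⟨_, g1, g2, g3⟩ =>
    ((pc g2).comp g1.continuousAt).congr (g3.mono fun _ e => e.1.symm)
  lift := fun _ _ _ _ => lift H.cn
  nent := fun _ _ => nent H
  vert := fun _ _ _ => vert H

end PrjX

theorem ambS : AmbOf := fun _ _ _ _ _ _ _ _ _ H => ⟨PrjX.amb H, rfl, rfl, rfl, rfl, rfl,
  fun _ _ => Iff.rfl, fun _ _ => Iff.rfl, fun _ _ _ h l u i => by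
    obtain ⟨a, j, O, G, φ, f⟩ := PrjX.nf H.cn h
    exact (f.cf H (E2.cone_pp u (f.pp l).self_of_nhds.symm) i).trans (f.phi H l u i).symm⟩

theorem ambAll : AmbStmt := ambS prjS

end Pool.Agent.MP_c69980_ag.G3
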