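import Pool.Agent.MP_c69980_ag.G3.SpecW

/-!
The transition map of two matched charts, and the symmetry of matching.
-/

set_option autoImplicit false

noncomputable section

namespace Pool.Agent.MP_c69980_ag.G3

open Metric Filter Topology Set

namespace PhiX

variable {M : Type} [MetricSpace M]

theorem opn (A : Amb M) : Opn A.l := by
  intro s hs
  obtain ⟨b, hb, h⟩ := mem_comap.1 hs
  obtain ⟨a, ha⟩ := mem_atTop_sets.1 hb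
  refine ⟨A.dp ⁻¹' Ioi a, preimage_mem_comap (Ioi_mem_atTop a), isOpen_Ioi.preimage ?_,
    fun t ht => h (ha _ (le_of_lt ht))⟩
  unfold Amb.dp
  fun_prop

theorem neBot (A : Amb M) : A.l.NeBot := by
  refine NeBot.comap_of_surj inferInstance fun x => ⟨((A.σ * x : ℝ) : ℂ), ?_⟩
  rw [Amb.dp, Complex.ofReal_re]
  rcases A.hσ with h | h <;> rw [h] <;> ring

open Classical in
/-- The transition map. -/
def tm (Y P : C2 → M) (D : Set ℂ) (q : C2) : ℂ :=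
  if h : ∃ w ∈ D, Y q = P (q.1, w) then h.choose else 0

omit [MetricSpace M] in
theorem tm_eq {Y P : C2 → M} {D : Set ℂ} {q : C2} {w : ℂ} (hw : w ∈ D) (h : Y q = P (q.1, w))
    (hi : ∀ w' ∈ D, P (q.1, w) = P (q.1, w') → w = w') : tm Y P D q = w := by
  have e : ∃ w ∈ D, Y q = P (q.1, w) := ⟨w, hw, h⟩
  rw [tm, dif_pos e]
  exact (hi _ e.choose_spec.1 (h.symm.trans e.choose_spec.2)).symm

end PhiX

theorem phiS : PhiStmt := by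
  intro M _ A
  refine ⟨PhiX.opn A, PhiX.neBot A, fun Y P Ψ K D η hη _ hM hY hP hD => ⟨PhiX.tm Y P D, ?_, ?_⟩⟩
  · obtain ⟨o, ho, h1, h2⟩ := PhiX.opn A _ hP
    filter_upwards [ho, hY, hM η hη] with t ht k1 k2 ξ hξ
    obtain ⟨w, hw, e⟩ := k2 ξ hξ
    have hb : w ∈ ball (Ψ ξ) η := mem_ball_iff_norm.2 hw
    obtain ⟨φ, a1, a2, a3, a4⟩ := A.trans P Y t w ξ (h2 ht w (hD ξ hξ hb)).1 (k1 ξ hξ) e.symm
    have e1 : PhiX.tm Y P D =ᶠ[𝓝 (t, ξ)] φ := by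
      filter_upwards [a4, continuous_fst.continuousAt.eventually (h1.mem_nhds ht),
        a1.continuousAt.eventually (isOpen_ball.mem_nhds (a2 ▸ hb))] with q q1 q2 q3
      exact PhiX.tm_eq (hD ξ hξ q3) q1 (h2 q2 _ (hD ξ hξ q3)).2
    have e2 : PhiX.tm Y P D (t, ξ) = w := e1.eq_of_nhds.trans a2
    refine ⟨a1.congr e1.symm, ?_, e2 ▸ hD ξ hξ hb, by rw [e2, e]⟩
    rwa [dw, e1.fderiv_eq]
  · intro ε hε
    filter_upwards [hP, hM _ (lt_min hε hη)] with t k1 k2 ξ hξ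
    obtain ⟨w, hw, e⟩ := k2 ξ hξ
    have hb : w ∈ D := hD ξ hξ (mem_ball_iff_norm.2 (hw.trans_le (min_le_right _ _)))
    rw [PhiX.tm_eq hb e (k1 w hb).2]
    exact (hw.trans_le (min_le_left _ _)).le

theorem symS : SymOf := by
  intro hΦ hI M _ A Y P r₁ ρ₁ ρ₂ r₂ _ h1 h2 hM hY hP ε hε
  obtain ⟨ho, -, h⟩ := hΦ M A
  obtain ⟨η, hη, e1, e2⟩ : ∃ η : ℝ, 0 < η ∧ r₁ + 4 * η ≤ ρ₁ ∧ ρ₂ + 4 * η ≤ r₂ :=
    ⟨min (ρ₁ - r₁) (r₂ - ρ₂) / 4, by have := lt_min (sub_pos.2 h1) (sub_pos.2 h2); positivity,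
      by linarith [min_le_left (ρ₁ - r₁) (r₂ - ρ₂)],
      by linarith [min_le_right (ρ₁ - r₁) (r₂ - ρ₂)]⟩
  have op : ∀ a b : ℝ, IsOpen {ξ : ℂ | a < ‖ξ‖ ∧ ‖ξ‖ < b} := fun a b =>
    (isOpen_lt continuous_const continuous_norm).inter (isOpen_lt continuous_norm continuous_const)
  have nb : ∀ (ξ w : ℂ) (δ : ℝ), w ∈ ball ξ δ → ‖ξ‖ - δ < ‖w‖ ∧ ‖w‖ < ‖ξ‖ + δ := fun ξ w δ k => by
    have := abs_lt.1 ((abs_norm_sub_norm_le w ξ).trans_lt (mem_ball_iff_norm.1 k))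
    constructor <;> linarith [this.1, this.2]
  have sub : ∀ ξ ∈ {ξ : ℂ | r₁ + η < ‖ξ‖ ∧ ‖ξ‖ < r₂ - η}, ξ ∈ An r₁ r₂ := fun ξ k =>
    ⟨by linarith [k.1], by linarith [k.2]⟩
  obtain ⟨Φ, p1, p2⟩ := h Y P id _ (An r₁ r₂) η hη (op (r₁ + η) (r₂ - η))
    (fun δ hδ => (hM δ hδ).mono fun t k ξ hξ => k ξ (sub ξ hξ))
    (hY.mono fun t k ξ hξ => k ξ (sub ξ hξ)) hP fun ξ k w hw => by
      have := nb ξ w η hw
      exact ⟨by linarith [k.1, this.1], by linarith [k.2, this.2]⟩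
  have hρ : 0 < min ε η := lt_min hε hη
  obtain ⟨T, t1, t2, t3⟩ := ho _ (p1.and (p2 (min ε η / 4) (by positivity)))
  have inK : ∀ ζ ∈ {ξ : ℂ | ρ₁ - η < ‖ξ‖ ∧ ‖ξ‖ < ρ₂ + η}, ∀ ξ ∈ ball ζ (2 * min ε η),
      ξ ∈ {ξ : ℂ | r₁ + η < ‖ξ‖ ∧ ‖ξ‖ < r₂ - η} := fun ζ k ξ hξ => by
    have := nb ζ ξ _ hξ
    have := min_le_right ε η
    exact ⟨by linarith [k.1], by linarith [k.2]⟩
  obtain ⟨g, hg⟩ := hI T _ Φ _ t2 (op (ρ₁ - η) (ρ₂ + η)) hρ fun t ht ζ k ξ hξ =>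
    ⟨((t3 ht).1 ξ (inK ζ k ξ hξ)).1, (t3 ht).2 ξ (inK ζ k ξ hξ)⟩
  filter_upwards [t1] with t ht ζ k
  have k' : ζ ∈ {ξ : ℂ | ρ₁ - η < ‖ξ‖ ∧ ‖ξ‖ < ρ₂ + η} := ⟨by linarith [k.1], by linarith [k.2]⟩
  obtain ⟨-, -, g1, g2, -⟩ := hg t ht ζ k'
  refine ⟨g (t, ζ), (mem_ball_iff_norm.1 g1).trans_le (min_le_left _ _), ?_⟩
  rw [((t3 ht).1 _ (inK ζ k' _ (ball_subset_ball (by linarith) g1))).2.2.2, g2]

end Pool.Agent.MP_c69980_ag.G3
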