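import Pool.Agent.MP_c69980_ag.G3.RecoA
import Pool.Agent.MP_c69980_ag.G3.Phi

/-!
Change of the coordinates at ports.
-/

set_option autoImplicit false

noncomputable section

namespace Pool.Agent.MP_c69980_ag.G3

open Metric Filter Topology Set

namespace RecoX

open GlueX MergeX

variable {M : Type} [MetricSpace M] {A : Amb M}

lemma slot_inj (σ : Bool ⊕ ℂ) : Function.Injective (slot σ) := by
  rcases σ with (_ | _) | a
  exacts [fun _ _ h => h, inv_injective, add_right_injective a]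

lemma slot_cont (σ : Bool ⊕ ℂ) {ξ : ℂ} (h : ξ ≠ 0) : ContinuousAt (slot σ) ξ := by
  rcases σ with (_ | _) | a
  exacts [continuousAt_id, continuousAt_inv₀ h, (continuous_const.add continuous_id).continuousAt]

lemma slot_lc {V : C2 → M} (σ : Bool ⊕ ℂ) {t ξ : ℂ} (h : ξ ≠ 0) (hV : A.LC V (t, slot σ ξ)) :
    A.LC (sv V σ) (t, ξ) := by
  rcases σ with (_ | _) | a
  · exact hV
  · exact comp_inv h hV
  · exact comp1 (g := fun z => a + z) hV (analyticAt_const.add analyticAt_id) (by simp)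

lemma cpt_dv {K : Set ℂ} (hK : IsCompact K) (H : Finset ℂ) (h : ∀ ω ∈ K, ω ≠ 0 ∧ ω ∉ H) :
    ∃ ρ : ℝ, 0 < ρ ∧ K ⊆ Dv H ρ := by
  have ev : ∀ g : ℂ → ℝ, ContinuousOn g K → (∀ ω ∈ K, 0 < g ω) →
      ∀ᶠ x in 𝓝[>] (0 : ℝ), ∀ ω ∈ K, x ≤ g ω := fun g hg h0 => by
    obtain ⟨a, a0, ha⟩ := hK.exists_forall_le' hg h0
    exact nhdsWithin_le_nhds ((ge_mem_nhds a0).mono fun x hx ω hω => hx.trans (ha ω hω))
  obtain ⟨ρ, k0, k1, k2, k3⟩ := ((show ∀ᶠ x in 𝓝[>] (0 : ℝ), 0 < x from self_mem_nhdsWithin).and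
    ((ev _ continuous_norm.continuousOn fun ω hω => norm_pos_iff.2 (h ω hω).1).and
    ((ev _ (continuous_norm.continuousOn.inv₀ fun ω hω => norm_ne_zero_iff.2 (h ω hω).1)
      fun ω hω => inv_pos.2 (norm_pos_iff.2 (h ω hω).1)).and
    (H.eventually_all.2 fun a ha => ev (fun ω => ‖ω - a‖) (by fun_prop) fun ω hω =>
      norm_pos_iff.2 (sub_ne_zero.2 fun e => (h ω hω).2 (e ▸ ha)))))).exists
  exact ⟨ρ, k0, fun ω hω => ⟨k1 ω hω, le_inv_of_le_inv₀ k0 (k2 ω hω), fun a ha => k3 a ha ω hω⟩⟩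

lemma slot_dv (H : Finset ℂ) (σ : Bool ⊕ ℂ) : ∃ δ : ℝ, 0 < δ ∧ ∀ x : ℝ, 0 < x →
    ∃ ρ : ℝ, 0 < ρ ∧ ∀ ξ ∈ An x δ, slot σ ξ ∈ Dv H ρ := by
  classical
  have e := ((slot_inj σ).tendsto_cofinite.eventually
    (insert 0 H).eventually_cofinite_notMem).filter_mono (nhdsNE_le_cofinite (0 : ℂ))
  obtain ⟨δ, δ0, hδ⟩ := nhds_basis_closedBall.eventually_iff.1 (eventually_nhdsWithin_iff.1 e)
  refine ⟨δ, δ0, fun x x0 => ?_⟩
  have h0 : ∀ ξ ∈ An x δ, ξ ≠ 0 := fun ξ hξ => norm_pos_iff.1 (x0.trans_le hξ.1)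
  have hc : IsCompact (An x δ) := (isCompact_closedBall (0 : ℂ) δ).of_isClosed_subset
    ((isClosed_le continuous_const continuous_norm).inter
      (isClosed_le continuous_norm continuous_const)) fun ξ hξ => mem_closedBall_zero_iff.2 hξ.2
  obtain ⟨ρ, ρ0, hρ⟩ := cpt_dv (hc.image_of_continuousOn fun ξ hξ =>
    (slot_cont σ (h0 ξ hξ)).continuousWithinAt) H (by
      rintro _ ⟨ξ, hξ, rfl⟩
      simpa using hδ (mem_closedBall_zero_iff.2 hξ.2) (h0 ξ hξ))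
  exact ⟨ρ, ρ0, fun ξ hξ => hρ ⟨ξ, hξ, rfl⟩⟩

end RecoX

open RecoX MergeX

theorem recoS : RecoOf := by
  classical
  intro hφ hI M _ A S P Lv r ρ₀ e π Q Ψ r0 ρ0 hπ an z d0 hQ hP
  obtain ⟨χ, δ, C, h⟩ := ex_lc an z d0
  generalize deriv Ψ 0 = L at h
  have C0 : 0 < C := one_pos.trans_le h.C1
  have Cq : 1 ≤ C ^ 2 := one_le_pow₀ h.C1
  have δ0 := h.δ0
  obtain ⟨r', p0, p1, p2, p3⟩ : ∃ r' : ℝ, 0 < r' ∧ C ^ 2 * r' < r ∧ 2 * (C * r') ≤ δ ∧ r' ≤ ρ₀ :=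
    ⟨min (r / 2 / C ^ 2) (min (δ / 2 / C) ρ₀), by positivity,
      ((le_div_iff₀' (by positivity)).1 (min_le_left _ _)).trans_lt (half_lt_self r0),
      by linarith [(le_div_iff₀' C0).1 ((min_le_right (r / 2 / C ^ 2) _).trans
        (min_le_left (δ / 2 / C) ρ₀))], (min_le_right _ _).trans (min_le_right _ _)⟩
  have p4 : r' ≤ r := (le_mul_of_one_le_left p0.le Cq).trans p1.le
  have p5 : C * r' ≤ δ := by linarith [mul_pos C0 p0]
  have i1 := h.ise (symS hφ hI) (e.ise π hπ) p0 p1 p2 p3 hQ hP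
  obtain ⟨E', c', e1, e2, e3, e4⟩ : ∃ (E' : S.Prt → C2 → M) (c' : S.Prt → ℂ → ℂ),
      (E' π = fun q => e.E π (q.1, Ψ q.2)) ∧ (c' π = fun t => e.c π t / L) ∧
      (e.κ π = .neck → (E' (e.far π) = fun q => E' π (q.1, c' π q.1 / q.2)) ∧
        c' (e.far π) = c' π) ∧
      ∀ x, x ≠ π → ¬(e.κ π = .neck ∧ x = e.far π) → E' x = e.E x ∧ c' x = e.c x :=
    ⟨fun x => if x = π then fun q => e.E π (q.1, Ψ q.2) else if e.κ π = .neck ∧ x = e.far π then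
        fun q => e.E π (q.1, Ψ (e.c π q.1 / L / q.2)) else e.E x,
      fun x => if x = π ∨ (e.κ π = .neck ∧ x = e.far π) then fun t => e.c π t / L else e.c x,
      by simp, by simp, fun k => by simp [k, (e.nk π hπ k).2.1], fun x h1 h2 => by
        simp only [if_neg h1, if_neg h2, if_neg (not_or.2 ⟨h1, h2⟩), and_self]⟩
  rw [← e1, ← e2] at i1
  have tri : ∀ x, x = π ∨ (e.κ π = .neck ∧ x = e.far π) ∨
      (x ≠ π ∧ ¬(e.κ π = .neck ∧ x = e.far π)) := fun x => by tauto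
  have oth : ∀ x ∈ Lv, e.κ x = .neck → x ≠ π → ¬(e.κ π = .neck ∧ x = e.far π) →
      e.far x ≠ π ∧ ¬(e.κ π = .neck ∧ e.far x = e.far π) := fun x hx k h1 h2 => by
    obtain ⟨-, -, k1, k2, -⟩ := e.nk x hx k
    exact ⟨fun q => h2 ⟨q ▸ k2, q ▸ k1.symm⟩,
      fun q => h1 (by rw [← k1, q.2, (e.nk π hπ q.1).2.2.1])⟩
  have sub : ∀ x ∈ Lv, Sub A.l (e.κ x) (e.E x) (e.c x) (E' x) (c' x) (C ^ 2) r' ∧
      Sub A.l (e.κ x) (E' x) (c' x) (e.E x) (e.c x) (C ^ 2) r' := fun x hx => by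
    have s0 : ∀ κ, Sub A.l κ (e.E π) (e.c π) (E' π) (c' π) (C ^ 2) r' ∧
        Sub A.l κ (E' π) (c' π) (e.E π) (e.c π) (C ^ 2) r' := fun κ => by
      rw [e1, e2]
      exact ⟨h.fw p5, h.bw p5⟩
    rcases tri x with rfl | ⟨k, rfl⟩ | ⟨h1, h2⟩
    · exact s0 _
    · obtain ⟨-, -, -, k1, k2, k3⟩ := e.nk π hπ k
      have n0 := (c_ne (e.ise π hπ) k).and (c_ne i1 k)
      rw [k1, k2, (e3 k).2]
      have k4 : ∀ᶠ t in A.l, ∀ b, E' (e.far π) (t, b) = E' π (t, c' π t / b) :=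
        .of_forall fun t b => by rw [(e3 k).1]
      exact ⟨(s0 _).1.flip (n0.mono fun t ht => ⟨ht.1.2, ht.2.2⟩) k3 k4,
        (s0 _).2.flip (n0.mono fun t ht => ⟨ht.2.2, ht.1.2⟩) k4 k3⟩
    · rw [(e4 x h1 h2).1, (e4 x h1 h2).2]
      exact ⟨sub_rfl Cq, sub_rfl Cq⟩
  have pe0 : Pd S.N (E' π) ∧ Function.Periodic (c' π) (tp S.N) := by
    rw [e1, e2]
    exact ⟨fun t w => (e.pe π hπ).1 t _, fun t => by simp only [(e.pe π hπ).2 t]⟩
  refine ⟨r', p0, p4, ⟨e.κ, E', c', e.far, fun x hx => ?_, fun x hx => ?_, fun x hx k => ?_,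
    fun s hs => ?_⟩, rfl, rfl, fun x hx u hu => ⟨(sub x hx).1.dp (by positivity) p0 hu,
      (sub x hx).2.dp (by positivity) p0 hu⟩⟩
  · rcases tri x with rfl | ⟨k, rfl⟩ | ⟨h1, h2⟩
    · exact pe0
    · rw [(e3 k).1, (e3 k).2]
      exact ⟨fun t w => by simp only [pe0.2 t, pe0.1 t], pe0.2⟩
    · rw [(e4 x h1 h2).1, (e4 x h1 h2).2]
      exact e.pe x hx
  · rcases tri x with rfl | ⟨k, rfl⟩ | ⟨h1, h2⟩
    · rw [Function.update_self]
      exact mono i1 le_rfl fun k => Function.update_of_ne (e.nk x hπ k).2.1 _ _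
    · obtain ⟨-, k0, k1, k2, -⟩ := e.nk π hπ k
      rw [k] at i1
      rw [k1, k2, (e3 k).1, (e3 k).2, Function.update_self, Function.update_of_ne k0]
      exact flip i1
    · rw [(e4 x h1 h2).1, (e4 x h1 h2).2, Function.update_of_ne h1]
      exact mono (e.ise x hx) p4 fun k => Function.update_of_ne (oth x hx k h1 h2).1 _ _
  · obtain ⟨k0, k1, k2, k3, k4, k5⟩ := e.nk x hx k
    refine ⟨k0, k1, k2, k3, ?_⟩
    rcases tri x with rfl | ⟨k', rfl⟩ | ⟨h1, h2⟩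
    · exact ⟨(e3 k).2, .of_forall fun t b => by rw [(e3 k).1]⟩
    · rw [(e.nk π hπ k').2.2.1, (e3 k').1, (e3 k').2]
      exact ⟨rfl, (c_ne i1 k').mono fun t ht b => by simp only [div_div_cancel₀ ht.2]⟩
    · obtain ⟨h3, h4⟩ := oth x hx k h1 h2
      rw [(e4 x h1 h2).1, (e4 x h1 h2).2, (e4 _ h3 h4).1, (e4 _ h3 h4).2]
      exact ⟨k4, k5⟩
  · have al : ∀ᶠ t in A.l, ∀ x, x ∈ Lv → ∀ b ∈ De (e.κ x) (c' x t) r',
        ∃ b₀ ∈ De (e.κ x) (e.c x t) (C ^ 2 * r'), E' x (t, b) = e.E x (t, b₀) :=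
      eventually_all.2 fun x => eventually_imp_distrib_left.2 fun hx =>
        (sub x hx).1.mono fun t ht => ht r' le_rfl
    filter_upwards [al, e.dj _ p1] with t h1 h2 x hx y hy b hb b' hb' q
    obtain ⟨b₀, k1, k2⟩ := h1 x hx b (de_mono hb hs.le)
    obtain ⟨b₁, k3, k4⟩ := h1 y hy b' (de_mono hb' hs.le)
    exact h2 x hx y hy b₀ k1 b₁ k3 (k2.symm.trans (q.trans k4))

theorem recoAS : RecoAOf := by
  classical
  intro hR M _ A S al s k v hk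
  have main : ∀ T : Finset S.Prt, (∀ π ∈ T, S.cm π = k) → ∃ (P : S.Prt → C2 → M) (r' : ℝ)
      (e' : Edg S P {π | S.cm π ∈ al} r'), 0 < r' ∧ r' ≤ s.r ∧ (∀ π, π ∉ T → P π = S.P π) ∧
      (∀ j σ, Sl v.H σ → v.sl j σ ∈ T → P (v.sl j σ) = sv (v.V j) σ) ∧ e'.κ = s.e.κ ∧
      e'.far = s.e.far ∧ ∀ π, S.cm π ∈ al → ∀ u, A.Out u →
        (Dp (e'.κ π) (e'.E π) (e'.c π) u ↔ s.e.Dp π u) := fun T => by
    induction T using Finset.induction_on with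
    | empty =>
      exact fun _ => ⟨S.P, s.r, ⟨s.e.κ, s.e.E, s.e.c, s.e.far, s.e.pe, s.e.ise, s.e.nk, s.e.dj⟩,
        s.r0, le_rfl, fun _ _ => rfl, fun _ _ _ h => absurd h (Finset.notMem_empty _), rfl, rfl,
        fun _ _ _ _ => Iff.rfl⟩
    | insert π T hπ ih =>
      intro hT
      obtain ⟨P, r, e, r0, rr, h1, h2, h3, h4, h5⟩ :=
        ih fun x hx => hT x (Finset.mem_insert_of_mem hx)
      have hc := hT π (Finset.mem_insert_self _ _)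
      obtain ⟨⟨j, σ⟩, ⟨q1, q2⟩, q3⟩ := v.bij π hc
      obtain ⟨δ, δ0, hδ⟩ := slot_dv v.H σ
      obtain ⟨g1, g2, g3⟩ := v.germ j σ q1
      obtain ⟨r', p0, p1, e', k1, k2, k3⟩ := hR M A S P _ r (min δ v.ρ₀) e π (sv (v.V j) σ)
        (v.Ψ j σ) r0 (lt_min δ0 v.ρ0) (show S.cm π ∈ al from hc ▸ hk) g1 g2 g3 (fun ρ ρ0 => by
          obtain ⟨ρ', a0, a1⟩ := hδ ρ ρ0
          rw [h1 π hπ, ← q2]
          exact ⟨fun ε hε => (v.mt j σ ρ q1 ρ0 ε hε).mono fun t ht ξ hξ =>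
            ht ξ ⟨hξ.1, hξ.2.trans (min_le_right _ _)⟩, (v.lc ρ' a0).mono fun t ht ξ hξ =>
              slot_lc σ (norm_pos_iff.1 (ρ0.trans_le hξ.1))
                (ht j _ (a1 ξ ⟨hξ.1, hξ.2.trans (min_le_left _ _)⟩)).1.1⟩) fun ρ x ρ0 hx => by
          have a1 : x < S.r₀ := hx.trans_le (rr.trans s.rr)
          rw [h1 π hπ]
          exact (S.Plc ρ ρ0).mono fun t ht w hw => ⟨(ht π w hw.1 (hw.2.trans_lt a1)).1.1,
            fun w' hw' q => ((ht π w hw.1 (hw.2.trans_lt a1)).2.2 π w' hw'.1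
              (hw'.2.trans_lt a1) q).2⟩
      refine ⟨_, r', e', p0, p1.trans rr, fun x hx => ?_, fun j' σ' a1 a2 => ?_, k1.trans h3,
        k2.trans h4, fun x hx u hu => (k3 x hx u hu).trans (h5 x hx u hu)⟩
      · rw [Finset.mem_insert, not_or] at hx
        rw [Function.update_of_ne hx.1, h1 x hx.2]
      · by_cases a3 : v.sl j' σ' = π
        · obtain ⟨rfl, rfl⟩ := Prod.mk.inj (q3 (j', σ') ⟨a1, a3⟩)
          rw [a3, Function.update_self]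
        · rw [Function.update_of_ne a3, h2 j' σ' a1 ((Finset.mem_insert.1 a2).resolve_left a3)]
  obtain ⟨P, r', e', h1, h2, h3, h4, h5⟩ := main (Finset.univ.filter fun π => S.cm π = k)
    fun π h => (Finset.mem_filter.1 h).2
  exact ⟨P, r', e', h1, h2, fun π h => h3 π (by simpa using h),
    fun j σ h => h4 j σ h (by simpa using v.cms j σ h), h5⟩

end Pool.Agent.MP_c69980_ag.G3
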