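import Pool.Agent.MP_c69980_ag.G3.SpecI

/-!
Brody sequences of bounded scale do not exist in a stable state.
-/

set_option autoImplicit false

noncomputable section

namespace Pool.Agent.MP_c69980_ag.G3

open Metric Filter Topology Set

namespace ShalX

variable {M : Type} [MetricSpace M] {A : Amb M} {S : Sk A} {al : Finset S.Cmp}

/-- Near `w`, the charts `Y` converge to `ψ`, which is continuous and injective at `w`. -/
def Nice (l : Filter ℂ) (Y : C2 → M) (ψ : ℂ → M) (w : ℂ) : Prop :=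
  ∃ K ∈ 𝓝 w, Lm l Y ψ K ∧ ContinuousOn ψ K ∧ ∀ v ∈ K, ψ v = ψ w → v = w

theorem Nice.comp {l : Filter ℂ} {Y : C2 → M} {ψ : ℂ → M} {φ : ℂ → ℂ} {w d : ℂ}
    (h : Nice l Y ψ (φ w)) (hc : Continuous φ) (hd : HasDerivAt φ d w) (d0 : d ≠ 0) :
    Nice l (fun p => Y (p.1, φ p.2)) (fun v => ψ (φ v)) w := by
  obtain ⟨K, hK, h1, h2, h3⟩ := h
  have h4 : ∀ᶠ v in 𝓝 w, φ v = φ w → v = w := by
    filter_upwards [eventually_nhdsWithin_iff.1 (hd.eventually_ne (c := φ w) d0)] with v hv e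
    by_contra q
    exact hv q e
  exact ⟨φ ⁻¹' K ∩ _, inter_mem (hc.continuousAt hK) h4, (h1.comp φ).mono inter_subset_left,
    h2.comp hc.continuousOn fun v hv => hv.1, fun v hv e => hv.2 (h3 _ hv.1 e)⟩

theorem nice_edge (s : St S al) {π : S.Prt} (hπ : S.cm π ∈ al) {b : ℂ} (b0 : b ≠ 0)
    (br : ‖b‖ < s.r) : Nice A.l (s.e.E π) (S.p π) b := by
  have n0 : 0 < ‖b‖ := norm_pos_iff.2 b0
  obtain ⟨δ, δ0, δ1, δ2⟩ : ∃ δ : ℝ, 0 < δ ∧ 3 * δ ≤ ‖b‖ ∧ ‖b‖ + 2 * δ < s.r :=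
    ⟨min ‖b‖ (s.r - ‖b‖) / 3, by have := lt_min n0 (sub_pos.2 br); positivity,
      by linarith [min_le_left ‖b‖ (s.r - ‖b‖)], by linarith [min_le_right ‖b‖ (s.r - ‖b‖)]⟩
  have rr := s.rr
  have K2 : ∀ v ∈ closedBall b (2 * δ), δ ≤ ‖v‖ ∧ ‖v‖ ≤ ‖b‖ + 2 * δ := fun v hv => by
    have h1 := abs_norm_sub_norm_le v b
    rw [mem_closedBall, dist_eq_norm] at hv
    rw [abs_le] at h1
    constructor <;> linarith [h1.1, h1.2]
  have K3 : closedBall b (2 * δ) ⊆ ball 0 S.r₀ \ {0} := fun v hv =>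
    ⟨mem_ball_zero_iff.2 (by linarith [(K2 v hv).2]), fun e => by
      have := (K2 v hv).1
      rw [mem_singleton_iff.1 e, norm_zero] at this
      linarith⟩
  have K1 : closedBall b δ ⊆ closedBall b (2 * δ) := closedBall_subset_closedBall (by linarith)
  have hc := (S.pc π).1.mono K3
  have hu := Metric.uniformContinuousOn_iff.1
    ((isCompact_closedBall b (2 * δ)).uniformContinuousOn_of_continuous hc)
  have h4 : ∀ᶠ v in 𝓝 b, S.p π v = S.p π b → v = b := by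
    filter_upwards [eventually_nhdsWithin_iff.1 (S.pinj π b (K3 (mem_closedBall_self
      (by linarith))))] with v hv e
    by_contra q
    exact hv q e
  refine ⟨closedBall b δ ∩ _, inter_mem (closedBall_mem_nhds b δ0) h4,
    Metric.tendstoUniformlyOn_iff.2 fun ε hε => ?_, hc.mono (inter_subset_left.trans K1),
    fun v hv => hv.2⟩
  obtain ⟨δ', p0, p1⟩ := hu (ε / 2) (half_pos hε)
  filter_upwards [(s.e.ise π hπ).out δ (‖b‖ + 2 * δ) δ0 δ2 _ (lt_min δ0 p0),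
    Metric.tendstoUniformlyOn_iff.1 (S.Plm π δ δ0) _ (half_pos hε)] with t t1 t2 v hv
  obtain ⟨w, w1, w2⟩ := t1 v (K2 v (K1 hv.1))
  rw [id, ← dist_eq_norm, lt_min_iff] at w1
  have w3 : w ∈ closedBall b (2 * δ) := by
    have := dist_triangle w v b
    have := mem_closedBall.1 hv.1
    exact mem_closedBall.2 (by linarith [w1.1])
  have a1 := t2 w ⟨(K2 w w3).1, by linarith [(K2 w w3).2]⟩
  have a2 := p1 v (K1 hv.1) w w3 (by rw [dist_comm]; exact w1.2)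
  rw [w2]
  linarith [dist_triangle (S.p π v) (S.p π w) (S.P π (t, w))]

variable (a : CA S al)

/-- The coordinate on the component. -/
def tf : (M × ℕ) ⊕ S.Prt → ℂ → ℂ
  | .inl x => fun w => S.rad x.1 * w
  | .inr π => if a.s.e.κ π = .disc then fun w => a.r₃ * w else fun w => a.r₃ * Complex.exp w

/-- The component of a chart. -/
def km : (M × ℕ) ⊕ S.Prt → S.Cmp
  | .inl x => a.kf x.1
  | .inr π => S.cm π

/-- The limits of the domains. -/
def Cl : (M × ℕ) ⊕ S.Prt → Set ℂ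
  | .inl x => {w | x.1 ∈ a.F ∧ x.2 < S.a (a.kf x.1) ∧ ‖w‖ ≤ 3 / 4}
  | .inr π => {w | S.cm π ∈ al ∧ if a.s.e.κ π = .disc then ‖w‖ ≤ 3 / 4 else w.re ≤ -1 / 3}

/-- The centre of a disc. -/
def Ze (j : (M × ℕ) ⊕ S.Prt) (w : ℂ) : Prop := ∃ π, j = .inr π ∧ a.s.e.κ π = .disc ∧ w = 0

/-- The limit of a chart. -/
def lm (j : (M × ℕ) ⊕ S.Prt) (w : ℂ) : M := S.par (j.map Prod.fst id) (tf a j w)

variable {a} {j : (M × ℕ) ⊕ S.Prt} {t w : ℂ}

theorem cl_of (h : (t, w) ∈ a.O 3 j) : w ∈ Cl a j := by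
  rcases j with x | π
  · exact ⟨h.1, h.2.1, h.2.2.trans (by norm_num)⟩
  · refine ⟨h.1, ?_⟩
    have := h.2
    split_ifs at this ⊢
    · exact this.trans (by norm_num)
    · exact this.1.trans (by norm_num)

theorem cl_closed : IsClosed (Cl a j) := by
  rcases j with x | π
  · exact isClosed_const.inter (isClosed_const.inter (isClosed_le continuous_norm continuous_const))
  · simp only [Cl]
    split_ifs
    · exact isClosed_const.inter (isClosed_le continuous_norm continuous_const)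
    · exact isClosed_const.inter (isClosed_le Complex.continuous_re continuous_const)

theorem O_mono {θ θ' : ℝ} (h0 : 0 ≤ θ) (h1 : θ ≤ θ') (h2 : θ ≤ 4) : a.O θ j ⊆ a.O θ' j := by
  intro p hp
  rcases j with x | π
  · exact ⟨hp.1, hp.2.1, hp.2.2.trans (by linarith)⟩
  · refine ⟨hp.1, ?_⟩
    have := hp.2
    split_ifs at this ⊢
    · exact this.trans (by linarith)
    · refine ⟨this.1.trans (by linarith), fun e => ?_⟩
      have h3 := this.2 e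
      have h4 : 0 ≤ -Real.log ‖a.s.e.c π p.1‖ := by
        by_contra h5
        nlinarith [this.1]
      nlinarith

theorem sc_ge (h : (t, w) ∈ a.O 3 j) : 1 ≤ a.sc j (t, w) := by
  rcases j with x | π
  · exact le_rfl
  · have := (cl_of h).2
    simp only [CA.sc]
    split_ifs at this ⊢
    · exact le_rfl
    · linarith

theorem km_mem (h : w ∈ Cl a j) : km a j ∈ al := by
  rcases j with x | π
  · exact (a.hF _ h.1).1
  · exact h.1

theorem tf_cont : Continuous (tf a j) := by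
  rcases j with x | π
  · exact continuous_const.mul continuous_id
  · simp only [tf]
    split_ifs
    · exact continuous_const.mul continuous_id
    · exact continuous_const.mul Complex.continuous_exp

theorem tf_an (w : ℂ) : AnalyticAt ℂ (tf a j) w := by
  rcases j with x | π
  · exact analyticAt_const.mul analyticAt_id
  · simp only [tf]
    split_ifs
    · exact analyticAt_const.mul analyticAt_id
    · exact analyticAt_const.mul analyticAt_cexp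

theorem tf_der (h : w ∈ Cl a j) : ∃ d, d ≠ 0 ∧ HasDerivAt (tf a j) d w := by
  have r0 : (a.r₃ : ℂ) ≠ 0 := Complex.ofReal_ne_zero.2 a.r30.ne'
  rcases j with x | π
  · exact ⟨_, Complex.ofReal_ne_zero.2 (S.rad0 _ _ (a.hF _ h.1).2).ne',
      hasDerivAt_const_mul _⟩
  · simp only [tf]
    split_ifs
    · exact ⟨_, r0, hasDerivAt_const_mul _⟩
    · exact ⟨_, mul_ne_zero r0 (Complex.exp_ne_zero w), (Complex.hasDerivAt_exp w).const_mul _⟩

theorem tf_le (h : w ∈ Cl a j) :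
    ‖tf a j w‖ ≤ Sum.elim (fun c => 7 / 8 * S.rad c) (fun _ => a.r₃) (j.map Prod.fst id) := by
  have r0 := a.r30
  rcases j with x | π
  · have := S.rad0 _ _ (a.hF _ h.1).2
    simp only [tf, norm_mul, Complex.norm_real, Real.norm_of_nonneg this.le, Sum.map_inl,
      Sum.elim_inl]
    nlinarith [h.2.2]
  · have := h.2
    simp only [tf, Sum.map_inr, Sum.elim_inr]
    split_ifs at this ⊢
    · rw [norm_mul, Complex.norm_real, Real.norm_of_nonneg r0.le]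
      nlinarith
    · rw [norm_mul, Complex.norm_real, Real.norm_of_nonneg r0.le, Complex.norm_exp]
      exact mul_le_of_le_one_right r0.le (Real.exp_le_one_iff.2 (by linarith))

theorem tf_ne {π : S.Prt} (h : ¬Ze a (.inr π) w) : tf a (.inr π) w ≠ 0 := by
  have r0 : (a.r₃ : ℂ) ≠ 0 := Complex.ofReal_ne_zero.2 a.r30.ne'
  simp only [tf]
  split_ifs with e
  · exact mul_ne_zero r0 fun q => h ⟨π, rfl, e, q⟩
  · exact mul_ne_zero r0 (Complex.exp_ne_zero w)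

theorem dom_open (k : S.Cmp) (i : M ⊕ S.Prt) : IsOpen (S.dom k i) := by
  rcases i with c | π
  · exact isOpen_const.inter (isOpen_lt continuous_norm continuous_const)
  · exact isOpen_const.inter (isOpen_ne.inter (isOpen_lt continuous_norm continuous_const))

theorem par_mem {k : S.Cmp} {i : M ⊕ S.Prt} (h : w ∈ S.dom k i) : S.par i w ∈ S.C k := by
  rcases i with c | π
  · exact (S.ψc k c h.1).2.2 (mem_ball_zero_iff.2 h.2)
  · exact h.1 ▸ (S.pc π).2 ⟨mem_ball_zero_iff.2 h.2.2, h.2.1⟩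

theorem tf_dom (h : w ∈ Cl a j) (hz : ¬Ze a j w) :
    tf a j w ∈ S.dom (km a j) (j.map Prod.fst id) := by
  have h1 := tf_le h
  rcases j with x | π
  · have h2 := (a.hF _ h.1).2
    have := S.rad0 _ _ h2
    exact ⟨h2, h1.trans_lt (by simp only [Sum.map_inl, Sum.elim_inl]; linarith)⟩
  · exact ⟨rfl, tf_ne hz, h1.trans_lt (a.r3r.trans_le a.s.rr)⟩

theorem nice (h : w ∈ Cl a j) (hz : ¬Ze a j w) : Nice A.l (a.Y j) (lm a j) w := by
  obtain ⟨d, d0, hd⟩ := tf_der h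
  have h1 := tf_dom h hz
  have h2 := tf_le h
  rcases j with x | π
  · have h3 := S.ψc _ _ h1.1
    have h4 := mem_ball_zero_iff.2 h1.2
    exact Nice.comp (φ := tf a (.inl x)) ⟨_, isOpen_ball.mem_nhds h4, S.Tlm _ _ h1.1 _ h.2.1, h3.1,
      fun v hv e => h3.2.1 hv h4 e⟩ tf_cont hd d0
  · have e : a.Y (.inr π) = fun p => a.s.e.E π (p.1, tf a (.inr π) p.2) := by
      funext p
      simp only [CA.Y, tf]
      split_ifs <;> rfl
    rw [e]
    exact (nice_edge a.s h.1 h1.2.1 (h2.trans_lt a.r3r)).comp tf_cont hd d0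

theorem near4 (h : w ∈ Cl a j) : ∃ K ∈ 𝓝 w, ∀ᶠ t in A.l, ∀ v ∈ K, (t, v) ∈ a.O 4 j := by
  have n1 : ∀ v ∈ ball w (1 / 8), ‖w‖ ≤ 3 / 4 → ‖v‖ ≤ (3 + 4) / 8 := fun v hv hw => by
    linarith [norm_le_of_mem_closedBall (ball_subset_closedBall hv)]
  refine ⟨ball w (1 / 8), ball_mem_nhds _ (by norm_num), ?_⟩
  rcases j with x | π
  · exact .of_forall fun t v hv => ⟨h.1, h.2.1, n1 v hv h.2.2⟩
  have h2 := h.2
  have n2 : ∀ v ∈ ball w (1 / 8), |v.re - w.re| < 1 / 8 := fun v hv =>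
    (Complex.abs_re_le_norm (v - w)).trans_lt (mem_ball_iff_norm.1 hv)
  have n3 : ∀ᶠ t in A.l, a.s.e.κ π = .neck → -w.re * 2 + 1 ≤ -Real.log ‖a.s.e.c π t‖ := by
    by_cases e : a.s.e.κ π = .neck
    swap
    · exact .of_forall fun t q => absurd q e
    obtain ⟨c1, K, c2⟩ := (a.s.e.ise π h.1).cc e
    filter_upwards [c2, c1.norm.eventually_le_const (u := Real.exp (w.re * 2 - 1))
      (by simpa using Real.exp_pos _)] with t t1 t2 _
    have := (Real.log_le_iff_le_exp ((Real.exp_pos _).trans_le t1.2)).2 t2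
    linarith
  filter_upwards [n3] with t ht v hv
  refine ⟨h.1, ?_⟩
  split_ifs at h2 ⊢
  · exact n1 v hv h2
  · have := abs_lt.1 (n2 v hv)
    exact ⟨by linarith [this.2], fun e => by linarith [ht e, this.1]⟩

/-- A shift of the logarithm. -/
theorem shift (h : (t, w) ∈ a.O 3 j) : ∃ d : ℂ, (∀ t w, a.Y j (t, w + d) = a.Y j (t, w)) ∧
    (∀ θ t w, (t, w) ∈ a.O θ j → (t, w + d) ∈ a.O θ j) ∧
    (∀ t w, a.sc j (t, w + d) = a.sc j (t, w)) ∧ ‖w + d‖ ≤ a.sc j (t, w) + 4 := by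
  have h1 := cl_of h
  have h2 := sc_ge h
  have triv : ‖w‖ ≤ 3 / 4 → ∃ d : ℂ, (∀ t w, a.Y j (t, w + d) = a.Y j (t, w)) ∧
      (∀ θ t w, (t, w) ∈ a.O θ j → (t, w + d) ∈ a.O θ j) ∧
      (∀ t w, a.sc j (t, w + d) = a.sc j (t, w)) ∧ ‖w + d‖ ≤ a.sc j (t, w) + 4 := fun e =>
    ⟨0, by simp, by simp, by simp, by rw [add_zero]; linarith⟩
  rcases j with x | π
  · exact triv h1.2.2
  have h3 := h1.2
  split_ifs at h3 with e
  · exact triv h3
  have e1 : (Complex.log (Complex.exp w) - w).re = 0 := by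
    rw [Complex.sub_re, Complex.log_re, Complex.norm_exp, Real.log_exp, sub_self]
  have e2 : Complex.exp (Complex.log (Complex.exp w) - w) = 1 := by
    rw [Complex.exp_sub, Complex.exp_log (Complex.exp_ne_zero w), div_self (Complex.exp_ne_zero w)]
  refine ⟨Complex.log (Complex.exp w) - w, fun t v => ?_, fun θ t v hv => ?_, fun t v => ?_, ?_⟩
  · simp only [CA.Y, e, if_false, Complex.exp_add, e2, mul_one]
  · simpa only [CA.O, e, if_false, mem_ofPred_eq, Complex.add_re, e1, add_zero] using hv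
  · simp only [CA.sc, Complex.add_re, e1, add_zero]
  · refine (Complex.norm_le_abs_re_add_abs_im _).trans ?_
    rw [Complex.add_re, e1, add_zero, add_sub_cancel, Complex.log_im]
    simp only [CA.sc, e, if_false]
    rw [abs_of_nonpos (by linarith)]
    linarith [Complex.abs_arg_le_pi (Complex.exp w), Real.pi_le_four]

theorem fin_ix : {j : (M × ℕ) ⊕ S.Prt | ∃ p, p ∈ a.O 1 j}.Finite := by
  refine (((a.F.finite_toSet.biUnion fun c _ => (finite_singleton c).prod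
    (finite_lt_nat (S.a (a.kf c)))).image Sum.inl).union (finite_range Sum.inr)).subset ?_
  rintro (x | π) ⟨p, hp⟩
  · exact Or.inl ⟨x, mem_biUnion hp.1 ⟨rfl, hp.2.1⟩, rfl⟩
  · exact Or.inr ⟨π, rfl⟩

/-- The rescaled parameter. -/
def tt (t : ℕ → ℂ) (ε : ℕ → ℝ) (k : ℕ) (z : ℂ) : ℂ := t k + ε k * z

variable {u : Ultrafilter ℕ} {t : ℕ → ℂ} {ε : ℕ → ℝ} {s : ℕ → ℂ → M} {i : (M × ℕ) ⊕ S.Prt}
  {ω : ℕ → ℂ → ℂ} {k : ℕ} {y z : ℂ}

theorem tt_zero : tt t ε k 0 = t k := by simp [tt]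

theorem tt_der (z : ℂ) : HasDerivAt (tt t ε k) (ε k) z := (hasDerivAt_const_mul _).const_add _

theorem tt_an (z : ℂ) : AnalyticAt ℂ (tt t ε k) z :=
  analyticAt_const.add (analyticAt_const.mul analyticAt_id)

theorem tt_ball (h : 0 < ε k) {r : ℝ} (hy : y ∈ ball z r) :
    tt t ε k y ∈ ball (tt t ε k z) (r * ε k) := by
  rw [mem_ball_iff_norm] at hy ⊢
  rw [tt, tt, add_sub_add_left_eq_sub, ← mul_sub, norm_mul, Complex.norm_real,
    Real.norm_of_nonneg h.le, mul_comm]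
  exact mul_lt_mul_of_pos_right hy h

theorem dp_ge (h : 0 < ε k) : A.dp (t k) - ε k * ‖z‖ ≤ A.dp (tt t ε k z) := by
  have h1 := abs_le.1 (Complex.abs_re_le_norm z)
  simp only [Amb.dp, tt, Complex.add_re, Complex.re_ofReal_mul]
  rcases A.hσ with e | e <;> rw [e] <;> nlinarith [h1.1, h1.2]

section Brd

variable (b : a.Brd u t ε s i ω)
include b

theorem small (R : ℝ) : ∀ᶠ k in (u : Filter ℕ), ε k * R ≤ A.dp (t k) := by
  filter_upwards [(tendsto_comap_iff.1 b.tl).eventually_gt_atTop 0,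
    (b.sm.mul_const R).eventually_le_const (u := 1) (by simp)] with k k1 k2
  rw [div_mul_eq_mul_div] at k2
  exact (div_le_one k1).1 k2

theorem tt_l (R : ℝ) : ∀ o ∈ A.l, ∀ᶠ k in (u : Filter ℕ), ∀ z, ‖z‖ ≤ R → tt t ε k z ∈ o := by
  rintro o ⟨V, hV, ho⟩
  obtain ⟨c, hc⟩ := mem_atTop_sets.1 hV
  filter_upwards [(tendsto_comap_iff.1 b.tl).eventually_ge_atTop (2 * c), small b (2 * R)] with
    k k1 k2 z hz
  have h1 := dp_ge (A := A) (t := t) (z := z) (b.ε0 k)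
  have h2 := mul_le_mul_of_nonneg_left hz (b.ε0 k).le
  exact ho (hc _ (by simp only [Function.comp] at k1; linarith))

theorem tt_l1 (z : ℂ) : Tendsto (fun k => tt t ε k z) u A.l := fun o ho =>
  (tt_l b ‖z‖ o ho).mono fun _ h => h z le_rfl

theorem sec_at (R : ℝ) : ∀ᶠ k in (u : Filter ℕ), ∀ z ∈ ball (0 : ℂ) R,
    A.HS (s k) (tt t ε k z) ∧ (tt t ε k z, s k (tt t ε k z)) ∈ A.Z :=
  (b.sec R).mono fun k hk _ hz => hk.1 _ (tt_zero (t := t) (ε := ε) ▸ tt_ball (b.ε0 k) hz)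

theorem lift_ev (hL : a.LiftP) : ∃ ρ : ℝ, 0 < ρ ∧ ∀ z, ∀ᶠ k in (u : Filter ℕ), ∀ j w,
    (tt t ε k z, w) ∈ a.O 2 j → s k (tt t ε k z) = a.Y j (tt t ε k z, w) → ∃ f : ℂ → ℂ,
      AnalyticOnNhd ℂ f (ball z ρ) ∧ f z = w ∧ ∀ y ∈ ball z ρ, (tt t ε k y, f y) ∈ a.O 3 j ∧
        s k (tt t ε k y) = a.Y j (tt t ε k y, f y) ∧ ‖f y - w‖ ≤ a.sc j (tt t ε k z, w) ∧
        a.sc j (tt t ε k y, f y) ≤ 2 * a.sc j (tt t ε k z, w) := by
  obtain ⟨κ, κ0, -, hκ⟩ := hL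
  refine ⟨κ / 2, half_pos κ0, fun z => ?_⟩
  filter_upwards [tt_l1 b z hκ, small b (‖z‖ + 1), b.sec (‖z‖ + 1 + κ / 2)] with k k1 k2 k3 j w h1 h2
  have e0 := b.ε0 k
  have h3 := dp_ge (A := A) (t := t) (z := z) e0
  have h4 : ball (tt t ε k z) (κ / 2 * ε k) ⊆ ball (t k) ((‖z‖ + 1 + κ / 2) * ε k) := by
    refine ball_subset_ball' ?_
    have := tt_ball (t := t) e0 (mem_ball_zero_iff.2 (lt_add_one ‖z‖))
    rw [tt_zero, mem_ball] at this
    linarith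
  obtain ⟨f, f1, f2, f3⟩ := k1 j w (s k) (κ / 2 * ε k) (2 / ε k) h1 (by positivity)
    (by nlinarith) (by positivity) (by field_simp; rfl) (fun x hx => k3.1 x (h4 hx)) h2
    fun x hx => k3.2 x (h4 hx)
  exact ⟨fun y => f (tt t ε k y), fun y hy => (f1 _ (tt_ball e0 hy)).comp (tt_an y), f2,
    fun y hy => have := f3 _ (tt_ball e0 hy); ⟨this.1, this.2.1, this.2.2.1, this.2.2.2.1⟩⟩

theorem cov_ev (hC : a.CovP) (z : ℂ) : ∀ᶠ k in (u : Filter ℕ), ∃ j w,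
    (tt t ε k z, w) ∈ a.O 1 j ∧ s k (tt t ε k z) = a.Y j (tt t ε k z, w) := by
  have h1 : ∀ᶠ t in A.l, ∀ π, S.cm π ∈ al → a.s.e.κ π = .cusp → (t, a.s.e.E π (t, 0)) ∉ A.Z := by
    refine eventually_all.2 fun π => ?_
    by_cases h : S.cm π ∈ al
    swap
    · exact .of_forall fun _ q => absurd q h
    filter_upwards [(a.s.e.ise π h).lc _ a.r3r] with t ht _ e q
    exact (ht 0 ⟨by simpa using a.r30.le, by simp [e]⟩).2.1.1 q e rfl
  filter_upwards [tt_l1 b z hC, tt_l1 b z h1, sec_at b (‖z‖ + 1)] with k k1 k2 k3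
  have h2 := (k3 z (mem_ball_zero_iff.2 (lt_add_one _))).2
  refine (k1 _ (A.sub h2)).resolve_right ?_
  rintro ⟨π, p1, p2, p3⟩
  exact k2 π p1 p2 (p3 ▸ h2)

/-- The scale is bounded at every point of the rescaled plane. -/
theorem sc_bd (hC : a.CovP) (hT : a.TrP) (hL : a.LiftP) {B : ℝ}
    (hB : ∀ᶠ k in (u : Filter ℕ), a.sc i (t k, ω k (t k)) ≤ B) (z : ℂ) :
    ∃ B : ℝ, ∀ᶠ k in (u : Filter ℕ), ∀ j w, (tt t ε k z, w) ∈ a.O 3 j →
      s k (tt t ε k z) = a.Y j (tt t ε k z, w) → a.sc j (tt t ε k z, w) ≤ B := by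
  obtain ⟨ρ, ρ0, hρ⟩ := lift_ev b hL
  obtain ⟨C, C1, hT⟩ := hT
  have key : ∀ (n : ℕ) (z : ℂ), ‖z‖ ≤ n * (ρ / 2) → ∃ B : ℝ, ∀ᶠ k in (u : Filter ℕ), ∀ j w,
      (tt t ε k z, w) ∈ a.O 3 j → s k (tt t ε k z) = a.Y j (tt t ε k z, w) →
      a.sc j (tt t ε k z, w) ≤ B := fun n => by
    induction n with
    | zero =>
      intro z hz
      obtain rfl : z = 0 := by simpa using hz
      refine ⟨C * B, ?_⟩
      filter_upwards [b.tl hT, hB, b.ctr] with k k1 k2 k3 j w h1 h2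
      rw [tt_zero] at h1 h2 ⊢
      exact (k1 j i w _ h1 k3.1.2.1 (h2.symm.trans k3.1.2.2.self_of_nhds)).1.trans
        (mul_le_mul_of_nonneg_left k2 (by linarith))
    | succ n ih =>
      intro z hz
      have n0 : (0 : ℝ) < n + 1 := by positivity
      obtain ⟨B', hB'⟩ := ih (((n / (n + 1) : ℝ) : ℂ) * z) (by
        rw [norm_mul, Complex.norm_real, Real.norm_of_nonneg (by positivity), div_mul_eq_mul_div,
          div_le_iff₀ n0]
        push_cast at hz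
        nlinarith [n.cast_nonneg (α := ℝ)])
      have hz' : z ∈ ball (((n / (n + 1) : ℝ) : ℂ) * z) ρ := by
        rw [mem_ball_iff_norm, ← one_sub_mul, norm_mul, ← Complex.ofReal_one, ← Complex.ofReal_sub,
          Complex.norm_real, show (1 - n / (n + 1) : ℝ) = 1 / (n + 1) by field_simp; ring,
          Real.norm_of_nonneg (by positivity), div_mul_eq_mul_div, div_lt_iff₀ n0]
        push_cast at hz
        nlinarith
      refine ⟨C * (2 * B'), ?_⟩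
      generalize ((n / (n + 1) : ℝ) : ℂ) * z = z' at hB' hz'
      filter_upwards [tt_l1 b z hT, hB', hρ z', cov_ev b hC z'] with k k1 k2 k3 ⟨j', w', k4, k5⟩
        j w h1 h2
      obtain ⟨f, -, -, f3⟩ := k3 j' w' (O_mono (by norm_num) (by norm_num) (by norm_num) k4) k5
      obtain ⟨g1, g2, -, g3⟩ := f3 z hz'
      have := k2 j' w' (O_mono (by norm_num) (by norm_num) (by norm_num) k4) k5
      exact (k1 j j' w _ h1 g1 (h2.symm.trans g2)).1.trans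
        (mul_le_mul_of_nonneg_left (by linarith) (by linarith))
  obtain ⟨n, hn⟩ := exists_nat_ge (‖z‖ / (ρ / 2))
  exact key n z ((div_le_iff₀ (half_pos ρ0)).1 hn)

end Brd

/-- Lifts to the chart `j` near `z` and their limit. -/
structure Pa (a : CA S al) (u : Ultrafilter ℕ) (t : ℕ → ℂ) (ε : ℕ → ℝ) (s : ℕ → ℂ → M)
    (j : (M × ℕ) ⊕ S.Prt) (z : ℂ) (ρ : ℝ) (f : ℕ → ℂ → ℂ) (g : ℂ → ℂ) : Prop where
  an : AnalyticOnNhd ℂ g (ball z ρ)
  dv : ∀ y ∈ ball z ρ, Tendsto (fun k => deriv (f k) y) u (𝓝 (deriv g y))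
  un : ∀ r < ρ, TendstoUniformlyOn f g u (closedBall z r)
  ev : ∀ᶠ k in (u : Filter ℕ), AnalyticOnNhd ℂ (f k) (ball z ρ) ∧ ∀ y ∈ ball z ρ,
    (tt t ε k y, f k y) ∈ a.O 3 j ∧ s k (tt t ε k y) = a.Y j (tt t ε k y, f k y)

variable {ρ : ℝ} {f : ℕ → ℂ → ℂ} {g : ℂ → ℂ}

theorem Pa.lim (h : Pa a u t ε s j z ρ f g) (hy : y ∈ ball z ρ) :
    Tendsto (fun k => f k y) u (𝓝 (g y)) := (h.un _ hy).tendsto_at (mem_closedBall.2 le_rfl)

theorem Pa.cl (h : Pa a u t ε s j z ρ f g) (hy : y ∈ ball z ρ) : g y ∈ Cl a j :=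
  cl_closed.mem_of_tendsto (h.lim hy) (h.ev.mono fun _ q => cl_of (q.2 y hy).1)

section Brd

variable (b : a.Brd u t ε s i ω)
include b

theorem patch (hM : MonStmt) (hL : a.LiftP) : ∃ ρ : ℝ, 0 < ρ ∧ ∀ z j (w : ℕ → ℂ) (B : ℝ),
    (∀ᶠ k in (u : Filter ℕ), (tt t ε k z, w k) ∈ a.O 2 j ∧
      s k (tt t ε k z) = a.Y j (tt t ε k z, w k) ∧ ‖w k‖ ≤ B ∧ a.sc j (tt t ε k z, w k) ≤ B) →
    ∃ f g, Pa a u t ε s j z ρ f g ∧ ∀ᶠ k in (u : Filter ℕ), f k z = w k := by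
  obtain ⟨ρ, ρ0, hρ⟩ := lift_ev b hL
  refine ⟨ρ, ρ0, fun z j w B h => ?_⟩
  obtain ⟨f, hf⟩ := ((h.and (hρ z)).mono fun k q => q.2 j (w k) q.1.1 q.1.2.1).choice
  obtain ⟨g, g1, g2, g3⟩ := hM ℕ u f z ρ (B + B) ((hf.and h).mono fun k q =>
    ⟨q.1.1.differentiableOn, fun y hy => by
      linarith [norm_le_norm_add_norm_sub' (f k y) (w k), (q.1.2.2 y hy).2.2.1, q.2.2.2.1,
        q.2.2.2.2]⟩)
  exact ⟨f, g, ⟨g1, fun y hy => (g2 y hy).2, g3, hf.mono fun k q =>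
    ⟨q.1, fun y hy => ⟨(q.2.2 y hy).1, (q.2.2 y hy).2.1⟩⟩⟩, hf.mono fun k q => q.2.1⟩

theorem pts (hC : a.CovP) (hT : a.TrP) (hL : a.LiftP) {B : ℝ}
    (hB : ∀ᶠ k in (u : Filter ℕ), a.sc i (t k, ω k (t k)) ≤ B) (z : ℂ) :
    ∃ (j : (M × ℕ) ⊕ S.Prt) (w : ℕ → ℂ) (B : ℝ), ∀ᶠ k in (u : Filter ℕ),
      (tt t ε k z, w k) ∈ a.O 2 j ∧ s k (tt t ε k z) = a.Y j (tt t ε k z, w k) ∧ ‖w k‖ ≤ B ∧
        a.sc j (tt t ε k z, w k) ≤ B := by
  obtain ⟨B', hB'⟩ := sc_bd b hC hT hL hB z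
  obtain ⟨j, -, hj⟩ := (Ultrafilter.eventually_exists_mem_iff (f := u) (fin_ix (a := a))
    (P := fun j k => ∃ w, (tt t ε k z, w) ∈ a.O 1 j ∧
      s k (tt t ε k z) = a.Y j (tt t ε k z, w))).1
    ((cov_ev b hC z).mono fun k ⟨j, w, q⟩ => ⟨j, ⟨_, q.1⟩, w, q⟩)
  have : ∀ᶠ k in (u : Filter ℕ), ∃ w, (tt t ε k z, w) ∈ a.O 2 j ∧
      s k (tt t ε k z) = a.Y j (tt t ε k z, w) ∧ ‖w‖ ≤ B' + 4 ∧
      a.sc j (tt t ε k z, w) ≤ B' + 4 := by
    filter_upwards [hj, hB'] with k ⟨w, k1, k2⟩ k3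
    have k4 := O_mono (θ' := 3) (by norm_num) (by norm_num) (by norm_num) k1
    obtain ⟨d, d1, d2, d3, d4⟩ := shift k4
    have := k3 j w k4 k2
    exact ⟨w + d, d2 _ _ _ (O_mono (by norm_num) (by norm_num) (by norm_num) k1), by rw [d1, k2],
      by linarith, by rw [d3]; linarith⟩
  obtain ⟨w, hw⟩ := this.choice
  exact ⟨j, w, _, hw⟩

theorem Pa.unif (h : Pa a u t ε s j z ρ f g) (hy : y ∈ ball z ρ) (hz : ¬Ze a j (g y)) :
    ∃ r, 0 < r ∧ TendstoUniformlyOn (fun k x => s k (tt t ε k x)) (fun x => lm a j (g x)) u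
      (ball y r) ∧ ContinuousAt (fun x => lm a j (g x)) y := by
  obtain ⟨K, hK, h1, h2, -⟩ := nice (h.cl hy) hz
  have hg := (h.an y hy).continuousAt
  obtain ⟨η, η0, hη⟩ := nhds_basis_closedBall.mem_iff.1 hK
  obtain ⟨r', r1, r2⟩ := exists_between (mem_ball.1 hy)
  obtain ⟨r, r0, hr⟩ := Metric.mem_nhds_iff.1 (inter_mem (hg (ball_mem_nhds _ (half_pos η0)))
    (isOpen_ball.mem_nhds (mem_ball.2 r1)))
  refine ⟨r, r0, Metric.tendstoUniformlyOn_iff.2 fun e he => ?_,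
    (h2.continuousAt hK).comp (f := g) hg⟩
  obtain ⟨δ, δ0, hδ⟩ := Metric.uniformContinuousOn_iff.1
    ((isCompact_closedBall _ η).uniformContinuousOn_of_continuous (h2.mono hη)) _ (half_pos he)
  filter_upwards [h.ev, Metric.tendstoUniformlyOn_iff.1 (h.un r' r2) _ (lt_min δ0 (half_pos η0)),
    tt_l b (‖z‖ + r') _ (Metric.tendstoUniformlyOn_iff.1 h1 _ (half_pos he))] with k k1 k2 k3 x hx
  have x1 := ball_subset_closedBall (hr hx).2
  have x2 : dist (g x) (g y) < η / 2 := (hr hx).1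
  have x3 := lt_min_iff.1 (k2 x x1)
  have x4 : f k x ∈ closedBall (g y) η := by
    rw [mem_closedBall]
    linarith [dist_triangle_left (f k x) (g y) (g x), x3.2]
  have x5 := hδ (g x) (mem_closedBall.2 (by linarith)) _ x4 x3.1
  have x6 := k3 x (norm_le_of_mem_closedBall x1) _ (hη x4)
  rw [(k1.2 x (ball_subset_ball r2.le (hr hx).2)).2]
  linarith [dist_triangle (lm a j (g x)) (lm a j (f k x)) (a.Y j (tt t ε k x, f k x))]

theorem Pa.conv (h : Pa a u t ε s j z ρ f g) (hy : y ∈ ball z ρ) (hz : ¬Ze a j (g y)) :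
    Tendsto (fun k => s k (tt t ε k y)) u (𝓝 (lm a j (g y))) := by
  obtain ⟨r, r0, h1, -⟩ := h.unif b hy hz
  exact h1.tendsto_at (mem_ball_self r0)

theorem Pa.deep (h : Pa a u t ε s j z ρ f g) (hy : y ∈ ball z ρ) (hz : Ze a j (g y)) :
    ∀ k ∈ al, ∀ x ∈ S.C k, ¬Tendsto (fun k => s k (tt t ε k y)) u (𝓝 x) := by
  have h1 := h.cl hy
  have h2 := h.lim hy
  obtain ⟨π, rfl, e, g0⟩ := hz
  refine a.s.te π h1.1 (u.map fun k => (tt t ε k y, s k (tt t ε k y))) ⟨tt_l1 b y,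
    (sec_at b (‖y‖ + 1)).mono fun k q => A.sub (q y (mem_ball_zero_iff.2 (lt_add_one _))).2⟩
    fun r r0 => ?_
  rw [g0] at h2
  have h3 := (h2.const_mul (a.r₃ : ℂ)).norm.eventually_le_const (u := r) (by simpa using r0)
  refine (h3.and h.ev).mono fun k q => ⟨_, ⟨q.1, by simp [e]⟩, (q.2.2 y hy).2.trans ?_⟩
  simp only [CA.Y, e, if_true]

/-- The centre, after a shift. -/
theorem centre (hc : a.LcP) {B : ℝ} (hB : ∀ᶠ k in (u : Filter ℕ), a.sc i (t k, ω k (t k)) ≤ B) :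
    ∃ (w : ℕ → ℂ) (w₀ : ℂ), Tendsto w u (𝓝 w₀) ∧ ∀ᶠ k in (u : Filter ℕ), (t k, w k) ∈ a.O 3 i ∧
      s k (t k) = a.Y i (t k, w k) ∧ ‖w k‖ ≤ B + 4 ∧ a.sc i (t k, w k) ≤ B + 4 ∧
      ∀ f : ℂ → ℂ, AnalyticAt ℂ f 0 → f 0 = w k →
        (∀ᶠ y in 𝓝 0, s k (tt t ε k y) = a.Y i (tt t ε k y, f y)) → 1 / 2 ≤ ‖deriv f 0‖ := by
  have : ∀ᶠ k in (u : Filter ℕ), ∃ w, (t k, w) ∈ a.O 3 i ∧
      s k (t k) = a.Y i (t k, w) ∧ ‖w‖ ≤ B + 4 ∧ a.sc i (t k, w) ≤ B + 4 ∧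
      ∀ f : ℂ → ℂ, AnalyticAt ℂ f 0 → f 0 = w →
        (∀ᶠ y in 𝓝 0, s k (tt t ε k y) = a.Y i (tt t ε k y, f y)) → 1 / 2 ≤ ‖deriv f 0‖ := by
    filter_upwards [hB, b.ctr, b.tl hc] with k k1 ⟨⟨k2, k3, k4⟩, k5⟩ k6
    obtain ⟨d, d1, d2, d3, d4⟩ := shift k3
    refine ⟨ω k (t k) + d, d2 _ _ _ k3, by rw [d1, k4.self_of_nhds], by linarith,
      by rw [d3]; linarith, fun f f1 f2 f3 => ?_⟩
    have h1 := A.linj _ _ (k6 i _ (O_mono (by norm_num) (by norm_num) (by norm_num)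
      (d2 _ _ _ k3))).1.1
    have h2 : Tendsto (tt t ε k) (𝓝 0) (𝓝 (t k)) := tt_zero (t := t) (ε := ε) ▸
      (tt_an 0).continuousAt
    have h3 : HasDerivAt (fun y => ω k (tt t ε k y) + d) (deriv (ω k) (t k) * ε k) 0 :=
      (k2.differentiableAt.hasDerivAt.comp_of_eq 0 (tt_der 0) tt_zero.symm).add_const d
    have h4 : Tendsto (fun y => ((tt t ε k y, f y), ω k (tt t ε k y) + d)) (𝓝 0)
        (𝓝 ((t k, ω k (t k) + d), ω k (t k) + d)) :=
      (h2.prodMk_nhds (f2 ▸ f1.continuousAt)).prodMk_nhds ((k2.continuousAt.tendsto.comp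
        h2).add_const d)
    have h5 : f =ᶠ[𝓝 0] fun y => ω k (tt t ε k y) + d := by
      filter_upwards [h4 h1, f3, h2 k4] with y y1 y2 y3
      exact y1 (y2.symm.trans (y3.trans (d1 _ _).symm))
    rw [h5.deriv_eq, h3.deriv, norm_mul, Complex.norm_real, Real.norm_of_nonneg (b.ε0 k).le]
    linarith [sc_ge k3]
  obtain ⟨w, hw⟩ := this.choice
  obtain ⟨w₀, -, h⟩ := (isCompact_closedBall (0 : ℂ) (B + 4)).ultrafilter_le_nhds (u.map w)
    (le_principal_iff.2 (hw.mono fun k q => mem_closedBall_zero_iff.2 q.2.2.1))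
  exact ⟨w, w₀, h, hw⟩

end Brd

end ShalX

open ShalX in
theorem shalS : ShalOf := by
  rintro - hM hS hLi M _ A S al a hyp hc hC hT hL u t ε s i ω b ⟨B, hB⟩
  obtain ⟨ρ, ρ0, hρ⟩ := patch b hM hL
  have : Nonempty M := ⟨s 0 0⟩
  obtain ⟨D, hD⟩ : ∃ D : Set ℂ, ∀ y, y ∈ D ↔ ∀ k ∈ al, ∀ x ∈ S.C k,
    ¬Tendsto (fun k => s k (tt t ε k y)) u (𝓝 x) := ⟨_, fun _ => Iff.rfl⟩
  obtain ⟨γ, hγ⟩ : ∃ γ : ℂ → M, ∀ y x, Tendsto (fun k => s k (tt t ε k y)) u (𝓝 x) → γ y = x :=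
    ⟨fun y => limUnder u fun k => s k (tt t ε k y), fun _ _ h => h.limUnder_eq⟩
  have good : ∀ j y v, v ∈ Cl a j → ¬Ze a j v →
      Tendsto (fun k => s k (tt t ε k y)) u (𝓝 (lm a j v)) → y ∉ D ∧
        tf a j v ∈ S.dom (km a j) (j.map Prod.fst id) ∧
        γ y = S.par (j.map Prod.fst id) (tf a j v) := fun j y v h1 h2 h3 =>
    ⟨fun q => (hD y).1 q _ (km_mem h1) _ (par_mem (tf_dom h1 h2)) h3, tf_dom h1 h2, hγ y _ h3⟩
  have pa : ∀ z, ∃ j f g, Pa a u t ε s j z ρ f g := fun z => by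
    obtain ⟨j, w, B', h⟩ := pts b hC hT hL hB z
    obtain ⟨f, g, h, -⟩ := hρ z j w B' h
    exact ⟨j, f, g, h⟩
  have L := hLi M A S al a.s.op a.F a.r₃ ρ D γ hyp (a.r3r.trans_le a.s.rr) ρ0 fun z => by
    obtain ⟨j, f, g, h⟩ := pa z
    have h0 := h.cl (mem_ball_self ρ0)
    refine ⟨km a j, km_mem h0, j.map Prod.fst id, fun y => tf a j (g y),
      fun y hy => (tf_an _).comp (h.an y hy), fun c e => ?_, fun y hy => ⟨tf_le (h.cl hy),
        fun q => ?_, fun q => ?_⟩⟩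
    · rcases j with x | π
      · exact Sum.inl.inj e ▸ h0.1
      · cases e
    · exact (good j y _ (h.cl hy) (fun e => q ((hD y).2 (h.deep b hy e)))
        (h.conv b hy fun e => q ((hD y).2 (h.deep b hy e)))).2
    · obtain ⟨π, rfl, e, g0⟩ : Ze a j (g y) := by_contra fun e =>
        (good j y _ (h.cl hy) e (h.conv b hy e)).1 q
      refine ⟨by simp [tf, e, g0], π, rfl, rfl, fun ⟨π', p1, p2, p3⟩ => p3 ?_⟩
      exact (a.s.hom π' p2 π h0.1 p1).1.trans e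
  obtain ⟨w, w₀, hw, hk⟩ := centre b hc hB
  have c0 : w₀ ∈ Cl a i := cl_closed.mem_of_tendsto hw (hk.mono fun _ q => cl_of q.1)
  have g0 : ∀ (f : ℕ → ℂ → ℂ) (g : ℂ → ℂ) (r : ℝ), 0 < r →
      Tendsto (fun k => deriv (f k) 0) u (𝓝 (deriv g 0)) →
      (∀ᶠ k in (u : Filter ℕ), AnalyticOnNhd ℂ (f k) (ball 0 r) ∧ f k 0 = w k ∧
        ∀ y ∈ ball 0 r, s k (tt t ε k y) = a.Y i (tt t ε k y, f k y)) → deriv g 0 ≠ 0 :=
    fun f g r r0 h1 h2 e => by
      have := ge_of_tendsto h1.norm ((hk.and h2).mono fun k q => q.1.2.2.2.2 _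
        (q.2.1 0 (mem_ball_self r0)) q.2.2.1 (eventually_of_mem (ball_mem_nhds 0 r0) q.2.2.2))
      rw [e, norm_zero] at this
      norm_num at this
  have fin : ∀ g : ℂ → ℂ, AnalyticAt ℂ g 0 → g 0 = w₀ → deriv g 0 ≠ 0 →
      (∀ᶠ y in 𝓝[≠] (0 : ℂ), g y ∈ Cl a i ∧ ¬Ze a i (g y) ∧
        Tendsto (fun k => s k (tt t ε k y)) u (𝓝 (lm a i (g y)))) ∨
      (∀ᶠ y in 𝓝[≠] (0 : ℂ), tf a i (g y) ∈ S.dom (km a i) (i.map Prod.fst id) ∧
        Tendsto (fun k => s k (tt t ε k y)) u (𝓝 (lm a i (g y)))) → False := fun g h1 h2 h3 h4 => by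
    obtain ⟨d, d0, hd⟩ := tf_der c0
    have := L (km a i) (i.map Prod.fst id) (fun y => tf a i (g y)) ((tf_an _).comp h1)
      (h4.elim (fun h => h.mono fun y q => good i y _ q.1 q.2.1 q.2.2) fun h => h.mono fun y q =>
        ⟨fun e => (hD y).1 e _ (km_mem c0) _ (par_mem q.1) q.2, q.1, hγ y _ q.2⟩)
    exact mul_ne_zero d0 h3
      ((hd.comp_of_eq 0 h1.differentiableAt.hasDerivAt h2.symm).deriv.symm.trans this)
  have m0 := mem_ball_self (x := (0 : ℂ)) ρ0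
  by_cases hz : Ze a i w₀
  · obtain ⟨π, rfl, e, rfl⟩ := hz
    obtain ⟨f, g, h, h1⟩ := hρ 0 (.inr π) w (B + 4) (by
      filter_upwards [hk, hw.norm.eventually_le_const (u := (3 + 2) / 8) (by norm_num)] with k k1 k2
      rw [tt_zero]
      exact ⟨⟨c0.1, by simpa only [e, if_true] using k2⟩, k1.2.1, k1.2.2.1, k1.2.2.2.1⟩)
    have h2 : g 0 = 0 := tendsto_nhds_unique ((h.lim m0).congr' h1) hw
    have h3 := g0 f g ρ ρ0 (h.dv 0 m0) ((h.ev.and h1).mono fun k q =>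
      ⟨q.1.1, q.2, fun y hy => (q.1.2 y hy).2⟩)
    refine fin g (h.an 0 m0) h2 h3 (Or.inl ?_)
    filter_upwards [(h.an 0 m0).differentiableAt.hasDerivAt.eventually_ne (c := 0) h3,
      mem_nhdsWithin_of_mem_nhds (ball_mem_nhds 0 ρ0)] with y y1 y2
    have y3 : ¬Ze a (.inr π) (g y) := fun ⟨_, _, _, q⟩ => y1 q
    exact ⟨h.cl y2, y3, h.conv b y2 y3⟩
  obtain ⟨K, hK, n1, n2, n3⟩ := nice c0 hz
  have t0 : Tendsto (fun k => s k (tt t ε k 0)) u (𝓝 (lm a i w₀)) := by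
    simp only [tt_zero]
    have n4 : TendstoUniformlyOn (fun k v => a.Y i (t k, v)) (lm a i) u K :=
      fun V hV => b.tl (n1 V hV)
    exact (n4.tendsto_comp (n2 _ (mem_of_mem_nhds hK))
      (tendsto_nhdsWithin_iff.2 ⟨hw, hw hK⟩)).congr' (hk.mono fun k q => q.2.1.symm)
  obtain ⟨j, f, g, h⟩ := pa 0
  obtain ⟨r, r0, u1, u2⟩ := h.unif b m0 fun e =>
    (good i 0 _ c0 hz t0).1 ((hD 0).2 (h.deep b m0 e))
  obtain ⟨K', hK', n5⟩ := near4 c0
  obtain ⟨η, η0, hη⟩ := nhds_basis_closedBall.mem_iff.1 (inter_mem hK (inter_mem hK'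
    (tf_cont.continuousAt ((dom_open _ _).mem_nhds (tf_dom c0 hz)))))
  have s1 : closedBall w₀ η ⊆ K := fun v hv => (hη hv).1
  obtain ⟨r', f', g', q0, q1, q2, q3, q4, -, q5⟩ := hS M A ℕ u (tt t ε)
    (fun k x => s k (tt t ε k x)) w _ (lm a i) (a.Y i) 0 w₀ r η r0 η0
    ((sec_at b r).mono fun k q z hz => ⟨(tt_an z).continuousAt,
      (A.hsc _ _ (q z hz).1).comp (f := tt t ε k) (tt_an z).continuousAt, fun Y v h1 h2 => by
        obtain ⟨φ, p1, p2, p3⟩ := A.lift _ Y _ v (q z hz).1 h1 h2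
        exact ⟨fun x => φ (tt t ε k x), p1.comp (tt_an z), p2, (tt_an z).continuousAt p3⟩⟩)
    (fun o ho => (tt_l b r o ho).mono fun k q z hz => q z (mem_ball_zero_iff.1 hz).le) u1 u2
    ((n5.and hc).mono fun x q v hv => (q.2 i v (q.1 v (hη hv).2.1)).1.1) (n1.mono s1) (n2.mono s1)
    (fun v hv => n3 v (s1 hv)) (hk.mono fun k q => by simpa only [tt_zero] using q.2.1) hw
  have m1 := mem_ball_self (x := (0 : ℂ)) q0
  refine fin g' (q2 0 m1) q3 (g0 f' g' r' q0 (q4 0 m1).2.2 (q5.mono fun k q =>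
    ⟨q.1, q.2.1, fun y hy => (q.2.2 y hy).2⟩)) (Or.inr ?_)
  filter_upwards [mem_nhdsWithin_of_mem_nhds (ball_mem_nhds 0 q0)] with y hy
  exact ⟨(hη (q4 y hy).1).2.2, (q4 y hy).2.1 ▸ u1.tendsto_at (ball_subset_ball q1 hy)⟩

end Pool.Agent.MP_c69980_ag.G3
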