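import Pool.Agent.MP_c69980_ag.G3.SpecI

/-!
The induction that leads to a stable state, and the end atlas from the rows.
-/

set_option autoImplicit false

noncomputable section

namespace Pool.Agent.MP_c69980_ag.G3

open Metric Filter Topology Set

namespace StabX

variable {M : Type} [MetricSpace M] {A : Amb M} {S : Sk A} {al : Finset S.Cmp}

lemma step (hF : Fill1Stmt) (hE : Elim1Stmt) (hP : FlipStmt) (hS : SphStmt) (hT : TorStmt)
    (x : XS S al) (hx : x.Js ≠ ∅) : ∃ x' : XS S al, x'.ms < x.ms := by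
  obtain ⟨j, hj⟩ := Finset.nonempty_iff_ne_empty.2 hx
  rcases (x.H j).eq_empty_or_nonempty with h | ⟨a, ha⟩
  swap
  · exact hF M A S al x j a hj ha
  have sl : ∀ b, Sl (x.H j) (.inl b) := fun b a e => nomatch e
  have lv : ∀ b, x.sl j (.inl b) ∈ x.Lv := fun b => (x.lv _).2 (.inr ⟨j, hj, _, sl b, rfl⟩)
  have iv : IsV A (x.V j) ∅ := h ▸ x.isv j hj
  have ie := fun b => x.e.ise _ (lv b)
  by_cases k1 : x.e.κ (x.sl j (.inl true)) = .neck
  · by_cases f : x.e.far (x.sl j (.inl true)) = x.sl j (.inl false)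
    · obtain ⟨-, -, n3, n4, -⟩ := x.e.nk _ (lv true) k1
      have i0 := ie false
      rw [f] at n3 n4
      rw [n4, n3, x.psl j hj _ (sl false), x.psl j hj _ (sl true)] at i0
      exact (hT M A _ _ _ _ x.r0 iv i0).elim
    · exact hE M A S al x j hj h k1 f
  · by_cases k0 : x.e.κ (x.sl j (.inl false)) = .neck
    · obtain ⟨x', j', e, m, h', k', f'⟩ := hP M A S al x j hj h
      obtain ⟨y, hy⟩ := hE M A S al x' j' m h' (k'.trans k0) fun q =>
        k1 (f' q ▸ (x.e.nk _ (lv false) k0).2.2.2.1)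
      exact ⟨y, e ▸ hy⟩
    · have i0 := ie false
      have i1 := ie true
      rw [x.psl j hj _ (sl false)] at i0
      rw [x.psl j hj _ (sl true)] at i1
      exact (hS M A _ _ _ _ _ _ _ _ _ _ x.r0 iv k1 k0 i1 i0).elim

lemma close (hC : CloseStmt) (hF : Fill1Stmt) (hE : Elim1Stmt) (hP : FlipStmt) (hS : SphStmt)
    (hT : TorStmt) (n : ℕ) : ∀ x : XS S al, x.ms = n → Nonempty (St S al) := by
  induction n using Nat.strong_induction_on with
  | _ n ih =>
    intro x hx
    by_cases h : x.Js = ∅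
    · exact hC M A S al x h
    · obtain ⟨y, hy⟩ := step hF hE hP hS hT x h
      exact ih _ (hx ▸ hy) y rfl

end StabX

theorem stabS : StabOf := by
  classical
  intro hO hC hF hE hP hS hT hD M _ A E
  have key : ∀ (n : ℕ) (al : Finset E.S.Cmp), al.card = n → St E.S al →
      ∃ (al : Finset E.S.Cmp) (s : St E.S al), ∀ k ∈ al, E.S.Hyp k s.op := by
    intro n
    induction n using Nat.strong_induction_on with
    | _ n ih =>
      intro al hn s
      by_cases h : ∀ k ∈ al, E.S.Hyp k s.op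
      · exact ⟨al, s, h⟩
      push Not at h
      obtain ⟨k, hk, nh⟩ := h
      rcases E.tri k s.op with q | q | ⟨⟨v⟩⟩
      · exact (nh q).elim
      · exact (hD M A _ al s k hk q).elim
      · obtain ⟨x⟩ := hO M A _ al s k hk v
        obtain ⟨s'⟩ := StabX.close hC hF hE hP hS hT _ x rfl
        exact ih _ (hn ▸ Finset.card_erase_lt_of_mem hk) _ rfl s'
  exact key _ _ rfl E.init

theorem ea_of (h0 : StabStmt) (h1 : CAStmt) (h2 : LcStmt) (h3 : BdStmt) (h4 : CovStmt)
    (h5 : TrStmt) (h6 : LiftStmt) (h7 : SelStmt) (h8 : DeepStmt) (h9 : ShalStmt) (h : AtlStmt)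
    (he : AllK fun _ _ A S al => IsEmpty S.Cmp → St S al → Nonempty (EA A)) : EAStmt := by
  intro M _ A E
  obtain ⟨al, s, hs⟩ := h0 M A E
  rcases isEmpty_or_nonempty E.S.Cmp with z | z
  · exact he M A _ al z s
  obtain ⟨a, rfl⟩ := h1 M A _ al z s
  obtain ⟨lc, scl⟩ := h2 M A _ al a
  have cv := h4 M A _ al a
  have tr := h5 M A _ al a lc
  have lf := (h6 M A _ al a).2 lc
  refine h M A _ al a lc (h3 M A _ al a) cv tr scl lf (by_contra fun q => ?_)
  obtain ⟨u, t, ε, s, i, ω, b⟩ := h7 M A _ al a lc scl q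
  exact h9 M A _ al a hs lc cv tr lf u t ε s i ω b (h8 M A _ al a lc cv tr lf u t ε s i ω b)

end Pool.Agent.MP_c69980_ag.G3
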