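import Pool.Agent.MP_c69980_ag.G3.SpecI

/-!
The transition maps of the atlas of a state are uniformly Lipschitz.
-/

set_option autoImplicit false

noncomputable section

namespace Pool.Agent.MP_c69980_ag.G3

open Metric Filter Topology Set

namespace TrX

variable {M : Type} [MetricSpace M] {A : Amb M} {ι : Type} {u : Ultrafilter ι} {t w v : ι → ℂ}

lemma ulim {f : ι → ℂ} {R : ℝ} (h : ∀ᶠ k in (u : Filter ι), ‖f k‖ ≤ R) :
    ∃ z, ‖z‖ ≤ R ∧ Tendsto f u (𝓝 z) := by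
  obtain ⟨z, hz, hl⟩ := (isCompact_closedBall (0 : ℂ) R).ultrafilter_le_nhds' (u.map f)
    (h.mono fun k hk => mem_closedBall_zero_iff.2 hk)
  exact ⟨z, mem_closedBall_zero_iff.1 hz, hl⟩

/-- The chart converges near the limit of the shifted points. -/
structure Cv (A : Amb M) (u : Ultrafilter ι) (t w : ι → ℂ) (Y : C2 → M) (w₁ : ι → ℂ) (w₀ : ℂ)
    (η : ℝ) (ψ : ℂ → M) : Prop where
  η0 : 0 < η
  sh : ∀ k z, Y (t k, w k + z) = Y (t k, w₁ k + z)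
  tw : Tendsto w₁ u (𝓝 w₀)
  lc : ∀ᶠ t in A.l, ∀ v ∈ closedBall w₀ η, A.LC Y (t, v)
  lm : Lm A.l Y ψ (closedBall w₀ η)
  co : ContinuousOn ψ (closedBall w₀ η)
  inj : ∀ v ∈ closedBall w₀ η, ψ v = ψ w₀ → v = w₀

section

variable {Y Y' : C2 → M} {w₁ v₁ : ι → ℂ} {w₀ v₀ : ℂ} {η η' : ℝ} {ψ ψ' : ℂ → M}

lemma Cv.inb (h : Cv A u t w Y w₁ w₀ η ψ) : ∀ᶠ k in (u : Filter ι), ∀ z ∈ ball (0 : ℂ) (η / 2),
    w₁ k + z ∈ closedBall w₀ η := by
  filter_upwards [h.tw.eventually (ball_mem_nhds w₀ (half_pos h.η0))] with k hk z hz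
  rw [mem_ball_zero_iff] at hz
  rw [mem_closedBall, dist_eq_norm, add_sub_right_comm]
  have := norm_add_le (w₁ k - w₀) z
  rw [← dist_eq_norm] at this
  linarith [mem_ball.1 hk]

lemma Cv.unif (h : Cv A u t w Y w₁ w₀ η ψ) (ht : Tendsto t u A.l) :
    TendstoUniformlyOn (fun k z => Y (t k, w₁ k + z)) (fun z => ψ (w₀ + z)) u
      (ball 0 (η / 2)) := by
  rw [Metric.tendstoUniformlyOn_iff]
  intro ε hε
  obtain ⟨δ, δ0, hδ⟩ := Metric.uniformContinuousOn_iff.1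
    ((isCompact_closedBall w₀ η).uniformContinuousOn_of_continuous h.co) _ (half_pos hε)
  filter_upwards [h.inb, h.tw.eventually (ball_mem_nhds w₀ δ0),
    ht.eventually (Metric.tendstoUniformlyOn_iff.1 h.lm _ (half_pos hε))] with k k1 k2 k3 z hz
  have m : w₀ + z ∈ closedBall w₀ η := by
    rw [mem_closedBall, dist_self_add_left]
    linarith [mem_ball_zero_iff.1 hz, h.η0]
  have := hδ _ m _ (k1 z hz) (by rw [dist_add_right, dist_comm]; exact k2)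
  linarith [dist_triangle (ψ (w₀ + z)) (ψ (w₁ k + z)) (Y (t k, w₁ k + z)), k3 _ (k1 z hz)]

lemma Cv.lim (h : Cv A u t w Y w₁ w₀ η ψ) (ht : Tendsto t u A.l) :
    Tendsto (fun k => Y (t k, w k)) u (𝓝 (ψ w₀)) ∧
      ∀ᶠ k in (u : Filter ι), (t k, Y (t k, w k)) ∈ A.Zb := by
  have e : ∀ k, Y (t k, w k) = Y (t k, w₁ k + 0) := fun k => by rw [← h.sh, add_zero]
  have m : (0 : ℂ) ∈ ball (0 : ℂ) (η / 2) := mem_ball_self (half_pos h.η0)
  simp only [e]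
  refine ⟨by simpa using (h.unif ht).tendsto_at m, ?_⟩
  filter_upwards [h.inb, ht.eventually h.lc] with k k1 k2
  exact A.mem _ _ (k2 _ (k1 0 m))

lemma Cv.hm (h : Cv A u t w Y w₁ w₀ η ψ) (ht : Tendsto t u A.l) : ∀ᶠ k in (u : Filter ι),
    Hm A (ball 0 (η / 2)) (fun _ => t k) fun z => Y (t k, w₁ k + z) := by
  filter_upwards [h.inb, ht.eventually h.lc] with k k1 k2 z hz
  have l := k2 _ (k1 z hz)
  have a : AnalyticAt ℂ (fun z : ℂ => ((t k, w₁ k + z) : C2)) z :=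
    analyticAt_const.prod (analyticAt_const.add analyticAt_id)
  refine ⟨continuousAt_const, (A.cont _ _ l).comp_of_eq a.continuousAt rfl, fun Y' w' l' e => ?_⟩
  obtain ⟨φ, p1, p2, -, p4⟩ := A.trans Y' Y (t k) w' (w₁ k + z) l' l e.symm
  exact ⟨fun z => φ (t k, w₁ k + z), p1.comp_of_eq a rfl, p2, a.continuousAt.tendsto.eventually p4⟩

lemma Cv.lip (hS : SLift2Stmt) (h : Cv A u t w Y w₁ w₀ η ψ) (h' : Cv A u t v Y' v₁ v₀ η' ψ')
    (ht : Tendsto t u A.l) (e : ∀ᶠ k in (u : Filter ι), Y (t k, w k) = Y' (t k, v k)) :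
    ∃ C ρ : ℝ, 0 < ρ ∧ ∀ᶠ k in (u : Filter ι), ∀ w', ‖w' - w k‖ ≤ ρ →
      ∃ v', ‖v' - v k‖ ≤ C * ‖w' - w k‖ ∧ Y (t k, w') = Y' (t k, v') := by
  have c : ContinuousAt (fun z => ψ (w₀ + z)) 0 :=
    (h.co.continuousAt (closedBall_mem_nhds w₀ h.η0)).comp_of_eq (by fun_prop) (add_zero _)
  obtain ⟨ρ, ω, -, ρ0, -, -, -, -, -, H⟩ := hS M A ι u (fun k _ => t k)
    (fun k z => Y (t k, w₁ k + z)) v₁ _ ψ' Y' 0 v₀ (η / 2) η' (half_pos h.η0) h'.η0 (h.hm ht)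
    (fun o ho => (ht.eventually ho).mono fun k hk _ _ => hk) (h.unif ht) c h'.lc h'.lm h'.co
    h'.inj (e.mono fun k hk => by
      have := h'.sh k 0
      rw [add_zero, add_zero] at this
      exact (h.sh k 0).symm.trans (by rw [add_zero, hk, this])) h'.tw
  refine ⟨2 * η' / ρ, ρ / 2, half_pos ρ0, H.mono fun k hk w' hw' => ?_⟩
  obtain ⟨k1, k2, k3⟩ := hk
  have m : w' - w k ∈ ball (0 : ℂ) ρ := mem_ball_zero_iff.2 (by linarith)
  have s := Complex.dist_le_div_mul_dist_of_mapsTo_ball k1.differentiableOn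
    (R₂ := 2 * η') (fun z hz => by
      have a := mem_closedBall.1 (k3 z hz).1
      have b := mem_closedBall.1 (k3 0 (mem_ball_self ρ0)).1
      rw [mem_closedBall]
      linarith [dist_triangle_right (ω k z) (ω k 0) v₀]) m
  rw [dist_zero_right, dist_eq_norm, k2] at s
  refine ⟨v k + (ω k (w' - w k) - v₁ k), by rwa [add_sub_cancel_left], ?_⟩
  rw [h'.sh, add_sub_cancel, ← (k3 _ m).2, ← h.sh, add_sub_cancel]

end

variable {S : Sk A} {al : Finset S.Cmp} (a : CA S al)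

lemma tube (hL : a.LcP) (x : M × ℕ) (h : ∀ᶠ k in (u : Filter ι), (t k, w k) ∈ a.O 3 (.inl x)) :
    ∃ w₀ ψ, Cv A u t w (a.Y (.inl x)) w w₀ (1 / 8) ψ ∧ ∃ k ∈ al, ψ w₀ ∈ S.C k := by
  obtain ⟨_, hF, hj, -⟩ := h.exists
  obtain ⟨w₀, n0, tw⟩ := ulim (h.mono fun k hk => hk.2.2)
  obtain ⟨hk, hc⟩ := a.hF _ hF
  have r0 := S.rad0 _ _ hc
  obtain ⟨p1, p2, p3⟩ := S.ψc _ _ hc
  have n : ∀ z ∈ closedBall w₀ (1 / 8), ‖z‖ ≤ (3 + 4) / 8 := fun z hz => by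
    linarith [norm_le_norm_add_norm_sub' z w₀, mem_closedBall_iff_norm.1 hz]
  have m : MapsTo (fun z : ℂ => (S.rad x.1 : ℂ) * z) (closedBall w₀ (1 / 8))
      (ball 0 (S.rad x.1)) := fun z hz => by
    rw [mem_ball_zero_iff, norm_mul, Complex.norm_real, Real.norm_of_nonneg r0.le]
    nlinarith [n z hz]
  have m0 : w₀ ∈ closedBall w₀ (1 / 8) := mem_closedBall_self (by norm_num)
  refine ⟨w₀, fun z => S.ψ x.1 (S.rad x.1 * z), ⟨by norm_num, fun _ _ => rfl, tw,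
    hL.mono fun t ht z hz => (ht (.inl x) z ⟨hF, hj, n z hz⟩).1.1,
    ((S.Tlm _ _ hc _ hj).comp fun z : ℂ => (S.rad x.1 : ℂ) * z).mono m,
    p1.comp (by fun_prop) m, fun z hz e => ?_⟩, _, hk, p3 (m m0)⟩
  exact mul_left_cancel₀ (by exact_mod_cast r0.ne') (p2 (m hz) (m m0) e)

/-- The coordinate on the edge. -/
def bt (π : S.Prt) (w : ℂ) : ℂ :=
  if a.s.e.κ π = .disc then a.r₃ * w else a.r₃ * Complex.exp w

lemma Yb (π : S.Prt) (t w : ℂ) : a.Y (.inr π) (t, w) = a.s.e.E π (t, bt a π w) := by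
  simp only [CA.Y, bt]
  split_ifs <;> rfl

variable {a} {π π' : S.Prt}

lemma bt1 (h : a.s.e.κ π = .disc) (w : ℂ) : bt a π w = a.r₃ * w := if_pos h

lemma bt2 (h : a.s.e.κ π ≠ .disc) (w : ℂ) : bt a π w = a.r₃ * Complex.exp w := if_neg h

lemma nb1 (h : a.s.e.κ π = .disc) (w : ℂ) : ‖bt a π w‖ = a.r₃ * ‖w‖ := by
  rw [bt1 h, norm_mul, Complex.norm_real, Real.norm_of_nonneg a.r30.le]

lemma nb2 (h : a.s.e.κ π ≠ .disc) (w : ℂ) : ‖bt a π w‖ = a.r₃ * Real.exp w.re := by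
  rw [bt2 h, norm_mul, Complex.norm_real, Real.norm_of_nonneg a.r30.le, Complex.norm_exp]

lemma o1 {θ : ℝ} {p : C2} (h : a.s.e.κ π = .disc) :
    p ∈ a.O θ (.inr π) ↔ S.cm π ∈ al ∧ ‖p.2‖ ≤ (3 + θ) / 8 := by
  simp only [CA.O, mem_setOf_eq, if_pos h]

lemma o2 {θ : ℝ} {p : C2} (h : a.s.e.κ π ≠ .disc) :
    p ∈ a.O θ (.inr π) ↔ S.cm π ∈ al ∧ p.2.re ≤ (θ - 4) / 3 ∧ (a.s.e.κ π = .neck →
      -p.2.re ≤ (11 + θ) / 20 * -Real.log ‖a.s.e.c π p.1‖) := by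
  simp only [CA.O, mem_setOf_eq, if_neg h]

lemma nd (h : a.s.e.κ π = .neck) : a.s.e.κ π ≠ .disc := by
  rw [h]
  exact fun e => nomatch e

lemma sc1 {i : (M × ℕ) ⊕ S.Prt} {p : C2} (h : p ∈ a.O 3 i) : 1 ≤ a.sc i p := by
  rcases i with x | π
  · exact le_rfl
  · simp only [CA.sc]
    split_ifs with e
    · exact le_rfl
    · linarith [((o2 e).1 h).2.1]

lemma big (hπ : S.cm π ∈ al) (h : a.s.e.κ π = .neck) (K : ℝ) : ∀ᶠ t in A.l,
    0 < ‖a.s.e.c π t‖ ∧ K ≤ -Real.log ‖a.s.e.c π t‖ := by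
  obtain ⟨h1, K', h2⟩ := (a.s.e.ise π hπ).cc h
  filter_upwards [h2, h1.eventually (closedBall_mem_nhds 0 (Real.exp_pos (-K)))] with t k1 k2
  have c0 := (Real.exp_pos _).trans_le k1.2
  exact ⟨c0, le_neg.1 ((Real.log_le_iff_le_exp c0).2 (mem_closedBall_zero_iff.1 k2))⟩

lemma nle {p : C2} (h : p ∈ a.O 3 (.inr π)) : ‖bt a π p.2‖ ≤ a.r₃ := by
  by_cases e : a.s.e.κ π = .disc
  · rw [nb1 e]
    nlinarith [((o1 e).1 h).2, a.r30]
  · rw [nb2 e]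
    exact mul_le_of_le_one_right a.r30.le
      (Real.exp_le_one_iff.2 (by linarith [((o2 e).1 h).2.1]))

lemma nk (hπ : S.cm π ∈ al) {ρ : ℝ} (ρ0 : 0 < ρ) : ∀ᶠ t in A.l, ∀ w, (t, w) ∈ a.O 3 (.inr π) →
    a.s.e.κ π = .neck → ‖a.s.e.c π t‖ ≤ ρ * ‖bt a π w‖ := by
  by_cases h : a.s.e.κ π = .neck
  · filter_upwards [big hπ h (-(10 / 3) * Real.log (ρ * a.r₃))] with t k w hw _
    have := ((o2 (nd h)).1 hw).2.2 h
    rw [nb2 (nd h), ← mul_assoc, ← Real.exp_log k.1, ← Real.exp_log (mul_pos ρ0 a.r30),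
      ← Real.exp_add, Real.exp_le_exp]
    dsimp only at this
    linarith [k.2]
  · exact Eventually.of_forall fun _ _ _ e => (h e).elim

lemma lmE (hπ : S.cm π ∈ al) {r₁ r₂ : ℝ} (h1 : 0 < r₁) (h2 : r₂ < a.s.r) :
    Lm A.l (a.s.e.E π) (S.p π) (An r₁ r₂) := by
  have h3 : r₂ < S.r₀ := h2.trans_le a.s.rr
  have hK : IsCompact (An (r₁ / 2) ((r₂ + S.r₀) / 2)) :=
    (isCompact_closedBall (0 : ℂ) _).of_isClosed_subset
      ((isClosed_le continuous_const continuous_norm).inter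
        (isClosed_le continuous_norm continuous_const)) fun _ h => mem_closedBall_zero_iff.2 h.2
  refine Metric.tendstoUniformlyOn_iff.2 fun ε hε => ?_
  obtain ⟨δ, δ0, hδ⟩ := Metric.uniformContinuousOn_iff.1
    (hK.uniformContinuousOn_of_continuous ((S.pc π).1.mono fun z hz =>
      ⟨mem_ball_zero_iff.2 (by linarith [hz.2]), norm_pos_iff.1 (by linarith [hz.1])⟩)) _
      (half_pos hε)
  filter_upwards [(a.s.e.ise π hπ).out r₁ r₂ h1 h2 (min δ (min (r₁ / 2) ((S.r₀ - r₂) / 2)))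
    (lt_min δ0 (lt_min (half_pos h1) (by linarith))),
    Metric.tendstoUniformlyOn_iff.1 (S.Plm π _ (half_pos h1)) _ (half_pos hε)] with t k1 k2 b hb
  obtain ⟨b', q1, q2⟩ := k1 b hb
  simp only [lt_min_iff, id] at q1
  have n1 := norm_le_norm_add_norm_sub' b' b
  have n2 := norm_le_norm_add_norm_sub b' b
  have m : b' ∈ An (r₁ / 2) ((r₂ + S.r₀) / 2) := ⟨by linarith [hb.1], by linarith [hb.2]⟩
  have := hδ b ⟨by linarith [hb.1], by linarith [hb.2]⟩ b' m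
    (by rw [dist_comm, dist_eq_norm]; exact q1.1)
  rw [q2]
  linarith [dist_triangle (S.p π b) (S.p π b') (S.P π (t, b')),
    k2 b' ⟨m.1, by linarith [m.2]⟩]

lemma bt_an (z : ℂ) : Continuous (bt a π) ∧ ∀ᶠ y in 𝓝[≠] z, bt a π y ≠ bt a π z := by
  have r0 : (a.r₃ : ℂ) ≠ 0 := by exact_mod_cast a.r30.ne'
  by_cases e : a.s.e.κ π = .disc
  · rw [funext (bt1 e)]
    exact ⟨by fun_prop, eventually_nhdsWithin_of_forall fun y hy q => hy (mul_left_cancel₀ r0 q)⟩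
  · rw [funext (bt2 e)]
    exact ⟨by fun_prop, ((Complex.hasDerivAt_exp z).const_mul (a.r₃ : ℂ)).eventually_ne
      (mul_ne_zero r0 (Complex.exp_ne_zero z))⟩

/-- The limit chart at a point of an edge that is not deep. -/
lemma edge0 (hL : a.LcP) (hπ : S.cm π ∈ al) {v₁ : ι → ℂ} {v₀ : ℂ}
    (sh : ∀ k z, bt a π (v k + z) = bt a π (v₁ k + z)) (tw : Tendsto v₁ u (𝓝 v₀))
    (n0 : 0 < ‖bt a π v₀‖) (n1 : ‖bt a π v₀‖ ≤ a.r₃)
    (h4 : ∀ᶠ t in A.l, ∀ z ∈ closedBall v₀ (1 / 8), (t, z) ∈ a.O 4 (.inr π)) :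
    ∃ η ψ, Cv A u t v (a.Y (.inr π)) v₁ v₀ η ψ := by
  obtain ⟨c, ne⟩ := bt_an (a := a) (π := π) v₀
  have r1 := a.r3r
  have r2 := a.s.rr
  have c1 : Tendsto (bt a π) (𝓝[≠] v₀) (𝓝[≠] (bt a π v₀)) :=
    tendsto_nhdsWithin_iff.2 ⟨(c.tendsto v₀).mono_left nhdsWithin_le_nhds, ne⟩
  have e1 := eventually_nhdsWithin_iff.1 (c1.eventually (S.pinj π _
    ⟨mem_ball_zero_iff.2 (by linarith), norm_pos_iff.1 n0⟩))
  have e2 := (c.norm.tendsto v₀).eventually (Icc_mem_nhds (half_lt_self n0)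
    (show ‖bt a π v₀‖ < (a.r₃ + a.s.r) / 2 by linarith))
  obtain ⟨η, η0, hη⟩ := nhds_basis_closedBall.eventually_iff.1
    (e1.and (e2.and (closedBall_mem_nhds v₀ (show (0 : ℝ) < 1 / 8 by norm_num))))
  have m : MapsTo (bt a π) (closedBall v₀ η) (An (‖bt a π v₀‖ / 2) ((a.r₃ + a.s.r) / 2)) :=
    fun z hz => (hη hz).2.1
  refine ⟨η, fun z => S.p π (bt a π z), η0, fun k z => by rw [Yb, Yb, sh], tw, ?_, ?_,
    (S.pc π).1.comp c.continuousOn fun z hz => ⟨mem_ball_zero_iff.2 (by linarith [(m hz).2]),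
      norm_pos_iff.1 (by linarith [(m hz).1])⟩, fun z hz e => by_contra fun q => (hη hz).1 q e⟩
  · filter_upwards [hL, h4] with t k1 k2 z hz
    exact (k1 _ z (k2 z (hη hz).2.2)).1.1
  · simp only [Lm, Yb]
    exact ((lmE hπ (half_pos n0) (by linarith)).comp (bt a π)).mono m

lemma edge (hL : a.LcP) (ht : Tendsto t u A.l)
    (h : ∀ᶠ k in (u : Filter ι), (t k, v k) ∈ a.O 3 (.inr π)) {k₀ : S.Cmp} (hk : k₀ ∈ al) {x : M}
    (hx : x ∈ S.C k₀) (l : Tendsto (fun k => a.Y (.inr π) (t k, v k)) u (𝓝 x))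
    (z : ∀ᶠ k in (u : Filter ι), (t k, a.Y (.inr π) (t k, v k)) ∈ A.Zb) :
    (∃ v₁ v₀ η ψ, Cv A u t v (a.Y (.inr π)) v₁ v₀ η ψ) ∧
      ∃ B, ∀ᶠ k in (u : Filter ι), a.sc (.inr π) (t k, v k) ≤ B := by
  have hπ : S.cm π ∈ al := h.exists.choose_spec.1
  have nD : ¬a.s.e.Dp π (u.map fun k => (t k, a.Y (.inr π) (t k, v k))) := fun D =>
    a.s.te π hπ (u.map fun k => (t k, a.Y (.inr π) (t k, v k))) ⟨ht, z⟩ D k₀ hk x hx l
  obtain ⟨ρ, q⟩ := not_forall.1 nD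
  obtain ⟨ρ0, q⟩ := Classical.not_imp.1 q
  have lo : ∀ᶠ k in (u : Filter ι), ρ ≤ ‖bt a π (v k)‖ := by
    have q' := Ultrafilter.eventually_not.2 q
    rw [Ultrafilter.coe_map, eventually_map] at q'
    filter_upwards [q', h, ht.eventually (nk (a := a) hπ ρ0)] with k k1 k2 k3
    exact not_lt.1 fun n => k1 ⟨_, ⟨n.le, k3 _ k2⟩, Yb a π _ _⟩
  have fin : ∀ (v₁ : ι → ℂ) v₀, (∀ k z, bt a π (v k + z) = bt a π (v₁ k + z)) →
      Tendsto v₁ u (𝓝 v₀) → 0 < ‖bt a π v₀‖ ∧ ‖bt a π v₀‖ ≤ a.r₃ := fun v₁ v₀ sh tw => by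
    have c := ((bt_an (a := a) (π := π) v₀).1.norm.tendsto v₀).comp tw
    have e : ∀ k, bt a π (v k) = bt a π (v₁ k) := fun k => by simpa using sh k 0
    exact ⟨ρ0.trans_le (ge_of_tendsto c (lo.mono fun k hk => by rwa [e] at hk)),
      le_of_tendsto c (h.mono fun k hk => by simpa only [e, Function.comp] using nle hk)⟩
  by_cases e : a.s.e.κ π = .disc
  · obtain ⟨v₀, n0, tw⟩ := ulim (h.mono fun k hk => ((o1 e).1 hk).2)
    obtain ⟨f1, f2⟩ := fin v v₀ (fun _ _ => rfl) tw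
    refine ⟨⟨v, v₀, edge0 hL hπ (fun _ _ => rfl) tw f1 f2 (Eventually.of_forall fun t z hz =>
      (o1 e).2 ⟨hπ, ?_⟩)⟩, 1, Eventually.of_forall fun k => by simp [CA.sc, e]⟩
    linarith [norm_le_norm_add_norm_sub' z v₀, mem_closedBall_iff_norm.1 hz]
  · have lo' : ∀ᶠ k in (u : Filter ι), Real.log (ρ / a.r₃) ≤ (v k).re := lo.mono fun k hk => by
      rw [nb2 e] at hk
      rw [Real.log_le_iff_le_exp (div_pos ρ0 a.r30), div_le_iff₀' a.r30]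
      exact hk
    have re : ∀ k, (Complex.log (Complex.exp (v k))).re = (v k).re := fun k => by
      rw [Complex.log_re, Complex.norm_exp, Real.log_exp]
    obtain ⟨v₀, -, tw⟩ := ulim (u := u) (f := fun k => Complex.log (Complex.exp (v k)))
      (R := -Real.log (ρ / a.r₃) + Real.pi) (by
        filter_upwards [lo', h] with k k1 k2
        refine (Complex.norm_le_abs_re_add_abs_im _).trans (add_le_add ?_ ?_)
        · rw [re, abs_of_nonpos (by linarith [((o2 e).1 k2).2.1])]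
          linarith
        · rw [Complex.log_im]
          exact Complex.abs_arg_le_pi _)
    have sh : ∀ k z, bt a π (v k + z) = bt a π (Complex.log (Complex.exp (v k)) + z) :=
      fun k z => by
        rw [bt2 e, bt2 e, Complex.exp_add, Complex.exp_add,
          Complex.exp_log (Complex.exp_ne_zero _)]
    obtain ⟨f1, f2⟩ := fin _ v₀ sh tw
    have r0 : v₀.re ≤ (3 - 4) / 3 := le_of_tendsto ((Complex.continuous_re.tendsto v₀).comp tw)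
      (h.mono fun k hk => by simpa only [Function.comp, re] using ((o2 e).1 hk).2.1)
    refine ⟨⟨_, v₀, edge0 hL hπ sh tw f1 f2 ?_⟩, 1 - Real.log (ρ / a.r₃), lo'.mono fun k hk => by
      simp only [CA.sc, if_neg e]
      linarith⟩
    have d : ∀ z ∈ closedBall v₀ (1 / 8), |z.re - v₀.re| ≤ 1 / 8 := fun z hz =>
      (Complex.abs_re_le_norm (z - v₀)).trans (mem_closedBall_iff_norm.1 hz)
    by_cases n : a.s.e.κ π = .neck
    · filter_upwards [big hπ n (4 / 3 * (1 - v₀.re))] with t k z hz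
      obtain ⟨d1, d2⟩ := abs_le.1 (d z hz)
      exact (o2 e).2 ⟨hπ, by dsimp only; linarith, fun _ => by dsimp only; linarith [k.2]⟩
    · refine Eventually.of_forall fun t z hz => (o2 e).2 ⟨hπ, ?_, fun q => (n q).elim⟩
      linarith [(abs_le.1 (d z hz)).2]

variable (a) in
/-- The conclusion with two constants. -/
def Cc (i j : (M × ℕ) ⊕ S.Prt) (C ρ : ℝ) (t w v : ℂ) : Prop :=
  a.sc i (t, w) ≤ C * a.sc j (t, v) ∧
    ∀ w', ‖w' - w‖ ≤ ρ → ∃ v', ‖v' - v‖ ≤ C * ‖w' - w‖ ∧ a.Y i (t, w') = a.Y j (t, v')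

lemma ee (hπ : S.cm π ∈ al) (hπ' : S.cm π' ∈ al) : ∀ᶠ t in A.l, ∀ w v,
    (t, w) ∈ a.O 3 (.inr π) → (t, v) ∈ a.O 3 (.inr π') →
    a.Y (.inr π) (t, w) = a.Y (.inr π') (t, v) →
    Cc a (.inr π) (.inr π') (3 + 5 * |Real.log a.r₃|) 1 t w v := by
  have r0 : (a.r₃ : ℂ) ≠ 0 := by exact_mod_cast a.r30.ne'
  have l0 := abs_nonneg (Real.log a.r₃)
  have hf : ∀ᶠ t in A.l, a.s.e.κ π = .neck → a.s.e.c π t ≠ 0 ∧ ∀ b, a.s.e.E (a.s.e.far π) (t, b) =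
      a.s.e.E π (t, a.s.e.c π t / b) := by
    by_cases n : a.s.e.κ π = .neck
    · filter_upwards [big hπ n 0, (a.s.e.nk π hπ n).2.2.2.2.2] with t k1 k2 _
      exact ⟨norm_pos_iff.1 k1.1, k2⟩
    · exact Eventually.of_forall fun _ q => (n q).elim
  filter_upwards [a.s.e.dj _ a.r3r, (a.s.e.ise π hπ).lc _ a.r3r, nk (a := a) hπ a.r30,
    nk (a := a) hπ' a.r30, hf] with t k1 k2 k3 k4 k5 w v hw hv e
  have m : bt a π w ∈ De (a.s.e.κ π) (a.s.e.c π t) a.r₃ := ⟨nle hw, k3 w hw⟩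
  have m' : bt a π' v ∈ De (a.s.e.κ π') (a.s.e.c π' t) a.r₃ := ⟨nle hv, k4 v hv⟩
  have s1 := sc1 hv
  have lip : ∀ x : ℝ, 0 ≤ x → x ≤ (3 + 5 * |Real.log a.r₃|) * x := fun x hx => by nlinarith
  rw [Yb, Yb] at e
  rcases k1 π hπ π' hπ' _ m _ m' e with rfl | ⟨n, rfl⟩
  · have b := (k2 _ m).2.2 _ m' e
    have : a.sc (.inr π') (t, w) = a.sc (.inr π') (t, v) ∧
        ∀ w', bt a π' w' = bt a π' (v + (w' - w)) := by
      by_cases d : a.s.e.κ π' = .disc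
      · rw [bt1 d, bt1 d] at b
        rw [mul_left_cancel₀ r0 b]
        simp
      · have b' := congrArg norm b
        rw [nb2 d, nb2 d] at b'
        rw [bt2 d, bt2 d] at b
        refine ⟨?_, fun w' => ?_⟩
        · simp only [CA.sc, if_neg d, Real.exp_injective (mul_left_cancel₀ a.r30.ne' b')]
        · rw [bt2 d, bt2 d, Complex.exp_add, ← mul_assoc, ← b, mul_assoc, ← Complex.exp_add,
            add_sub_cancel]
    refine ⟨this.1.trans_le (lip _ (by linarith)), fun w' _ => ⟨v + (w' - w), ?_, ?_⟩⟩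
    · rw [add_sub_cancel_left]
      exact lip _ (norm_nonneg _)
    · rw [Yb, Yb, ← this.2]
  · obtain ⟨-, -, -, n', hc, -⟩ := a.s.e.nk π hπ n
    obtain ⟨c0, k6⟩ := k5 n
    have b0 : 0 < ‖bt a (a.s.e.far π) v‖ := by
      rw [nb2 (nd n')]
      exact mul_pos a.r30 (Real.exp_pos _)
    rw [k6] at e
    have b := (k2 _ m).2.2 _ ⟨by
      rw [norm_div, div_le_iff₀ b0, ← hc]
      exact m'.2 n', fun _ => by
      rw [norm_div, ← mul_div_assoc, le_div_iff₀ b0, mul_comm]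
      exact mul_le_mul_of_nonneg_right m'.1 (norm_nonneg _)⟩ e
    rw [eq_div_iff (norm_pos_iff.1 b0)] at b
    refine ⟨?_, fun w' _ => ⟨v - (w' - w), ?_, ?_⟩⟩
    · have b' := congrArg (fun z => Real.log ‖z‖) b
      simp only [norm_mul, nb2 (nd n), nb2 (nd n')] at b'
      rw [Real.log_mul (mul_pos a.r30 (Real.exp_pos _)).ne' (mul_pos a.r30 (Real.exp_pos _)).ne',
        Real.log_mul a.r30.ne' (Real.exp_pos _).ne', Real.log_mul a.r30.ne' (Real.exp_pos _).ne',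
        Real.log_exp, Real.log_exp] at b'
      have q1 := ((o2 (nd n)).1 hw).2.2 n
      have q2 := ((o2 (nd n')).1 hv).2.1
      simp only [CA.sc, if_neg (nd n), if_neg (nd n')]
      dsimp only at q1 q2
      nlinarith [neg_abs_le (Real.log a.r₃)]
    · rw [sub_sub_cancel_left, norm_neg]
      exact lip _ (norm_nonneg _)
    · rw [Yb, Yb, k6, ← b, bt2 (nd n), bt2 (nd n), bt2 (nd n'), bt2 (nd n'), Complex.exp_sub,
        Complex.exp_sub]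
      congr 2
      field_simp [Complex.exp_ne_zero]

lemma core (hS : SLift2Stmt) (hL : a.LcP) (ht : Tendsto t u A.l) (i j : (M × ℕ) ⊕ S.Prt)
    (hi : ∀ᶠ k in (u : Filter ι), (t k, w k) ∈ a.O 3 i)
    (hj : ∀ᶠ k in (u : Filter ι), (t k, v k) ∈ a.O 3 j)
    (e : ∀ᶠ k in (u : Filter ι), a.Y i (t k, w k) = a.Y j (t k, v k)) :
    ∃ C ρ : ℝ, 0 < ρ ∧ ∀ᶠ k in (u : Filter ι), Cc a i j C ρ (t k) (w k) (v k) := by
  have fin : (∃ w₁ w₀ η ψ, Cv A u t w (a.Y i) w₁ w₀ η ψ) →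
      (∃ v₁ v₀ η ψ, Cv A u t v (a.Y j) v₁ v₀ η ψ) →
      (∃ B, ∀ᶠ k in (u : Filter ι), a.sc i (t k, w k) ≤ B) →
      ∃ C ρ : ℝ, 0 < ρ ∧ ∀ᶠ k in (u : Filter ι), Cc a i j C ρ (t k) (w k) (v k) := by
    rintro ⟨_, _, _, _, h⟩ ⟨_, _, _, _, h'⟩ ⟨B, hB⟩
    obtain ⟨C, ρ, ρ0, H⟩ := h.lip hS h' ht e
    refine ⟨max C B, ρ, ρ0, ?_⟩
    filter_upwards [H, hB, hi, hj] with k k1 k2 k3 k4
    refine ⟨by nlinarith [sc1 k3, sc1 k4, le_max_right C B], fun w' hw' => ?_⟩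
    obtain ⟨v', q1, q2⟩ := k1 w' hw'
    exact ⟨v', q1.trans (mul_le_mul_of_nonneg_right (le_max_left _ _) (norm_nonneg _)), q2⟩
  rcases i with x | π <;> rcases j with x' | π'
  · obtain ⟨_, _, h, -⟩ := tube a hL x hi
    obtain ⟨_, _, h', -⟩ := tube a hL x' hj
    exact fin ⟨_, _, _, _, h⟩ ⟨_, _, _, _, h'⟩ ⟨1, Eventually.of_forall fun _ => le_rfl⟩
  · obtain ⟨_, _, h, k₀, hk, hx⟩ := tube a hL x hi
    obtain ⟨l, z⟩ := h.lim ht
    exact fin ⟨_, _, _, _, h⟩ (edge hL ht hj hk hx (l.congr' e)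
      ((z.and e).mono fun k q => q.2 ▸ q.1)).1 ⟨1, Eventually.of_forall fun _ => le_rfl⟩
  · obtain ⟨_, _, h, k₀, hk, hx⟩ := tube a hL x' hj
    obtain ⟨l, z⟩ := h.lim ht
    obtain ⟨q1, q2⟩ := edge hL ht hi hk hx (l.congr' (EventuallyEq.symm e))
      ((z.and e).mono fun k q => q.2 ▸ q.1)
    exact fin q1 ⟨_, _, _, _, h⟩ q2
  · refine ⟨3 + 5 * |Real.log a.r₃|, 1, one_pos, ?_⟩
    filter_upwards [ht.eventually (ee (a := a) hi.exists.choose_spec.1 hj.exists.choose_spec.1),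
      hi, hj, e] with k k1 k2 k3 k4
    exact k1 _ _ k2 k3 k4

variable (a) in
/-- The conclusion for one pair of charts. -/
def Tq (i j : (M × ℕ) ⊕ S.Prt) (C : ℝ) (t w v : ℂ) : Prop := (t, w) ∈ a.O 3 i →
  (t, v) ∈ a.O 3 j → a.Y i (t, w) = a.Y j (t, v) → a.sc i (t, w) ≤ C * a.sc j (t, v) ∧
    ∀ w', C * ‖w' - w‖ ≤ C⁻¹ → ∃ v', ‖v' - v‖ ≤ C * ‖w' - w‖ ∧ a.Y i (t, w') = a.Y j (t, v')

lemma pair (hS : SLift2Stmt) (hL : a.LcP) (i j : (M × ℕ) ⊕ S.Prt) :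
    ∀ᶠ x in (atTop : Filter ℝ) ×ˢ A.l, ∀ w v, Tq a i j x.1 x.2 w v := by
  refine mem_iff_ultrafilter.2 fun u hu => by_contra fun n => ?_
  have n1 : ∀ᶠ x in (u : Filter (ℝ × ℂ)), ∃ p : ℂ × ℂ, ¬Tq a i j x.1 x.2 p.1 p.2 :=
    (Ultrafilter.eventually_not.2 n).mono fun x hx => by
      obtain ⟨w, hw⟩ := not_forall.1 hx
      obtain ⟨v, hv⟩ := not_forall.1 hw
      exact ⟨(w, v), hv⟩
  obtain ⟨p, hp⟩ := n1.choice
  simp only [Tq, Classical.not_imp] at hp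
  have hC : Tendsto Prod.fst (u : Filter (ℝ × ℂ)) atTop := tendsto_fst.mono_left hu
  obtain ⟨C, ρ, ρ0, H⟩ := core hS hL (tendsto_snd.mono_left hu) i j (hp.mono fun x h => h.1)
    (hp.mono fun x h => h.2.1) (hp.mono fun x h => h.2.2.1)
  obtain ⟨x, ⟨-, k0, -, k1⟩, k2, k3, k4, k5⟩ := (hp.and (H.and ((hC.eventually_ge_atTop C).and
    ((hC.eventually_ge_atTop 1).and (hC.eventually_ge_atTop ρ⁻¹))))).exists
  refine k1 ⟨k2.1.trans (mul_le_mul_of_nonneg_right k3 (by linarith [sc1 k0])), fun w' hw' => ?_⟩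
  have := inv_le_of_inv_le₀ ρ0 k5
  obtain ⟨v', q1, q2⟩ := k2.2 w' (by nlinarith [norm_nonneg (w' - (p x).1)])
  exact ⟨v', q1.trans (mul_le_mul_of_nonneg_right k3 (norm_nonneg _)), q2⟩

lemma fin : {i | (a.O 3 i).Nonempty}.Finite := by
  obtain ⟨B, hB⟩ := (Set.finite_range S.a).bddAbove
  refine (((a.F.finite_toSet.prod (finite_Iio B)).image Sum.inl).union
    (finite_range Sum.inr)).subset ?_
  rintro (x | π) ⟨p, hp⟩
  · exact Or.inl ⟨x, ⟨hp.1, hp.2.1.trans_le (hB ⟨_, rfl⟩)⟩, rfl⟩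
  · exact Or.inr ⟨π, rfl⟩

end TrX

open TrX

theorem trS : TrOf := by
  intro _ hS M _ A S al a hL
  have h := (eventually_all_finite (fin (a := a))).2 fun i _ =>
    (eventually_all_finite (fin (a := a))).2 fun j _ => pair hS hL i j
  obtain ⟨C, h1, h2⟩ := ((eventually_ge_atTop (1 : ℝ)).and h.curry).exists
  exact ⟨C, h1, h2.mono fun t ht i j w v hi hj => ht i ⟨_, hi⟩ j ⟨_, hj⟩ w v hi hj⟩

end Pool.Agent.MP_c69980_ag.G3
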