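import Pool.Agent.MP_c69980_ag.G3.AsmW
import Pool.Agent.MP_c69980_ag.G3.Stab
import Pool.Agent.MP_c69980_ag.G3.Reco
import Pool.Agent.MP_c69980_ag.G3.Open
import Pool.Agent.MP_c69980_ag.G3.Close
import Pool.Agent.MP_c69980_ag.G3.Fill1
import Pool.Agent.MP_c69980_ag.G3.Elim1
import Pool.Agent.MP_c69980_ag.G3.Deg
import Pool.Agent.MP_c69980_ag.G3.Lc
import Pool.Agent.MP_c69980_ag.G3.Cov
import Pool.Agent.MP_c69980_ag.G3.Tr
import Pool.Agent.MP_c69980_ag.G3.Lift
import Pool.Agent.MP_c69980_ag.G3.Sel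
import Pool.Agent.MP_c69980_ag.G3.Deep
import Pool.Agent.MP_c69980_ag.G3.Liou
import Pool.Agent.MP_c69980_ag.G3.Shal
import Pool.Agent.MP_c69980_ag.G3.Atl
import Pool.Agent.MP_c69980_ag.G3.Prj
import Pool.Agent.MP_c69980_ag.G3.Link
import Pool.Agent.MP_c69980_ag.G3G.All

/-!
The end atlas, without hypotheses.
-/

set_option autoImplicit false

namespace Pool.Agent.MP_c69980_ag.G3

theorem aCov : CovStmt := covS phiS aSym

theorem aTr : TrStmt := trS phiS aSLift2

theorem aStab : StabStmt :=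
  stabS (openS (recoAS (recoS phiS invS))) closeS (fill1S phiS aSym aFillP)
    (elim1S phiS aSym aMergeP) flipS aSph aTor
    (degS phiS aSym monS aSLift2 caS (lcS phiS) aCov aTr)

theorem eaS : EAStmt :=
  ea_of aStab caS (lcS phiS) (bdS phiS) aCov aTr (liftS phiS contS) (selS phiS) (deepS phiS)
    (shalS phiS monS aSLift2 liouS) (atlS phiS) eaEmpty

theorem linkS : LinkStmt := link ambAll G3G.gS G3G.skS G3G.triS eaS

end Pool.Agent.MP_c69980_ag.G3
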