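import Pool.Agent.MP_c69980_ag.G3.SpecW

/-!
Analytic continuation along a relation that is locally a graph.
-/

set_option autoImplicit false

noncomputable section

namespace Pool.Agent.MP_c69980_ag.G3

open Metric Filter Topology Set

namespace ContX

variable {R : ℂ → ℂ → Prop} {U V : Set ℂ} {ω ω₀ : ℂ → ℂ} {z z₀ : ℂ} {ρ : ℝ}

/-- `ω` is a lift over `U`. -/
def Lf (R : ℂ → ℂ → Prop) (U : Set ℂ) (ω : ℂ → ℂ) : Prop :=
  AnalyticOnNhd ℂ ω U ∧ ∀ z ∈ U, R z (ω z)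

lemma Lf.mono (h : Lf R U ω) (s : V ⊆ U) : Lf R V ω := ⟨h.1.mono s, fun z hz => h.2 z (s hz)⟩

lemma glue {ι : Type} (U : ι → Set ℂ) (f : ι → ℂ → ℂ) (o : ∀ i, IsOpen (U i))
    (h : ∀ i, Lf R (U i) (f i)) (c : ∀ i j, EqOn (f i) (f j) (U i ∩ U j)) :
    ∃ Ω, Lf R (⋃ i, U i) Ω ∧ ∀ i, EqOn Ω (f i) (U i) := by
  classical
  have e : ∀ i, EqOn (fun x => if h : ∃ i, x ∈ U i then f h.choose x else 0) (f i) (U i) :=
    fun i x hx => by
      have q : ∃ i, x ∈ U i := ⟨i, hx⟩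
      exact (dif_pos q).trans (c _ _ ⟨q.choose_spec, hx⟩)
  refine ⟨_, ⟨fun x hx => ?_, fun x hx => ?_⟩, e⟩ <;> obtain ⟨i, hi⟩ := mem_iUnion.1 hx
  · exact ((h i).1 x hi).congr ((e i).eventuallyEq_of_mem ((o i).mem_nhds hi)).symm
  · exact (congrArg (R x) (e i hi)).mpr ((h i).2 x hi)

lemma agree (o : IsOpen U) (h : Lf R U ω) (hz : z ∈ U)
    (e : ∀ᶠ q in 𝓝 ((z, ω z) : C2), R q.1 q.2 ↔ q.2 = ω₀ q.1) : ω =ᶠ[𝓝 z] ω₀ := by
  have t : ContinuousAt (fun x => ((x, ω x) : C2)) z :=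
    continuousAt_id.prodMk (h.1 z hz).continuousAt
  filter_upwards [t.eventually e, o.mem_nhds hz] with x a b
  exact a.1 (h.2 x b)

lemma loc (a : AnalyticAt ℂ ω z) (e : ∀ᶠ q in 𝓝 ((z, ω z) : C2), R q.1 q.2 ↔ q.2 = ω q.1) :
    ∃ ε > 0, Lf R (ball z ε) ω := by
  have t : ContinuousAt (fun x => ((x, ω x) : C2)) z := continuousAt_id.prodMk a.continuousAt
  obtain ⟨ε, h0, h⟩ := Metric.eventually_nhds_iff_ball.1
    (a.eventually_analyticAt.and (t.eventually e))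
  exact ⟨ε, h0, fun x hx => (h x hx).1, fun x hx => (h x hx).2.2 rfl⟩

lemma idn (c : Convex ℝ U) (h : Lf R U ω) (h' : Lf R U ω₀) (hz : z ∈ U) (e : ω =ᶠ[𝓝 z] ω₀) :
    EqOn ω ω₀ U := h.1.eqOn_of_preconnected_of_eventuallyEq h'.1 c.isPreconnected hz e

/-- The lift extends across every boundary point. -/
lemma bdy {K : Set ℂ} (hK : IsCompact K) (h0 : 0 < ρ) (h : Lf R (ball z₀ ρ) ω)
    (hk : ∀ x ∈ ball z₀ ρ, ω x ∈ K) (hz : z ∈ closedBall z₀ ρ)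
    (L : ∀ w ∈ K, (∃ᶠ q in 𝓝 ((z, w) : C2), R q.1 q.2) → ∃ f : ℂ → ℂ,
      AnalyticAt ℂ f z ∧ f z = w ∧ ∀ᶠ q in 𝓝 ((z, w) : C2), R q.1 q.2 ↔ q.2 = f q.1) :
    ∃ ε > 0, ∃ f, Lf R (ball z ε) f ∧ EqOn f ω (ball z ε ∩ ball z₀ ρ) := by
  have nb : (𝓝[ball z₀ ρ] z).NeBot :=
    mem_closure_iff_nhdsWithin_neBot.1 (by rwa [closure_ball z₀ h0.ne'])
  obtain ⟨w, hw, cl⟩ := hK.exists_mapClusterPt (f := 𝓝[ball z₀ ρ] z) (u := ω)
    (tendsto_principal.2 (eventually_nhdsWithin_of_forall hk))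
  have fr : ∀ {p : C2 → Prop}, (∀ᶠ q in 𝓝 (z, w), p q) → ∃ x ∈ ball z₀ ρ, p (x, ω x) := by
    intro p hp
    rw [nhds_prod_eq] at hp
    obtain ⟨a, ha, b, hb, hab⟩ := eventually_prod_iff.1 hp
    obtain ⟨x, h1, h2, h3⟩ := ((mapClusterPt_iff_frequently.1 cl _ hb).and_eventually
      ((ha.filter_mono nhdsWithin_le_nhds).and self_mem_nhdsWithin)).exists
    exact ⟨x, h3, hab h2 h1⟩
  obtain ⟨f, a, rfl, e⟩ := L w hw fun q => by
    obtain ⟨x, hx, h'⟩ := fr q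
    exact h' (h.2 x hx)
  obtain ⟨ε, e0, l⟩ := loc a e
  obtain ⟨x, hx, h1, h2⟩ := fr (e.eventually_nhds.and
    (continuousAt_fst.eventually (ball_mem_nhds z e0)))
  exact ⟨ε, e0, f, l, idn ((convex_ball _ _).inter (convex_ball _ _)) (l.mono inter_subset_left)
    (h.mono inter_subset_right) ⟨h2, hx⟩ (agree isOpen_ball h hx h1).symm⟩

/-- The local extensions give a lift on a larger ball. -/
lemma ext (h0 : 0 < ρ) (h : ∀ z ∈ closedBall z₀ ρ, ∃ ε > 0, ∃ f,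
    Lf R (ball z ε) f ∧ EqOn f ω (ball z ε ∩ ball z₀ ρ)) :
    ∃ δ > 0, ∃ Ω, Lf R (ball z₀ (δ + ρ)) Ω ∧ Ω z₀ = ω z₀ := by
  choose! ε e0 f l e using h
  obtain ⟨δ, d0, hδ⟩ := lebesgue_number_lemma_of_metric (isCompact_closedBall z₀ ρ)
    (c := fun z : closedBall z₀ ρ => ball z.1 (ε z)) (fun _ => isOpen_ball)
    fun z hz => mem_iUnion.2 ⟨⟨z, hz⟩, mem_ball_self (e0 z hz)⟩
  choose p hp using hδ
  have l' := fun z : closedBall z₀ ρ => (l _ (p z z.2).2).mono (hp z z.2)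
  have e' := fun z : closedBall z₀ ρ =>
    (e _ (p z z.2).2).mono (inter_subset_inter_left _ (hp z z.2))
  obtain ⟨Ω, a, b⟩ := glue (fun z : closedBall z₀ ρ => ball z.1 δ) (fun z => f (p z z.2))
    (fun _ => isOpen_ball) l' fun z z' x hx => by
      have d : dist z.1 z'.1 < 2 * δ := by
        linarith [dist_triangle_left z.1 z'.1 x, mem_ball.1 hx.1, mem_ball.1 hx.2]
      have m : midpoint ℝ z.1 z'.1 ∈ closure (ball z₀ ρ) := by
        rw [closure_ball z₀ h0.ne']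
        exact (convex_closedBall z₀ ρ).midpoint_mem z.2 z'.2
      have o : IsOpen (ball z.1 δ ∩ ball z'.1 δ) := isOpen_ball.inter isOpen_ball
      obtain ⟨y, hy⟩ := mem_closure_iff.1 m _ o (by
        constructor
        · rw [mem_ball, dist_midpoint_left, Real.norm_two]
          linarith
        · rw [mem_ball, dist_midpoint_right, Real.norm_two]
          linarith)
      refine idn ((convex_ball _ _).inter (convex_ball _ _)) ((l' z).mono inter_subset_left)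
        ((l' z').mono inter_subset_right) hy.1 ?_ hx
      filter_upwards [(o.inter isOpen_ball).mem_nhds hy] with v hv
      exact (e' z ⟨hv.1.1, hv.2⟩).trans (e' z' ⟨hv.1.2, hv.2⟩).symm
  refine ⟨δ, d0, Ω, a.mono fun x hx => ?_, ?_⟩
  · rw [← thickening_closedBall d0 h0.le, mem_thickening_iff] at hx
    obtain ⟨z, hz, q⟩ := hx
    exact mem_iUnion.2 ⟨⟨z, hz⟩, q⟩
  · exact (b ⟨z₀, mem_closedBall_self h0.le⟩ (mem_ball_self d0)).trans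
      (e' ⟨z₀, mem_closedBall_self h0.le⟩ ⟨mem_ball_self d0, mem_ball_self h0⟩)

end ContX

open ContX in
theorem contS : ContStmt := by
  intro R K z₀ w₀ r r0 hK h0 hw L B
  have inK : ∀ ρ ≤ r, ∀ ω, Lf R (ball z₀ ρ) ω → ω z₀ = w₀ → ∀ z ∈ ball z₀ ρ, ω z ∈ K := by
    intro ρ hρ ω h e z hz
    obtain ⟨σ, s1, s2⟩ := exists_between (mem_ball.1 hz)
    have h' := h.mono (ball_subset_ball s2.le)
    exact B σ ω (s2.trans_le hρ) h'.1 e h'.2 z s1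
  obtain ⟨ω₀, a0, rfl, e0⟩ := L z₀ (mem_ball_self r0) w₀ hw fun q => q.self_of_nhds h0
  obtain ⟨ε, ε0, l0⟩ := loc a0 e0
  let S : Set ℝ := {ρ | 0 < ρ ∧ ρ ≤ r ∧ ∃ ω, Lf R (ball z₀ ρ) ω ∧ ω z₀ = ω₀ z₀}
  have up : ∀ ρ ω, 0 < ρ → Lf R (ball z₀ ρ) ω → ω z₀ = ω₀ z₀ → min ρ r ∈ S := fun ρ ω p l e =>
    ⟨lt_min p r0, min_le_right _ _, ω, l.mono (ball_subset_ball (min_le_left _ _)), e⟩
  have m0 := up ε ω₀ ε0 l0 rfl
  have bd : BddAbove S := ⟨r, fun ρ h => h.2.1⟩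
  have s0 : 0 < sSup S := m0.1.trans_le (le_csSup bd m0)
  have sr : sSup S ≤ r := csSup_le ⟨_, m0⟩ fun ρ h => h.2.1
  choose f l e using fun ρ : S => ρ.2.2.2
  have g : ∀ ρ : S, f ρ =ᶠ[𝓝 z₀] ω₀ := fun ρ =>
    agree isOpen_ball (l ρ) (mem_ball_self ρ.2.1) (by rwa [e ρ])
  obtain ⟨Ω, a, b⟩ := glue (fun ρ : S => ball z₀ ρ.1) f (fun _ => isOpen_ball) l fun ρ σ =>
    idn ((convex_ball _ _).inter (convex_ball _ _)) ((l ρ).mono inter_subset_left)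
      ((l σ).mono inter_subset_right) ⟨mem_ball_self ρ.2.1, mem_ball_self σ.2.1⟩
      ((g ρ).trans (g σ).symm)
  have a' : Lf R (ball z₀ (sSup S)) Ω := a.mono fun x hx => by
    obtain ⟨ρ, h1, h2⟩ := exists_lt_of_lt_csSup ⟨_, m0⟩ (mem_ball.1 hx)
    exact mem_iUnion.2 ⟨⟨ρ, h1⟩, h2⟩
  have b' : Ω z₀ = ω₀ z₀ := (b ⟨_, m0⟩ (mem_ball_self m0.1)).trans (e _)
  have k := inK _ sr Ω a' b'
  rcases sr.eq_or_lt with q | q
  · rw [q] at a' k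
    exact ⟨Ω, a'.1, b', fun z hz => ⟨a'.2 z hz, k z hz⟩⟩
  · obtain ⟨δ, d0, Ω', c1, c2⟩ := ext s0 fun z hz =>
      bdy hK s0 a' k hz (L z (closedBall_subset_ball q hz))
    exact absurd (le_csSup bd (up _ Ω' (by linarith) c1 (c2.trans b')))
      (not_le.2 (lt_min (by linarith) q))

end Pool.Agent.MP_c69980_ag.G3
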