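import Pool.Agent.MP_c69980_ag.G3.SpecP
import Pool.Agent.MP_c69980_ag.G3.Fill

/-!
Filling a hole of a periodic explicit vertex by a periodic disc.
-/

set_option autoImplicit false

noncomputable section

namespace Pool.Agent.MP_c69980_ag.G3

open Metric Filter Topology Set

open FillX in
theorem fillPS : FillPOf := by
  intro hS hG M _ A n V E P' c H a r n0 pV pE r0 _ H0 hV hE hVe
  have a0 : a ≠ 0 := fun e => H0 (e ▸ ‹a ∈ H›)
  obtain ⟨s, s0, sr, hs⟩ := scale r0 a0 H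
  have lcY : ∀ {t w}, A.LC V (t, a + w) → A.LC (sv V (.inr a)) (t, w) := lc_tr fun _ => rfl
  have chY : ∀ x, 0 < x → Ch A (sv V (.inr a)) (An x (5 * s)) := fun x x0 => by
    obtain ⟨ρ, ρ0, hρ⟩ := hs x x0
    filter_upwards [hV ρ ρ0] with t ht w hw
    exact ⟨lcY (ht _ (hρ w hw)).1.1, fun w' hw' e =>
      add_left_cancel ((ht _ (hρ w hw)).2 _ (hρ w' hw') e)⟩
  have lcE : ∀ᶠ t in A.l, ∀ b : ℂ, ‖b‖ ≤ 5 * s → A.LZ E (t, b) ∧
      ∀ b' : ℂ, ‖b'‖ ≤ 5 * s → E (t, b) = E (t, b') → b = b' := by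
    filter_upwards [hE.lc _ sr] with t ht b hb
    obtain ⟨h1, h2, h3⟩ := ht b (de_disc hb)
    exact ⟨⟨h1, h2.2 fun e => nomatch e⟩, fun b' hb' => h3 b' (de_disc hb')⟩
  have mt : ∀ x, 0 < x → Mt A.l (sv V (.inr a)) E id (An x (4 * s)) := fun x x0 =>
    hS M A E _ (x / 2) x (4 * s) (5 * s) (half_pos x0) (half_lt_self x0) (by linarith)
      (hE.out _ _ (half_pos x0) sr) (lcE.mono fun t ht ξ hξ => (ht ξ hξ.2).1.1)
      (chY _ (half_pos x0))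
  have l45 : ∀ {y : ℝ}, y ≤ 4 * s → y ≤ 5 * s := fun h => h.trans (by linarith)
  obtain ⟨α, β, N, pN, W, hN⟩ := hG M A n (sv V (.inr a)) E s (2 * s) (3 * s) (4 * s) n0
    (fun t w => pV t _) pE s0 (by linarith)
    (by linarith) (by linarith) (mt s s0)
    ((chY s s0).mono fun t ht ξ hξ => (ht ξ ⟨hξ.1, l45 hξ.2⟩).1)
    (lcE.mono fun t ht ξ hξ => ⟨(ht ξ (l45 hξ.2)).1.1, fun w hw => (ht ξ (l45 hξ.2)).2 w
      (l45 hw.2)⟩)
  have nr : ∀ {ε : ℝ}, 0 < ε → _ := fun {ε} => near (ε := ε) W (by positivity)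
  have desc : ∀ ρ ε : ℝ, 0 < ρ → 0 < ε → ∀ᶠ t in A.l, ∀ ω ∈ Dv (H.erase a) ρ,
      (‖ω - a‖ < 3 * s → ‖α (t, ω - a)‖ ≤ 4 * s ∧ ‖a + α (t, ω - a) - ω‖ ≤ ε) ∧
      (2 * s < ‖ω - a‖ → a + β (t, ω - a) ∈ Dv H (min ρ (2 * s) / 2) ∧
        ‖a + β (t, ω - a) - ω‖ ≤ ε) := fun ρ ε ρ0 ε0 => by
    have m0 : 0 < min ρ (2 * s) := by positivity
    filter_upwards [nr ε0, nr s0, nr (half_pos m0)] with t h1 h2 h3 ω hω
    have e : ∀ z : ℂ, a + z - ω = z - (ω - a) := fun z => by ring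
    refine ⟨fun h => ⟨?_, e _ ▸ h1.1 _ h⟩, fun h => ⟨dv_near (dv_ins
      (dv_mono hω m0 (min_le_left _ _)) ((min_le_right _ _).trans h.le)) (e _ ▸ h3.2 _ h),
      e _ ▸ h1.2 _ h⟩⟩
    linarith [norm_sub_norm_le (α (t, ω - a)) (ω - a), h2.1 _ h]
  have lcV : ∀ {t w}, A.LC N (t, w - a) → A.LC (fun q : C2 => N (q.1, q.2 - a)) (t, w) :=
    fun h => lc_tr (Y := N) (d := -a) (fun q => by rw [neg_add_eq_sub]) (by rwa [neg_add_eq_sub])
  refine ⟨fun q => N (q.1, q.2 - a), fun t w => pN t _, fun ρ ρ0 => ?_,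
    fun ρ ρ0 => ⟨min ρ (2 * s) / 2, 4 * s,
    by positivity, by linarith, fun ε ε0 => ?_⟩, fun ρ ε ρ0 ε0 => ?_,
    2 * s, by positivity, fun ε ε0 => ?_⟩
  · have m0 : 0 < min ρ (2 * s) / 2 := by positivity
    filter_upwards [desc ρ (s / 8) ρ0 (by positivity), hN, lcE, hV _ m0, W.an,
      hVe _ (4 * s) (s / 8) m0 (by linarith) (by positivity)] with t h1 h2 h3 h4 h5 h6
    have mix : ∀ ω ∈ Dv (H.erase a) ρ, ∀ ω' ∈ Dv (H.erase a) ρ, ‖ω - a‖ ≤ 2 * s →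
        3 * s ≤ ‖ω' - a‖ → N (t, ω - a) ≠ N (t, ω' - a) := fun ω hω ω' hω' k k' e => by
      have k1 : ‖ω - a‖ < 3 * s := by linarith
      have k2 : 2 * s < ‖ω' - a‖ := by linarith
      rw [(h2.1 _ k1).1, (h2.2 _ k2).1] at e
      obtain ⟨u1, u2⟩ := (h1 ω hω).1 k1
      obtain ⟨v1, v2⟩ := (h1 ω' hω').2 k2
      have w1 : ‖a + α (t, ω - a) - (a + β (t, ω' - a))‖ < s / 8 :=
        h6 _ v1 _ (de_disc u1) e.symm
      have w2 := norm_add₃_le (a := ω - a) (b := a + α (t, ω - a) - ω)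
        (c := -(a + α (t, ω - a) - (a + β (t, ω' - a))) - (a + β (t, ω' - a) - ω'))
      have w3 := norm_sub_le (-(a + α (t, ω - a) - (a + β (t, ω' - a)))) (a + β (t, ω' - a) - ω')
      rw [norm_neg] at w3
      rw [show ω - a + (a + α (t, ω - a) - ω) + (-(a + α (t, ω - a) - (a + β (t, ω' - a))) -
        (a + β (t, ω' - a) - ω')) = ω' - a by ring] at w2
      linarith
    intro ω hω
    refine ⟨?_, fun ω' hω' e => ?_⟩
    · rcases lt_or_ge ‖ω - a‖ (3 * s) with k | k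
      · have u := (h3 _ (l45 ((h1 ω hω).1 k).1)).1
        exact ⟨lcV ((h2.1 _ k).2 u.1), by simpa only [(h2.1 _ k).1] using u.2⟩
      · have k2 : 2 * s < ‖ω - a‖ := by linarith
        have u := (h4 _ ((h1 ω hω).2 k2).1).1
        refine ⟨lcV ((h2.2 _ k2).2 (lcY u.1)), ?_⟩
        show (t, N (t, ω - a)) ∈ A.Z
        rw [(h2.2 _ k2).1]
        exact u.2
    · have e : N (t, ω - a) = N (t, ω' - a) := e
      refine sub_left_injective (b := a) ?_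
      by_cases k : ‖ω - a‖ < 3 * s ∧ ‖ω' - a‖ < 3 * s
      · rw [(h2.1 _ k.1).1, (h2.1 _ k.2).1] at e
        exact (h5.1 _ k.1).2.2 _ k.2 ((h3 _ (l45 ((h1 ω hω).1 k.1).1)).2 _
          (l45 ((h1 ω' hω').1 k.2).1) e)
      by_cases k' : 2 * s < ‖ω - a‖ ∧ 2 * s < ‖ω' - a‖
      · rw [(h2.2 _ k'.1).1, (h2.2 _ k'.2).1] at e
        exact (h5.2 _ k'.1).2.2 _ k'.2 (add_left_cancel ((h4 _ ((h1 ω hω).2 k'.1).1).2 _
          ((h1 ω' hω').2 k'.2).1 e))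
      exfalso
      rw [not_and_or, not_lt, not_lt] at k k'
      rcases k with k | k <;> rcases k' with k' | k'
      · linarith
      · exact mix ω' hω' ω hω k' k e.symm
      · exact mix ω hω ω' hω' k' k e
      · linarith
  · filter_upwards [desc ρ ε ρ0 ε0, hN] with t h1 h2 ω hω
    rcases lt_or_ge ‖ω - a‖ (3 * s) with k | k
    · exact .inr ⟨_, ((h1 ω hω).1 k).1, ((h1 ω hω).1 k).2, (h2.1 _ k).1⟩
    · have k2 : 2 * s < ‖ω - a‖ := by linarith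
      exact .inl ⟨_, ((h1 ω hω).2 k2).1, ((h1 ω hω).2 k2).2, (h2.2 _ k2).1⟩
  · filter_upwards [nr (half_pos ε0), hN, W.sb (5 / 2 * s) (by linarith),
      W.sa (11 / 4 * s) (by linarith), mt ρ ρ0 (min (ε / 2) (s / 4)) (by positivity)]
      with t h1 h2 h3 h4 h5 ω hω
    rcases le_or_gt (5 / 2 * s) ‖ω - a‖ with k | k
    · obtain ⟨ξ, x1, x2⟩ := h3 _ k
      refine ⟨a + ξ, ?_, ?_⟩
      · rw [← sub_sub, ← x2]
        linarith [h1.2 ξ x1]
      · show N (t, a + ξ - a) = _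
        rw [add_sub_cancel_left, (h2.2 _ x1).1, x2]
        show V (t, a + (ω - a)) = _
        rw [add_sub_cancel]
    · obtain ⟨w, w1, w2⟩ := h5 (ω - a) ⟨hω.2.2 a ‹_›, by linarith⟩
      have w3 : ‖w - (ω - a)‖ < ε / 2 := w1.trans_le (min_le_left _ _)
      have w4 : ‖w - (ω - a)‖ < s / 4 := w1.trans_le (min_le_right _ _)
      obtain ⟨ξ, x1, x2⟩ := h4 w (by linarith [norm_sub_norm_le w (ω - a)])
      refine ⟨a + ξ, ?_, ?_⟩
      · have := norm_sub_le (w - ξ) (w - (ω - a))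
        rw [show w - ξ - (w - (ω - a)) = ω - (a + ξ) by ring] at this
        linarith [x2 ▸ h1.1 ξ x1]
      · show N (t, a + ξ - a) = _
        rw [add_sub_cancel_left, (h2.1 _ x1).1, x2, ← w2]
        show V (t, a + (ω - a)) = _
        rw [add_sub_cancel]
  · filter_upwards [nr ε0, hN, W.sa (2 * s) (by linarith)] with t h1 h2 h3 b hb
    obtain ⟨ξ, x1, x2⟩ := h3 b hb
    refine ⟨a + ξ, ?_, ?_⟩
    · rw [add_sub_add_left_eq_sub, ← x2]
      exact h1.1 ξ x1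
    · show N (t, a + ξ - a) = _
      rw [add_sub_cancel_left, (h2.1 _ x1).1, x2]

end Pool.Agent.MP_c69980_ag.G3
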