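import Pool.Agent.MP_c69980_ag.G3.SpecW
import Pool.Agent.MP_c69980_ag.E1.Chart

/-!
Inversion of maps near the identity.
-/

set_option autoImplicit false

noncomputable section

namespace Pool.Agent.MP_c69980_ag.G3

open Metric Filter Topology Set

namespace InvX

variable {h : ℂ → ℂ} {ζ : ℂ} {ρ : ℝ}

theorem deriv_le (hρ : 0 < ρ) (H : ∀ ξ ∈ ball ζ (2 * ρ), DifferentiableAt ℂ h ξ ∧ ‖h ξ‖ ≤ ρ / 4)
    {ξ : ℂ} (hξ : ξ ∈ ball ζ ρ) : ‖deriv h ξ‖ ≤ 1 / 2 := by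
  have sub : ball ξ ρ ⊆ ball ζ (2 * ρ) := fun z hz => by
    rw [mem_ball] at *
    linarith [dist_triangle z ξ ζ]
  have h1 := Complex.norm_deriv_le_div_of_mapsTo_ball (f := h) (c := ξ) (R₁ := ρ) (R₂ := ρ / 2)
    (fun z hz => (H z (sub hz)).1.differentiableWithinAt) (fun z hz => by
      rw [mem_closedBall, dist_eq_norm]
      linarith [norm_sub_le (h z) (h ξ), (H z (sub hz)).2, (H ξ (sub (mem_ball_self hρ))).2]) hρ
  calc ‖deriv h ξ‖ ≤ ρ / 2 / ρ := h1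
    _ = 1 / 2 := by field_simp

theorem lip (hρ : 0 < ρ) (H : ∀ ξ ∈ ball ζ (2 * ρ), DifferentiableAt ℂ h ξ ∧ ‖h ξ‖ ≤ ρ / 4)
    {x y : ℂ} (hx : x ∈ ball ζ ρ) (hy : y ∈ ball ζ ρ) : ‖h y - h x‖ ≤ 1 / 2 * ‖y - x‖ :=
  (convex_ball ζ ρ).norm_image_sub_le_of_norm_deriv_le
    (fun z hz => (H z (ball_subset_ball (by linarith) hz)).1) (fun _ hz => deriv_le hρ H hz) hx hy

theorem uniq (hρ : 0 < ρ) (H : ∀ ξ ∈ ball ζ (2 * ρ), DifferentiableAt ℂ h ξ ∧ ‖h ξ‖ ≤ ρ / 4)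
    {x y : ℂ} (hx : x ∈ ball ζ ρ) (hy : y ∈ ball ζ ρ) (e : h x + x = h y + y) : x = y := by
  have h1 := lip hρ H hx hy
  have h2 : h y - h x = -(y - x) := by linear_combination -e
  rw [h2, norm_neg] at h1
  have h3 : ‖y - x‖ = 0 := le_antisymm (by linarith) (norm_nonneg _)
  exact (sub_eq_zero.1 (norm_eq_zero.1 h3)).symm

theorem ex (hρ : 0 < ρ) (H : ∀ ξ ∈ ball ζ (2 * ρ), DifferentiableAt ℂ h ξ ∧ ‖h ξ‖ ≤ ρ / 4) :
    ∃ ξ ∈ ball ζ ρ, h ξ + ξ = ζ := by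
  have sub : closedBall ζ (ρ / 2) ⊆ ball ζ ρ := closedBall_subset_ball (by linarith)
  have hm : MapsTo (fun ξ => ζ - h ξ) (closedBall ζ (ρ / 2)) (closedBall ζ (ρ / 2)) :=
    fun z hz => by
      rw [mem_closedBall, dist_eq_norm, sub_sub_cancel_left, norm_neg]
      linarith [(H z (ball_subset_ball (by linarith) (sub hz))).2]
  have hc : ContractingWith (1 / 2) (hm.restrict _ _ _) := by
    refine ⟨by norm_num, LipschitzWith.of_dist_le_mul fun x y => ?_⟩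
    change dist (ζ - h x) (ζ - h y) ≤ _ * dist (x : ℂ) y
    rw [dist_eq_norm, dist_eq_norm, sub_sub_sub_cancel_left, norm_sub_rev]
    simpa using lip hρ H (sub y.2) (sub x.2)
  obtain ⟨y, hy, h1, -⟩ := hc.exists_fixedPoint' isClosed_closedBall.isComplete hm
    (mem_closedBall_self (by linarith)) (edist_ne_top _ _)
  have h2 : ζ - h y = y := h1
  exact ⟨y, sub hy, by linear_combination -h2⟩

theorem slice {f : C2 → ℂ} {t ξ : ℂ} (hf : AnalyticAt ℂ f (t, ξ)) :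
    HasDerivAt (fun w => f (t, w) - w) (fderiv ℂ f (t, ξ) (0, 1) - 1) ξ := by
  have h1 : HasDerivAt (fun w : ℂ => (t, w)) ((0, 1) : C2) ξ :=
    (hasDerivAt_const ξ t).prodMk (hasDerivAt_id ξ)
  exact (hf.differentiableAt.hasFDerivAt.comp_hasDerivAt ξ h1).sub (hasDerivAt_id ξ)

end InvX

open InvX in
theorem invS : InvStmt := by
  classical
  intro T D f ρ hT hD hρ H
  have H' : ∀ t ∈ T, ∀ ζ ∈ D, ∀ ξ ∈ ball ζ (2 * ρ),
      DifferentiableAt ℂ (fun w => f (t, w) - w) ξ ∧ ‖(fun w => f (t, w) - w) ξ‖ ≤ ρ / 4 :=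
    fun t ht ζ hζ ξ hξ => ⟨(slice (H t ht ζ hζ ξ hξ).1).differentiableAt, (H t ht ζ hζ ξ hξ).2⟩
  let g : C2 → ℂ := fun p => if e : ∃ ξ ∈ ball p.2 ρ, f (p.1, ξ) = p.2 then e.choose else 0
  have hg : ∀ t ∈ T, ∀ ζ ∈ D, g (t, ζ) ∈ ball ζ ρ ∧ f (t, g (t, ζ)) = ζ := fun t ht ζ hζ => by
    have e : ∃ ξ ∈ ball ζ ρ, f (t, ξ) = ζ := by
      obtain ⟨ξ, h1, h2⟩ := ex hρ (H' t ht ζ hζ)
      exact ⟨ξ, h1, by simpa using h2⟩
    have : g (t, ζ) = e.choose := dif_pos e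
    rw [this]
    exact e.choose_spec
  have hu : ∀ t ∈ T, ∀ ζ ∈ D, ∀ ξ ∈ ball ζ ρ, f (t, ξ) = ζ → ξ = g (t, ζ) :=
    fun t ht ζ hζ ξ hξ e => uniq hρ (H' t ht ζ hζ) hξ (hg t ht ζ hζ).1 (by
      simp only [sub_add_cancel]
      rw [e, (hg t ht ζ hζ).2])
  refine ⟨g, fun t ht ζ hζ => ?_⟩
  obtain ⟨g1, g2⟩ := hg t ht ζ hζ
  have hf : AnalyticAt ℂ f (t, g (t, ζ)) := (H t ht ζ hζ _ (ball_subset_ball (by linarith) g1)).1
  have hd : fderiv ℂ f (t, g (t, ζ)) (0, 1) ≠ 0 := fun e => by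
    have h1 := deriv_le hρ (H' t ht ζ hζ) g1
    rw [(slice hf).deriv, e] at h1
    norm_num at h1
  have hψ : HasFDerivAt (fun q : C2 => (q.1, f q))
      ((ContinuousLinearMap.fst ℂ ℂ ℂ).prod (fderiv ℂ f (t, g (t, ζ)))) (t, g (t, ζ)) :=
    hasFDerivAt_fst.prodMk hf.differentiableAt.hasFDerivAt
  obtain ⟨φ, a1, a2, a3⟩ := E1.ChartAux.ift (ψ := fun q : C2 => (q.1, f q)) (p := (t, g (t, ζ)))
    (analyticAt_fst.prod hf) (fun v hv => by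
      rw [hψ.fderiv] at hv
      have e1 : v.1 = 0 := congrArg Prod.fst hv
      have e2 : fderiv ℂ f (t, g (t, ζ)) v = 0 := congrArg Prod.snd hv
      have e3 : v = v.2 • ((0, 1) : C2) := by ext <;> simp [e1]
      rw [e3, map_smul, smul_eq_mul] at e2
      rw [e3, (mul_eq_zero.1 e2).resolve_right hd, zero_smul])
  have a4 := a2.self_of_nhds
  simp only [g2] at a1 a3 a4
  have b1 : ∀ᶠ q : C2 in 𝓝 (t, ζ), q.1 ∈ T ∧ q.2 ∈ D :=
    (hT.prod hD).mem_nhds (show (t, ζ) ∈ T ×ˢ D from ⟨ht, hζ⟩)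
  have b2 : ∀ᶠ q : C2 in 𝓝 (t, ζ), dist (φ q).2 q.2 < ρ := by
    have c : ContinuousAt (fun q : C2 => dist (φ q).2 q.2) (t, ζ) :=
      a1.continuousAt.snd.dist continuousAt_snd
    refine c.eventually_lt continuousAt_const ?_
    rw [a4]
    exact g1
  have b3 : g =ᶠ[𝓝 (t, ζ)] fun q => (φ q).2 := by
    filter_upwards [a3, b1, b2] with q q1 q2 q3
    have e1 : (φ q).1 = q.1 := (Prod.ext_iff.1 q1).1
    have e2 : f (φ q) = q.2 := (Prod.ext_iff.1 q1).2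
    exact (hu q.1 q2.1 q.2 q2.2 _ q3 (by rw [← e1]; exact e2)).symm
  have hga : AnalyticAt ℂ g (t, ζ) := (analyticAt_snd.comp a1).congr b3.symm
  refine ⟨hga, fun e => ?_, g1, g2, hu t ht ζ hζ⟩
  have c1 : HasFDerivAt (fun q : C2 => f (q.1, g q)) ((fderiv ℂ f (t, g (t, ζ))).comp
      ((ContinuousLinearMap.fst ℂ ℂ ℂ).prod (fderiv ℂ g (t, ζ)))) (t, ζ) :=
    HasFDerivAt.comp (t, ζ) (g := f) (f := fun q : C2 => (q.1, g q))
      hf.differentiableAt.hasFDerivAt (hasFDerivAt_fst.prodMk hga.differentiableAt.hasFDerivAt)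
  have c2 : (fun q : C2 => f (q.1, g q)) =ᶠ[𝓝 (t, ζ)] fun q => q.2 :=
    b1.mono fun q hq => (hg q.1 hq.1 q.2 hq.2).2
  have c3 := c1.unique (hasFDerivAt_snd.congr_of_eventuallyEq c2)
  have c4 := DFunLike.congr_fun c3 ((0, 1) : C2)
  have c5 : fderiv ℂ g (t, ζ) (0, 1) = 0 := e
  simp only [ContinuousLinearMap.comp_apply, ContinuousLinearMap.prod_apply, c5,
    ContinuousLinearMap.coe_fst', ContinuousLinearMap.coe_snd'] at c4
  rw [show ((0 : ℂ), (0 : ℂ)) = (0 : C2) from rfl, map_zero] at c4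
  exact zero_ne_one c4

end Pool.Agent.MP_c69980_ag.G3
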