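import Pool.Agent.MP_c69980_ag.G3.SpecW
import Pool.Agent.MP_098ecc_co.H97.Roots

/-!
The linear welding problem.
-/

set_option autoImplicit false

noncomputable section

namespace Pool.Agent.MP_c69980_ag.G3

open Metric Filter Topology Set
open Pool.Agent.MP_098ecc_co

namespace LinX

/-- Cauchy's formula on an annulus. -/
theorem cau {p₁ p₂ : ℝ} (h0 : 0 < p₁) {g : ℂ → ℂ} {x : ℂ} (h1 : p₁ < ‖x‖) (h2 : ‖x‖ < p₂)
    (hg : DifferentiableOn ℂ g (closedBall 0 p₂ \ ball 0 p₁)) :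
    (∮ s in C(0, p₂), g s / (s - x)) - (∮ s in C(0, p₁), g s / (s - x)) =
      2 * Real.pi * Complex.I * g x := by
  have hn : ∀ z : ℂ, p₁ < ‖z‖ → ‖z‖ < p₂ → closedBall (0 : ℂ) p₂ \ ball 0 p₁ ∈ 𝓝 z := by
    intro z a b
    have ho : IsOpen (ball (0 : ℂ) p₂ \ closedBall 0 p₁) := isOpen_ball.sdiff isClosed_closedBall
    refine mem_of_superset (ho.mem_nhds ⟨mem_ball_zero_iff.2 b, fun h => ?_⟩) fun y hy =>
      ⟨ball_subset_closedBall hy.1, fun h => hy.2 (ball_subset_closedBall h)⟩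
    exact (mem_closedBall_zero_iff.1 h).not_gt a
  have hd := (Complex.differentiableOn_dslope (hn x h1 h2)).2 hg
  have he := Complex.circleIntegral_eq_of_differentiable_on_annulus_off_countable h0
    (h1.trans h2).le countable_empty hd.continuousOn fun z hz => hd.differentiableAt
      (hn z (not_le.1 fun h => hz.1.2 (mem_closedBall_zero_iff.2 h)) (mem_ball_zero_iff.1 hz.1.1))
  have key : ∀ p : ℝ, p₁ ≤ p → p ≤ p₂ → p ≠ ‖x‖ → (∮ s in C(0, p), g s / (s - x)) =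
      (∮ s in C(0, p), dslope g x s) + g x * ∮ s in C(0, p), (s - x)⁻¹ := by
    intro p a b c
    have hp : 0 ≤ p := h0.le.trans a
    have hne : ∀ s ∈ sphere (0 : ℂ) p, s - x ≠ 0 := fun s hs h =>
      c (by rw [← sub_eq_zero.1 h]; exact (mem_sphere_zero_iff_norm.1 hs).symm)
    have hsub : sphere (0 : ℂ) p ⊆ closedBall 0 p₂ \ ball 0 p₁ := fun s hs => by
      have h3 := mem_sphere_zero_iff_norm.1 hs
      refine ⟨mem_closedBall_zero_iff.2 (by linarith), fun h => ?_⟩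
      have h4 := mem_ball_zero_iff.1 h
      linarith
    have hi : ContinuousOn (fun s : ℂ => g x * (s - x)⁻¹) (sphere 0 p) :=
      continuousOn_const.mul ((continuousOn_id.sub continuousOn_const).inv₀ hne)
    rw [← circleIntegral.integral_const_mul, ← circleIntegral.integral_add
      ((hd.continuousOn.mono hsub).circleIntegrable hp) (hi.circleIntegrable hp)]
    refine circleIntegral.integral_congr hp fun s hs => ?_
    have h5 := hne s hs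
    show g s / (s - x) = dslope g x s + g x * (s - x)⁻¹
    rw [dslope_of_ne _ (sub_ne_zero.1 h5), slope_def_field]
    field_simp
    ring
  have hz : (∮ s in C(0, p₁), (s - x)⁻¹) = 0 := by
    have hne : ∀ s ∈ closedBall (0 : ℂ) p₁, s - x ≠ 0 := fun s hs h => by
      have h3 := mem_closedBall_zero_iff.1 hs
      rw [sub_eq_zero.1 h] at h3
      linarith
    exact Complex.circleIntegral_eq_zero_of_differentiable_on_off_countable h0.le countable_empty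
      ((continuousOn_id.sub continuousOn_const).inv₀ hne) fun z hz =>
        (differentiableAt_id.sub_const x).inv (hne z (ball_subset_closedBall hz.1))
  rw [key p₂ (h1.trans h2).le le_rfl h2.ne', key p₁ le_rfl (h1.trans h2).le h1.ne, he, hz,
    circleIntegral.integral_sub_inv_of_mem_ball (mem_ball_zero_iff.2 h2)]
  ring

def U (T : Set ℂ) (r₁ r₂ : ℝ) : Set C2 := {p | p.1 ∈ T ∧ r₁ < ‖p.2‖ ∧ ‖p.2‖ < r₂}

theorem U_open {T : Set ℂ} (hT : IsOpen T) (r₁ r₂ : ℝ) : IsOpen (U T r₁ r₂) :=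
  (hT.preimage continuous_fst).inter ((isOpen_lt continuous_const continuous_snd.norm).inter
    (isOpen_lt continuous_snd.norm continuous_const))

structure Hy (T : Set ℂ) (r₁ r₂ δ : ℝ) (Ψ Ψ' : C2 → ℂ) : Prop where
  d : DifferentiableOn ℂ Ψ (U T r₁ r₂)
  d' : DifferentiableOn ℂ Ψ' (U T r₁ r₂)
  der : ∀ p ∈ U T r₁ r₂, HasDerivAt (fun s => Ψ (p.1, s)) (Ψ' p) p.2
  near : ∀ p ∈ U T r₁ r₂, ‖Ψ p - p.2‖ ≤ δ

def J (p : ℝ) (f Ψ Ψ' : C2 → ℂ) (q : C2) : ℂ :=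
  (2 * Real.pi * Complex.I : ℂ)⁻¹ •
    ∮ s in C(0, p), f (q.1, s) * Ψ' (q.1, s) / (Ψ (q.1, s) - q.2)

variable {T : Set ℂ} {r₁ r₂ δ g : ℝ} {Ψ Ψ' f : C2 → ℂ}

theorem hy_id (T : Set ℂ) (r₁ r₂ : ℝ) (hδ : 0 ≤ δ) : Hy T r₁ r₂ δ Prod.snd fun _ => 1 :=
  ⟨differentiableOn_snd, differentiableOn_const _, fun p _ => hasDerivAt_id p.2,
    fun p _ => by simpa using hδ⟩

theorem sl (hf : DifferentiableOn ℂ f (U T r₁ r₂)) {t : ℂ} (ht : t ∈ T) {S : Set ℂ}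
    (hS : ∀ s ∈ S, r₁ < ‖s‖ ∧ ‖s‖ < r₂) : DifferentiableOn ℂ (fun s => f (t, s)) S :=
  hf.comp (f := fun s : ℂ => ((t, s) : C2))
    ((differentiableOn_const t).prodMk differentiableOn_id) fun s hs => ⟨ht, hS s hs⟩

theorem Hy.ds (h : Hy T r₁ r₂ δ Ψ Ψ') (hg : 0 < g) {t x s : ℂ} (ht : t ∈ T)
    (hx1 : r₁ + g ≤ ‖x‖) (hx2 : ‖x‖ + g ≤ r₂) (hs1 : r₁ < ‖s‖) (hs2 : ‖s‖ < r₂) :
    ‖dslope (fun s => Ψ (t, s)) x s - 1‖ ≤ 2 * δ / g := by
  have hxU : ((t, x) : C2) ∈ U T r₁ r₂ := ⟨ht, by simp only; linarith, by simp only; linarith⟩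
  have e : dslope (fun s => Ψ (t, s)) x s - 1 = dslope (fun s => Ψ (t, s) - s) x s := by
    rcases eq_or_ne s x with rfl | hne
    · rw [dslope_same, dslope_same, (h.der _ hxU).deriv]
      exact ((h.der _ hxU).sub (hasDerivAt_id s)).deriv.symm
    · have h5 := sub_ne_zero.2 hne
      rw [dslope_of_ne _ hne, dslope_of_ne _ hne, slope_def_field, slope_def_field]
      field_simp
      ring
  have hb : ∀ u : ℂ, r₁ < ‖u‖ → ‖u‖ < r₂ → ‖Ψ (t, u) - u - (Ψ (t, x) - x)‖ ≤ 2 * δ := by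
    intro u a b
    have h1 := h.near (t, u) ⟨ht, a, b⟩
    have h2 := h.near _ hxU
    have h3 := norm_sub_le (Ψ (t, u) - u) (Ψ (t, x) - x)
    simp only at h1 h2
    linarith
  have hB : ∀ u ∈ ball x g, r₁ < ‖u‖ ∧ ‖u‖ < r₂ := fun u hu => by
    have h1 := mem_ball_iff_norm.1 hu
    have h2 := abs_le.1 (abs_norm_sub_norm_le u x)
    constructor <;> linarith [h2.1, h2.2]
  rw [e]
  by_cases hs : s ∈ ball x g
  · refine Complex.norm_dslope_le_div_of_mapsTo_ball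
      ((sl h.d ht hB).sub differentiableOn_id) (fun u hu => ?_) hs
    exact mem_closedBall_iff_norm.2 (hb u (hB u hu).1 (hB u hu).2)
  · have h1 : g ≤ ‖s - x‖ := not_lt.1 fun h => hs (mem_ball_iff_norm.2 h)
    have hne : s ≠ x := fun h => hs (h ▸ mem_ball_self hg)
    rw [dslope_of_ne _ hne, slope_def_field, norm_div]
    have h2 := hb s hs1 hs2
    exact div_le_div₀ ((norm_nonneg _).trans h2) h2 hg h1

theorem Hy.dle (h : Hy T r₁ r₂ δ Ψ Ψ') (hg : 0 < g) {t x : ℂ} (ht : t ∈ T)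
    (hx1 : r₁ + g ≤ ‖x‖) (hx2 : ‖x‖ + g ≤ r₂) : ‖Ψ' (t, x) - 1‖ ≤ 2 * δ / g := by
  have h1 := h.ds hg ht hx1 hx2 (s := x) (by linarith) (by linarith)
  rwa [dslope_same, (h.der (t, x) ⟨ht, by simp only; linarith, by simp only; linarith⟩).deriv] at h1

theorem Hy.far (h : Hy T r₁ r₂ δ Ψ Ψ') (hδ : 4 * δ ≤ g) {t x η s : ℂ} {p : ℝ} (ht : t ∈ T)
    (hp1 : r₁ < p) (hp2 : p < r₂) (hx : ‖x‖ + g ≤ p ∨ p + g ≤ ‖x‖) (hη : ‖η - x‖ ≤ δ)
    (hs : s ∈ sphere (0 : ℂ) p) : g / 2 ≤ ‖Ψ (t, s) - η‖ := by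
  have h1 := mem_sphere_zero_iff_norm.1 hs
  have h2 := abs_le.1 (abs_norm_sub_norm_le s x)
  have h3 := h.near (t, s) ⟨ht, by simp only; linarith, by simp only; linarith⟩
  have h4 : s - x = Ψ (t, s) - η - (Ψ (t, s) - s) + (η - x) := by ring
  have h5 := norm_add_le (Ψ (t, s) - η - (Ψ (t, s) - s)) (η - x)
  have h6 := norm_sub_le (Ψ (t, s) - η) (Ψ (t, s) - s)
  rw [← h4] at h5
  simp only at h3
  rcases hx with hx | hx <;> linarith [h2.1, h2.2]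

theorem Hy.J_diff (h : Hy T r₁ r₂ δ Ψ Ψ') (hT : IsOpen T) (hf : DifferentiableOn ℂ f (U T r₁ r₂))
    {p : ℝ} (hp0 : 0 < p) (hp1 : r₁ < p) (hp2 : p < r₂) {q : C2} (hq : q.1 ∈ T)
    (hne : ∀ s ∈ sphere (0 : ℂ) p, Ψ (q.1, s) - q.2 ≠ 0) :
    DifferentiableAt ℂ (J p f Ψ Ψ') q := by
  let π : C2 × ℂ → C2 := fun z => (z.1.1, z.2)
  have hπ : Differentiable ℂ π := by fun_prop
  have hV : IsOpen (π ⁻¹' U T r₁ r₂) := (U_open hT r₁ r₂).preimage hπ.continuous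
  have hc : ∀ {F : C2 → ℂ}, DifferentiableOn ℂ F (U T r₁ r₂) →
      DifferentiableOn ℂ (fun z => F (π z)) (π ⁻¹' U T r₁ r₂) := fun hF =>
    hF.comp hπ.differentiableOn fun z hz => hz
  have hD : DifferentiableOn ℂ (fun z : C2 × ℂ => Ψ (π z) - z.1.2) (π ⁻¹' U T r₁ r₂) :=
    (hc h.d).sub (by fun_prop)
  have hW := hD.continuousOn.isOpen_inter_preimage hV (isOpen_compl_singleton (x := (0 : ℂ)))
  have h1 := H97.roots_int hW (Φ := fun z : C2 × ℂ => f (π z) * Ψ' (π z) / (Ψ (π z) - z.1.2))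
    (((((hc hf).mul (hc h.d')).mono inter_subset_left).mul ((hD.mono inter_subset_left).inv
      fun z hz => hz.2)).congr fun z _ => div_eq_mul_inv _ _) (c := 0) hp0 (p := q) fun s hs => by
        have h2 := mem_sphere_zero_iff_norm.1 hs
        exact ⟨⟨hq, by simp only [π]; linarith, by simp only [π]; linarith⟩, hne s hs⟩
  exact h1.const_smul (2 * Real.pi * Complex.I : ℂ)⁻¹

theorem Hy.J_le (h : Hy T r₁ r₂ δ Ψ Ψ') (hg : 0 < g) (hδ0 : 0 ≤ δ) (hδ : 4 * δ ≤ g) {t η : ℂ}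
    {p M : ℝ} (ht : t ∈ T) (hp0 : 0 ≤ p) (hp1 : r₁ + g ≤ p) (hp2 : p + g ≤ r₂)
    (hx : ‖η‖ + g ≤ p ∨ p + g ≤ ‖η‖) (hM0 : 0 ≤ M)
    (hM : ∀ s : ℂ, r₁ < ‖s‖ → ‖s‖ < r₂ → ‖f (t, s)‖ ≤ M) :
    ‖J p f Ψ Ψ' (t, η)‖ ≤ 4 * r₂ / g * M := by
  refine (circleIntegral.norm_two_pi_i_inv_smul_integral_le_of_norm_le_const
    (C := M * 2 / (g / 2)) hp0 fun s hs => ?_).trans ?_
  · have h1 := mem_sphere_zero_iff_norm.1 hs
    have h2 := h.far hδ ht (by linarith) (by linarith) hx (η := η) (by simpa using hδ0) hs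
    have h3 := h.dle hg ht (x := s) (by linarith) (by linarith)
    have h4 : 2 * δ / g ≤ 1 := by rw [div_le_one hg]; linarith
    have h5 := norm_add_le (Ψ' (t, s) - 1) 1
    rw [sub_add_cancel, norm_one] at h5
    rw [norm_div, norm_mul]
    exact div_le_div₀ (by positivity) (mul_le_mul (hM s (by linarith) (by linarith))
      (by simp only; linarith) (norm_nonneg _) hM0) (by positivity) h2
  · have h1 : p * (M * 2 / (g / 2)) = 4 * p / g * M := by field_simp; ring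
    rw [h1]
    gcongr
    linarith

theorem Hy.F_le (h : Hy T r₁ r₂ δ Ψ Ψ') (hf : DifferentiableOn ℂ f (U T r₁ r₂)) (hg : 0 < g)
    (hδ0 : 0 ≤ δ) (hδ : 4 * δ ≤ g) {t x : ℂ} {p M : ℝ} (ht : t ∈ T) (hp0 : 0 ≤ p)
    (hp1 : r₁ + g ≤ p) (hp2 : p + g ≤ r₂) (hx : ‖x‖ + g ≤ p ∨ p + g ≤ ‖x‖) (hx1 : r₁ < ‖x‖)
    (hx2 : ‖x‖ < r₂) (hM0 : 0 ≤ M) (hM : ∀ s : ℂ, r₁ < ‖s‖ → ‖s‖ < r₂ → ‖f (t, s)‖ ≤ M) :
    ‖J p f Prod.snd (fun _ => 1) (t, x) - J p f Ψ Ψ' (t, Ψ (t, x))‖ ≤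
      8 * r₂ * δ / g ^ 2 * M := by
  have hS : ∀ s ∈ sphere (0 : ℂ) p, r₁ < ‖s‖ ∧ ‖s‖ < r₂ := fun s hs => by
    have h1 := mem_sphere_zero_iff_norm.1 hs
    constructor <;> linarith
  have hn1 : ∀ s ∈ sphere (0 : ℂ) p, g / 2 ≤ ‖s - x‖ := fun s hs =>
    (hy_id T r₁ r₂ hδ0).far hδ ht (by linarith) (by linarith) hx (η := x) (by simpa using hδ0) hs
  have hn2 : ∀ s ∈ sphere (0 : ℂ) p, g / 2 ≤ ‖Ψ (t, s) - Ψ (t, x)‖ := fun s hs =>
    h.far hδ ht (by linarith) (by linarith) hx (h.near (t, x) ⟨ht, hx1, hx2⟩) hs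
  have hz : ∀ z : ℂ, g / 2 ≤ ‖z‖ → z ≠ 0 := fun z hz => norm_pos_iff.1 (by linarith)
  have hc1 : ContinuousOn (fun s : ℂ => f (t, s) * 1 / (s - x)) (sphere 0 p) :=
    ((sl hf ht hS).continuousOn.mul continuousOn_const).div
      (continuousOn_id.sub continuousOn_const) fun s hs => hz _ (hn1 s hs)
  have hc2 : ContinuousOn (fun s : ℂ => f (t, s) * Ψ' (t, s) / (Ψ (t, s) - Ψ (t, x)))
      (sphere 0 p) :=
    ((sl hf ht hS).continuousOn.mul (sl h.d' ht hS).continuousOn).div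
      ((sl h.d ht hS).continuousOn.sub continuousOn_const) fun s hs => hz _ (hn2 s hs)
  have e : J p f Prod.snd (fun _ => 1) (t, x) - J p f Ψ Ψ' (t, Ψ (t, x)) =
      (2 * Real.pi * Complex.I : ℂ)⁻¹ • ∮ s in C(0, p),
        (f (t, s) * 1 / (s - x) - f (t, s) * Ψ' (t, s) / (Ψ (t, s) - Ψ (t, x))) := by
    rw [circleIntegral.integral_sub (hc1.circleIntegrable hp0) (hc2.circleIntegrable hp0), smul_sub]
    rfl
  rw [e]
  refine (circleIntegral.norm_two_pi_i_inv_smul_integral_le_of_norm_le_const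
    (C := M * (2 * δ / g + 2 * δ / g) / (g / 2)) hp0 fun s hs => ?_).trans ?_
  · have h1 := mem_sphere_zero_iff_norm.1 hs
    have h2 := h.ds hg ht (x := s) (s := x) (by linarith) (by linarith) hx1 hx2
    have h3 := h.dle hg ht (x := s) (by linarith) (by linarith)
    have h4 := hz _ (hn1 s hs)
    have h5 := hz _ (hn2 s hs)
    have h6 : x - s ≠ 0 := fun h => h4 (by rw [← neg_sub, h, neg_zero])
    have h7 : f (t, s) * 1 / (s - x) - f (t, s) * Ψ' (t, s) / (Ψ (t, s) - Ψ (t, x)) =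
        f (t, s) * (dslope (fun s => Ψ (t, s)) s x - 1 - (Ψ' (t, s) - 1)) /
          (Ψ (t, s) - Ψ (t, x)) := by
      rw [dslope_of_ne _ (sub_ne_zero.1 h6), slope_def_field]
      field_simp
      ring
    rw [h7, norm_div, norm_mul]
    exact div_le_div₀ (by positivity) (mul_le_mul (hM s (by linarith) (by linarith))
      ((norm_sub_le _ _).trans (add_le_add h2 h3)) (norm_nonneg _) hM0) (by positivity) (hn2 s hs)
  · have h1 : p * (M * (2 * δ / g + 2 * δ / g) / (g / 2)) = 8 * p * δ / g ^ 2 * M := by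
      field_simp
      ring
    rw [h1]
    gcongr
    linarith

theorem Hy.res (h : Hy T r₁ r₂ δ Ψ Ψ') (hf : DifferentiableOn ℂ f (U T r₁ r₂)) (hg : 0 < g)
    (hδ : 4 * δ ≤ g) {t x : ℂ} {p₁ p₂ : ℝ} (ht : t ∈ T) (hp0 : 0 < p₁) (hp1 : r₁ < p₁)
    (hp2 : p₂ < r₂) (h1 : p₁ < ‖x‖) (h2 : ‖x‖ < p₂) (hx1 : r₁ + g ≤ ‖x‖) (hx2 : ‖x‖ + g ≤ r₂) :
    J p₂ f Ψ Ψ' (t, Ψ (t, x)) - J p₁ f Ψ Ψ' (t, Ψ (t, x)) = f (t, x) := by
  have hS : ∀ s ∈ closedBall (0 : ℂ) p₂ \ ball 0 p₁, r₁ < ‖s‖ ∧ ‖s‖ < r₂ := fun s hs => by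
    have h3 := mem_closedBall_zero_iff.1 hs.1
    have h4 : p₁ ≤ ‖s‖ := not_lt.1 fun h => hs.2 (mem_ball_zero_iff.2 h)
    constructor <;> linarith
  have hn : closedBall (0 : ℂ) p₂ \ ball 0 p₁ ∈ 𝓝 x := by
    have ho : IsOpen (ball (0 : ℂ) p₂ \ closedBall 0 p₁) := isOpen_ball.sdiff isClosed_closedBall
    refine mem_of_superset (ho.mem_nhds ⟨mem_ball_zero_iff.2 h2, fun h => ?_⟩) fun y hy =>
      ⟨ball_subset_closedBall hy.1, fun h => hy.2 (ball_subset_closedBall h)⟩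
    exact (mem_closedBall_zero_iff.1 h).not_gt h1
  have hD : ∀ s : ℂ, r₁ < ‖s‖ → ‖s‖ < r₂ → dslope (fun s => Ψ (t, s)) x s ≠ 0 := by
    intro s a b h0
    have h3 := h.ds hg ht hx1 hx2 a b
    have h4 : 2 * δ / g < 1 := by rw [div_lt_one hg]; linarith
    rw [h0, zero_sub, norm_neg, norm_one] at h3
    linarith
  have hc := cau hp0 h1 h2
    (g := fun s => f (t, s) * Ψ' (t, s) / dslope (fun s => Ψ (t, s)) x s)
    (((sl hf ht hS).mul (sl h.d' ht hS)).div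
      ((Complex.differentiableOn_dslope hn).2 (sl h.d ht hS)) fun s hs =>
        hD s (hS s hs).1 (hS s hs).2)
  have key : ∀ p : ℝ, 0 ≤ p → p ≠ ‖x‖ →
      (∮ s in C(0, p), f (t, s) * Ψ' (t, s) / dslope (fun s => Ψ (t, s)) x s / (s - x)) =
        ∮ s in C(0, p), f (t, s) * Ψ' (t, s) / (Ψ (t, s) - Ψ (t, x)) := by
    intro p a b
    refine circleIntegral.integral_congr a fun s hs => ?_
    have hne : s ≠ x := fun h => b (by rw [← h]; exact (mem_sphere_zero_iff_norm.1 hs).symm)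
    show f (t, s) * Ψ' (t, s) / dslope (fun s => Ψ (t, s)) x s / (s - x) =
      f (t, s) * Ψ' (t, s) / (Ψ (t, s) - Ψ (t, x))
    rw [dslope_of_ne _ hne, slope_def_field, div_div, div_mul_cancel₀ _ (sub_ne_zero.2 hne)]
  have hx0 := hD x (by linarith) (by linarith)
  rw [key p₂ (by linarith) h2.ne', key p₁ hp0.le h1.ne] at hc
  rw [dslope_same, (h.der (t, x) ⟨ht, by simp only; linarith, by simp only; linarith⟩).deriv]
    at hc hx0
  rw [mul_div_cancel_right₀ _ hx0] at hc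
  have h5 : (2 * Real.pi * Complex.I : ℂ) ≠ 0 := Complex.two_pi_I_ne_zero
  unfold J
  rw [← smul_sub]
  simp only
  rw [hc, smul_eq_mul, inv_mul_cancel_left₀ h5]

theorem split (hT : IsOpen T) {r₁' r₂' : ℝ} (h0 : 0 < r₁) (hg : 0 < g) (ha : r₁ + 2 * g ≤ r₁')
    (hb : r₂' + 3 * g ≤ r₂) (hab : r₁' < r₂') (hδ0 : 0 ≤ δ) (hδ : 4 * δ ≤ g)
    (hδ2 : 8 * r₂ * δ / g ^ 2 ≤ 1 / 2) (h : Hy T r₁ r₂ δ Ψ Ψ') (f : C2 → ℂ)
    (hf : DifferentiableOn ℂ f (U T r₁ r₂)) :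
    ∃ a b k : C2 → ℂ, DifferentiableOn ℂ a {p | p.1 ∈ T ∧ ‖p.2‖ < r₂'} ∧
      DifferentiableOn ℂ b {p | p.1 ∈ T ∧ r₁' < ‖p.2‖} ∧ DifferentiableOn ℂ k (U T r₁ r₂) ∧
      (∀ t ∈ T, ∀ x, r₁' < ‖x‖ → ‖x‖ < r₂ → ‖Ψ (t, x)‖ < r₂' →
        f (t, x) = a (t, Ψ (t, x)) + b (t, x) + k (t, x)) ∧
      ∀ t ∈ T, ∀ M : ℝ, (∀ s : ℂ, r₁ < ‖s‖ → ‖s‖ < r₂ → ‖f (t, s)‖ ≤ M) →
        (∀ η, ‖η‖ < r₂' → ‖a (t, η)‖ ≤ 4 * r₂ / g * M) ∧
        (∀ x, r₁' < ‖x‖ → ‖b (t, x)‖ ≤ 4 * r₂ / g * M) ∧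
        ∀ x, r₁ < ‖x‖ → ‖x‖ < r₂ → ‖k (t, x)‖ ≤ M * (1 / 2) := by
  have hi := hy_id T r₁ r₂ hδ0
  have hU := U_open hT r₁ r₂
  have hz : ∀ z : ℂ, g / 2 ≤ ‖z‖ → z ≠ 0 := fun z hz => norm_pos_iff.1 (by linarith)
  let F : ℝ → C2 → ℂ := fun p q => J p f Prod.snd (fun _ => 1) q - J p f Ψ Ψ' (q.1, Ψ q)
  have hF : ∀ p : ℝ, r₁ < p → p < r₂ → ∀ q ∈ U T r₁ r₂, (‖q.2‖ + g ≤ p ∨ p + g ≤ ‖q.2‖) →
      DifferentiableAt ℂ (F p) q := by
    intro p a b q hq hx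
    have h1 := hi.J_diff hT hf (h0.trans a) a b (q := q) hq.1 fun s hs =>
      hz _ (hi.far hδ hq.1 a b hx (η := q.2) (by simpa using hδ0) hs)
    have h2 := h.J_diff hT hf (h0.trans a) a b (q := (q.1, Ψ q)) hq.1 fun s hs =>
      hz _ (h.far hδ hq.1 a b hx (h.near q hq) hs)
    exact h1.sub (DifferentiableAt.comp (f := fun q : C2 => ((q.1, Ψ q) : C2)) q h2
      (differentiableAt_fst.prodMk (h.d.differentiableAt (hU.mem_nhds hq))))
  have hr : ∀ {Θ Θ' : C2 → ℂ}, Hy T r₁ r₂ δ Θ Θ' → ∀ t ∈ T, ∀ x : ℂ, r₁ + g + g ≤ ‖x‖ →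
      ‖x‖ + g < r₂ - g →
      J (r₂ - g) f Θ Θ' (t, Θ (t, x)) - J (r₁ + g) f Θ Θ' (t, Θ (t, x)) = f (t, x) :=
    fun hΘ t ht x a b => hΘ.res hf hg hδ ht (by linarith) (by linarith) (by linarith)
      (by linarith) (by linarith) (by linarith) (by linarith)
  refine ⟨J (r₂ - g) f Ψ Ψ', fun q => -J (r₁ + g) f Prod.snd (fun _ => 1) q,
    fun q => if ‖q.2‖ + g < r₂ - g then F (r₂ - g) q else F (r₁ + g) q,
    fun q hq => ?_, fun q hq => ?_, fun q hq => ?_, fun t ht x a b c => ?_,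
    fun t ht M hM => ?_⟩
  · have h1 := hq.2
    exact (h.J_diff hT hf (by linarith) (by linarith) (by linarith) hq.1 fun s hs =>
      hz _ (h.far hδ hq.1 (by linarith) (by linarith) (x := q.2) (Or.inl (by linarith))
        (by simpa using hδ0) hs)).differentiableWithinAt
  · have h1 := hq.2
    exact (hi.J_diff hT hf (by linarith) (by linarith) (by linarith) hq.1 fun s hs =>
      hz _ (hi.far hδ hq.1 (by linarith) (by linarith) (x := q.2) (Or.inr (by linarith))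
        (by simpa using hδ0) hs)).neg.differentiableWithinAt
  · refine DifferentiableAt.differentiableWithinAt ?_
    by_cases c : ‖q.2‖ + g < r₂ - g
    · refine (hF (r₂ - g) (by linarith) (by linarith) q hq (Or.inl c.le)).congr_of_eventuallyEq ?_
      have ho : IsOpen {q : C2 | ‖q.2‖ + g < r₂ - g} :=
        isOpen_lt (continuous_snd.norm.add continuous_const) continuous_const
      filter_upwards [ho.mem_nhds c] with y hy
      exact if_pos hy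
    · have c' := not_lt.1 c
      refine (hF (r₁ + g) (by linarith) (by linarith) q hq
        (Or.inr (by linarith))).congr_of_eventuallyEq ?_
      have ho : IsOpen {q : C2 | r₁ + g + g < ‖q.2‖} :=
        isOpen_lt continuous_const continuous_snd.norm
      filter_upwards [ho.mem_nhds (show r₁ + g + g < ‖q.2‖ by linarith), hU.mem_nhds hq]
        with y hy hy'
      by_cases d : ‖y.2‖ + g < r₂ - g
      · rw [if_pos d]
        have h1 := hr h y.1 hy'.1 y.2 (le_of_lt hy) d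
        have h2 := hr hi y.1 hy'.1 y.2 (le_of_lt hy) d
        simp only [Prod.mk.eta] at h1 h2
        simp only [F]
        linear_combination h2 - h1
      · exact if_neg d
  · have h1 := h.near (t, x) ⟨ht, by simp only; linarith, b⟩
    have h2 := norm_sub_le (Ψ (t, x)) (Ψ (t, x) - x)
    rw [sub_sub_cancel] at h2
    simp only at h1
    have d : ‖x‖ + g < r₂ - g := by linarith
    have h3 := hr hi t ht x (by linarith) d
    simp only [if_pos d, F]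
    simp only at h3
    linear_combination -h3
  · have hM0 : 0 ≤ M := by
      have h1 : ‖((r₁' : ℝ) : ℂ)‖ = r₁' := by
        rw [Complex.norm_real, Real.norm_eq_abs, abs_of_pos (by linarith)]
      exact (norm_nonneg _).trans (hM (r₁' : ℝ) (by linarith) (by linarith))
    refine ⟨fun η a => ?_, fun x a => ?_, fun x a b => ?_⟩
    · exact h.J_le hg hδ0 hδ ht (by linarith) (by linarith) (by linarith)
        (Or.inl (by linarith)) hM0 hM
    · rw [norm_neg]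
      exact hi.J_le hg hδ0 hδ ht (by linarith) (by linarith) (by linarith)
        (Or.inr (by linarith)) hM0 hM
    · have h1 : 8 * r₂ * δ / g ^ 2 * M ≤ M * (1 / 2) := by
        rw [mul_comm M]
        exact mul_le_mul_of_nonneg_right hδ2 hM0
      by_cases c : ‖x‖ + g < r₂ - g
      · simp only [if_pos c]
        exact (h.F_le hf hg hδ0 hδ ht (by linarith) (by linarith) (by linarith)
          (Or.inl c.le) a b hM0 hM).trans h1
      · have c' := not_lt.1 c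
        simp only [if_neg c]
        exact (h.F_le hf hg hδ0 hδ ht (by linarith) (by linarith) (by linarith)
          (Or.inr (by linarith)) a b hM0 hM).trans h1

theorem ana (hO : OsgStmt) {F : C2 → ℂ} {O : Set C2} (ho : IsOpen O)
    (hF : DifferentiableOn ℂ F O) : AnalyticOnNhd ℂ F O :=
  hO F O ho hF.continuousOn fun p hp =>
    ⟨DifferentiableAt.comp (f := fun t : ℂ => ((t, p.2) : C2)) p.1
        (hF.differentiableAt (ho.mem_nhds hp)) (by fun_prop),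
      DifferentiableAt.comp (f := fun w : ℂ => ((p.1, w) : C2)) p.2
        (hF.differentiableAt (ho.mem_nhds hp)) (by fun_prop)⟩

end LinX

open LinX in
theorem linS : LinOf := by
  intro hO r₁ r₁' r₂' r₂ h0 h1 h2 h3
  obtain ⟨g, hg, ha, hb⟩ : ∃ g : ℝ, 0 < g ∧ r₁ + 2 * g ≤ r₁' ∧ r₂' + 3 * g ≤ r₂ := by
    refine ⟨min ((r₁' - r₁) / 2) ((r₂ - r₂') / 3), lt_min (by linarith) (by linarith), ?_, ?_⟩
    · linarith [min_le_left ((r₁' - r₁) / 2) ((r₂ - r₂') / 3)]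
    · linarith [min_le_right ((r₁' - r₁) / 2) ((r₂ - r₂') / 3)]
  have hr : 0 < r₂ := by linarith
  obtain ⟨δ, hδ0, hδ, hδ2⟩ : ∃ δ : ℝ, 0 < δ ∧ 4 * δ ≤ g ∧ 8 * r₂ * δ / g ^ 2 ≤ 1 / 2 := by
    refine ⟨min (g / 4) (g ^ 2 / (16 * r₂)), lt_min (by linarith) (by positivity), ?_, ?_⟩
    · linarith [min_le_left (g / 4) (g ^ 2 / (16 * r₂))]
    · have h4 := min_le_right (g / 4) (g ^ 2 / (16 * r₂))
      rw [le_div_iff₀ (by positivity)] at h4
      rw [div_le_iff₀ (by positivity)]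
      linarith
  refine ⟨δ, 4 * (4 * r₂ / g), hδ0, fun T Φ hT hΦ => ?_⟩
  have han : ∀ p ∈ U T r₁ r₂, AnalyticAt ℂ Φ p := fun p hp => (hΦ p.1 hp.1 p.2 hp.2.1 hp.2.2).1
  have h : Hy T r₁ r₂ δ Φ (dw Φ) := by
    refine ⟨fun p hp => (han p hp).differentiableAt.differentiableWithinAt, fun p hp => ?_,
      fun p hp => ?_, fun p hp => (hΦ p.1 hp.1 p.2 hp.2.1 hp.2.2).2⟩
    · exact ((han p hp).fderiv.differentiableAt.clm_apply
        (differentiableAt_const ((0, 1) : C2))).differentiableWithinAt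
    · exact HasFDerivAt.comp_hasDerivAt (f := fun s : ℂ => ((p.1, s) : C2)) p.2
        (han p hp).differentiableAt.hasFDerivAt
        ((hasDerivAt_const p.2 p.1).prodMk (hasDerivAt_id p.2))
  choose! A B L hA hB hL hI hN using split hT h0 hg ha hb h2 hδ0.le hδ hδ2 h
  let F : ℕ → C2 → ℂ := fun n => L^[n] fun p => p.2 - Φ p
  have hs : ∀ n, F (n + 1) = L (F n) := fun n => Function.iterate_succ_apply' L n _
  have hF : ∀ n, DifferentiableOn ℂ (F n) (U T r₁ r₂) := by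
    intro n
    induction n with
    | zero => exact differentiableOn_snd.sub h.d
    | succ n ih => rw [hs]; exact hL _ ih
  have hFb : ∀ t ∈ T, ∀ e : ℝ, (∀ ξ, r₁ < ‖ξ‖ → ‖ξ‖ < r₂ → ‖Φ (t, ξ) - ξ‖ ≤ e) → ∀ n : ℕ,
      ∀ s : ℂ, r₁ < ‖s‖ → ‖s‖ < r₂ → ‖F n (t, s)‖ ≤ e * (1 / 2) ^ n := by
    intro t ht e he n
    induction n with
    | zero =>
      intro s a b
      rw [pow_zero, mul_one]
      exact (norm_sub_rev _ _).trans_le (he s a b)
    | succ n ih =>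
      intro s a b
      rw [hs, pow_succ, ← mul_assoc]
      exact (hN _ (hF n) t ht _ ih).2.2 s a b
  have hd : ∀ t ∈ T, ∀ ξ, r₁ < ‖ξ‖ → ‖ξ‖ < r₂ → ‖Φ (t, ξ) - ξ‖ ≤ δ := fun t ht ξ a b =>
    (hΦ t ht ξ a b).2
  have hG : ∀ e : ℝ, HasSum (fun n : ℕ => 4 * r₂ / g * (e * (1 / 2) ^ n)) (4 * r₂ / g * (e * 2)) :=
    fun e => (hasSum_geometric_two.mul_left e).mul_left _
  have ho1 : IsOpen {p : C2 | p.1 ∈ T ∧ ‖p.2‖ < r₂'} :=
    (hT.preimage continuous_fst).inter (isOpen_lt continuous_snd.norm continuous_const)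
  have ho2 : IsOpen {p : C2 | p.1 ∈ T ∧ r₁' < ‖p.2‖} :=
    (hT.preimage continuous_fst).inter (isOpen_lt continuous_const continuous_snd.norm)
  have hAb : ∀ t ∈ T, ∀ e : ℝ, (∀ ξ, r₁ < ‖ξ‖ → ‖ξ‖ < r₂ → ‖Φ (t, ξ) - ξ‖ ≤ e) → ∀ η : ℂ,
      ‖η‖ < r₂' → ∀ n : ℕ, ‖A (F n) (t, η)‖ ≤ 4 * r₂ / g * (e * (1 / 2) ^ n) :=
    fun t ht e he η a n => (hN _ (hF n) t ht _ (hFb t ht e he n)).1 η a
  have hBb : ∀ t ∈ T, ∀ e : ℝ, (∀ ξ, r₁ < ‖ξ‖ → ‖ξ‖ < r₂ → ‖Φ (t, ξ) - ξ‖ ≤ e) → ∀ η : ℂ,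
      r₁' < ‖η‖ → ∀ n : ℕ, ‖B (F n) (t, η)‖ ≤ 4 * r₂ / g * (e * (1 / 2) ^ n) :=
    fun t ht e he η a n => (hN _ (hF n) t ht _ (hFb t ht e he n)).2.1 η a
  have ha1 := ana hO ho1 (H97.hol_tsum ho1 (fun n => hA _ (hF n)) (hG δ).summable
    fun n p hp => hAb p.1 hp.1 δ (hd p.1 hp.1) p.2 hp.2 n).1
  have hb1 := ana hO ho2 (H97.hol_tsum ho2 (fun n => hB _ (hF n)) (hG δ).summable
    fun n p hp => hBb p.1 hp.1 δ (hd p.1 hp.1) p.2 hp.2 n).1
  have hz : ‖(0 : ℂ)‖ < r₂' := by rw [norm_zero]; linarith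
  refine ⟨fun p => p.2 + (∑' n, A (F n) p) - ∑' n, A (F n) (p.1, 0),
    fun p => p.2 - (∑' n, B (F n) p) - ∑' n, A (F n) (p.1, 0), fun t ht => ?_⟩
  have ha0 : ∀ η : ℂ, AnalyticAt ℂ (fun p : C2 => ∑' n, A (F n) (p.1, 0)) (t, η) := fun η =>
    AnalyticAt.comp (f := fun p : C2 => ((p.1, 0) : C2)) (x := (t, η)) (ha1 (t, 0) ⟨ht, hz⟩)
      (analyticAt_fst.prod analyticAt_const)
  refine ⟨fun η a => (analyticAt_snd.add (ha1 (t, η) ⟨ht, a⟩)).sub (ha0 η),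
    fun ξ a => (analyticAt_snd.sub (hb1 (t, ξ) ⟨ht, a⟩)).sub (ha0 ξ), by simp,
    fun ξ a b c => ?_, fun e he => ⟨fun η a => ?_, fun ξ a => ?_⟩⟩
  · have s1 : Summable fun n => A (F n) (t, Φ (t, ξ)) :=
      (hG δ).summable.of_norm_bounded (hAb t ht δ (hd t ht) _ c)
    have s2 : Summable fun n => B (F n) (t, ξ) :=
      (hG δ).summable.of_norm_bounded (hBb t ht δ (hd t ht) _ a)
    have s3 : Summable fun n => F n (t, ξ) :=
      (hasSum_geometric_two.mul_left δ).summable.of_norm_bounded fun n =>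
        hFb t ht δ (hd t ht) n ξ (h1.trans a) b
    have s4 : Summable fun n => F (n + 1) (t, ξ) := (summable_nat_add_iff 1).2 s3
    have e1 := s3.tsum_eq_zero_add
    have e2 : ∑' n, F n (t, ξ) =
        ∑' n, (A (F n) (t, Φ (t, ξ)) + B (F n) (t, ξ) + F (n + 1) (t, ξ)) :=
      tsum_congr fun n => by rw [hs]; exact hI _ (hF n) t ht ξ a b c
    rw [(s1.add s2).tsum_add s4, s1.tsum_add s2] at e2
    have e3 : F 0 (t, ξ) = ξ - Φ (t, ξ) := rfl
    simp only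
    linear_combination e1 - e2 + e3
  · have e1 := tsum_of_norm_bounded (hG e) (hAb t ht e he η a)
    have e2 := tsum_of_norm_bounded (hG e) (hAb t ht e he 0 hz)
    have e3 := norm_sub_le (∑' n, A (F n) (t, η)) (∑' n, A (F n) (t, 0))
    have e4 : η + (∑' n, A (F n) (t, η)) - (∑' n, A (F n) (t, 0)) - η =
        (∑' n, A (F n) (t, η)) - ∑' n, A (F n) (t, 0) := by ring
    simp only
    rw [e4]
    linarith
  · have e1 := tsum_of_norm_bounded (hG e) (hBb t ht e he ξ a)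
    have e2 := tsum_of_norm_bounded (hG e) (hAb t ht e he 0 hz)
    have e3 := norm_add_le (∑' n, B (F n) (t, ξ)) (∑' n, A (F n) (t, 0))
    have e4 : ξ - (∑' n, B (F n) (t, ξ)) - (∑' n, A (F n) (t, 0)) - ξ =
        -((∑' n, B (F n) (t, ξ)) + ∑' n, A (F n) (t, 0)) := by ring
    simp only
    rw [e4, norm_neg]
    linarith

end Pool.Agent.MP_c69980_ag.G3
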