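import Pool.Agent.MP_c69980_ag.G3.MergeB

/-!
Merging a neck, a cylinder and an edge.
-/

set_option autoImplicit false

noncomputable section

namespace Pool.Agent.MP_c69980_ag.G3

open Metric Filter Topology Set

namespace MergeX

variable {M : Type} [MetricSpace M] {A : Amb M} {E₁ V E₂ P P' N Y : C2 → M} {c₁ c₂ : ℂ → ℂ}
  {f f₁ f₂ f₃ : C2 → ℂ} {r r' q Q : ℝ} {κ : Kd} {I I' : Set ℝ}

/-- Points of `Y` over the norms `I'` are points of `N`. -/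
lemma Zo.back (Z : Zo A N Y f I I') {ε : ℝ} (hε : 0 < ε) : ∀ᶠ t in A.l, ∀ η : ℂ, ‖η‖ ∈ I' →
    ∃ ξ, ‖η - ξ‖ ≤ ε * ‖ξ‖ ∧ N (t, ξ) = Y (t, η) := by
  filter_upwards [Z.eq, Z.near ε hε, Z.sur] with t z n s η hη
  obtain ⟨ξ, k, rfl⟩ := s η hη
  exact ⟨ξ, n ξ k, (z ξ k).1⟩

lemma Zo.pull' {S : Set ℂ} {η ρ ε : ℝ} (Z : Zo A N P f I I') (h : Mt A.l Y P id S) (η0 : 0 < η)
    (hS : ∀ ω ∈ S, ∀ y, ‖ω‖ - η ≤ y → y ≤ ‖ω‖ + η → y ∈ I') (ρ0 : 0 < ρ) (hρ : ∀ ω ∈ S, ρ ≤ ‖ω‖)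
    (hε : 0 < ε) : ∀ᶠ t in A.l, ∀ ω ∈ S, ∃ ξ, ‖ω - ξ‖ ≤ ε * ‖ξ‖ ∧ N (t, ξ) = Y (t, ω) := by
  obtain ⟨δ, δ0, δ1, δ2, δ3, δ4⟩ : ∃ δ : ℝ, 0 < δ ∧ δ ≤ 1 ∧ δ ≤ ρ / 2 ∧ δ ≤ ε / 2 ∧
      δ ≤ ε / 2 * (ρ / 4) :=
    ⟨min (min 1 (ρ / 2)) (min (ε / 2) (ε / 2 * (ρ / 4))), by positivity,
      (min_le_left _ _).trans (min_le_left _ _), (min_le_left _ _).trans (min_le_right _ _),
      (min_le_right _ _).trans (min_le_left _ _), (min_le_right _ _).trans (min_le_right _ _)⟩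
  filter_upwards [Z.pull h η0 hS δ0] with t ht ω hω
  obtain ⟨ξ, k1, k2⟩ := ht ω hω
  refine ⟨ξ, ?_, k2⟩
  have a1 := norm_sub_norm_le ω ξ
  have a2 := mul_le_mul_of_nonneg_right δ1 (norm_nonneg ξ)
  have a3 := mul_le_mul_of_nonneg_right δ3 (norm_nonneg ξ)
  have a4 : ε / 2 * (ρ / 4) ≤ ε / 2 * ‖ξ‖ :=
    mul_le_mul_of_nonneg_left (by linarith [hρ ω hω]) (half_pos hε).le
  linarith

lemma Dat.backV (hs : SymStmt) (D : Dat A κ E₁ V E₂ P P' N c₁ c₂ r q Q f₁ f₂ f₃) {ρ ε : ℝ}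
    (ρ0 : 0 < ρ) (hε : 0 < ε) : ∀ᶠ t in A.l, ∀ ω ∈ Dv ∅ ρ,
      ∃ ξ, ‖ω - ξ‖ ≤ ε * ‖ξ‖ ∧ N (t, ξ) = V (t, ω) := by
  have q0 := D.q0
  have Q1 := D.Q1
  have qr := D.qr
  have r0 : 0 < r := by linarith
  have R0 : 0 < ρ⁻¹ + 1 := by positivity
  have hr : 2 / r < 5 * Q := by
    rw [div_lt_iff₀ r0]
    nlinarith [D.qQ]
  have m1 : Mt A.l V (sc E₁ c₁) id (An (5 * Q) ρ⁻¹) :=
    hs M A _ V (2 / r) _ _ (ρ⁻¹ + 1) (by positivity) hr (lt_add_one _) (inn' D.h1 r0 R0)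
      (lc_sc D.h1 r0 R0) (chV' D.hV _ (by positivity))
  have m3 : Mt A.l V E₂ id (An ρ (6 * q)) := mtV hs D.hV D.h2 ρ0 (by positivity) (by linarith)
  filter_upwards [D.z1.pull' m1 one_pos (fun ω hω y k _ => show 4 * Q ≤ y by linarith [hω.1])
      (by positivity : 0 < 5 * Q) (fun ω hω => hω.1) hε, D.z2.back hε,
    D.z3.pull' m3 q0 (fun ω hω y _ k => show y ≤ 7 * q by linarith [hω.2]) ρ0
      (fun ω hω => hω.1) hε] with t k1 k2 k3 ω hω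
  rcases le_total ‖ω‖ (6 * q) with j | j
  · exact k3 ω ⟨hω.1, j⟩
  rcases le_total ‖ω‖ (5 * Q) with j' | j'
  · exact k2 ω ⟨j, j'⟩
  · exact k1 ω ⟨j', hω.2.1⟩

lemma Dat.mg (hs : SymStmt) (D : Dat A κ E₁ V E₂ P P' N c₁ c₂ r q Q f₁ f₂ f₃) :
    Mg A κ E₁ V E₂ (sc N fun t => (c₁ t)⁻¹) c₁ c₂ r := by
  have q0 := D.q0
  have Q1 := D.Q1
  have q1 : q ≤ 1 := by nlinarith [D.qQ]
  have e : ∀ {t ξ : ℂ}, c₁ t ≠ 0 → sc N (fun t => (c₁ t)⁻¹) (t, c₁ t * ξ) = N (t, ξ) :=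
    fun {t ξ} h => congrArg (fun z => N (t, z)) (inv_mul_cancel_left₀ h ξ)
  refine ⟨fun r' h => ?_, q / 4, by positivity, fun ρ ε ρ0 hε => ?_⟩
  · obtain ⟨s, s1, hd⟩ := D.desc h
    refine ⟨q / 7, s, by positivity, s1, fun ε hε => ?_⟩
    filter_upwards [hd, D.z1.eq, D.z2.eq, D.z3.eq, D.z1.near ε hε, D.z2.near ε hε, D.z3.near ε hε,
      c_ne D.h1 rfl] with t d z1 z2 z3 n1 n2 n3 c0 b hb
    obtain ⟨ξ, rfl⟩ : ∃ ξ, b = c₁ t * ξ := ⟨(c₁ t)⁻¹ * b, (mul_inv_cancel_left₀ c0.2 b).symm⟩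
    obtain ⟨d1, d2, d3⟩ := d ξ hb
    rw [e c0.2]
    rcases lt_or_ge ‖ξ‖ (8 * q) with k | k
    · exact .inr (.inr ⟨_, d3 k, rel_mul (n3 ξ k), (z3 ξ k).1⟩)
    rcases lt_or_ge ‖ξ‖ (6 * Q) with k' | k'
    · have k5 : 5 * q < ‖ξ‖ := by linarith
      exact .inr (.inl ⟨_, d2 k5 k', rel_mul (n2 ξ ⟨k5, k'⟩), (z2 ξ ⟨k5, k'⟩).1⟩)
    · have k3 : 3 * Q < ‖ξ‖ := by linarith
      exact .inl ⟨_, d1 k3, rel_mul (n1 ξ k3), (z1 ξ k3).1⟩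
  · filter_upwards [D.z1.back hε, D.backV hs ρ0 hε, D.z3.back hε, c_ne D.h1 rfl]
      with t k1 k2 k3 c0
    refine ⟨fun b hb => ?_, fun ω hω => ?_, fun b hb => ?_⟩
    · obtain ⟨η, rfl⟩ : ∃ η, b = c₁ t * η := ⟨(c₁ t)⁻¹ * b, (mul_inv_cancel_left₀ c0.2 b).symm⟩
      have a1 := hb.2 rfl
      rw [norm_mul, mul_left_comm] at a1
      have a2 : 1 ≤ q / 4 * ‖η‖ :=
        le_of_mul_le_mul_left (by rwa [mul_one]) (norm_pos_iff.2 c0.2)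
      obtain ⟨ξ, j1, j2⟩ := k1 η (show 4 * Q ≤ ‖η‖ from
        le_of_mul_le_mul_left (by linarith [D.qQ]) q0)
      exact ⟨c₁ t * ξ, rel_mul j1, (e c0.2).trans j2⟩
    · obtain ⟨ξ, j1, j2⟩ := k2 ω hω
      exact ⟨c₁ t * ξ, rel_mul j1, (e c0.2).trans j2⟩
    · obtain ⟨ξ, j1, j2⟩ := k3 b (show ‖b‖ ≤ 7 * q by linarith [hb.1])
      exact ⟨c₁ t * ξ, rel_mul j1, (e c0.2).trans j2⟩

end MergeX

open MergeX in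
theorem mergeS : MergeOf := by
  intro hs hg M _ A κ E₁ V E₂ P P' c₁ c₂ r r0 hV h1 h2 v1 v2 dj
  obtain ⟨N, q, Q, f₁, f₂, f₃, D⟩ := dat hs hg r0 hV h1 h2
  exact ⟨_, D.ise v1 v2 dj, D.mg hs⟩

end Pool.Agent.MP_c69980_ag.G3
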