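import Pool.Agent.MP_c69980_ag.G3.SpecP
import Pool.Agent.MP_c69980_ag.G3.Merge

/-!
Merging periodic data gives a periodic edge.
-/

set_option autoImplicit false

noncomputable section

namespace Pool.Agent.MP_c69980_ag.G3

open Metric Filter Topology Set

namespace MergeX

variable {M : Type} [MetricSpace M] {A : Amb M} {E₁ V E₂ P P' : C2 → M} {c₁ c₂ : ℂ → ℂ}
  {r : ℝ} {κ : Kd}

omit [MetricSpace M] in
lemma pd_sc {n : ℕ} (p : Pd n E₁) (pc : Function.Periodic c₁ (tp n)) : Pd n (sc E₁ c₁) :=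
  fun t w => by
    show E₁ (t + tp n, c₁ (t + tp n) * w) = E₁ (t, c₁ t * w)
    rw [pc t, p]

lemma datP (hs : SymStmt) (hg : GluePStmt) {n : ℕ} (n0 : 0 < n) (p1 : Pd n E₁) (pV : Pd n V)
    (p2 : Pd n E₂) (pc : Function.Periodic c₁ (tp n)) (r0 : 0 < r)
    (hV : IsV A V ∅) (h1 : IsE A .neck E₁ c₁ r P (sv V (.inl true))) (h2 : IsE A κ E₂ c₂ r V P') :
    ∃ N q Q f₁ f₂ f₃, Pd n N ∧ Dat A κ E₁ V E₂ P P' N c₁ c₂ r q Q f₁ f₂ f₃ := by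
  obtain ⟨q, q0, qr, q1⟩ : ∃ q : ℝ, 0 < q ∧ 12 * q ≤ r ∧ 12 * q ≤ 1 :=
    ⟨min r 1 / 12, by positivity, by linarith [min_le_left r 1], by linarith [min_le_right r 1]⟩
  obtain ⟨Q, qQ⟩ : ∃ Q : ℝ, q * Q = 1 := ⟨q⁻¹, mul_inv_cancel₀ q0.ne'⟩
  have Q0 : 0 < Q := by
    by_contra h
    nlinarith
  have Q1 : 12 ≤ Q := by nlinarith
  obtain ⟨a₀, b₀, H, pH, G₀⟩ : ∃ a b N, Pd n N ∧ Gl A V E₂ N a b (4 * q) (9 * q) :=
    hg M A n V E₂ (2 * q) _ _ (10 * q) n0 pV p2 (by positivity) (by linarith) (by linarith)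
      (by linarith)
      (mtV hs hV h2 (by positivity) (by positivity) (by linarith))
      ((chV' hV _ (by positivity)).mono fun _ h ξ hξ => (h ξ hξ).1)
      (chE h2 (by positivity) (by positivity) (by linarith))
  have W₂ := G₀.zout (ρ := 5 * q) (by positivity) (by linarith)
  have W₃ := G₀.zin (ρ := 8 * q) (by linarith)
  have hs : An (2 * Q) (7 * Q) ⊆ An (2 / r) (7 * Q) := fun ω hω => ⟨le_trans (by
    rw [div_le_iff₀ r0]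
    nlinarith) hω.1, hω.2⟩
  have mt : Mt A.l (sc E₁ c₁) H id (An (2 * Q) (7 * Q)) := fun ε hε => by
    obtain ⟨δ, δ0, δ1, δ2⟩ : ∃ δ : ℝ, 0 < δ ∧ δ ≤ 1 / 2 ∧ δ * (14 * Q + 3) ≤ ε :=
      ⟨min (1 / 2) (ε / (14 * Q + 3)), by positivity, min_le_left _ _,
        (le_div_iff₀ (by positivity)).1 (min_le_right _ _)⟩
    filter_upwards [W₂.pull (mt_mono (inn' h1 r0 (by positivity)) hs) one_pos
      (fun ω hω y k _ => show 5 * q ≤ y by linarith [hω.1]) δ0] with t ht ω hω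
    obtain ⟨ξ, k1, k2⟩ := ht ω hω
    refine ⟨ξ, ?_, k2.symm⟩
    have k3 := norm_sub_norm_le ξ ω
    rw [norm_sub_rev] at k1
    have k4 := mul_le_mul_of_nonneg_right δ1 (norm_nonneg ξ)
    have k5 : δ * ‖ξ‖ ≤ δ * (14 * Q + 1) :=
      mul_le_mul_of_nonneg_left (by linarith [hω.2]) δ0.le
    rw [id]
    linarith
  have ch : Ch A H (An (2 * Q) (7 * Q)) := by
    filter_upwards [W₂.eq, W₂.near (1 / 2) one_half_pos, chV' hV (11 * Q) Q0] with t k1 k2 k3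
    have i1 : ∀ ξ ∈ An (2 * Q) (7 * Q), ‖ξ‖ ∈ Ioi (4 * q) := fun ξ hξ =>
      show 4 * q < ‖ξ‖ by linarith [hξ.1]
    have i2 : ∀ ξ ∈ An (2 * Q) (7 * Q), b₀ (t, ξ) ∈ An Q (11 * Q) := fun ξ hξ => by
      have := abs_rel (k2 ξ (i1 ξ hξ))
      exact ⟨by linarith [this.1, hξ.1], by linarith [this.2, hξ.2]⟩
    intro ξ hξ
    obtain ⟨j1, j2, j3⟩ := k1 ξ (i1 ξ hξ)
    refine ⟨j2 (k3 _ (i2 ξ hξ)).1, fun ξ' hξ' e => j3 ξ' (i1 ξ' hξ') ?_⟩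
    rw [j1, (k1 ξ' (i1 ξ' hξ')).1] at e
    exact (k3 _ (i2 ξ hξ)).2 _ (i2 ξ' hξ') e
  obtain ⟨α, β, N, pN, G⟩ : ∃ a b N, Pd n N ∧ Gl A (sc E₁ c₁) H N a b (3 * Q) (6 * Q) :=
    hg M A n _ H (2 * Q) _ _ (7 * Q) n0 (pd_sc p1 pc) pH (by positivity) (by linarith)
      (by linarith) (by linarith) mt
      ((lc_sc h1 r0 (by positivity)).mono fun _ h ξ hξ => h ξ (hs hξ)) ch
  have Z := G.zin (ρ := 11 / 2 * Q) (by linarith)
  refine ⟨N, q, Q, β, _, _, pN, q0, qr, qQ, Q1, hV, h1, h2, G.zout (by positivity) (by linarith),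
    Z.comp W₂ (fun x hx => ⟨hx.2, fun y k _ => ?_⟩) fun z hz => ⟨?_, fun y k k' =>
      ⟨?_, fun x j j' => ⟨?_, ?_⟩⟩⟩,
    Z.comp W₃ (fun x hx => ⟨?_, fun y _ k => ?_⟩) fun z hz => ⟨?_, fun y k k' =>
      ⟨?_, fun x j j' => ?_⟩⟩⟩
  all_goals simp only [mem_Ioi, mem_Ici, mem_Iio, mem_Iic, mem_Ioo, mem_Icc] at *
  · linarith [hx.1]
  · linarith [hz.1]
  · linarith [hz.2]
  · linarith [hz.1]
  · linarith [hz.2]
  all_goals linarith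

end MergeX

open MergeX in
theorem mergePS : MergePOf := by
  intro hs hg M _ A n κ E₁ V E₂ P P' c₁ c₂ r n0 p1 pV p2 pc _ r0 hV h1 h2 v1 v2 dj
  obtain ⟨N, q, Q, f₁, f₂, f₃, pN, D⟩ := datP hs hg n0 p1 pV p2 pc r0 hV h1 h2
  exact ⟨_, pd_sc (c₁ := fun t => (c₁ t)⁻¹) pN fun t => congrArg Inv.inv (pc t),
    D.ise v1 v2 dj, D.mg hs⟩

end Pool.Agent.MP_c69980_ag.G3
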