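import Pool.Agent.MP_c69980_ag.G3.SpecW

/-!
Montel along an ultrafilter.
-/

set_option autoImplicit false

noncomputable section

namespace Pool.Agent.MP_c69980_ag.G3

open Metric Filter Topology Set

namespace MonX

theorem lip {f : ℂ → ℂ} {c x y : ℂ} {r B δ : ℝ} (hd : DifferentiableOn ℂ f (ball c r))
    (hB : ∀ z ∈ ball c r, ‖f z‖ ≤ B) (hs : ball x δ ⊆ ball c r) (hx : x ∈ ball c r)
    (hy : y ∈ ball x δ) : dist (f y) (f x) ≤ (B + B) / δ * dist y x :=
  Complex.dist_le_div_mul_dist_of_mapsTo_ball (hd.mono hs) (fun z hz => by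
    rw [mem_closedBall, dist_eq_norm]
    exact (norm_sub_le _ _).trans (add_le_add (hB z (hs hz)) (hB x hx))) hy

end MonX

theorem monS : MonStmt := by
  intro ι u f c r B h
  have ex : ∀ z ∈ ball c r, Tendsto (fun k => f k z) u (𝓝 (limUnder u fun k => f k z)) := by
    intro z hz
    obtain ⟨a, -, ha⟩ := (isCompact_closedBall (0 : ℂ) B).ultrafilter_le_nhds'
      (u.map fun k => f k z) (by
        rw [Ultrafilter.mem_map]
        filter_upwards [h] with k hk
        simpa using hk.2 z hz)
    exact tendsto_nhds_limUnder ⟨a, ha⟩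
  set g : ℂ → ℂ := fun z => limUnder u fun k => f k z with hg
  have lu : TendstoLocallyUniformlyOn f g u (ball c r) := by
    rw [Metric.tendstoLocallyUniformlyOn_iff]
    intro ε hε x hx
    obtain ⟨δ, hδ, hs⟩ := Metric.isOpen_iff.1 isOpen_ball x hx
    have hc : ContinuousAt (fun y : ℂ => (B + B) / δ * dist y x) x := by fun_prop
    have h3 : ∀ᶠ y in 𝓝 x, (B + B) / δ * dist y x < ε / 3 :=
      hc.eventually_lt continuousAt_const (by simp only [dist_self, mul_zero]; positivity)
    refine ⟨_, mem_nhdsWithin_of_mem_nhds (h3.and (ball_mem_nhds x hδ)), ?_⟩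
    filter_upwards [h, Metric.tendsto_nhds.1 (ex x hx) (ε / 3) (by positivity)] with k hk hx'
    intro y hy
    have a : dist (g y) (g x) ≤ (B + B) / δ * dist y x :=
      le_of_tendsto ((ex y (hs hy.2)).dist (ex x hx))
        (h.mono fun k hk => MonX.lip hk.1 hk.2 hs hx hy.2)
    have b := MonX.lip hk.1 hk.2 hs hx hy.2
    have e := dist_triangle4 (g y) (g x) (f k x) (f k y)
    rw [dist_comm (g x), dist_comm (f k x) (f k y)] at e
    have := hy.1
    change dist (f k x) (g x) < ε / 3 at hx'
    linarith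
  have hd := h.mono fun k hk => hk.1
  refine ⟨g, (lu.differentiableOn hd isOpen_ball).analyticOnNhd isOpen_ball, fun z hz =>
    ⟨le_of_tendsto (ex z hz).norm (h.mono fun k hk => hk.2 z hz),
      (lu.deriv hd isOpen_ball).tendsto_at hz⟩, fun r' hr => ?_⟩
  exact (tendstoLocallyUniformlyOn_iff_tendstoUniformlyOn_of_compact
    (isCompact_closedBall c r')).1 (lu.mono (closedBall_subset_ball hr))

end Pool.Agent.MP_c69980_ag.G3
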