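import Pool.Agent.MP_c69980_ag.G3.SpecW
import Pool.Agent.MP_c69980_ag.E1.Wind

/-!
A function on a long annulus that is almost periodic has no isolated zero: winding numbers.
-/

set_option autoImplicit false

noncomputable section

namespace Pool.Agent.MP_c69980_ag.G3

open Metric Filter Topology Set Complex
open Pool.Agent.MP_c69980_ag.E1 (Wn Bn)

namespace PerX

variable {s : ℝ} {K : Set ℂ} {f : ℂ → ℂ} {a c : ℂ}

theorem nrm {ω : ℂ} (h : ω ∈ sphere (0 : ℂ) s) : ‖ω‖ = s := mem_sphere_zero_iff_norm.1 h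

theorem an_cpt (r R : ℝ) : IsCompact (An r R) :=
  (isCompact_closedBall (0 : ℂ) R).of_isClosed_subset
    ((isClosed_le continuous_const continuous_norm).inter
      (isClosed_le continuous_norm continuous_const))
    fun _ h => mem_closedBall_zero_iff.2 h.2

theorem an_conn {r : ℝ} (hr : 0 ≤ r) (R : ℝ) : IsPreconnected (An r R) := by
  have e : An r R = (fun p : ℝ × ℝ => (p.1 : ℂ) * exp (p.2 * I)) '' (Icc r R ×ˢ univ) := by
    ext w
    refine ⟨fun h => ⟨(‖w‖, arg w), ⟨h, trivial⟩, norm_mul_exp_arg_mul_I w⟩, ?_⟩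
    rintro ⟨p, ⟨h, -⟩, rfl⟩
    have : ‖(p.1 : ℂ) * exp (p.2 * I)‖ = p.1 := by
      rw [norm_mul, norm_exp_ofReal_mul_I, mul_one, norm_real, Real.norm_of_nonneg (hr.trans h.1)]
    exact ⟨by rw [this]; exact h.1, by rw [this]; exact h.2⟩
  rw [e]
  exact (isPreconnected_Icc.prod isPreconnected_univ).image _ (by fun_prop)

theorem fin (hK : IsCompact K) (hc : IsPreconnected K) (hf : AnalyticOnNhd ℂ f K) (ha : a ∈ K)
    (h0 : f a ≠ 0) : {x ∈ K | f x = 0}.Finite := by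
  have h := (hf.eqOn_zero_or_eventually_ne_zero_of_preconnected hc).resolve_left
    fun h => h0 (h ha)
  refine (hK.finite_sdiff_of_mem_codiscreteWithin h).subset fun x hx => ⟨hx.1, fun h => h hx.2⟩

/-- Removal of one zero. -/
theorem step (hf : AnalyticOnNhd ℂ f K) (ha : a ∈ K) (hn : ¬∀ᶠ w in 𝓝 a, f w = 0) :
    ∃ (m : ℕ) (g : ℂ → ℂ), AnalyticOnNhd ℂ g K ∧ g a ≠ 0 ∧ ∀ w, f w = (w - a) ^ m * g w := by
  classical
  obtain ⟨m, ψ, hψ, h0, hm⟩ := (hf a ha).exists_eventuallyEq_pow_smul_nonzero_iff.2 hn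
  let g : ℂ → ℂ := fun w => if w = a then ψ a else f w / (w - a) ^ m
  refine ⟨m, g, fun t ht => ?_, by simpa [g] using h0, fun w => ?_⟩
  · by_cases hta : t = a
    · subst hta
      refine hψ.congr ?_
      filter_upwards [hm] with w h2
      by_cases hw : w = t
      · simp [g, hw]
      · simp only [g, if_neg hw]
        rw [h2, smul_eq_mul, mul_div_cancel_left₀ _ (pow_ne_zero _ (sub_ne_zero.2 hw))]
    · refine ((hf t ht).fun_div (g := fun w => (w - a) ^ m) (by fun_prop)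
        (pow_ne_zero _ (sub_ne_zero.2 hta))).congr ?_
      filter_upwards [isOpen_ne.mem_nhds hta] with w hw
      exact (if_neg hw).symm
  · by_cases hw : w = a
    · subst hw
      simp only [g, if_pos]
      exact hm.self_of_nhds
    · simp only [g, if_neg hw]
      rw [mul_div_cancel₀ _ (pow_ne_zero _ (sub_ne_zero.2 hw))]

/-- The argument principle between two curves. -/
theorem gen (hs : 0 < s) {γ₁ γ₂ : ℂ → ℂ} {P : ℂ → Prop} (hK : IsCompact K)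
    (hc : IsPreconnected K) (m₂ : γ₂ s ∈ K)
    (h0 : ∀ g : ℂ → ℂ, ContinuousOn g K → (∀ x ∈ K, g x ≠ 0) →
      Wn 0 s (fun ω => g (γ₂ ω) / g (γ₁ ω)) 0)
    (h1 : ∀ a ∈ K, (∀ ω ∈ sphere (0 : ℂ) s, γ₁ ω ≠ a ∧ γ₂ ω ≠ a) →
      ∃ k : ℤ, 0 ≤ k ∧ (P a → 0 < k) ∧ Wn 0 s (fun ω => (γ₂ ω - a) / (γ₁ ω - a)) k)
    (hf : AnalyticOnNhd ℂ f K) (hn : ∀ ω ∈ sphere (0 : ℂ) s, f (γ₁ ω) ≠ 0 ∧ f (γ₂ ω) ≠ 0) :
    ∃ k : ℤ, 0 ≤ k ∧ ((∃ a ∈ K, P a ∧ f a = 0) → 0 < k) ∧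
      Wn 0 s (fun ω => f (γ₂ ω) / f (γ₁ ω)) k := by
  classical
  have hs' : (s : ℂ) ∈ sphere (0 : ℂ) s := by simp [hs.le]
  obtain ⟨F, hF⟩ : ∃ F : Finset ℂ, ∀ x ∈ K, f x = 0 → x ∈ F :=
    ⟨(fin hK hc hf m₂ (hn _ hs').2).toFinset, fun x hx h => by simp [hx, h]⟩
  induction F using Finset.induction_on generalizing f with
  | empty =>
    refine ⟨0, le_rfl, fun ⟨a, ha, _, h⟩ => by simpa using hF a ha h,
      h0 f hf.continuousOn fun x hx h => by simpa using hF x hx h⟩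
  | insert a F _ ih =>
    by_cases ha : a ∈ K ∧ f a = 0
    swap
    · exact ih hf hn fun x hx h => (Finset.mem_insert.1 (hF x hx h)).resolve_left
        fun e => ha (by rw [← e]; exact ⟨hx, h⟩)
    obtain ⟨m, g, hg, g0, e⟩ := step hf ha.1 fun h =>
      (hn _ hs').2 (hf.eqOn_zero_of_preconnected_of_eventuallyEq_zero hc ha.1 h m₂)
    have hm : 0 < m := Nat.pos_of_ne_zero fun h => g0 (by simpa [h, ha.2] using (e a).symm)
    obtain ⟨k, k0, k1, hk⟩ := h1 a ha.1 fun ω hω =>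
      ⟨fun h => (hn ω hω).1 (by rw [h, ha.2]), fun h => (hn ω hω).2 (by rw [h, ha.2])⟩
    obtain ⟨l, l0, l1, hl⟩ := ih hg (fun ω hω =>
      ⟨fun h => (hn ω hω).1 (by rw [e, h, mul_zero]),
        fun h => (hn ω hω).2 (by rw [e, h, mul_zero])⟩) fun x hx h =>
      (Finset.mem_insert.1 (hF x hx (by rw [e, h, mul_zero]))).resolve_left
        fun e' => g0 (by rw [← e']; exact h)
    refine ⟨m * k + l, by positivity, ?_, ((hk.pow m).mul hs hl).congr fun ω _ => ?_⟩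
    · rintro ⟨b, hb, pb, b0⟩
      by_cases hba : b = a
      · have := k1 (hba ▸ pb)
        positivity
      · have := l1 ⟨b, hb, pb, by
          rw [e] at b0
          exact (mul_eq_zero.1 b0).resolve_left (pow_ne_zero _ (sub_ne_zero.2 hba))⟩
        positivity
    · rw [e, e (γ₁ ω), div_pow, mul_div_mul_comm]

/-- Small perturbations have the same winding number. -/
theorem near (hs : 0 < s) {u v : ℂ → ℂ} {k : ℤ} (hv : Wn 0 s v k)
    (hu : ContinuousOn u (sphere 0 s)) (h : ∀ ω ∈ sphere (0 : ℂ) s, ‖u ω - v ω‖ < ‖v ω‖) :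
    Wn 0 s u k := by
  have h1 : ∀ ω ∈ sphere (0 : ℂ) s, u ω / v ω ∈ slitPlane := fun ω hω => by
    have h0 := hv.ne hs hω
    rw [show u ω / v ω = 1 + (u ω - v ω) / v ω by field_simp; ring]
    refine mem_slitPlane_of_norm_lt_one ?_
    rw [norm_div, div_lt_one (norm_pos_iff.2 h0)]
    exact h ω hω
  have h2 : Wn 0 s (fun ω => u ω / v ω) 0 :=
    ⟨fun ω => log (u ω / v ω), (hu.div (hv.cont hs) fun ω hω => hv.ne hs hω).clog h1,
      fun ω hω => by rw [zpow_zero, one_mul, exp_log (slitPlane_ne_zero (h1 ω hω))]⟩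
  have h3 := h2.mul hs hv
  rw [zero_add] at h3
  exact h3.congr fun ω hω => (div_mul_cancel₀ _ (hv.ne hs hω)).symm

theorem out (hs : 0 < s) {u : ℂ → ℂ} (hu : ContinuousOn u (sphere 0 s))
    (h : ∀ ω ∈ sphere (0 : ℂ) s, ‖u ω‖ < ‖a‖) : Wn 0 s (fun ω => u ω - a) 0 := by
  have hs' : (s : ℂ) ∈ sphere (0 : ℂ) s := by simp [hs.le]
  have ha : -a ≠ 0 := neg_ne_zero.2 (norm_pos_iff.1 ((norm_nonneg _).trans_lt (h _ hs')))
  refine near hs (E1.Wn.const 0 s ha) (hu.sub continuousOn_const) fun ω hω => ?_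
  simpa using h ω hω

theorem lin0 (hs : 0 < s) (hc : c ≠ 0) (ha : ‖c‖ * s ≤ ‖a‖)
    (h : ∀ ω ∈ sphere (0 : ℂ) s, c * ω ≠ a) : Wn 0 s (fun ω => c * ω - a) 0 := by
  refine out hs (by fun_prop) fun ω hω => ?_
  rw [norm_mul, nrm hω]
  refine lt_of_le_of_ne ha fun e => h (a / c) ?_ (mul_div_cancel₀ _ hc)
  rw [mem_sphere_zero_iff_norm, norm_div, ← e, mul_div_cancel_left₀ _ (norm_ne_zero_iff.2 hc)]

/-- The spiral homotopy. -/
theorem rad (hs : 0 < s) (hc : c ≠ 0) (h1 : ‖c‖ ≤ 1) (hK : An (‖c‖ * s) s ⊆ K) {g : ℂ → ℂ}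
    (hg : ContinuousOn g K) (h0 : ∀ x ∈ K, g x ≠ 0) :
    Wn 0 s (fun ω => g ω / g (c * ω)) 0 := by
  have hc' := norm_pos_iff.2 hc
  have hm : ∀ q ∈ Bn 0 s, exp (q.1 * log c) * q.2 ∈ K := fun q hq => hK <| by
    have e : ‖exp (q.1 * log c) * q.2‖ = Real.exp (q.1 * Real.log ‖c‖) * s := by
      rw [norm_mul, norm_exp, re_ofReal_mul, log_re, nrm hq.2]
    have l0 := Real.log_nonpos hc'.le h1
    refine ⟨?_, ?_⟩ <;> rw [e]
    · refine mul_le_mul_of_nonneg_right ?_ hs.le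
      calc ‖c‖ = Real.exp (Real.log ‖c‖) := (Real.exp_log hc').symm
        _ ≤ _ := Real.exp_le_exp.2 (by nlinarith [hq.1.2])
    · exact mul_le_of_le_one_left hs.le
        (Real.exp_le_one_iff.2 (mul_nonpos_of_nonneg_of_nonpos hq.1.1 l0))
  have := E1.Wind.band (fun q => g (exp (q.1 * log c) * q.2)) (hg.comp (by fun_prop) hm)
    fun q hq => h0 _ (hm q hq)
  simpa [exp_log hc] using this

/-- The winding number does not decrease across an annulus. -/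
theorem ann (hs : 0 < s) (hc : c ≠ 0) (h1 : ‖c‖ ≤ 1) (hf : AnalyticOnNhd ℂ f (An (‖c‖ * s) s))
    (hn : ∀ ω ∈ sphere (0 : ℂ) s, f ω ≠ 0) (h0 : Wn 0 s (fun ω => f (c * ω)) 0) :
    ∃ k, 0 ≤ k ∧ Wn 0 s f k := by
  obtain ⟨k, k0, -, hk⟩ := gen (γ₁ := fun ω => c * ω) (γ₂ := fun ω => ω) (P := fun _ => False) hs
    (an_cpt _ _) (an_conn (by positivity) s)
    ⟨by simpa [abs_of_pos hs] using mul_le_of_le_one_left hs.le h1, by simp [abs_of_pos hs]⟩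
    (fun g hg g0 => rad hs hc h1 subset_rfl hg g0) (fun a ha h => ⟨1 - 0, by simp, False.elim,
      (E1.Wind.lin (mem_ball_zero_iff.2 (lt_of_le_of_ne ha.2 fun e =>
        (h a (mem_sphere_zero_iff_norm.2 e)).2 rfl))).div hs
        (lin0 hs hc ha.1 fun ω hω => (h ω hω).1)⟩) hf fun ω hω => ⟨h0.ne hs hω, hn ω hω⟩
  refine ⟨k + 0, by simpa using k0, (hk.mul hs h0).congr fun ω hω => ?_⟩
  exact (div_mul_cancel₀ _ (h0.ne hs hω)).symm

/-- The count between the small circle and the image of the large circle. -/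
theorem cnt {Φ : ℂ → ℂ} {s₀ ε : ℝ} (h₀ : 0 < s₀) (hε : 0 < ε) (hs : s₀ + 2 * ε < s) (hc : c ≠ 0)
    (h1 : ‖c‖ * s ≤ s - ε) (hΦ : ∀ ω ∈ An s₀ s, AnalyticAt ℂ Φ ω ∧ ‖Φ ω - ω‖ ≤ ε)
    (hf : AnalyticOnNhd ℂ f (An (‖c‖ * s) (s + ε)))
    (hn : ∀ ω ∈ sphere (0 : ℂ) s, f (c * ω) ≠ 0 ∧ f (Φ ω) ≠ 0) (ha : ‖c‖ * s ≤ ‖a‖)
    (ha' : ‖a‖ < s - ε) (a0 : f a = 0) :
    ∃ k : ℤ, 0 < k ∧ Wn 0 s (fun ω => f (Φ ω) / f (c * ω)) k := by
  have s0 : 0 < s := by linarith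
  have hS : ∀ ω ∈ sphere (0 : ℂ) s, ω ∈ An s₀ s := fun ω hω =>
    ⟨by rw [nrm hω]; linarith, (nrm hω).le⟩
  have cΦ : ContinuousOn Φ (sphere 0 s) := fun ω hω =>
    (hΦ ω (hS ω hω)).1.continuousAt.continuousWithinAt
  have c1 : ‖c‖ ≤ 1 := le_of_mul_le_mul_right (by linarith) s0
  have hm : ∀ q ∈ Bn 0 s, Φ q.2 + q.1 * (q.2 - Φ q.2) ∈ An (‖c‖ * s) (s + ε) := fun q hq => by
    have e : Φ q.2 + q.1 * (q.2 - Φ q.2) = q.2 + ((1 - q.1 : ℝ) : ℂ) * (Φ q.2 - q.2) := by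
      push_cast; ring
    have h2 : ‖((1 - q.1 : ℝ) : ℂ) * (Φ q.2 - q.2)‖ ≤ ε := by
      rw [norm_mul, norm_real, Real.norm_of_nonneg (sub_nonneg.2 hq.1.2)]
      exact (mul_le_of_le_one_left (norm_nonneg _) (by linarith [hq.1.1])).trans
        (hΦ _ (hS _ hq.2)).2
    have h3 := norm_add_le q.2 (((1 - q.1 : ℝ) : ℂ) * (Φ q.2 - q.2))
    have h5 := nrm hq.2
    have h6 := norm_le_norm_add_norm_sub' q.2 (q.2 + ((1 - q.1 : ℝ) : ℂ) * (Φ q.2 - q.2))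
    rw [sub_add_cancel_left, norm_neg] at h6
    rw [e]
    exact ⟨by linarith, by linarith⟩
  have hs' : (s : ℂ) ∈ sphere (0 : ℂ) s := by simp [s0.le]
  have hA : An (‖c‖ * s) s ⊆ An (‖c‖ * s) (s + ε) := fun x hx => ⟨hx.1, by linarith [hx.2]⟩
  refine (gen (γ₁ := fun ω => c * ω) (γ₂ := Φ) (P := fun a => ‖a‖ < s - ε) s0
    (an_cpt _ _) (an_conn (by positivity) (s + ε))
    (by simpa using hm (0, s) ⟨⟨le_rfl, zero_le_one⟩, hs'⟩) (fun g hg g0 => ?_)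
    (fun b hb h => ?_) hf hn).imp fun k hk => ⟨hk.2.1 ⟨a, ⟨ha, by linarith⟩, ha', a0⟩, hk.2.2⟩
  · have cH : ContinuousOn (fun q : ℝ × ℂ => Φ q.2 + q.1 * (q.2 - Φ q.2)) (Bn 0 s) := by
      have : ContinuousOn (fun q : ℝ × ℂ => Φ q.2) (Bn 0 s) :=
        cΦ.comp continuousOn_snd fun q hq => hq.2
      exact this.add (ContinuousOn.mul (by fun_prop) (continuousOn_snd.sub this))
    have b1 := E1.Wind.band (fun q => g (Φ q.2 + q.1 * (q.2 - Φ q.2))) (hg.comp cH hm)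
      fun q hq => g0 _ (hm q hq)
    have b2 := b1.mul s0 (rad s0 hc c1 hA hg g0)
    rw [add_zero] at b2
    refine b2.congr fun ω hω => ?_
    have : g ω ≠ 0 := g0 ω (hA ⟨by rw [nrm hω]; linarith, (nrm hω).le⟩)
    simp only [ofReal_zero, zero_mul, add_zero, ofReal_one, one_mul, add_sub_cancel]
    rw [div_mul_div_cancel₀ this]
  · have l0 := lin0 s0 hc hb.1 fun ω hω => (h ω hω).1
    by_cases hb' : ‖b‖ < s - ε
    · refine ⟨1 - 0, by simp, fun _ => by simp, E1.Wn.div s0 ?_ l0⟩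
      refine near s0 (E1.Wind.lin (a := b) (mem_ball_zero_iff.2 (by linarith)))
        (cΦ.sub continuousOn_const) fun ω hω => ?_
      have h2 := norm_sub_norm_le ω b
      rw [nrm hω] at h2
      rw [sub_sub_sub_cancel_right]
      linarith [(hΦ ω (hS ω hω)).2]
    · have e : ‖((s₀ / s : ℝ) : ℂ)‖ * s = s₀ := by
        rw [norm_real, Real.norm_of_nonneg (by positivity), div_mul_cancel₀ _ s0.ne']
      have hI : ∀ ω ∈ sphere (0 : ℂ) s, ‖((s₀ / s : ℝ) : ℂ) * ω‖ = s₀ := fun ω hω => by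
        rw [norm_mul, nrm hω, e]
      have hI' : ∀ ω ∈ sphere (0 : ℂ) s, ((s₀ / s : ℝ) : ℂ) * ω ∈ An s₀ s := fun ω hω =>
        ⟨(hI ω hω).ge, by rw [hI ω hω]; linarith⟩
      obtain ⟨k, k0, hk⟩ := ann (f := fun ω => Φ ω - b) (c := ((s₀ / s : ℝ) : ℂ)) s0
        (ofReal_ne_zero.2 (by positivity)) (le_of_mul_le_mul_right (by rw [e]; linarith) s0)
        (fun ω hω => (hΦ ω (by rwa [e] at hω)).1.sub analyticAt_const)
        (fun ω hω => sub_ne_zero.2 (h ω hω).2)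
        (out s0 (u := fun ω => Φ (((s₀ / s : ℝ) : ℂ) * ω)) (fun ω hω =>
          (ContinuousAt.comp (f := fun ω => ((s₀ / s : ℝ) : ℂ) * ω)
            (hΦ _ (hI' ω hω)).1.continuousAt (by fun_prop)).continuousWithinAt) fun ω hω => by
          have h2 := norm_le_norm_add_norm_sub' (Φ (((s₀ / s : ℝ) : ℂ) * ω))
            (((s₀ / s : ℝ) : ℂ) * ω)
          rw [hI ω hω] at h2
          linarith [(hΦ _ (hI' ω hω)).2])
      exact ⟨k - 0, by simpa using k0, fun h => absurd h hb', hk.div s0 l0⟩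

end PerX

open PerX

theorem perS : PerOf := by
  intro _ r₁ r₂ m h₁ h₂
  obtain ⟨d, hd, e⟩ : ∃ d : ℝ, 0 < d ∧ r₂ = r₁ + 4 * d := ⟨(r₂ - r₁) / 4, by linarith, by ring⟩
  have r0 : 0 < r₂ := h₁.trans h₂
  obtain ⟨ε, ε0, ε1, ε2⟩ : ∃ ε : ℝ, 0 < ε ∧ 4 * ε ≤ d ∧ ε * r₂ ≤ r₁ / 2 :=
    ⟨min (d / 4) (r₁ / 2 / r₂), by positivity, by linarith [min_le_left (d / 4) (r₁ / 2 / r₂)],
      (le_div_iff₀ r0).1 (min_le_right _ _)⟩
  refine ⟨ε, ε0, fun f Φ c hc hcε hf hΦ ⟨a, ha, a0⟩ ξ hξ => by_contra fun ξ0 => ?_⟩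
  have c0 := norm_pos_iff.2 hc
  have c1 : ‖c‖ * r₂ ≤ r₁ / 2 := (mul_le_mul_of_nonneg_right hcε r0.le).trans ε2
  have c2 : ∀ x ≤ r₂, ‖c‖ * x ≤ r₁ / 2 := fun x hx =>
    (mul_le_mul_of_nonneg_left hx c0.le).trans c1
  have hA : ∀ x, r₁ < x → AnalyticOnNhd ℂ f (An (‖c‖ * x) r₂) := fun x hx w hw =>
    hf w ((mul_lt_mul_of_pos_left hx c0).trans_le hw.1) (by linarith [hw.2])
  have hZ := fin (an_cpt _ _) (an_conn (by positivity) r₂) (hA (r₁ + 2 * d) (by linarith))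
    (a := ξ) ⟨by rw [hξ]; exact c2 _ (by linarith), by linarith⟩ ξ0
  obtain ⟨s, hs, hsZ⟩ := Set.Infinite.exists_notMem_finite
    (Ioo_infinite (show r₁ + 2 * d < r₁ + 3 * d by linarith)) (hZ.image fun x => ‖x‖ / ‖c‖)
  obtain ⟨s1, s2⟩ := hs
  have s0 : 0 < s := by linarith
  have n1 : ∀ ω ∈ sphere (0 : ℂ) s, f (c * ω) ≠ 0 := fun ω hω h => hsZ
    ⟨c * ω, ⟨⟨by rw [norm_mul, nrm hω]; exact mul_le_mul_of_nonneg_left s1.le c0.le,
      by rw [norm_mul, nrm hω]; linarith [c2 s (by linarith)]⟩, h⟩, by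
        simp only [norm_mul, nrm hω]
        exact mul_div_cancel_left₀ _ c0.ne'⟩
  have hS : ∀ ω ∈ sphere (0 : ℂ) s, AnalyticAt ℂ Φ ω ∧ ‖Φ ω - ω‖ ≤ ε ∧
      c ^ m * f (c * ω) = deriv Φ ω ^ m * f (Φ ω) := fun ω hω =>
    hΦ ω (by rw [nrm hω]; linarith) (by rw [nrm hω]; linarith)
  have n2 : ∀ ω ∈ sphere (0 : ℂ) s, f (Φ ω) ≠ 0 := fun ω hω h =>
    mul_ne_zero (pow_ne_zero m hc) (n1 ω hω) (by rw [(hS ω hω).2.2, h, mul_zero])
  obtain ⟨k, k0, hk⟩ := cnt (f := f) (a := a) (s₀ := r₁ + d) (by linarith) ε0 (by linarith) hc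
    (by linarith [c2 s (by linarith)])
    (fun ω hω => ⟨(hΦ ω (by linarith [hω.1]) (by linarith [hω.2])).1,
      (hΦ ω (by linarith [hω.1]) (by linarith [hω.2])).2.1⟩)
    (fun w hw => hA s (by linarith) w ⟨hw.1, by linarith [hw.2]⟩)
    (fun ω hω => ⟨n1 ω hω, n2 ω hω⟩) (by rw [ha]; exact c2 s (by linarith)) (by linarith) a0
  have hD : ∀ ω ∈ sphere (0 : ℂ) s, ‖deriv Φ ω - 1‖ < ‖(1 : ℂ)‖ := fun ω hω => by
    have hB : ∀ z ∈ closedBall ω d, AnalyticAt ℂ Φ z ∧ ‖Φ z - z‖ ≤ ε := fun z hz => by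
      have h2 := mem_closedBall_iff_norm.1 hz
      have h3 := norm_le_norm_add_norm_sub' z ω
      have h4 := norm_le_norm_add_norm_sub z ω
      rw [nrm hω] at h3 h4
      exact ⟨(hΦ z (by linarith) (by linarith)).1, (hΦ z (by linarith) (by linarith)).2.1⟩
    have h2 := norm_deriv_le_of_forall_mem_sphere_norm_le (f := fun z => Φ z - z) hd
      (DifferentiableOn.diffContOnCl (by
        rw [closure_ball ω hd.ne']
        exact fun z hz =>
          ((hB z hz).1.differentiableAt.sub differentiableAt_id).differentiableWithinAt))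
      fun z hz => (hB z (sphere_subset_closedBall hz)).2
    have h3 : deriv (fun z => Φ z - z) ω = deriv Φ ω - 1 :=
      ((hS ω hω).1.differentiableAt.hasDerivAt.sub (hasDerivAt_id ω)).deriv
    rw [h3] at h2
    rw [norm_one]
    exact h2.trans_lt ((div_lt_one hd).2 (by linarith))
  have w1 : Wn 0 s (deriv Φ) 0 := near s0 (E1.Wn.const 0 s one_ne_zero)
    (fun ω hω => (hS ω hω).1.deriv.continuousAt.continuousWithinAt) hD
  have w2 := (E1.Wn.const 0 s (pow_ne_zero m hc)).div s0 (w1.pow m)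
  have w3 : Wn 0 s (fun ω => f (Φ ω) / f (c * ω)) (0 - m * 0) := w2.congr fun ω hω => by
    rw [div_eq_div_iff (n1 ω hω) (pow_ne_zero m (w1.ne s0 hω)), (hS ω hω).2.2, mul_comm]
  have := E1.Wind.uniq s0 _ _ _ hk w3
  omega

end Pool.Agent.MP_c69980_ag.G3
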