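import Pool.Agent.MP_c69980_ag.G3.SpecI
import Pool.Agent.MP_c69980_ag.G3.SLift

/-!
Lifts of convergent curves to a convergent chart, with a weaker injectivity hypothesis.
-/

set_option autoImplicit false

noncomputable section

namespace Pool.Agent.MP_c69980_ag.G3

open Metric Filter Topology Set

open SLiftX

theorem slift2S (hC : ContStmt) (hM : MonStmt) : SLift2Stmt := by
  intro M _ A ι u τ s w γ ψ Y z₀ w₀ ρ η hρ hη hH hτ hs hγ hY hL hψ hi h0 hw
  have η2 : η / 2 < η := half_lt_self hη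
  have b0 : w₀ ∈ closedBall w₀ η := mem_closedBall_self hη.le
  have cl : ∀ ε : ℝ, 0 < ε → ∀ᶠ k in (u : Filter ι), ∀ z ∈ ball z₀ ρ, ∀ v ∈ closedBall w₀ η,
      dist (ψ v) (Y (τ k z, v)) < ε := fun ε hε =>
    hτ _ (Metric.tendstoUniformlyOn_iff.1 hL ε hε)
  have key : ∀ z ∈ ball z₀ ρ, ∀ (v : ι → ℂ), ∀ v₀ ∈ closedBall w₀ η, Tendsto v u (𝓝 v₀) →
      (∀ᶠ k in (u : Filter ι), v k ∈ closedBall w₀ η ∧ s k z = Y (τ k z, v k)) → γ z = ψ v₀ :=
    fun z hz v v₀ m hv e => lim (hs.tendsto_at hz) (hψ v₀ m) hv (e.mono fun _ q => q.1)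
      (e.mono fun _ q => q.2) fun ε hε => by
        filter_upwards [cl ε hε, e] with k k1 k2 using k1 z hz _ k2.1
  have wK : ∀ᶠ k in (u : Filter ι), w k ∈ closedBall w₀ (η / 2) :=
    hw.eventually (closedBall_mem_nhds _ (half_pos hη))
  have sub : closedBall w₀ (η / 2) ⊆ closedBall w₀ η := closedBall_subset_closedBall η2.le
  have e0 : γ z₀ = ψ w₀ := key z₀ (mem_ball_self hρ) w w₀ b0 hw
    ((wK.mono fun _ q => sub q).and h0)
  obtain ⟨d, d0, hd⟩ := ((isCompact_closedBall w₀ η).diff (isOpen_ball (x := w₀)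
    (ε := η / 2))).exists_forall_le' (f := fun v => dist (ψ v) (ψ w₀)) (a := 0)
    (continuous_dist.comp_continuousOn ((hψ.mono sdiff_subset).prodMk continuousOn_const))
    fun v hv => dist_pos.2 fun q => hv.2 (hi _ hv.1 q ▸ mem_ball_self (half_pos hη))
  have d3 : 0 < d / 3 := by positivity
  obtain ⟨r₁, r0, hr⟩ := Metric.continuousAt_iff.1 hγ _ d3
  have r1 : 0 < min r₁ ρ := lt_min r0 hρ
  have r2 : ball z₀ (min r₁ ρ) ⊆ ball z₀ ρ := ball_subset_ball (min_le_right _ _)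
  have r3 : ∀ z ∈ ball z₀ (min r₁ ρ), dist (γ z) (ψ w₀) < d / 3 := fun z hz =>
    e0 ▸ hr (ball_subset_ball (min_le_left _ _) hz)
  have r4 : min r₁ ρ ≤ ρ := min_le_right _ _
  generalize min r₁ ρ = r at r1 r2 r3 r4
  have ex : ∀ᶠ k in (u : Filter ι), ∃ ω : ℂ → ℂ, AnalyticOnNhd ℂ ω (ball z₀ r) ∧ ω z₀ = w k ∧
      ∀ z ∈ ball z₀ r, (ω z ∈ closedBall w₀ η ∧ s k z = Y (τ k z, ω z)) ∧
        ω z ∈ closedBall w₀ (η / 2) := by
    filter_upwards [hH, hτ _ hY, cl _ d3, Metric.tendstoUniformlyOn_iff.1 hs _ d3, h0, wK] with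
      k k1 k2 k3 k4 k5 k6
    refine hC (fun z v => v ∈ closedBall w₀ η ∧ s k z = Y (τ k z, v)) _ z₀ (w k) r r1
      (isCompact_closedBall _ _) ⟨sub k6, k5⟩ k6 (fun z hz v hv fr => graph k1 (r2 hz)
        (k2 z (r2 hz) v (sub hv)) (mem_of_superset (isOpen_ball.mem_nhds
          (closedBall_subset_ball η2 hv)) ball_subset_closedBall) fr)
      fun ρ₁ ω l _ _ hR z hz => ball_subset_closedBall (by_contra fun q => ?_)
    have m := ball_subset_ball l.le hz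
    have a1 := hd (ω z) ⟨(hR z hz).1, q⟩
    have a2 := k3 z (r2 m) _ (hR z hz).1
    have a3 := k4 z (r2 m)
    have a4 := r3 z m
    rw [← (hR z hz).2] at a2
    have a5 := dist_triangle4 (ψ (ω z)) (s k z) (γ z) (ψ w₀)
    rw [dist_comm] at a3
    linarith
  obtain ⟨ω, hω⟩ := ex.choice
  obtain ⟨g, g1, g2, g3⟩ := hM ι u ω z₀ r (‖w₀‖ + η) (hω.mono fun k q =>
    ⟨q.1.differentiableOn, fun z hz => norm_le_of_mem_closedBall (q.2.2 z hz).1.1⟩)
  have s1 : ball z₀ (r / 2) ⊆ ball z₀ r := ball_subset_ball (half_le_self r1.le)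
  have g4 := (g3 _ (half_lt_self r1)).mono ball_subset_closedBall
  refine ⟨r / 2, ω, g, half_pos r1, (half_le_self r1.le).trans r4, g1.mono s1,
    tendsto_nhds_unique ((g4.tendsto_at (mem_ball_self (half_pos r1))).congr'
      (hω.mono fun k q => q.2.1)) hw, fun z hz => ?_, g4,
    hω.mono fun k q => ⟨q.1.mono s1, q.2.1, fun z hz => (q.2.2 z (s1 hz)).1⟩⟩
  have m := hω.mono fun k q => (q.2.2 z (s1 hz)).1
  have m2 : g z ∈ closedBall w₀ η :=
    isClosed_closedBall.mem_of_tendsto (g4.tendsto_at hz) (m.mono fun _ q => q.1)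
  exact ⟨m2, key z (r2 (s1 hz)) _ _ m2 (g4.tendsto_at hz) m, (g2 z (s1 hz)).2⟩

end Pool.Agent.MP_c69980_ag.G3
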