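import Pool.Agent.MP_c69980_ag.G3.SpecW

/-!
Row Weld: welding along a circle.
-/

set_option autoImplicit false

noncomputable section

namespace Pool.Agent.MP_c69980_ag.G3

open Metric Filter Topology Set

namespace WeldX

lemma nle {x y : ℂ} {s : ℝ} (h : ‖x - y‖ ≤ s) : ‖x‖ ≤ ‖y‖ + s ∧ ‖y‖ ≤ ‖x‖ + s := by
  have h1 := abs_le.1 ((abs_norm_sub_norm_le x y).trans h)
  constructor <;> linarith [h1.1, h1.2]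

lemma nlt {x y : ℂ} {s : ℝ} (h : x ∈ ball y s) : ‖x‖ < ‖y‖ + s ∧ ‖y‖ < ‖x‖ + s := by
  have h1 := abs_lt.1 ((abs_norm_sub_norm_le x y).trans_lt (mem_ball_iff_norm.1 h))
  constructor <;> linarith [h1.1, h1.2]

lemma schwarz {a : C2 → ℂ} {t : ℂ} {ρ ε : ℝ} (hρ : 0 < ρ)
    (h : ∀ ξ, ‖ξ‖ < ρ → AnalyticAt ℂ a (t, ξ) ∧ ‖a (t, ξ) - ξ‖ ≤ ε * ρ) (h0 : a (t, 0) = 0)
    {ξ : ℂ} (hξ : ‖ξ‖ < ρ) : ‖a (t, ξ) - ξ‖ ≤ ε * ‖ξ‖ := by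
  have h1 := Complex.dist_le_div_mul_dist_of_mapsTo_ball (f := fun w => a (t, w) - w) (c := 0)
    (R₁ := ρ) (R₂ := ε * ρ) (z := ξ) (fun w hw => ?_) (fun w hw => ?_) (mem_ball_zero_iff.2 hξ)
  · simpa [h0, hρ.ne'] using h1
  · have h2 : AnalyticAt ℂ (fun w => a (t, w)) w :=
      (h w (mem_ball_zero_iff.1 hw)).1.comp (f := fun w => (t, w)) (by fun_prop)
    exact (h2.differentiableAt.sub differentiableAt_id).differentiableWithinAt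
  · simpa [h0] using (h w (mem_ball_zero_iff.1 hw)).2

lemma mul_le {C ε : ℝ} (hε : 0 < ε) : C * (ε / (|C| + 1)) ≤ ε := by
  have h1 : 0 < |C| + 1 := by positivity
  rw [← mul_div_assoc, div_le_iff₀ h1]
  nlinarith [le_abs_self C]

end WeldX

open WeldX in
theorem weldS : WeldOf := by
  intro hL hI l Φ r₁ ρ₁ ρ₂ r₂ hl h1 h2 h3 h4 han hn
  obtain ⟨σ, σ0, s1, s2⟩ : ∃ σ : ℝ, 0 < σ ∧ r₁ + 3 * σ ≤ ρ₁ ∧ ρ₂ + 3 * σ ≤ r₂ :=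
    ⟨min (ρ₁ - r₁) (r₂ - ρ₂) / 3, by have := lt_min (sub_pos.2 h2) (sub_pos.2 h4); positivity,
      by linarith [min_le_left (ρ₁ - r₁) (r₂ - ρ₂)], by linarith [min_le_right (ρ₁ - r₁) (r₂ - ρ₂)]⟩
  obtain ⟨δ, C, δ0, H⟩ := hL r₁ (ρ₁ - 2 * σ) (ρ₂ + 2 * σ) r₂ h1 (by linarith) (by linarith)
    (by linarith)
  have hC : 0 < |C| + 1 := by positivity
  obtain ⟨T, hT, oT, sT⟩ := hl _ ((han.and (hn δ δ0)).and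
    ((hn (σ / 4) (by positivity)).and (hn (σ / 4 / (|C| + 1)) (by positivity))))
  obtain ⟨α, β, H⟩ := H T Φ oT fun t ht ξ q1 q2 => ⟨(sT ht).1.1 ξ q1 q2, (sT ht).1.2 ξ q1 q2⟩
  have b0 : ∀ t ∈ T, (∀ η, ‖η‖ < ρ₂ + 2 * σ → ‖α (t, η) - η‖ ≤ σ / 4) ∧
      ∀ ξ, ρ₁ - 2 * σ < ‖ξ‖ → ‖β (t, ξ) - ξ‖ ≤ σ / 4 := fun t ht => by
    obtain ⟨q1, q2⟩ := (H t ht).2.2.2.2 _ (sT ht).2.2
    exact ⟨fun η h => (q1 η h).trans (mul_le (by positivity)),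
      fun η h => (q2 η h).trans (mul_le (by positivity))⟩
  have b1 : ∀ ε : ℝ, 0 < ε → ∀ᶠ t in l, t ∈ T ∧ (∀ η, ‖η‖ < ρ₂ + 2 * σ → ‖α (t, η) - η‖ ≤ ε) ∧
      ∀ ξ, ρ₁ - 2 * σ < ‖ξ‖ → ‖β (t, ξ) - ξ‖ ≤ ε := fun ε hε => by
    filter_upwards [hT, hn (ε / (|C| + 1)) (by positivity)] with t ht h
    obtain ⟨q1, q2⟩ := (H t ht).2.2.2.2 _ h
    exact ⟨ht, fun η h => (q1 η h).trans (mul_le hε), fun η h => (q2 η h).trans (mul_le hε)⟩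
  obtain ⟨a, ha⟩ := hI T {ζ | ‖ζ‖ < ρ₂} α σ oT (isOpen_lt continuous_norm continuous_const) σ0
    fun t ht ζ hζ ξ hξ => by
      have q : ‖ξ‖ < ρ₂ + 2 * σ := by linarith [(nlt hξ).1, mem_setOf.1 hζ]
      exact ⟨(H t ht).1 ξ q, (b0 t ht).1 ξ q⟩
  obtain ⟨b, hb⟩ := hI T {ζ | ρ₁ < ‖ζ‖} β σ oT (isOpen_lt continuous_const continuous_norm) σ0
    fun t ht ζ hζ ξ hξ => by
      have q : ρ₁ - 2 * σ < ‖ξ‖ := by linarith [(nlt hξ).2, mem_setOf.1 hζ]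
      exact ⟨(H t ht).2.1 ξ q, (b0 t ht).2 ξ q⟩
  have ra : ∀ t ∈ T, ∀ ξ, ‖ξ‖ < ρ₂ → ‖a (t, ξ)‖ < ρ₂ + 2 * σ := fun t ht ξ h => by
    linarith [(nlt (ha t ht ξ h).2.2.1).1]
  have rb : ∀ t ∈ T, ∀ ξ, ρ₁ < ‖ξ‖ → ρ₁ - 2 * σ < ‖b (t, ξ)‖ := fun t ht ξ h => by
    linarith [(nlt (hb t ht ξ h).2.2.1).2]
  have nb : ∀ t ∈ T, ∀ ε : ℝ, (∀ ξ, ρ₁ - 2 * σ < ‖ξ‖ → ‖β (t, ξ) - ξ‖ ≤ ε) →
      ∀ ξ, ρ₁ < ‖ξ‖ → ‖b (t, ξ) - ξ‖ ≤ ε := fun t ht ε h ξ hξ => by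
    have q := h _ (rb t ht ξ hξ)
    rwa [(hb t ht ξ hξ).2.2.2.1, norm_sub_rev] at q
  refine ⟨a, b, ⟨?_, fun ε hε => ?_, fun ρ hρ => ?_, fun ρ hρ => ?_⟩, ?_⟩
  · filter_upwards [hT] with t ht
    refine ⟨fun ξ h => ⟨(ha t ht ξ h).1, (ha t ht ξ h).2.1, fun ξ' h' e => ?_⟩,
      fun ξ h => ⟨(hb t ht ξ h).1, (hb t ht ξ h).2.1, fun ξ' h' e => ?_⟩⟩
    · rw [← (ha t ht ξ h).2.2.2.1, e, (ha t ht ξ' h').2.2.2.1]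
    · rw [← (hb t ht ξ h).2.2.2.1, e, (hb t ht ξ' h').2.2.2.1]
  · have p2 : 0 < ρ₂ := by linarith
    filter_upwards [b1 (ε * ρ₂) (by positivity), b1 ε hε] with t ⟨ht, q1, _⟩ ⟨_, _, q2⟩
    refine ⟨fun ξ h => schwarz p2 (fun w hw => ⟨(ha t ht w hw).1, ?_⟩) ?_ h, nb t ht ε q2⟩
    · have q := q1 _ (ra t ht w hw)
      rwa [(ha t ht w hw).2.2.2.1, norm_sub_rev] at q
    · exact ((ha t ht 0 (by simpa using p2)).2.2.2.2 0 (mem_ball_self σ0) (H t ht).2.2.1).symm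
  · filter_upwards [b1 ((ρ₂ - ρ) / 2) (by linarith)] with t ⟨ht, q1, _⟩ η hη
    have q : ‖η‖ < ρ₂ + 2 * σ := by linarith
    have q2 : ‖α (t, η)‖ < ρ₂ := by linarith [(nle (q1 η q)).1]
    refine ⟨_, q2, ((ha t ht _ q2).2.2.2.2 η ?_ rfl).symm⟩
    rw [mem_ball_iff_norm, norm_sub_rev]
    linarith [(b0 t ht).1 η q]
  · filter_upwards [b1 ((ρ - ρ₁) / 2) (by linarith)] with t ⟨ht, _, q1⟩ η hη
    have q : ρ₁ - 2 * σ < ‖η‖ := by linarith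
    have q2 : ρ₁ < ‖β (t, η)‖ := by linarith [(nle (q1 η q)).2]
    refine ⟨_, q2, ((hb t ht _ q2).2.2.2.2 η ?_ rfl).symm⟩
    rw [mem_ball_iff_norm, norm_sub_rev]
    linarith [(b0 t ht).2 η q]
  · filter_upwards [hT] with t ht ξ q1 q2
    have q3 := nb t ht _ (b0 t ht).2 ξ q1
    have q4 : ‖b (t, ξ)‖ < r₂ := by linarith [(nle q3).1]
    have q5 := rb t ht ξ q1
    have q6 := (sT ht).2.1 _ (by linarith) q4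
    have q7 : Φ (t, b (t, ξ)) ∈ ball ξ σ := by
      rw [mem_ball_iff_norm]
      linarith [norm_sub_le_norm_sub_add_norm_sub (Φ (t, b (t, ξ))) (b (t, ξ)) ξ]
    refine (ha t ht ξ q2).2.2.2.2 _ q7 ?_
    rw [(H t ht).2.2.2.1 _ q5 q4 (by linarith [(nlt q7).1]), (hb t ht ξ q1).2.2.2.1]

end Pool.Agent.MP_c69980_ag.G3
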