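import Pool.Agent.MP_c69980_ag.G3.SpecP

/-!
Welding and gluing of periodic data.
-/

set_option autoImplicit false

noncomputable section

namespace Pool.Agent.MP_c69980_ag.G3

open Metric Filter Topology Set

namespace WeldPX

variable {M : Type} [MetricSpace M] {A : Amb M} {n : ℕ}

theorem nb {x y : ℂ} {e : ℝ} (h : ‖x - y‖ ≤ e) : ‖y‖ - e ≤ ‖x‖ ∧ ‖x‖ ≤ ‖y‖ + e := by
  have := abs_le.1 ((abs_norm_sub_norm_le x y).trans h)
  constructor <;> linarith [this.1, this.2]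

/-- The covering map. -/
def ex (n : ℕ) (t : ℂ) : ℂ := Complex.exp (t / n)

lemma dp_add (A : Amb M) (t : ℂ) (k : ℤ) : A.dp (t + k * tp n) = A.dp t := by
  simp [Amb.dp, tp]

lemma dp_tp (A : Amb M) (t : ℂ) : A.dp (t + tp n) = A.dp t := by simpa using dp_add (n := n) A t 1

lemma shift (A : Amb M) (n : ℕ) : Tendsto (· + tp n) A.l A.l :=
  tendsto_comap_iff.2 (by simp only [Function.comp_def, dp_tp]; exact tendsto_comap)

lemma ex_tp (hn : 0 < n) (t : ℂ) : ex n (t + tp n) = ex n t := by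
  have h : (n : ℂ) ≠ 0 := by exact_mod_cast hn.ne'
  rw [ex, tp, add_div, mul_div_cancel_left₀ _ h, Complex.exp_periodic, ex]

lemma ex_eq (hn : 0 < n) {t t' : ℂ} (e : ex n t' = ex n t) : ∃ k : ℤ, t' = t + k * tp n := by
  have h : (n : ℂ) ≠ 0 := by exact_mod_cast hn.ne'
  obtain ⟨k, hk⟩ := Complex.exp_eq_exp_iff_exists_int.1 e
  refine ⟨k, ?_⟩
  rw [div_eq_iff h] at hk
  rw [hk, tp, add_mul, div_mul_cancel₀ _ h]
  ring

lemma ex_log (hn : 0 < n) (t : ℂ) {v : ℂ} (hv : v ≠ 0) :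
    ex n (t + n * Complex.log v) = ex n t * v := by
  have h : (n : ℂ) ≠ 0 := by exact_mod_cast hn.ne'
  rw [ex, add_div, mul_div_cancel_left₀ _ h, Complex.exp_add, Complex.exp_log hv, ex]

lemma ex_an (n : ℕ) (t : ℂ) : AnalyticAt ℂ (ex n) t :=
  (analyticAt_id.mul analyticAt_const).cexp

lemma half {p : ℂ → Prop} (h : ∀ᶠ t in A.l, p t) : ∃ m : ℝ, ∀ t, m < A.dp t → p t := by
  obtain ⟨m, hm⟩ := eventually_atTop.1 (eventually_comap.1 h)
  exact ⟨m, fun t ht => hm _ ht.le t rfl⟩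

lemma half' (A : Amb M) (m : ℝ) : ∀ᶠ t in A.l, m < A.dp t :=
  tendsto_comap.eventually (eventually_gt_atTop m)

lemma dp_cont (A : Amb M) : Continuous A.dp := continuous_const.mul Complex.continuous_re

lemma opn_map (A : Amb M) (hn : 0 < n) : Opn (map (ex n) A.l) := fun s hs => by
  have h : (n : ℂ)⁻¹ ≠ 0 := inv_ne_zero (by exact_mod_cast hn.ne')
  obtain ⟨m, hm⟩ := half (show ∀ᶠ t in A.l, ex n t ∈ s from hs)
  refine ⟨ex n '' {t | m < A.dp t}, image_mem_map (half' A m), ?_, ?_⟩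
  · exact (Complex.isOpenMap_exp.comp (Homeomorph.mulRight₀ _ h).isOpenMap) _
      (isOpen_lt continuous_const (dp_cont A))
  · rintro _ ⟨t, ht, rfl⟩
    exact hm t ht

lemma dw_at {G : C2 → ℂ} {t w : ℂ} (hG : AnalyticAt ℂ G (t, w)) :
    HasDerivAt (fun z => G (t, z)) (dw G (t, w)) w :=
  hG.differentiableAt.hasFDerivAt.comp_hasDerivAt w
    ((hasDerivAt_const w t).prodMk (hasDerivAt_id w))

lemma pull {G : C2 → ℂ} {t w : ℂ} (hG : AnalyticAt ℂ G (ex n t, w)) (h : dw G (ex n t, w) ≠ 0) :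
    AnalyticAt ℂ (fun q : C2 => G (ex n q.1, q.2)) (t, w) ∧
      dw (fun q : C2 => G (ex n q.1, q.2)) (t, w) ≠ 0 := by
  have ha : AnalyticAt ℂ (fun q : C2 => G (ex n q.1, q.2)) (t, w) := AnalyticAt.comp_of_eq hG
    ((AnalyticAt.comp_of_eq (ex_an n t) analyticAt_fst rfl).prod analyticAt_snd) rfl
  exact ⟨ha, ((dw_at ha).unique (dw_at hG)).trans_ne h⟩

end WeldPX

open WeldPX

theorem weldPS : WeldPOf := by
  classical
  intro hW M _ A n Φ r₁ ρ₁ ρ₂ r₂ hn h0 h1 h2 h3 an nr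
  obtain ⟨m, hm⟩ := half an
  have per : ∀ t t', m < A.dp t → ex n t' = ex n t → ∀ ξ, r₁ < ‖ξ‖ → ‖ξ‖ < r₂ →
      Φ (t', ξ) = Φ (t, ξ) := fun t t' ht e ξ k1 k2 => by
    obtain ⟨k, rfl⟩ := ex_eq hn e
    have hp : Function.Periodic (fun s => if m < A.dp s then Φ (s, ξ) else 0) (tp n) := fun s => by
      simp only [dp_tp]
      split_ifs with hs
      exacts [(hm s hs ξ k1 k2).2, rfl]
    simpa only [dp_add, if_pos ht] using hp.int_mul k t
  have e0 : ∀ v : ℂ, v ≠ 0 → ex n (n * Complex.log v) = v := fun v hv => by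
    simpa [ex] using ex_log hn 0 hv
  have lift : ∀ᶠ t in A.l, ∀ ξ, r₁ < ‖ξ‖ → ‖ξ‖ < r₂ →
      Φ (n * Complex.log (ex n t), ξ) = Φ (t, ξ) :=
    (half' A m).mono fun t ht => per t _ ht (e0 _ (Complex.exp_ne_zero _))
  obtain ⟨a, b, wl, w1⟩ := hW (map (ex n) A.l) (fun q => Φ (n * Complex.log q.1, q.2)) r₁ ρ₁ ρ₂ r₂
    (opn_map A hn) h0 h1 h2 h3 (by
      rw [eventually_map]
      filter_upwards [half' A m] with t ht ξ k1 k2
      have v0 : ex n t ≠ 0 := Complex.exp_ne_zero _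
      have lg : AnalyticAt ℂ (fun q : C2 => t + n * Complex.log (q.1 / ex n t)) (ex n t, ξ) :=
        analyticAt_const.add (analyticAt_const.mul ((analyticAt_fst.mul analyticAt_const).clog
          (by simp [mul_inv_cancel₀ v0])))
      have l0 : t + n * Complex.log (ex n t / ex n t) = t := by simp [div_self v0]
      refine (AnalyticAt.comp_of_eq (hm t ht ξ k1 k2).1 (lg.prod analyticAt_snd)
        (Prod.ext l0 rfl)).congr ?_
      filter_upwards [((dp_cont A).continuousAt.comp lg.continuousAt).eventually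
        (lt_mem_nhds (ht.trans_eq (congrArg A.dp l0.symm))), continuousAt_fst.eventually_ne v0,
        continuous_snd.norm.continuousAt.eventually (lt_mem_nhds k1),
        continuous_snd.norm.continuousAt.eventually (gt_mem_nhds k2)] with q q1 q2 q3 q4
      refine (per _ _ q1 ?_ _ q3 q4).symm
      rw [e0 _ q2, ex_log hn t (div_ne_zero q2 v0), mul_div_cancel₀ _ v0])
    fun ε hε => by
      rw [eventually_map]
      filter_upwards [lift, nr ε hε] with t q1 q2 ξ k1 k2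
      rw [q1 ξ k1 k2]
      exact q2 ξ k1 k2
  refine ⟨fun q => a (ex n q.1, q.2), fun q => b (ex n q.1, q.2), ⟨?_, wl.near, wl.sa, wl.sb⟩,
    fun t w => by simp only [ex_tp hn], fun t w => by simp only [ex_tp hn], ?_⟩
  · filter_upwards [eventually_map.1 wl.an] with t ht
    refine ⟨fun ξ hξ => ?_, fun ξ hξ => ?_⟩
    · obtain ⟨k1, k2, k3⟩ := ht.1 ξ hξ
      exact ⟨(pull k1 k2).1, (pull k1 k2).2, k3⟩
    · obtain ⟨k1, k2, k3⟩ := ht.2 ξ hξ
      exact ⟨(pull k1 k2).1, (pull k1 k2).2, k3⟩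
  have e1 : 0 < min ((ρ₁ - r₁) / 2) ((r₂ - ρ₂) / 2) := lt_min (by linarith) (by linarith)
  filter_upwards [eventually_map.1 w1, lift, eventually_map.1 (wl.near _ e1)] with t q1 q2 q3 ξ k k'
  have := nb (q3.2 ξ k)
  exact (q2 _ (by linarith [this.1, min_le_left ((ρ₁ - r₁) / 2) ((r₂ - ρ₂) / 2)])
    (by linarith [this.2, min_le_right ((ρ₁ - r₁) / 2) ((r₂ - ρ₂) / 2)])).symm.trans (q1 ξ k k')

theorem gluePS : GluePOf := by
  classical
  intro hP hW M _ A n Y B r₁ ρ₁ ρ₂ r₂ hn pY pB h0 h1 h2 h3 mt lc ch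
  obtain ⟨opn, -, hP⟩ := hP M A
  set η := min ((ρ₁ - r₁) / 2) ((r₂ - ρ₂) / 2) with hη
  have e0 : 0 < η := lt_min (by linarith) (by linarith)
  have e1 : η ≤ (ρ₁ - r₁) / 2 := min_le_left _ _
  have e2 : η ≤ (r₂ - ρ₂) / 2 := min_le_right _ _
  have hK : ∀ ξ ∈ {ξ : ℂ | ρ₁ - η < ‖ξ‖ ∧ ‖ξ‖ < ρ₂ + η}, ξ ∈ An r₁ r₂ := fun ξ h =>
    ⟨by linarith [h.1], by linarith [h.2]⟩
  obtain ⟨Φ, p1, p2⟩ := hP Y B id {ξ | ρ₁ - η < ‖ξ‖ ∧ ‖ξ‖ < ρ₂ + η} (An r₁ r₂) η e0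
    ((isOpen_lt continuous_const continuous_norm).inter
      (isOpen_lt continuous_norm continuous_const))
    (fun ε hε => (mt ε hε).mono fun t ht ξ h => ht ξ (hK ξ h))
    (lc.mono fun t ht ξ h => ht ξ (hK ξ h)) ch fun ξ h w hw => by
      have := nb (mem_ball_iff_norm.1 hw).le
      exact ⟨by linarith [h.1, this.1, id_eq ξ ▸ this.1], by linarith [h.2, id_eq ξ ▸ this.2]⟩
  obtain ⟨a, b, wl, pa, pb, w1⟩ := hW M A n Φ (ρ₁ - η) ρ₁ ρ₂ (ρ₂ + η) hn (by linarith)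
    (by linarith) h2 (by linarith) (by
      filter_upwards [p1, (shift A n).eventually p1, ch] with t q1 q2 q3 ξ k k'
      obtain ⟨j1, -, j2, j3⟩ := q1 ξ ⟨k, k'⟩
      obtain ⟨-, -, j4, j5⟩ := q2 ξ ⟨k, k'⟩
      rw [pY, pB, j3] at j5
      exact ⟨j1, ((q3 _ j2).2 _ j4 j5).symm⟩)
    fun ε hε => (p2 ε hε).mono fun t ht ξ k k' => ht ξ ⟨k, k'⟩
  let N : C2 → M := fun q => if ‖q.2‖ < ρ₂ then B (q.1, a q) else Y (q.1, b q)
  have key : ∀ᶠ t in A.l, ∀ ξ, ρ₁ < ‖ξ‖ → N (t, ξ) = Y (t, b (t, ξ)) := by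
    filter_upwards [p1, w1, wl.near η e0] with t q1 q2 q3 ξ hξ
    by_cases h : ‖ξ‖ < ρ₂
    · have := nb (q3.2 ξ hξ)
      rw [(q1 _ ⟨by linarith [this.1], by linarith [this.2]⟩).2.2.2, q2 ξ hξ h]
      exact if_pos h
    · exact if_neg h
  obtain ⟨o, ho, oo, so⟩ := opn _ key
  refine ⟨a, b, N, fun t w => by simp only [N, pa t w, pb t w, pY t, pB t], wl, ?_⟩
  filter_upwards [ho, wl.an] with t ht an
  refine ⟨fun ξ hξ => ⟨if_pos hξ, fun h => ?_⟩, fun ξ hξ => ⟨so ht ξ hξ, fun h => ?_⟩⟩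
  · refine (A.comp B N (t, ξ) a h (an.1 ξ hξ).1 (an.1 ξ hξ).2.1 ?_).1
    filter_upwards [(isOpen_lt (continuous_norm.comp continuous_snd) continuous_const).mem_nhds
      (show (t, ξ) ∈ {q : C2 | ‖q.2‖ < ρ₂} from hξ)] with q hq
    exact if_pos hq
  · refine (A.comp Y N (t, ξ) b h (an.2 ξ hξ).1 (an.2 ξ hξ).2.1 ?_).1
    filter_upwards [(isOpen_lt continuous_const (continuous_norm.comp continuous_snd)).mem_nhds
      (show (t, ξ) ∈ {q : C2 | ρ₁ < ‖q.2‖} from hξ),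
      (oo.preimage continuous_fst).mem_nhds (show (t, ξ) ∈ Prod.fst ⁻¹' o from ht)] with q hq hq'
    exact so hq' q.2 hq

end Pool.Agent.MP_c69980_ag.G3
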