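import Pool.Agent.MP_c69980_ag.G3.Osg
import Pool.Agent.MP_c69980_ag.G3.Lin
import Pool.Agent.MP_c69980_ag.G3.Inv
import Pool.Agent.MP_c69980_ag.G3.Weld
import Pool.Agent.MP_c69980_ag.G3.WeldP
import Pool.Agent.MP_c69980_ag.G3.Cont
import Pool.Agent.MP_c69980_ag.G3.Mon
import Pool.Agent.MP_c69980_ag.G3.Phi
import Pool.Agent.MP_c69980_ag.G3.Glue
import Pool.Agent.MP_c69980_ag.G3.FillP
import Pool.Agent.MP_c69980_ag.G3.MergeP
import Pool.Agent.MP_c69980_ag.G3.Per
import Pool.Agent.MP_c69980_ag.G3.Tor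
import Pool.Agent.MP_c69980_ag.G3.SLift2

/-!
The rows on welding and gluing, without hypotheses.
-/

set_option autoImplicit false

namespace Pool.Agent.MP_c69980_ag.G3

theorem aSym : SymStmt := symS phiS invS

theorem aWeld : WeldStmt := weldS (linS osgS) invS

theorem aGlue : GlueStmt := glueS phiS aWeld

theorem aGlueP : GluePStmt := gluePS phiS (weldPS aWeld)

theorem aFillP : FillPStmt := fillPS aSym aGlueP

theorem aMergeP : MergePStmt := mergePS aSym aGlueP

theorem aSph : SphStmt := sphS phiS aSym aGlue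

theorem aTor : TorStmt := torS phiS aSym aGlue (perS invS)

theorem aSLift2 : SLift2Stmt := slift2S contS monS

end Pool.Agent.MP_c69980_ag.G3
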