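import Mathlib

/-!
Degenerating families of curves over a half-plane: charts, ports, edges, states, end atlas.
Everything lives in an abstract metric space `M`.
-/

set_option autoImplicit false

noncomputable section

namespace Pool.Agent.MP_c69980_ag.G3

open Metric Filter Topology Set

abbrev C2 : Type := ℂ × ℂ

/-- The derivative in the second variable. -/
def dw (φ : C2 → ℂ) (p : C2) : ℂ := fderiv ℂ φ p (0, 1)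

/-- The period. -/
def tp (N : ℕ) : ℂ := N * (2 * Real.pi * Complex.I)

/-- Periodicity in the first variable. -/
def Pd {α : Type} (N : ℕ) (Y : C2 → α) : Prop := ∀ t w, Y (t + tp N, w) = Y (t, w)

/-- A family of curves `Zb` over the half-plane `M₀ < σ re t`, its open part `Z`, local charts
`LC`, holomorphic sections `HS` and the coefficients `cf` of three `m`-forms. -/
structure Amb (M : Type) [MetricSpace M] where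
  σ : ℝ
  M₀ : ℝ
  m : ℕ
  Zb : Set (ℂ × M)
  Z : Set (ℂ × M)
  LC : (C2 → M) → C2 → Prop
  HS : (ℂ → M) → ℂ → Prop
  cf : (C2 → M) → C2 → Fin 3 → ℂ
  hσ : σ = 1 ∨ σ = -1
  M0 : 1 ≤ M₀
  m0 : 0 < m
  sub : Z ⊆ Zb
  opn : ∀ x ∈ Z, ∀ᶠ x' in 𝓝 x, x' ∈ Zb → x' ∈ Z
  ev : ∀ Y p, LC Y p → ∀ᶠ q in 𝓝 p, LC Y q
  cont : ∀ Y p, LC Y p → ContinuousAt Y p
  mem : ∀ Y p, LC Y p → (p.1, Y p) ∈ Zb
  onto : ∀ Y p, LC Y p → ∀ N ∈ 𝓝 p, ∀ᶠ x in 𝓝 (p.1, Y p), x ∈ Zb →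
    ∃ w, (x.1, w) ∈ N ∧ Y (x.1, w) = x.2
  linj : ∀ Y p, LC Y p → ∀ᶠ q in 𝓝 (p, p.2), Y q.1 = Y (q.1.1, q.2) → q.1.2 = q.2
  trans : ∀ Y Y' t w w', LC Y (t, w) → LC Y' (t, w') → Y (t, w) = Y' (t, w') →
    ∃ φ : C2 → ℂ, AnalyticAt ℂ φ (t, w') ∧ φ (t, w') = w ∧ dw φ (t, w') ≠ 0 ∧
      ∀ᶠ q in 𝓝 (t, w'), Y' q = Y (q.1, φ q)
  comp : ∀ Y Y' p (φ : C2 → ℂ), LC Y (p.1, φ p) → AnalyticAt ℂ φ p → dw φ p ≠ 0 →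
    (∀ᶠ q in 𝓝 p, Y' q = Y (q.1, φ q)) →
    LC Y' p ∧ ∀ l, cf Y' p l = dw φ p ^ m * cf Y (p.1, φ p) l
  an : ∀ Y p, LC Y p → (p.1, Y p) ∈ Z → ∀ l, AnalyticAt ℂ (fun q => cf Y q l) p
  pole : ∀ Y t, M₀ < σ * t.re → LC Y (t, 0) → (∀ᶠ b in 𝓝[≠] (0 : ℂ), (t, Y (t, b)) ∈ Z) →
    ∃ A : ℝ, ∀ᶠ b in 𝓝[≠] (0 : ℂ), ∀ l, ‖b ^ m * cf Y (t, b) l‖ ≤ A
  hsev : ∀ s t, HS s t → ∀ᶠ t' in 𝓝 t, HS s t'
  hsc : ∀ s t, HS s t → ContinuousAt s t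
  lift : ∀ s Y t w, HS s t → LC Y (t, w) → s t = Y (t, w) →
    ∃ ω : ℂ → ℂ, AnalyticAt ℂ ω t ∧ ω t = w ∧ ∀ᶠ t' in 𝓝 t, s t' = Y (t', ω t')
  nent : ∀ Y t, M₀ < σ * t.re → ¬∀ w, LC Y (t, w) ∧ (t, Y (t, w)) ∈ Z
  vert : ∀ Y t w (c : Fin 3 → ℂ), M₀ < σ * t.re → LC Y (t, w) → (t, Y (t, w)) ∈ Z →
    ¬∀ᶠ w' in 𝓝 w, ∃ κ : ℂ, ∀ l, cf Y (t, w') l = κ * c l

variable {M : Type} [MetricSpace M]

/-- The depth. -/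
def Amb.dp (A : Amb M) (t : ℂ) : ℝ := A.σ * t.re

/-- The end. -/
def Amb.l (A : Amb M) : Filter ℂ := comap A.dp atTop

/-- A chart at a point of the open part. -/
def Amb.LZ (A : Amb M) (Y : C2 → M) (p : C2) : Prop := A.LC Y p ∧ (p.1, Y p) ∈ A.Z

/-- Ultrafilters of points of the family that go to the end. -/
def Amb.Out (A : Amb M) (u : Ultrafilter (ℂ × M)) : Prop :=
  Tendsto Prod.fst (u : Filter (ℂ × M)) A.l ∧ ∀ᶠ x in (u : Filter (ℂ × M)), x ∈ A.Zb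

/-- The points converge to `c`. -/
def Cg (u : Ultrafilter (ℂ × M)) (c : M) : Prop := Tendsto Prod.snd (u : Filter (ℂ × M)) (𝓝 c)

/-- Sections of the open part over `O`. -/
def Amb.Sec (A : Amb M) (O : Set ℂ) (s : ℂ → M) : Prop := ∀ t ∈ O, A.HS s t ∧ (t, s t) ∈ A.Z

/-- The closed annulus. -/
def An (r R : ℝ) : Set ℂ := {w | r ≤ ‖w‖ ∧ ‖w‖ ≤ R}

/-- On `K`, the chart `Y` is the chart `P` composed with maps that tend to `Ψ`. -/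
def Mt (l : Filter ℂ) (Y P : C2 → M) (Ψ : ℂ → ℂ) (K : Set ℂ) : Prop :=
  ∀ ε : ℝ, 0 < ε → ∀ᶠ t in l, ∀ ξ ∈ K, ∃ w, ‖w - Ψ ξ‖ < ε ∧ Y (t, ξ) = P (t, w)

/-- Uniform convergence of charts to a parametrisation. -/
def Lm (l : Filter ℂ) (Y : C2 → M) (ψ : ℂ → M) (K : Set ℂ) : Prop :=
  TendstoUniformlyOn (fun t w => Y (t, w)) ψ l K

/-! ### Explicit vertices, differentials, semistable ends -/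

/-- The domain of an explicit vertex with holes at the points of `H`. -/
def Dv (H : Finset ℂ) (ρ : ℝ) : Set ℂ :=
  {ω | ρ ≤ ‖ω‖ ∧ ‖ω‖ ≤ ρ⁻¹ ∧ ∀ a ∈ H, ρ ≤ ‖ω - a‖}

/-- The slots: `0`, `∞` and the holes. -/
def slot : Bool ⊕ ℂ → ℂ → ℂ
  | .inl false, ξ => ξ
  | .inl true, ξ => ξ⁻¹
  | .inr a, ξ => a + ξ

/-- The slots that are used. -/
def Sl (H : Finset ℂ) (s : Bool ⊕ ℂ) : Prop := ∀ a, s = .inr a → a ∈ H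

/-- Components, ports and tubes at one end. `C k` is the component without its special points,
`ψ c` parametrises it near `c` and `T c j` are the sheets of the family; `P π` is a port with limit
`p π`; ports over one special point of one component have the same flag `fl`. -/
structure Sk (A : Amb M) where
  Cmp : Type
  Prt : Type
  Sp : Type
  [fC : Fintype Cmp]
  [fP : Fintype Prt]
  C : Cmp → Set M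
  a : Cmp → ℕ
  cm : Prt → Cmp
  fl : Prt → Sp
  r₀ : ℝ
  B : ℝ
  rad : M → ℝ
  ψ : M → ℂ → M
  T : M → ℕ → C2 → M
  P : Prt → C2 → M
  p : Prt → ℂ → M
  N : ℕ
  N0 : 0 < N
  Tp : ∀ c j, Pd N (T c j)
  Pp : ∀ π, Pd N (P π)
  r0 : 0 < r₀
  flc : ∀ π π', fl π = fl π' → cm π = cm π'
  disj : ∀ k k' x, x ∈ C k → x ∈ C k' → k = k'
  conn : ∀ k, IsPreconnected (C k)
  ne : ∀ k, (C k).Nonempty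
  rad0 : ∀ k, ∀ c ∈ C k, 0 < rad c
  ψ0 : ∀ k, ∀ c ∈ C k, ψ c 0 = c
  ψc : ∀ k, ∀ c ∈ C k, ContinuousOn (ψ c) (ball 0 (rad c)) ∧ InjOn (ψ c) (ball 0 (rad c)) ∧
    MapsTo (ψ c) (ball 0 (rad c)) (C k)
  ψo : ∀ k, ∀ c ∈ C k, ∀ w ∈ ball (0 : ℂ) (rad c), ∀ N ∈ 𝓝 w, ψ c '' N ∈ 𝓝[C k] (ψ c w)
  a0 : ∀ k, 0 < a k
  Tlc : ∀ k, ∀ c ∈ C k, ∃ B' : ℝ, ∀ᶠ t in A.l, ∀ j < a k, ∀ w ∈ ball (0 : ℂ) (rad c),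
    A.LZ (T c j) (t, w) ∧ (∀ l, ‖A.cf (T c j) (t, w) l‖ ≤ B') ∧
      ∀ j' < a k, ∀ w' ∈ ball (0 : ℂ) (rad c), T c j (t, w) = T c j' (t, w') → j = j' ∧ w = w'
  Tlm : ∀ k, ∀ c ∈ C k, ∀ j < a k, Lm A.l (T c j) (ψ c) (ball 0 (rad c))
  Tcov : ∀ k, ∀ c ∈ C k, ∀ w ∈ ball (0 : ℂ) (rad c), ∀ u, A.Out u → Cg u (ψ c w) →
    ∀ N ∈ 𝓝 w, ∀ᶠ x in (u : Filter (ℂ × M)), ∃ j < a k, ∃ w' ∈ N, x.2 = T c j (x.1, w')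
  Plc : ∀ r, 0 < r → ∀ᶠ t in A.l, ∀ π w, r ≤ ‖w‖ → ‖w‖ < r₀ → A.LZ (P π) (t, w) ∧
    (∀ l, ‖w ^ A.m * A.cf (P π) (t, w) l‖ ≤ B) ∧
      ∀ π' w', r ≤ ‖w'‖ → ‖w'‖ < r₀ → P π (t, w) = P π' (t, w') → π = π' ∧ w = w'
  Plm : ∀ π r, 0 < r → Lm A.l (P π) (p π) {w | r ≤ ‖w‖ ∧ ‖w‖ < r₀}
  pc : ∀ π, ContinuousOn (p π) (ball 0 r₀ \ {0}) ∧ MapsTo (p π) (ball 0 r₀ \ {0}) (C (cm π))
  pinj : ∀ π, ∀ w ∈ ball (0 : ℂ) r₀ \ {0}, ∀ᶠ w' in 𝓝[≠] w, p π w' ≠ p π w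
  po : ∀ π, ∀ w ∈ ball (0 : ℂ) r₀ \ {0}, ∀ N ∈ 𝓝 w, p π '' N ∈ 𝓝[C (cm π)] (p π w)
  pnorm : ∀ π π', ∀ w ∈ ball (0 : ℂ) r₀ \ {0}, ∀ w' ∈ ball (0 : ℂ) r₀ \ {0}, p π w = p π' w' →
    fl π = fl π' ∧ ‖w‖ = ‖w'‖
  Pcov : ∀ π, ∀ w ∈ ball (0 : ℂ) r₀ \ {0}, ∀ u, A.Out u → Cg u (p π w) → ∀ ε : ℝ, 0 < ε →
    ∀ᶠ x in (u : Filter (ℂ × M)), ∃ π' w', fl π' = fl π ∧ |‖w'‖ - ‖w‖| < ε ∧ x.2 = P π' (x.1, w')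
  cpt : ∀ k r, 0 < r → r ≤ r₀ →
    IsCompact (C k \ ⋃ π, p π '' (ball 0 r \ {0}))
  esc : ∀ π k, ∀ c ∈ C k, ∃ N ∈ 𝓝 c, ∀ᶠ w in 𝓝[≠] (0 : ℂ), p π w ∉ N

attribute [instance] Sk.fC Sk.fP

variable {A : Amb M}

/-- The local parametrisations of a component: tube centres and ports. -/
def Sk.par (S : Sk A) : M ⊕ S.Prt → ℂ → M := Sum.elim S.ψ S.p

/-- Their domains. -/
def Sk.dom (S : Sk A) (k : S.Cmp) : M ⊕ S.Prt → Set ℂ :=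
  Sum.elim (fun c => {w | c ∈ S.C k ∧ ‖w‖ < S.rad c})
    fun π => {w | S.cm π = k ∧ w ≠ 0 ∧ ‖w‖ < S.r₀}

/-- Holomorphic `μ`-differentials on the component `k`. -/
def Sk.Dif (S : Sk A) (k : S.Cmp) (μ : ℕ) (η : M ⊕ S.Prt → ℂ → ℂ) : Prop :=
  (∀ i, ∀ w ∈ S.dom k i, AnalyticAt ℂ (η i) w) ∧
  ∀ i i', ∀ w ∈ S.dom k i, ∀ w' ∈ S.dom k i', S.par i w = S.par i' w' →
    ∃ φ : ℂ → ℂ, AnalyticAt ℂ φ w ∧ φ w = w' ∧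
      ∀ᶠ v in 𝓝 w, S.par i v = S.par i' (φ v) ∧ η i v = η i' (φ v) * deriv φ v ^ μ

/-- `f` is bounded near `0`. -/
def Bd0 (f : ℂ → ℂ) : Prop := ∃ B : ℝ, ∀ᶠ w in 𝓝[≠] (0 : ℂ), ‖f w‖ ≤ B

/-- The hyperbolic case for the set `op` of open flags. -/
def Sk.Hyp (S : Sk A) (k : S.Cmp) (op : S.Sp → Prop) : Prop :=
  ∃ (μ : ℕ) (η η' : M ⊕ S.Prt → ℂ → ℂ), 0 < μ ∧ S.Dif k μ η ∧ S.Dif k μ η' ∧
    (∀ π, S.cm π = k → (op (S.fl π) → Bd0 (fun w => w ^ (μ - 1) * η (.inr π) w) ∧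
      Bd0 fun w => w ^ (μ - 1) * η' (.inr π) w) ∧
      (¬op (S.fl π) → Bd0 (η (.inr π)) ∧ Bd0 (η' (.inr π)))) ∧
    ∀ c c' : ℂ, (c ≠ 0 ∨ c' ≠ 0) → ∀ i, ∀ w ∈ S.dom k i,
      ¬∀ᶠ v in 𝓝 w, c * η i v = c' * η' i v

/-- The compact case of nonpositive degree. -/
def Sk.Deg (S : Sk A) (k : S.Cmp) (op : S.Sp → Prop) : Prop :=
  (∀ π, S.cm π = k → ¬op (S.fl π)) ∧ ∃ (μ : ℕ) (η : M ⊕ S.Prt → ℂ → ℂ), 0 < μ ∧ S.Dif k μ η ∧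
    (∀ i, ∀ w ∈ S.dom k i, η i w ≠ 0) ∧ ∀ π, S.cm π = k → Bd0 fun w => (η (.inr π) w)⁻¹

/-- The rational case: the family near the component `k` is a finite union of explicit planar
pieces; the slot at `∞` is open, the holes are not. -/
structure Sk.XV (S : Sk A) (k : S.Cmp) (op : S.Sp → Prop) where
  J : Type
  [fJ : Fintype J]
  H : Finset ℂ
  V : J → C2 → M
  vl : ℂ → M
  sl : J → Bool ⊕ ℂ → S.Prt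
  Ψ : J → Bool ⊕ ℂ → ℂ → ℂ
  ρ₀ : ℝ
  pv : ∀ j, Pd S.N (V j)
  ρ0 : 0 < ρ₀
  H0 : (0 : ℂ) ∉ H
  lc : ∀ ρ, 0 < ρ → ∀ᶠ t in A.l, ∀ j, ∀ ω ∈ Dv H ρ, A.LZ (V j) (t, ω) ∧
    ∀ j', ∀ ω' ∈ Dv H ρ, V j (t, ω) = V j' (t, ω') → j = j' ∧ ω = ω'
  lm : ∀ j ρ, 0 < ρ → Lm A.l (V j) vl (Dv H ρ)
  vc : ∀ ρ, 0 < ρ → ContinuousOn vl (Dv H ρ) ∧ MapsTo vl (Dv H ρ) (S.C k)
  cov : ∀ c ∈ S.C k, ∃ ρ, 0 < ρ ∧ ∀ u, A.Out u → Cg u c →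
    ∀ᶠ x in (u : Filter (ℂ × M)), ∃ j, ∃ ω ∈ Dv H ρ, x.2 = V j (x.1, ω)
  germ : ∀ j s, Sl H s → AnalyticAt ℂ (Ψ j s) 0 ∧ Ψ j s 0 = 0 ∧ deriv (Ψ j s) 0 ≠ 0
  mt : ∀ j s ρ, Sl H s → 0 < ρ →
    Mt A.l (fun q => V j (q.1, slot s q.2)) (S.P (sl j s)) (Ψ j s) (An ρ ρ₀)
  cms : ∀ j s, Sl H s → S.cm (sl j s) = k
  bij : ∀ π, S.cm π = k → ∃! q : J × (Bool ⊕ ℂ), Sl H q.2 ∧ sl q.1 q.2 = π
  opi : ∀ j, op (S.fl (sl j (.inl true)))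
  oph : ∀ j, ∀ a ∈ H, ¬op (S.fl (sl j (.inr a)))
  hom : ∀ j j' b b', S.fl (sl j (.inl b)) = S.fl (sl j' (.inl b')) →
    S.fl (sl j (.inl !b)) = S.fl (sl j' (.inl !b'))

/-! ### Edges and states -/

inductive Kd | disc | cusp | neck
  deriving DecidableEq

/-- The domain of an edge of radius `r`. -/
def De (κ : Kd) (c : ℂ) (r : ℝ) : Set ℂ := {b | ‖b‖ ≤ r ∧ (κ = .neck → ‖c‖ ≤ r * ‖b‖)}

/-- An edge with outer port `P`: a disc, a punctured disc, or an annulus with inner port `P'`. -/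
structure IsE (A : Amb M) (κ : Kd) (E : C2 → M) (c : ℂ → ℂ) (r : ℝ) (P P' : C2 → M) : Prop where
  lc : ∀ r' < r, ∀ᶠ t in A.l, ∀ b ∈ De κ (c t) r', A.LC E (t, b) ∧
    ((t, E (t, b)) ∈ A.Z ↔ (κ = .cusp → b ≠ 0)) ∧
      ∀ b' ∈ De κ (c t) r', E (t, b) = E (t, b') → b = b'
  out : ∀ r₁ r', 0 < r₁ → r' < r → Mt A.l E P id (An r₁ r')
  cc : κ = .neck → Tendsto c A.l (𝓝 0) ∧ ∃ K : ℝ, ∀ᶠ t in A.l, AnalyticAt ℂ c t ∧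
    Real.exp (-(K * A.dp t)) ≤ ‖c t‖
  inn : κ = .neck → ∀ r₁ r', 0 < r₁ → r' < r →
    Mt A.l (fun q => E (q.1, c q.1 / q.2)) P' id (An r₁ r')

/-- Edges at the live ports. -/
structure Eds (S : Sk A) (Lv : Set S.Prt) (r : ℝ) where
  κ : S.Prt → Kd
  E : S.Prt → C2 → M
  c : S.Prt → ℂ → ℂ
  far : S.Prt → S.Prt
  pe : ∀ π ∈ Lv, Pd S.N (E π) ∧ Function.Periodic (c π) (tp S.N)
  ise : ∀ π ∈ Lv, IsE A (κ π) (E π) (c π) r (S.P π) (S.P (far π))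
  nk : ∀ π ∈ Lv, κ π = .neck → far π ∈ Lv ∧ far π ≠ π ∧ far (far π) = π ∧ κ (far π) = .neck ∧
    c (far π) = c π ∧ ∀ᶠ t in A.l, ∀ b, E (far π) (t, b) = E π (t, c π t / b)
  dj : ∀ r' < r, ∀ᶠ t in A.l, ∀ π ∈ Lv, ∀ π' ∈ Lv, ∀ b ∈ De (κ π) (c π t) r',
    ∀ b' ∈ De (κ π') (c π' t) r', E π (t, b) = E π' (t, b') →
      π' = π ∨ (κ π = .neck ∧ π' = far π)

/-- Deep points of an edge. -/
def Eds.Dp {S : Sk A} {Lv : Set S.Prt} {r : ℝ} (e : Eds S Lv r) (π : S.Prt)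
    (u : Ultrafilter (ℂ × M)) : Prop :=
  ∀ ρ : ℝ, 0 < ρ → ∀ᶠ x in (u : Filter (ℂ × M)), ∃ b ∈ De (e.κ π) (e.c π x.1) ρ, x.2 = e.E π (x.1, b)

/-- The kinds, and the flags of the far ports, depend only on the flag. -/
def Eds.Hom {S : Sk A} {Lv : Set S.Prt} {r : ℝ} (e : Eds S Lv r) : Prop :=
  ∀ π ∈ Lv, ∀ π' ∈ Lv, S.fl π = S.fl π' →
    e.κ π = e.κ π' ∧ (e.κ π = .neck → S.fl (e.far π) = S.fl (e.far π'))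

/-- A state with alive components `al`. -/
structure St (S : Sk A) (al : Finset S.Cmp) where
  r : ℝ
  e : Eds S {π | S.cm π ∈ al} r
  r0 : 0 < r
  rr : r ≤ S.r₀
  hom : e.Hom
  te : ∀ π, S.cm π ∈ al → ∀ u, A.Out u → e.Dp π u → ∀ k ∈ al, ∀ x ∈ S.C k, ¬Cg u x
  cov : ∀ u, A.Out u → (∃ k ∈ al, ∃ x ∈ S.C k, Cg u x) ∨
    ∃ π, S.cm π ∈ al ∧ e.Dp π u

/-- A semistable end: the output of the blocks G and R. -/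
structure SE (A : Amb M) where
  S : Sk A
  init : St S Finset.univ
  tri : ∀ k op, S.Hyp k op ∨ S.Deg k op ∨ Nonempty (S.XV k op)

/-! ### The end atlas -/

/-- The end atlas. -/
structure EA (A : Amb M) where
  ι : Type
  [fι : Fintype ι]
  Y : ι → C2 → M
  O₁ : ι → Set C2
  O₂ : ι → Set C2
  O₃ : ι → Set C2
  sc : ι → C2 → ℝ
  pu : ι → Option (C2 → M)
  M₁ : ℝ
  κ : ℝ
  δ : ℝ
  C : ℝ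
  N : ℕ
  N0 : 0 < N
  per : ∀ i, Pd N (Y i) ∧ Pd N (· ∈ O₁ i) ∧ Pd N (· ∈ O₂ i) ∧ Pd N (· ∈ O₃ i) ∧ Pd N (sc i) ∧
    ∀ E, pu i = some E → Pd N E
  MM : A.M₀ < M₁
  κ0 : 0 < κ ∧ κ ≤ 1 / 16
  δ0 : 0 < δ
  C1 : 1 ≤ C
  o12 : ∀ i t w w', (t, w) ∈ O₁ i → ‖w' - w‖ ≤ δ → (t, w') ∈ O₂ i
  o23 : ∀ i, O₂ i ⊆ O₃ i
  opn : ∀ i, ∀ p ∈ O₁ i, M₁ < A.dp p.1 → O₂ i ∈ 𝓝 p
  /-- charts, bounded forms and injectivity on the discs of radius `δ` about points of `O₃` -/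
  lc : ∀ i t w w', (t, w) ∈ O₃ i → ‖w' - w‖ ≤ δ → A.LZ (Y i) (t, w') ∧
    (∀ l, ‖A.cf (Y i) (t, w') l‖ ≤ C) ∧
      ∀ w'', ‖w'' - w‖ ≤ δ → Y i (t, w') = Y i (t, w'') → w' = w''
  cov : ∀ x ∈ A.Z, M₁ ≤ A.dp x.1 → ∃ i w, (x.1, w) ∈ O₁ i ∧ x.2 = Y i (x.1, w)
  tr : ∀ i j t w v w', (t, w) ∈ O₃ i → (t, v) ∈ O₃ j → Y i (t, w) = Y j (t, v) →
    C * ‖w' - w‖ ≤ δ → ∃ v', ‖v' - v‖ ≤ C * ‖w' - w‖ ∧ Y i (t, w') = Y j (t, v')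
  sc1 : ∀ i, ∀ p ∈ O₃ i, 1 ≤ sc i p
  scc : ∀ i j t w v, (t, w) ∈ O₃ i → (t, v) ∈ O₃ j → Y i (t, w) = Y j (t, v) →
    sc i (t, w) ≤ C * sc j (t, v)
  scl : ∀ x ∈ A.Z, M₁ ≤ A.dp x.1 → ∃ B : ℝ, ∀ᶠ x' in 𝓝 x, ∀ i w, (x'.1, w) ∈ O₃ i →
    x'.2 = Y i (x'.1, w) → sc i (x'.1, w) ≤ B
  eq : ∀ i t₁ w₁ s, (t₁, w₁) ∈ O₂ i → 2 * M₁ ≤ A.dp t₁ → A.Sec (ball t₁ (A.dp t₁ / 2)) s →
    s t₁ = Y i (t₁, w₁) → ∃ ω : ℂ → ℂ, DifferentiableOn ℂ ω (ball t₁ (κ * A.dp t₁)) ∧ ω t₁ = w₁ ∧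
      ∀ t ∈ ball t₁ (κ * A.dp t₁), (t, ω t) ∈ O₃ i ∧ s t = Y i (t, ω t) ∧
        ‖ω t - w₁‖ ≤ C * sc i (t₁, w₁) ∧ sc i (t, ω t) ≤ C * sc i (t₁, w₁)
  /-- cusps: `Y i (t, w) = E (t, exp w)` with an injective chart `E` on the unit disc -/
  cusp : ∀ i E, pu i = some E → (∀ t w, Y i (t, w) = E (t, Complex.exp w)) ∧
    ∀ t, M₁ ≤ A.dp t → (∀ w : ℂ, w.re ≤ -1 → (t, w) ∈ O₁ i) ∧ (∀ w, (t, w) ∈ O₃ i → w.re ≤ 0) ∧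
      (t, E (t, 0)) ∉ A.Z ∧ ∀ b : ℂ, ‖b‖ ≤ 1 → A.LC E (t, b) ∧
        ∀ b' : ℂ, ‖b'‖ ≤ 1 → E (t, b) = E (t, b') → b = b'
  bdy : ∀ x ∈ A.Zb, x ∉ A.Z → M₁ ≤ A.dp x.1 → ∃ i E, pu i = some E ∧ x.2 = E (x.1, 0)

attribute [instance] EA.fι Sk.XV.fJ

/-- The output of the blocks W and I. -/
def EAStmt : Prop := ∀ (M : Type) [MetricSpace M] (A : Amb M), SE A → Nonempty (EA A)

end Pool.Agent.MP_c69980_ag.G3
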