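import Pool.Agent.MP_c69980_ag.G3.SpecI

/-!
Row Deg, first part: the maximum principle for limits of forms.
-/

set_option autoImplicit false

noncomputable section

namespace Pool.Agent.MP_c69980_ag.G3

open Metric Filter Topology Set

namespace DegX

theorem ulim {ι : Type} (u : Ultrafilter ι) {K : Set ℂ} (hK : IsCompact K) {w : ι → ℂ}
    (hw : ∀ᶠ t in (u : Filter ι), w t ∈ K) : ∃ w₀ ∈ K, Tendsto w u (𝓝 w₀) :=
  hK.ultrafilter_le_nhds (u.map w) (le_principal_iff.2 (mem_map.2 hw))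

theorem pmax {G : ℂ → ℂ} {ρ ρ' : ℝ} (h0 : 0 < ρ) (h1 : ρ < ρ')
    (hG : DifferentiableOn ℂ G (ball 0 ρ' \ {0})) (hb : Bd0 G) :
    ∃ w : ℂ, ‖w‖ = ρ ∧ (∀ v : ℂ, v ≠ 0 → ‖v‖ ≤ ρ → ‖G v‖ ≤ ‖G w‖) ∧
      (ContinuousAt G 0 → ‖G 0‖ ≤ ‖G w‖) := by
  obtain ⟨B, hB⟩ := hb
  have hd := Complex.differentiableOn_update_limUnder_of_isLittleO
    (ball_mem_nhds (0 : ℂ) (h0.trans h1)) hG (IsBoundedUnder.isLittleO_sub_self_inv
      ⟨B + ‖G 0‖, eventually_map.2 (hB.mono fun z hz => norm_sub_le_of_le hz le_rfl)⟩)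
  obtain ⟨w, hw, hm⟩ := Complex.exists_mem_frontier_isMaxOn_norm (isBounded_ball (x := (0 : ℂ)))
    (nonempty_ball.2 h0) (hd.diffContOnCl_ball (closedBall_subset_ball h1))
  rw [frontier_ball _ h0.ne'] at hw
  rw [closure_ball _ h0.ne'] at hm
  have e := mem_sphere_zero_iff_norm.1 hw
  have w0 : w ≠ 0 := norm_pos_iff.1 (by linarith)
  have k : ∀ v : ℂ, v ≠ 0 → ‖v‖ ≤ ρ → ‖G v‖ ≤ ‖G w‖ := fun v v0 hv => by
    have := hm (mem_closedBall_zero_iff.2 hv)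
    simpa [Function.update_of_ne v0, Function.update_of_ne w0] using this
  refine ⟨w, e, k, fun hc => ?_⟩
  refine le_of_tendsto (hc.norm.tendsto.mono_left (nhdsWithin_le_nhds (s := {0}ᶜ))) ?_
  filter_upwards [self_mem_nhdsWithin,
    mem_nhdsWithin_of_mem_nhds (closedBall_mem_nhds (0 : ℂ) h0)] with v a b
  exact k v a (mem_closedBall_zero_iff.1 b)

theorem clopen {M : Type} [TopologicalSpace M] {C X : Set M} (hC : IsPreconnected C)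
    (h1 : ∀ y ∈ C, y ∈ X → X ∈ 𝓝[C] y) (h2 : ∀ y ∈ C, y ∉ X → Xᶜ ∈ 𝓝[C] y) {x y : M}
    (hx : x ∈ C) (hy : y ∈ C) (h : x ∈ X) : y ∈ X := by
  classical
  have hc : ContinuousOn (fun z => if z ∈ X then (1 : ℕ) else 0) C := fun z hz => by
    by_cases c : z ∈ X
    · exact (continuousWithinAt_const (b := (1 : ℕ))).congr_of_eventuallyEq
        (mem_of_superset (h1 z hz c) fun v hv => if_pos hv) (if_pos c)
    · exact (continuousWithinAt_const (b := (0 : ℕ))).congr_of_eventuallyEq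
        (mem_of_superset (h2 z hz c) fun v hv => if_neg hv) (if_neg c)
  have e := hC.constant hc hx hy
  by_contra c
  simp only [if_pos h, if_neg c] at e
  exact one_ne_zero e

/-- Charts, limits and transfer. -/
structure Dat {M I : Type} [MetricSpace M] (u : Ultrafilter ℂ) (ι : Set I) (C : Set M)
    (R : I → ℝ) (D : I → Set ℂ) (q : I → ℂ → M) (η : I → ℂ → ℂ) (f : I → ℂ → ℂ → ℂ) (n μ : ℕ)
    (i₀ : I) : Prop where
  fin : ι.Finite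
  conn : IsPreconnected C
  μ0 : 0 < μ
  R0 : ∀ i ∈ ι, 0 < R i
  hD : ∀ i ∈ ι, D i = ball 0 (R i) ∨ D i = ball 0 (R i) \ {0}
  hq : ∀ i ∈ ι, ContinuousOn (q i) (D i) ∧ MapsTo (q i) (D i) C
  ho : ∀ i ∈ ι, ∀ w ∈ D i, ∀ N ∈ 𝓝 w, q i '' N ∈ 𝓝[C] (q i w)
  hη : ∀ i ∈ ι, (∀ w ∈ D i, AnalyticAt ℂ (η i) w ∧ η i w ≠ 0) ∧
    ((0 : ℂ) ∉ D i → Bd0 fun w => (η i w)⁻¹)
  hf : ∀ i ∈ ι, ∀ᶠ t in (u : Filter ℂ), DifferentiableOn ℂ (f i t) (ball 0 (R i))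
  cov : ∀ y ∈ C, ∃ i ∈ ι, ∃ w ∈ D i, ‖w‖ < R i / 3 ∧ q i w = y
  tr : ∀ i ∈ ι, ∀ w : ℂ → ℂ, ∀ w₀ ∈ D i, Tendsto w u (𝓝 w₀) → ∀ i' ∈ ι, ∀ w' ∈ D i',
    q i w₀ = q i' w' → ∃ j ∈ ι, ∃ (v d : ℂ → ℂ) (v₀ d₀ : ℂ), D j = D i' ∧ R j = R i' ∧
      ‖v₀‖ = ‖w'‖ ∧ q j v₀ = q i w₀ ∧ Tendsto v u (𝓝 v₀) ∧ Tendsto d u (𝓝 d₀) ∧
      (∀ᶠ t in (u : Filter ℂ), f i t (w t) = d t ^ n * f j t (v t)) ∧
      η i w₀ = η j v₀ * d₀ ^ μ ∧ (i' = i₀ → ∀ᶠ t in (u : Filter ℂ), f j t 0 = 0)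
  h0 : i₀ ∈ ι ∧ (0 : ℂ) ∈ D i₀

variable {M I : Type} [MetricSpace M] {u : Ultrafilter ℂ} {ι : Set I} {C : Set M}
  {R : I → ℝ} {D : I → Set ℂ} {q : I → ℂ → M} {η : I → ℂ → ℂ} {f : I → ℂ → ℂ → ℂ} {n μ : ℕ}
  {i₀ : I}

theorem Dat.opn (h : Dat u ι C R D q η f n μ i₀) {i : I} (hi : i ∈ ι) : IsOpen (D i) := by
  rcases h.hD i hi with e | e <;> rw [e]
  · exact isOpen_ball
  · exact isOpen_ball.sdiff isClosed_singleton

theorem Dat.mem (h : Dat u ι C R D q η f n μ i₀) {i : I} (hi : i ∈ ι) {w : ℂ} (w0 : w ≠ 0)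
    (hw : ‖w‖ < R i) : w ∈ D i := by
  rcases h.hD i hi with e | e <;> rw [e]
  · exact mem_ball_zero_iff.2 hw
  · exact ⟨mem_ball_zero_iff.2 hw, w0⟩

theorem Dat.rot (h : Dat u ι C R D q η f n μ i₀) {i : I} (hi : i ∈ ι) {w v : ℂ} (hw : w ∈ D i)
    (e : ‖v‖ = ‖w‖) : v ∈ D i := by
  rcases h.hD i hi with e' | e' <;> rw [e'] at hw ⊢
  · exact mem_ball_zero_iff.2 (e ▸ mem_ball_zero_iff.1 hw)
  · refine ⟨mem_ball_zero_iff.2 (e ▸ mem_ball_zero_iff.1 hw.1), fun c => hw.2 ?_⟩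
    rw [mem_singleton_iff.1 c, norm_zero] at e
    exact norm_eq_zero.1 e.symm

theorem Dat.bd (h : Dat u ι C R D q η f n μ i₀)
    (nm : ∀ᶠ t in (u : Filter ℂ), ∀ i ∈ ι, ∀ w : ℂ, ‖w‖ ≤ R i / 2 → ‖f i t w‖ ≤ 1) {i : I}
    (hi : i ∈ ι) :
    ∃ B : ℝ, ∀ᶠ t in (u : Filter ℂ), ∀ z ∈ ball (0 : ℂ) (3 / 4 * R i), ‖f i t z‖ ≤ B := by
  have r0 := h.R0 i hi
  have z0 : (0 : ℂ) ∈ closedBall (0 : ℂ) (3 / 4 * R i) := mem_closedBall_self (by linarith)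
  have ex : ∀ t, ∃ w ∈ closedBall (0 : ℂ) (3 / 4 * R i),
      DifferentiableOn ℂ (f i t) (ball 0 (R i)) →
        ∀ z ∈ closedBall (0 : ℂ) (3 / 4 * R i), ‖f i t z‖ ≤ ‖f i t w‖ := by
    intro t
    by_cases c : DifferentiableOn ℂ (f i t) (ball 0 (R i))
    · obtain ⟨w, hw, hm⟩ := (isCompact_closedBall (0 : ℂ) (3 / 4 * R i)).exists_isMaxOn ⟨0, z0⟩
        (c.continuousOn.mono (closedBall_subset_ball (by linarith))).norm
      exact ⟨w, hw, fun _ z hz => hm hz⟩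
    · exact ⟨0, z0, fun c' => absurd c' c⟩
  choose w hw hm using ex
  obtain ⟨w₀, hw₀, lim⟩ := ulim u (isCompact_closedBall _ _) (Eventually.of_forall hw)
  by_cases c : w₀ ∈ D i
  · obtain ⟨i', hi', w', hw', n', e⟩ := h.cov _ ((h.hq i hi).2 c)
    obtain ⟨j, hj, v, d, v₀, d₀, -, eR, en, -, lv, ld, ef, -, -⟩ :=
      h.tr i hi w w₀ c lim i' hi' w' hw' e.symm
    have r1 := h.R0 j hj
    refine ⟨(‖d₀‖ + 1) ^ n * 1, ?_⟩
    filter_upwards [h.hf i hi, ef, nm,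
      lv.norm.eventually (ge_mem_nhds (show ‖v₀‖ < R j / 2 by rw [en]; linarith)),
      ld.norm.eventually (ge_mem_nhds (lt_add_one ‖d₀‖))] with t h1 h2 h3 h4 h5 z hz
    refine (hm t h1 z (ball_subset_closedBall hz)).trans ?_
    rw [h2, norm_mul, norm_pow]
    gcongr
    exact h3 j hj _ h4
  · have e : w₀ = 0 := by
      by_contra c'
      exact c (h.mem hi c' (by linarith [mem_closedBall_zero_iff.1 hw₀]))
    refine ⟨1, ?_⟩
    filter_upwards [h.hf i hi, nm, lim.norm.eventually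
      (ge_mem_nhds (show ‖w₀‖ < R i / 2 by rw [e, norm_zero]; linarith))] with t h1 h3 h4 z hz
    exact (hm t h1 z (ball_subset_closedBall hz)).trans (h3 i hi _ h4)

theorem Dat.core (h : Dat u ι C R D q η f n μ i₀) (hM : MonStmt)
    (nm : ∀ᶠ t in (u : Filter ℂ), (∀ i ∈ ι, ∀ w : ℂ, ‖w‖ ≤ R i / 2 → ‖f i t w‖ ≤ 1) ∧
      ∃ i ∈ ι, ∃ w : ℂ, ‖w‖ ≤ R i / 2 ∧ ‖f i t w‖ = 1) : False := by
  have hg : ∀ i ∈ ι, ∃ g : ℂ → ℂ, AnalyticOnNhd ℂ g (ball 0 (3 / 4 * R i)) ∧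
      ∀ (w : ℂ → ℂ) (w₀ : ℂ), Tendsto w u (𝓝 w₀) → ‖w₀‖ < 3 / 4 * R i →
        Tendsto (fun t => f i t (w t)) u (𝓝 (g w₀)) := by
    intro i hi
    have r0 := h.R0 i hi
    obtain ⟨B, hB⟩ := h.bd (nm.mono fun t ht => ht.1) hi
    obtain ⟨g, g1, -, g2⟩ := hM ℂ u (f i) 0 (3 / 4 * R i) B (by
      filter_upwards [h.hf i hi, hB] with t h1 h2
      exact ⟨h1.mono (ball_subset_ball (by linarith)), h2⟩)
    refine ⟨g, g1, fun w w₀ lim a => ?_⟩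
    obtain ⟨r', a1, a2⟩ := exists_between a
    refine (g2 r' a2).tendsto_comp
      (g1 w₀ (mem_ball_zero_iff.2 a)).continuousAt.continuousWithinAt
      (tendsto_nhdsWithin_iff.2 ⟨lim, ?_⟩)
    exact (lim.norm.eventually (ge_mem_nhds a1)).mono fun t ht => mem_closedBall_zero_iff.2 ht
  choose! g g1 g2 using hg
  let G : I → ℂ → ℂ := fun i w => g i w ^ μ * (η i w)⁻¹ ^ n
  have Ga : ∀ i ∈ ι, ∀ w ∈ D i, ‖w‖ < 3 / 4 * R i → AnalyticAt ℂ (G i) w := fun i hi w hw a =>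
    ((g1 i hi w (mem_ball_zero_iff.2 a)).pow μ).mul
      ((((h.hη i hi).1 w hw).1.inv ((h.hη i hi).1 w hw).2).pow n)
  have trG : ∀ i ∈ ι, ∀ w₀ ∈ D i, ‖w₀‖ < 3 / 4 * R i → ∀ i' ∈ ι, ∀ w' ∈ D i',
      ‖w'‖ < 3 / 4 * R i' → q i w₀ = q i' w' → ∃ j ∈ ι, ∃ v₀ : ℂ, D j = D i' ∧ R j = R i' ∧
        ‖v₀‖ = ‖w'‖ ∧ q j v₀ = q i w₀ ∧ G i w₀ = G j v₀ ∧ (i' = i₀ → g j 0 = 0) := by
    intro i hi w₀ hw a i' hi' w' hw' a' e
    obtain ⟨j, hj, v, d, v₀, d₀, eD, eR, en, eq, lv, ld, ef, eη, ez⟩ :=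
      h.tr i hi (fun _ => w₀) w₀ hw tendsto_const_nhds i' hi' w' hw' e
    have r1 := h.R0 j hj
    have e1 : g i w₀ = d₀ ^ n * g j v₀ :=
      tendsto_nhds_unique (g2 i hi _ _ tendsto_const_nhds a)
        (((ld.pow n).mul (g2 j hj v v₀ lv (by rw [en, eR]; exact a'))).congr'
          (ef.mono fun t ht => ht.symm))
    have d0 : d₀ ≠ 0 := by
      rintro rfl
      rw [zero_pow h.μ0.ne', mul_zero] at eη
      exact ((h.hη i hi).1 w₀ hw).2 eη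
    refine ⟨j, hj, v₀, eD, eR, en, eq, ?_, fun c => ?_⟩
    · have e2 : (d₀ ^ n) ^ μ * (d₀ ^ μ)⁻¹ ^ n = 1 := by
        rw [inv_pow, ← pow_mul, ← pow_mul, mul_comm μ n, mul_inv_cancel₀ (pow_ne_zero _ d0)]
      simp only [G]
      rw [e1, eη, mul_pow, mul_inv, mul_pow]
      linear_combination (g j v₀ ^ μ * (η j v₀)⁻¹ ^ n) * e2
    · exact tendsto_nhds_unique (g2 j hj _ _ tendsto_const_nhds (by rw [norm_zero]; linarith))
        (tendsto_const_nhds.congr' ((ez c).mono fun t ht => ht.symm))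
  have hm : ∀ i ∈ ι, ∃ w : ℂ, ‖w‖ = R i / 2 ∧ ∀ v ∈ D i, ‖v‖ ≤ R i / 2 → ‖G i v‖ ≤ ‖G i w‖ := by
    intro i hi
    have r0 := h.R0 i hi
    have z0 : ‖(0 : ℂ)‖ < 3 / 4 * R i := by rw [norm_zero]; linarith
    have hb : Bd0 (G i) := by
      by_cases c : (0 : ℂ) ∈ D i
      · exact ⟨‖G i 0‖ + 1, nhdsWithin_le_nhds
          ((Ga i hi 0 c z0).continuousAt.norm.eventually (ge_mem_nhds (lt_add_one _)))⟩
      · obtain ⟨B, hB⟩ := (h.hη i hi).2 c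
        refine ⟨(‖g i 0‖ + 1) ^ μ * B ^ n, ?_⟩
        filter_upwards [hB, nhdsWithin_le_nhds ((g1 i hi 0 (mem_ball_zero_iff.2 z0)).continuousAt.norm.eventually
          (ge_mem_nhds (lt_add_one _)))] with w a b
        simp only [G]
        rw [norm_mul, norm_pow, norm_pow]
        gcongr
    obtain ⟨w, a, b, c⟩ := pmax (ρ := R i / 2) (ρ' := 3 / 4 * R i) (by linarith) (by linarith)
      (fun w hw => (Ga i hi w (h.mem hi hw.2 (by linarith [mem_ball_zero_iff.1 hw.1]))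
        (mem_ball_zero_iff.1 hw.1)).differentiableAt.differentiableWithinAt) hb
    refine ⟨w, a, fun v hv hv' => ?_⟩
    rcases eq_or_ne v 0 with rfl | v0
    · exact c (Ga i hi 0 hv z0).continuousAt
    · exact b v v0 hv'
  choose! wm wm1 wm2 using hm
  obtain ⟨i₁, hi₁, hL⟩ := Set.exists_max_image ι (fun i => ‖G i (wm i)‖) h.fin ⟨i₀, h.h0.1⟩
  obtain ⟨L, eL⟩ : ∃ L, L = ‖G i₁ (wm i₁)‖ := ⟨_, rfl⟩
  have le : ∀ i ∈ ι, ∀ w ∈ D i, ‖w‖ < 3 / 4 * R i → ‖G i w‖ ≤ L := by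
    intro i hi w hw a
    obtain ⟨i', hi', w', hw', n', e⟩ := h.cov _ ((h.hq i hi).2 hw)
    have r1 := h.R0 i' hi'
    obtain ⟨j, hj, v, eD, eR, en, -, eG, -⟩ := trG i hi w hw a i' hi' w' hw' (by linarith) e.symm
    rw [eG, eL]
    exact (wm2 j hj v (eD ▸ h.rot hi' hw' en) (by rw [en, eR]; linarith)).trans (hL j hj)
  have L0 : 0 < L := by
    obtain ⟨i, hi, ev⟩ := (Ultrafilter.eventually_exists_mem_iff h.fin).1
      (nm.mono fun t ht => ht.2)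
    have r0 := h.R0 i hi
    obtain ⟨w, hw⟩ := ev.choice
    obtain ⟨w₀, hw₀, lim⟩ := ulim u (isCompact_closedBall (0 : ℂ) (R i / 2))
      (hw.mono fun t ht => mem_closedBall_zero_iff.2 ht.1)
    have a : ‖w₀‖ < 3 / 4 * R i := by linarith [mem_closedBall_zero_iff.1 hw₀]
    have e1 : ‖g i w₀‖ = 1 := tendsto_nhds_unique (g2 i hi w w₀ lim a).norm
      (tendsto_const_nhds.congr' (hw.mono fun t ht => ht.2.symm))
    have e2 : ∀ᶠ v in 𝓝 w₀, g i v ≠ 0 :=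
      (g1 i hi w₀ (mem_ball_zero_iff.2 a)).continuousAt.eventually_ne
        (norm_pos_iff.1 (by linarith))
    have e3 : ∀ᶠ v in 𝓝[≠] w₀, v ≠ 0 := by
      rcases eq_or_ne w₀ 0 with c | c
      · rw [c]
        exact self_mem_nhdsWithin
      · exact nhdsWithin_le_nhds (eventually_ne_nhds c)
    obtain ⟨v, v0, v1, v2⟩ := (e3.and (nhdsWithin_le_nhds (e2.and
      (isOpen_ball.mem_nhds (mem_ball_zero_iff.2 a))))).exists
    have v3 := mem_ball_zero_iff.1 v2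
    have v4 := h.mem hi v0 (by linarith)
    exact (norm_pos_iff.2 (mul_ne_zero (pow_ne_zero _ v1)
      (pow_ne_zero _ (inv_ne_zero ((h.hη i hi).1 v v4).2)))).trans_le (le i hi v v4 v3)
  let X : Set M := {y | ∃ i ∈ ι, ∃ w ∈ D i, ‖w‖ < 3 / 4 * R i ∧ q i w = y ∧ ‖G i w‖ = L}
  have r1 := h.R0 i₁ hi₁
  have m1 : wm i₁ ∈ D i₁ :=
    h.mem hi₁ (norm_pos_iff.1 (by linarith [wm1 i₁ hi₁])) (by linarith [wm1 i₁ hi₁])
  have key : q i₀ 0 ∈ X := by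
    refine clopen h.conn ?_ ?_ ((h.hq i₁ hi₁).2 m1) ((h.hq i₀ h.h0.1).2 h.h0.2)
      ⟨i₁, hi₁, wm i₁, m1, by linarith [wm1 i₁ hi₁], rfl, eL.symm⟩
    · rintro y - ⟨i, hi, w, hw, a, rfl, e⟩
      have n1 : ∀ᶠ v in 𝓝 w, v ∈ D i ∧ ‖v‖ < 3 / 4 * R i :=
        Eventually.and ((h.opn hi).mem_nhds hw) (continuous_norm.continuousAt.eventually_lt_const a)
      have n2 := Complex.norm_eventually_eq_of_isLocalMax (f := G i) (c := w)
        (n1.mono fun v hv => (Ga i hi v hv.1 hv.2).differentiableAt)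
        (n1.mono fun v hv => (le i hi v hv.1 hv.2).trans_eq e.symm)
      refine mem_of_superset (h.ho i hi w hw _ (n1.and n2)) ?_
      rintro _ ⟨v, hv, rfl⟩
      exact ⟨i, hi, v, hv.1.1, hv.1.2, rfl, hv.2.trans e⟩
    · intro y hy hX
      obtain ⟨i', hi', w', hw', n', rfl⟩ := h.cov y hy
      have r2 := h.R0 i' hi'
      obtain ⟨ε, ε0, hε⟩ : ∃ ε : ℝ, 0 < ε ∧
          ∀ v : ℂ, |‖v‖ - ‖w'‖| ≤ ε → v ∈ D i' ∧ ‖v‖ < 3 / 4 * R i' := by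
        rcases eq_or_ne w' 0 with c | c
        · refine ⟨R i' / 3, by linarith, fun v hv => ?_⟩
          have a := (abs_le.1 hv).2
          refine ⟨?_, by linarith⟩
          rcases eq_or_ne v 0 with c' | c'
          · rwa [c', ← c]
          · exact h.mem hi' c' (by linarith)
        · have p := norm_pos_iff.2 c
          refine ⟨‖w'‖ / 2, by linarith, fun v hv => ?_⟩
          have a := abs_le.1 hv
          exact ⟨h.mem hi' (norm_pos_iff.1 (by linarith [a.1])) (by linarith [a.2]),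
            by linarith [a.2]⟩
      let A : Set ℂ := {v | |‖v‖ - ‖w'‖| ≤ ε}
      have hA : IsCompact A := (isCompact_closedBall (0 : ℂ) (3 / 4 * R i')).of_isClosed_subset
        (isClosed_le (by fun_prop) continuous_const) fun v hv =>
          mem_closedBall_zero_iff.2 (hε v hv).2.le
      let Z : Set M := ⋃ j ∈ {j ∈ ι | D j = D i' ∧ R j = R i'},
        q j '' (A ∩ (fun v => ‖G j v‖) ⁻¹' {L})
      have hZ : IsCompact Z := by
        refine (h.fin.subset (sep_subset _ _)).isCompact_biUnion fun j hj => ?_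
        have s1 : A ⊆ D j := fun v hv => hj.2.1 ▸ (hε v hv).1
        have c1 : ContinuousOn (fun v => ‖G j v‖) A := fun v hv =>
          (Ga j hj.1 v (s1 hv) (hj.2.2 ▸ (hε v hv).2)).continuousAt.norm.continuousWithinAt
        exact (hA.of_isClosed_subset (c1.preimage_isClosed_of_isClosed hA.isClosed
          isClosed_singleton) inter_subset_left).image_of_continuousOn
            ((h.hq j hj.1).1.mono (inter_subset_left.trans s1))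
      have yZ : q i' w' ∉ Z := fun c => by
        obtain ⟨j, hj, v, hv, e⟩ := mem_iUnion₂.1 c
        exact hX ⟨j, hj.1, v, hj.2.1 ▸ (hε v hv.1).1, hj.2.2 ▸ (hε v hv.1).2, e, hv.2⟩
      filter_upwards [h.ho i' hi' w' hw' _ (closedBall_mem_nhds w' ε0),
        mem_nhdsWithin_of_mem_nhds (hZ.isClosed.isOpen_compl.mem_nhds yZ)] with z hz hz'
      rintro ⟨i, hi, w, hw, a, e, eG⟩
      obtain ⟨w'', b, rfl⟩ := hz
      have b' : w'' ∈ A := (abs_norm_sub_norm_le w'' w').trans (mem_closedBall_iff_norm.1 b)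
      obtain ⟨j, hj, v, eD, eR, en, eq, eG', -⟩ :=
        trG i hi w hw a i' hi' w'' (hε _ b').1 (hε _ b').2 e
      refine hz' (mem_iUnion₂.2 ⟨j, ⟨hj, eD, eR⟩, v, ⟨?_, ?_⟩, eq.trans e⟩)
      · show |‖v‖ - ‖w'‖| ≤ ε
        rw [en]
        exact b'
      · exact (congrArg norm eG').symm.trans eG
  obtain ⟨i, hi, w, hw, a, e, eG⟩ := key
  have r2 := h.R0 i₀ h.h0.1
  obtain ⟨j, hj, v, -, -, en, -, eG', ez⟩ :=
    trG i hi w hw a i₀ h.h0.1 0 h.h0.2 (by rw [norm_zero]; linarith) e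
  rw [norm_zero, norm_eq_zero] at en
  rw [eG', en] at eG
  simp only [G] at eG
  rw [ez rfl, zero_pow h.μ0.ne', zero_mul, norm_zero] at eG
  exact L0.ne eG

theorem Dat.false (h : Dat u ι C R D q η f n μ i₀) (hM : MonStmt)
    (nz : ∀ᶠ t in (u : Filter ℂ), ∃ i ∈ ι, ∃ w : ℂ, ‖w‖ ≤ R i / 2 ∧ f i t w ≠ 0) : False := by
  have ex : ∀ᶠ t in (u : Filter ℂ), ∃ ν : ℝ, 0 < ν ∧
      (∀ i ∈ ι, ∀ w : ℂ, ‖w‖ ≤ R i / 2 → ‖f i t w‖ ≤ ν) ∧
        ∃ i ∈ ι, ∃ w : ℂ, ‖w‖ ≤ R i / 2 ∧ ‖f i t w‖ = ν := by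
    filter_upwards [(eventually_all_finite h.fin).2 h.hf, nz] with t h1 h2
    obtain ⟨i, hi, w, hw, h2⟩ := h2
    have hK : IsCompact (⋃ i ∈ ι, (fun w => ‖f i t w‖) '' closedBall (0 : ℂ) (R i / 2)) :=
      h.fin.isCompact_biUnion fun i hi => (isCompact_closedBall _ _).image_of_continuousOn
        ((h1 i hi).continuousOn.mono (closedBall_subset_ball (half_lt_self (h.R0 i hi)))).norm
    have hm : ∀ i ∈ ι, ∀ w : ℂ, ‖w‖ ≤ R i / 2 →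
        ‖f i t w‖ ∈ ⋃ i ∈ ι, (fun w => ‖f i t w‖) '' closedBall (0 : ℂ) (R i / 2) :=
      fun i hi w hw => mem_biUnion hi ⟨w, mem_closedBall_zero_iff.2 hw, rfl⟩
    obtain ⟨ν, a, b⟩ := hK.exists_isGreatest ⟨_, hm i hi w hw⟩
    obtain ⟨j, hj, v, hv, e⟩ := mem_iUnion₂.1 a
    exact ⟨ν, (norm_pos_iff.2 h2).trans_le (b (hm i hi w hw)), fun i hi w hw => b (hm i hi w hw),
      j, hj, v, mem_closedBall_zero_iff.1 hv, e⟩
  obtain ⟨ν, hν⟩ := ex.choice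
  have h' : Dat u ι C R D q η (fun i t w => f i t w / ν t) n μ i₀ := by
    refine ⟨h.fin, h.conn, h.μ0, h.R0, h.hD, h.hq, h.ho, h.hη,
      fun i hi => (h.hf i hi).mono fun t ht => ht.div_const _, h.cov, ?_, h.h0⟩
    intro i hi w w₀ hw lim i' hi' w' hw' e
    obtain ⟨j, hj, v, d, v₀, d₀, eD, eR, en, eq, lv, ld, ef, eη, ez⟩ :=
      h.tr i hi w w₀ hw lim i' hi' w' hw' e
    exact ⟨j, hj, v, d, v₀, d₀, eD, eR, en, eq, lv, ld,
      ef.mono fun t ht => by rw [ht, mul_div_assoc], eη,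
      fun c => (ez c).mono fun t ht => by rw [ht, zero_div]⟩
  refine h'.core hM (hν.mono fun t ht => ?_)
  have e : ∀ z : ℂ, ‖z / ν t‖ = ‖z‖ / ν t := fun z => by
    rw [norm_div, Complex.norm_real, Real.norm_eq_abs, abs_of_pos ht.1]
  obtain ⟨i, hi, w, hw, e'⟩ := ht.2.2
  exact ⟨fun i hi w hw => by rw [e, div_le_one ht.1]; exact ht.2.1 i hi w hw,
    i, hi, w, hw, by rw [e, e', div_self ht.1.ne']⟩

end DegX

end Pool.Agent.MP_c69980_ag.G3
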