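import Pool.Agent.MP_c69980_ag.G3.SpecI

/-!
Edges: flips, deep points of merged edges.
-/

set_option autoImplicit false

noncomputable section

namespace Pool.Agent.MP_c69980_ag.G3

open Metric Filter Topology Set

namespace Elim1X

variable {M : Type} [MetricSpace M] {A : Amb M}

lemma de_mono {κ : Kd} {c b : ℂ} {r r' : ℝ} (h : r ≤ r') (hb : b ∈ De κ c r) : b ∈ De κ c r' :=
  ⟨hb.1.trans h, fun k => (hb.2 k).trans (mul_le_mul_of_nonneg_right h (norm_nonneg _))⟩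

lemma dv_mono {H : Finset ℂ} {ρ ρ' : ℝ} {ω : ℂ} (h0 : 0 < ρ') (h : ρ' ≤ ρ) (hω : ω ∈ Dv H ρ) :
    ω ∈ Dv H ρ' :=
  ⟨h.trans hω.1, hω.2.1.trans (inv_anti₀ h0 h), fun a ha => h.trans (hω.2.2 a ha)⟩

lemma de_ne {c b : ℂ} {r : ℝ} (c0 : c ≠ 0) (hb : b ∈ De .neck c r) : b ≠ 0 := fun k => by
  have := hb.2 rfl
  simp only [k, norm_zero, mul_zero, norm_le_zero_iff] at this
  exact c0 this

lemma de_div {c b : ℂ} {r : ℝ} (c0 : c ≠ 0) (hb : b ∈ De .neck c r) : ‖c / b‖ ≤ r := by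
  rw [norm_div, div_le_iff₀ (norm_pos_iff.2 (de_ne c0 hb))]
  exact hb.2 rfl

lemma de_flip {c b : ℂ} {r : ℝ} (c0 : c ≠ 0) (hb : b ∈ De .neck c r) : c / b ∈ De .neck c r := by
  refine ⟨de_div c0 hb, fun _ => ?_⟩
  rw [norm_div, ← mul_div_assoc, le_div_iff₀ (norm_pos_iff.2 (de_ne c0 hb)), mul_comm]
  exact mul_le_mul_of_nonneg_right hb.1 (norm_nonneg _)

variable {κ : Kd} {E E' P P' N V E₁ E₂ : C2 → M} {c c₁ c₂ : ℂ → ℂ} {r : ℝ}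
  {u : Ultrafilter (ℂ × M)}

lemma c_ne (h : IsE A κ E c r P P') (k : κ = .neck) : ∀ᶠ t in A.l, c t ≠ 0 := by
  obtain ⟨-, K, hK⟩ := h.cc k
  exact hK.mono fun t ht => norm_pos_iff.1 ((Real.exp_pos _).trans_le ht.2)

lemma c_le (h : IsE A κ E c r P P') {η : ℝ} (η0 : 0 < η) :
    ∀ᶠ t in A.l, κ = .neck → ‖c t‖ ≤ η := by
  by_cases k : κ = .neck
  · have := (h.cc k).1.norm.eventually (gt_mem_nhds (a := η) (by simpa using η0))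
    exact this.mono fun t ht _ => le_of_lt ht
  · exact .of_forall fun t k' => (k k').elim

/-- The neck read from the other side. -/
def fp (E : C2 → M) (c : ℂ → ℂ) : C2 → M := fun q => E (q.1, c q.1 / q.2)

lemma ise_flip (h : IsE A .neck E c r P P') : IsE A .neck (fp E c) c r P' P := by
  refine ⟨fun r' hr => ?_, h.inn rfl, h.cc, fun _ r₁ r' h1 h2 ε ε0 => ?_⟩
  · obtain ⟨-, K, hK⟩ := h.cc rfl
    filter_upwards [h.lc r' hr, hK, c_ne h rfl] with t k1 k2 c0 b hb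
    obtain ⟨a1, a2, a3⟩ := k1 _ (de_flip c0 hb)
    have b0 := de_ne c0 hb
    have an : AnalyticAt ℂ (fun q : C2 => c q.1) (t, b) :=
      AnalyticAt.comp (f := Prod.fst) k2.1 analyticAt_fst
    have d1 : HasDerivAt (fun w : ℂ => c t / w) (-c t / b ^ 2) b := by
      simpa [div_eq_mul_inv] using (hasDerivAt_inv b0).const_mul (c t)
    have an2 : AnalyticAt ℂ (fun q : C2 => c q.1 / q.2) (t, b) := an.div analyticAt_snd b0
    have d2 : HasDerivAt (fun w : ℂ => c t / w) (dw (fun q : C2 => c q.1 / q.2) (t, b)) b :=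
      an2.differentiableAt.hasFDerivAt.comp_hasDerivAt b
        ((hasDerivAt_const b t).prodMk (hasDerivAt_id b))
    refine ⟨(A.comp E (fp E c) (t, b) (fun q => c q.1 / q.2) a1 an2 ?_
      (.of_forall fun _ => rfl)).1, ?_, fun b' hb' e => ?_⟩
    · rw [d2.unique d1]
      exact div_ne_zero (neg_ne_zero.2 c0) (pow_ne_zero _ b0)
    · exact a2.trans ⟨fun _ k => (nomatch k), fun _ k => (nomatch k)⟩
    · have := a3 _ (de_flip c0 hb') e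
      rw [← div_div_cancel₀ (a := c t) (b := b) c0, this, div_div_cancel₀ c0]
  · filter_upwards [h.out r₁ r' h1 h2 ε ε0, c_ne h rfl] with t k1 c0 ξ hξ
    simpa only [fp, div_div_cancel₀ c0] using k1 ξ hξ

lemma dp_flip (ho : A.Out u) (c0 : ∀ᶠ t in A.l, c t ≠ 0)
    (e : ∀ᶠ t in A.l, ∀ b, E' (t, b) = E (t, c t / b)) : Dp .neck E' c u ↔ Dp .neck E c u := by
  refine ⟨fun h ρ ρ0 => ?_, fun h ρ ρ0 => ?_⟩
  · filter_upwards [h ρ ρ0, ho.1.eventually c0, ho.1.eventually e] with x ⟨b, hb, k⟩ k1 k2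
    exact ⟨_, de_flip k1 hb, k.trans (k2 b)⟩
  · filter_upwards [h ρ ρ0, ho.1.eventually c0, ho.1.eventually e] with x ⟨b, hb, k⟩ k1 k2
    exact ⟨_, de_flip k1 hb, by rw [k2, div_div_cancel₀ k1, k]⟩

lemma half {a b : ℂ} (h : ‖a - b‖ ≤ 1 / 2 * ‖b‖) : ‖b‖ ≤ 2 * ‖a‖ ∧ ‖a‖ ≤ 2 * ‖b‖ := by
  have h1 := norm_sub_norm_le a b
  have h2 := norm_sub_norm_le b a
  rw [norm_sub_rev] at h2
  constructor <;> linarith [norm_nonneg b]

lemma dv_of {w ξ : ℂ} {a R ρ : ℝ} (ρ0 : 0 < ρ) (h1 : 2 * ρ ≤ a) (h2 : R + a ≤ ρ⁻¹)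
    (hξ : ξ ∈ An a R) (h : ‖w - ξ‖ < a / 2) : w ∈ Dv ∅ ρ ∧ w⁻¹ ∈ Dv ∅ ρ := by
  have k1 := norm_sub_norm_le w ξ
  have k2 := norm_sub_norm_le ξ w
  rw [norm_sub_rev] at k2
  have k3 : ρ ≤ ‖w‖ := by linarith [hξ.1]
  have k4 : ‖w‖ ≤ ρ⁻¹ := by linarith [hξ.2]
  refine ⟨⟨k3, k4, by simp⟩, ?_, ?_, by simp⟩
  · rw [norm_inv]
    exact (le_inv_comm₀ (ρ0.trans_le k3) ρ0).1 k4
  · rw [norm_inv]
    exact inv_anti₀ ρ0 k3

/-- A deep point of the merged edge is deep in an old edge or lies in the vertex. -/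
lemma deep_split (r0 : 0 < r) (h1 : IsE A .neck E₁ c₁ r P (sv V (.inl true)))
    (h2 : IsE A κ E₂ c₂ r (sv V (.inl false)) P') (m : Mg A κ E₁ V E₂ N c₁ c₂ r) (ho : A.Out u)
    (h : Dp κ N (fun t => c₁ t * c₂ t) u) :
    Dp .neck E₁ c₁ u ∨ Dp κ E₂ c₂ u ∨ ∃ ρ, 0 < ρ ∧ In V ∅ ρ u := by
  by_contra hc
  simp only [not_or, Dp, not_forall] at hc
  obtain ⟨⟨ρ₁, a1, n1⟩, ⟨ρ₂, a2, n2⟩, n3⟩ := hc
  obtain ⟨ρ, r'', ρ0, hr, f⟩ := m.fw (r / 2) (half_lt_self r0)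
  have R0 : 0 < r + ρ₁ + ρ₂ := by positivity
  obtain ⟨σ, σ0, s1, s2, s3, s4⟩ : ∃ σ : ℝ, 0 < σ ∧ σ ≤ ρ ∧ 2 * σ ≤ ρ₁ ∧ 2 * σ ≤ ρ₂ ∧
      r + ρ₁ + ρ₂ ≤ σ⁻¹ := by
    refine ⟨min (min ρ (r + ρ₁ + ρ₂)⁻¹) (min (ρ₁ / 2) (ρ₂ / 2)), by positivity,
      (min_le_left _ _).trans (min_le_left _ _), ?_, ?_, ?_⟩
    · linarith [min_le_right (min ρ (r + ρ₁ + ρ₂)⁻¹) (min (ρ₁ / 2) (ρ₂ / 2)),
        min_le_left (ρ₁ / 2) (ρ₂ / 2)]
    · linarith [min_le_right (min ρ (r + ρ₁ + ρ₂)⁻¹) (min (ρ₁ / 2) (ρ₂ / 2)),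
        min_le_right (ρ₁ / 2) (ρ₂ / 2)]
    · exact (le_inv_comm₀ (by positivity) R0).1 ((min_le_left _ _).trans (min_le_right _ _))
  refine n3 ⟨σ, σ0, ?_⟩
  have η0 : 0 < min (r / 2) σ := by positivity
  filter_upwards [h _ η0, Ultrafilter.eventually_not.2 n1, Ultrafilter.eventually_not.2 n2,
    ho.1.eventually (f (1 / 2) one_half_pos), ho.1.eventually (c_ne h1 rfl),
    ho.1.eventually (h1.inn rfl ρ₁ r'' a1 hr _ (half_pos a1)),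
    ho.1.eventually (h2.out ρ₂ r'' a2 hr _ (half_pos a2))] with x ⟨b, hb, e⟩ k1 k2 k3 c0 k4 k5
  have hb' := de_mono (min_le_right _ _) hb
  rcases k3 b (de_mono (min_le_left _ _) hb) with ⟨b₁, q1, q2, q3⟩ | ⟨ω, q1, -, q3⟩ |
    ⟨b₂, q1, q2, q3⟩
  · have l1 : ‖b₁‖ ≤ ρ₁ := by linarith [(half q2).2, hb'.1]
    have l2 : ρ₁ ≤ ‖c₁ x.1 / b₁‖ := by
      rw [norm_div, le_div_iff₀ (norm_pos_iff.2 (de_ne c0 q1))]
      exact le_of_not_ge fun k => k1 ⟨b₁, ⟨l1, fun _ => k⟩, e.trans q3⟩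
    obtain ⟨w, w1, w2⟩ := k4 _ ⟨l2, de_div c0 q1⟩
    simp only [div_div_cancel₀ c0] at w2
    exact ⟨w⁻¹, (dv_of σ0 s2 (by linarith) ⟨l2, de_div c0 q1⟩ w1).2, (e.trans q3).trans w2⟩
  · exact ⟨ω, dv_mono σ0 s1 q1, e.trans q3⟩
  · have l1 : κ = .neck → ‖c₂ x.1‖ ≤ ρ₂ * ‖b₂‖ := fun k => by
      have l2 := hb'.2 k
      have l3 := (half q2).1
      rw [norm_mul] at l2 l3
      refine le_of_mul_le_mul_left ?_ (norm_pos_iff.2 c0)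
      have l4 := mul_le_mul_of_nonneg_left l3 σ0.le
      have l5 := mul_le_mul_of_nonneg_right s3 (mul_nonneg (norm_nonneg (c₁ x.1)) (norm_nonneg b₂))
      linarith
    have l2 : ρ₂ ≤ ‖b₂‖ := le_of_not_ge fun k => k2 ⟨b₂, ⟨k, l1⟩, e.trans q3⟩
    obtain ⟨w, w1, w2⟩ := k5 _ ⟨l2, q1.1⟩
    exact ⟨w, (dv_of σ0 s3 (by linarith) ⟨l2, q1.1⟩ w1).1, (e.trans q3).trans w2⟩

lemma deep_left (h2 : IsE A κ E₂ c₂ r P P') (m : Mg A κ E₁ V E₂ N c₁ c₂ r) (ho : A.Out u)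
    (h : Dp .neck E₁ c₁ u) : Dp κ N (fun t => c₁ t * c₂ t) u := fun η η0 => by
  obtain ⟨r', r0, f⟩ := m.bw
  filter_upwards [h (min r' (η / 2)) (by positivity), ho.1.eventually (c_le h2 one_pos),
    ho.1.eventually (f 1 (1 / 2) one_pos one_half_pos)] with x ⟨b₁, hb, e⟩ k1 k2
  obtain ⟨b, q1, q2⟩ := k2.1 b₁ (de_mono (min_le_left _ _) hb)
  have hb' := de_mono (min_le_right _ _) hb
  refine ⟨b, ⟨by linarith [(half q1).1, hb'.1], fun k => ?_⟩, e.trans q2.symm⟩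
  have l1 := mul_le_mul_of_nonneg_left (half q1).2 (half_pos η0).le
  have l2 := mul_le_mul_of_nonneg_left (k1 k) (norm_nonneg (c₁ x.1))
  rw [norm_mul]
  linarith [hb'.2 rfl]

lemma deep_right (h1 : IsE A .neck E₁ c₁ r P P') (m : Mg A κ E₁ V E₂ N c₁ c₂ r) (ho : A.Out u)
    (h : Dp κ E₂ c₂ u) : Dp κ N (fun t => c₁ t * c₂ t) u := fun η η0 => by
  obtain ⟨r', r0, f⟩ := m.bw
  filter_upwards [h (min r' (η / 2)) (by positivity), ho.1.eventually (c_le h1 one_pos),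
    ho.1.eventually (f 1 (1 / 2) one_pos one_half_pos)] with x ⟨b₂, hb, e⟩ k1 k2
  obtain ⟨b, q1, q2⟩ := k2.2.2 b₂ (de_mono (min_le_left _ _) hb)
  have hb' := de_mono (min_le_right _ _) hb
  obtain ⟨l1, l2⟩ := half q1
  rw [norm_mul] at l1 l2
  have l3 := mul_le_mul_of_nonneg_right (k1 rfl) (norm_nonneg b₂)
  refine ⟨b, ⟨by linarith [hb'.1], fun k => ?_⟩, e.trans q2.symm⟩
  have l4 := mul_le_mul_of_nonneg_left l2 (half_pos η0).le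
  have l5 := mul_le_mul_of_nonneg_left (hb'.2 k) (norm_nonneg (c₁ x.1))
  rw [norm_mul]
  linarith

lemma deep_mid {Q Q' : C2 → M} (h1 : IsE A .neck E₁ c₁ r P P') (h2 : IsE A κ E₂ c₂ r Q Q')
    (m : Mg A κ E₁ V E₂ N c₁ c₂ r) (ho : A.Out u) {ρ : ℝ} (ρ0 : 0 < ρ) (h : In V ∅ ρ u) :
    Dp κ N (fun t => c₁ t * c₂ t) u := fun η η0 => by
  obtain ⟨r', r0, f⟩ := m.bw
  have a0 : 0 < η / 2 * ρ := by positivity
  filter_upwards [h, ho.1.eventually (c_le h1 a0), ho.1.eventually (c_le h2 a0),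
    ho.1.eventually (f ρ (1 / 2) ρ0 one_half_pos)] with x ⟨ω, hω, e⟩ k1 k2 k3
  obtain ⟨b, q1, q2⟩ := k3.2.1 ω hω
  obtain ⟨l1, l2⟩ := half q1
  rw [norm_mul] at l1 l2
  refine ⟨b, ⟨?_, fun k => ?_⟩, e.trans q2.symm⟩
  · have l3 := mul_le_mul (k1 rfl) hω.2.1 (norm_nonneg _) a0.le
    rw [mul_assoc, mul_inv_cancel₀ ρ0.ne'] at l3
    linarith
  · have l3 := mul_le_mul_of_nonneg_left (k2 k) (norm_nonneg (c₁ x.1))
    have l4 := mul_le_mul_of_nonneg_left hω.1 (norm_nonneg (c₁ x.1))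
    have l5 := mul_le_mul_of_nonneg_left (l4.trans l2) (half_pos η0).le
    rw [norm_mul]
    linarith

end Elim1X

end Pool.Agent.MP_c69980_ag.G3
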