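import Pool.Agent.MP_c69980_ag.G3.MergeA

/-!
Merging a neck, a cylinder and an edge: the merged chart is an edge.
-/

set_option autoImplicit false

noncomputable section

namespace Pool.Agent.MP_c69980_ag.G3

open Metric Filter Topology Set

namespace MergeX

variable {M : Type} [MetricSpace M] {A : Amb M} {E₁ V E₂ P P' N : C2 → M} {c₁ c₂ : ℂ → ℂ}
  {f₁ f₂ f₃ : C2 → ℂ} {r r' q Q : ℝ} {κ : Kd}

/-- An intermediate radius with some room. -/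
lemma room (q0 : 0 < q) (qr : 12 * q ≤ r) (h : r' < r) : ∃ s e : ℝ, s < r ∧ 9 * q ≤ s ∧ 0 < e ∧
    e ≤ 1 / 20 ∧ r' ≤ s * (1 - e) := by
  have h1 : max r' (9 * q) < r := max_lt h (by linarith)
  have h2 := le_max_left r' (9 * q)
  have h3 := le_max_right r' (9 * q)
  generalize max r' (9 * q) = m at h1 h2 h3
  have s0 : 0 < (m + r) / 2 := by linarith
  have d0 : 0 < (r - m) / 2 := by linarith
  refine ⟨(m + r) / 2, min (1 / 20) ((r - m) / 2 / ((m + r) / 2)), by linarith, by linarith,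
    by positivity, min_le_left _ _, ?_⟩
  have := (le_div_iff₀ s0).1 (min_le_right (1 / 20) ((r - m) / 2 / ((m + r) / 2)))
  linarith

/-- The three zones land in the domains of the three charts. -/
lemma Dat.desc (D : Dat A κ E₁ V E₂ P P' N c₁ c₂ r q Q f₁ f₂ f₃) (h : r' < r) :
    ∃ s : ℝ, s < r ∧ ∀ᶠ t in A.l, ∀ ξ : ℂ, c₁ t * ξ ∈ De κ (c₁ t * c₂ t) r' →
      (3 * Q < ‖ξ‖ → c₁ t * f₁ (t, ξ) ∈ De .neck (c₁ t) s) ∧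
      (5 * q < ‖ξ‖ → ‖ξ‖ < 6 * Q → f₂ (t, ξ) ∈ Dv ∅ (q / 7)) ∧
      (‖ξ‖ < 8 * q → f₃ (t, ξ) ∈ De κ (c₂ t) s) := by
  obtain ⟨s, e, s1, s2, e0, e1, e2⟩ := room D.q0 D.qr h
  have q0 := D.q0
  have Q1 := D.Q1
  have s0 : 0 < s := by linarith
  refine ⟨s, s1, ?_⟩
  filter_upwards [D.z1.near e e0, D.z2.near e e0, D.z3.near e e0, c_ne D.h1 rfl]
    with t k1 k2 k3 k4 ξ hξ
  have c0 : 0 < ‖c₁ t‖ := norm_pos_iff.2 k4.2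
  have x0 := norm_nonneg ξ
  have ex := mul_le_mul_of_nonneg_right e1 x0
  obtain ⟨j1, j2⟩ := hξ
  rw [norm_mul] at j1
  refine ⟨fun k => ?_, fun k k' => ?_, fun k => ?_⟩
  · obtain ⟨u1, u2⟩ := abs_rel (k1 ξ k)
    refine ⟨?_, fun _ => ?_⟩ <;> rw [norm_mul]
    · have v1 := mul_le_mul_of_nonneg_left u2 c0.le
      have v2 := mul_le_mul_of_nonneg_left (j1.trans e2) (by positivity : 0 ≤ 1 + e)
      nlinarith [mul_pos s0 (mul_pos e0 e0)]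
    · have v1 : 2 * Q ≤ ‖f₁ (t, ξ)‖ := by linarith
      have v2 : 9 * q * (2 * Q) ≤ s * ‖f₁ (t, ξ)‖ := mul_le_mul s2 v1 (by positivity) s0.le
      have v3 : 1 ≤ s * ‖f₁ (t, ξ)‖ := by linarith [D.qQ]
      nlinarith
  · obtain ⟨u1, u2⟩ := abs_rel (k2 ξ ⟨k, k'⟩)
    refine ⟨by linarith, ?_, by simp⟩
    rw [inv_div, le_div_iff₀ q0]
    have v1 : ‖f₂ (t, ξ)‖ ≤ 7 * Q := by linarith
    nlinarith [D.qQ]
  · obtain ⟨u1, u2⟩ := abs_rel (k3 ξ k)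
    refine ⟨by linarith, fun hk => ?_⟩
    have v1 := j2 hk
    rw [norm_mul, norm_mul, mul_left_comm] at v1
    have v2 := le_of_mul_le_mul_left v1 c0
    have v3 := mul_le_mul_of_nonneg_right e2 x0
    have v4 := mul_le_mul_of_nonneg_left u1 s0.le
    linarith

/-- Charts and the open part. -/
lemma Dat.lz (D : Dat A κ E₁ V E₂ P P' N c₁ c₂ r q Q f₁ f₂ f₃) (h : r' < r) :
    ∀ᶠ t in A.l, ∀ ξ : ℂ, c₁ t * ξ ∈ De κ (c₁ t * c₂ t) r' →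
      A.LC N (t, ξ) ∧ ((t, N (t, ξ)) ∈ A.Z ↔ (κ = .cusp → ξ ≠ 0)) := by
  obtain ⟨s, s1, hd⟩ := D.desc h
  have q0 := D.q0
  have Q1 := D.Q1
  have q1 : q ≤ 1 := by nlinarith [D.qQ]
  filter_upwards [hd, D.z1.eq, D.z2.eq, D.z3.eq, D.h1.lc s s1, D.hV _ (by positivity : 0 < q / 7),
    D.h2.lc s s1, c_ne D.h1 rfl, D.z3.near _ one_half_pos] with t d z1 z2 z3 l1 l2 l3 c0 n3 ξ hξ
  obtain ⟨d1, d2, d3⟩ := d ξ hξ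
  rcases lt_or_ge ‖ξ‖ (8 * q) with k | k
  · obtain ⟨u1, u2, -⟩ := l3 _ (d3 k)
    obtain ⟨v1, v2⟩ := abs_rel (n3 ξ k)
    refine ⟨(z3 ξ k).2.1 u1, ?_⟩
    rw [(z3 ξ k).1, u2]
    refine forall_congr' fun _ => not_congr ?_
    rw [← norm_eq_zero, ← norm_eq_zero (a := ξ)]
    constructor <;> intro j <;> linarith [norm_nonneg ξ, norm_nonneg (f₃ (t, ξ))]
  have x0 : ξ ≠ 0 := norm_pos_iff.1 (by linarith)
  rcases lt_or_ge ‖ξ‖ (6 * Q) with k' | k'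
  · have k5 : 5 * q < ‖ξ‖ := by linarith
    obtain ⟨u1, u2⟩ := (l2 _ (d2 k5 k')).1
    refine ⟨(z2 ξ ⟨k5, k'⟩).2.1 u1, iff_of_true ?_ fun _ => x0⟩
    rw [(z2 ξ ⟨k5, k'⟩).1]
    exact u2
  · have k3 : 3 * Q < ‖ξ‖ := by linarith
    obtain ⟨u1, u2, -⟩ := l1 _ (d1 k3)
    refine ⟨(z1 ξ k3).2.1 (scale c0.1 c0.2 u1), iff_of_true ?_ fun _ => x0⟩
    rw [(z1 ξ k3).1]
    exact u2.2 fun e => nomatch e

/-- Injectivity. -/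
lemma Dat.inj (D : Dat A κ E₁ V E₂ P P' N c₁ c₂ r q Q f₁ f₂ f₃)
    (v1 : Ve A V ∅ .neck E₁ c₁ r fun ε t ω b => ‖ω⁻¹ - c₁ t / b‖ < ε)
    (v2 : Ve A V ∅ κ E₂ c₂ r fun ε _ ω b => ‖ω - b‖ < ε)
    (dj : ∀ r' < r, ∀ᶠ t in A.l, ∀ b₁ ∈ De .neck (c₁ t) r', ∀ b₂ ∈ De κ (c₂ t) r',
      E₁ (t, b₁) ≠ E₂ (t, b₂)) (h : r' < r) :
    ∀ᶠ t in A.l, ∀ ξ ξ' : ℂ, c₁ t * ξ ∈ De κ (c₁ t * c₂ t) r' →
      c₁ t * ξ' ∈ De κ (c₁ t * c₂ t) r' → N (t, ξ) = N (t, ξ') → ξ = ξ' := by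
  obtain ⟨s, s1, hd⟩ := D.desc h
  have q0 := D.q0
  have Q1 := D.Q1
  have qQ := D.qQ
  have q1 : q ≤ 1 := by nlinarith
  have q7 : 0 < q / 7 := by positivity
  have e0 : (0 : ℝ) < 1 / 20 := by norm_num
  filter_upwards [hd, D.z1.eq, D.z2.eq, D.z3.eq, D.h1.lc s s1, D.hV _ q7,
    D.h2.lc s s1, c_ne D.h1 rfl, D.z1.near _ e0, D.z2.near _ e0, D.z3.near _ e0,
    v1 _ s (q / 20) q7 s1 (by positivity), v2 _ s q q7 s1 q0, dj s s1]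
    with t d z1 z2 z3 l1 l2 l3 c0 n1 n2 n3 w1 w2 w3
  suffices key : ∀ ξ ξ' : ℂ, ‖ξ‖ ≤ ‖ξ'‖ → c₁ t * ξ ∈ De κ (c₁ t * c₂ t) r' →
      c₁ t * ξ' ∈ De κ (c₁ t * c₂ t) r' → N (t, ξ) = N (t, ξ') → ξ = ξ' by
    intro ξ ξ' a b e
    rcases le_total ‖ξ‖ ‖ξ'‖ with k | k
    · exact key ξ ξ' k a b e
    · exact (key ξ' ξ k b a e.symm).symm
  intro ξ ξ' le hξ hξ' e
  obtain ⟨d1, d2, d3⟩ := d ξ hξ
  obtain ⟨d1', d2', d3'⟩ := d ξ' hξ'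
  rcases lt_or_ge ‖ξ'‖ (8 * q) with k | k
  · have j := le.trans_lt k
    rw [(z3 ξ j).1, (z3 ξ' k).1] at e
    exact (z3 ξ j).2.2 ξ' k ((l3 _ (d3 j)).2.2 _ (d3' k) e)
  rcases lt_or_ge (3 * Q) ‖ξ‖ with j | j
  · have k' := j.trans_le le
    rw [(z1 ξ j).1, (z1 ξ' k').1] at e
    exact (z1 ξ j).2.2 ξ' k' (mul_left_cancel₀ c0.2 ((l1 _ (d1 j)).2.2 _ (d1' k') e))
  have k5 : 5 * q < ‖ξ'‖ := by linarith
  have j6 : ‖ξ‖ < 6 * Q := by linarith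
  rcases lt_or_ge (5 * q) ‖ξ‖ with j5 | j5 <;> rcases lt_or_ge ‖ξ'‖ (6 * Q) with k6 | k6
  · rw [(z2 ξ ⟨j5, j6⟩).1, (z2 ξ' ⟨k5, k6⟩).1] at e
    exact (z2 ξ ⟨j5, j6⟩).2.2 ξ' ⟨k5, k6⟩ ((l2 _ (d2 j5 j6)).2 _ (d2' k5 k6) e)
  · exfalso
    have k3 : 3 * Q < ‖ξ'‖ := by linarith
    rw [(z2 ξ ⟨j5, j6⟩).1, (z1 ξ' k3).1] at e
    have u : ‖(f₂ (t, ξ))⁻¹ - c₁ t / (c₁ t * f₁ (t, ξ'))‖ < q / 20 :=
      w1 _ (d2 j5 j6) _ (d1' k3) e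
    rw [div_mul_cancel_left₀ c0.2] at u
    have u1 := norm_sub_norm_le (f₂ (t, ξ))⁻¹ (f₁ (t, ξ'))⁻¹
    rw [norm_inv, norm_inv] at u1
    obtain ⟨a1, a2⟩ := abs_rel (n2 ξ ⟨j5, j6⟩)
    obtain ⟨b1, -⟩ := abs_rel (n1 ξ' k3)
    have a3 : (4 * Q)⁻¹ ≤ ‖f₂ (t, ξ)‖⁻¹ := inv_anti₀ (by linarith) (by linarith)
    have b3 : ‖f₁ (t, ξ')‖⁻¹ ≤ (5 * Q)⁻¹ := inv_anti₀ (by linarith) (by linarith)
    have hQq : Q⁻¹ = q := (eq_inv_of_mul_eq_one_left qQ).symm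
    rw [mul_inv, hQq] at a3 b3
    linarith
  · exfalso
    have j8 : ‖ξ‖ < 8 * q := by linarith
    rw [(z3 ξ j8).1, (z2 ξ' ⟨k5, k6⟩).1] at e
    have u : ‖f₂ (t, ξ') - f₃ (t, ξ)‖ < q := w2 _ (d2' k5 k6) _ (d3 j8) e.symm
    have u1 := norm_sub_norm_le (f₂ (t, ξ')) (f₃ (t, ξ))
    obtain ⟨a1, -⟩ := abs_rel (n2 ξ' ⟨k5, k6⟩)
    obtain ⟨-, b1⟩ := abs_rel (n3 ξ j8)
    linarith
  · exfalso
    have j8 : ‖ξ‖ < 8 * q := by linarith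
    have k3 : 3 * Q < ‖ξ'‖ := by linarith
    rw [(z3 ξ j8).1, (z1 ξ' k3).1] at e
    exact w3 _ (d1' k3) _ (d3 j8) e.symm

lemma rel_mul {c u v : ℂ} {ε : ℝ} (h : ‖u - v‖ ≤ ε * ‖v‖) : ‖c * u - c * v‖ ≤ ε * ‖c * v‖ := by
  rw [← mul_sub, norm_mul, norm_mul, mul_left_comm]
  exact mul_le_mul_of_nonneg_left h (norm_nonneg c)

lemma rel_inv {c u v : ℂ} {ε : ℝ} (u0 : u ≠ 0) (v0 : v ≠ 0) (h : ‖u - v‖ ≤ ε * ‖v‖) :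
    ‖c / v - c / u‖ ≤ ε * ‖c / u‖ := by
  have e : c / v - c / u = c / u * ((u - v) / v) := by field_simp
  rw [e, norm_mul, mul_comm, norm_div]
  exact mul_le_mul_of_nonneg_right ((div_le_iff₀ (norm_pos_iff.2 v0)).2 h) (norm_nonneg _)

/-- Relative closeness keeps a point in a slightly larger annulus. -/
lemma an_rel {u v : ℂ} {r₁ s e δ : ℝ} (hv : v ∈ An r₁ r') (h : ‖v - u‖ ≤ δ * ‖u‖) (δ1 : δ ≤ e)
    (e1 : e ≤ 1 / 20) (e2 : r' ≤ s * (1 - e)) : u ∈ An (r₁ / 2) s := by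
  obtain ⟨a1, a2⟩ := abs_rel h
  have u0 := norm_nonneg u
  have b1 := mul_le_mul_of_nonneg_right δ1 u0
  have b2 := mul_le_mul_of_nonneg_right e1 u0
  refine ⟨by linarith [hv.1], le_of_mul_le_mul_right (a := 1 - e) ?_ (by linarith)⟩
  linarith [hv.2]

lemma Dat.out (D : Dat A κ E₁ V E₂ P P' N c₁ c₂ r q Q f₁ f₂ f₃) {r₁ : ℝ} (h1 : 0 < r₁)
    (h : r' < r) : Mt A.l (sc N fun t => (c₁ t)⁻¹) P id (An r₁ r') := fun ε hε => by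
  obtain ⟨s, e, s1, s2, e0, e1, e2⟩ := room D.q0 D.qr h
  have q0 := D.q0
  have Q1 := D.Q1
  have s0 : 0 < s := by linarith
  obtain ⟨δ, δ0, δ1, δ2⟩ : ∃ δ : ℝ, 0 < δ ∧ δ ≤ e / 2 ∧ δ * s ≤ ε / 4 :=
    ⟨min (e / 2) (ε / 4 / s), by positivity, min_le_left _ _,
      (le_div_iff₀ s0).1 (min_le_right _ _)⟩
  filter_upwards [D.z1.eq, D.z1.near δ δ0, c_ne D.h1 rfl,
    small D.h1 (by positivity : 0 < r₁ / (3 * Q)),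
    D.h1.out (r₁ / 2) s (half_pos h1) s1 _ (half_pos hε)] with t z1 n1 c0 c1 o b hb
  obtain ⟨ξ, rfl⟩ : ∃ ξ, b = c₁ t * ξ := ⟨(c₁ t)⁻¹ * b, (mul_inv_cancel_left₀ c0.2 b).symm⟩
  have k : 3 * Q < ‖ξ‖ := by
    have a1 := (lt_div_iff₀ (by positivity)).1 (c1 rfl)
    have a2 := hb.1
    rw [norm_mul] at a2
    exact lt_of_mul_lt_mul_left (a1.trans_le a2) (norm_nonneg _)
  have k1 := rel_mul (c := c₁ t) (n1 ξ k)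
  have k2 : ‖c₁ t * ξ - c₁ t * f₁ (t, ξ)‖ ≤ 2 * δ * ‖c₁ t * f₁ (t, ξ)‖ := by
    have a1 := (abs_rel k1).1
    have a2 : δ * ‖c₁ t * ξ‖ ≤ 1 / 2 * ‖c₁ t * ξ‖ :=
      mul_le_mul_of_nonneg_right (by linarith) (norm_nonneg _)
    have a3 : δ * ‖c₁ t * ξ‖ ≤ δ * (2 * ‖c₁ t * f₁ (t, ξ)‖) :=
      mul_le_mul_of_nonneg_left (by linarith) δ0.le
    rw [norm_sub_rev]
    linarith
  have k3 := an_rel hb k2 (by linarith) e1 e2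
  obtain ⟨w, w1, w2⟩ := o _ k3
  refine ⟨w, ?_, ?_⟩
  · have a1 := norm_sub_le_norm_sub_add_norm_sub w (c₁ t * f₁ (t, ξ)) (c₁ t * ξ)
    have a2 := mul_le_mul_of_nonneg_left k3.2 δ0.le
    rw [norm_sub_rev] at k2
    rw [id] at w1 ⊢
    linarith
  · show N (t, (c₁ t)⁻¹ * (c₁ t * ξ)) = _
    rw [inv_mul_cancel_left₀ c0.2, (z1 ξ k).1]
    exact w2

lemma Dat.inn (D : Dat A κ E₁ V E₂ P P' N c₁ c₂ r q Q f₁ f₂ f₃) (hκ : κ = .neck) {r₁ : ℝ}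
    (h1 : 0 < r₁) (h : r' < r) : Mt A.l (fun p => (sc N fun t => (c₁ t)⁻¹)
      (p.1, c₁ p.1 * c₂ p.1 / p.2)) P' id (An r₁ r') := fun ε hε => by
  obtain ⟨s, e, s1, s2, e0, e1, e2⟩ := room D.q0 D.qr h
  have q0 := D.q0
  have s0 : 0 < s := by linarith
  obtain ⟨δ, δ0, δ1, δ2⟩ : ∃ δ : ℝ, 0 < δ ∧ δ ≤ e ∧ δ * s ≤ ε / 2 :=
    ⟨min e (ε / 2 / s), by positivity, min_le_left _ _, (le_div_iff₀ s0).1 (min_le_right _ _)⟩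
  filter_upwards [D.z3.eq, D.z3.near δ δ0, c_ne D.h1 rfl, c_ne D.h2 hκ,
    small D.h2 (by positivity : 0 < 8 * q * r₁),
    D.h2.inn hκ (r₁ / 2) s (half_pos h1) s1 _ (half_pos hε)] with t z3 n3 c0 c2 c3 o ζ hζ
  have ζ0 : 0 < ‖ζ‖ := h1.trans_le hζ.1
  have k : ‖c₂ t / ζ‖ < 8 * q := by
    rw [norm_div, div_lt_iff₀ ζ0]
    exact (c3 hκ).trans_le (mul_le_mul_of_nonneg_left hζ.1 (by positivity))
  have x0 : c₂ t / ζ ≠ 0 := div_ne_zero c2.2 (norm_pos_iff.1 ζ0)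
  have y0 : f₃ (t, c₂ t / ζ) ≠ 0 := by
    have a1 := (abs_rel (n3 _ k)).1
    have a2 : 0 < (1 - δ) * ‖c₂ t / ζ‖ := mul_pos (by linarith) (norm_pos_iff.2 x0)
    exact norm_pos_iff.1 (a2.trans_le a1)
  have k2 := rel_inv (c := c₂ t) y0 x0 (n3 _ k)
  rw [div_div_cancel₀ c2.2] at k2
  have k3 := an_rel hζ k2 δ1 e1 e2
  obtain ⟨w, w1, w2⟩ := o _ k3
  refine ⟨w, ?_, ?_⟩
  · have a1 := norm_sub_le_norm_sub_add_norm_sub w (c₂ t / f₃ (t, c₂ t / ζ)) ζ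
    have a2 := mul_le_mul_of_nonneg_left k3.2 δ0.le
    rw [norm_sub_rev] at k2
    rw [id] at w1 ⊢
    linarith
  · show N (t, (c₁ t)⁻¹ * (c₁ t * c₂ t / ζ)) = _
    rw [mul_div_assoc, inv_mul_cancel_left₀ c0.2, (z3 _ k).1, ← w2]
    show _ = E₂ (t, c₂ t / (c₂ t / f₃ (t, c₂ t / ζ)))
    rw [div_div_cancel₀ c2.2]

lemma Dat.ise (D : Dat A κ E₁ V E₂ P P' N c₁ c₂ r q Q f₁ f₂ f₃)
    (v1 : Ve A V ∅ .neck E₁ c₁ r fun ε t ω b => ‖ω⁻¹ - c₁ t / b‖ < ε)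
    (v2 : Ve A V ∅ κ E₂ c₂ r fun ε _ ω b => ‖ω - b‖ < ε)
    (dj : ∀ r' < r, ∀ᶠ t in A.l, ∀ b₁ ∈ De .neck (c₁ t) r', ∀ b₂ ∈ De κ (c₂ t) r',
      E₁ (t, b₁) ≠ E₂ (t, b₂)) :
    IsE A κ (sc N fun t => (c₁ t)⁻¹) (fun t => c₁ t * c₂ t) r P P' := by
  refine ⟨fun r' h => ?_, fun _ _ h1 h => D.out h1 h, fun hκ => ⟨?_, ?_⟩,
    fun hκ _ _ h1 h => D.inn hκ h1 h⟩
  · filter_upwards [D.lz h, D.inj v1 v2 dj h, c_ne D.h1 rfl] with t l i c0 b hb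
    have e : ∀ b : ℂ, c₁ t * ((c₁ t)⁻¹ * b) = b := mul_inv_cancel_left₀ c0.2
    obtain ⟨l1, l2⟩ := l ((c₁ t)⁻¹ * b) (by rwa [e])
    refine ⟨scale (c0.1.inv c0.2) (inv_ne_zero c0.2) l1, l2.trans ?_, fun b' hb' k =>
      mul_left_cancel₀ (inv_ne_zero c0.2) (i _ _ (by rwa [e]) (by rwa [e]) k)⟩
    simp [c0.2]
  · simpa using (D.h1.cc rfl).1.mul (D.h2.cc hκ).1
  · obtain ⟨K₁, h1⟩ := (D.h1.cc rfl).2
    obtain ⟨K₂, h2⟩ := (D.h2.cc hκ).2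
    refine ⟨K₁ + K₂, ?_⟩
    filter_upwards [h1, h2] with t a1 a2
    refine ⟨a1.1.mul a2.1, ?_⟩
    rw [add_mul, neg_add, Real.exp_add, norm_mul]
    exact mul_le_mul a1.2 a2.2 (Real.exp_pos _).le (norm_nonneg _)

end MergeX

end Pool.Agent.MP_c69980_ag.G3
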