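import Pool.Agent.MP_c69980_ag.G3.SpecW

/-!
Continuous and separately holomorphic functions of two variables are analytic.
-/

set_option autoImplicit false

noncomputable section

namespace Pool.Agent.MP_c69980_ag.G3

open Metric Filter Topology Set Complex
open scoped Real

namespace OsgX

variable {S : Type} [TopologicalSpace S] [CompactSpace S]

omit [CompactSpace S] in
theorem c1 (c : C(ℝ × ℝ, S)) (g : C(S, ℂ)) (θ : ℝ) : Continuous fun φ : ℝ => g (c (θ, φ)) := by
  fun_prop

omit [CompactSpace S] in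
theorem c2 (c : C(ℝ × ℝ, S)) (g : C(S, ℂ)) :
    Continuous fun θ : ℝ => ∫ φ in (0 : ℝ)..2 * π, g (c (θ, φ)) :=
  intervalIntegral.continuous_parametric_intervalIntegral_of_continuous'
    (f := fun θ φ => g (c (θ, φ))) (g.continuous.comp c.continuous) _ _

/-- The double integral as a continuous linear form. -/
def lam (c : C(ℝ × ℝ, S)) : C(S, ℂ) →L[ℂ] ℂ :=
  LinearMap.mkContinuous
    { toFun := fun g => ∫ θ in (0 : ℝ)..2 * π, ∫ φ in (0 : ℝ)..2 * π, g (c (θ, φ))
      map_add' := fun g h => by
        rw [← intervalIntegral.integral_add ((c2 c g).intervalIntegrable _ _)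
          ((c2 c h).intervalIntegrable _ _)]
        refine intervalIntegral.integral_congr fun θ _ => ?_
        exact intervalIntegral.integral_add ((c1 c g θ).intervalIntegrable _ _)
          ((c1 c h θ).intervalIntegrable _ _)
      map_smul' := fun a g => by
        simp only [ContinuousMap.smul_apply, intervalIntegral.integral_smul, RingHom.id_apply] }
    (|2 * π - 0| * |2 * π - 0|) fun g => by
      refine (intervalIntegral.norm_integral_le_of_norm_le_const (C := ‖g‖ * |2 * π - 0|)
        fun θ _ => intervalIntegral.norm_integral_le_of_norm_le_const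
          fun φ _ => g.norm_coe_le_norm _).trans_eq ?_
      ring

theorem lam_apply (c : C(ℝ × ℝ, S)) (g : C(S, ℂ)) :
    lam c g = ∫ θ in (0 : ℝ)..2 * π, ∫ φ in (0 : ℝ)..2 * π, g (c (θ, φ)) := rfl

omit [CompactSpace S] in
theorem inv_apply {g : C(S, ℂ)} (h : IsUnit g) (x : S) : Ring.inverse g x = (g x)⁻¹ :=
  eq_inv_of_mul_eq_one_left (congrArg (fun u : C(S, ℂ) => u x) (Ring.inverse_mul_cancel g h))

theorem cauchy {f : ℂ → ℂ} {a t : ℂ} {r : ℝ}
    (hf : ∀ z ∈ closedBall a r, DifferentiableAt ℂ f z) (ht : t ∈ ball a r) :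
    f t = ∫ θ in (0 : ℝ)..2 * π, (2 * π * I)⁻¹ * ((circleMap a r θ - a) * I) *
      (circleMap a r θ - t)⁻¹ * f (circleMap a r θ) := by
  have h := (DifferentiableOn.diffContOnCl (s := ball a r) fun z hz =>
    (hf z (closure_ball_subset_closedBall hz)).differentiableWithinAt).circleIntegral_sub_inv_smul
      ht
  rw [← inv_mul_cancel_left₀ two_pi_I_ne_zero (f t), ← smul_eq_mul (2 * π * I) (f t), ← h,
    circleIntegral, ← intervalIntegral.integral_const_mul]
  refine intervalIntegral.integral_congr fun θ _ => ?_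
  simp only [deriv_circleMap, circleMap_sub_center, smul_eq_mul]
  ring

end OsgX

open OsgX

theorem osgS : OsgStmt := by
  rintro F O hO hc hd ⟨a, b⟩ hp
  obtain ⟨r, hr, hsub⟩ := nhds_basis_closedBall.mem_iff.1 (hO.mem_nhds hp)
  rw [← closedBall_prod_same] at hsub
  let S : Type := sphere a r × sphere b r
  let c : C(ℝ × ℝ, S) := ⟨fun q => (⟨circleMap a r q.1, circleMap_mem_sphere a hr.le _⟩,
    ⟨circleMap b r q.2, circleMap_mem_sphere b hr.le _⟩),
    (((continuous_circleMap a r).comp continuous_fst).subtype_mk _).prodMk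
      (((continuous_circleMap b r).comp continuous_snd).subtype_mk _)⟩
  let X : C(S, ℂ) := ⟨fun x => x.1, continuous_subtype_val.comp continuous_fst⟩
  let Y : C(S, ℂ) := ⟨fun x => x.2, continuous_subtype_val.comp continuous_snd⟩
  let G : C(S, ℂ) := ⟨fun x => F (x.1, x.2), hc.comp_continuous
    (X.continuous.prodMk Y.continuous) fun x =>
    hsub ⟨sphere_subset_closedBall x.1.2, sphere_subset_closedBall x.2.2⟩⟩
  let W : C(S, ℂ) := ((2 * π * I)⁻¹ * I * ((2 * π * I)⁻¹ * I)) • ((X - a • 1) * (Y - b • 1) * G)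
  let h : C2 → C(S, ℂ) := fun q => (X - q.1 • 1) * (Y - q.2 • 1)
  have hu : ∀ q ∈ ball ((a, b) : C2) r, IsUnit (h q) := fun q hq => by
    rw [← ball_prod_same] at hq
    refine (ContinuousMap.isUnit_iff_forall_ne_zero _).2 fun x => mul_ne_zero ?_ ?_
    · have h1 : (x.1 : ℂ) ≠ q.1 := fun e => (mem_ball.1 hq.1).ne (e ▸ mem_sphere.1 x.1.2)
      simpa [X, sub_eq_zero] using h1
    · have h1 : (x.2 : ℂ) ≠ q.2 := fun e => (mem_ball.1 hq.2).ne (e ▸ mem_sphere.1 x.2.2)
      simpa [Y, sub_eq_zero] using h1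
  have h1 : AnalyticAt ℂ h (a, b) :=
    (analyticAt_const.sub (analyticAt_fst.smul analyticAt_const)).mul
      (analyticAt_const.sub (analyticAt_snd.smul analyticAt_const))
  have h2 : AnalyticAt ℂ (fun q => lam c (W * Ring.inverse (h q))) (a, b) :=
    ((lam c).analyticAt _).comp (analyticAt_const.mul
      ((analyticOnNhd_inverse (𝕜 := ℂ) _ (hu _ (mem_ball_self hr))).comp h1))
  refine h2.congr ?_
  filter_upwards [ball_mem_nhds ((a, b) : C2) hr] with q hq
  have h3 := hu q hq
  rw [← ball_prod_same] at hq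
  rw [lam_apply, cauchy (f := fun t => F (t, q.2))
    (fun z hz => (hd (z, q.2) (hsub ⟨hz, ball_subset_closedBall hq.2⟩)).1) hq.1]
  refine intervalIntegral.integral_congr fun θ _ => ?_
  have h4 := circleMap_mem_closedBall a hr.le θ
  rw [cauchy (f := fun w => F (circleMap a r θ, w))
    (fun z hz => (hd (_, z) (hsub ⟨h4, hz⟩)).2) hq.2, ← intervalIntegral.integral_const_mul]
  refine intervalIntegral.integral_congr fun φ _ => ?_
  simp only [ContinuousMap.mul_apply, inv_apply h3]
  simp only [W, h, X, Y, G, c, ContinuousMap.smul_apply, ContinuousMap.mul_apply,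
    ContinuousMap.sub_apply, ContinuousMap.coe_mk, ContinuousMap.one_apply, smul_eq_mul, mul_one,
    mul_inv]
  ring

end Pool.Agent.MP_c69980_ag.G3
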