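import Pool.Agent.MP_c69980_ag.G3.Amb
import Pool.Agent.MP_c69980_ag.E1.BaseC
import Pool.Agent.MP_c69980_ag.E1.Chart

/-!
Projectors, and the normal form of local charts in the space of projectors.
-/

set_option autoImplicit false

noncomputable section

namespace Pool.Agent.MP_c69980_ag.G3

open Metric Filter Topology Set
open scoped ComplexConjugate
open H60 H4 E1

namespace PrjX

variable {n : ℕ} {y w : V n}

lemma fr (a b c d : V n) : ∑ p : Fin n × Fin n, a p.1 * conj (b p.1) * (c p.2 * conj (d p.2)) =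
    ip a b * ip c d := by
  rw [Fintype.sum_prod_type, ip, ip, Finset.sum_mul_sum]

lemma frob (y0 : y ≠ 0) (w0 : w ≠ 0) : ∑ p, ‖prj y p - prj w p‖ ^ 2 = 2 * d2 y w := by
  have a : (H4.sq y : ℂ) ≠ 0 := by exact_mod_cast (H84.sq_pos' y0).ne'
  have b : (H4.sq w : ℂ) ≠ 0 := by exact_mod_cast (H84.sq_pos' w0).ne'
  have e : ∀ p : Fin n × Fin n, ((‖prj y p - prj w p‖ ^ 2 : ℝ) : ℂ) =
      y p.1 * conj (y p.1) * (y p.2 * conj (y p.2)) / (H4.sq y : ℂ) ^ 2 -
      y p.1 * conj (w p.1) * (w p.2 * conj (y p.2)) / ((H4.sq y : ℂ) * H4.sq w) -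
      w p.1 * conj (y p.1) * (y p.2 * conj (w p.2)) / ((H4.sq y : ℂ) * H4.sq w) +
      w p.1 * conj (w p.1) * (w p.2 * conj (w p.2)) / (H4.sq w : ℂ) ^ 2 := fun p => by
    rw [Complex.ofReal_pow, ← Complex.mul_conj']
    simp only [prj, map_sub, map_div₀, map_mul, Complex.conj_conj, Complex.conj_ofReal]
    field_simp
    ring
  have f : ((‖ip y w‖ ^ 2 : ℝ) : ℂ) = ip y w * ip w y := by
    rw [Complex.ofReal_pow, ← Complex.mul_conj', H84.ip_conj]
  apply Complex.ofReal_injective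
  rw [Complex.ofReal_sum, Finset.sum_congr rfl fun p _ => e p]
  simp only [Finset.sum_add_distrib, Finset.sum_sub_distrib, ← Finset.sum_div, fr, H84.ip_self]
  rw [d2, Complex.ofReal_mul, Complex.ofReal_sub, Complex.ofReal_div, f]
  push_cast
  field_simp
  ring

lemma dist_le (y0 : y ≠ 0) (w0 : w ≠ 0) : dist (prj y) (prj w) ^ 2 ≤ 2 * d2 y w := by
  rw [← frob y0 w0, ← Real.le_sqrt dist_nonneg (by positivity), dist_eq_norm,
    pi_norm_le_iff_of_nonneg (Real.sqrt_nonneg _)]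
  intro p
  rw [Real.le_sqrt (norm_nonneg _) (by positivity)]
  exact Finset.single_le_sum (f := fun p => ‖prj y p - prj w p‖ ^ 2) (fun _ _ => by positivity)
    (Finset.mem_univ p)

lemma le_dist (y0 : y ≠ 0) (w0 : w ≠ 0) :
    2 * d2 y w ≤ (n : ℝ) ^ 2 * dist (prj y) (prj w) ^ 2 := by
  rw [← frob y0 w0, dist_eq_norm]
  refine (Finset.sum_le_card_nsmul _ _ (‖prj y - prj w‖ ^ 2) fun p _ =>
    pow_le_pow_left₀ (norm_nonneg _) (norm_le_pi_norm (prj y - prj w) p) 2).trans_eq ?_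
  simp [pow_two]

lemma pe (y0 : y ≠ 0) (w0 : w ≠ 0) : prj y = prj w ↔ Pp y w := by
  rw [← d2_eq_zero y0 w0]
  refine ⟨fun h => ?_, fun h => ?_⟩
  · have := le_dist y0 w0
    have := H84.d2_nonneg y0 w0
    rw [h, dist_self] at *
    nlinarith
  · have := dist_le y0 w0
    rw [h, mul_zero] at this
    exact dist_eq_zero.1 (pow_eq_zero_iff two_ne_zero |>.1 (this.antisymm (by positivity)))

lemma pe' (h : Pp y w) (w0 : w ≠ 0) : prj y = prj w := (pe (h.ne w0) w0).2 h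

lemma pc (y0 : y ≠ 0) : ContinuousAt prj y := by
  refine continuousAt_pi.2 fun p => ContinuousAt.div (by fun_prop) ?_ ?_
  · exact (Complex.continuous_ofReal.comp sq_cont).continuousAt
  · exact_mod_cast (H84.sq_pos' y0).ne'

/-- Apply a matrix to `y`. -/
def ell (y : V n) (P : Wg n) : V n := fun i => ∑ k, P (i, k) * y k

lemma ell_an (y : V n) (P : Wg n) : AnalyticAt ℂ (ell y) P :=
  analyticAt_pi_iff.2 fun i => Finset.analyticAt_fun_sum _ fun k _ =>
    ((ContinuousLinearMap.proj (R := ℂ) (φ := fun _ : Fin n × Fin n => ℂ) (i, k)).analyticAt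
      P).mul analyticAt_const

lemma ell_prj (y w : V n) : ell y (prj w) = (ip y w / H4.sq w) • w := by
  funext i
  simp only [ell, prj, ip, Pi.smul_apply, smul_eq_mul, Finset.sum_div, Finset.sum_mul]
  exact Finset.sum_congr rfl fun k _ => by ring

lemma ell_self (y0 : y ≠ 0) : ell y (prj y) = y := by
  have a : (H4.sq y : ℂ) ≠ 0 := by exact_mod_cast (H84.sq_pos' y0).ne'
  rw [ell_prj, H84.ip_self, div_self a, one_smul]

/-- Points of the image near a given one have nearby representatives. -/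
lemma near {X : Set (Pt n)} (hX : Cn X) {t : ℂ} (y0 : y ≠ 0) {P : Pt n → Prop}
    (h : ∀ᶠ x in 𝓝 ((t, y) : Pt n), P x) : ∀ᶠ x in 𝓝 ((t, prj y) : ℂ × Wg n), x ∈ Im X →
      ∃ w, (x.1, w) ∈ X ∧ x.2 = prj w ∧ P (x.1, w) := by
  have c : Tendsto (fun x : ℂ × Wg n => ((x.1, ell y x.2) : Pt n)) (𝓝 (t, prj y)) (𝓝 (t, y)) := by
    have := (continuousAt_fst (p := ((t, prj y) : ℂ × Wg n))).prodMk
      ((ell_an y (prj y)).continuousAt.comp_of_eq (continuousAt_snd (p := (t, prj y))) rfl)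
    simpa [ContinuousAt, ell_self y0] using this
  filter_upwards [c.eventually h, c.eventually ((continuousAt_snd (p := (t, y))).eventually_ne y0)]
  rintro _ a b ⟨⟨s, v⟩, hv, rfl⟩
  have e : Pp (ell y (prj v)) v := by
    refine ⟨_, fun q => b ?_, ell_prj y v⟩
    simp only [ell_prj, q, zero_smul]
  exact ⟨_, hX.pp hv e, (pe' e (hX.nz _ hv)).symm, a⟩

/-! ### Calculus in the second variable -/

section calc2

variable {E : Type} [NormedAddCommGroup E] [NormedSpace ℂ E] {φ : C2 → ℂ} {p : C2}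

lemma psi_an (h : AnalyticAt ℂ φ p) : AnalyticAt ℂ (fun q : C2 => (q.1, φ q)) p :=
  analyticAt_fst.prod h

lemma psi_t (h : AnalyticAt ℂ φ p) : Tendsto (fun q : C2 => (q.1, φ q)) (𝓝 p) (𝓝 (p.1, φ p)) :=
  (psi_an h).continuousAt

lemma fd_psi (h : AnalyticAt ℂ φ p) (v : C2) :
    fderiv ℂ (fun q : C2 => (q.1, φ q)) p v = (v.1, fderiv ℂ φ p v) := by
  rw [(hasFDerivAt_fst.prodMk h.differentiableAt.hasFDerivAt).fderiv]
  rfl

lemma fd_comp {G : C2 → E} (hG : AnalyticAt ℂ G (p.1, φ p)) (h : AnalyticAt ℂ φ p) :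
    fderiv ℂ (fun q : C2 => G (q.1, φ q)) p (0, 1) = dw φ p • fderiv ℂ G (p.1, φ p) (0, 1) := by
  rw [fderiv_fun_comp (g := G) (f := fun q : C2 => (q.1, φ q)) p hG.differentiableAt
    (psi_an h).differentiableAt, ContinuousLinearMap.comp_apply, fd_psi h, ← map_smul]
  simp [dw]

lemma dw_comp {G : C2 → ℂ} (hG : AnalyticAt ℂ G (p.1, φ p)) (h : AnalyticAt ℂ φ p) :
    dw (fun q : C2 => G (q.1, φ q)) p = dw φ p * dw G (p.1, φ p) := fd_comp hG h

lemma dw_an (h : AnalyticAt ℂ φ p) : AnalyticAt ℂ (dw φ) p :=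
  ((ContinuousLinearMap.apply ℂ ℂ ((0, 1) : ℂ × ℂ)).analyticAt _).comp h.fderiv

lemma dw_congr {φ' : C2 → ℂ} (h : φ =ᶠ[𝓝 p] φ') : dw φ p = dw φ' p := by
  rw [dw, dw, h.fderiv_eq]

lemma hasDerivAt_dw {t z : ℂ} (h : AnalyticAt ℂ φ (t, z)) :
    HasDerivAt (fun w => φ (t, w)) (dw φ (t, z)) z :=
  h.differentiableAt.hasFDerivAt.comp_hasDerivAt z
    ((hasDerivAt_const z t).prodMk (hasDerivAt_id z))

/-- The inverse function theorem along the fibres. -/
lemma inv (h : AnalyticAt ℂ φ p) (h0 : dw φ p ≠ 0) : ∃ χ : C2 → ℂ, AnalyticAt ℂ χ (p.1, φ p) ∧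
    (∀ᶠ q in 𝓝 p, χ (q.1, φ q) = q.2) ∧ ∀ᶠ q in 𝓝 ((p.1, φ p) : C2), φ (q.1, χ q) = q.2 := by
  obtain ⟨χ, c1, c2, c3⟩ := ChartAux.ift (psi_an h) fun v hv => by
    obtain ⟨α, β⟩ := v
    rw [fd_psi h, Prod.mk_eq_zero] at hv
    obtain ⟨rfl, hv⟩ : α = 0 ∧ _ := hv
    rw [fd_apply, zero_smul, zero_add, smul_eq_mul] at hv
    rw [(mul_eq_zero.1 hv).resolve_right h0]
    rfl
  refine ⟨fun q => (χ q).2, analyticAt_snd.comp c1, c2.mono fun q e => congrArg Prod.snd e,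
    c3.mono fun q e => ?_⟩
  exact (congrArg (fun s => φ (s, (χ q).2)) (congrArg Prod.fst e).symm).trans (congrArg Prod.snd e)

end calc2

end PrjX

theorem prjS : PrjStmt := fun _ => ⟨fun _ _ => PrjX.pe, fun _ => PrjX.pc,
  fun _ _ y0 w0 => ⟨PrjX.dist_le y0 w0, PrjX.le_dist y0 w0⟩, fun y y0 =>
    ⟨PrjX.ell y, PrjX.ell_an y _, PrjX.ell_self y0, fun w _ => ⟨_, PrjX.ell_prj y w⟩⟩⟩

end Pool.Agent.MP_c69980_ag.G3
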