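import Pool.Agent.MP_c69980_ag.G3.SpecI
import Pool.Agent.MP_c69980_ag.G3.Glue
import Pool.Agent.MP_c69980_ag.G3.MergeA

/-!
Change of the coordinate of one edge.
-/

set_option autoImplicit false

noncomputable section

namespace Pool.Agent.MP_c69980_ag.G3

open Metric Filter Topology Set

namespace RecoX

open GlueX MergeX

variable {M : Type} [MetricSpace M] {A : Amb M} {E E' F F' Y P P' P'' Q : C2 → M} {c c' : ℂ → ℂ}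
  {Ψ χ : ℂ → ℂ} {L : ℂ} {δ C D r r' ρ₀ : ℝ} {κ : Kd} {l : Filter ℂ} {K K' : Set ℂ}

/-- A germ of a biholomorphic map with its inverse. -/
structure Lc (Ψ χ : ℂ → ℂ) (L : ℂ) (δ C : ℝ) : Prop where
  δ0 : 0 < δ
  C1 : 1 ≤ C
  L0 : L ≠ 0
  z : Ψ 0 = 0
  hd : HasDerivAt Ψ L 0
  Lu : ‖L‖ ≤ C
  Ll : ‖L‖⁻¹ ≤ C
  an : ∀ b, ‖b‖ ≤ δ → AnalyticAt ℂ Ψ b ∧ deriv Ψ b ≠ 0 ∧ χ (Ψ b) = b ∧ Ψ (χ b) = b
  lip : ∀ b b', ‖b‖ ≤ δ → ‖b'‖ ≤ δ →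
    ‖Ψ b - Ψ b'‖ ≤ C * ‖b - b'‖ ∧ ‖χ b - χ b'‖ ≤ C * ‖b - b'‖

lemma ex_lc (h : AnalyticAt ℂ Ψ 0) (z : Ψ 0 = 0) (h0 : deriv Ψ 0 ≠ 0) :
    ∃ χ δ C, Lc Ψ χ (deriv Ψ 0) δ C := by
  have hs := h.hasStrictDerivAt
  obtain ⟨K₁, s₁, m₁, l₁⟩ := hs.hasStrictFDerivAt.exists_lipschitzOnWith
  obtain ⟨K₂, s₂, m₂, l₂⟩ := (hs.to_localInverse h0).hasStrictFDerivAt.exists_lipschitzOnWith
  have e := hs.eventually_right_inverse h0
  rw [z] at m₂ e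
  obtain ⟨δ, δ0, hδ⟩ := nhds_basis_closedBall.eventually_iff.1 (h.eventually_analyticAt.and
    ((h.deriv.continuousAt.eventually_ne h0).and ((hs.eventually_left_inverse h0).and (e.and
      ((show ∀ᶠ b in 𝓝 0, b ∈ s₁ from m₁).and (show ∀ᶠ b in 𝓝 0, b ∈ s₂ from m₂))))))
  simp only [mem_closedBall_zero_iff] at hδ
  have p1 := K₁.coe_nonneg
  have p2 := K₂.coe_nonneg
  have p3 := norm_nonneg (deriv Ψ 0)
  have p4 := inv_nonneg.2 p3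
  refine ⟨_, δ, 1 + K₁ + K₂ + ‖deriv Ψ 0‖ + ‖deriv Ψ 0‖⁻¹, δ0, by linarith, h0, z, hs.hasDerivAt,
    by linarith, by linarith, fun b hb => ⟨(hδ hb).1, (hδ hb).2.1, (hδ hb).2.2.1, (hδ hb).2.2.2.1⟩,
    fun b b' hb hb' => ⟨?_, ?_⟩⟩
  · exact (l₁.norm_sub_le (hδ hb).2.2.2.2.1 (hδ hb').2.2.2.2.1).trans
      (mul_le_mul_of_nonneg_right (by linarith) (norm_nonneg _))
  · exact (l₂.norm_sub_le (hδ hb).2.2.2.2.2 (hδ hb').2.2.2.2.2).trans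
      (mul_le_mul_of_nonneg_right (by linarith) (norm_nonneg _))

lemma Lc.bd (h : Lc Ψ χ L δ C) {b : ℂ} (hb : C * ‖b‖ ≤ δ) : ‖b‖ ≤ δ ∧
    (‖Ψ b‖ ≤ C * ‖b‖ ∧ ‖b‖ ≤ C * ‖Ψ b‖) ∧ ‖χ b‖ ≤ C * ‖b‖ ∧ ‖b‖ ≤ C * ‖χ b‖ := by
  have h0 : ‖(0 : ℂ)‖ ≤ δ := norm_zero.trans_le h.δ0.le
  have z' : χ 0 = 0 := by simpa [h.z] using (h.an 0 h0).2.2.1
  have k : ∀ b, ‖b‖ ≤ δ → ‖Ψ b‖ ≤ C * ‖b‖ ∧ ‖χ b‖ ≤ C * ‖b‖ := fun b hb => by
    simpa [h.z, z'] using h.lip b 0 hb h0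
  have h1 : ‖b‖ ≤ δ := (le_mul_of_one_le_left (norm_nonneg _) h.C1).trans hb
  have k1 := (k _ ((k b h1).1.trans hb)).2
  have k2 := (k _ ((k b h1).2.trans hb)).1
  rw [(h.an b h1).2.2.1] at k1
  rw [(h.an b h1).2.2.2] at k2
  exact ⟨h1, ⟨(k b h1).1, k1⟩, (k b h1).2, k2⟩

lemma de_mono {x b : ℂ} {ρ ρ' : ℝ} (h : b ∈ De κ x ρ) (hρ : ρ ≤ ρ') : b ∈ De κ x ρ' :=
  ⟨h.1.trans hρ, fun k => (h.2 k).trans (mul_le_mul_of_nonneg_right hρ (norm_nonneg _))⟩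

lemma de_map {x x' b b' : ℂ} {ρ : ℝ} (h : b ∈ De κ x ρ) (C1 : 1 ≤ C)
    (h1 : ‖b'‖ ≤ C * ‖b‖ ∧ ‖b‖ ≤ C * ‖b'‖) (h3 : ‖x'‖ ≤ C * ‖x‖) : b' ∈ De κ x' (C ^ 2 * ρ) := by
  have ρ0 : 0 ≤ ρ := (norm_nonneg _).trans h.1
  have C0 : 0 ≤ C := zero_le_one.trans C1
  refine ⟨h1.1.trans (mul_le_mul (by nlinarith) h.1 (norm_nonneg _) (by positivity)), fun k => ?_⟩
  calc ‖x'‖ ≤ C * (ρ * (C * ‖b'‖)) := h3.trans (mul_le_mul_of_nonneg_left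
        ((h.2 k).trans (mul_le_mul_of_nonneg_left h1.2 ρ0)) C0)
    _ = _ := by ring

lemma de_flip {x b : ℂ} {ρ : ℝ} (h : b ∈ De .neck x ρ) (x0 : x ≠ 0) :
    b ≠ 0 ∧ x / b ∈ De .neck x ρ := by
  have p := norm_pos_iff.2 x0
  have b0 : 0 < ‖b‖ := pos_of_mul_pos_right (p.trans_le (h.2 rfl)) ((norm_nonneg _).trans h.1)
  refine ⟨norm_pos_iff.1 b0, ?_, fun _ => ?_⟩ <;> rw [norm_div]
  · exact (div_le_iff₀ b0).2 (h.2 rfl)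
  · rw [← mul_div_assoc, le_div_iff₀ b0, mul_comm]
    exact mul_le_mul_of_nonneg_right h.1 p.le

/-- The deep part of `E'` lies in the deep part of `E`. -/
def Sub (l : Filter ℂ) (κ : Kd) (E : C2 → M) (c : ℂ → ℂ) (E' : C2 → M) (c' : ℂ → ℂ) (D δ : ℝ) :
    Prop :=
  ∀ᶠ t in l, ∀ ρ ≤ δ, ∀ b ∈ De κ (c' t) ρ, ∃ b₀ ∈ De κ (c t) (D * ρ), E' (t, b) = E (t, b₀)

omit [MetricSpace M] in
lemma sub_rfl (h : 1 ≤ D) : Sub l κ E c E c D δ := .of_forall fun _ _ _ b hb =>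
  ⟨b, de_mono hb (le_mul_of_one_le_left ((norm_nonneg _).trans hb.1) h), rfl⟩

omit [MetricSpace M] in
lemma Lc.fw (h : Lc Ψ χ L δ C) (hr : C * r' ≤ δ) :
    Sub l κ E c (fun q => E (q.1, Ψ q.2)) (fun t => c t / L) (C ^ 2) r' :=
  .of_forall fun t ρ hρ b hb => by
    have C0 : 0 ≤ C := zero_le_one.trans h.C1
    refine ⟨_, de_map hb h.C1 (h.bd ((mul_le_mul_of_nonneg_left (hb.1.trans hρ) C0).trans
      hr)).2.1 ?_, rfl⟩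
    rw [norm_div, ← mul_div_assoc, le_div_iff₀ (norm_pos_iff.2 h.L0), mul_comm]
    exact mul_le_mul_of_nonneg_right h.Lu (norm_nonneg _)

omit [MetricSpace M] in
lemma Lc.bw (h : Lc Ψ χ L δ C) (hr : C * r' ≤ δ) :
    Sub l κ (fun q => E (q.1, Ψ q.2)) (fun t => c t / L) E c (C ^ 2) r' :=
  .of_forall fun t ρ hρ b hb => by
    have C0 : 0 ≤ C := zero_le_one.trans h.C1
    have k := h.bd ((mul_le_mul_of_nonneg_left (hb.1.trans hρ) C0).trans hr)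
    refine ⟨χ b, de_map hb h.C1 k.2.2 ?_, by simp only [(h.an b k.1).2.2.2]⟩
    rw [norm_div, div_eq_inv_mul]
    exact mul_le_mul_of_nonneg_right h.Ll (norm_nonneg _)

omit [MetricSpace M] in
lemma Sub.flip (h : Sub l .neck E c E' c' D δ) (h0 : ∀ᶠ t in l, c t ≠ 0 ∧ c' t ≠ 0)
    (hF : ∀ᶠ t in l, ∀ b, F (t, b) = E (t, c t / b))
    (hF' : ∀ᶠ t in l, ∀ b, F' (t, b) = E' (t, c' t / b)) : Sub l .neck F c F' c' D δ := by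
  filter_upwards [h, h0, hF, hF'] with t h1 h2 h3 h4 ρ hρ b hb
  obtain ⟨b₀, k1, k2⟩ := h1 ρ hρ _ (de_flip hb h2.2).2
  exact ⟨_, (de_flip k1 h2.1).2, by rw [h4, h3, div_div_cancel₀ h2.1, k2]⟩

lemma Sub.dp (h : Sub A.l κ E c E' c' D δ) (D0 : 0 < D) (δ0 : 0 < δ) {u : Ultrafilter (ℂ × M)}
    (hu : A.Out u) (hd : Dp κ E' c' u) : Dp κ E c u := fun ρ ρ0 => by
  filter_upwards [hd _ (lt_min δ0 (div_pos ρ0 D0)), hu.1.eventually h] with x ⟨b, h1, h2⟩ h3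
  obtain ⟨b₀, k1, k2⟩ := h3 _ (min_le_left _ _) b h1
  exact ⟨b₀, de_mono k1 ((le_div_iff₀' D0).1 (min_le_right _ _)), h2.trans k2⟩

omit [MetricSpace M] in
lemma mt_trans {η : ℝ} (h : Mt l Y P id K) (h' : Mt l P Q id K') (η0 : 0 < η)
    (hK : ∀ ξ ∈ K, ∀ w, ‖w - ξ‖ ≤ η → w ∈ K') : Mt l Y Q id K := fun ε hε => by
  filter_upwards [h _ (lt_min η0 (half_pos hε)), h' _ (half_pos hε)] with t h1 h2 ξ hξ
  obtain ⟨w, k1, k2⟩ := h1 ξ hξ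
  rw [lt_min_iff, id] at k1
  obtain ⟨v, k3, k4⟩ := h2 w (hK ξ hξ w k1.1.le)
  refine ⟨v, ?_, k2.trans k4⟩
  rw [id] at k3 ⊢
  linarith [norm_sub_le_norm_sub_add_norm_sub v w ξ, k1.2]

omit [MetricSpace M] in
lemma Lc.pull (h : Lc Ψ χ L δ C) (m : Mt l Y P Ψ K) (hK : ∀ ξ ∈ K, 2 * (C * ‖ξ‖) ≤ δ) :
    Mt l Y (fun q => P (q.1, Ψ q.2)) id K := fun ε hε => by
  have C0 : 0 < C := one_pos.trans_le h.C1
  filter_upwards [m _ (lt_min (half_pos h.δ0) (div_pos hε C0))] with t h1 ξ hξ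
  obtain ⟨w, k1, k2⟩ := h1 ξ hξ
  rw [lt_min_iff, lt_div_iff₀' C0] at k1
  have k3 := hK ξ hξ
  have k4 := h.bd (b := ξ) (by linarith [h.δ0])
  have k5 : ‖w‖ ≤ δ := by linarith [(nb k1.1.le).2, k4.2.1.1]
  have k6 := (h.lip w (Ψ ξ) k5 (by linarith [k4.2.1.1, h.δ0])).2
  rw [(h.an ξ k4.1).2.2.1] at k6
  exact ⟨χ w, k6.trans_lt k1.2, by simp only [(h.an w k5).2.2.2, k2]⟩

lemma mono (hE : IsE A κ E c r P P') (h : r' ≤ r) (hP : κ = .neck → P'' = P') :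
    IsE A κ E c r' P P'' :=
  ⟨fun s hs => hE.lc s (hs.trans_le h), fun r₁ s h1 hs => hE.out r₁ s h1 (hs.trans_le h), hE.cc,
    fun k r₁ s h1 hs => hP k ▸ hE.inn k r₁ s h1 (hs.trans_le h)⟩

lemma flip (hE : IsE A .neck E c r P P') :
    IsE A .neck (fun q => E (q.1, c q.1 / q.2)) c r P' P := by
  refine ⟨fun s hs => ?_, hE.inn rfl, hE.cc, fun _ r₁ s h1 hs ε hε => ?_⟩
  · filter_upwards [hE.lc s hs, c_ne hE rfl] with t h1 h2 b hb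
    obtain ⟨b0, k⟩ := de_flip hb h2.2
    refine ⟨?_, by simpa using (h1 _ k).2.1, fun b' hb' e => ?_⟩
    · have ha : AnalyticAt ℂ (fun q : C2 => c q.1 / q.2) (t, b) :=
        (AnalyticAt.comp_of_eq h2.1 analyticAt_fst rfl).div analyticAt_snd b0
      refine (A.comp E _ (t, b) _ (h1 _ k).1 ha ?_ (.of_forall fun _ => rfl)).1
      rw [(dw_at ha).unique ((hasDerivAt_inv b0).const_mul (c t))]
      exact mul_ne_zero h2.2 (neg_ne_zero.2 (inv_ne_zero (pow_ne_zero _ b0)))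
    · have := (h1 _ k).2.2 _ (de_flip hb' h2.2).2 e
      rw [← div_div_cancel₀ (b := b) h2.2, this, div_div_cancel₀ h2.2]
  · filter_upwards [hE.out r₁ s h1 hs ε hε, c_ne hE rfl] with t k1 k2 ξ hξ
    simpa only [div_div_cancel₀ k2.2] using k1 ξ hξ

lemma Lc.an_mem (h : Lc Ψ χ L δ C) (h2 : 2 * (C * r') ≤ δ) {x : ℝ} {ξ : ℂ} (hξ : ξ ∈ An x r') :
    C * ‖ξ‖ ≤ C * r' ∧ ‖ξ‖ ≤ δ ∧ Ψ ξ ∈ An (x / C) (C * r') := by
  have C0 : 0 < C := one_pos.trans_le h.C1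
  have k := mul_le_mul_of_nonneg_left hξ.2 C0.le
  have k' := h.bd (b := ξ) (by linarith [h.δ0])
  exact ⟨k, k'.1, (div_le_iff₀' C0).2 (hξ.1.trans k'.2.1.2), k'.2.1.1.trans k⟩

lemma Lc.out (h : Lc Ψ χ L δ C) (hs : SymStmt) (hE : IsE A κ E c r P P') (h1 : C * r' < r)
    (h2 : 2 * (C * r') ≤ δ) (h3 : r' ≤ ρ₀)
    (hQ : ∀ ρ, 0 < ρ → Mt A.l Q P Ψ (An ρ ρ₀) ∧ ∀ᶠ t in A.l, ∀ ξ ∈ An ρ ρ₀, A.LC Q (t, ξ))
    (hP : ∀ ρ r', 0 < ρ → r' < r → Ch A P (An ρ r')) {r₁ s : ℝ} (r0 : 0 < r₁) (sr : s < r') :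
    Mt A.l (fun q => E (q.1, Ψ q.2)) Q id (An r₁ s) := by
  have C0 : 0 < C := one_pos.trans_le h.C1
  have hK : ∀ x, ∀ ξ ∈ An x r', 2 * (C * ‖ξ‖) ≤ δ := fun x ξ hξ => by
    linarith [(h.an_mem h2 hξ).1]
  have m1 : Mt A.l (fun q => E (q.1, Ψ q.2)) P Ψ (An r₁ r') := fun ε hε =>
    (hE.out (r₁ / C) _ (by positivity) h1 ε hε).mono fun t ht ξ hξ => ht _ (h.an_mem h2 hξ).2.2
  have sub : An (r₁ / 4) r' ⊆ An (r₁ / 4) ρ₀ := fun ξ hξ => ⟨hξ.1, hξ.2.trans h3⟩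
  have m2 : Mt A.l Q P Ψ (An (r₁ / 4) r') := fun ε hε =>
    ((hQ _ (by positivity)).1 ε hε).mono fun t ht ξ hξ => ht ξ (sub hξ)
  have m3 := hs M A Q _ (r₁ / 4) (r₁ / 2) ((s + r') / 2) r' (by positivity) (by linarith)
    (by linarith) (h.pull m2 (hK _)) ((hQ _ (by positivity)).2.mono fun t ht ξ hξ => ht ξ (sub hξ))
    ((hP (r₁ / 4 / C) _ (by positivity) h1).mono fun t ht w hw => by
      obtain ⟨-, k1, k2⟩ := h.an_mem h2 hw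
      refine ⟨comp1 (ht _ k2).1 (h.an w k1).1 (h.an w k1).2.1, fun w' hw' e => ?_⟩
      obtain ⟨-, k3, k4⟩ := h.an_mem h2 hw'
      rw [← (h.an w k1).2.2.1, (ht _ k2).2 _ k4 e, (h.an w' k3).2.2.1])
  refine mt_trans (mt_mono (h.pull m1 (hK _)) fun ξ hξ => ⟨hξ.1, hξ.2.trans sr.le⟩) m3
    (lt_min (half_pos r0) (half_pos (sub_pos.2 sr))) fun ξ hξ w hw => ?_
  have k := nb hw
  exact ⟨by linarith [k.1, hξ.1, min_le_left (r₁ / 2) ((r' - s) / 2)],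
    by linarith [k.2, hξ.2, min_le_right (r₁ / 2) ((r' - s) / 2)]⟩

lemma Lc.inn (h : Lc Ψ χ L δ C) (hE : IsE A κ E c r P P') (k : κ = .neck) {r₁ s : ℝ}
    (r0 : 0 < r₁) : Mt A.l (fun q => E (q.1, Ψ (c q.1 / L / q.2)))
      (fun q => E (q.1, c q.1 / q.2)) id (An r₁ s) := fun ε hε => by
  have C0 : 0 < C := one_pos.trans_le h.C1
  have s0 : 0 < |s| + 1 := by positivity
  have e := (h.hd.isLittleO.def (show 0 < ε / ((|s| + 1) * C) by positivity)).and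
    (((continuous_const (y := C)).mul continuous_norm).continuousAt.eventually
      (ge_mem_nhds (show C * ‖(0 : ℂ)‖ < δ by simpa using h.δ0)))
  obtain ⟨η, η0, hη⟩ := nhds_basis_closedBall.eventually_iff.1 e
  filter_upwards [c_ne hE k, small hE (show 0 < η * r₁ / C by positivity)] with t h1 h2 ξ hξ
  have p : 0 < ‖ξ‖ := r0.trans_le hξ.1
  have ξ0 := norm_pos_iff.1 p
  have b0 : c t / L / ξ ≠ 0 := div_ne_zero (div_ne_zero h1.2 h.L0) ξ0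
  have eb : c t = L * (c t / L / ξ) * ξ := by
    have := h.L0
    field_simp
  have hb : ‖c t / L / ξ‖ ≤ η := by
    have := h2 k
    rw [lt_div_iff₀' C0] at this
    rw [norm_div, div_le_iff₀ p, norm_div, div_eq_inv_mul]
    exact (mul_le_mul_of_nonneg_right h.Ll (norm_nonneg _)).trans
      (this.le.trans (mul_le_mul_of_nonneg_left hξ.1 η0.le))
  generalize c t / L / ξ = b at b0 eb hb ⊢
  obtain ⟨k1, k2⟩ := hη (mem_closedBall_zero_iff.2 hb)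
  have k3 := (h.bd k2).2.1.2
  have q0 : 0 < ‖Ψ b‖ := pos_of_mul_pos_right ((norm_pos_iff.2 b0).trans_le k3) C0.le
  refine ⟨c t / Ψ b, ?_, by simp only [div_div_cancel₀ h1.2]⟩
  rw [h.z, sub_zero, sub_zero, smul_eq_mul, div_mul_eq_mul_div, le_div_iff₀ (by positivity)] at k1
  have e1 : c t / Ψ b - ξ = -(ξ * (Ψ b - b * L)) / Ψ b := by
    have := norm_pos_iff.1 q0
    rw [eb]
    field_simp
    ring
  rw [id, e1, norm_div, norm_neg, norm_mul, div_lt_iff₀ q0]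
  have k4 : ‖ξ‖ ≤ |s| := hξ.2.trans (le_abs_self s)
  have k5 := mul_le_mul_of_nonneg_left k3 hε.le
  have k6 : ‖Ψ b - b * L‖ * (|s| + 1) ≤ ε * ‖Ψ b‖ :=
    le_of_mul_le_mul_right (by linarith) C0
  have k7 := mul_pos hε q0
  rcases (norm_nonneg (Ψ b - b * L)).eq_or_lt with z | z
  · rw [← z, mul_zero]
    exact k7
  · nlinarith

/-- The edge in the new coordinate. -/
lemma Lc.ise (h : Lc Ψ χ L δ C) (hs : SymStmt) (hE : IsE A κ E c r P P') (r0 : 0 < r')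
    (h1 : C ^ 2 * r' < r) (h2 : 2 * (C * r') ≤ δ) (h3 : r' ≤ ρ₀)
    (hQ : ∀ ρ, 0 < ρ → Mt A.l Q P Ψ (An ρ ρ₀) ∧ ∀ᶠ t in A.l, ∀ ξ ∈ An ρ ρ₀, A.LC Q (t, ξ))
    (hP : ∀ ρ r', 0 < ρ → r' < r → Ch A P (An ρ r')) :
    IsE A κ (fun q => E (q.1, Ψ q.2)) (fun t => c t / L) r' Q P' := by
  have C0 : 0 < C := one_pos.trans_le h.C1
  have a1 : r' ≤ C * r' := le_mul_of_one_le_left r0.le h.C1
  have a2 : C * r' < r := lt_of_le_of_lt (by nlinarith) h1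
  refine ⟨fun s hs => ?_, fun r₁ s => h.out hs hE a2 h2 h3 hQ hP, fun k => ⟨?_, ?_⟩,
    fun k r₁ s p sr => ?_⟩
  · filter_upwards [hE.lc _ h1] with t ht
    have k : ∀ b ∈ De κ (c t / L) s, C * ‖b‖ ≤ δ ∧ Ψ b ∈ De κ (c t) (C ^ 2 * r') := fun b hb => by
      have k1 : C * ‖b‖ ≤ δ := by
        linarith [mul_le_mul_of_nonneg_left (hb.1.trans hs.le) C0.le, h.δ0]
      refine ⟨k1, de_map (de_mono hb hs.le) h.C1 (h.bd k1).2.1 ?_⟩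
      rw [norm_div, ← mul_div_assoc, le_div_iff₀ (norm_pos_iff.2 h.L0), mul_comm]
      exact mul_le_mul_of_nonneg_right h.Lu (norm_nonneg _)
    intro b hb
    obtain ⟨k1, k2⟩ := k b hb
    have k3 := h.an b (h.bd k1).1
    refine ⟨comp1 (ht _ k2).1 k3.1 k3.2.1, (ht _ k2).2.1.trans (imp_congr_right fun _ =>
      not_congr ⟨fun e => ?_, fun e => by rw [e, h.z]⟩), fun b' hb' e => ?_⟩
    · simpa [e] using (h.bd k1).2.1.2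
    · rw [← k3.2.2.1, (ht _ k2).2.2 _ (k b' hb').2 e, (h.an b' (h.bd (k b' hb').1).1).2.2.1]
  · simpa using (hE.cc k).1.div_const L
  · obtain ⟨K, hK⟩ := (hE.cc k).2
    refine ⟨K + 1, ?_⟩
    filter_upwards [hK, (tendsto_comap (f := A.dp)).eventually (eventually_ge_atTop ‖L‖)]
      with t k1 k2
    refine ⟨k1.1.div_const, ?_⟩
    rw [norm_div, le_div_iff₀ (norm_pos_iff.2 h.L0)]
    refine (mul_le_mul_of_nonneg_left (k2.trans ((le_add_of_nonneg_right zero_le_one).trans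
      (Real.add_one_le_exp _))) (Real.exp_pos _).le).trans (le_of_eq_of_le ?_ k1.2)
    rw [← Real.exp_add]
    congr 1
    ring
  · refine mt_trans (h.inn hE k p) (hE.inn k (r₁ / 2) r' (half_pos p) (a1.trans_lt a2))
      (lt_min (half_pos p) (sub_pos.2 sr)) fun ξ hξ w hw => ?_
    have k := nb hw
    exact ⟨by linarith [k.1, hξ.1, min_le_left (r₁ / 2) (r' - s)],
      by linarith [k.2, hξ.2, min_le_right (r₁ / 2) (r' - s)]⟩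

end RecoX

end Pool.Agent.MP_c69980_ag.G3
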