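import Pool.Agent.MP_c69980_ag.G3.SpecI

/-!
Selection of a Brody sequence.
-/

set_option autoImplicit false

noncomputable section

namespace Pool.Agent.MP_c69980_ag.G3

open Metric Filter Topology Set

namespace SelX

/-- The selection of a point where `σ` is almost maximal. -/
lemma zal {X : Type} (pt : X → ℂ) (σ : X → ℝ) (t : ℂ) {ρ C B : ℝ} (hB0 : 0 < B)
    (hC : ∀ x, ‖pt x - t‖ ≤ ρ → σ x ≤ C) (x₀ : X) (h0 : pt x₀ = t) (hρ : 0 < ρ)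
    (hB : B < σ x₀ * ρ) : ∃ x, 0 < σ x ∧ ‖pt x - t‖ < ρ ∧
      2 / 3 * B < σ x * (ρ - ‖pt x - t‖) ∧
      ∀ y, ‖pt y - pt x‖ ≤ (ρ - ‖pt x - t‖) / 4 → σ y ≤ 2 * σ x := by
  set T : Set ℝ := {v | ∃ x, ‖pt x - t‖ ≤ ρ ∧ v = σ x * (ρ - ‖pt x - t‖)} with hT
  have hb : BddAbove T := ⟨|C| * ρ, by
    rintro _ ⟨x, hx, rfl⟩
    exact mul_le_mul ((hC x hx).trans (le_abs_self C)) (sub_le_self _ (norm_nonneg _))
      (sub_nonneg.2 hx) (abs_nonneg C)⟩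
  have h1 : σ x₀ * ρ ∈ T := ⟨x₀, by simp [h0, hρ.le], by simp [h0]⟩
  have h2 := le_csSup hb h1
  obtain ⟨_, ⟨x, hx, rfl⟩, h3⟩ := exists_lt_of_lt_csSup ⟨_, h1⟩
    (show 2 / 3 * sSup T < sSup T by linarith)
  have h4 : 0 < σ x * (ρ - ‖pt x - t‖) := by linarith
  have h5 : 0 < ρ - ‖pt x - t‖ :=
    (sub_nonneg.2 hx).lt_of_ne fun e => by rw [← e, mul_zero] at h4; exact h4.false
  have h6 : 0 < σ x := (mul_pos_iff_of_pos_right h5).1 h4
  refine ⟨x, h6, by linarith, by linarith, fun y hy => ?_⟩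
  have h7 : ‖pt y - t‖ ≤ ‖pt y - pt x‖ + ‖pt x - t‖ := norm_sub_le_norm_sub_add_norm_sub _ _ _
  have h8 := le_csSup hb (⟨y, by linarith, rfl⟩ : σ y * (ρ - ‖pt y - t‖) ∈ T)
  by_contra hn
  have h9 : 2 * σ x * (3 / 4 * (ρ - ‖pt x - t‖)) ≤ σ y * (ρ - ‖pt y - t‖) :=
    mul_le_mul (not_le.1 hn).le (by linarith) (by positivity) (by linarith [not_le.1 hn])
  linarith

variable {M : Type} [MetricSpace M] {A : Amb M}

lemma dp_le (z t : ℂ) : A.dp t - ‖z - t‖ ≤ A.dp z := by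
  have h := abs_le.1 (Complex.abs_re_le_norm (z - t))
  rw [Complex.sub_re] at h
  rcases A.hσ with e | e <;> simp only [Amb.dp, e] <;> linarith [h.1, h.2]

/-- Lifts to a chart are locally unique. -/
lemma uniq {s : ℂ → M} {Y : C2 → M} {z₀ w₀ : ℂ} (hs : A.HS s z₀) (hY : A.LC Y (z₀, w₀)) :
    ∃ C : ℝ, ∀ᶠ p in 𝓝 ((z₀, w₀) : C2), ∀ ω : ℂ → ℂ, AnalyticAt ℂ ω p.1 → ω p.1 = p.2 →
      (∀ᶠ t in 𝓝 p.1, s t = Y (t, ω t)) → ‖deriv ω p.1‖ ≤ C := by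
  have f : Tendsto Prod.fst (𝓝 ((z₀, w₀) : C2)) (𝓝 z₀) := continuous_fst.continuousAt
  by_cases h : s z₀ = Y (z₀, w₀)
  · obtain ⟨ω₀, a0, e0, h0⟩ := A.lift s Y z₀ w₀ hs hY h
    have c0 : Tendsto (fun p : C2 => (p, ω₀ p.1)) (𝓝 (z₀, w₀)) (𝓝 ((z₀, w₀), w₀)) :=
      tendsto_id.prodMk_nhds ((a0.continuousAt.tendsto.comp f).trans (by rw [e0]))
    have h1 : ∀ᶠ p in 𝓝 ((z₀, w₀) : C2), s p.1 = Y p → p.2 = ω₀ p.1 := by
      filter_upwards [c0.eventually (A.linj Y _ hY), f.eventually h0] with p k1 k2 k3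
      exact k1 (k3.symm.trans k2)
    have h2 := f.eventually (a0.deriv.continuousAt.norm.eventually_lt continuousAt_const
      (lt_add_one ‖deriv ω₀ z₀‖))
    refine ⟨‖deriv ω₀ z₀‖ + 1, ?_⟩
    filter_upwards [h1.eventually_nhds, h2] with p k1 k2 ω a e k3
    have c : Tendsto (fun t => ((t, ω t) : C2)) (𝓝 p.1) (𝓝 p) :=
      nhds_prod_eq (x := p.1) (y := p.2) ▸ tendsto_id.prodMk (e ▸ a.continuousAt.tendsto)
    have : ω =ᶠ[𝓝 p.1] ω₀ := by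
      filter_upwards [c.eventually k1, k3] with t k4 k5 using k4 k5
    rw [this.deriv_eq]
    exact k2.le
  · have c : ContinuousAt (fun p : C2 => (s p.1, Y p)) (z₀, w₀) :=
      (ContinuousAt.comp (f := Prod.fst) (A.hsc s z₀ hs) continuous_fst.continuousAt).prodMk
        (A.cont Y _ hY)
    refine ⟨0, ?_⟩
    filter_upwards [c.eventually (isClosed_diagonal.isOpen_compl.mem_nhds h)] with p k ω _ e k3
    have := k3.self_of_nhds
    rw [e] at this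
    exact absurd this k

variable {S : Sk A} {al : Finset S.Cmp} (a : CA S al)

lemma sc_ge {i : (M × ℕ) ⊕ S.Prt} {p : C2} (h : p ∈ a.O 3 i) : 1 ≤ a.sc i p := by
  rcases i with x | π
  · exact le_rfl
  · obtain ⟨-, h⟩ := h
    simp only [CA.sc]
    split_ifs at h ⊢
    · exact le_rfl
    · linarith [h.1]

lemma fin : {i | ∃ p, p ∈ a.O 3 i}.Finite := by
  refine (((a.F.finite_toSet.prod (finite_Iic (a.F.sup fun c => S.a (a.kf c)))).image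
    Sum.inl).union (finite_range Sum.inr)).subset ?_
  rintro (x | π) ⟨p, hp⟩
  · exact Or.inl ⟨x, ⟨hp.1, hp.2.1.le.trans (Finset.le_sup (f := fun c => S.a (a.kf c)) hp.1)⟩,
      rfl⟩
  · exact Or.inr ⟨π, rfl⟩

/-- Limits of points of the third domain are in the fourth. -/
lemma clos : ∀ᶠ t in A.l, ∀ i w, (∃ᶠ p in 𝓝 ((t, w) : C2), p ∈ a.O 3 i) → (t, w) ∈ a.O 4 i := by
  have h0 : ∀ᶠ t in A.l, ∀ π, S.cm π ∈ al → a.s.e.κ π = .neck →
      ContinuousAt (a.s.e.c π) t ∧ ‖a.s.e.c π t‖ ≠ 0 := by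
    refine eventually_all.2 fun π => eventually_all.2 fun h1 => eventually_all.2 fun h2 => ?_
    obtain ⟨K, h⟩ := ((a.s.e.ise π h1).cc h2).2
    exact h.mono fun t ht => ⟨ht.1.continuousAt, ((Real.exp_pos _).trans_le ht.2).ne'⟩
  have le : ∀ {f g : C2 → ℝ} {q : C2}, ContinuousAt f q → ContinuousAt g q →
      (∃ᶠ p in 𝓝 q, f p ≤ g p) → f q ≤ g q := fun hf hg h =>
    not_lt.1 fun k => h ((hg.eventually_lt hf k).mono fun _ => not_le.2)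
  have nm : ∀ {t w : ℂ}, (∃ᶠ p in 𝓝 ((t, w) : C2), ‖p.2‖ ≤ (3 + 3) / 8) → ‖w‖ ≤ (3 + 4) / 8 :=
    fun h => (le continuous_snd.norm.continuousAt continuousAt_const h).trans (by norm_num)
  filter_upwards [h0] with t ht i w h
  rcases i with x | π
  · obtain ⟨p, hp⟩ := h.exists
    exact ⟨hp.1, hp.2.1, nm (h.mono fun _ k => k.2.2)⟩
  · obtain ⟨p, hp⟩ := h.exists
    refine ⟨hp.1, ?_⟩
    by_cases hd : a.s.e.κ π = .disc
    · rw [if_pos hd]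
      exact nm (h.mono fun _ k => (if_pos hd).mp k.2)
    · rw [if_neg hd]
      have h' := h.mono fun _ k => (if_neg hd).mp k.2
      have cr : Continuous fun p : C2 => p.2.re := Complex.continuous_re.comp continuous_snd
      have h1 : w.re ≤ (3 - 4) / 3 :=
        le cr.continuousAt continuousAt_const (h'.mono fun _ k => k.1)
      refine ⟨by dsimp only; linarith, fun hn => ?_⟩
      obtain ⟨c1, c2⟩ := ht π hp.1 hn
      have c3 : ContinuousAt (fun p : C2 => a.s.e.c π p.1) (t, w) :=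
        ContinuousAt.comp (f := Prod.fst) c1 continuous_fst.continuousAt
      have h2 : -w.re ≤ (11 + 3) / 20 * -Real.log ‖a.s.e.c π t‖ :=
        le cr.neg.continuousAt (continuousAt_const.mul (c3.norm.log c2).neg)
          (h'.mono fun _ k => k.2 hn)
      dsimp only
      linarith

/-- A lift can be moved into a bounded set. -/
lemma shift {s : ℂ → M} {z : ℂ} {i : (M × ℕ) ⊕ S.Prt} {ω : ℂ → ℂ} {B : ℝ} (h : a.Lf s z i ω)
    (hB : a.sc i (z, ω z) ≤ B) :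
    ∃ ω', a.Lf s z i ω' ∧ deriv ω' z = deriv ω z ∧ ‖ω' z‖ ≤ B + 8 := by
  have h1 := (sc_ge a h.2.1).trans hB
  rcases i with x | π
  · exact ⟨ω, h, rfl, h.2.1.2.2.trans (by linarith)⟩
  by_cases hd : a.s.e.κ π = .disc
  · exact ⟨ω, h, rfl, ((if_pos hd).mp h.2.1.2).trans (by linarith)⟩
  obtain ⟨h2, ⟨h3, h4⟩, h5⟩ := h
  have pi0 : 0 < 2 * Real.pi := by positivity
  set k : ℤ := toIcoDiv pi0 0 (ω z).im with hk
  have re : ∀ v : ℂ, (v - k * (2 * Real.pi * Complex.I)).re = v.re := fun v => by simp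
  refine ⟨fun t => ω t - k * (2 * Real.pi * Complex.I), ⟨h2.sub analyticAt_const, ⟨h3, ?_⟩, ?_⟩,
    deriv_sub_const _, ?_⟩
  · rw [if_neg hd] at h4 ⊢
    simpa only [re] using h4
  · refine h5.mono fun t ht => ?_
    simp only [CA.Y, if_neg hd] at ht ⊢
    rw [Complex.exp_sub, Complex.exp_int_mul_two_pi_mul_I, div_one, ht]
  · have h6 := sub_toIcoDiv_zsmul_mem_Ico pi0 0 (ω z).im
    have im : (ω z - k * (2 * Real.pi * Complex.I)).im = (ω z).im - k • (2 * Real.pi) := by simp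
    refine (Complex.norm_le_abs_re_add_abs_im _).trans ?_
    rw [re, im, abs_of_nonneg h6.1]
    rw [if_neg hd] at h4
    simp only [CA.sc, if_neg hd] at hB
    have h7 : (ω z).re ≤ (3 - 4) / 3 := h4.1
    rw [abs_of_nonpos (by linarith)]
    linarith [h6.2, Real.pi_le_four]

/-- The speed of a section is locally bounded. -/
lemma locb (h1 : a.LcP) (h2 : a.SclP) : ∀ᶠ z₀ in A.l, ∀ s, A.HS s z₀ → (z₀, s z₀) ∈ A.Z →
    ∃ C : ℝ, ∀ᶠ z in 𝓝 z₀, ∀ i ω, a.Lf s z i ω → ‖deriv ω z‖ ≤ C := by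
  filter_upwards [h1, h2, clos a] with z₀ k1 k2 k3 s hs hZ
  obtain ⟨B, hB⟩ := k2 _ hZ
  have hB' := (tendsto_id.prodMk_nhds (A.hsc s z₀ hs).tendsto).eventually hB
  have key : ∀ i, ∃ C : ℝ, ∀ᶠ z in 𝓝 z₀, ∀ w ∈ closedBall (0 : ℂ) (B + 8), ∀ ω, a.Lf s z i ω →
      ω z = w → ‖deriv ω z‖ ≤ C := fun i => by
    refine (isCompact_closedBall (0 : ℂ) (B + 8)).induction_on
      (p := fun T => ∃ C : ℝ, ∀ᶠ z in 𝓝 z₀, ∀ w ∈ T, ∀ ω, a.Lf s z i ω → ω z = w →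
        ‖deriv ω z‖ ≤ C) ⟨0, .of_forall fun _ _ h => h.elim⟩
      (fun T T' hT ⟨C, h⟩ => ⟨C, h.mono fun z k w hw => k w (hT hw)⟩)
      (fun T T' ⟨C, h⟩ ⟨C', h'⟩ => ⟨max C C', ?_⟩) fun w₀ _ => ?_
    · filter_upwards [h, h'] with z k k' w hw ω l e
      exact hw.elim (fun hw => (k w hw ω l e).trans (le_max_left _ _))
        fun hw => (k' w hw ω l e).trans (le_max_right _ _)
    · have : ∃ C : ℝ, ∀ᶠ p in 𝓝 ((z₀, w₀) : C2), ∀ ω, a.Lf s p.1 i ω → ω p.1 = p.2 →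
          ‖deriv ω p.1‖ ≤ C := by
        by_cases h : ∃ᶠ p in 𝓝 ((z₀, w₀) : C2), p ∈ a.O 3 i
        · obtain ⟨C, hC⟩ := uniq hs (k1 i w₀ (k3 i w₀ h)).1.1
          exact ⟨C, hC.mono fun p k ω l e => k ω l.1 e l.2.2⟩
        · refine ⟨0, (not_frequently.1 h).mono fun p k ω l e => absurd ?_ k⟩
          have := l.2.1
          rwa [e] at this
      obtain ⟨C, hC⟩ := this
      rw [nhds_prod_eq, eventually_prod_iff] at hC
      obtain ⟨pa, ha, pb, hb, h⟩ := hC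
      exact ⟨{w | pb w}, mem_nhdsWithin_of_mem_nhds hb, C, ha.mono fun z k w hw => h k hw⟩
  choose C hC using key
  obtain ⟨C₀, h0⟩ := ((fin a).image C).bddAbove
  refine ⟨C₀, ?_⟩
  filter_upwards [hB', (eventually_all_finite (fin a)).2 fun i _ => hC i] with z k k' i ω l
  obtain ⟨ω', l', e, n⟩ := shift a l (k i _ l.2.1 l.2.2.self_of_nhds)
  rw [← e]
  exact (k' i ⟨_, l.2.1⟩ _ (mem_closedBall_zero_iff.2 n) ω' l' rfl).trans
    (h0 ⟨i, ⟨_, l.2.1⟩, rfl⟩)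

/-- One term of the sequence. -/
lemma pick {M₁ B : ℝ} (hM : ∀ z₀, M₁ ≤ A.dp z₀ → ∀ s, A.HS s z₀ → (z₀, s z₀) ∈ A.Z →
      ∃ C : ℝ, ∀ᶠ z in 𝓝 z₀, ∀ i ω, a.Lf s z i ω → ‖deriv ω z‖ ≤ C) (hB : 0 < B) {t : ℂ}
    {s : ℂ → M} (h0 : 0 < A.dp t) (h1 : 2 * M₁ ≤ A.dp t) (hs : A.Sec (ball t (A.dp t / 4)) s)
    (hn : ¬a.Sp s t (B / A.dp t)) : ∃ (z : ℂ) (ε : ℝ) (i : (M × ℕ) ⊕ S.Prt) (ω : ℂ → ℂ),
      0 < ε ∧ A.dp t / 2 ≤ A.dp z ∧ ε / A.dp z ≤ 3 / B ∧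
      (∀ R : ℝ, 48 * R ≤ B → A.Sec (ball z (R * ε)) s ∧
        ∀ y ∈ ball z (R * ε), a.Sp s y (2 / ε)) ∧
      a.Lf s z i ω ∧ a.sc i (z, ω z) ≤ 2 * ε * ‖deriv ω z‖ := by
  have sub : closedBall t (A.dp t / 8) ⊆ ball t (A.dp t / 4) :=
    closedBall_subset_ball (by linarith)
  obtain ⟨C, hC⟩ : ∃ C : ℝ, ∀ z ∈ closedBall t (A.dp t / 8), ∀ i ω, a.Lf s z i ω →
      ‖deriv ω z‖ ≤ C := by
    refine (isCompact_closedBall t (A.dp t / 8)).induction_on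
      (p := fun T => ∃ C : ℝ, ∀ z ∈ T, ∀ i ω, a.Lf s z i ω → ‖deriv ω z‖ ≤ C)
      ⟨0, fun _ h => h.elim⟩ (fun T T' hT ⟨C, h⟩ => ⟨C, fun z hz => h z (hT hz)⟩)
      (fun T T' ⟨C, h⟩ ⟨C', h'⟩ => ⟨max C C', fun z hz i ω l => ?_⟩) fun z hz => ?_
    · exact hz.elim (fun hz => (h z hz i ω l).trans (le_max_left _ _))
        fun hz => (h' z hz i ω l).trans (le_max_right _ _)
    · have := dp_le (A := A) z t
      have := mem_closedBall_iff_norm.1 hz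
      obtain ⟨C, h⟩ := hM z (by linarith) s (hs z (sub hz)).1 (hs z (sub hz)).2
      exact ⟨_, mem_nhdsWithin_of_mem_nhds h, C, fun _ k => k⟩
  simp only [CA.Sp, not_forall, not_le] at hn
  obtain ⟨i₀, ω₀, l₀, hn⟩ := hn
  have pos : ∀ {z i ω}, a.Lf s z i ω → 0 < a.sc i (z, ω z) := fun l =>
    one_pos.trans_le (sc_ge a l.2.1)
  obtain ⟨⟨⟨z, i, ω⟩, l⟩, k1, k2, k3, k4⟩ := zal
    (X := {x : ℂ × ((M × ℕ) ⊕ S.Prt) × (ℂ → ℂ) // a.Lf s x.1 x.2.1 x.2.2}) (fun x => x.1.1)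
    (fun x => ‖deriv x.1.2.2 x.1.1‖ / a.sc x.1.2.1 (x.1.1, x.1.2.2 x.1.1)) t (ρ := A.dp t / 8)
    (C := C) (B := B / 8) (by positivity)
    (fun x hx => (div_le_self (norm_nonneg _) (sc_ge a x.2.2.1)).trans
      (hC _ (mem_closedBall_iff_norm.2 hx) _ _ x.2)) ⟨(t, i₀, ω₀), l₀⟩ rfl (by positivity) (by
      have := (div_lt_iff₀ h0).1 ((lt_div_iff₀ (pos l₀)).2 hn)
      dsimp only
      linarith)
  dsimp only at k1 k2 k3 k4 l
  set σ := ‖deriv ω z‖ / a.sc i (z, ω z) with hσ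
  have d := dp_le (A := A) z t
  have n0 := norm_nonneg (z - t)
  have e1 : σ⁻¹ * B ≤ 12 * (A.dp t / 8 - ‖z - t‖) := by
    rw [inv_mul_le_iff₀ k1]
    linarith
  refine ⟨z, σ⁻¹, i, ω, inv_pos.2 k1, by linarith, ?_, fun R hR => ?_, l, ?_⟩
  · rw [div_le_div_iff₀ (by linarith) hB]
    linarith
  · have e2 : R * σ⁻¹ ≤ (A.dp t / 8 - ‖z - t‖) / 4 := by
      nlinarith [mul_le_mul_of_nonneg_left hR (inv_pos.2 k1).le]
    refine ⟨fun y hy => hs y (sub (mem_closedBall_iff_norm.2 ?_)), fun y hy j β l' => ?_⟩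
    · have := mem_ball_iff_norm.1 hy
      linarith [norm_sub_le_norm_sub_add_norm_sub y z t]
    · have := k4 ⟨(y, j, β), l'⟩ ((mem_ball_iff_norm.1 hy).le.trans e2)
      rw [div_inv_eq_mul]
      exact (div_le_iff₀ (pos l')).1 this
  · have e3 : σ⁻¹ * ‖deriv ω z‖ = a.sc i (z, ω z) := by
      rw [inv_mul_eq_iff_eq_mul₀ k1.ne', hσ, div_mul_cancel₀ _ (pos l).ne']
    linarith [pos l]

end SelX

open SelX in
theorem selS : SelOf := by
  intro _ M _ A S al a h1 h2 h3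
  obtain ⟨M₁, hM⟩ := eventually_atTop.1 (eventually_comap.1 (locb a h1 h2))
  have ex : ∀ n : ℕ, ∃ t s, (n + 1 : ℝ) ≤ A.dp t ∧ 2 * M₁ ≤ A.dp t ∧
      A.Sec (ball t (A.dp t / 4)) s ∧ ¬a.Sp s t ((n + 1) / A.dp t) := fun n => by
    by_contra hn
    refine h3 ⟨n + 1, by positivity, ?_⟩
    have d : Tendsto A.dp A.l atTop := tendsto_comap
    filter_upwards [d.eventually_ge_atTop (n + 1), d.eventually_ge_atTop (2 * M₁)]
      with t k1 k2 s hs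
    exact by_contra fun k => hn ⟨t, s, k1, k2, hs, k⟩
  choose t s t1 t2 t3 t4 using ex
  have p0 : ∀ n : ℕ, (0 : ℝ) < n + 1 := fun n => by positivity
  choose z ε i ω k1 k2 k3 k4 k5 k6 using fun n => pick a (fun z₀ h => hM _ h z₀ rfl) (p0 n)
    ((p0 n).trans_le (t1 n)) (t2 n) (t3 n) (t4 n)
  have hu : (hyperfilter ℕ : Filter ℕ) ≤ atTop := Nat.hyperfilter_le_atTop
  have tn : Tendsto (fun n : ℕ => (n + 1 : ℝ)) (hyperfilter ℕ) atTop :=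
    (tendsto_atTop_add_const_right _ _ tendsto_natCast_atTop_atTop).mono_left hu
  obtain ⟨j, -, hj⟩ := (Ultrafilter.eventually_exists_mem_iff (f := hyperfilter ℕ)
    (P := fun j n => i n = j) (fin a)).1 (.of_forall fun n => ⟨i n, ⟨_, (k5 n).2.1⟩, rfl⟩)
  refine ⟨hyperfilter ℕ, z, ε, s, j, ω, tendsto_comap_iff.2 ?_, k1, ?_, fun R => ?_, ?_⟩
  · exact tendsto_atTop_mono (fun n => by linarith [t1 n, k2 n] :
      ∀ n : ℕ, (n + 1 : ℝ) / 2 ≤ A.dp (z n)) (tn.atTop_div_const two_pos)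
  · exact squeeze_zero (fun n => div_nonneg (k1 n).le (by linarith [t1 n, k2 n, p0 n])) k3
      (tn.const_div_atTop 3)
  · exact (tn.eventually_ge_atTop (48 * R)).mono fun n h => k4 n R h
  · exact hj.mono fun n h => h ▸ ⟨k5 n, k6 n⟩

end Pool.Agent.MP_c69980_ag.G3
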