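import Pool.Agent.MP_c69980_ag.G3.SpecP

/-!
Stable reduction at an end: the induction, and the atlas of a stable state.
-/

set_option autoImplicit false

noncomputable section

namespace Pool.Agent.MP_c69980_ag.G3

open Metric Filter Topology Set

variable {M : Type} [MetricSpace M] {A : Amb M}

/-- Deep points of an edge. -/
def Dp (κ : Kd) (E : C2 → M) (c : ℂ → ℂ) (u : Ultrafilter (ℂ × M)) : Prop :=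
  ∀ ρ : ℝ, 0 < ρ → ∀ᶠ x in (u : Filter (ℂ × M)), ∃ b ∈ De κ (c x.1) ρ, x.2 = E (x.1, b)

/-- Points of an explicit vertex. -/
def In (V : C2 → M) (H : Finset ℂ) (ρ : ℝ) (u : Ultrafilter (ℂ × M)) : Prop :=
  ∀ᶠ x in (u : Filter (ℂ × M)), ∃ ω ∈ Dv H ρ, x.2 = V (x.1, ω)

/-- Edges for a family `P` of ports. -/
structure Edg (S : Sk A) (P : S.Prt → C2 → M) (Lv : Set S.Prt) (r : ℝ) where
  κ : S.Prt → Kd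
  E : S.Prt → C2 → M
  c : S.Prt → ℂ → ℂ
  far : S.Prt → S.Prt
  pe : ∀ π ∈ Lv, Pd S.N (E π) ∧ Function.Periodic (c π) (tp S.N)
  ise : ∀ π ∈ Lv, IsE A (κ π) (E π) (c π) r (P π) (P (far π))
  nk : ∀ π ∈ Lv, κ π = .neck → far π ∈ Lv ∧ far π ≠ π ∧ far (far π) = π ∧ κ (far π) = .neck ∧
    c (far π) = c π ∧ ∀ᶠ t in A.l, ∀ b, E (far π) (t, b) = E π (t, c π t / b)
  dj : ∀ r' < r, ∀ᶠ t in A.l, ∀ π ∈ Lv, ∀ π' ∈ Lv, ∀ b ∈ De (κ π) (c π t) r',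
    ∀ b' ∈ De (κ π') (c π' t) r', E π (t, b) = E π' (t, b') →
      π' = π ∨ (κ π = .neck ∧ π' = far π)

open Classical in
/-- A state with alive components `al` and explicit vertices `Js`. -/
structure XS (S : Sk A) (al : Finset S.Cmp) where
  J : Type
  Js : Finset J
  H : J → Finset ℂ
  V : J → C2 → M
  sl : J → Bool ⊕ ℂ → S.Prt
  P : S.Prt → C2 → M
  r : ℝ
  Lv : Set S.Prt
  e : Edg S P Lv r
  Rz : S.Sp → Kd × Option S.Sp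
  op : S.Sp → S.Sp
  r0 : 0 < r
  rr : r ≤ S.r₀
  lv : ∀ π, π ∈ Lv ↔ S.cm π ∈ al ∨ ∃ j ∈ Js, ∃ s, Sl (H j) s ∧ sl j s = π
  pal : ∀ π, S.cm π ∈ al → P π = S.P π
  psl : ∀ j ∈ Js, ∀ s, Sl (H j) s → P (sl j s) = sv (V j) s
  nal : ∀ j ∈ Js, ∀ s, Sl (H j) s → S.cm (sl j s) ∉ al
  inj : ∀ j ∈ Js, ∀ j' ∈ Js, ∀ s s', Sl (H j) s → Sl (H j') s' → sl j s = sl j' s' →
    j = j' ∧ s = s'
  H0 : ∀ j ∈ Js, (0 : ℂ) ∉ H j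
  isv : ∀ j ∈ Js, IsV A (V j) (H j)
  pv : ∀ j ∈ Js, Pd S.N (V j)
  vv : ∀ ρ, 0 < ρ → ∀ᶠ t in A.l, ∀ j ∈ Js, ∀ j' ∈ Js, ∀ ω ∈ Dv (H j) ρ, ∀ ω' ∈ Dv (H j') ρ,
    V j (t, ω) = V j' (t, ω') → j = j'
  ve : ∀ j ∈ Js, ∀ π ∈ Lv, Ve A (V j) (H j) (e.κ π) (e.E π) (e.c π) r fun ε t ω b =>
    ∃ s ξ, Sl (H j) s ∧ ω = slot s ξ ∧ ((π = sl j s ∧ ‖ξ - b‖ < ε) ∨
      (e.κ π = .neck ∧ e.far π = sl j s ∧ ‖ξ - e.c π t / b‖ < ε))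
  hd : ∀ j ∈ Js, ∀ a ∈ H j, e.κ (sl j (.inr a)) = .disc
  te : ∀ π ∈ Lv, ∀ u, A.Out u → Dp (e.κ π) (e.E π) (e.c π) u → ∀ k ∈ al, ∀ x ∈ S.C k, ¬Cg u x
  tv : ∀ j ∈ Js, ∀ ρ u, 0 < ρ → A.Out u → In (V j) (H j) ρ u → ∀ k ∈ al, ∀ x ∈ S.C k, ¬Cg u x
  cov : ∀ u, A.Out u → (∃ k ∈ al, ∃ x ∈ S.C k, Cg u x) ∨
    (∃ π ∈ Lv, Dp (e.κ π) (e.E π) (e.c π) u) ∨ ∃ j ∈ Js, ∃ ρ, 0 < ρ ∧ In (V j) (H j) ρ u
  rs : ∀ π ∈ Lv, (∀ j ∈ Js, ∀ a ∈ H j, π ≠ sl j (.inr a)) → Rz (S.fl π) =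
    if e.κ π = .neck then
      if S.cm (e.far π) ∈ al then (.neck, some (S.fl (e.far π))) else Rz (op (S.fl (e.far π)))
    else (e.κ π, none)
  ops : ∀ j ∈ Js, ∀ b, op (S.fl (sl j (.inl b))) = S.fl (sl j (.inl !b))

/-- The size of the explicit part. -/
def XS.ms {S : Sk A} {al : Finset S.Cmp} (x : XS S al) : ℕ := ∑ j ∈ x.Js, ((x.H j).card + 1)

/-- The open flags of a state. -/
def St.op {S : Sk A} {al : Finset S.Cmp} (s : St S al) (q : S.Sp) : Prop :=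
  ∃ π, S.fl π = q ∧ S.cm π ∈ al ∧ s.e.κ π ≠ .disc

/-- Quantification over all skeletons. -/
def AllK (Φ : ∀ (M : Type) [MetricSpace M] (A : Amb M) (S : Sk A) (_ : Finset S.Cmp), Prop) :
    Prop := ∀ (M : Type) [MetricSpace M] (A : Amb M) (S : Sk A) (al : Finset S.Cmp), Φ M A S al

/-- The row `SLift` with a weaker injectivity hypothesis. -/
def SLift2Stmt : Prop := ∀ (M : Type) [MetricSpace M] (A : Amb M) (ι : Type) (u : Ultrafilter ι)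
  (τ : ι → ℂ → ℂ) (s : ι → ℂ → M) (w : ι → ℂ) (γ ψ : ℂ → M) (Y : C2 → M) (z₀ w₀ : ℂ) (ρ η : ℝ),
  0 < ρ → 0 < η → (∀ᶠ k in (u : Filter ι), Hm A (ball z₀ ρ) (τ k) (s k)) →
  (∀ o ∈ A.l, ∀ᶠ k in (u : Filter ι), ∀ z ∈ ball z₀ ρ, τ k z ∈ o) →
  TendstoUniformlyOn s γ u (ball z₀ ρ) → ContinuousAt γ z₀ →
  (∀ᶠ t in A.l, ∀ v ∈ closedBall w₀ η, A.LC Y (t, v)) → Lm A.l Y ψ (closedBall w₀ η) →
  ContinuousOn ψ (closedBall w₀ η) → (∀ v ∈ closedBall w₀ η, ψ v = ψ w₀ → v = w₀) →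
  (∀ᶠ k in (u : Filter ι), s k z₀ = Y (τ k z₀, w k)) → Tendsto w u (𝓝 w₀) →
  ∃ (ρ' : ℝ) (ω : ι → ℂ → ℂ) (g : ℂ → ℂ), 0 < ρ' ∧ ρ' ≤ ρ ∧ AnalyticOnNhd ℂ g (ball z₀ ρ') ∧
    g z₀ = w₀ ∧ (∀ z ∈ ball z₀ ρ', g z ∈ closedBall w₀ η ∧ γ z = ψ (g z) ∧
      Tendsto (fun k => deriv (ω k) z) u (𝓝 (deriv g z))) ∧
    TendstoUniformlyOn ω g u (ball z₀ ρ') ∧ ∀ᶠ k in (u : Filter ι),
      AnalyticOnNhd ℂ (ω k) (ball z₀ ρ') ∧ ω k z₀ = w k ∧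
        ∀ z ∈ ball z₀ ρ', ω k z ∈ closedBall w₀ η ∧ s k z = Y (τ k z, ω k z)

/-! ### Rows Reco, Open, Close, Fill1, Elim1, Flip, Deg: the induction -/

open Classical in
/-- Change of the coordinate at one port. -/
def RecoStmt : Prop := ∀ (M : Type) [MetricSpace M] (A : Amb M) (S : Sk A) (P : S.Prt → C2 → M)
  (Lv : Set S.Prt) (r ρ₀ : ℝ) (e : Edg S P Lv r) (π : S.Prt) (Q : C2 → M) (Ψ : ℂ → ℂ), 0 < r →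
  0 < ρ₀ → π ∈ Lv → AnalyticAt ℂ Ψ 0 → Ψ 0 = 0 → deriv Ψ 0 ≠ 0 →
  (∀ ρ, 0 < ρ → Mt A.l Q (P π) Ψ (An ρ ρ₀) ∧ ∀ᶠ t in A.l, ∀ ξ ∈ An ρ ρ₀, A.LC Q (t, ξ)) →
  (∀ ρ r', 0 < ρ → r' < r → Ch A (P π) (An ρ r')) →
  ∃ r', 0 < r' ∧ r' ≤ r ∧ ∃ e' : Edg S (Function.update P π Q) Lv r', e'.κ = e.κ ∧ e'.far = e.far ∧
    ∀ π' ∈ Lv, ∀ u, A.Out u →
      (Dp (e'.κ π') (e'.E π') (e'.c π') u ↔ Dp (e.κ π') (e.E π') (e.c π') u)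

def RecoOf : Prop := PhiStmt → InvStmt → RecoStmt

/-- Change of the coordinates at all ports of one component. -/
def RecoAStmt : Prop := AllK fun M _ A S al => ∀ (s : St S al) (k : S.Cmp) (v : S.XV k s.op),
  k ∈ al → ∃ (P : S.Prt → C2 → M) (r' : ℝ) (e' : Edg S P {π | S.cm π ∈ al} r'), 0 < r' ∧
    r' ≤ s.r ∧ (∀ π, S.cm π ≠ k → P π = S.P π) ∧
    (∀ j σ, Sl v.H σ → P (v.sl j σ) = sv (v.V j) σ) ∧ e'.κ = s.e.κ ∧ e'.far = s.e.far ∧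
    ∀ π, S.cm π ∈ al → ∀ u, A.Out u → (Dp (e'.κ π) (e'.E π) (e'.c π) u ↔ s.e.Dp π u)

def RecoAOf : Prop := RecoStmt → RecoAStmt

open Classical in
def OpenStmt : Prop := AllK fun _ _ _ S al => ∀ (s : St S al) (k : S.Cmp), k ∈ al →
  S.XV k s.op → Nonempty (XS S (al.erase k))

def OpenOf : Prop := RecoAStmt → OpenStmt

def CloseStmt : Prop := AllK fun _ _ _ S al => ∀ x : XS S al, x.Js = ∅ → Nonempty (St S al)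

def Fill1Stmt : Prop := AllK fun _ _ _ S al => ∀ (x : XS S al) (j : x.J) (a : ℂ), j ∈ x.Js →
  a ∈ x.H j → ∃ x' : XS S al, x'.ms < x.ms

def Fill1Of : Prop := PhiStmt → SymStmt → FillPStmt → Fill1Stmt

def Elim1Stmt : Prop := AllK fun _ _ _ S al => ∀ (x : XS S al) (j : x.J), j ∈ x.Js → x.H j = ∅ →
  x.e.κ (x.sl j (.inl true)) = .neck → x.e.far (x.sl j (.inl true)) ≠ x.sl j (.inl false) →
  ∃ x' : XS S al, x'.ms < x.ms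

def Elim1Of : Prop := PhiStmt → SymStmt → MergePStmt → Elim1Stmt

def FlipStmt : Prop := AllK fun _ _ _ S al => ∀ (x : XS S al) (j : x.J), j ∈ x.Js → x.H j = ∅ →
  ∃ (x' : XS S al) (j' : x'.J), x'.ms = x.ms ∧ j' ∈ x'.Js ∧ x'.H j' = ∅ ∧
    x'.e.κ (x'.sl j' (.inl true)) = x.e.κ (x.sl j (.inl false)) ∧
    (x'.e.far (x'.sl j' (.inl true)) = x'.sl j' (.inl false) →
      x.e.far (x.sl j (.inl false)) = x.sl j (.inl true))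

def DegStmt : Prop := AllK fun _ _ _ S al => ∀ (s : St S al) (k : S.Cmp), k ∈ al →
  S.Deg k s.op → False

/-- A stable state exists. -/
def StabStmt : Prop := ∀ (M : Type) [MetricSpace M] (A : Amb M) (E : SE A),
  ∃ (al : Finset E.S.Cmp) (s : St E.S al), ∀ k ∈ al, E.S.Hyp k s.op

def StabOf : Prop := OpenStmt → CloseStmt → Fill1Stmt → Elim1Stmt → FlipStmt → SphStmt → TorStmt →
  DegStmt → StabStmt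

/-! ### The atlas of a state -/

/-- A state with finitely many tubes that cover the compact parts of the alive components. -/
structure CA (S : Sk A) (al : Finset S.Cmp) where
  s : St S al
  F : Finset M
  kf : M → S.Cmp
  r₃ : ℝ
  r30 : 0 < r₃
  r3r : r₃ < s.r
  hF : ∀ c ∈ F, kf c ∈ al ∧ c ∈ S.C (kf c)
  cov : ∀ k ∈ al, ∀ x ∈ S.C k, (∃ π, ∃ w ∈ ball (0 : ℂ) (r₃ / 3) \ {0}, S.p π w = x) ∨
    ∃ c ∈ F, ∃ w ∈ ball (0 : ℂ) (S.rad c / 3), S.ψ c w = x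

section atlas

variable {S : Sk A} {al : Finset S.Cmp} (a : CA S al)

/-- The charts. -/
def CA.Y : (M × ℕ) ⊕ S.Prt → C2 → M
  | .inl x, p => S.T x.1 x.2 (p.1, S.rad x.1 * p.2)
  | .inr π, p => if a.s.e.κ π = .disc then a.s.e.E π (p.1, a.r₃ * p.2)
      else a.s.e.E π (p.1, a.r₃ * Complex.exp p.2)

/-- Their domains, for `θ = 1, 2, 3, 4`. -/
def CA.O (θ : ℝ) : (M × ℕ) ⊕ S.Prt → Set C2
  | .inl x => {p | x.1 ∈ a.F ∧ x.2 < S.a (a.kf x.1) ∧ ‖p.2‖ ≤ (3 + θ) / 8}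
  | .inr π => {p | S.cm π ∈ al ∧ if a.s.e.κ π = .disc then ‖p.2‖ ≤ (3 + θ) / 8
      else p.2.re ≤ (θ - 4) / 3 ∧ (a.s.e.κ π = .neck →
        -p.2.re ≤ (11 + θ) / 20 * -Real.log ‖a.s.e.c π p.1‖)}

/-- The scale. -/
def CA.sc : (M × ℕ) ⊕ S.Prt → C2 → ℝ
  | .inl _, _ => 1
  | .inr π, p => if a.s.e.κ π = .disc then 1 else 1 - p.2.re

/-- `ω` is a lift of `s` at `t` to the chart `i`. -/
def CA.Lf (s : ℂ → M) (t : ℂ) (i : (M × ℕ) ⊕ S.Prt) (ω : ℂ → ℂ) : Prop :=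
  AnalyticAt ℂ ω t ∧ (t, ω t) ∈ a.O 3 i ∧ ∀ᶠ t' in 𝓝 t, s t' = a.Y i (t', ω t')

/-- The speed of `s` at `t` is at most `B`. -/
def CA.Sp (s : ℂ → M) (t : ℂ) (B : ℝ) : Prop :=
  ∀ i ω, a.Lf s t i ω → ‖deriv ω t‖ ≤ B * a.sc i (t, ω t)

def CA.LcP : Prop := ∀ᶠ t in A.l, ∀ i w, (t, w) ∈ a.O 4 i → A.LZ (a.Y i) (t, w) ∧
  ∀ w', (t, w') ∈ a.O 4 i → ‖w - w'‖ ≤ 2 → a.Y i (t, w) = a.Y i (t, w') → w = w'

def CA.BdP : Prop := ∃ C : ℝ, ∀ᶠ t in A.l, ∀ i w, (t, w) ∈ a.O 4 i → ∀ l,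
  ‖A.cf (a.Y i) (t, w) l‖ ≤ C

def CA.CovP : Prop := ∀ᶠ t in A.l, ∀ y, (t, y) ∈ A.Zb →
  (∃ i w, (t, w) ∈ a.O 1 i ∧ y = a.Y i (t, w)) ∨
    ∃ π, S.cm π ∈ al ∧ a.s.e.κ π = .cusp ∧ y = a.s.e.E π (t, 0)

def CA.TrP : Prop := ∃ C : ℝ, 1 ≤ C ∧ ∀ᶠ t in A.l, ∀ i j w v, (t, w) ∈ a.O 3 i →
  (t, v) ∈ a.O 3 j → a.Y i (t, w) = a.Y j (t, v) → a.sc i (t, w) ≤ C * a.sc j (t, v) ∧
    ∀ w', C * ‖w' - w‖ ≤ C⁻¹ → ∃ v', ‖v' - v‖ ≤ C * ‖w' - w‖ ∧ a.Y i (t, w') = a.Y j (t, v')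

def CA.SclP : Prop := ∀ᶠ t in A.l, ∀ y, (t, y) ∈ A.Z → ∃ B : ℝ, ∀ᶠ x in 𝓝 (t, y), ∀ i w,
  (x.1, w) ∈ a.O 3 i → x.2 = a.Y i (x.1, w) → a.sc i (x.1, w) ≤ B

def CA.BoxP : Prop := ∃ κ : ℝ, 0 < κ ∧ ∀ᶠ t in A.l, ∀ i w t' w', (t, w) ∈ a.O 2 i →
  ‖t' - t‖ ≤ κ * A.dp t → ‖w' - w‖ ≤ κ * a.sc i (t, w) → (t', w') ∈ a.O 3 i ∧
    a.sc i (t', w') ≤ 2 * a.sc i (t, w) ∧ a.sc i (t, w) ≤ 2 * a.sc i (t', w')

def CA.LiftP : Prop := ∃ κ : ℝ, 0 < κ ∧ κ ≤ 1 / 16 ∧ ∀ᶠ t₁ in A.l, ∀ i w₁ s (R B : ℝ),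
  (t₁, w₁) ∈ a.O 2 i → 0 < R → R ≤ κ * A.dp t₁ → 0 ≤ B → B * R ≤ κ → A.Sec (ball t₁ R) s →
  s t₁ = a.Y i (t₁, w₁) → (∀ t ∈ ball t₁ R, a.Sp s t B) →
  ∃ ω : ℂ → ℂ, AnalyticOnNhd ℂ ω (ball t₁ R) ∧ ω t₁ = w₁ ∧ ∀ t ∈ ball t₁ R,
    (t, ω t) ∈ a.O 3 i ∧ s t = a.Y i (t, ω t) ∧ ‖ω t - w₁‖ ≤ a.sc i (t₁, w₁) ∧
      a.sc i (t, ω t) ≤ 2 * a.sc i (t₁, w₁) ∧ a.sc i (t₁, w₁) ≤ 2 * a.sc i (t, ω t)

def CA.SpeedP : Prop := ∃ B : ℝ, 0 < B ∧ ∀ᶠ t in A.l, ∀ s, A.Sec (ball t (A.dp t / 4)) s →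
  a.Sp s t (B / A.dp t)

/-- A Brody sequence. -/
structure CA.Brd (u : Ultrafilter ℕ) (t : ℕ → ℂ) (ε : ℕ → ℝ) (s : ℕ → ℂ → M)
    (i : (M × ℕ) ⊕ S.Prt) (ω : ℕ → ℂ → ℂ) : Prop where
  tl : Tendsto t u A.l
  ε0 : ∀ k, 0 < ε k
  sm : Tendsto (fun k => ε k / A.dp (t k)) u (𝓝 0)
  sec : ∀ R : ℝ, ∀ᶠ k in (u : Filter ℕ), A.Sec (ball (t k) (R * ε k)) (s k) ∧
    ∀ z ∈ ball (t k) (R * ε k), a.Sp (s k) z (2 / ε k)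
  ctr : ∀ᶠ k in (u : Filter ℕ), a.Lf (s k) (t k) i (ω k) ∧
    a.sc i (t k, ω k (t k)) ≤ 2 * ε k * ‖deriv (ω k) (t k)‖

end atlas

/-- Quantification over all atlases. -/
def AllA (Φ : ∀ (M : Type) [MetricSpace M] (A : Amb M) (S : Sk A) (al : Finset S.Cmp)
    (_ : CA S al), Prop) : Prop :=
  ∀ (M : Type) [MetricSpace M] (A : Amb M) (S : Sk A) (al : Finset S.Cmp) (a : CA S al),
    Φ M A S al a

/-! ### Rows Lc, Bd, Cov, Tr, Box, Lift -/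

def CAStmt : Prop := AllK fun _ _ _ S al => Nonempty S.Cmp → ∀ s : St S al, ∃ a : CA S al, a.s = s

def LcStmt : Prop := AllA fun _ _ _ _ _ a => a.LcP ∧ a.SclP

def LcOf : Prop := PhiStmt → LcStmt

def BdStmt : Prop := AllA fun _ _ _ _ _ a => a.BdP

def BdOf : Prop := PhiStmt → BdStmt

def CovStmt : Prop := AllA fun _ _ _ _ _ a => a.CovP

def CovOf : Prop := PhiStmt → SymStmt → CovStmt

def TrStmt : Prop := AllA fun _ _ _ _ _ a => a.LcP → a.TrP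

def TrOf : Prop := PhiStmt → SLift2Stmt → TrStmt

def LiftStmt : Prop := AllA fun _ _ _ _ _ a => a.BoxP ∧ (a.LcP → a.LiftP)

def LiftOf : Prop := PhiStmt → ContStmt → LiftStmt

def DegOf : Prop := PhiStmt → SymStmt → MonStmt → SLift2Stmt → CAStmt → LcStmt → CovStmt →
  TrStmt → DegStmt

/-! ### Rows Sel, Deep, Liou, Shal: the speed of sections -/

def SelStmt : Prop := AllA fun _ _ _ _ _ a => a.LcP → a.SclP → ¬a.SpeedP →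
  ∃ u t ε s i ω, a.Brd u t ε s i ω

def SelOf : Prop := PhiStmt → SelStmt

def DeepStmt : Prop := AllA fun _ _ _ _ _ a => a.LcP → a.CovP → a.TrP → a.LiftP →
  ∀ u t ε s i ω, a.Brd u t ε s i ω →
    ∃ B : ℝ, ∀ᶠ k in (u : Filter ℕ), a.sc i (t k, ω k (t k)) ≤ B

def DeepOf : Prop := PhiStmt → DeepStmt

/-- Entire orbifold curves in hyperbolic components are constant. -/
def LiouStmt : Prop := AllK fun M _ _ S al => ∀ (op : S.Sp → Prop) (F : Finset M) (r ρ : ℝ)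
  (D : Set ℂ) (γ : ℂ → M), (∀ k ∈ al, S.Hyp k op) → r < S.r₀ → 0 < ρ →
  (∀ z, ∃ k ∈ al, ∃ (i : M ⊕ S.Prt) (β : ℂ → ℂ), AnalyticOnNhd ℂ β (ball z ρ) ∧
    (∀ c, i = .inl c → c ∈ F) ∧ ∀ y ∈ ball z ρ,
      ‖β y‖ ≤ Sum.elim (fun c => 7 / 8 * S.rad c) (fun _ => r) i ∧
      (y ∉ D → β y ∈ S.dom k i ∧ γ y = S.par i (β y)) ∧
      (y ∈ D → β y = 0 ∧ ∃ π, i = .inr π ∧ S.cm π = k ∧ ¬op (S.fl π))) →
  ∀ (k : S.Cmp) (i : M ⊕ S.Prt) (β : ℂ → ℂ), AnalyticAt ℂ β 0 →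
    (∀ᶠ y in 𝓝[≠] (0 : ℂ), y ∉ D ∧ β y ∈ S.dom k i ∧ γ y = S.par i (β y)) → deriv β 0 = 0

def ShalStmt : Prop := AllA fun _ _ _ S al a => (∀ k ∈ al, S.Hyp k a.s.op) → a.LcP → a.CovP →
  a.TrP → a.LiftP → ∀ u t ε s i ω, a.Brd u t ε s i ω →
    ¬∃ B : ℝ, ∀ᶠ k in (u : Filter ℕ), a.sc i (t k, ω k (t k)) ≤ B

def ShalOf : Prop := PhiStmt → MonStmt → SLift2Stmt → LiouStmt → ShalStmt

/-! ### Row Atl: the end atlas -/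

def AtlStmt : Prop := AllA fun _ _ A _ _ a => a.LcP → a.BdP → a.CovP → a.TrP → a.SclP →
  a.LiftP → a.SpeedP → Nonempty (EA A)

def AtlOf : Prop := PhiStmt → AtlStmt

end Pool.Agent.MP_c69980_ag.G3
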