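import Pool.Agent.MP_c69980_ag.G3.SpecW

/-!
Welding, gluing, filling and merging of periodic data give periodic data.
-/

set_option autoImplicit false

noncomputable section

namespace Pool.Agent.MP_c69980_ag.G3

open Metric Filter Topology Set

def WeldPStmt : Prop := ∀ (M : Type) [MetricSpace M] (A : Amb M) (n : ℕ) (Φ : C2 → ℂ)
  (r₁ ρ₁ ρ₂ r₂ : ℝ), 0 < n → 0 < r₁ → r₁ < ρ₁ → ρ₁ < ρ₂ → ρ₂ < r₂ →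
  (∀ᶠ t in A.l, ∀ ξ, r₁ < ‖ξ‖ → ‖ξ‖ < r₂ → AnalyticAt ℂ Φ (t, ξ) ∧ Φ (t + tp n, ξ) = Φ (t, ξ)) →
  (∀ ε : ℝ, 0 < ε → ∀ᶠ t in A.l, ∀ ξ, r₁ < ‖ξ‖ → ‖ξ‖ < r₂ → ‖Φ (t, ξ) - ξ‖ ≤ ε) →
  ∃ a b, Wl A.l a b ρ₁ ρ₂ ∧ Pd n a ∧ Pd n b ∧
    ∀ᶠ t in A.l, ∀ ξ, ρ₁ < ‖ξ‖ → ‖ξ‖ < ρ₂ → Φ (t, b (t, ξ)) = a (t, ξ)

def WeldPOf : Prop := WeldStmt → WeldPStmt

def GluePStmt : Prop := ∀ (M : Type) [MetricSpace M] (A : Amb M) (n : ℕ) (Y B : C2 → M)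
  (r₁ ρ₁ ρ₂ r₂ : ℝ), 0 < n → Pd n Y → Pd n B →
  0 < r₁ → r₁ < ρ₁ → ρ₁ < ρ₂ → ρ₂ < r₂ → Mt A.l Y B id (An r₁ r₂) →
  (∀ᶠ t in A.l, ∀ ξ ∈ An r₁ r₂, A.LC Y (t, ξ)) → Ch A B (An r₁ r₂) →
  ∃ (a b : C2 → ℂ) (N : C2 → M), Pd n N ∧ Wl A.l a b ρ₁ ρ₂ ∧ ∀ᶠ t in A.l,
    (∀ ξ, ‖ξ‖ < ρ₂ → N (t, ξ) = B (t, a (t, ξ)) ∧ (A.LC B (t, a (t, ξ)) → A.LC N (t, ξ))) ∧
    ∀ ξ, ρ₁ < ‖ξ‖ → N (t, ξ) = Y (t, b (t, ξ)) ∧ (A.LC Y (t, b (t, ξ)) → A.LC N (t, ξ))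

def GluePOf : Prop := PhiStmt → WeldPStmt → GluePStmt

def FillPStmt : Prop := ∀ (M : Type) [MetricSpace M] (A : Amb M) (n : ℕ) (V E P' : C2 → M)
  (c : ℂ → ℂ) (H : Finset ℂ) (a : ℂ) (r : ℝ), 0 < n → Pd n V → Pd n E →
  0 < r → a ∈ H → (0 : ℂ) ∉ H → IsV A V H →
  IsE A .disc E c r (sv V (.inr a)) P' → Ve A V H .disc E c r (fun ε _ ω b => ‖a + b - ω‖ < ε) →
  ∃ V', Pd n V' ∧ Fl A V V' E H a r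

def FillPOf : Prop := SymStmt → GluePStmt → FillPStmt

def MergePStmt : Prop := ∀ (M : Type) [MetricSpace M] (A : Amb M) (n : ℕ) (κ : Kd)
  (E₁ V E₂ P P' : C2 → M) (c₁ c₂ : ℂ → ℂ) (r : ℝ), 0 < n → Pd n E₁ → Pd n V → Pd n E₂ →
  Function.Periodic c₁ (tp n) → Function.Periodic c₂ (tp n) → 0 < r → IsV A V ∅ →
  IsE A .neck E₁ c₁ r P (sv V (.inl true)) → IsE A κ E₂ c₂ r (sv V (.inl false)) P' →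
  Ve A V ∅ .neck E₁ c₁ r (fun ε t ω b => ‖ω⁻¹ - c₁ t / b‖ < ε) →
  Ve A V ∅ κ E₂ c₂ r (fun ε _ ω b => ‖ω - b‖ < ε) →
  (∀ r' < r, ∀ᶠ t in A.l, ∀ b₁ ∈ De .neck (c₁ t) r', ∀ b₂ ∈ De κ (c₂ t) r',
    E₁ (t, b₁) ≠ E₂ (t, b₂)) →
  ∃ N, Pd n N ∧ IsE A κ N (fun t => c₁ t * c₂ t) r P P' ∧ Mg A κ E₁ V E₂ N c₁ c₂ r

def MergePOf : Prop := SymStmt → GluePStmt → MergePStmt

end Pool.Agent.MP_c69980_ag.G3
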