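import Pool.Agent.MP_c69980_ag.G3.Defs

/-!
Welding, continuation, matching, gluing.
-/

set_option autoImplicit false

noncomputable section

namespace Pool.Agent.MP_c69980_ag.G3

open Metric Filter Topology Set

/-! ### Rows Lin, Inv, Weld: welding along a circle -/

/-- Osgood's lemma. -/
def OsgStmt : Prop := ∀ (F : C2 → ℂ) (O : Set C2), IsOpen O → ContinuousOn F O →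
  (∀ p ∈ O, DifferentiableAt ℂ (fun t => F (t, p.2)) p.1 ∧
    DifferentiableAt ℂ (fun w => F (p.1, w)) p.2) → AnalyticOnNhd ℂ F O

/-- The linear problem: `α ∘ Φ = β` with `α` on a disc and `β` outside a disc. -/
def LinStmt : Prop := ∀ r₁ r₁' r₂' r₂ : ℝ, 0 < r₁ → r₁ < r₁' → r₁' < r₂' → r₂' < r₂ →
  ∃ δ C : ℝ, 0 < δ ∧ ∀ (T : Set ℂ) (Φ : C2 → ℂ), IsOpen T →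
    (∀ t ∈ T, ∀ ξ, r₁ < ‖ξ‖ → ‖ξ‖ < r₂ → AnalyticAt ℂ Φ (t, ξ) ∧ ‖Φ (t, ξ) - ξ‖ ≤ δ) →
    ∃ α β : C2 → ℂ, ∀ t ∈ T, (∀ η, ‖η‖ < r₂' → AnalyticAt ℂ α (t, η)) ∧
      (∀ ξ, r₁' < ‖ξ‖ → AnalyticAt ℂ β (t, ξ)) ∧ α (t, 0) = 0 ∧
      (∀ ξ, r₁' < ‖ξ‖ → ‖ξ‖ < r₂ → ‖Φ (t, ξ)‖ < r₂' → α (t, Φ (t, ξ)) = β (t, ξ)) ∧
      ∀ e : ℝ, (∀ ξ, r₁ < ‖ξ‖ → ‖ξ‖ < r₂ → ‖Φ (t, ξ) - ξ‖ ≤ e) →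
        (∀ η, ‖η‖ < r₂' → ‖α (t, η) - η‖ ≤ C * e) ∧ ∀ ξ, r₁' < ‖ξ‖ → ‖β (t, ξ) - ξ‖ ≤ C * e

def LinOf : Prop := OsgStmt → LinStmt

/-- Inversion of maps near the identity. -/
def InvStmt : Prop := ∀ (T D : Set ℂ) (f : C2 → ℂ) (ρ : ℝ), IsOpen T → IsOpen D → 0 < ρ →
  (∀ t ∈ T, ∀ ζ ∈ D, ∀ ξ ∈ ball ζ (2 * ρ), AnalyticAt ℂ f (t, ξ) ∧ ‖f (t, ξ) - ξ‖ ≤ ρ / 4) →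
  ∃ g : C2 → ℂ, ∀ t ∈ T, ∀ ζ ∈ D, AnalyticAt ℂ g (t, ζ) ∧ dw g (t, ζ) ≠ 0 ∧
    g (t, ζ) ∈ ball ζ ρ ∧ f (t, g (t, ζ)) = ζ ∧ ∀ ξ ∈ ball ζ ρ, f (t, ξ) = ζ → ξ = g (t, ζ)

/-- Filters with a basis of open sets. -/
def Opn (l : Filter ℂ) : Prop := ∀ s ∈ l, ∃ o ∈ l, IsOpen o ∧ o ⊆ s

/-- Maps `a` on the disc of radius `ρ₂` and `b` outside the disc of radius `ρ₁` that tend to the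
identity. -/
structure Wl (l : Filter ℂ) (a b : C2 → ℂ) (ρ₁ ρ₂ : ℝ) : Prop where
  an : ∀ᶠ t in l, (∀ ξ, ‖ξ‖ < ρ₂ → AnalyticAt ℂ a (t, ξ) ∧ dw a (t, ξ) ≠ 0 ∧
      ∀ ξ', ‖ξ'‖ < ρ₂ → a (t, ξ) = a (t, ξ') → ξ = ξ') ∧
    ∀ ξ, ρ₁ < ‖ξ‖ → AnalyticAt ℂ b (t, ξ) ∧ dw b (t, ξ) ≠ 0 ∧
      ∀ ξ', ρ₁ < ‖ξ'‖ → b (t, ξ) = b (t, ξ') → ξ = ξ'
  near : ∀ ε : ℝ, 0 < ε → ∀ᶠ t in l, (∀ ξ, ‖ξ‖ < ρ₂ → ‖a (t, ξ) - ξ‖ ≤ ε * ‖ξ‖) ∧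
    ∀ ξ, ρ₁ < ‖ξ‖ → ‖b (t, ξ) - ξ‖ ≤ ε
  sa : ∀ ρ < ρ₂, ∀ᶠ t in l, ∀ η : ℂ, ‖η‖ ≤ ρ → ∃ ξ, ‖ξ‖ < ρ₂ ∧ a (t, ξ) = η
  sb : ∀ ρ > ρ₁, ∀ᶠ t in l, ∀ η : ℂ, ρ ≤ ‖η‖ → ∃ ξ, ρ₁ < ‖ξ‖ ∧ b (t, ξ) = η

def WeldStmt : Prop := ∀ (l : Filter ℂ) (Φ : C2 → ℂ) (r₁ ρ₁ ρ₂ r₂ : ℝ), Opn l → 0 < r₁ → r₁ < ρ₁ →
  ρ₁ < ρ₂ → ρ₂ < r₂ → (∀ᶠ t in l, ∀ ξ, r₁ < ‖ξ‖ → ‖ξ‖ < r₂ → AnalyticAt ℂ Φ (t, ξ)) →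
  (∀ ε : ℝ, 0 < ε → ∀ᶠ t in l, ∀ ξ, r₁ < ‖ξ‖ → ‖ξ‖ < r₂ → ‖Φ (t, ξ) - ξ‖ ≤ ε) →
  ∃ a b, Wl l a b ρ₁ ρ₂ ∧ ∀ᶠ t in l, ∀ ξ, ρ₁ < ‖ξ‖ → ‖ξ‖ < ρ₂ → Φ (t, b (t, ξ)) = a (t, ξ)

def WeldOf : Prop := LinStmt → InvStmt → WeldStmt

/-! ### Rows Cont, Mon: continuation and normal families -/

/-- A relation that is locally a graph, with an a priori bound, contains a graph. -/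
def ContStmt : Prop := ∀ (R : ℂ → ℂ → Prop) (K : Set ℂ) (z₀ w₀ : ℂ) (r : ℝ), 0 < r → IsCompact K →
  R z₀ w₀ → w₀ ∈ K →
  (∀ z ∈ ball z₀ r, ∀ w ∈ K, (∃ᶠ q in 𝓝 ((z, w) : C2), R q.1 q.2) → ∃ ω : ℂ → ℂ,
    AnalyticAt ℂ ω z ∧ ω z = w ∧ ∀ᶠ q in 𝓝 ((z, w) : C2), R q.1 q.2 ↔ q.2 = ω q.1) →
  (∀ (ρ : ℝ) (ω : ℂ → ℂ), ρ < r → AnalyticOnNhd ℂ ω (ball z₀ ρ) → ω z₀ = w₀ →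
    (∀ z ∈ ball z₀ ρ, R z (ω z)) → ∀ z ∈ ball z₀ ρ, ω z ∈ K) →
  ∃ ω : ℂ → ℂ, AnalyticOnNhd ℂ ω (ball z₀ r) ∧ ω z₀ = w₀ ∧ ∀ z ∈ ball z₀ r, R z (ω z) ∧ ω z ∈ K

/-- Montel along an ultrafilter. -/
def MonStmt : Prop := ∀ (ι : Type) (u : Ultrafilter ι) (f : ι → ℂ → ℂ) (c : ℂ) (r B : ℝ),
  (∀ᶠ k in (u : Filter ι), DifferentiableOn ℂ (f k) (ball c r) ∧ ∀ z ∈ ball c r, ‖f k z‖ ≤ B) →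
  ∃ g : ℂ → ℂ, AnalyticOnNhd ℂ g (ball c r) ∧ (∀ z ∈ ball c r, ‖g z‖ ≤ B ∧
      Tendsto (fun k => deriv (f k) z) u (𝓝 (deriv g z))) ∧
    ∀ r' < r, TendstoUniformlyOn f g u (closedBall c r')

variable {M : Type} [MetricSpace M]

/-! ### Rows Phi, Sym, Glue: matching -/

/-- Charts on `D`, injective, near the end. -/
def Ch (A : Amb M) (Y : C2 → M) (D : Set ℂ) : Prop :=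
  ∀ᶠ t in A.l, ∀ w ∈ D, A.LC Y (t, w) ∧ ∀ w' ∈ D, Y (t, w) = Y (t, w') → w = w'

/-- The transition map is analytic. -/
def PhiStmt : Prop := ∀ (M : Type) [MetricSpace M] (A : Amb M), Opn A.l ∧ A.l.NeBot ∧
  ∀ (Y P : C2 → M) (Ψ : ℂ → ℂ) (K D : Set ℂ) (η : ℝ), 0 < η → IsOpen K → Mt A.l Y P Ψ K →
    (∀ᶠ t in A.l, ∀ ξ ∈ K, A.LC Y (t, ξ)) → Ch A P D → (∀ ξ ∈ K, ball (Ψ ξ) η ⊆ D) →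
    ∃ Φ : C2 → ℂ, (∀ᶠ t in A.l, ∀ ξ ∈ K, AnalyticAt ℂ Φ (t, ξ) ∧ dw Φ (t, ξ) ≠ 0 ∧
      Φ (t, ξ) ∈ D ∧ Y (t, ξ) = P (t, Φ (t, ξ))) ∧
      ∀ ε : ℝ, 0 < ε → ∀ᶠ t in A.l, ∀ ξ ∈ K, ‖Φ (t, ξ) - Ψ ξ‖ ≤ ε

/-- Matching is symmetric. -/
def SymStmt : Prop := ∀ (M : Type) [MetricSpace M] (A : Amb M) (Y P : C2 → M) (r₁ ρ₁ ρ₂ r₂ : ℝ),
  0 < r₁ → r₁ < ρ₁ → ρ₂ < r₂ → Mt A.l Y P id (An r₁ r₂) →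
  (∀ᶠ t in A.l, ∀ ξ ∈ An r₁ r₂, A.LC Y (t, ξ)) → Ch A P (An r₁ r₂) → Mt A.l P Y id (An ρ₁ ρ₂)

def SymOf : Prop := PhiStmt → InvStmt → SymStmt

/-- An outer chart `Y` and an inner chart `B` are glued to one chart `N`. -/
def GlueStmt : Prop := ∀ (M : Type) [MetricSpace M] (A : Amb M) (Y B : C2 → M) (r₁ ρ₁ ρ₂ r₂ : ℝ),
  0 < r₁ → r₁ < ρ₁ → ρ₁ < ρ₂ → ρ₂ < r₂ → Mt A.l Y B id (An r₁ r₂) →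
  (∀ᶠ t in A.l, ∀ ξ ∈ An r₁ r₂, A.LC Y (t, ξ)) → Ch A B (An r₁ r₂) →
  ∃ (a b : C2 → ℂ) (N : C2 → M), Wl A.l a b ρ₁ ρ₂ ∧ ∀ᶠ t in A.l,
    (∀ ξ, ‖ξ‖ < ρ₂ → N (t, ξ) = B (t, a (t, ξ)) ∧ (A.LC B (t, a (t, ξ)) → A.LC N (t, ξ))) ∧
    ∀ ξ, ρ₁ < ‖ξ‖ → N (t, ξ) = Y (t, b (t, ξ)) ∧ (A.LC Y (t, b (t, ξ)) → A.LC N (t, ξ))

def GlueOf : Prop := PhiStmt → WeldStmt → GlueStmt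

/-! ### Row SLift: lifts of curves that converge -/

/-- Holomorphic curves `z ↦ (τ z, s z)` in the family. -/
def Hm (A : Amb M) (O : Set ℂ) (τ : ℂ → ℂ) (s : ℂ → M) : Prop :=
  ∀ z ∈ O, ContinuousAt τ z ∧ ContinuousAt s z ∧ ∀ Y w, A.LC Y (τ z, w) → s z = Y (τ z, w) →
    ∃ ω : ℂ → ℂ, AnalyticAt ℂ ω z ∧ ω z = w ∧ ∀ᶠ z' in 𝓝 z, s z' = Y (τ z', ω z')

def SLiftStmt : Prop := ∀ (M : Type) [MetricSpace M] (A : Amb M) (ι : Type) (u : Ultrafilter ι)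
  (τ : ι → ℂ → ℂ) (s : ι → ℂ → M) (w : ι → ℂ) (γ ψ : ℂ → M) (Y : C2 → M) (z₀ w₀ : ℂ) (ρ η : ℝ),
  0 < ρ → 0 < η → (∀ᶠ k in (u : Filter ι), Hm A (ball z₀ ρ) (τ k) (s k)) →
  (∀ o ∈ A.l, ∀ᶠ k in (u : Filter ι), ∀ z ∈ ball z₀ ρ, τ k z ∈ o) →
  TendstoUniformlyOn s γ u (ball z₀ ρ) → ContinuousAt γ z₀ →
  (∀ᶠ t in A.l, ∀ v ∈ closedBall w₀ η, A.LC Y (t, v)) → Lm A.l Y ψ (closedBall w₀ η) →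
  ContinuousOn ψ (closedBall w₀ η) → InjOn ψ (closedBall w₀ η) →
  (∀ᶠ k in (u : Filter ι), s k z₀ = Y (τ k z₀, w k)) → Tendsto w u (𝓝 w₀) →
  ∃ (ρ' : ℝ) (ω : ι → ℂ → ℂ) (g : ℂ → ℂ), 0 < ρ' ∧ ρ' ≤ ρ ∧ AnalyticOnNhd ℂ g (ball z₀ ρ') ∧
    g z₀ = w₀ ∧ (∀ z ∈ ball z₀ ρ', g z ∈ closedBall w₀ η ∧ γ z = ψ (g z) ∧
      Tendsto (fun k => deriv (ω k) z) u (𝓝 (deriv g z))) ∧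
    TendstoUniformlyOn ω g u (ball z₀ ρ') ∧ ∀ᶠ k in (u : Filter ι),
      AnalyticOnNhd ℂ (ω k) (ball z₀ ρ') ∧ ω k z₀ = w k ∧
        ∀ z ∈ ball z₀ ρ', ω k z ∈ closedBall w₀ η ∧ s k z = Y (τ k z, ω k z)

def SLiftOf : Prop := ContStmt → MonStmt → SLiftStmt

/-! ### Rows Fill, Merge, Sph, Tor -/

/-- The chart `V` read at a slot. -/
def sv (V : C2 → M) (s : Bool ⊕ ℂ) : C2 → M := fun q => V (q.1, slot s q.2)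

/-- An explicit vertex with holes `H`. -/
def IsV (A : Amb M) (V : C2 → M) (H : Finset ℂ) : Prop := ∀ ρ, 0 < ρ → ∀ᶠ t in A.l,
  ∀ ω ∈ Dv H ρ, A.LZ V (t, ω) ∧ ∀ ω' ∈ Dv H ρ, V (t, ω) = V (t, ω') → ω = ω'

/-- `V` meets the edge `E` only where the coordinates satisfy `R ε t ω b`. -/
def Ve (A : Amb M) (V : C2 → M) (H : Finset ℂ) (κ : Kd) (E : C2 → M) (c : ℂ → ℂ) (r : ℝ)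
    (R : ℝ → ℂ → ℂ → ℂ → Prop) : Prop :=
  ∀ ρ r' ε : ℝ, 0 < ρ → r' < r → 0 < ε → ∀ᶠ t in A.l, ∀ ω ∈ Dv H ρ, ∀ b ∈ De κ (c t) r',
    V (t, ω) = E (t, b) → R ε t ω b

/-- `V'` is `V` with the hole at `a` filled by the disc `E`. -/
structure Fl (A : Amb M) (V V' E : C2 → M) (H : Finset ℂ) (a : ℂ) (r : ℝ) : Prop where
  isv : IsV A V' (H.erase a)
  fw : ∀ ρ, 0 < ρ → ∃ ρ' r' : ℝ, 0 < ρ' ∧ r' < r ∧ ∀ ε : ℝ, 0 < ε → ∀ᶠ t in A.l,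
    ∀ ω' ∈ Dv (H.erase a) ρ, (∃ ω ∈ Dv H ρ', ‖ω - ω'‖ ≤ ε ∧ V' (t, ω') = V (t, ω)) ∨
      ∃ b : ℂ, ‖b‖ ≤ r' ∧ ‖a + b - ω'‖ ≤ ε ∧ V' (t, ω') = E (t, b)
  bw : ∀ ρ ε : ℝ, 0 < ρ → 0 < ε → ∀ᶠ t in A.l,
    ∀ ω ∈ Dv H ρ, ∃ ω', ‖ω - ω'‖ ≤ ε ∧ V' (t, ω') = V (t, ω)
  bw' : ∃ ρ : ℝ, 0 < ρ ∧ ∀ ε : ℝ, 0 < ε → ∀ᶠ t in A.l,
    ∀ b : ℂ, ‖b‖ ≤ ρ → ∃ ω', ‖a + b - ω'‖ ≤ ε ∧ V' (t, ω') = E (t, b)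

def FillStmt : Prop := ∀ (M : Type) [MetricSpace M] (A : Amb M) (V E P' : C2 → M) (c : ℂ → ℂ)
  (H : Finset ℂ) (a : ℂ) (r : ℝ), 0 < r → a ∈ H → (0 : ℂ) ∉ H → IsV A V H →
  IsE A .disc E c r (sv V (.inr a)) P' → Ve A V H .disc E c r (fun ε _ ω b => ‖a + b - ω‖ < ε) →
  ∃ V', Fl A V V' E H a r

def FillOf : Prop := SymStmt → GlueStmt → FillStmt

/-- `N` is the union of the neck `E₁`, the cylinder `V` and the edge `E₂`. -/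
structure Mg (A : Amb M) (κ : Kd) (E₁ V E₂ N : C2 → M) (c₁ c₂ : ℂ → ℂ) (r : ℝ) : Prop where
  fw : ∀ r' < r, ∃ ρ r'' : ℝ, 0 < ρ ∧ r'' < r ∧ ∀ ε : ℝ, 0 < ε → ∀ᶠ t in A.l,
    ∀ b ∈ De κ (c₁ t * c₂ t) r',
      (∃ b₁ ∈ De .neck (c₁ t) r'', ‖b₁ - b‖ ≤ ε * ‖b‖ ∧ N (t, b) = E₁ (t, b₁)) ∨
      (∃ ω ∈ Dv ∅ ρ, ‖c₁ t * ω - b‖ ≤ ε * ‖b‖ ∧ N (t, b) = V (t, ω)) ∨
      ∃ b₂ ∈ De κ (c₂ t) r'', ‖c₁ t * b₂ - b‖ ≤ ε * ‖b‖ ∧ N (t, b) = E₂ (t, b₂)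
  bw : ∃ r' : ℝ, 0 < r' ∧ ∀ ρ ε : ℝ, 0 < ρ → 0 < ε → ∀ᶠ t in A.l,
    (∀ b₁ ∈ De .neck (c₁ t) r', ∃ b, ‖b₁ - b‖ ≤ ε * ‖b‖ ∧ N (t, b) = E₁ (t, b₁)) ∧
    (∀ ω ∈ Dv ∅ ρ, ∃ b, ‖c₁ t * ω - b‖ ≤ ε * ‖b‖ ∧ N (t, b) = V (t, ω)) ∧
    ∀ b₂ ∈ De κ (c₂ t) r', ∃ b, ‖c₁ t * b₂ - b‖ ≤ ε * ‖b‖ ∧ N (t, b) = E₂ (t, b₂)

def MergeStmt : Prop := ∀ (M : Type) [MetricSpace M] (A : Amb M) (κ : Kd)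
  (E₁ V E₂ P P' : C2 → M) (c₁ c₂ : ℂ → ℂ) (r : ℝ), 0 < r → IsV A V ∅ →
  IsE A .neck E₁ c₁ r P (sv V (.inl true)) → IsE A κ E₂ c₂ r (sv V (.inl false)) P' →
  Ve A V ∅ .neck E₁ c₁ r (fun ε t ω b => ‖ω⁻¹ - c₁ t / b‖ < ε) →
  Ve A V ∅ κ E₂ c₂ r (fun ε _ ω b => ‖ω - b‖ < ε) →
  (∀ r' < r, ∀ᶠ t in A.l, ∀ b₁ ∈ De .neck (c₁ t) r', ∀ b₂ ∈ De κ (c₂ t) r',
    E₁ (t, b₁) ≠ E₂ (t, b₂)) →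
  ∃ N, IsE A κ N (fun t => c₁ t * c₂ t) r P P' ∧ Mg A κ E₁ V E₂ N c₁ c₂ r

def MergeOf : Prop := SymStmt → GlueStmt → MergeStmt

/-- Spheres with at most two punctures do not occur. -/
def SphStmt : Prop := ∀ (M : Type) [MetricSpace M] (A : Amb M) (κ₁ κ₂ : Kd)
  (E₁ V E₂ P P' : C2 → M) (c₁ c₂ : ℂ → ℂ) (r : ℝ), 0 < r → IsV A V ∅ → κ₁ ≠ .neck → κ₂ ≠ .neck →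
  IsE A κ₁ E₁ c₁ r (sv V (.inl true)) P → IsE A κ₂ E₂ c₂ r (sv V (.inl false)) P' → False

def SphOf : Prop := PhiStmt → SymStmt → GlueStmt → SphStmt

/-- A function on a long annulus that is almost periodic has no zero. -/
def PerStmt : Prop := ∀ (r₁ r₂ : ℝ) (m : ℕ), 0 < r₁ → r₁ < r₂ → ∃ ε : ℝ, 0 < ε ∧
  ∀ (f Φ : ℂ → ℂ) (c : ℂ), c ≠ 0 → ‖c‖ ≤ ε →
    (∀ ξ, ‖c‖ * r₁ < ‖ξ‖ → ‖ξ‖ < 2 * r₂ → AnalyticAt ℂ f ξ) →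
    (∀ ω, r₁ < ‖ω‖ → ‖ω‖ < r₂ → AnalyticAt ℂ Φ ω ∧ ‖Φ ω - ω‖ ≤ ε ∧
      c ^ m * f (c * ω) = deriv Φ ω ^ m * f (Φ ω)) →
    (∃ ξ, ‖ξ‖ = r₁ / 2 ∧ f ξ = 0) → ∀ ξ, ‖ξ‖ = r₁ / 2 → f ξ = 0

def PerOf : Prop := InvStmt → PerStmt

/-- Tori do not occur. -/
def TorStmt : Prop := ∀ (M : Type) [MetricSpace M] (A : Amb M) (E V : C2 → M) (c : ℂ → ℂ) (r : ℝ),
  0 < r → IsV A V ∅ → IsE A .neck E c r (sv V (.inl false)) (sv V (.inl true)) → False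

def TorOf : Prop := PhiStmt → SymStmt → GlueStmt → PerStmt → TorStmt

end Pool.Agent.MP_c69980_ag.G3
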