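import Pool.Agent.MP_c69980_ag.G3.SpecW

/-!
Tori do not occur.
-/

set_option autoImplicit false

noncomputable section

namespace Pool.Agent.MP_c69980_ag.G3

open Metric Filter Topology Set

namespace TorX

variable {M : Type} [MetricSpace M] {A : Amb M} {E V N P P' : C2 → M} {c : ℂ → ℂ}
  {a b : C2 → ℂ} {r R : ℝ}

lemma inv_near {ε : ℝ} (hR : 0 < R) (hε : 0 < ε) : ∃ δ : ℝ, 0 < δ ∧ ∀ u w : ℂ, u ≠ 0 →
    ‖u‖ ≤ R → ‖w - u⁻¹‖ < δ → ‖w⁻¹ - u‖ < ε := by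
  refine ⟨min (1 / (2 * R)) (ε / (4 * R ^ 2)), by positivity, fun u w u0 hu hw => ?_⟩
  rw [lt_min_iff, lt_div_iff₀ (by positivity), lt_div_iff₀ (by positivity)] at hw
  have e1 : u * w - 1 = u * (w - u⁻¹) := by field_simp
  have h1 : ‖u * w - 1‖ ≤ R * ‖w - u⁻¹‖ := by
    rw [e1, norm_mul]
    exact mul_le_mul_of_nonneg_right hu (norm_nonneg _)
  have h2 : 1 / 2 ≤ ‖u * w‖ := by
    have := norm_sub_norm_le (1 : ℂ) (u * w)
    rw [norm_one, norm_sub_rev] at this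
    linarith
  have w0 : w ≠ 0 := fun h => by
    rw [h, mul_zero, norm_zero] at h2
    linarith
  have e2 : (w⁻¹ - u) * (u * w) = -(u * (u * w - 1)) := by
    field_simp
    ring
  have h3 := congrArg norm e2
  rw [norm_neg, norm_mul, norm_mul u (u * w - 1)] at h3
  have h4 := mul_le_mul hu h1 (norm_nonneg _) hR.le
  have h5 := mul_le_mul_of_nonneg_left h2 (norm_nonneg (w⁻¹ - u))
  nlinarith

lemma inn' (hE : IsE A .neck E c r P (sv V (.inl true))) (r0 : 0 < r) (R0 : 0 < R) :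
    Mt A.l (fun q => E (q.1, c q.1 * q.2)) V id (An (2 / r) R) := fun ε hε => by
  obtain ⟨δ, δ0, hδ⟩ := inv_near R0 hε
  filter_upwards [hE.inn rfl R⁻¹ (r / 2) (by positivity) (half_lt_self r0) δ δ0] with t h u hu
  have u0 : 0 < ‖u‖ := lt_of_lt_of_le (by positivity) hu.1
  obtain ⟨w, h1, h2⟩ := h u⁻¹ ⟨by rw [norm_inv]; exact inv_anti₀ u0 hu.2, by
    rw [norm_inv, ← inv_div]; exact inv_anti₀ (by positivity) hu.1⟩
  refine ⟨w⁻¹, hδ u w (norm_pos_iff.1 u0) hu.2 h1, ?_⟩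
  simp only [div_inv_eq_mul] at h2
  exact h2

lemma chV (hV : IsV A V ∅) {ρ₁ : ℝ} (ρ₂ : ℝ) (h : 0 < ρ₁) : ∀ᶠ t in A.l, ∀ ω ∈ An ρ₁ ρ₂,
    A.LZ V (t, ω) ∧ ∀ ω' ∈ An ρ₁ ρ₂, V (t, ω) = V (t, ω') → ω = ω' := by
  have h1 : 0 < max ρ₂ 1 := lt_max_of_lt_right one_pos
  have hs : An ρ₁ ρ₂ ⊆ Dv ∅ (min ρ₁ (max ρ₂ 1)⁻¹) := fun ω hω =>
    ⟨(min_le_left _ _).trans hω.1, (hω.2.trans (le_max_left _ 1)).trans
      (le_inv_of_le_inv₀ (by positivity) (min_le_right _ _)), by simp⟩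
  filter_upwards [hV _ (lt_min h (inv_pos.2 h1))] with t ht ω hω
  exact ⟨(ht ω (hs hω)).1, fun ω' hω' => (ht ω (hs hω)).2 ω' (hs hω')⟩

lemma small (hE : IsE A .neck E c r P P') {ε : ℝ} (h : 0 < ε) : ∀ᶠ t in A.l, ‖c t‖ < ε := by
  simpa using (hE.cc rfl).1.eventually (ball_mem_nhds _ h)

lemma chE (hE : IsE A .neck E c r P P') {ρ₁ ρ₂ : ℝ} (h : 0 < ρ₁) (h0 : 0 < ρ₂) (h2 : ρ₂ < r) :
    Ch A E (An ρ₁ ρ₂) := by
  filter_upwards [hE.lc ρ₂ h2, small hE (mul_pos h0 h)] with t ht hc ω hω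
  have hs : An ρ₁ ρ₂ ⊆ De .neck (c t) ρ₂ := fun ω hω =>
    ⟨hω.2, fun _ => hc.le.trans (mul_le_mul_of_nonneg_left hω.1 h0.le)⟩
  exact ⟨(ht ω (hs hω)).1, fun ω' hω' => (ht ω (hs hω)).2.2 ω' (hs hω')⟩

/-- The glued chart. -/
def Gl (A : Amb M) (E V N : C2 → M) (a b : C2 → ℂ) (r : ℝ) : Prop :=
  Wl A.l a b (r / 6) (r / 4) ∧ ∀ᶠ t in A.l,
    (∀ ξ, ‖ξ‖ < r / 4 → N (t, ξ) = E (t, a (t, ξ)) ∧ (A.LC E (t, a (t, ξ)) → A.LC N (t, ξ))) ∧
    ∀ ξ, r / 6 < ‖ξ‖ → N (t, ξ) = V (t, b (t, ξ)) ∧ (A.LC V (t, b (t, ξ)) → A.LC N (t, ξ))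

lemma glue (hs : SymStmt) (hg : GlueStmt) (r0 : 0 < r) (hV : IsV A V ∅)
    (hE : IsE A .neck E c r V P') : ∃ a b N, Gl A E V N a b r := by
  refine hg M A V E (r / 8) _ _ (r / 3) (by positivity) (by linarith) (by linarith) (by linarith)
    (hs M A E V (r / 16) _ _ (r / 2) (by positivity) (by linarith) (by linarith)
      (hE.out _ _ (by positivity) (by linarith)) ?_ ?_) ?_
    (chE hE (by positivity) (by positivity) (by linarith))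
  · exact (chE hE (by positivity) (by positivity) (by linarith)).mono fun t h ξ hξ => (h ξ hξ).1
  · exact (chV hV _ (by positivity)).mono fun t h ξ hξ => ⟨(h ξ hξ).1.1, (h ξ hξ).2⟩
  · exact (chV hV _ (by positivity)).mono fun t h ξ hξ => (h ξ hξ).1.1

/-- The outer part of the glued chart. -/
lemma outer (r0 : 0 < r) (hV : IsV A V ∅) (hG : Gl A E V N a b r) (S : ℝ) : ∀ᶠ t in A.l,
    ∀ ξ, r / 6 < ‖ξ‖ → ‖ξ‖ ≤ S → A.LZ N (t, ξ) ∧
      ∀ ξ', r / 6 < ‖ξ'‖ → ‖ξ'‖ ≤ S → N (t, ξ) = N (t, ξ') → ξ = ξ' := by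
  filter_upwards [hG.2, hG.1.an, hG.1.near (r / 12) (by positivity),
    chV hV (S + r / 12) (by positivity : 0 < r / 12)] with t h1 h2 h3 h4
  have hb : ∀ ξ, r / 6 < ‖ξ‖ → ‖ξ‖ ≤ S → b (t, ξ) ∈ An (r / 12) (S + r / 12) := fun ξ k1 k2 => by
    have k3 := (abs_norm_sub_norm_le _ _).trans (h3.2 ξ k1)
    rw [abs_le] at k3
    exact ⟨by linarith, by linarith⟩
  intro ξ k1 k2
  have k3 := h4 _ (hb ξ k1 k2)
  refine ⟨⟨(h1.2 ξ k1).2 k3.1.1, by rw [(h1.2 ξ k1).1]; exact k3.1.2⟩, fun ξ' k4 k5 k6 => ?_⟩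
  rw [(h1.2 ξ k1).1, (h1.2 ξ' k4).1] at k6
  exact (h2.2 ξ k1).2.2 ξ' k4 (k3.2 _ (hb ξ' k4 k5) k6)

/-- The glued chart on the long annulus. -/
lemma long (r0 : 0 < r) (hR : 4 ≤ r * R) (hV : IsV A V ∅) (hE : IsE A .neck E c r P P')
    (hG : Gl A E V N a b r) (S : ℝ) : ∀ᶠ t in A.l,
    ∀ ξ, ‖c t‖ * R < ‖ξ‖ → ‖ξ‖ ≤ S → A.LZ N (t, ξ) := by
  filter_upwards [outer r0 hV hG S, hG.2, hG.1.near (1 / 2) one_half_pos,
    hE.lc (r / 2) (half_lt_self r0)] with t h1 h2 h3 h4 ξ k1 k2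
  rcases lt_or_ge (r / 6) ‖ξ‖ with k3 | k3
  · exact (h1 ξ k3 k2).1
  have k4 : ‖ξ‖ < r / 4 := by linarith
  have k5 := (abs_norm_sub_norm_le _ _).trans (h3.1 ξ k4)
  rw [abs_le] at k5
  have k6 := h4 (a (t, ξ)) ⟨by linarith, fun _ => by
    nlinarith [mul_le_mul_of_nonneg_left hR (norm_nonneg (c t)),
      mul_le_mul_of_nonneg_left k1.le r0.le, mul_le_mul_of_nonneg_left k5.1 r0.le]⟩
  exact ⟨(h2.1 ξ k4).2 k6.1, by rw [(h2.1 ξ k4).1]; exact k6.2.1.2 (by simp)⟩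

lemma c_ne (hE : IsE A .neck E c r P P') : ∀ᶠ t in A.l, AnalyticAt ℂ c t ∧ c t ≠ 0 := by
  obtain ⟨K, h⟩ := (hE.cc rfl).2
  exact h.mono fun t ht => ⟨ht.1, norm_pos_iff.1 ((Real.exp_pos _).trans_le ht.2)⟩

/-- The two ends of the long annulus match. -/
lemma mt (r0 : 0 < r) (hR : 4 ≤ r * R) (hr : r ≤ R) (hE : IsE A .neck E c r P (sv V (.inl true)))
    (hG : Gl A E V N a b r) :
    Mt A.l (fun q => N (q.1, c q.1 * q.2)) N id {ω | R < ‖ω‖ ∧ ‖ω‖ < 2 * R} := fun ε hε => by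
  have R0 : 0 < R := r0.trans_le hr
  obtain ⟨δ, δ0, δ1, δ2, δ3⟩ : ∃ δ : ℝ, 0 < δ ∧ δ ≤ 1 / 2 ∧ δ ≤ r / 4 ∧ δ * (2 * R + 2) ≤ ε :=
    ⟨min (1 / 2) (min (r / 4) (ε / (2 * R + 2))), by positivity, min_le_left _ _,
      (min_le_right _ _).trans (min_le_left _ _),
      (le_div_iff₀ (by positivity)).1 ((min_le_right _ _).trans (min_le_right _ _))⟩
  filter_upwards [inn' hE r0 (by positivity : 0 < 4 * R) δ δ0, hG.2, hG.1.near δ δ0,
    hG.1.sb (r / 4) (by linarith), c_ne hE, small hE (by positivity : 0 < r / 4 / (2 * R))]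
    with t h1 h2 h3 h4 h5 h6 ω hω
  have c0 : 0 < ‖c t‖ := norm_pos_iff.2 h5.2
  have k1 : ‖c t * ω‖ < r / 4 := by
    rw [lt_div_iff₀ (by positivity)] at h6
    rw [norm_mul]
    exact (mul_lt_mul_of_pos_left hω.2 c0).trans h6
  have k2 : ‖a (t, c t * ω) / c t - ω‖ ≤ δ * ‖ω‖ := by
    have := h3.1 _ k1
    rw [div_sub' h5.2, norm_div, div_le_iff₀ c0]
    rw [norm_mul] at this
    linarith
  have k3 := (abs_norm_sub_norm_le _ _).trans k2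
  rw [abs_le] at k3
  have k4 := mul_le_mul_of_nonneg_right δ1 (norm_nonneg ω)
  have k5 : 2 / r ≤ R / 2 := by
    rw [div_le_iff₀ r0]
    linarith
  obtain ⟨w, k6, k7⟩ := h1 (a (t, c t * ω) / c t) ⟨by linarith [hω.1], by linarith [hω.2]⟩
  have k8 := (abs_norm_sub_norm_le _ _).trans k6.le
  rw [abs_le, id] at k8
  obtain ⟨ξ, k9, rfl⟩ := h4 w (by linarith [hω.1])
  refine ⟨ξ, ?_, ?_⟩
  · have j1 := h3.2 ξ k9
    rw [norm_sub_rev] at j1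
    have j2 := norm_sub_le_norm_sub_add_norm_sub ξ (b (t, ξ)) ω
    have j3 := norm_sub_le_norm_sub_add_norm_sub (b (t, ξ)) (a (t, c t * ω) / c t) ω
    have j4 := mul_le_mul_of_nonneg_left hω.2.le δ0.le
    rw [id] at k6 ⊢
    linarith
  · simp only [mul_div_cancel₀ _ h5.2] at k7
    exact ((h2.1 _ k1).1.trans k7).trans (h2.2 ξ k9).1.symm

lemma dw_at {G : C2 → ℂ} {t w : ℂ} (hG : AnalyticAt ℂ G (t, w)) :
    HasDerivAt (fun z => G (t, z)) (dw G (t, w)) w :=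
  hG.differentiableAt.hasFDerivAt.comp_hasDerivAt w
    ((hasDerivAt_const w t).prodMk (hasDerivAt_id w))

lemma sl_an {G : C2 → ℂ} {t w : ℂ} (hG : AnalyticAt ℂ G (t, w)) :
    AnalyticAt ℂ (fun z => G (t, z)) w :=
  AnalyticAt.comp_of_eq hG (analyticAt_const.prod analyticAt_id) rfl

lemma scale {t ω : ℂ} (hc : AnalyticAt ℂ c t) (c0 : c t ≠ 0) (h : A.LC N (t, c t * ω)) :
    A.LC (fun q => N (q.1, c q.1 * q.2)) (t, ω) ∧
      ∀ l, A.cf (fun q => N (q.1, c q.1 * q.2)) (t, ω) l = c t ^ A.m * A.cf N (t, c t * ω) l := by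
  have ha : AnalyticAt ℂ (fun q : C2 => c q.1 * q.2) (t, ω) :=
    (AnalyticAt.comp_of_eq hc analyticAt_fst rfl).mul analyticAt_snd
  have hd : dw (fun q : C2 => c q.1 * q.2) (t, ω) = c t :=
    (dw_at ha).unique (by simpa using (hasDerivAt_id ω).const_mul (c t))
  have := A.comp N (fun q => N (q.1, c q.1 * q.2)) (t, ω) _ h ha (hd.trans_ne c0)
    (Eventually.of_forall fun _ => rfl)
  rwa [hd] at this

lemma circ {f : ℂ → ℂ} {ρ : ℝ} {z : ℂ} (h0 : 0 < ρ) (hz : ‖z‖ = ρ) (hf : AnalyticAt ℂ f z)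
    (h : ∀ ξ, ‖ξ‖ = ρ → f ξ = 0) : ∀ᶠ ξ in 𝓝 z, f ξ = 0 := by
  have hn : (sphere (0 : ℂ) ρ).Nontrivial := ⟨ρ, by simp [h0.le], -ρ, by simp [h0.le], fun q => by
    have : (ρ : ℝ) = -ρ := by exact_mod_cast q
    linarith⟩
  have h1 := (isPreconnected_sphere (by simp) (0 : ℂ) ρ).preperfect_of_nontrivial hn z
    (by simpa using hz)
  refine hf.frequently_zero_iff_eventually_zero.1 ?_
  exact (accPt_iff_frequently_nhdsNE.1 h1).mono fun ξ hξ => h ξ (by simpa using hξ)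

end TorX

open TorX in
theorem torS : TorOf := by
  intro hφ hs hg hp M _ A E V c r r0 hV hE
  obtain ⟨a, b, N, hG⟩ := glue hs hg r0 hV hE
  obtain ⟨R, hR, hr⟩ : ∃ R : ℝ, 4 ≤ r * R ∧ r ≤ R := ⟨4 / r + r, by
    rw [mul_add, mul_div_cancel₀ _ r0.ne']
    nlinarith, le_add_of_nonneg_left (by positivity)⟩
  have R0 : 0 < R := r0.trans_le hr
  obtain ⟨ho, hne, hφ⟩ := hφ M A
  have hK : IsOpen {ω : ℂ | R < ‖ω‖ ∧ ‖ω‖ < 2 * R} :=
    (isOpen_lt continuous_const continuous_norm).inter (isOpen_lt continuous_norm continuous_const)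
  have hY : ∀ᶠ t in A.l, ∀ ω, R < ‖ω‖ → ‖ω‖ < 2 * R → A.LC N (t, c t * ω) := by
    filter_upwards [long r0 hR hV hE hG (4 * R), c_ne hE, small hE one_pos] with t h1 h2 h3 ω k1 k2
    refine (h1 _ ?_ ?_).1 <;> rw [norm_mul]
    · exact mul_lt_mul_of_pos_left k1 (norm_pos_iff.2 h2.2)
    · nlinarith [norm_nonneg (c t), norm_nonneg ω]
  have hD : Ch A N (An (R / 2) (4 * R)) := (outer r0 hV hG (4 * R)).mono fun t h w hw =>
    ⟨(h w (by linarith [hw.1]) hw.2).1.1, fun w' hw' =>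
      (h w (by linarith [hw.1]) hw.2).2 w' (by linarith [hw'.1]) hw'.2⟩
  obtain ⟨Φ, hΦ, hΦ'⟩ := hφ _ N id _ (An (R / 2) (4 * R)) (R / 2) (by positivity) hK
    (mt r0 hR hr hE hG) (by
      filter_upwards [hY, c_ne hE] with t h1 h2 ω hω
      exact (scale h2.1 h2.2 (h1 ω hω.1 hω.2)).1) hD fun ξ hξ w hw => by
      have k := (abs_norm_sub_norm_le _ _).trans (mem_ball_iff_norm.1 hw).le
      rw [abs_le, id] at k
      exact ⟨by linarith [hξ.1], by linarith [hξ.2]⟩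
  obtain ⟨ε, ε0, hp⟩ := hp R (2 * R) A.m R0 (by linarith)
  obtain ⟨o, ho1, ho2, ho3⟩ := ho _ hΦ
  obtain ⟨t, t1, t2, t3, t4, t5, t6, t7, t8, t9⟩ := ((show ∀ᶠ t in A.l, t ∈ o from ho1).and
    ((hΦ' ε ε0).and (hY.and (hD.and ((c_ne hE).and ((small hE ε0).and
    ((long r0 hR hV hE hG (4 * R)).and ((small hE one_half_pos).and
    (tendsto_comap.eventually (eventually_gt_atTop A.M₀)))))))))).exists
  have hz : ‖((R / 2 : ℝ) : ℂ)‖ = R / 2 := by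
    rw [Complex.norm_real, Real.norm_of_nonneg (by positivity)]
  generalize ((R / 2 : ℝ) : ℂ) = z at hz
  have hz' : A.LZ N (t, z) := t7 z (by rw [hz]; nlinarith) (by linarith)
  have key : ∀ (α β : ℂ) (i j : Fin 3), α * A.cf N (t, z) i - β * A.cf N (t, z) j = 0 →
      ∀ᶠ ξ in 𝓝 z, α * A.cf N (t, ξ) i - β * A.cf N (t, ξ) j = 0 := fun α β i j h0 => by
    have an : ∀ ξ, A.LZ N (t, ξ) →
        AnalyticAt ℂ (fun ξ => α * A.cf N (t, ξ) i - β * A.cf N (t, ξ) j) ξ := fun ξ h =>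
      (analyticAt_const.mul (sl_an (A.an N _ h.1 h.2 i))).sub
        (analyticAt_const.mul (sl_an (A.an N _ h.1 h.2 j)))
    refine circ (by positivity) hz (an z hz') (hp _ (fun ω => Φ (t, ω)) (c t) t5.2 t6.le
      (fun ξ k1 k2 => an ξ (t7 ξ k1 (by linarith))) (fun ω k1 k2 => ?_) ⟨z, hz, h0⟩)
    obtain ⟨j1, j2, j3, -⟩ := ho3 t1 ω ⟨k1, k2⟩
    have j4 := (A.comp N (fun q => N (q.1, c q.1 * q.2)) (t, ω) Φ (t4 _ j3).1 j1 j2 (by
      filter_upwards [(ho2.prod hK).mem_nhds (show (t, ω) ∈ _ from ⟨t1, k1, k2⟩)] with q hq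
      exact (ho3 hq.1 q.2 hq.2).2.2.2)).2
    have j5 := (scale t5.1 t5.2 (t3 ω k1 k2)).2
    refine ⟨sl_an j1, t2 ω ⟨k1, k2⟩, ?_⟩
    rw [(dw_at j1).deriv]
    linear_combination α * (j4 i - j5 i) - β * (j4 j - j5 j)
  refine A.vert N t z (A.cf N (t, z)) t9 hz'.1 hz'.2 ?_
  by_cases h0 : ∃ j, A.cf N (t, z) j ≠ 0
  · obtain ⟨j, hj⟩ := h0
    filter_upwards [eventually_all.2 fun i => key (A.cf N (t, z) j) (A.cf N (t, z) i) i j (by ring)]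
      with ξ hξ
    refine ⟨A.cf N (t, ξ) j / A.cf N (t, z) j, fun l => ?_⟩
    field_simp
    linear_combination hξ l
  · push Not at h0
    filter_upwards [eventually_all.2 fun i => key 1 0 i i (by simp [h0])] with ξ hξ
    exact ⟨0, fun l => by simpa using hξ l⟩

end Pool.Agent.MP_c69980_ag.G3
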